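import Mathlib

/-!
# Weighted nibble: definitions

Finite hypergraph: vertex set `V`, index set `I`, edges `e i ⊆ V` with `r` elements, weights `w i ≥ 0`.
-/

open Finset

namespace SqCyc

section
variable {α ι : Type} [DecidableEq α] [DecidableEq ι]

/-- weight of the subset `S` of `I` when every `i ∈ I` is selected independently with probability `p i` -/
noncomputable def bern (I : Finset ι) (p : ι → ℝ) (S : Finset ι) : ℝ :=
  (∏ i ∈ S, p i) * ∏ i ∈ I \ S, (1 - p i)

/-- weighted degree of `v` -/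
noncomputable def deg (I : Finset ι) (e : ι → Finset α) (w : ι → ℝ) (v : α) : ℝ :=
  ∑ i ∈ I.filter (fun i => v ∈ e i), w i

/-- weighted pair degree -/
noncomputable def pdeg (I : Finset ι) (e : ι → Finset α) (w : ι → ℝ) (u v : α) : ℝ :=
  ∑ i ∈ I.filter (fun i => u ∈ e i ∧ v ∈ e i), w i

/-- total deficiency -/
noncomputable def defc (V : Finset α) (I : Finset ι) (e : ι → Finset α) (w : ι → ℝ) : ℝ :=
  ∑ v ∈ V, (1 - deg I e w v)

structure NibSys (r : ℕ) (δ : ℝ) (V : Finset α) (I : Finset ι) (e : ι → Finset α) (w : ι → ℝ) :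
    Prop where
  sub : ∀ i ∈ I, e i ⊆ V
  card : ∀ i ∈ I, (e i).card = r
  nonneg : ∀ i ∈ I, 0 ≤ w i
  deg_le : ∀ v ∈ V, deg I e w v ≤ 1
  pdeg_le : ∀ u ∈ V, ∀ v ∈ V, u ≠ v → pdeg I e w u v ≤ δ

/-- equalizer probability of the vertex `v` -/
noncomputable def nxi (θ : ℝ) (I : Finset ι) (e : ι → Finset α) (w : ι → ℝ) (v : α) : ℝ :=
  (1 - θ) / ∏ i ∈ I.filter (fun i => v ∈ e i), (1 - θ * w i)

/-- probability of the outcome `(S, R)`: `S` = set of selected edges (edge `i` with probability
`θ * w i`), `R` = set of vertices kept by the equalizer (vertex `v` with probability `nxi v`) -/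
noncomputable def nP (θ : ℝ) (V : Finset α) (I : Finset ι) (e : ι → Finset α) (w : ι → ℝ)
    (S : Finset ι) (R : Finset α) : ℝ :=
  bern I (fun i => θ * w i) S * bern V (nxi θ I e w) R

/-- expectation -/
noncomputable def nE (θ : ℝ) (V : Finset α) (I : Finset ι) (e : ι → Finset α) (w : ι → ℝ)
    (f : Finset ι → Finset α → ℝ) : ℝ :=
  ∑ S ∈ I.powerset, ∑ R ∈ V.powerset, nP θ V I e w S R * f S R

/-- surviving vertices -/
def surv (V : Finset α) (e : ι → Finset α) (S : Finset ι) (R : Finset α) : Finset α :=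
  V.filter (fun v => v ∈ R ∧ ∀ i ∈ S, v ∉ e i)

/-- isolated selected edges -/
def isol (e : ι → Finset α) (S : Finset ι) : Finset ι :=
  S.filter (fun i => ∀ j ∈ S, j ≠ i → Disjoint (e i) (e j))

/-- edges inside `V'` -/
def inside (I : Finset ι) (e : ι → Finset α) (V' : Finset α) : Finset ι :=
  I.filter (fun i => e i ⊆ V')

/-- denominators of the new weights -/
noncomputable def nD (lam : ℝ) (I' : Finset ι) (e : ι → Finset α) (w : ι → ℝ) (i : ι) : ℝ :=
  1 + ∑ u ∈ e i, max 0 (lam * deg I' e w u - 1)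

/-- new weights -/
noncomputable def nw (lam : ℝ) (I' : Finset ι) (e : ι → Finset α) (w : ι → ℝ) (i : ι) : ℝ :=
  lam * w i / nD lam I' e w i

end

end SqCyc
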