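import Pool.Agent.Lib.SqCyc.NibDefs

section

/-! # NB-1 Bernoulli sums -/

open Finset

namespace SqCyc

section
variable {α ι : Type} [DecidableEq α] [DecidableEq ι]

theorem bern_nonneg (I : Finset ι) (p : ι → ℝ) (h : ∀ i ∈ I, 0 ≤ p i ∧ p i ≤ 1)
    (S : Finset ι) (hS : S ⊆ I) : 0 ≤ bern I p S := by
  unfold bern
  refine mul_nonneg (Finset.prod_nonneg fun i hi => (h i (hS hi)).1)
    (Finset.prod_nonneg fun i hi => ?_)
  have := (h i (Finset.mem_sdiff.1 hi).1).2
  linarith

theorem bern_sum (I J₁ J₂ : Finset ι) (p : ι → ℝ) (h1 : J₁ ⊆ I) (h2 : J₂ ⊆ I)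
    (hd : Disjoint J₁ J₂) :
    ∑ S ∈ I.powerset.filter (fun S => J₁ ⊆ S ∧ Disjoint S J₂), bern I p S
      = (∏ i ∈ J₁, p i) * ∏ i ∈ J₂, (1 - p i) := by
  set f : ι → ℝ := fun i => if i ∈ J₂ then 0 else p i with hf
  set g : ι → ℝ := fun i => if i ∈ J₁ then 0 else 1 - p i with hg
  have hsum : ∑ S ∈ I.powerset.filter (fun S => J₁ ⊆ S ∧ Disjoint S J₂), bern I p S
      = ∑ S ∈ I.powerset, (∏ i ∈ S, f i) * ∏ i ∈ I \ S, g i := by
    rw [Finset.sum_filter]
    refine Finset.sum_congr rfl fun S hS => ?_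
    rw [Finset.mem_powerset] at hS
    split_ifs with hc
    · unfold bern
      congr 1
      · refine Finset.prod_congr rfl fun i hi => ?_
        rw [hf]
        simp only
        rw [if_neg (Finset.disjoint_left.1 hc.2 hi)]
      · refine Finset.prod_congr rfl fun i hi => ?_
        rw [hg]
        simp only
        rw [if_neg fun hJ => (Finset.mem_sdiff.1 hi).2 (hc.1 hJ)]
    · symm
      rw [not_and_or] at hc
      rcases hc with hc | hc
      · obtain ⟨i, hi, hiS⟩ := Finset.not_subset.1 hc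
        have : ∏ i ∈ I \ S, g i = 0 :=
          Finset.prod_eq_zero (Finset.mem_sdiff.2 ⟨h1 hi, hiS⟩) (by simp [hg, hi])
        rw [this, mul_zero]
      · obtain ⟨i, hi, hiJ⟩ := Finset.not_disjoint_iff.1 hc
        have : ∏ i ∈ S, f i = 0 := Finset.prod_eq_zero hi (by simp [hf, hiJ])
        rw [this, zero_mul]
  rw [hsum, ← Finset.prod_add]
  have hfg : ∀ i ∈ I, f i + g i = (if i ∈ J₁ then p i else 1) * (if i ∈ J₂ then 1 - p i else 1) := by
    intro i _
    by_cases hi1 : i ∈ J₁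
    · have hi2 : i ∉ J₂ := Finset.disjoint_left.1 hd hi1
      simp [hf, hg, hi1, hi2]
    · by_cases hi2 : i ∈ J₂
      · simp [hf, hg, hi1, hi2]
      · simp [hf, hg, hi1, hi2]
  rw [Finset.prod_congr rfl hfg, Finset.prod_mul_distrib, Finset.prod_ite_mem, Finset.prod_ite_mem,
    Finset.inter_eq_right.2 h1, Finset.inter_eq_right.2 h2]

end

end SqCyc
end

section

/-! # NB-5 the new weights -/

open Finset

namespace SqCyc

section
variable {α ι : Type} [DecidableEq α] [DecidableEq ι]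

theorem nwf_D_ge_one (lam : ℝ) (I' : Finset ι) (e : ι → Finset α) (w : ι → ℝ) (i : ι) :
    1 ≤ nD lam I' e w i := by
  unfold nD
  have : 0 ≤ ∑ u ∈ e i, max 0 (lam * deg I' e w u - 1) :=
    Finset.sum_nonneg (fun u _ => le_max_left _ _)
  linarith

theorem nwf_D_ge (lam : ℝ) (I' : Finset ι) (e : ι → Finset α) (w : ι → ℝ) (i : ι) (v : α)
    (hv : v ∈ e i) : lam * deg I' e w v ≤ nD lam I' e w i := by
  unfold nD
  have h1 : max 0 (lam * deg I' e w v - 1) ≤ ∑ u ∈ e i, max 0 (lam * deg I' e w u - 1) :=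
    Finset.single_le_sum (f := fun u => max 0 (lam * deg I' e w u - 1))
      (fun u _ => le_max_left _ _) hv
  have h2 : lam * deg I' e w v - 1 ≤ max 0 (lam * deg I' e w v - 1) := le_max_right _ _
  linarith

theorem nwf_deg_inside_le {r : ℕ} {δ : ℝ} {V : Finset α} {I : Finset ι} {e : ι → Finset α}
    {w : ι → ℝ} (hs : NibSys r δ V I e w) (V' : Finset α) (v : α) :
    deg (inside I e V') e w v ≤ deg I e w v := by
  unfold deg inside
  apply Finset.sum_le_sum_of_subset_of_nonneg
  · intro i hi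
    simp only [Finset.mem_filter] at hi ⊢
    exact ⟨hi.1.1, hi.2⟩
  · intro i hi _
    exact hs.nonneg i (Finset.mem_filter.mp hi).1

theorem nwf_pdeg_inside_le {r : ℕ} {δ : ℝ} {V : Finset α} {I : Finset ι} {e : ι → Finset α}
    {w : ι → ℝ} (hs : NibSys r δ V I e w) (V' : Finset α) (u v : α) :
    pdeg (inside I e V') e w u v ≤ pdeg I e w u v := by
  unfold pdeg inside
  apply Finset.sum_le_sum_of_subset_of_nonneg
  · intro i hi
    simp only [Finset.mem_filter] at hi ⊢
    exact ⟨hi.1.1, hi.2⟩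
  · intro i hi _
    exact hs.nonneg i (Finset.mem_filter.mp hi).1

/-- pointwise facts about the new weights -/
theorem nw_facts {r : ℕ} {δ lam : ℝ} {V : Finset α} {I : Finset ι} {e : ι → Finset α}
    {w : ι → ℝ} (hs : NibSys r δ V I e w) (hr : 1 ≤ r) (hlam : 1 ≤ lam)
    (V' : Finset α) (hV' : V' ⊆ V) :
    NibSys r (lam * δ) V' (inside I e V') e (nw lam (inside I e V') e w) ∧
    defc V' (inside I e V') e (nw lam (inside I e V') e w)
      ≤ (∑ v ∈ V', (1 - lam * deg (inside I e V') e w v)) +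
        r * lam * ∑ u ∈ V', max 0 (lam * deg (inside I e V') e w u - 1) := by
  set I' := inside I e V' with hI'
  have hlam0 : (0 : ℝ) ≤ lam := by linarith
  have hI'I : ∀ i ∈ I', i ∈ I := fun i hi => (Finset.mem_filter.mp hi).1
  have hI'V : ∀ i ∈ I', e i ⊆ V' := fun i hi => (Finset.mem_filter.mp hi).2
  have hw : ∀ i ∈ I', 0 ≤ w i := fun i hi => hs.nonneg i (hI'I i hi)
  have hD1 : ∀ i, 1 ≤ nD lam I' e w i := fun i => nwf_D_ge_one lam I' e w i
  have hD0 : ∀ i, 0 < nD lam I' e w i := fun i => lt_of_lt_of_le one_pos (hD1 i)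
  have hlw : ∀ i ∈ I', 0 ≤ lam * w i := fun i hi => mul_nonneg hlam0 (hw i hi)
  have hnw0 : ∀ i ∈ I', 0 ≤ nw lam I' e w i := fun i hi =>
    div_nonneg (hlw i hi) (hD0 i).le
  have hnwle : ∀ i ∈ I', nw lam I' e w i ≤ lam * w i := fun i hi =>
    div_le_self (hlw i hi) (hD1 i)
  have hS1 : ∀ v ∈ V', deg I' e w v ≤ 1 := fun v hv =>
    (nwf_deg_inside_le hs V' v).trans (hs.deg_le v (hV' hv))
  refine ⟨⟨hI'V, fun i hi => hs.card i (hI'I i hi), hnw0, ?_, ?_⟩, ?_⟩
  · intro v hv
    by_cases hc : lam * deg I' e w v ≤ 1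
    · calc deg I' e (nw lam I' e w) v ≤ lam * deg I' e w v := by
            unfold deg
            rw [Finset.mul_sum]
            exact Finset.sum_le_sum (fun i hi => hnwle i (Finset.mem_filter.mp hi).1)
        _ ≤ 1 := hc
    · push Not at hc
      have hpos : 0 < lam * deg I' e w v := by linarith
      calc deg I' e (nw lam I' e w) v
          ≤ ∑ i ∈ I'.filter (fun i => v ∈ e i), lam * w i / (lam * deg I' e w v) := by
            unfold deg
            apply Finset.sum_le_sum
            intro i hi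
            have h1 := Finset.mem_filter.mp hi
            unfold nw
            exact div_le_div_of_nonneg_left (hlw i h1.1) hpos
              (nwf_D_ge lam I' e w i v h1.2)
        _ = (lam * deg I' e w v) / (lam * deg I' e w v) := by
            rw [← Finset.sum_div, ← Finset.mul_sum]
            rfl
        _ = 1 := div_self hpos.ne'
        _ ≤ 1 := le_refl _
  · intro u hu v hv huv
    calc pdeg I' e (nw lam I' e w) u v ≤ lam * pdeg I' e w u v := by
          unfold pdeg
          rw [Finset.mul_sum]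
          exact Finset.sum_le_sum (fun i hi => hnwle i (Finset.mem_filter.mp hi).1)
      _ ≤ lam * δ := by
          apply mul_le_mul_of_nonneg_left _ hlam0
          exact (nwf_pdeg_inside_le hs V' u v).trans (hs.pdeg_le u (hV' hu) v (hV' hv) huv)
  · have key : ∀ v, lam * deg I' e w v - deg I' e (nw lam I' e w) v
        ≤ ∑ i ∈ I'.filter (fun i => v ∈ e i),
            lam * w i * ∑ u ∈ e i, max 0 (lam * deg I' e w u - 1) := by
      intro v
      have h1 : lam * deg I' e w v - deg I' e (nw lam I' e w) v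
          = ∑ i ∈ I'.filter (fun i => v ∈ e i), (lam * w i - nw lam I' e w i) := by
        unfold deg
        rw [Finset.mul_sum, Finset.sum_sub_distrib]
      rw [h1]
      apply Finset.sum_le_sum
      intro i hi
      have hi' := (Finset.mem_filter.mp hi).1
      have h2 : nD lam I' e w i - 1 = ∑ u ∈ e i, max 0 (lam * deg I' e w u - 1) := by
        unfold nD
        ring
      rw [← h2]
      have h3 : lam * w i - nw lam I' e w i = lam * w i * (1 - 1 / nD lam I' e w i) := by
        unfold nw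
        ring
      rw [h3]
      apply mul_le_mul_of_nonneg_left _ (hlw i hi')
      have hd := hD0 i
      have hd1 := hD1 i
      have h4 : 1 - 1 / nD lam I' e w i = (nD lam I' e w i - 1) / nD lam I' e w i := by
        field_simp
      rw [h4]
      exact div_le_self (by linarith) hd1
    have hsum : ∑ v ∈ V', ∑ i ∈ I'.filter (fun i => v ∈ e i),
            lam * w i * ∑ u ∈ e i, max 0 (lam * deg I' e w u - 1)
        = ∑ i ∈ I', (r : ℝ) * (lam * w i * ∑ u ∈ e i, max 0 (lam * deg I' e w u - 1)) := by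
      simp_rw [Finset.sum_filter]
      rw [Finset.sum_comm]
      apply Finset.sum_congr rfl
      intro i hi
      rw [← Finset.sum_filter, Finset.sum_const]
      have h5 : V'.filter (fun v => v ∈ e i) = e i := by
        ext v
        simp only [Finset.mem_filter]
        exact ⟨fun h => h.2, fun h => ⟨hI'V i hi h, h⟩⟩
      rw [h5, hs.card i (hI'I i hi), nsmul_eq_mul]
    have hsum2 : ∑ i ∈ I', (r : ℝ) * (lam * w i * ∑ u ∈ e i, max 0 (lam * deg I' e w u - 1))
        = r * lam * ∑ u ∈ V', max 0 (lam * deg I' e w u - 1) * deg I' e w u := by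
      have h6 : ∀ i ∈ I', (r : ℝ) * (lam * w i * ∑ u ∈ e i, max 0 (lam * deg I' e w u - 1))
          = r * lam * ∑ u ∈ V', (if u ∈ e i then max 0 (lam * deg I' e w u - 1) * w i else 0) := by
        intro i hi
        rw [← Finset.sum_filter]
        have h5 : V'.filter (fun v => v ∈ e i) = e i := by
          ext v
          simp only [Finset.mem_filter]
          exact ⟨fun h => h.2, fun h => ⟨hI'V i hi h, h⟩⟩
        rw [h5, ← Finset.sum_mul]
        ring
      rw [Finset.sum_congr rfl h6, ← Finset.mul_sum, Finset.sum_comm]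
      congr 1
      apply Finset.sum_congr rfl
      intro u hu
      rw [← Finset.sum_filter, ← Finset.mul_sum]
      rfl
    have hle : ∑ u ∈ V', max 0 (lam * deg I' e w u - 1) * deg I' e w u
        ≤ ∑ u ∈ V', max 0 (lam * deg I' e w u - 1) := by
      apply Finset.sum_le_sum
      intro u hu
      calc max 0 (lam * deg I' e w u - 1) * deg I' e w u
          ≤ max 0 (lam * deg I' e w u - 1) * 1 :=
            mul_le_mul_of_nonneg_left (hS1 u hu) (le_max_left _ _)
        _ = _ := mul_one _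
    have hdef : defc V' I' e (nw lam I' e w)
        = (∑ v ∈ V', (1 - lam * deg I' e w v))
          + ∑ v ∈ V', (lam * deg I' e w v - deg I' e (nw lam I' e w) v) := by
      unfold defc
      rw [← Finset.sum_add_distrib]
      apply Finset.sum_congr rfl
      intro v _
      ring
    rw [hdef]
    have h7 : ∑ v ∈ V', (lam * deg I' e w v - deg I' e (nw lam I' e w) v)
        ≤ r * lam * ∑ u ∈ V', max 0 (lam * deg I' e w u - 1) := by
      calc _ ≤ ∑ v ∈ V', ∑ i ∈ I'.filter (fun i => v ∈ e i),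
            lam * w i * ∑ u ∈ e i, max 0 (lam * deg I' e w u - 1) :=
            Finset.sum_le_sum (fun v _ => key v)
        _ = r * lam * ∑ u ∈ V', max 0 (lam * deg I' e w u - 1) * deg I' e w u := by
            rw [hsum, hsum2]
        _ ≤ _ := mul_le_mul_of_nonneg_left hle (by positivity)
    linarith

end

end SqCyc
end

section

/-! # NB-2 the probability space of one nibble step -/

open Finset

namespace SqCyc

section
variable {α ι : Type} [DecidableEq α] [DecidableEq ι]

omit [DecidableEq ι] in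
private theorem nib2_w_le {r : ℕ} {δ : ℝ} {V : Finset α} {I : Finset ι} {e : ι → Finset α}
    {w : ι → ℝ} (hs : NibSys r δ V I e w) (hr : 1 ≤ r) {i : ι} (hi : i ∈ I) : w i ≤ 1 := by
  have hc := hs.card i hi
  have hne : (e i).Nonempty := by
    rw [← Finset.card_pos]
    omega
  obtain ⟨v, hv⟩ := hne
  have hvV := hs.sub i hi hv
  refine le_trans ?_ (hs.deg_le v hvV)
  unfold deg
  refine Finset.single_le_sum (f := w) (fun j hj => ?_) (Finset.mem_filter.mpr ⟨hi, hv⟩)
  exact hs.nonneg j (Finset.mem_filter.mp hj).1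

omit [DecidableEq ι] in
private theorem nib2_tw {r : ℕ} {δ θ : ℝ} {V : Finset α} {I : Finset ι} {e : ι → Finset α}
    {w : ι → ℝ} (hs : NibSys r δ V I e w) (hr : 1 ≤ r) (hθ : 0 ≤ θ) (hθ1 : θ ≤ 1 / 2) {i : ι}
    (hi : i ∈ I) : 0 ≤ θ * w i ∧ θ * w i ≤ 1 / 2 := by
  have h0 := hs.nonneg i hi
  have h1 := nib2_w_le hs hr hi
  constructor
  · positivity
  · nlinarith

private theorem nib2_weierstrass (J : Finset ι) (x : ι → ℝ) (h : ∀ i ∈ J, 0 ≤ x i ∧ x i ≤ 1) :
    1 - ∑ i ∈ J, x i ≤ ∏ i ∈ J, (1 - x i) ∧ 0 ≤ ∏ i ∈ J, (1 - x i) ∧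
      ∏ i ∈ J, (1 - x i) ≤ 1 := by
  induction J using Finset.induction_on with
  | empty => simp
  | insert a s ha ih =>
    rw [Finset.prod_insert ha, Finset.sum_insert ha]
    obtain ⟨h1, h2, h3⟩ := ih (fun i hi => h i (Finset.mem_insert_of_mem hi))
    obtain ⟨g1, g2⟩ := h a (Finset.mem_insert_self _ _)
    have hsum : 0 ≤ ∑ i ∈ s, x i := Finset.sum_nonneg fun i hi =>
      (h i (Finset.mem_insert_of_mem hi)).1
    refine ⟨?_, ?_, ?_⟩
    · nlinarith
    · exact mul_nonneg (by linarith) h2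
    · nlinarith

theorem nxi_mem {r : ℕ} {δ θ : ℝ} {V : Finset α} {I : Finset ι} {e : ι → Finset α} {w : ι → ℝ}
    (hs : NibSys r δ V I e w) (hr : 1 ≤ r) (hθ : 0 ≤ θ) (hθ1 : θ ≤ 1 / 2) {v : α} (hv : v ∈ V) :
    0 ≤ nxi θ I e w v ∧ nxi θ I e w v ≤ 1 := by
  have h1 := nib2_weierstrass (I.filter (fun i => v ∈ e i)) (fun i => θ * w i) (fun i hi => by
    have := nib2_tw hs hr hθ hθ1 (Finset.mem_filter.mp hi).1
    exact ⟨this.1, by linarith [this.2]⟩)
  have h2 : ∑ i ∈ I.filter (fun i => v ∈ e i), θ * w i ≤ θ := by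
    rw [← Finset.mul_sum]
    have := hs.deg_le v hv
    unfold deg at this
    nlinarith
  have h3 : 1 - θ ≤ ∏ i ∈ I.filter (fun i => v ∈ e i), (1 - θ * w i) := by linarith [h1.1]
  have h4 : 0 < ∏ i ∈ I.filter (fun i => v ∈ e i), (1 - θ * w i) := by linarith
  unfold nxi
  constructor
  · exact div_nonneg (by linarith) h4.le
  · rw [div_le_one h4]
    exact h3

theorem nP_nonneg {r : ℕ} {δ θ : ℝ} {V : Finset α} {I : Finset ι} {e : ι → Finset α} {w : ι → ℝ}
    (hs : NibSys r δ V I e w) (hr : 1 ≤ r) (hθ : 0 ≤ θ) (hθ1 : θ ≤ 1 / 2)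
    {S : Finset ι} (hS : S ⊆ I) {R : Finset α} (hR : R ⊆ V) : 0 ≤ nP θ V I e w S R := by
  unfold nP
  refine mul_nonneg (bern_nonneg I _ (fun i hi => ?_) S hS)
    (bern_nonneg V _ (fun v hv => nxi_mem hs hr hθ hθ1 hv) R hR)
  have := nib2_tw hs hr hθ hθ1 hi
  exact ⟨this.1, by linarith [this.2]⟩

private theorem nib2_bern_one (I : Finset ι) (p : ι → ℝ) : ∑ S ∈ I.powerset, bern I p S = 1 := by
  have h := bern_sum I ∅ ∅ p (Finset.empty_subset _) (Finset.empty_subset _)
    (Finset.disjoint_empty_left _)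
  have h2 : I.powerset.filter (fun S => ∅ ⊆ S ∧ Disjoint S ∅) = I.powerset := by
    apply Finset.filter_true_of_mem
    intro S _
    exact ⟨Finset.empty_subset _, Finset.disjoint_empty_right _⟩
  rw [h2] at h
  simpa using h

theorem nE_one {r : ℕ} {δ θ : ℝ} {V : Finset α} {I : Finset ι} {e : ι → Finset α} {w : ι → ℝ}
    (hs : NibSys r δ V I e w) (hr : 1 ≤ r) (hθ : 0 ≤ θ) (hθ1 : θ ≤ 1 / 2) :
    nE θ V I e w (fun _ _ => 1) = 1 := by
  unfold nE nP
  simp only [mul_one]
  simp_rw [← Finset.mul_sum]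
  rw [← Finset.sum_mul, nib2_bern_one, nib2_bern_one, one_mul]

open Classical in
/-- probability that all vertices of `U` survive -/
theorem nE_surv_eq {r : ℕ} {δ θ : ℝ} {V : Finset α} {I : Finset ι} {e : ι → Finset α} {w : ι → ℝ}
    (hs : NibSys r δ V I e w) (hr : 1 ≤ r) (hθ : 0 ≤ θ) (hθ1 : θ ≤ 1 / 2)
    {U : Finset α} (hU : U ⊆ V) :
    nE θ V I e w (fun S R => if U ⊆ surv V e S R then 1 else 0)
      = (∏ i ∈ I.filter (fun i => ¬ Disjoint (e i) U), (1 - θ * w i)) *
          ∏ v ∈ U, nxi θ I e w v := by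
  set J : Finset ι := I.filter (fun i => ¬ Disjoint (e i) U) with hJ
  have key : ∀ S ∈ I.powerset, ∀ R ∈ V.powerset, (U ⊆ surv V e S R ↔ Disjoint S J ∧ U ⊆ R) := by
    intro S hS R _
    rw [Finset.mem_powerset] at hS
    constructor
    · intro h
      constructor
      · rw [Finset.disjoint_left]
        intro i hi hiJ
        rw [hJ, Finset.mem_filter] at hiJ
        apply hiJ.2
        rw [Finset.disjoint_left]
        intro v hv hvU
        have := h hvU
        unfold surv at this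
        rw [Finset.mem_filter] at this
        exact this.2.2 i hi hv
      · intro v hv
        have := h hv
        unfold surv at this
        rw [Finset.mem_filter] at this
        exact this.2.1
    · rintro ⟨h1, h2⟩ v hv
      unfold surv
      rw [Finset.mem_filter]
      refine ⟨hU hv, h2 hv, fun i hi hvi => ?_⟩
      rw [Finset.disjoint_left] at h1
      apply h1 hi
      rw [hJ, Finset.mem_filter]
      refine ⟨hS hi, fun hd => ?_⟩
      rw [Finset.disjoint_left] at hd
      exact hd hvi hv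
  have f1 := bern_sum I ∅ J (fun i => θ * w i) (Finset.empty_subset _) (Finset.filter_subset _ _)
    (Finset.disjoint_empty_left _)
  have f2 := bern_sum V U ∅ (nxi θ I e w) hU (Finset.empty_subset _)
    (Finset.disjoint_empty_right _)
  rw [Finset.prod_empty, one_mul] at f1
  rw [Finset.prod_empty, mul_one] at f2
  rw [← f1, ← f2]
  unfold nE nP
  rw [Finset.sum_filter, Finset.sum_filter, Finset.sum_mul_sum]
  refine Finset.sum_congr rfl fun S hS => Finset.sum_congr rfl fun R hR => ?_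
  have hk := key S hS R hR
  beta_reduce
  by_cases hA : Disjoint S J
  · by_cases hB : U ⊆ R
    · rw [if_pos (hk.mpr ⟨hA, hB⟩), if_pos ⟨Finset.empty_subset _, hA⟩,
        if_pos ⟨hB, Finset.disjoint_empty_right _⟩, mul_one]
    · rw [if_neg (fun h => hB (hk.mp h).2),
        if_neg (show ¬ (U ⊆ R ∧ Disjoint R ∅) from fun h => hB h.1), mul_zero, mul_zero]
  · rw [if_neg (fun h => hA (hk.mp h).1), if_neg (fun h => hA h.2), mul_zero, zero_mul]

theorem nE_mono {r : ℕ} {δ θ : ℝ} {V : Finset α} {I : Finset ι} {e : ι → Finset α} {w : ι → ℝ}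
    (hs : NibSys r δ V I e w) (hr : 1 ≤ r) (hθ : 0 ≤ θ) (hθ1 : θ ≤ 1 / 2)
    {f g : Finset ι → Finset α → ℝ} (h : ∀ S ⊆ I, ∀ R ⊆ V, f S R ≤ g S R) :
    nE θ V I e w f ≤ nE θ V I e w g := by
  unfold nE
  refine Finset.sum_le_sum fun S hS => Finset.sum_le_sum fun R hR => ?_
  rw [Finset.mem_powerset] at hS hR
  exact mul_le_mul_of_nonneg_left (h S hS R hR) (nP_nonneg hs hr hθ hθ1 hS hR)

theorem nE_add (θ : ℝ) (V : Finset α) (I : Finset ι) (e : ι → Finset α) (w : ι → ℝ)
    (f g : Finset ι → Finset α → ℝ) :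
    nE θ V I e w (fun S R => f S R + g S R) = nE θ V I e w f + nE θ V I e w g := by
  unfold nE
  simp_rw [mul_add, Finset.sum_add_distrib]

theorem nE_smul (θ : ℝ) (V : Finset α) (I : Finset ι) (e : ι → Finset α) (w : ι → ℝ) (c : ℝ)
    (f : Finset ι → Finset α → ℝ) :
    nE θ V I e w (fun S R => c * f S R) = c * nE θ V I e w f := by
  unfold nE
  simp_rw [Finset.mul_sum]
  refine Finset.sum_congr rfl fun S _ => Finset.sum_congr rfl fun R _ => ?_
  ring

theorem nE_sum {κ : Type} (θ : ℝ) (V : Finset α) (I : Finset ι) (e : ι → Finset α) (w : ι → ℝ)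
    (J : Finset κ) (f : κ → Finset ι → Finset α → ℝ) :
    nE θ V I e w (fun S R => ∑ j ∈ J, f j S R) = ∑ j ∈ J, nE θ V I e w (f j) := by
  unfold nE
  simp_rw [Finset.mul_sum]
  rw [Finset.sum_comm (s := J)]
  refine Finset.sum_congr rfl fun S _ => ?_
  rw [Finset.sum_comm]

/-- some outcome is at most the expectation -/
theorem exists_le_nE {r : ℕ} {δ θ : ℝ} {V : Finset α} {I : Finset ι} {e : ι → Finset α}
    {w : ι → ℝ} (hs : NibSys r δ V I e w) (hr : 1 ≤ r) (hθ : 0 ≤ θ) (hθ1 : θ ≤ 1 / 2)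
    (f : Finset ι → Finset α → ℝ) (a : ℝ) (h : nE θ V I e w f ≤ a) :
    ∃ S ⊆ I, ∃ R ⊆ V, f S R ≤ a := by
  obtain ⟨q, hq, hmin⟩ := Finset.exists_min_image (I.powerset ×ˢ V.powerset)
    (fun q => f q.1 q.2) ⟨(∅, ∅), by simp⟩
  rw [Finset.mem_product, Finset.mem_powerset, Finset.mem_powerset] at hq
  refine ⟨q.1, hq.1, q.2, hq.2, ?_⟩
  have h1 : nE θ V I e w (fun _ _ => f q.1 q.2 * 1) ≤ nE θ V I e w f := by
    apply nE_mono hs hr hθ hθ1
    intro S hS R hR
    rw [mul_one]
    exact hmin (S, R) (by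
      rw [Finset.mem_product, Finset.mem_powerset, Finset.mem_powerset]
      exact ⟨hS, hR⟩)
  have h2 := nE_smul θ V I e w (f q.1 q.2) (fun _ _ => (1 : ℝ))
  rw [h2, nE_one hs hr hθ hθ1, mul_one] at h1
  linarith

end

end SqCyc
end

section

/-! # NB-3 bounds for survival probabilities -/

open Finset

namespace SqCyc

section
variable {α ι : Type} [DecidableEq α] [DecidableEq ι]

/-- weights are at most one -/
private theorem nib2b_w_le {r : ℕ} {δ : ℝ} {V : Finset α} {I : Finset ι} {e : ι → Finset α}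
    {w : ι → ℝ} (hs : NibSys r δ V I e w) (hr : 1 ≤ r) {i : ι} (hi : i ∈ I) : w i ≤ 1 := by
  have hc := hs.card i hi
  have hne : (e i).Nonempty := by
    rw [← Finset.card_pos]; omega
  obtain ⟨v, hv⟩ := hne
  have h1 := hs.deg_le v (hs.sub i hi hv)
  have h2 : w i ≤ deg I e w v := by
    unfold deg
    exact Finset.single_le_sum (f := w) (s := I.filter (fun i => v ∈ e i))
      (fun j hj => hs.nonneg j (Finset.mem_filter.mp hj).1) (Finset.mem_filter.mpr ⟨hi, hv⟩)
  linarith

/-- the double product -/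
private theorem nib2b_prod (θ : ℝ) (I : Finset ι) (e : ι → Finset α) (w : ι → ℝ)
    (U : Finset α) :
    ∏ v ∈ U, ∏ i ∈ I.filter (fun i => v ∈ e i), (1 - θ * w i)
      = ∏ i ∈ I, (1 - θ * w i) ^ (U.filter (fun v => v ∈ e i)).card := by
  rw [Finset.prod_comm' (t' := I) (s' := fun i => U.filter (fun v => v ∈ e i))]
  · apply Finset.prod_congr rfl
    intro i _
    rw [Finset.prod_const]
  · intro v i
    simp only [Finset.mem_filter]
    tauto

/-- formula for the survival probability -/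
private theorem nib2b_formula {r : ℕ} {δ θ : ℝ} {V : Finset α} {I : Finset ι}
    {e : ι → Finset α} {w : ι → ℝ}
    (hs : NibSys r δ V I e w) (hr : 1 ≤ r) (hθ : 0 ≤ θ) (hθ1 : θ ≤ 1 / 2)
    {U : Finset α} (hU : U ⊆ V) :
    nE θ V I e w (fun S R => if U ⊆ surv V e S R then 1 else 0) =
      (1 - θ) ^ U.card *
        ∏ i ∈ I, ((1 - θ * w i)⁻¹) ^ ((U.filter (fun v => v ∈ e i)).card - 1) := by
  have h0 := nE_surv_eq hs hr hθ hθ1 hU
  have h1 : nE θ V I e w (fun S R => if U ⊆ surv V e S R then 1 else 0) =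
      (∏ i ∈ I.filter (fun i => ¬ Disjoint (e i) U), (1 - θ * w i)) *
          ∏ v ∈ U, nxi θ I e w v := by
    convert h0
  rw [h1]
  have hpos : ∀ i ∈ I, 0 < 1 - θ * w i := by
    intro i hi
    have a1 := nib2b_w_le hs hr hi
    have a2 := hs.nonneg i hi
    nlinarith
  have h2 : ∏ v ∈ U, nxi θ I e w v =
      (1 - θ) ^ U.card / ∏ i ∈ I, (1 - θ * w i) ^ (U.filter (fun v => v ∈ e i)).card := by
    unfold nxi
    rw [Finset.prod_div_distrib, Finset.prod_const, nib2b_prod]
  rw [h2]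
  have h3 : ∏ i ∈ I.filter (fun i => ¬ Disjoint (e i) U), (1 - θ * w i) =
      ∏ i ∈ I, if ¬ Disjoint (e i) U then (1 - θ * w i) else 1 := by
    rw [Finset.prod_filter]
  rw [h3]
  have h4 : ∏ i ∈ I, ((1 - θ * w i)⁻¹) ^ ((U.filter (fun v => v ∈ e i)).card - 1) =
      (∏ i ∈ I, if ¬ Disjoint (e i) U then (1 - θ * w i) else 1) /
        ∏ i ∈ I, (1 - θ * w i) ^ (U.filter (fun v => v ∈ e i)).card := by
    rw [← Finset.prod_div_distrib]
    apply Finset.prod_congr rfl
    intro i hi
    have hp := hpos i hi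
    by_cases hd : Disjoint (e i) U
    · have h5 : (U.filter (fun v => v ∈ e i)).card = 0 := by
        rw [Finset.card_eq_zero, Finset.filter_eq_empty_iff]
        intro v hv hve
        exact (Finset.disjoint_left.mp hd) hve hv
      rw [h5]
      simp [hd]
    · have h5 : 1 ≤ (U.filter (fun v => v ∈ e i)).card := by
        rw [Finset.one_le_card]
        rw [Finset.not_disjoint_iff] at hd
        obtain ⟨v, hv1, hv2⟩ := hd
        exact ⟨v, Finset.mem_filter.mpr ⟨hv2, hv1⟩⟩
      obtain ⟨m, hm⟩ : ∃ m, (U.filter (fun v => v ∈ e i)).card = m + 1 :=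
        ⟨(U.filter (fun v => v ∈ e i)).card - 1, by omega⟩
      rw [hm, if_pos hd, Nat.add_sub_cancel, pow_succ, inv_pow]
      field_simp
  rw [h4]
  ring

/-- lower bound `(1-θ)^|U|` -/
theorem nE_surv_ge {r : ℕ} {δ θ : ℝ} {V : Finset α} {I : Finset ι} {e : ι → Finset α} {w : ι → ℝ}
    (hs : NibSys r δ V I e w) (hr : 1 ≤ r) (hθ : 0 ≤ θ) (hθ1 : θ ≤ 1 / 2)
    {U : Finset α} (hU : U ⊆ V) :
    (1 - θ) ^ U.card ≤ nE θ V I e w (fun S R => if U ⊆ surv V e S R then 1 else 0) := by
  rw [nib2b_formula hs hr hθ hθ1 hU]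
  have hq : (0 : ℝ) ≤ (1 - θ) ^ U.card := pow_nonneg (by linarith) _
  have h1 : 1 ≤ ∏ i ∈ I, ((1 - θ * w i)⁻¹) ^ ((U.filter (fun v => v ∈ e i)).card - 1) := by
    have : ∏ i ∈ I, (1 : ℝ) ≤
        ∏ i ∈ I, ((1 - θ * w i)⁻¹) ^ ((U.filter (fun v => v ∈ e i)).card - 1) := by
      apply Finset.prod_le_prod
      · intro i _; exact zero_le_one
      · intro i hi
        have a1 := nib2b_w_le hs hr hi
        have a2 := hs.nonneg i hi
        apply one_le_pow₀
        rw [one_le_inv₀ (by nlinarith)]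
        nlinarith
    simpa using this
  nlinarith

/-- upper bound `(1-θ)^|U| exp(|U|^2 δ)` -/
theorem nE_surv_le {r : ℕ} {δ θ : ℝ} {V : Finset α} {I : Finset ι} {e : ι → Finset α} {w : ι → ℝ}
    (hs : NibSys r δ V I e w) (hr : 1 ≤ r) (hθ : 0 ≤ θ) (hθ1 : θ ≤ 1 / 2) (hδ : 0 ≤ δ)
    {U : Finset α} (hU : U ⊆ V) :
    nE θ V I e w (fun S R => if U ⊆ surv V e S R then 1 else 0)
      ≤ (1 - θ) ^ U.card * Real.exp (U.card ^ 2 * δ) := by
  rw [nib2b_formula hs hr hθ hθ1 hU]
  have hq : (0 : ℝ) ≤ (1 - θ) ^ U.card := pow_nonneg (by linarith) _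
  apply mul_le_mul_of_nonneg_left _ hq
  -- each factor
  have h1 : ∏ i ∈ I, ((1 - θ * w i)⁻¹) ^ ((U.filter (fun v => v ∈ e i)).card - 1) ≤
      ∏ i ∈ I, Real.exp (w i * (((U.filter (fun v => v ∈ e i)).card - 1 : ℕ) : ℝ)) := by
    apply Finset.prod_le_prod
    · intro i hi
      have a1 := nib2b_w_le hs hr hi
      have a2 := hs.nonneg i hi
      have : 0 < 1 - θ * w i := by nlinarith
      positivity
    · intro i hi
      have a1 := nib2b_w_le hs hr hi
      have a2 := hs.nonneg i hi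
      have a3 : 0 < 1 - θ * w i := by nlinarith
      have a4 : (1 - θ * w i)⁻¹ ≤ Real.exp (w i) := by
        rw [inv_le_comm₀ a3 (Real.exp_pos _), ← Real.exp_neg]
        -- exp(-w) ≤ 1 - θ w, for θ ≤ 1/2 and w in [0,1]
        have b1 : Real.exp (-(w i)) ≤ 1 - w i / 2 := by
          have b2 : 1 + w i ≤ Real.exp (w i) := by
            have := Real.add_one_le_exp (w i); linarith
          have b3 : 0 < 1 - w i / 2 := by linarith
          rw [Real.exp_neg, inv_le_comm₀ (Real.exp_pos _) b3]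
          have b4 : (1 - w i / 2)⁻¹ ≤ 1 + w i := by
            rw [inv_le_comm₀ b3 (by linarith)]
            rw [inv_le_comm₀ (by linarith) b3]
            rw [inv_eq_one_div, div_le_iff₀ b3]
            nlinarith
          linarith
        nlinarith
      calc ((1 - θ * w i)⁻¹) ^ ((U.filter (fun v => v ∈ e i)).card - 1)
          ≤ (Real.exp (w i)) ^ ((U.filter (fun v => v ∈ e i)).card - 1) :=
            pow_le_pow_left₀ (by positivity) a4 _
        _ = Real.exp (w i * (((U.filter (fun v => v ∈ e i)).card - 1 : ℕ) : ℝ)) := by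
            rw [← Real.exp_nat_mul, mul_comm]
  refine le_trans h1 ?_
  rw [← Real.exp_sum]
  apply Real.exp_le_exp.mpr
  -- compare with pair degrees
  have h2 : ∑ i ∈ I, w i * (((U.filter (fun v => v ∈ e i)).card - 1 : ℕ) : ℝ) ≤
      ∑ i ∈ I, ∑ p ∈ U.offDiag.filter (fun p => p.1 ∈ e i ∧ p.2 ∈ e i), w i := by
    apply Finset.sum_le_sum
    intro i hi
    have a2 := hs.nonneg i hi
    rw [Finset.sum_const, nsmul_eq_mul, mul_comm (w i)]
    apply mul_le_mul_of_nonneg_right _ a2
    have h3 : U.offDiag.filter (fun p => p.1 ∈ e i ∧ p.2 ∈ e i) =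
        (U.filter (fun v => v ∈ e i)).offDiag := by
      ext p
      simp only [Finset.mem_filter, Finset.mem_offDiag]
      tauto
    rw [h3, Finset.offDiag_card]
    have h4 : ∀ m : ℕ, m - 1 ≤ m * m - m := by
      intro m
      rcases m with _ | m
      · simp
      · have : (m + 1) * (m + 1) - (m + 1) = (m + 1) * m := by
          rw [Nat.mul_succ, Nat.add_sub_cancel]
        rw [this, Nat.add_sub_cancel]
        nlinarith
    exact_mod_cast h4 _
  refine le_trans h2 ?_
  have h5 : ∑ i ∈ I, ∑ p ∈ U.offDiag.filter (fun p => p.1 ∈ e i ∧ p.2 ∈ e i), w i =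
      ∑ p ∈ U.offDiag, pdeg I e w p.1 p.2 := by
    unfold pdeg
    rw [Finset.sum_comm' (t' := U.offDiag)
      (s' := fun p => I.filter (fun i => p.1 ∈ e i ∧ p.2 ∈ e i))]
    intro i p
    simp only [Finset.mem_filter]
    tauto
  rw [h5]
  have h6 : ∑ p ∈ U.offDiag, pdeg I e w p.1 p.2 ≤ ∑ p ∈ U.offDiag, δ := by
    apply Finset.sum_le_sum
    intro p hp
    rw [Finset.mem_offDiag] at hp
    exact hs.pdeg_le _ (hU hp.1) _ (hU hp.2.1) hp.2.2
  refine le_trans h6 ?_
  rw [Finset.sum_const, nsmul_eq_mul, Finset.offDiag_card]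
  apply mul_le_mul_of_nonneg_right _ hδ
  have h7 : U.card * U.card - U.card ≤ U.card ^ 2 := by
    rw [pow_two]; exact Nat.sub_le _ _
  exact_mod_cast h7

/-- a single vertex survives with probability exactly `1 - θ` -/
theorem nE_surv_one {r : ℕ} {δ θ : ℝ} {V : Finset α} {I : Finset ι} {e : ι → Finset α} {w : ι → ℝ}
    (hs : NibSys r δ V I e w) (hr : 1 ≤ r) (hθ : 0 ≤ θ) (hθ1 : θ ≤ 1 / 2)
    {v : α} (hv : v ∈ V) :
    nE θ V I e w (fun S R => if v ∈ surv V e S R then 1 else 0) = 1 - θ := by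
  have h1 := nib2b_formula hs hr hθ hθ1 (Finset.singleton_subset_iff.mpr hv)
  have h2 : nE θ V I e w (fun S R => if v ∈ surv V e S R then 1 else 0) =
      nE θ V I e w (fun S R => if ({v} : Finset α) ⊆ surv V e S R then 1 else 0) := by
    congr 1
    funext S R
    simp only [Finset.singleton_subset_iff]
  rw [h2, h1, Finset.card_singleton, pow_one]
  have h3 : ∏ i ∈ I, ((1 - θ * w i)⁻¹) ^ ((({v} : Finset α).filter (fun v => v ∈ e i)).card - 1)
      = 1 := by
    apply Finset.prod_eq_one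
    intro i _
    have : (({v} : Finset α).filter (fun v => v ∈ e i)).card ≤ 1 := by
      refine le_trans (Finset.card_filter_le _ _) ?_
      simp
    have h4 : (({v} : Finset α).filter (fun v => v ∈ e i)).card - 1 = 0 := by omega
    rw [h4, pow_zero]
  rw [h3, mul_one]

end

end SqCyc
end

section

/-! # NB-4 expected waste -/

open Finset

namespace SqCyc

section
variable {α ι : Type} [DecidableEq α] [DecidableEq ι]

private lemma nb4_one_sub_sum_le (s : Finset ι) (x : ι → ℝ) (h : ∀ i ∈ s, 0 ≤ x i ∧ x i ≤ 1) :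
    1 - ∑ i ∈ s, x i ≤ ∏ i ∈ s, (1 - x i) := by
  induction s using Finset.induction_on with
  | empty => simp
  | insert a s ha ih =>
    rw [Finset.sum_insert ha, Finset.prod_insert ha]
    have h1 := h a (Finset.mem_insert_self a s)
    have h2 := ih fun i hi => h i (Finset.mem_insert_of_mem hi)
    have h3 : 0 ≤ ∑ i ∈ s, x i := Finset.sum_nonneg fun i hi =>
      (h i (Finset.mem_insert_of_mem hi)).1
    have h4 : (1 - x a) * (1 - ∑ i ∈ s, x i) ≤ (1 - x a) * ∏ i ∈ s, (1 - x i) :=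
      mul_le_mul_of_nonneg_left h2 (by linarith [h1.2])
    nlinarith [mul_nonneg h1.1 h3]

private lemma nb4_congr (θ : ℝ) (V : Finset α) (I : Finset ι) (e : ι → Finset α) (w : ι → ℝ)
    {f g : Finset ι → Finset α → ℝ} (h : ∀ S ⊆ I, ∀ R ⊆ V, f S R = g S R) :
    nE θ V I e w f = nE θ V I e w g := by
  unfold nE
  refine Finset.sum_congr rfl fun S hS => Finset.sum_congr rfl fun R hR => ?_
  rw [h S (Finset.mem_powerset.1 hS) R (Finset.mem_powerset.1 hR)]

private lemma nb4_bern_one (V : Finset α) (p : α → ℝ) : ∑ R ∈ V.powerset, bern V p R = 1 := by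
  have h := bern_sum V ∅ ∅ p (Finset.empty_subset _) (Finset.empty_subset _)
    (Finset.disjoint_empty_left _)
  have h1 : V.powerset.filter (fun S => ∅ ⊆ S ∧ Disjoint S ∅) = V.powerset := by
    apply Finset.filter_true_of_mem
    intro S _
    exact ⟨Finset.empty_subset _, Finset.disjoint_empty_right _⟩
  rw [h1] at h
  simpa using h

/-- the edges meeting `e i` -/
private def nb4N (I : Finset ι) (e : ι → Finset α) (i : ι) : Finset ι :=
  I.filter (fun j => j ≠ i ∧ ¬ Disjoint (e i) (e j))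

private lemma nb4_mem_isol {I : Finset ι} {e : ι → Finset α} {S : Finset ι} (hS : S ⊆ I) (i : ι) :
    i ∈ isol e S ↔ ({i} ⊆ S ∧ Disjoint S (nb4N I e i)) := by
  unfold isol nb4N
  rw [Finset.mem_filter, Finset.singleton_subset_iff, Finset.disjoint_left]
  refine and_congr_right fun _ => ?_
  constructor
  · intro h j hj hj'
    rw [Finset.mem_filter] at hj'
    exact hj'.2.2 (h j hj hj'.2.1)
  · intro h j hj hji
    by_contra hne
    exact h hj (Finset.mem_filter.2 ⟨hS hj, hji, hne⟩)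

open Classical in
private lemma nb4_prob (θ : ℝ) (V : Finset α) (I : Finset ι) (e : ι → Finset α) (w : ι → ℝ)
    (i : ι) (hi : i ∈ I) :
    nE θ V I e w (fun S _ => if i ∈ isol e S then 1 else 0) =
      θ * w i * ∏ j ∈ nb4N I e i, (1 - θ * w j) := by
  have h1 : nE θ V I e w (fun S _ => if i ∈ isol e S then 1 else 0) =
      ∑ S ∈ I.powerset, bern I (fun i => θ * w i) S * (if i ∈ isol e S then 1 else 0) := by
    unfold nE nP
    refine Finset.sum_congr rfl fun S _ => ?_
    have h2 : ∀ R ∈ V.powerset, bern I (fun i => θ * w i) S * bern V (nxi θ I e w) R *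
        (if i ∈ isol e S then (1 : ℝ) else 0) =
        (bern I (fun i => θ * w i) S * (if i ∈ isol e S then 1 else 0)) *
          bern V (nxi θ I e w) R := fun R _ => by ring
    rw [Finset.sum_congr rfl h2, ← Finset.mul_sum, nb4_bern_one, mul_one]
  rw [h1]
  have h3 := bern_sum I {i} (nb4N I e i) (fun i => θ * w i)
    (Finset.singleton_subset_iff.2 hi) (Finset.filter_subset _ _) (by
      rw [Finset.disjoint_singleton_left]
      unfold nb4N
      rw [Finset.mem_filter]
      rintro ⟨-, h, -⟩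
      exact h rfl)
  rw [Finset.prod_singleton] at h3
  rw [← h3, Finset.sum_filter]
  refine Finset.sum_congr rfl fun S hS => ?_
  have h4 := nb4_mem_isol (e := e) (Finset.mem_powerset.1 hS) i
  by_cases h5 : i ∈ isol e S
  · rw [if_pos h5, if_pos (h4.1 h5), mul_one]
  · rw [if_neg h5, if_neg (fun h => h5 (h4.2 h)), mul_zero]

private lemma nb4_w_le {r : ℕ} {δ : ℝ} {V : Finset α} {I : Finset ι} {e : ι → Finset α}
    {w : ι → ℝ} (hs : NibSys r δ V I e w) (hr : 1 ≤ r) (i : ι) (hi : i ∈ I) : w i ≤ 1 := by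
  have h1 : (e i).Nonempty := by
    rw [← Finset.card_pos, hs.card i hi]
    omega
  obtain ⟨v, hv⟩ := h1
  refine le_trans ?_ (hs.deg_le v (hs.sub i hi hv))
  unfold deg
  exact Finset.single_le_sum (f := w)
    (fun j hj => hs.nonneg j (Finset.mem_filter.1 hj).1) (Finset.mem_filter.2 ⟨hi, hv⟩)

private lemma nb4_sumN {r : ℕ} {δ : ℝ} {V : Finset α} {I : Finset ι} {e : ι → Finset α}
    {w : ι → ℝ} (hs : NibSys r δ V I e w) (i : ι) (hi : i ∈ I) :
    ∑ j ∈ nb4N I e i, w j ≤ r := by
  have h1 : ∑ j ∈ nb4N I e i, w j ≤ ∑ v ∈ e i, deg I e w v := by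
    unfold deg
    have h2 : ∑ v ∈ e i, ∑ j ∈ I.filter (fun j => v ∈ e j), w j =
        ∑ j ∈ I, ∑ v ∈ (e i).filter (fun v => v ∈ e j), w j := by
      apply Finset.sum_comm'
      intro v j
      simp only [Finset.mem_filter]
      tauto
    rw [h2]
    calc ∑ j ∈ nb4N I e i, w j ≤ ∑ j ∈ nb4N I e i, ∑ v ∈ (e i).filter (fun v => v ∈ e j), w j := by
          refine Finset.sum_le_sum fun j hj => ?_
          unfold nb4N at hj
          rw [Finset.mem_filter] at hj
          obtain ⟨hjI, -, hnd⟩ := hj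
          rw [Finset.not_disjoint_iff] at hnd
          obtain ⟨v, hv, hv'⟩ := hnd
          rw [Finset.sum_const, nsmul_eq_mul]
          have h3 : 1 ≤ ((e i).filter (fun v => v ∈ e j)).card :=
            Finset.card_pos.2 ⟨v, Finset.mem_filter.2 ⟨hv, hv'⟩⟩
          have h4 : (1 : ℝ) ≤ (((e i).filter (fun v => v ∈ e j)).card : ℝ) := by exact_mod_cast h3
          have h5 := hs.nonneg j hjI
          nlinarith
      _ ≤ ∑ j ∈ I, ∑ v ∈ (e i).filter (fun v => v ∈ e j), w j := by
          apply Finset.sum_le_sum_of_subset_of_nonneg (Finset.filter_subset _ _)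
          intro j hj _
          exact Finset.sum_nonneg fun _ _ => hs.nonneg j hj
  refine h1.trans ?_
  calc ∑ v ∈ e i, deg I e w v ≤ ∑ v ∈ e i, (1 : ℝ) :=
        Finset.sum_le_sum fun v hv => hs.deg_le v (hs.sub i hi hv)
    _ = r := by
        rw [Finset.sum_const, hs.card i hi]
        simp

private lemma nb4_sum_deg {r : ℕ} {δ : ℝ} {V : Finset α} {I : Finset ι} {e : ι → Finset α}
    {w : ι → ℝ} (hs : NibSys r δ V I e w) : (r : ℝ) * ∑ i ∈ I, w i = V.card - defc V I e w := by
  have h1 : ∑ v ∈ V, deg I e w v = ∑ i ∈ I, ∑ v ∈ e i, w i := by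
    unfold deg
    apply Finset.sum_comm'
    intro v j
    simp only [Finset.mem_filter]
    constructor
    · rintro ⟨hv, hj, hvj⟩
      exact ⟨hvj, hj⟩
    · rintro ⟨hvj, hj⟩
      exact ⟨hs.sub j hj hvj, hj, hvj⟩
  have h2 : ∑ i ∈ I, ∑ v ∈ e i, w i = (r : ℝ) * ∑ i ∈ I, w i := by
    rw [Finset.mul_sum]
    refine Finset.sum_congr rfl fun i hi => ?_
    rw [Finset.sum_const, hs.card i hi, nsmul_eq_mul]
  unfold defc
  rw [Finset.sum_sub_distrib, h1, h2]
  simp

theorem nE_waste {r : ℕ} {δ θ : ℝ} {V : Finset α} {I : Finset ι} {e : ι → Finset α} {w : ι → ℝ}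
    (hs : NibSys r δ V I e w) (hr : 1 ≤ r) (hθ : 0 ≤ θ) (hθ1 : θ ≤ 1 / 2) :
    nE θ V I e w (fun S R =>
      (V.card : ℝ) - (surv V e S R).card - r * (isol e S).card)
      ≤ r * θ ^ 2 * V.card + θ * defc V I e w := by
  classical
  -- expand
  have h1 : nE θ V I e w (fun S R => (V.card : ℝ) - (surv V e S R).card - r * (isol e S).card) =
      nE θ V I e w (fun S R => ((V.card : ℝ) * 1 +
        (-1) * ∑ v ∈ V, (if v ∈ surv V e S R then (1 : ℝ) else 0)) +
        (-(r : ℝ)) * ∑ i ∈ I, (if i ∈ isol e S then (1 : ℝ) else 0)) := by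
    apply nb4_congr
    intro S hS R _
    have h2 : ((surv V e S R).card : ℝ) = ∑ v ∈ V, (if v ∈ surv V e S R then (1 : ℝ) else 0) := by
      rw [Finset.sum_boole]
      congr 2
      ext v
      simp only [Finset.mem_filter]
      constructor
      · intro h
        exact ⟨(Finset.mem_filter.1 h).1, h⟩
      · exact fun h => h.2
    have h3 : ((isol e S).card : ℝ) = ∑ i ∈ I, (if i ∈ isol e S then (1 : ℝ) else 0) := by
      rw [Finset.sum_boole]
      congr 2
      ext i
      simp only [Finset.mem_filter]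
      constructor
      · intro h
        exact ⟨hS (Finset.mem_filter.1 h).1, h⟩
      · exact fun h => h.2
    rw [h2, h3]
    ring
  have h4 : nE θ V I e w (fun S R => (V.card : ℝ) - (surv V e S R).card - r * (isol e S).card) =
      ((V.card : ℝ) * 1 + (-1) * ∑ v ∈ V,
        nE θ V I e w (fun S R => if v ∈ surv V e S R then (1 : ℝ) else 0)) +
      (-(r : ℝ)) * ∑ i ∈ I, nE θ V I e w (fun S _ => if i ∈ isol e S then (1 : ℝ) else 0) := by
    rw [h1, nE_add, nE_add, nE_smul, nE_smul, nE_smul, nE_one hs hr hθ hθ1, nE_sum, nE_sum]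
  rw [h4]
  have h5 : ∑ v ∈ V, nE θ V I e w (fun S R => if v ∈ surv V e S R then (1 : ℝ) else 0) =
      V.card * (1 - θ) := by
    have h6 : ∀ v ∈ V, nE θ V I e w (fun S R => if v ∈ surv V e S R then (1 : ℝ) else 0) =
        1 - θ := by
      intro v hv
      rw [← nE_surv_one hs hr hθ hθ1 hv]
    rw [Finset.sum_congr rfl h6, Finset.sum_const, nsmul_eq_mul]
  have h7 : θ * (1 - r * θ) * ∑ i ∈ I, w i ≤
      ∑ i ∈ I, nE θ V I e w (fun S _ => if i ∈ isol e S then (1 : ℝ) else 0) := by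
    rw [Finset.mul_sum]
    refine Finset.sum_le_sum fun i hi => ?_
    rw [nb4_prob θ V I e w i hi]
    have h8 : ∀ j ∈ nb4N I e i, 0 ≤ θ * w j ∧ θ * w j ≤ 1 := by
      intro j hj
      have hjI := (Finset.mem_filter.1 hj).1
      have h9 := hs.nonneg j hjI
      have h10 := nb4_w_le hs hr j hjI
      exact ⟨by positivity, by nlinarith⟩
    have h9 := nb4_one_sub_sum_le (nb4N I e i) (fun j => θ * w j) h8
    rw [← Finset.mul_sum] at h9
    have h10 := nb4_sumN hs i hi
    have h11 : 1 - r * θ ≤ ∏ j ∈ nb4N I e i, (1 - θ * w j) := by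
      have : θ * ∑ j ∈ nb4N I e i, w j ≤ θ * r := by gcongr
      linarith
    have h12 : 0 ≤ θ * w i := mul_nonneg hθ (hs.nonneg i hi)
    calc θ * (1 - r * θ) * w i = θ * w i * (1 - r * θ) := by ring
      _ ≤ θ * w i * ∏ j ∈ nb4N I e i, (1 - θ * w j) := mul_le_mul_of_nonneg_left h11 h12
  have h13 := nb4_sum_deg hs
  have h14 : 0 ≤ defc V I e w := by
    unfold defc
    exact Finset.sum_nonneg fun v hv => by
      have := hs.deg_le v hv
      linarith
  rw [h5]
  have hr0 : (0 : ℝ) ≤ r := by positivity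
  have h15 := mul_le_mul_of_nonneg_left h7 hr0
  have h16 : (r : ℝ) * (θ * (1 - r * θ) * ∑ i ∈ I, w i) =
      θ * (1 - r * θ) * (V.card - defc V I e w) := by
    rw [← h13]
    ring
  rw [h16] at h15
  have h17 : 0 ≤ (r : ℝ) * θ ^ 2 * defc V I e w := by positivity
  nlinarith

end

end SqCyc
end

section

/-! # NB-6 second moment -/

open Finset

namespace SqCyc

section
variable {α ι : Type} [DecidableEq α] [DecidableEq ι]

omit [DecidableEq ι] in
theorem nib4b_deg_inside (I : Finset ι) (e : ι → Finset α) (w : ι → ℝ) (V' : Finset α) (u : α) :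
    deg (inside I e V') e w u
      = ∑ i ∈ I.filter (fun i => u ∈ e i), w i * (if e i ⊆ V' then 1 else 0) := by
  unfold deg inside
  rw [Finset.filter_filter, ← Finset.sum_filter_add_sum_filter_not
    (I.filter (fun i => u ∈ e i)) (fun i => e i ⊆ V')]
  rw [Finset.filter_filter, Finset.filter_filter]
  have h2 : ∑ i ∈ I.filter (fun i => u ∈ e i ∧ ¬ e i ⊆ V'),
      w i * (if e i ⊆ V' then (1 : ℝ) else 0) = 0 := by
    refine Finset.sum_eq_zero fun i hi => ?_
    rw [Finset.mem_filter] at hi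
    rw [if_neg hi.2.2, mul_zero]
  rw [h2, add_zero]
  refine Finset.sum_congr ?_ fun i hi => ?_
  · ext i
    simp only [Finset.mem_filter]
    tauto
  · rw [Finset.mem_filter] at hi
    rw [if_pos hi.2.2, mul_one]

/-- pointwise expansion of the square -/
theorem nib4b_expand (I : Finset ι) (e : ι → Finset α) (w : ι → ℝ) (V' : Finset α) (u : α)
    (lam d : ℝ) :
    (if u ∈ V' then (lam * deg (inside I e V') e w u - d) ^ 2 else 0)
      = (∑ i ∈ I.filter (fun i => u ∈ e i), ∑ j ∈ I.filter (fun i => u ∈ e i),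
          (lam ^ 2 * w i * w j) * (if e i ∪ e j ⊆ V' then 1 else 0))
        + ((∑ i ∈ I.filter (fun i => u ∈ e i),
          (-2 * d * lam * w i) * (if e i ⊆ V' then 1 else 0))
        + d ^ 2 * (if u ∈ V' then 1 else 0)) := by
  rw [nib4b_deg_inside]
  set J := I.filter (fun i => u ∈ e i) with hJ
  have h1 : ∑ i ∈ J, ∑ j ∈ J, (lam ^ 2 * w i * w j) * (if e i ∪ e j ⊆ V' then (1 : ℝ) else 0)
      = lam ^ 2 * ((∑ i ∈ J, w i * (if e i ⊆ V' then 1 else 0))
        * (∑ i ∈ J, w i * (if e i ⊆ V' then 1 else 0))) := by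
    rw [Finset.sum_mul_sum, Finset.mul_sum]
    refine Finset.sum_congr rfl fun i _ => ?_
    rw [Finset.mul_sum]
    refine Finset.sum_congr rfl fun j _ => ?_
    by_cases hi : e i ⊆ V'
    · by_cases hj : e j ⊆ V'
      · rw [if_pos (Finset.union_subset hi hj), if_pos hi, if_pos hj]
        ring
      · rw [if_neg (fun h => hj (Finset.union_subset_iff.1 h).2), if_neg hj]
        ring
    · rw [if_neg (fun h => hi (Finset.union_subset_iff.1 h).1), if_neg hi]
      ring
  have h2 : ∑ i ∈ J, (-2 * d * lam * w i) * (if e i ⊆ V' then (1 : ℝ) else 0)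
      = -2 * d * lam * ∑ i ∈ J, w i * (if e i ⊆ V' then 1 else 0) := by
    rw [Finset.mul_sum]
    exact Finset.sum_congr rfl fun i _ => by ring
  rw [h1, h2]
  by_cases hu : u ∈ V'
  · rw [if_pos hu, if_pos hu]
    ring
  · rw [if_neg hu, if_neg hu]
    have h3 : ∑ i ∈ J, w i * (if e i ⊆ V' then (1 : ℝ) else 0) = 0 := by
      refine Finset.sum_eq_zero fun i hi => ?_
      rw [hJ, Finset.mem_filter] at hi
      rw [if_neg (fun h => hu (h hi.2)), mul_zero]
    rw [h3]
    ring

/-- pairs of edges through `u` with a second common vertex -/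
theorem nib4b_pair {r : ℕ} {δ : ℝ} {V : Finset α} {I : Finset ι} {e : ι → Finset α}
    {w : ι → ℝ} (hs : NibSys r δ V I e w) (hδ : 0 ≤ δ) {u : α} (hu : u ∈ V)
    {i : ι} (hi : i ∈ I) (hui : u ∈ e i) :
    ∑ j ∈ (I.filter (fun i => u ∈ e i)).filter (fun j => 2 ≤ (e i ∩ e j).card), w j
      ≤ r * δ := by
  have h1 : ∑ j ∈ (I.filter (fun i => u ∈ e i)).filter (fun j => 2 ≤ (e i ∩ e j).card), w j
      ≤ ∑ v ∈ (e i).erase u, ∑ j ∈ I.filter (fun j => u ∈ e j ∧ v ∈ e j), w j := by
    have h2 : ∀ v, ∑ j ∈ I.filter (fun j => u ∈ e j ∧ v ∈ e j), w j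
        = ∑ j ∈ I.filter (fun j => u ∈ e j), if v ∈ e j then w j else 0 := fun v => by
      rw [← Finset.filter_filter, Finset.sum_filter]
    simp_rw [h2]
    rw [Finset.sum_comm, Finset.sum_filter]
    refine Finset.sum_le_sum fun j hj => ?_
    rw [Finset.mem_filter] at hj
    have hw := hs.nonneg j hj.1
    split_ifs with hc
    · obtain ⟨v, hv, hvu⟩ : ∃ v ∈ e i ∩ e j, v ≠ u := by
        by_contra hcon
        push Not at hcon
        have : (e i ∩ e j).card ≤ 1 := Finset.card_le_one.2 fun a ha b hb => by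
          rw [hcon a ha, hcon b hb]
        omega
      rw [Finset.mem_inter] at hv
      have h3 : (if v ∈ e j then w j else 0)
          ≤ ∑ v ∈ (e i).erase u, if v ∈ e j then w j else 0 :=
        Finset.single_le_sum (f := fun v => if v ∈ e j then w j else 0)
          (fun v _ => by split_ifs <;> [exact hw; exact le_rfl])
          (Finset.mem_erase.2 ⟨hvu, hv.1⟩)
      rw [if_pos hv.2] at h3
      exact h3
    · exact Finset.sum_nonneg fun v _ => by split_ifs <;> [exact hw; exact le_rfl]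
  refine h1.trans ?_
  have h4 : ∀ v ∈ (e i).erase u, ∑ j ∈ I.filter (fun j => u ∈ e j ∧ v ∈ e j), w j ≤ δ := by
    intro v hv
    rw [Finset.mem_erase] at hv
    exact hs.pdeg_le u hu v (hs.sub i hi hv.2) hv.1.symm
  refine (Finset.sum_le_card_nsmul _ _ _ h4).trans ?_
  rw [nsmul_eq_mul]
  refine mul_le_mul_of_nonneg_right ?_ hδ
  exact_mod_cast (Finset.card_erase_le).trans (hs.card i hi).le

/-- second moment -/
theorem nE_moment {r : ℕ} {δ θ : ℝ} {V : Finset α} {I : Finset ι} {e : ι → Finset α}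
    {w : ι → ℝ} (hs : NibSys r δ V I e w) (hr : 2 ≤ r) (hθ : 0 ≤ θ) (hθ1 : θ ≤ 1 / 2)
    (hδ : 0 ≤ δ) {u : α} (hu : u ∈ V) :
    nE θ V I e w (fun S R => if u ∈ surv V e S R then
        (((1 - θ) ^ (r - 1))⁻¹ * deg (inside I e (surv V e S R)) e w u - deg I e w u) ^ 2 else 0)
      ≤ (1 - θ) * (Real.exp (4 * r ^ 2 * δ) - 1 + (((1 - θ) ^ (r - 1))⁻¹) ^ 2 * r * δ) := by
  set q : ℝ := 1 - θ with hq
  set lam : ℝ := (q ^ (r - 1))⁻¹ with hlam
  set d : ℝ := deg I e w u with hd
  set J := I.filter (fun i => u ∈ e i) with hJ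
  have hq0 : 0 < q := by rw [hq]; linarith
  have hq1 : q ≤ 1 := by rw [hq]; linarith
  have hr1 : 1 ≤ r := by omega
  have hd' : d = ∑ i ∈ J, w i := rfl
  have hw : ∀ i ∈ J, 0 ≤ w i := fun i hi => hs.nonneg i (Finset.mem_filter.1 hi).1
  have hd0 : 0 ≤ d := by rw [hd']; exact Finset.sum_nonneg hw
  have hd1 : d ≤ 1 := hs.deg_le u hu
  have hlam0 : 0 < lam := inv_pos.2 (pow_pos hq0 _)
  have hlamq : lam * q ^ (r - 1) = 1 := inv_mul_cancel₀ (pow_pos hq0 _).ne'
  have hqr : q ^ r = q ^ (r - 1) * q := by rw [← pow_succ]; congr 1; omega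
  have hq2r : q ^ (2 * r - 1) = q ^ (r - 1) * q ^ (r - 1) * q := by
    rw [← pow_add, ← pow_succ]; congr 1; omega
  set P : Finset α → ℝ := fun U => nE θ V I e w
    (fun S R => if U ⊆ surv V e S R then 1 else 0) with hP
  -- expansion
  have hexp : nE θ V I e w (fun S R => if u ∈ surv V e S R then
        (lam * deg (inside I e (surv V e S R)) e w u - d) ^ 2 else 0)
      = (∑ i ∈ J, ∑ j ∈ J, (lam ^ 2 * w i * w j) * P (e i ∪ e j))
        + ((∑ i ∈ J, (-2 * d * lam * w i) * P (e i)) + d ^ 2 * q) := by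
    have h0 : (fun (S : Finset ι) (R : Finset α) => if u ∈ surv V e S R then
        (lam * deg (inside I e (surv V e S R)) e w u - d) ^ 2 else 0)
        = fun S R => (∑ i ∈ J, ∑ j ∈ J,
            (lam ^ 2 * w i * w j) * (if e i ∪ e j ⊆ surv V e S R then 1 else 0))
          + ((∑ i ∈ J, (-2 * d * lam * w i) * (if e i ⊆ surv V e S R then 1 else 0))
          + d ^ 2 * (if u ∈ surv V e S R then 1 else 0)) := by
      funext S R
      exact nib4b_expand I e w _ u lam d
    rw [h0, nE_add, nE_add, nE_smul, nE_surv_one hs hr1 hθ hθ1 hu, nE_sum, nE_sum]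
    congr 1
    · refine Finset.sum_congr rfl fun i _ => ?_
      rw [nE_sum]
      exact Finset.sum_congr rfl fun j _ => nE_smul _ _ _ _ _ _ _
    · congr 1
      exact Finset.sum_congr rfl fun i _ => nE_smul _ _ _ _ _ _ _
  rw [hexp]
  set E : ℝ := Real.exp (4 * r ^ 2 * δ) with hE
  have hE1 : 1 ≤ E := Real.one_le_exp (by positivity)
  -- lower bound
  have hlow : ∀ i ∈ J, q ^ r ≤ P (e i) := by
    intro i hi
    rw [Finset.mem_filter] at hi
    have h := nE_surv_ge hs hr1 hθ hθ1 (hs.sub i hi.1)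
    rw [hs.card i hi.1] at h
    exact h
  have hS1 : ∑ i ∈ J, (-2 * d * lam * w i) * P (e i) ≤ -2 * d * lam * q ^ r * d := by
    calc ∑ i ∈ J, (-2 * d * lam * w i) * P (e i)
        ≤ ∑ i ∈ J, (-2 * d * lam * w i) * q ^ r := by
          refine Finset.sum_le_sum fun i hi => ?_
          have h1 : 0 ≤ 2 * d * lam * w i :=
            mul_nonneg (mul_nonneg (mul_nonneg two_pos.le hd0) hlam0.le) (hw i hi)
          nlinarith [hlow i hi]
      _ = -2 * d * lam * q ^ r * d := by
          have h5 : ∑ i ∈ J, (-2 * d * lam * w i) * q ^ r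
              = (-2 * d * lam * q ^ r) * ∑ i ∈ J, w i := by
            rw [Finset.mul_sum]
            exact Finset.sum_congr rfl fun i _ => by ring
          rw [h5, ← hd']
  -- upper bound
  have hup : ∀ i ∈ J, ∀ j ∈ J, P (e i ∪ e j) ≤
      q ^ (2 * r - 1) * E + (if 2 ≤ (e i ∩ e j).card then q else 0) := by
    intro i hi j hj
    rw [Finset.mem_filter] at hi hj
    have hsub : e i ∪ e j ⊆ V := Finset.union_subset (hs.sub i hi.1) (hs.sub j hj.1)
    split_ifs with hc
    · have h1 : P (e i ∪ e j) ≤ q := by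
        have h0 := nE_surv_one hs hr1 hθ hθ1 hu
        rw [← hq] at h0
        rw [← h0]
        refine nE_mono hs hr1 hθ hθ1 fun S _ R _ => ?_
        by_cases h : e i ∪ e j ⊆ surv V e S R
        · rw [if_pos h, if_pos (h (Finset.mem_union_left _ hi.2))]
        · rw [if_neg h]
          split_ifs <;> norm_num
      have h2 : 0 ≤ q ^ (2 * r - 1) * E := mul_nonneg (pow_pos hq0 _).le (zero_le_one.trans hE1)
      linarith
    · rw [add_zero]
      have hint : (e i ∩ e j).card = 1 := by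
        have : 0 < (e i ∩ e j).card :=
          Finset.card_pos.2 ⟨u, Finset.mem_inter.2 ⟨hi.2, hj.2⟩⟩
        omega
      have hcard : (e i ∪ e j).card = 2 * r - 1 := by
        have h := Finset.card_union_add_card_inter (e i) (e j)
        rw [hint, hs.card i hi.1, hs.card j hj.1] at h
        omega
      have h1 := nE_surv_le hs hr1 hθ hθ1 hδ hsub
      rw [hcard] at h1
      refine h1.trans (mul_le_mul_of_nonneg_left ?_ (pow_pos hq0 _).le)
      refine Real.exp_le_exp.2 (mul_le_mul_of_nonneg_right ?_ hδ)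
      have h3 : ((2 * r - 1 : ℕ) : ℝ) ≤ 2 * r := by
        have : 2 * r - 1 ≤ 2 * r := by omega
        exact_mod_cast this
      have h4 : (0 : ℝ) ≤ ((2 * r - 1 : ℕ) : ℝ) := Nat.cast_nonneg _
      nlinarith
  have hS2 : ∑ i ∈ J, ∑ j ∈ J, (lam ^ 2 * w i * w j) * P (e i ∪ e j)
      ≤ lam ^ 2 * (q ^ (2 * r - 1) * E) * (d * d) + lam ^ 2 * q * (r * δ) * d := by
    calc ∑ i ∈ J, ∑ j ∈ J, (lam ^ 2 * w i * w j) * P (e i ∪ e j)
        ≤ ∑ i ∈ J, (lam ^ 2 * (q ^ (2 * r - 1) * E) * d * w i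
            + lam ^ 2 * q * (r * δ) * w i) := by
          refine Finset.sum_le_sum fun i hi => ?_
          have hi' := Finset.mem_filter.1 hi
          calc ∑ j ∈ J, (lam ^ 2 * w i * w j) * P (e i ∪ e j)
              ≤ ∑ j ∈ J, ((lam ^ 2 * (q ^ (2 * r - 1) * E) * w i) * w j
                  + (lam ^ 2 * q * w i) * (if 2 ≤ (e i ∩ e j).card then w j else 0)) := by
                refine Finset.sum_le_sum fun j hj => ?_
                have h1 : 0 ≤ lam ^ 2 * w i * w j :=
                  mul_nonneg (mul_nonneg (sq_nonneg _) (hw i hi)) (hw j hj)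
                refine (mul_le_mul_of_nonneg_left (hup i hi j hj) h1).trans (le_of_eq ?_)
                split_ifs <;> ring
            _ = (lam ^ 2 * (q ^ (2 * r - 1) * E) * w i) * d
                  + (lam ^ 2 * q * w i) *
                    ∑ j ∈ J.filter (fun j => 2 ≤ (e i ∩ e j).card), w j := by
                rw [Finset.sum_add_distrib, ← Finset.mul_sum, ← Finset.mul_sum, ← hd',
                  Finset.sum_filter (s := J)]
            _ ≤ (lam ^ 2 * (q ^ (2 * r - 1) * E) * w i) * d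
                  + (lam ^ 2 * q * w i) * (r * δ) := by
                have h2 := nib4b_pair hs hδ hu hi'.1 hi'.2
                have h3 : 0 ≤ lam ^ 2 * q * w i :=
                  mul_nonneg (mul_nonneg (sq_nonneg _) hq0.le) (hw i hi)
                have h4 := mul_le_mul_of_nonneg_left h2 h3
                linarith
            _ = _ := by ring
      _ = lam ^ 2 * (q ^ (2 * r - 1) * E) * (d * d) + lam ^ 2 * q * (r * δ) * d := by
          rw [Finset.sum_add_distrib, ← Finset.mul_sum, ← Finset.mul_sum, ← hd']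
          ring
  have e1 : lam ^ 2 * (q ^ (2 * r - 1) * E) = q * E := by
    rw [hq2r]
    calc lam ^ 2 * (q ^ (r - 1) * q ^ (r - 1) * q * E)
        = (lam * q ^ (r - 1)) * (lam * q ^ (r - 1)) * (q * E) := by ring
      _ = q * E := by rw [hlamq]; ring
  have e2 : lam * q ^ r = q := by
    rw [hqr, ← mul_assoc, hlamq, one_mul]
  have e3 : -2 * d * lam * q ^ r * d = -2 * q * (d * d) := by
    calc -2 * d * lam * q ^ r * d = -2 * d * (lam * q ^ r) * d := by ring
      _ = -2 * q * (d * d) := by rw [e2]; ring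
  rw [e1] at hS2
  rw [e3] at hS1
  have f1 : q * (E - 1) * (d * d) ≤ q * (E - 1) := by
    have h1 : 0 ≤ q * (E - 1) := mul_nonneg hq0.le (by linarith)
    have h2 : d * d ≤ 1 := by nlinarith
    nlinarith
  have f2 : lam ^ 2 * q * (r * δ) * d ≤ lam ^ 2 * q * (r * δ) := by
    have h1 : 0 ≤ lam ^ 2 * q * (r * δ) := by positivity
    nlinarith
  have f3 : q * E * (d * d) - 2 * q * (d * d) + d ^ 2 * q = q * (E - 1) * (d * d) := by ring
  have f4 : q * (E - 1 + lam ^ 2 * r * δ) = q * (E - 1) + lam ^ 2 * q * (r * δ) := by ring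
  rw [f4]
  linarith

end

end SqCyc
end

section

/-! # NB-7 excess and first moment -/

open Finset

namespace SqCyc

section
variable {α ι : Type} [DecidableEq α] [DecidableEq ι]

private theorem nib4c_abs {lam D d t : ℝ} (hd : d ≤ 1) (ht : 0 < t) :
    max 0 (lam * D - 1) ≤ (2 * t)⁻¹ * (lam * D - d) ^ 2 + t / 2 := by
  have h1 : max 0 (lam * D - 1) ≤ |lam * D - d| := by
    apply max_le (abs_nonneg _)
    exact le_trans (by linarith) (le_abs_self _)
  have h2 : |lam * D - d| ≤ (2 * t)⁻¹ * (lam * D - d) ^ 2 + t / 2 := by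
    rw [← sq_abs (lam * D - d)]
    set a := |lam * D - d|
    have h3 : (2 * t)⁻¹ * a ^ 2 + t / 2 - a = (2 * t)⁻¹ * (a - t) ^ 2 := by
      field_simp
      ring
    have h4 : 0 ≤ (2 * t)⁻¹ * (a - t) ^ 2 := by positivity
    linarith
  exact h1.trans h2

theorem nE_excess {r : ℕ} {δ θ : ℝ} {V : Finset α} {I : Finset ι} {e : ι → Finset α}
    {w : ι → ℝ} (hs : NibSys r δ V I e w) (hr : 2 ≤ r) (hθ : 0 ≤ θ) (hθ1 : θ ≤ 1 / 2)
    (hδ : 0 ≤ δ) {u : α} (hu : u ∈ V) :
    nE θ V I e w (fun S R => if u ∈ surv V e S R then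
        max 0 (((1 - θ) ^ (r - 1))⁻¹ * deg (inside I e (surv V e S R)) e w u - 1) else 0)
      ≤ (1 - θ) * Real.sqrt
          (Real.exp (4 * r ^ 2 * δ) - 1 + (((1 - θ) ^ (r - 1))⁻¹) ^ 2 * r * δ) := by
  set lam : ℝ := ((1 - θ) ^ (r - 1))⁻¹ with hlam
  set s2 : ℝ := Real.exp (4 * r ^ 2 * δ) - 1 + lam ^ 2 * r * δ with hs2
  have hs20 : 0 ≤ s2 := by
    have h1 : 1 ≤ Real.exp (4 * r ^ 2 * δ) := Real.one_le_exp (by positivity)
    have h2 : 0 ≤ lam ^ 2 * r * δ := by positivity
    linarith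
  have hmom := nE_moment hs hr hθ hθ1 hδ hu
  have hone := nE_surv_one hs (by omega) hθ hθ1 hu
  have hd := hs.deg_le u hu
  set f : Finset ι → Finset α → ℝ := fun S R => if u ∈ surv V e S R then
        max 0 (lam * deg (inside I e (surv V e S R)) e w u - 1) else 0 with hf
  have key : ∀ t : ℝ, 0 < t → nE θ V I e w f ≤ (1 - θ) * ((2 * t)⁻¹ * s2 + t / 2) := by
    intro t ht
    have h1 : nE θ V I e w f ≤ nE θ V I e w (fun S R =>
        (2 * t)⁻¹ * (if u ∈ surv V e S R then
          (lam * deg (inside I e (surv V e S R)) e w u - deg I e w u) ^ 2 else 0) +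
        (t / 2) * (if u ∈ surv V e S R then 1 else 0)) := by
      apply nE_mono hs (by omega) hθ hθ1
      intro S _ R _
      simp only [hf]
      split_ifs with h
      · rw [mul_one]
        exact nib4c_abs hd ht
      · simp
    rw [nE_add, nE_smul, nE_smul, hone] at h1
    refine h1.trans ?_
    have h2 : (2 * t)⁻¹ * nE θ V I e w (fun S R => if u ∈ surv V e S R then
          (lam * deg (inside I e (surv V e S R)) e w u - deg I e w u) ^ 2 else 0) ≤
        (2 * t)⁻¹ * ((1 - θ) * s2) := mul_le_mul_of_nonneg_left hmom (by positivity)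
    linarith
  rcases hs20.eq_or_lt with h0 | h0
  · rw [← h0, Real.sqrt_zero, mul_zero]
    apply le_of_forall_pos_le_add
    intro ε hε
    have h1 := key ε hε
    rw [← h0, mul_zero, zero_add] at h1
    have h2 : (1 - θ) * (ε / 2) ≤ ε := by nlinarith
    linarith
  · have hsq : 0 < Real.sqrt s2 := Real.sqrt_pos.2 h0
    have h1 := key (Real.sqrt s2) hsq
    have h2 : (2 * Real.sqrt s2)⁻¹ * s2 + Real.sqrt s2 / 2 = Real.sqrt s2 := by
      have h3 : Real.sqrt s2 * Real.sqrt s2 = s2 := Real.mul_self_sqrt hs20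
      nth_rewrite 2 [← h3]
      field_simp
      ring
    rwa [h2] at h1

omit [DecidableEq ι] in
private theorem nib4c_first_eq {V : Finset α} {I : Finset ι} {e : ι → Finset α} {w : ι → ℝ}
    (lam : ℝ) (S : Finset ι) (R : Finset α) :
    ∑ v ∈ surv V e S R, (1 - lam * deg (inside I e (surv V e S R)) e w v) =
      ∑ v ∈ V, ((if v ∈ surv V e S R then 1 else 0) +
        (-lam) * ∑ i ∈ I.filter (fun i => v ∈ e i), w i *
          (if e i ⊆ surv V e S R then 1 else 0)) := by
  set U := surv V e S R with hU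
  have hUV : U ⊆ V := Finset.filter_subset _ _
  have h1 : ∀ v, deg (inside I e U) e w v = ∑ i ∈ I.filter (fun i => v ∈ e i), w i *
          (if e i ⊆ U then 1 else 0) := by
    intro v
    unfold deg inside
    rw [Finset.filter_filter, Finset.sum_filter, Finset.sum_filter]
    apply Finset.sum_congr rfl
    intro i _
    by_cases h2 : e i ⊆ U <;> by_cases h3 : v ∈ e i <;> simp [h2, h3]
  have h2 : ∀ v, v ∉ U → ∑ i ∈ I.filter (fun i => v ∈ e i), w i *
          (if e i ⊆ U then (1 : ℝ) else 0) = 0 := by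
    intro v hv
    apply Finset.sum_eq_zero
    intro i hi
    have h3 : ¬ e i ⊆ U := fun h => hv (h (Finset.mem_filter.1 hi).2)
    rw [if_neg h3, mul_zero]
  rw [← Finset.sum_subset hUV (f := fun v => ((if v ∈ U then (1 : ℝ) else 0) +
        (-lam) * ∑ i ∈ I.filter (fun i => v ∈ e i), w i *
          (if e i ⊆ U then 1 else 0)))]
  · apply Finset.sum_congr rfl
    intro v hv
    rw [if_pos hv, h1 v]
    ring
  · intro v _ hv
    rw [if_neg hv, h2 v hv]
    ring

theorem nE_first {r : ℕ} {δ θ : ℝ} {V : Finset α} {I : Finset ι} {e : ι → Finset α}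
    {w : ι → ℝ} (hs : NibSys r δ V I e w) (hr : 1 ≤ r) (hθ : 0 ≤ θ) (hθ1 : θ ≤ 1 / 2) :
    nE θ V I e w (fun S R => ∑ v ∈ surv V e S R,
        (1 - ((1 - θ) ^ (r - 1))⁻¹ * deg (inside I e (surv V e S R)) e w v))
      ≤ (1 - θ) * defc V I e w := by
  have hq : 0 < 1 - θ := by linarith
  set lam : ℝ := ((1 - θ) ^ (r - 1))⁻¹ with hlam
  have hlam0 : 0 < lam := by positivity
  have hfun : (fun S R => ∑ v ∈ surv V e S R,
        (1 - lam * deg (inside I e (surv V e S R)) e w v)) = (fun S R =>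
      ∑ v ∈ V, ((if v ∈ surv V e S R then (1 : ℝ) else 0) +
        (-lam) * ∑ i ∈ I.filter (fun i => v ∈ e i), w i *
          (if e i ⊆ surv V e S R then 1 else 0))) := by
    funext S R
    exact nib4c_first_eq lam S R
  rw [hfun, nE_sum]
  unfold defc
  rw [Finset.mul_sum]
  apply Finset.sum_le_sum
  intro v hv
  rw [nE_add, nE_smul, nE_sum, nE_surv_one hs hr hθ hθ1 hv]
  have h1 : (1 - θ) ^ r * deg I e w v ≤ ∑ i ∈ I.filter (fun i => v ∈ e i),
      nE θ V I e w (fun S R => w i * (if e i ⊆ surv V e S R then 1 else 0)) := by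
    unfold deg
    rw [Finset.mul_sum]
    apply Finset.sum_le_sum
    intro i hi
    have hiI := (Finset.mem_filter.1 hi).1
    rw [nE_smul, mul_comm]
    apply mul_le_mul_of_nonneg_left _ (hs.nonneg i hiI)
    have h2 := nE_surv_ge hs hr hθ hθ1 (hs.sub i hiI)
    rwa [hs.card i hiI] at h2
  have h3 : lam * ((1 - θ) ^ r * deg I e w v) = (1 - θ) * deg I e w v := by
    rw [← mul_assoc]
    congr 1
    rw [hlam]
    obtain ⟨k, rfl⟩ : ∃ k, r = k + 1 := ⟨r - 1, by omega⟩
    rw [Nat.add_sub_cancel, pow_succ]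
    field_simp
  have h4 := mul_le_mul_of_nonneg_left h1 hlam0.le
  rw [h3] at h4
  linarith

end

end SqCyc
end

section

/-! # NB-8 one step of the nibble -/

open Finset

namespace SqCyc

section
variable {α ι : Type} [DecidableEq α] [DecidableEq ι]

theorem nib_step {r : ℕ} {δ θ K : ℝ} {V : Finset α} {I : Finset ι} {e : ι → Finset α}
    {w : ι → ℝ} (hs : NibSys r δ V I e w) (hr : 2 ≤ r) (hθ : 0 ≤ θ) (hθ1 : θ ≤ 1 / 2)
    (hδ : 0 ≤ δ) (hK : 0 ≤ K) :
    ∃ (V' : Finset α) (M I' : Finset ι) (w' : ι → ℝ), V' ⊆ V ∧ M ⊆ I ∧ I' ⊆ I ∧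
      (∀ i ∈ M, ∀ j ∈ M, i ≠ j → Disjoint (e i) (e j)) ∧
      (∀ i ∈ M, Disjoint (e i) V') ∧
      NibSys r (((1 - θ) ^ (r - 1))⁻¹ * δ) V' I' e w' ∧
      ((V.card : ℝ) - V'.card - r * M.card) + defc V' I' e w' + K * V'.card
        ≤ defc V I e w + ((1 - θ) * K + r * θ ^ 2 +
          r * ((1 - θ) ^ (r - 1))⁻¹ * Real.sqrt
            (Real.exp (4 * r ^ 2 * δ) - 1 + (((1 - θ) ^ (r - 1))⁻¹) ^ 2 * r * δ)) * V.card := by
  have _ := hK
  have hr1 : 1 ≤ r := by omega
  set lam : ℝ := ((1 - θ) ^ (r - 1))⁻¹ with hlam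
  set s : ℝ := Real.sqrt (Real.exp (4 * r ^ 2 * δ) - 1 + lam ^ 2 * r * δ) with hsdef
  have hs0 : 0 ≤ s := Real.sqrt_nonneg _
  have hq0 : 0 < 1 - θ := by linarith
  have hlam1 : 1 ≤ lam := by
    rw [hlam]
    exact (one_le_inv₀ (by positivity)).2 (pow_le_one₀ hq0.le (by linarith))
  have hsub : ∀ S R, surv V e S R ⊆ V := fun S R => Finset.filter_subset _ _
  have hsum : ∀ S R (g : α → ℝ), ∑ u ∈ V, (if u ∈ surv V e S R then g u else 0) =
      ∑ u ∈ surv V e S R, g u := by
    intro S R g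
    rw [Finset.sum_ite_mem, Finset.inter_eq_right.2 (hsub S R)]
  have hE : nE θ V I e w (fun S R =>
      (((V.card : ℝ) - (surv V e S R).card - r * (isol e S).card) +
        (∑ v ∈ surv V e S R, (1 - lam * deg (inside I e (surv V e S R)) e w v))) +
      (r * lam * ∑ u ∈ V, (if u ∈ surv V e S R then
        max 0 (lam * deg (inside I e (surv V e S R)) e w u - 1) else 0) +
        K * ∑ u ∈ V, (if u ∈ surv V e S R then (1 : ℝ) else 0))) ≤
      defc V I e w + ((1 - θ) * K + r * θ ^ 2 + r * lam * s) * V.card := by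
    rw [nE_add, nE_add, nE_add, nE_smul, nE_smul, nE_sum, nE_sum]
    have h1 := nE_waste hs hr1 hθ hθ1
    have h2 := nE_first hs hr1 hθ hθ1
    have h3 : ∑ u ∈ V, nE θ V I e w (fun S R => if u ∈ surv V e S R then
        max 0 (lam * deg (inside I e (surv V e S R)) e w u - 1) else 0) ≤ V.card * s := by
      calc ∑ u ∈ V, nE θ V I e w (fun S R => if u ∈ surv V e S R then
            max 0 (lam * deg (inside I e (surv V e S R)) e w u - 1) else 0)
          ≤ ∑ u ∈ V, s := by
            refine Finset.sum_le_sum fun u hu => ?_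
            refine (nE_excess hs hr hθ hθ1 hδ hu).trans ?_
            rw [← hlam, ← hsdef]
            exact mul_le_of_le_one_left hs0 (by linarith)
        _ = V.card * s := by rw [Finset.sum_const, nsmul_eq_mul]
    have h4 : ∑ u ∈ V, nE θ V I e w (fun S R => if u ∈ surv V e S R then (1 : ℝ) else 0) =
        V.card * (1 - θ) := by
      calc ∑ u ∈ V, nE θ V I e w (fun S R => if u ∈ surv V e S R then (1 : ℝ) else 0)
          = ∑ u ∈ V, (1 - θ) := Finset.sum_congr rfl fun u hu => nE_surv_one hs hr1 hθ hθ1 hu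
        _ = V.card * (1 - θ) := by rw [Finset.sum_const, nsmul_eq_mul]
    have h5 : r * lam * ∑ u ∈ V, nE θ V I e w (fun S R => if u ∈ surv V e S R then
        max 0 (lam * deg (inside I e (surv V e S R)) e w u - 1) else 0) ≤
        r * lam * (V.card * s) := by
      refine mul_le_mul_of_nonneg_left h3 ?_
      positivity
    rw [h4]
    rw [← hlam] at h2
    nlinarith
  obtain ⟨S, hS, R, hR, hf⟩ := exists_le_nE hs hr1 hθ hθ1 _ _ hE
  have hfacts := nw_facts hs hr1 hlam1 (surv V e S R) (hsub S R)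
  refine ⟨surv V e S R, isol e S, inside I e (surv V e S R),
    nw lam (inside I e (surv V e S R)) e w, hsub S R,
    (Finset.filter_subset _ _).trans hS, Finset.filter_subset _ _, ?_, ?_, hfacts.1, ?_⟩
  · intro i hi j hj hij
    have h1 := (Finset.mem_filter.1 hi).2
    exact h1 j (Finset.mem_filter.1 hj).1 hij.symm
  · intro i hi
    have h1 := (Finset.mem_filter.1 hi).1
    rw [Finset.disjoint_left]
    intro v hv hv'
    exact (Finset.mem_filter.1 hv').2.2 i h1 hv
  · have h1 := hfacts.2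
    have h2 := hsum S R (fun u => max 0 (lam * deg (inside I e (surv V e S R)) e w u - 1))
    have h3 : ∑ u ∈ V, (if u ∈ surv V e S R then (1 : ℝ) else 0) = (surv V e S R).card := by
      rw [hsum S R (fun _ => 1)]
      simp
    simp only [h2, h3] at hf
    linarith

end

end SqCyc
end
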