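import Mathlib

section

/-! # Abstract absorption: definitions

`m` slots `0, …, m-1`; `Fill s A` means that slot `s` can be filled so that exactly the set `A` of
elements is covered. -/

open Finset

namespace SqCyc

section AB

variable {α K : Type} [DecidableEq α] [Fintype K] [DecidableEq K]

/-- the slots of `T` can be filled disjointly, covering exactly `A` -/
def CovT (Fill : ℕ → Finset α → Prop) (T : Finset ℕ) (A : Finset α) : Prop :=
  ∃ f : ℕ → Finset α, (∀ s ∈ T, Fill s (f s)) ∧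
    (∀ s ∈ T, ∀ t ∈ T, s ≠ t → Disjoint (f s) (f t)) ∧ T.biUnion f = A

/-- the data and the hypotheses of the absorption theorem, except the nibble hypothesis -/
structure AbsSys (h : K → ℕ) (T₀ : ℕ) (δ : ℝ) (m : ℕ) (X : Finset α) (cls : α → K)
    (Fill : ℕ → Finset α → Prop) : Prop where
  cardX : ∀ c, (X.filter (fun x => cls x = c)).card = h c * m
  sub : ∀ s < m, ∀ A, Fill s A → A ⊆ X
  cardF : ∀ s < m, ∀ A, Fill s A → ∀ c, (A.filter (fun x => cls x = c)).card = h c
  /-- (A2a) -/
  avoid : ∀ s < m, ∀ F : Finset α, (F.card : ℝ) ≤ δ * m → ∃ A, Fill s A ∧ Disjoint A F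
  /-- (A2b) -/
  avoid_mem : ∀ s < m, ∀ x ∈ X, ∀ F : Finset α, x ∉ F → (F.card : ℝ) ≤ δ * m →
    ∃ A, Fill s A ∧ x ∈ A ∧ Disjoint A F
  /-- (A3) -/
  node : ∀ (c : K) (ys : Finset α), ys ⊆ X → (∀ y ∈ ys, cls y = c) → ys.card ≤ 40 →
    ∀ F : Finset α, (F.card : ℝ) ≤ δ * m → ∀ avail : Finset ℕ, avail ⊆ range m →
      T₀ ≤ avail.card → ∃ T ⊆ avail, T.card ≤ T₀ ∧ ∃ B : Finset α, Disjoint B (F ∪ ys) ∧
        ∀ y ∈ ys, CovT Fill T (insert y B)

/-- the nibble hypothesis (N) -/
def NibHyp (h : K → ℕ) (δ ε : ℝ) (m : ℕ) (X : Finset α) (cls : α → K)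
    (Fill : ℕ → Finset α → Prop) : Prop :=
  ∀ S' ⊆ range m, ∀ X' ⊆ X, (m : ℝ) - S'.card ≤ δ * m →
    (∀ c, (X'.filter (fun x => cls x = c)).card = h c * S'.card) →
    ∃ D ⊆ S', (S'.card : ℝ) - D.card ≤ ε * m ∧ ∃ A ⊆ X', CovT Fill D A

end AB

end SqCyc
end

section

/-!
# The model

`n = 4k+1`.  Points: two tracks (`Bool`) times `ZMod (2k)`; the point `(i, y+k)` is conjugate to
`(i, y)`; *elements* are vertices (conjugacy classes of points), pure colours (differences `±d`
inside one track) and cross colours (differences between the two tracks).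
-/

open Finset

namespace SqCyc

/-- letters: (track, parity) -/
abbrev Letter := Bool × Bool

/-- points -/
abbrev Pt (k : ℕ) := Bool × ZMod (2 * k)

/-- elements: vertices, pure colours, cross colours -/
inductive El
  | v (i : Bool) (y : ℕ)
  | p (i : Bool) (d : ℕ)
  | x (d : ℕ)
  deriving DecidableEq

/-- classes of elements -/
inductive Cls
  | V (i e : Bool)
  | P (i e : Bool)
  | X (e : Bool)
  deriving DecidableEq, Fintype

variable {k : ℕ}

/-- distance to zero in `ZMod (2k)` -/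
def dst (a : ZMod (2 * k)) : ℕ := min a.val (2 * k - a.val)

/-- the vertex of a point -/
def vtx (P : Pt k) : El := El.v P.1 (P.2.val % k)

/-- the colour of a pair of points -/
def col (P Q : Pt k) : El :=
  if P.1 = Q.1 then El.p P.1 (dst (P.2 - Q.2))
  else El.x (if P.1 = true then (P.2 - Q.2).val else (Q.2 - P.2).val)

/-- points of a letter -/
def Lset (k : ℕ) [NeZero k] (θ : Letter) : Finset (Pt k) :=
  univ.filter (fun P => P.1 = θ.1 ∧ P.2.val.bodd = θ.2)

/-- all (non-degenerate) elements -/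
def U (k : ℕ) : Finset El :=
  (univ ×ˢ range k).image (fun q : Bool × ℕ => El.v q.1 q.2) ∪
  (univ ×ˢ Ico 1 k).image (fun q : Bool × ℕ => El.p q.1 q.2) ∪
  (range (2 * k)).image El.x

/-- all elements, including the degenerate pure colours `0` and `k` -/
def Uall (k : ℕ) : Finset El :=
  U k ∪ {El.p false 0, El.p true 0, El.p false k, El.p true k}

/-- class of an element; for odd `k` there is only one class of vertices per track -/
def clsEl (k : ℕ) : El → Cls
  | El.v i y => if k.bodd then Cls.V i false else Cls.V i y.bodd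
  | El.p i d => Cls.P i d.bodd
  | El.x d => Cls.X d.bodd

/-- class of the vertex of a point of letter `θ` -/
def clsV (k : ℕ) (θ : Letter) : Cls := if k.bodd then Cls.V θ.1 false else Cls.V θ.1 θ.2

/-- class of the colour of two points with letters `θ`, `η` -/
def clsC (θ η : Letter) : Cls :=
  if θ.1 = η.1 then Cls.P θ.1 (xor θ.2 η.2) else Cls.X (xor θ.2 η.2)

/-- element with index `b = (τ, i)`: vertex of `y i` (`τ = 0`), colour of `y i, y (i+τ)` (else) -/
def el (y : ℕ → Pt k) (b : ℕ × ℕ) : El :=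
  if b.1 = 0 then vtx (y b.2) else col (y b.2) (y (b.2 + b.1))

/-- the indices of a segment of length `n` (the port at positions `0,1` is excluded) -/
def idx (n : ℕ) : Finset (ℕ × ℕ) := (range 3 ×ˢ range n) \ {(0, 0), (0, 1), (1, 0)}

/-- class of an index of the word `w` -/
def clsB (k : ℕ) (w : ℕ → Letter) (b : ℕ × ℕ) : Cls :=
  if b.1 = 0 then clsV k (w b.2) else clsC (w b.2) (w (b.2 + b.1))

/-- segments of length `n` with word `w` between the ports `P P'` and `Q Q'` -/
structure Seg (k : ℕ) [NeZero k] (w : ℕ → Letter) (n : ℕ) (P P' Q Q' : Pt k) (y : ℕ → Pt k) :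
    Prop where
  h0 : y 0 = P
  h1 : y 1 = P'
  hn : y n = Q
  hn1 : y (n + 1) = Q'
  lett : ∀ i, 2 ≤ i → i < n → y i ∈ Lset k (w i)

/-- ports -/
def PA (k : ℕ) (s : ℕ) : Pt k := (false, ((2 * s : ℕ) : ZMod (2 * k)))
def PC (k : ℕ) (s : ℕ) : Pt k := (true, ((4 * s : ℕ) : ZMod (2 * k)))

/-- slot `s` (word `w`, length `ℓ`) can be filled such that exactly `A` is covered -/
def Fill (k : ℕ) [NeZero k] (w : ℕ → Letter) (ℓ : ℕ) (X : Finset El) (s : ℕ) (A : Finset El) :
    Prop :=
  ∃ y : ℕ → Pt k, Seg k w ℓ (PA k s) (PC k s) (PA k (s + 1)) (PC k (s + 1)) y ∧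
    Set.InjOn (el y) (idx ℓ) ∧ (idx ℓ).image (el y) = A ∧ A ⊆ X

/-- the indices of `idx n` all of whose positions belong to `K` -/
def knownIdx (n : ℕ) (K : Finset ℕ) : Finset (ℕ × ℕ) :=
  (idx n).filter (fun b => b.2 ∈ K ∧ b.2 + b.1 ∈ K)

/-- a window at position `i₀` -/
structure Win (w : ℕ → Letter) (n i₀ : ℕ) (θ η : Letter) : Prop where
  lo : 4 ≤ i₀
  hi : i₀ + 7 ≤ n
  l0 : w i₀ = θ
  l1 : w (i₀ + 1) = θ
  l2 : w (i₀ + 2) = θ
  l3 : w (i₀ + 3) = η
  l4 : w (i₀ + 4) = θ

/-- the slot word contains the eight windows -/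
structure HasWins (w : ℕ → Letter) (n : ℕ) : Prop where
  AA : ∃ i, Win w n i (false, false) (false, false)
  AB : ∃ i, Win w n i (false, false) (false, true)
  AC : ∃ i, Win w n i (false, false) (true, false)
  AD : ∃ i, Win w n i (false, false) (true, true)
  BB : ∃ i, Win w n i (false, true) (false, true)
  CC : ∃ i, Win w n i (true, false) (true, false)
  CD : ∃ i, Win w n i (true, false) (true, true)
  DD : ∃ i, Win w n i (true, true) (true, true)

/-- elements of a window that do not involve the centre -/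
def W0 (p₁ p₂ p₃ p₄ : Pt k) : Finset El :=
  {vtx p₁, vtx p₂, vtx p₃, vtx p₄, col p₁ p₂, col p₂ p₃, col p₃ p₄}

/-- elements of a window that involve the centre `z` (order of the points: `p₁ p₂ z p₃ p₄`) -/
def Wz (p₁ p₂ p₃ p₄ z : Pt k) : Finset El :=
  {vtx z, col p₁ z, col p₂ z, col z p₃, col z p₄}

end SqCyc
end
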