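import Mathlib
import Pool.Agent.Lib.SqCyc.Model

section

/-! # AB-2 unions of coverings, class counts -/

open Finset

namespace SqCyc

section AB

variable {α K : Type} [DecidableEq α] [Fintype K] [DecidableEq K]

/-- AB-5: union of disjoint coverings -/
theorem CovT.union {Fill : ℕ → Finset α → Prop} {T T' : Finset ℕ} {A A' : Finset α}
    (h1 : CovT Fill T A) (h2 : CovT Fill T' A') (hT : Disjoint T T') (hA : Disjoint A A') :
    CovT Fill (T ∪ T') (A ∪ A') := by
  obtain ⟨f, hf1, hf2, hf3⟩ := h1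
  obtain ⟨f', hf1', hf2', hf3'⟩ := h2
  have e1 : ∀ s ∈ T, (if s ∈ T then f s else f' s) = f s := fun s hs => if_pos hs
  have e2 : ∀ s ∈ T', (if s ∈ T then f s else f' s) = f' s := fun s hs =>
    if_neg fun h => (Finset.disjoint_left.mp hT h) hs
  have hsub : ∀ s ∈ T, f s ⊆ A := fun s hs => by
    rw [← hf3]
    exact Finset.subset_biUnion_of_mem f hs
  have hsub' : ∀ s ∈ T', f' s ⊆ A' := fun s hs => by
    rw [← hf3']
    exact Finset.subset_biUnion_of_mem f' hs
  refine ⟨fun s => if s ∈ T then f s else f' s, ?_, ?_, ?_⟩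
  · intro s hs
    rcases Finset.mem_union.mp hs with h | h
    · simp only [e1 s h]
      exact hf1 s h
    · simp only [e2 s h]
      exact hf1' s h
  · intro s hs t ht hst
    rcases Finset.mem_union.mp hs with h | h <;> rcases Finset.mem_union.mp ht with h' | h'
    · simp only [e1 s h, e1 t h']
      exact hf2 s h t h' hst
    · simp only [e1 s h, e2 t h']
      exact Finset.disjoint_of_subset_left (hsub s h)
        (Finset.disjoint_of_subset_right (hsub' t h') hA)
    · simp only [e2 s h, e1 t h']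
      exact (Finset.disjoint_of_subset_left (hsub t h')
        (Finset.disjoint_of_subset_right (hsub' s h) hA)).symm
    · simp only [e2 s h, e2 t h']
      exact hf2' s h t h' hst
  · rw [Finset.union_biUnion, Finset.biUnion_congr rfl e1, Finset.biUnion_congr rfl e2, hf3, hf3']

theorem CovT.biUnion {Fill : ℕ → Finset α → Prop} {ι : Type} [DecidableEq ι] (J : Finset ι)
    (T : ι → Finset ℕ) (A : ι → Finset α) (h1 : ∀ j ∈ J, CovT Fill (T j) (A j))
    (hT : ∀ i ∈ J, ∀ j ∈ J, i ≠ j → Disjoint (T i) (T j))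
    (hA : ∀ i ∈ J, ∀ j ∈ J, i ≠ j → Disjoint (A i) (A j)) :
    CovT Fill (J.biUnion T) (J.biUnion A) := by
  induction J using Finset.induction_on with
  | empty =>
    refine ⟨fun _ => ∅, ?_, ?_, ?_⟩ <;> simp
  | insert a J ha ih =>
    rw [Finset.biUnion_insert, Finset.biUnion_insert]
    refine CovT.union (h1 a (Finset.mem_insert_self a J)) (ih ?_ ?_ ?_) ?_ ?_
    · exact fun j hj => h1 j (Finset.mem_insert_of_mem hj)
    · exact fun i hi j hj => hT i (Finset.mem_insert_of_mem hi) j (Finset.mem_insert_of_mem hj)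
    · exact fun i hi j hj => hA i (Finset.mem_insert_of_mem hi) j (Finset.mem_insert_of_mem hj)
    · rw [Finset.disjoint_biUnion_right]
      intro j hj
      exact hT a (Finset.mem_insert_self a J) j (Finset.mem_insert_of_mem hj)
        (fun h => ha (h ▸ hj))
    · rw [Finset.disjoint_biUnion_right]
      intro j hj
      exact hA a (Finset.mem_insert_self a J) j (Finset.mem_insert_of_mem hj)
        (fun h => ha (h ▸ hj))

/-- AB-6: class count of a covering -/
theorem CovT.card_cls {h : K → ℕ} {T₀ : ℕ} {δ : ℝ} {m : ℕ} {X : Finset α} {cls : α → K}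
    {Fill : ℕ → Finset α → Prop} (H : AbsSys h T₀ δ m X cls Fill) {T : Finset ℕ}
    (hT : T ⊆ range m) {A : Finset α} (hA : CovT Fill T A) (c : K) :
    (A.filter (fun x => cls x = c)).card = h c * T.card ∧ A ⊆ X := by
  obtain ⟨f, hf1, hf2, rfl⟩ := hA
  constructor
  · rw [Finset.filter_biUnion, Finset.card_biUnion]
    · rw [Finset.sum_congr rfl fun s hs =>
        H.cardF s (Finset.mem_range.mp (hT hs)) (f s) (hf1 s hs) c, Finset.sum_const, smul_eq_mul,
        mul_comm]
    · intro s hs t ht hst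
      exact Finset.disjoint_filter_filter (hf2 s hs t ht hst)
  · rw [Finset.biUnion_subset]
    exact fun s hs => H.sub s (Finset.mem_range.mp (hT hs)) (f s) (hf1 s hs)

end AB

end SqCyc
end

section

/-! # Decompositions: definitions -/

open Finset

namespace SqCyc

/-- square of a cycle with `n` vertices -/
def sqCycle (n : ℕ) : SimpleGraph (ZMod n) :=
  SimpleGraph.fromRel (fun i j => j - i = 1 ∨ j - i = 2)

/-- the edges of the complete graph on `n` vertices decompose into squares of Hamilton cycles -/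
def Decomposes (n : ℕ) : Prop :=
  ∃ B : Fin ((n - 1) / 4) → SimpleGraph (Fin n), (∀ b, Nonempty (B b ≃g sqCycle n)) ∧
    ∀ u v : Fin n, u ≠ v → ∃! b, (B b).Adj u v

/-- a half block of the model with parameter `k` (positions `0, …, 2k-1`) -/
structure HalfBlock (k : ℕ) (y : ℕ → Pt k) : Prop where
  inj : Set.InjOn (el y) {b : ℕ × ℕ | b.1 < 3 ∧ b.2 + b.1 < 2 * k}
  t0 : (y 0).1 = false
  t1 : (y 1).1 = true
  t2 : (y (2 * k - 2)).1 = false
  t3 : (y (2 * k - 1)).1 = true
  spec : ∀ b : ℕ × ℕ, b.1 < 3 → b.2 + b.1 < 2 * k →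
    el y b ≠ col (y (2 * k - 2)) ((y (2 * k - 1)).1, (y (2 * k - 1)).2 + (k : ZMod (2 * k)))

end SqCyc
end

section

/-! # Gibbs measures: definitions -/

open Finset

namespace SqCyc

section
variable {Ω β E σ : Type} [DecidableEq E]

/-- weight of an element: `exp γ` on `X'`, zero outside -/
noncomputable def psi (X' : Finset E) (γ : E → ℝ) (e : E) : ℝ :=
  if e ∈ X' then Real.exp (γ e) else 0

/-- weight of a configuration -/
noncomputable def Wt (J : Finset β) (F : β → Ω → E) (X' : Finset E) (γ : E → ℝ) (x : Ω) : ℝ :=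
  ∏ b ∈ J, psi X' γ (F b x)

/-- partition function -/
noncomputable def Zf (Om : Finset Ω) (J : Finset β) (F : β → Ω → E) (X' : Finset E)
    (γ : E → ℝ) : ℝ :=
  ∑ x ∈ Om, Wt J F X' γ x

/-- mass of the event `F a x = e` -/
noncomputable def Nm (Om : Finset Ω) (J : Finset β) (F : β → Ω → E) (X' : Finset E)
    (γ : E → ℝ) (a : β) (e : E) : ℝ :=
  ∑ x ∈ Om.filter (fun x => F a x = e), Wt J F X' γ x

/-- expected coverage (with multiplicity) of the element `e` -/
noncomputable def covr (S' : Finset σ) (Om : σ → Finset Ω) (J : Finset β) (F : β → Ω → E)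
    (X' : Finset E) (γ : E → ℝ) (e : E) : ℝ :=
  ∑ s ∈ S', (∑ a ∈ J, Nm (Om s) J F X' γ a e) / Zf (Om s) J F X' γ

end

section
variable {P Q : Type} [DecidableEq P]

/-- `u` on `T`, `x` elsewhere -/
def mix (T : Finset P) (x u : P → Q) : P → Q := fun i => if i ∈ T then u i else x i

end

/-- configurations of a slot of length `ℓ` (with the four port points) -/
abbrev Cfg (k ℓ : ℕ) := Fin (ℓ + 2) → Pt k

/-- extension to all positions -/
def ext {k ℓ : ℕ} (x : Cfg k ℓ) : ℕ → Pt k :=
  fun i => if h : i < ℓ + 2 then x ⟨i, h⟩ else (false, 0)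

/-- allowed points at the positions of slot `s` -/
def Apos (k : ℕ) [NeZero k] (w : ℕ → Letter) (ℓ s : ℕ) (i : Fin (ℓ + 2)) : Finset (Pt k) :=
  if i.val = 0 then {PA k s} else if i.val = 1 then {PC k s}
  else if i.val < ℓ then Lset k (w i.val)
  else if i.val = ℓ then {PA k (s + 1)} else {PC k (s + 1)}

/-- all configurations of slot `s` -/
def Om (k : ℕ) [NeZero k] (w : ℕ → Letter) (ℓ s : ℕ) : Finset (Cfg k ℓ) :=
  Fintype.piFinset (Apos k w ℓ s)

/-- the element with index `b` of a configuration -/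
def Fc {k ℓ : ℕ} (b : ℕ × ℕ) (x : Cfg k ℓ) : El := el (ext x) b

/-- free positions of an index -/
def fp (ℓ : ℕ) (b : ℕ × ℕ) : Finset ℕ := ({b.2, b.2 + b.1} : Finset ℕ).filter (fun i => 2 ≤ i ∧ i < ℓ)

/-- number of indices of class `c` in a slot -/
def hcls (k : ℕ) (w : ℕ → Letter) (ℓ : ℕ) (c : Cls) : ℕ :=
  ((idx ℓ).filter (fun b => clsB k w b = c)).card

/-- context of the Gibbs lemmas for one slot `s` -/
structure GCtx (k : ℕ) [NeZero k] (ℓ : ℕ) (w : ℕ → Letter) (X' : Finset El) (p : ℝ) : Prop where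
  hX : X' ⊆ U k
  hℓ : 20 ≤ ℓ
  hk : 100 * ℓ + 1000 ≤ k
  w0 : w 0 = (false, false)
  w1 : w 1 = (true, false)
  wl : w ℓ = (false, false)
  wl1 : w (ℓ + 1) = (true, false)
  p0 : 0 ≤ p
  p1 : p ≤ 1 / 1000
  bad : ∀ c : Cls, 2 * (((U k \ X').filter (fun e => clsEl k e = c)).card : ℝ) + 2 ≤ p * k

end SqCyc
end

section

section

/-! # MD-1 parity, distance, vertices and colours -/

open Finset

namespace SqCyc

variable {k : ℕ} [NeZero k]

omit [NeZero k] in
private lemma md1_bodd_mod (m : ℕ) : (m % (2 * k)).bodd = m.bodd := by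
  conv_rhs => rw [← Nat.mod_add_div m (2 * k)]
  rw [Nat.bodd_add, Nat.bodd_mul, Nat.bodd_mul]
  simp

private lemma md1_ne : NeZero (2 * k) := ⟨by have := NeZero.ne k; omega⟩

private lemma md1_lt (a : ZMod (2 * k)) : a.val < 2 * k := by
  have : NeZero (2 * k) := md1_ne
  exact ZMod.val_lt a

private lemma md1_neg (a : ZMod (2 * k)) : (-a).val = if a.val = 0 then 0 else 2 * k - a.val := by
  have : NeZero (2 * k) := md1_ne
  rw [ZMod.neg_val]
  simp only [ZMod.val_eq_zero]

private lemma md1_inj {a b : ZMod (2 * k)} (h : a.val = b.val) : a = b := by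
  have : NeZero (2 * k) := md1_ne
  exact ZMod.val_injective _ h

private lemma md1_modk {x : ℕ} (h : x < 2 * k) : x % k = if x < k then x else x - k := by
  split_ifs with h1
  · exact Nat.mod_eq_of_lt h1
  · rw [Nat.mod_eq_sub_mod (by omega), Nat.mod_eq_of_lt (by omega)]

private lemma md1_mod2k {x : ℕ} (h : x < 4 * k) :
    x % (2 * k) = if x < 2 * k then x else x - 2 * k := by
  split_ifs with h1
  · exact Nat.mod_eq_of_lt h1
  · rw [Nat.mod_eq_sub_mod (by omega), Nat.mod_eq_of_lt (by omega)]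

private lemma md1_kpos : 0 < k := Nat.pos_of_ne_zero (NeZero.ne k)

private lemma md1_valk : ((k : ℕ) : ZMod (2 * k)).val = k := by
  have := md1_kpos (k := k)
  rw [ZMod.val_natCast, Nat.mod_eq_of_lt (by omega)]

theorem val_add_bodd (a b : ZMod (2 * k)) : (a + b).val.bodd = xor a.val.bodd b.val.bodd := by
  have : NeZero (2 * k) := md1_ne
  rw [ZMod.val_add, md1_bodd_mod, Nat.bodd_add]

theorem val_neg_bodd (a : ZMod (2 * k)) : (-a).val.bodd = a.val.bodd := by
  have h := val_add_bodd a (-a)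
  rw [add_neg_cancel, ZMod.val_zero, Nat.bodd_zero] at h
  cases h1 : a.val.bodd <;> cases h2 : (-a).val.bodd <;> simp_all

theorem val_sub_bodd (a b : ZMod (2 * k)) : (a - b).val.bodd = xor a.val.bodd b.val.bodd := by
  rw [sub_eq_add_neg, val_add_bodd, val_neg_bodd]

theorem val_natCast_bodd (n : ℕ) : ((n : ℕ) : ZMod (2 * k)).val.bodd = n.bodd := by
  rw [ZMod.val_natCast, md1_bodd_mod]

theorem dst_neg (a : ZMod (2 * k)) : dst (-a) = dst a := by
  unfold dst
  rw [md1_neg]
  have := md1_lt a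
  split_ifs <;> omega

theorem dst_eq_iff (a b : ZMod (2 * k)) : dst a = dst b ↔ a = b ∨ a = -b := by
  constructor
  · intro h
    unfold dst at h
    have h1 := md1_lt a
    have h2 := md1_lt b
    by_cases hab : a.val = b.val
    · left; exact md1_inj hab
    · right
      apply md1_inj
      rw [md1_neg]
      split_ifs <;> omega
  · rintro (rfl | rfl)
    · rfl
    · exact dst_neg b

theorem dst_bodd (a : ZMod (2 * k)) : (dst a).bodd = a.val.bodd := by
  unfold dst
  have h1 := md1_lt a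
  rcases min_choice a.val (2 * k - a.val) with h | h
  · rw [h]
  · rw [h]
    by_cases h0 : a.val = 0
    · rw [h0] at h ⊢; omega
    · have h2 := md1_neg a
      rw [if_neg h0] at h2
      rw [← h2, val_neg_bodd]

theorem dst_le (a : ZMod (2 * k)) : dst a ≤ k := by
  unfold dst
  omega

theorem dst_eq_zero_iff (a : ZMod (2 * k)) : dst a = 0 ↔ a = 0 := by
  have h1 := md1_lt a
  rw [← ZMod.val_eq_zero]
  unfold dst
  omega

theorem dst_eq_k_iff (a : ZMod (2 * k)) : dst a = k ↔ a = (k : ZMod (2 * k)) := by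
  have h1 := md1_lt a
  have h0 := md1_kpos (k := k)
  constructor
  · intro h
    apply md1_inj
    rw [md1_valk]
    unfold dst at h
    omega
  · rintro rfl
    unfold dst
    rw [md1_valk]
    omega

theorem dst_natCast {d : ℕ} (h : d ≤ k) : dst ((d : ℕ) : ZMod (2 * k)) = d := by
  have h0 := md1_kpos (k := k)
  unfold dst
  rw [ZMod.val_natCast, Nat.mod_eq_of_lt (by omega)]
  omega

theorem vtx_eq_iff (P Q : Pt k) :
    vtx P = vtx Q ↔ P.1 = Q.1 ∧ (P.2 = Q.2 ∨ P.2 = Q.2 + (k : ZMod (2 * k))) := by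
  have : NeZero (2 * k) := md1_ne
  unfold vtx
  rw [El.v.injEq]
  apply and_congr_right
  intro _
  have h1 := md1_lt P.2
  have h2 := md1_lt Q.2
  have h0 := md1_kpos (k := k)
  have h3 : (Q.2 + (k : ZMod (2 * k))).val
      = if Q.2.val + k < 2 * k then Q.2.val + k else Q.2.val + k - 2 * k := by
    rw [ZMod.val_add, md1_valk, md1_mod2k (by omega)]
  rw [md1_modk h1, md1_modk h2]
  constructor
  · intro h
    by_cases hab : P.2.val = Q.2.val
    · left; exact md1_inj hab
    · right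
      apply md1_inj
      rw [h3]
      split_ifs at * <;> omega
  · rintro (h | h)
    · rw [h]
    · rw [h, h3]
      split_ifs <;> omega

theorem col_comm (P Q : Pt k) : col P Q = col Q P := by
  unfold col
  by_cases h : P.1 = Q.1
  · rw [if_pos h, if_pos h.symm, h, ← dst_neg, neg_sub]
  · rw [if_neg h, if_neg (Ne.symm h)]
    cases hP : P.1 <;> cases hQ : Q.1 <;> simp_all

theorem col_same {P Q : Pt k} (h : P.1 = Q.1) : col P Q = El.p P.1 (dst (P.2 - Q.2)) := by
  unfold col
  rw [if_pos h]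

theorem col_cross {P Q : Pt k} (hP : P.1 = false) (hQ : Q.1 = true) :
    col P Q = El.x (Q.2 - P.2).val := by
  unfold col
  simp [hP, hQ]

theorem vtx_ne_col (P Q R : Pt k) : vtx P ≠ col Q R := by
  unfold vtx col
  split_ifs <;> simp

end SqCyc
end

section

/-! # MD-2 classes, membership, lifts -/

open Finset

namespace SqCyc

variable {k : ℕ} [NeZero k]

private lemma m2_mem {θ : Letter} {P : Pt k} :
    P ∈ Lset k θ ↔ P.1 = θ.1 ∧ P.2.val.bodd = θ.2 := by
  simp [Lset]

private lemma m2_kpos : 0 < k := Nat.pos_of_ne_zero (NeZero.ne k)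

private lemma m2_val_lt (a : ZMod (2 * k)) : a.val < 2 * k := ZMod.val_lt a

omit [NeZero k] in
private lemma m2_val_cast {n : ℕ} (h : n < 2 * k) : ((n : ℕ) : ZMod (2 * k)).val = n :=
  ZMod.val_cast_of_lt h

private lemma m2_bodd_toNat (n : ℕ) : n % 2 = n.bodd.toNat := by
  exact Nat.mod_two_of_bodd n

theorem card_Lset (θ : Letter) : (Lset k θ).card = k := by
  have hk := m2_kpos (k := k)
  have : (Lset k θ).card = (range k).card := by
    refine Finset.card_nbij' (fun P : Pt k => P.2.val / 2)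
      (fun j => (θ.1, ((2 * j + θ.2.toNat : ℕ) : ZMod (2 * k)))) ?_ ?_ ?_ ?_
    · intro P hP
      have := m2_val_lt P.2
      simp only [coe_range, Set.mem_Iio]
      omega
    · intro j hj
      simp only [coe_range, Set.mem_Iio] at hj
      rw [Finset.mem_coe, m2_mem]
      refine ⟨rfl, ?_⟩
      have hb : θ.2.toNat ≤ 1 := by cases θ.2 <;> simp
      have h1 : 2 * j + θ.2.toNat < 2 * k := by omega
      simp only
      rw [m2_val_cast h1]
      cases θ.2 <;> simp
    · intro P hP
      rw [Finset.mem_coe, m2_mem] at hP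
      simp only
      have h2 := m2_bodd_toNat P.2.val
      rw [hP.2] at h2
      have h3 : 2 * (P.2.val / 2) + θ.2.toNat = P.2.val := by omega
      rw [h3, ZMod.natCast_zmod_val, ← hP.1]
    · intro j hj
      simp only [coe_range, Set.mem_Iio] at hj
      have hb : θ.2.toNat ≤ 1 := by cases θ.2 <;> simp
      have h1 : 2 * j + θ.2.toNat < 2 * k := by omega
      simp only
      rw [m2_val_cast h1]
      omega
  rw [this, card_range]

theorem mem_Lset_add {θ : Letter} {P : Pt k} (h : P ∈ Lset k θ) (a : ZMod (2 * k)) :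
    (P.1, P.2 + a) ∈ Lset k (θ.1, xor θ.2 a.val.bodd) := by
  rw [m2_mem] at h ⊢
  refine ⟨h.1, ?_⟩
  simp only
  rw [val_add_bodd, h.2]

omit [NeZero k] in
private lemma m2_mod_bodd {n : ℕ} (_hn : n < 2 * k) (hk : k.bodd = false) :
    (n % k).bodd = n.bodd := by
  have h := Nat.div_add_mod n k
  have h1 : n.bodd = (k * (n / k) + n % k).bodd := by rw [h]
  rw [h1, Nat.bodd_add, Nat.bodd_mul, hk]
  simp

theorem clsEl_vtx {θ : Letter} {P : Pt k} (h : P ∈ Lset k θ) : clsEl k (vtx P) = clsV k θ := by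
  rw [m2_mem] at h
  unfold vtx clsEl clsV
  by_cases hk : k.bodd = true
  · simp [hk, h.1]
  · have hk' : k.bodd = false := by simpa using hk
    simp only [hk', Bool.false_eq_true, if_false]
    rw [m2_mod_bodd (m2_val_lt _) hk', h.1, h.2]

theorem clsEl_col {θ η : Letter} {P Q : Pt k} (hP : P ∈ Lset k θ) (hQ : Q ∈ Lset k η) :
    clsEl k (col P Q) = clsC θ η := by
  rw [m2_mem] at hP hQ
  unfold col clsC
  by_cases h : P.1 = Q.1
  · have h' : θ.1 = η.1 := by rw [← hP.1, ← hQ.1, h]
    rw [if_pos h, if_pos h']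
    simp only [clsEl]
    rw [dst_bodd, val_sub_bodd, hP.1, hP.2, hQ.2]
  · have h' : θ.1 ≠ η.1 := by rw [← hP.1, ← hQ.1]; exact h
    rw [if_neg h, if_neg h']
    simp only [clsEl]
    split_ifs with h2
    · rw [val_sub_bodd, hP.2, hQ.2]
    · rw [val_sub_bodd, hP.2, hQ.2, Bool.xor_comm]

omit [NeZero k] in
private lemma m2_v_mem {i : Bool} {y : ℕ} : El.v i y ∈ U k ↔ y < k := by
  unfold U
  simp

omit [NeZero k] in
private lemma m2_p_mem {i : Bool} {y : ℕ} : El.p i y ∈ U k ↔ 1 ≤ y ∧ y < k := by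
  unfold U
  simp

omit [NeZero k] in
private lemma m2_x_mem {y : ℕ} : El.x y ∈ U k ↔ y < 2 * k := by
  unfold U
  simp

theorem vtx_mem_U (P : Pt k) : vtx P ∈ U k := by
  unfold vtx
  rw [m2_v_mem]
  exact Nat.mod_lt _ m2_kpos

theorem col_mem_Uall (P Q : Pt k) : col P Q ∈ Uall k := by
  unfold col Uall
  rw [Finset.mem_union]
  split_ifs with h1 h2
  · by_cases h3 : dst (P.2 - Q.2) = 0
    · right
      rw [h3]
      cases P.1 <;> simp
    · by_cases h4 : dst (P.2 - Q.2) = k
      · right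
        rw [h4]
        cases P.1 <;> simp
      · left
        rw [m2_p_mem]
        have := dst_le (P.2 - Q.2)
        omega
  · left
    rw [m2_x_mem]
    exact m2_val_lt _
  · left
    rw [m2_x_mem]
    exact m2_val_lt _

theorem col_mem_U {P Q : Pt k} (h : vtx P ≠ vtx Q) : col P Q ∈ U k := by
  rw [Ne, vtx_eq_iff] at h
  unfold col
  split_ifs with h1 h2
  · rw [m2_p_mem]
    have h3 := dst_le (P.2 - Q.2)
    have h4 : dst (P.2 - Q.2) ≠ 0 := by
      intro h5
      rw [dst_eq_zero_iff] at h5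
      exact h ⟨h1, Or.inl (sub_eq_zero.mp h5)⟩
    have h5 : dst (P.2 - Q.2) ≠ k := by
      intro h5
      rw [dst_eq_k_iff] at h5
      exact h ⟨h1, Or.inr (by rw [← h5]; ring)⟩
    omega
  · rw [m2_x_mem]
    exact m2_val_lt _
  · rw [m2_x_mem]
    exact m2_val_lt _

theorem exists_vtx_lift {θ : Letter} {e : El} (he : e ∈ U k) (hc : clsEl k e = clsV k θ) :
    ∃ z ∈ Lset k θ, vtx z = e := by
  have hk := m2_kpos (k := k)
  cases e with
  | v i y =>
    rw [m2_v_mem] at he
    unfold clsEl clsV at hc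
    by_cases hk1 : k.bodd = true
    · simp only [hk1, if_true, Cls.V.injEq, and_true] at hc
      by_cases hy : y.bodd = θ.2
      · refine ⟨(θ.1, (y : ZMod (2 * k))), ?_, ?_⟩
        · rw [m2_mem]
          exact ⟨rfl, by simp only; rw [val_natCast_bodd, hy]⟩
        · unfold vtx
          simp only
          rw [m2_val_cast (by omega), Nat.mod_eq_of_lt he, hc]
      · refine ⟨(θ.1, ((y + k : ℕ) : ZMod (2 * k))), ?_, ?_⟩
        · rw [m2_mem]
          refine ⟨rfl, ?_⟩
          simp only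
          rw [val_natCast_bodd, Nat.bodd_add, hk1]
          revert hy
          cases y.bodd <;> cases θ.2 <;> simp
        · unfold vtx
          simp only
          rw [m2_val_cast (by omega), Nat.add_mod_right, Nat.mod_eq_of_lt he, hc]
    · have hk' : k.bodd = false := by simpa using hk1
      simp only [hk', Bool.false_eq_true, if_false, Cls.V.injEq] at hc
      refine ⟨(θ.1, (y : ZMod (2 * k))), ?_, ?_⟩
      · rw [m2_mem]
        exact ⟨rfl, by simp only; rw [val_natCast_bodd, hc.2]⟩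
      · unfold vtx
        simp only
        rw [m2_val_cast (by omega), Nat.mod_eq_of_lt he, hc.1]
  | p i d =>
    unfold clsEl clsV at hc
    simp only at hc
    split_ifs at hc
  | x d =>
    unfold clsEl clsV at hc
    simp only at hc
    split_ifs at hc

theorem exists_col_lift {θ η : Letter} {e : El} (he : e ∈ U k) (hc : clsEl k e = clsC θ η)
    {z : Pt k} (hz : z ∈ Lset k θ) : ∃ z' ∈ Lset k η, col z z' = e := by
  have hk := m2_kpos (k := k)
  have hz' := hz
  rw [m2_mem] at hz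
  cases e with
  | v i y =>
    unfold clsEl clsC at hc
    simp only at hc
    split_ifs at hc
  | p i d =>
    rw [m2_p_mem] at he
    unfold clsEl clsC at hc
    simp only at hc
    split_ifs at hc with h1
    rw [Cls.P.injEq] at hc
    refine ⟨(z.1, z.2 + (d : ZMod (2 * k))), ?_, ?_⟩
    · have := mem_Lset_add hz' (d : ZMod (2 * k))
      rw [val_natCast_bodd, hc.2, h1] at this
      convert this using 2
      ext
      · simp
      · simp
    · rw [col_same (by rfl)]
      simp only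
      rw [show z.2 - (z.2 + (d : ZMod (2 * k))) = -(d : ZMod (2 * k)) by ring, dst_neg,
        dst_natCast (by omega), hc.1, hz.1]
  | x d =>
    rw [m2_x_mem] at he
    unfold clsEl clsC at hc
    simp only at hc
    split_ifs at hc with h1
    rw [Cls.X.injEq] at hc
    by_cases h2 : θ.1 = false
    · have h3 : η.1 = true := by
        rw [h2] at h1
        revert h1
        cases η.1 <;> simp
      refine ⟨(true, z.2 + (d : ZMod (2 * k))), ?_, ?_⟩
      · rw [m2_mem]
        refine ⟨h3.symm, ?_⟩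
        simp only
        rw [val_add_bodd, val_natCast_bodd, hc, hz.2]
        simp
      · rw [col_cross (by rw [hz.1, h2]) (by rfl)]
        simp only
        rw [add_sub_cancel_left, m2_val_cast he]
    · have h2' : θ.1 = true := by
        revert h2
        cases θ.1 <;> simp
      have h3 : η.1 = false := by
        rw [h2'] at h1
        revert h1
        cases η.1 <;> simp
      refine ⟨(false, z.2 - (d : ZMod (2 * k))), ?_, ?_⟩
      · rw [m2_mem]
        refine ⟨h3.symm, ?_⟩
        simp only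
        rw [val_sub_bodd, val_natCast_bodd, hc, hz.2]
        simp
      · rw [col_comm, col_cross (by rfl) (by rw [hz.1, h2'])]
        simp only
        rw [sub_sub_cancel, m2_val_cast he]

end SqCyc
end
end

section

section

/-! # RS-1 exponential tail -/

open Finset

namespace SqCyc

private theorem rt_count {X : Type} [Fintype X] [DecidableEq X] (Q : ℕ) (hQ : 1 ≤ Q)
    (U : Finset X) :
    ∑ g : X → Fin Q, (if ∀ x ∈ U, (g x).val = 0 then (1 : ℝ) else 0) =
      (Q : ℝ) ^ Fintype.card X * ((Q : ℝ)⁻¹) ^ U.card := by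
  have hQ0 : (Q : ℝ) ≠ 0 := by
    have : 0 < Q := hQ
    exact_mod_cast this.ne'
  have h1 : ∀ g : X → Fin Q, (if ∀ x ∈ U, (g x).val = 0 then (1 : ℝ) else 0) =
      ∏ x, (if x ∈ U then (if (g x).val = 0 then (1 : ℝ) else 0) else 1) := by
    intro g
    split_ifs with h
    · symm
      apply prod_eq_one
      intro x _
      split_ifs with h2 h3
      · rfl
      · exact absurd (h x h2) h3
      · rfl
    · push Not at h
      obtain ⟨x, hx, hx0⟩ := h
      symm
      apply prod_eq_zero (mem_univ x)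
      rw [if_pos hx, if_neg hx0]
  rw [sum_congr rfl fun g _ => h1 g]
  have h2 := (prod_univ_sum (fun _ : X => (univ : Finset (Fin Q)))
    (fun x a => if x ∈ U then (if a.val = 0 then (1 : ℝ) else 0) else 1)).symm
  rw [Fintype.piFinset_univ] at h2
  rw [h2]
  have h3 : ∀ x : X, (∑ a : Fin Q, if x ∈ U then (if a.val = 0 then (1 : ℝ) else 0) else 1) =
      Q * (if x ∈ U then (Q : ℝ)⁻¹ else 1) := by
    intro x
    split_ifs with hx
    · rw [mul_inv_cancel₀ hQ0, sum_eq_single (⟨0, hQ⟩ : Fin Q)]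
      · simp
      · intro b _ hb
        rw [if_neg]
        intro hb0
        exact hb (Fin.ext hb0)
      · intro h
        exact absurd (mem_univ _) h
    · simp
  rw [prod_congr rfl fun x _ => h3 x, prod_mul_distrib, prod_const, card_univ]
  congr 1
  rw [prod_ite, prod_const_one, mul_one, prod_const]
  congr 2
  ext x
  simp

/-- RS-1: exponential tail: among the functions `g : X → Fin Q`, at most a proportion
`exp (ν n' - ...)` has few of the disjoint sets `D t ⊆ g⁻¹(0)`. -/
theorem reservoir_tail {X : Type} [Fintype X] [DecidableEq X] (Q : ℕ) (hQ : 1 ≤ Q) (r n : ℕ)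
    (D : Fin n → Finset X) (hD : ∀ t, (D t).card ≤ r)
    (hdisj : ∀ s t, s ≠ t → Disjoint (D s) (D t)) (a : ℝ) :
    ((univ.filter (fun g : X → Fin Q =>
        ((univ.filter (fun t : Fin n => ∀ x ∈ D t, (g x).val = 0)).card : ℝ) ≤ a)).card : ℝ)
      ≤ Real.exp (a - n / (2 * (Q : ℝ) ^ r)) * Fintype.card (X → Fin Q) := by
  have hQpos : (0 : ℝ) < Q := by
    have : 0 < Q := hQ
    exact_mod_cast this
  have hQ1 : (1 : ℝ) ≤ Q := by exact_mod_cast hQ
  have hQi0 : 0 < (Q : ℝ)⁻¹ := by positivity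
  have hQi1 : (Q : ℝ)⁻¹ ≤ 1 := inv_le_one_of_one_le₀ hQ1
  set c : ℝ := 1 - Real.exp (-1) with hc
  have he : Real.exp (-1) ≤ 1 / 2 := by
    rw [Real.exp_neg, one_div]
    apply inv_anti₀ (by norm_num)
    have := Real.add_one_le_exp 1
    linarith
  have he0 : 0 < Real.exp (-1) := Real.exp_pos _
  have hc1 : 1 / 2 ≤ c := by rw [hc]; linarith
  have hc2 : c ≤ 1 := by rw [hc]; linarith
  set Nf : (X → Fin Q) → ℕ := fun g =>
    (univ.filter (fun t : Fin n => ∀ x ∈ D t, (g x).val = 0)).card with hNf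
  -- the exponential moment
  have hexp : ∀ g : X → Fin Q, Real.exp (-(Nf g : ℝ)) =
      ∏ t, (1 + -(c * (if ∀ x ∈ D t, (g x).val = 0 then (1 : ℝ) else 0))) := by
    intro g
    have h1 : ∀ t, (1 + -(c * (if ∀ x ∈ D t, (g x).val = 0 then (1 : ℝ) else 0))) =
        if ∀ x ∈ D t, (g x).val = 0 then Real.exp (-1) else 1 := by
      intro t
      split_ifs
      · rw [hc]; ring
      · simp
    rw [prod_congr rfl fun t _ => h1 t, prod_ite, prod_const_one, mul_one, prod_const,
      ← Real.exp_nat_mul]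
    congr 1
    rw [mul_neg, mul_one]
  have hmom : ∑ g : X → Fin Q, Real.exp (-(Nf g : ℝ)) =
      (Q : ℝ) ^ Fintype.card X * ∏ t, (1 + -(c * ((Q : ℝ)⁻¹) ^ (D t).card)) := by
    rw [sum_congr rfl fun g _ => hexp g]
    simp only [prod_one_add]
    rw [sum_comm, mul_sum]
    refine sum_congr rfl fun T _ => ?_
    have h1 : ∀ g : X → Fin Q,
        ∏ t ∈ T, -(c * (if ∀ x ∈ D t, (g x).val = 0 then (1 : ℝ) else 0)) =
        (-c) ^ T.card * (if ∀ x ∈ T.biUnion D, (g x).val = 0 then (1 : ℝ) else 0) := by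
      intro g
      split_ifs with h
      · rw [mul_one, ← prod_const]
        refine prod_congr rfl fun t ht => ?_
        rw [if_pos (fun x hx => h x (mem_biUnion.2 ⟨t, ht, hx⟩)), mul_one]
      · push Not at h
        obtain ⟨x, hx, hx0⟩ := h
        obtain ⟨t, ht, hxt⟩ := mem_biUnion.1 hx
        rw [mul_zero]
        apply prod_eq_zero ht
        rw [if_neg (fun hall => hx0 (hall x hxt)), mul_zero, neg_zero]
    rw [sum_congr rfl fun g _ => h1 g, ← mul_sum, rt_count Q hQ]
    have h2 : (T.biUnion D).card = ∑ t ∈ T, (D t).card :=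
      card_biUnion fun s _ t _ hst => hdisj s t hst
    rw [h2, ← prod_pow_eq_pow_sum, ← prod_const]
    rw [mul_comm ((Q : ℝ) ^ Fintype.card X), ← mul_assoc, ← prod_mul_distrib, mul_comm]
    congr 1
    refine prod_congr rfl fun t _ => ?_
    ring
  have hprod : ∏ t, (1 + -(c * ((Q : ℝ)⁻¹) ^ (D t).card)) ≤
      Real.exp (-(n / (2 * (Q : ℝ) ^ r))) := by
    have h1 : ∀ t, 1 + -(c * ((Q : ℝ)⁻¹) ^ (D t).card) ≤ Real.exp (-(1 / (2 * (Q : ℝ) ^ r))) := by
      intro t
      have h2 : 1 / (2 * (Q : ℝ) ^ r) ≤ c * ((Q : ℝ)⁻¹) ^ (D t).card := by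
        have h3 : ((Q : ℝ)⁻¹) ^ r ≤ ((Q : ℝ)⁻¹) ^ (D t).card :=
          pow_le_pow_of_le_one hQi0.le hQi1 (hD t)
        calc 1 / (2 * (Q : ℝ) ^ r) = 1 / 2 * ((Q : ℝ)⁻¹) ^ r := by
              rw [inv_pow]; field_simp
          _ ≤ c * ((Q : ℝ)⁻¹) ^ (D t).card := mul_le_mul hc1 h3 (by positivity) (by linarith)
      have h4 := Real.add_one_le_exp (-(1 / (2 * (Q : ℝ) ^ r)))
      linarith
    have h0 : ∀ t, 0 ≤ 1 + -(c * ((Q : ℝ)⁻¹) ^ (D t).card) := by
      intro t
      have h2 : ((Q : ℝ)⁻¹) ^ (D t).card ≤ 1 := pow_le_one₀ hQi0.le hQi1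
      have h3 : c * ((Q : ℝ)⁻¹) ^ (D t).card ≤ 1 * 1 :=
        mul_le_mul hc2 h2 (by positivity) (by norm_num)
      linarith
    calc ∏ t, (1 + -(c * ((Q : ℝ)⁻¹) ^ (D t).card))
        ≤ ∏ _t : Fin n, Real.exp (-(1 / (2 * (Q : ℝ) ^ r))) :=
          prod_le_prod (fun t _ => h0 t) (fun t _ => h1 t)
      _ = Real.exp (-(n / (2 * (Q : ℝ) ^ r))) := by
          rw [prod_const, card_univ, Fintype.card_fin, ← Real.exp_nat_mul]
          congr 1
          ring
  -- Markov
  have hmark : Real.exp (-a) * ((univ.filter (fun g : X → Fin Q => ((Nf g : ℕ) : ℝ) ≤ a)).card : ℝ)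
      ≤ ∑ g : X → Fin Q, Real.exp (-(Nf g : ℝ)) := by
    calc Real.exp (-a) * ((univ.filter (fun g : X → Fin Q => ((Nf g : ℕ) : ℝ) ≤ a)).card : ℝ)
        = ∑ g ∈ univ.filter (fun g : X → Fin Q => ((Nf g : ℕ) : ℝ) ≤ a), Real.exp (-a) := by
          rw [sum_const, nsmul_eq_mul, mul_comm]
      _ ≤ ∑ g ∈ univ.filter (fun g : X → Fin Q => ((Nf g : ℕ) : ℝ) ≤ a),
            Real.exp (-(Nf g : ℝ)) := by
          apply sum_le_sum
          intro g hg
          rw [mem_filter] at hg
          exact Real.exp_le_exp.2 (neg_le_neg hg.2)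
      _ ≤ ∑ g : X → Fin Q, Real.exp (-(Nf g : ℝ)) :=
          sum_le_sum_of_subset_of_nonneg (filter_subset _ _) (fun _ _ _ => (Real.exp_pos _).le)
  have hcard : (Fintype.card (X → Fin Q) : ℝ) = (Q : ℝ) ^ Fintype.card X := by
    rw [Fintype.card_fun, Fintype.card_fin]
    push_cast
    rfl
  rw [hcard]
  have hfin : Real.exp (-a) *
      ((univ.filter (fun g : X → Fin Q => ((Nf g : ℕ) : ℝ) ≤ a)).card : ℝ) ≤
      (Q : ℝ) ^ Fintype.card X * Real.exp (-(n / (2 * (Q : ℝ) ^ r))) := by
    refine hmark.trans ?_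
    rw [hmom]
    exact mul_le_mul_of_nonneg_left hprod (by positivity)
  have hea : Real.exp a * Real.exp (-a) = 1 := by rw [← Real.exp_add]; simp
  calc ((univ.filter (fun g : X → Fin Q => ((Nf g : ℕ) : ℝ) ≤ a)).card : ℝ)
      = Real.exp a * (Real.exp (-a) *
        ((univ.filter (fun g : X → Fin Q => ((Nf g : ℕ) : ℝ) ≤ a)).card : ℝ)) := by
        rw [← mul_assoc, hea, one_mul]
    _ ≤ Real.exp a * ((Q : ℝ) ^ Fintype.card X * Real.exp (-(n / (2 * (Q : ℝ) ^ r)))) :=
        mul_le_mul_of_nonneg_left hfin (Real.exp_pos _).le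
    _ = Real.exp (a - n / (2 * (Q : ℝ) ^ r)) * (Q : ℝ) ^ Fintype.card X := by
        rw [sub_eq_add_neg, Real.exp_add]
        ring

end SqCyc
end

section

/-! # TP-1 counting functions and injections mapping A into W -/

open Finset

namespace SqCyc

/-- TP-1: number of functions `X → Y` mapping `A` into `W`. -/
theorem card_fun_maps {X Y : Type} [Fintype X] [Fintype Y] [DecidableEq X] [DecidableEq Y]
    (A : Finset X) (W : Finset Y) :
    (univ.filter (fun f : X → Y => ∀ x ∈ A, f x ∈ W)).card * Fintype.card Y ^ A.card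
      = W.card ^ A.card * Fintype.card (X → Y) := by
  classical
  have h1 : (univ.filter (fun f : X → Y => ∀ x ∈ A, f x ∈ W)) =
      Fintype.piFinset (fun x => if x ∈ A then W else univ) := by
    ext f
    simp only [mem_filter, mem_univ, true_and, Fintype.mem_piFinset]
    constructor
    · intro h x
      by_cases hx : x ∈ A
      · simpa [hx] using h x hx
      · simp [hx]
    · intro h x hx
      simpa [hx] using h x
  have h2 : ∀ x : X, (if x ∈ A then W else univ).card =
      if x ∈ A then W.card else Fintype.card Y := by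
    intro x
    by_cases hx : x ∈ A
    · simp [hx]
    · simp [hx, card_univ]
  rw [h1, Fintype.card_piFinset, Finset.prod_congr rfl (fun x _ => h2 x), Finset.prod_ite,
    prod_const, prod_const, Fintype.card_fun]
  have h3 : (univ.filter fun x => x ∈ A).card = A.card := by
    congr 1
    ext x
    simp
  have h4 : (univ.filter fun x => x ∉ A).card + A.card = Fintype.card X := by
    have h5 : (univ.filter fun x => x ∉ A) = Aᶜ := by
      ext x
      simp
    rw [h5, card_compl]
    exact Nat.sub_add_cancel (card_le_univ A)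
  rw [h3, mul_assoc, ← pow_add, h4]

private theorem tpl1_step {X Y : Type} [Fintype X] [Fintype Y] [DecidableEq X] [DecidableEq Y]
    (A : Finset X) (W : Finset Y) (x₀ : X) (hx₀ : x₀ ∉ A) :
    (univ.filter (fun f : X ↪ Y => ∀ x ∈ insert x₀ A, f x ∈ W)).card * Fintype.card Y ≤
      (univ.filter (fun f : X ↪ Y => ∀ x ∈ A, f x ∈ W)).card * W.card := by
  classical
  rw [← card_univ (α := Y), ← card_product, ← card_product]
  refine Finset.card_le_card_of_injOn
    (fun q : (X ↪ Y) × Y => (q.1.trans (Equiv.swap (q.1 x₀) q.2).toEmbedding, q.1 x₀)) ?_ ?_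
  · rintro ⟨f, y⟩ hq
    simp only [coe_product, Set.mem_prod, mem_coe, mem_filter, mem_univ, true_and, and_true,
      Function.Embedding.trans_apply, Equiv.coe_toEmbedding] at hq ⊢
    have hw0 := hq x₀ (mem_insert_self _ _)
    refine ⟨fun a ha => ?_, hw0⟩
    have hne : f a ≠ f x₀ := by
      intro h
      have := f.injective h
      exact hx₀ (this ▸ ha)
    by_cases hy : f a = y
    · rw [hy, Equiv.swap_apply_right]
      exact hw0
    · rw [Equiv.swap_apply_of_ne_of_ne hne hy]
      exact hq a (mem_insert_of_mem ha)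
  · rintro ⟨f1, y1⟩ _ ⟨f2, y2⟩ _ he
    simp only [Prod.mk.injEq] at he
    obtain ⟨he1, he2⟩ := he
    have hev : ∀ a, Equiv.swap (f1 x₀) y1 (f1 a) = Equiv.swap (f2 x₀) y2 (f2 a) := by
      intro a
      have := DFunLike.congr_fun he1 a
      simpa [Function.Embedding.trans_apply] using this
    have hy : y1 = y2 := by
      have := hev x₀
      rwa [Equiv.swap_apply_left, Equiv.swap_apply_left] at this
    subst hy
    have hf : f1 = f2 := by
      ext a
      have := hev a
      rw [he2] at this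
      exact (Equiv.swap (f2 x₀) y1).injective this
    rw [hf]

/-- TP-2: fraction of injections `X → Y` mapping `B` into `W`. -/
theorem card_emb_maps {X Y : Type} [Fintype X] [Fintype Y] [DecidableEq X] [DecidableEq Y]
    (A : Finset X) (W : Finset Y) :
    (univ.filter (fun f : X ↪ Y => ∀ x ∈ A, f x ∈ W)).card * Fintype.card Y ^ A.card
      ≤ W.card ^ A.card * Fintype.card (X ↪ Y) := by
  classical
  induction A using Finset.induction_on with
  | empty =>
    simp only [notMem_empty, false_implies, implies_true, card_empty, pow_zero, mul_one, one_mul]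
    rw [filter_true_of_mem (fun _ _ => trivial), card_univ]
  | insert x₀ A hx₀ ih =>
    have h1 := tpl1_step A W x₀ hx₀
    rw [card_insert_of_notMem hx₀, pow_succ, pow_succ]
    calc (univ.filter (fun f : X ↪ Y => ∀ x ∈ insert x₀ A, f x ∈ W)).card *
          (Fintype.card Y ^ A.card * Fintype.card Y)
        = (univ.filter (fun f : X ↪ Y => ∀ x ∈ insert x₀ A, f x ∈ W)).card * Fintype.card Y *
          Fintype.card Y ^ A.card := by ring
      _ ≤ (univ.filter (fun f : X ↪ Y => ∀ x ∈ A, f x ∈ W)).card * W.card *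
          Fintype.card Y ^ A.card := Nat.mul_le_mul_right _ h1
      _ = (univ.filter (fun f : X ↪ Y => ∀ x ∈ A, f x ∈ W)).card *
          Fintype.card Y ^ A.card * W.card := by ring
      _ ≤ W.card ^ A.card * Fintype.card (X ↪ Y) * W.card := Nat.mul_le_mul_right _ ih
      _ = W.card ^ A.card * W.card * Fintype.card (X ↪ Y) := by ring

end SqCyc
end

section

/-! # TP-2 first moment, alpha part -/

open Finset

namespace SqCyc

/-- the number of bad families for a pair `(A, W)` -/
private theorem tp2_card_bad (μ : ℕ) (A : Finset (Fin (3 * μ))) (W : Finset (Fin (2 * μ))) :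
    (univ.filter (fun α : Fin 20 → Fin (3 * μ) → Fin (2 * μ) =>
      ∀ i, ∀ x ∈ A, α i x ∈ W)).card =
      (univ.filter (fun f : Fin (3 * μ) → Fin (2 * μ) => ∀ x ∈ A, f x ∈ W)).card ^ 20 := by
  have h : (univ.filter (fun α : Fin 20 → Fin (3 * μ) → Fin (2 * μ) =>
      ∀ i, ∀ x ∈ A, α i x ∈ W)) = Fintype.piFinset (fun _ : Fin 20 =>
        univ.filter (fun f : Fin (3 * μ) → Fin (2 * μ) => ∀ x ∈ A, f x ∈ W)) := by
    ext α
    simp only [Finset.mem_filter, Finset.mem_univ, true_and, Fintype.mem_piFinset]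
  rw [h, Fintype.card_piFinset, Finset.prod_const, Finset.card_univ, Fintype.card_fin]

private theorem tp2_choose (m a : ℕ) (ha : 1 ≤ a) :
    ((m.choose a : ℕ) : ℝ) ≤ ((m : ℝ) * Real.exp 1 / a) ^ a := by
  have ha' : (0 : ℝ) < a := by exact_mod_cast ha
  have h1 : ((m.choose a : ℕ) : ℝ) ≤ (m : ℝ) ^ a / (a.factorial : ℝ) := Nat.choose_le_pow_div a m
  have h2 := Real.pow_div_factorial_le_exp (x := (a : ℝ)) ha'.le a
  have h3 : Real.exp (a : ℝ) = Real.exp 1 ^ a := by
    rw [← Real.exp_nat_mul, mul_one]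
  have hf : (0 : ℝ) < (a.factorial : ℝ) := by exact_mod_cast a.factorial_pos
  have h4 : (1 : ℝ) / (a.factorial : ℝ) ≤ Real.exp 1 ^ a / (a : ℝ) ^ a := by
    rw [h3, div_le_iff₀ hf] at h2
    rw [div_le_div_iff₀ hf (by positivity), one_mul]
    exact h2
  calc ((m.choose a : ℕ) : ℝ) ≤ (m : ℝ) ^ a / (a.factorial : ℝ) := h1
    _ = (m : ℝ) ^ a * (1 / (a.factorial : ℝ)) := by ring
    _ ≤ (m : ℝ) ^ a * (Real.exp 1 ^ a / (a : ℝ) ^ a) :=
        mul_le_mul_of_nonneg_left h4 (by positivity)
    _ = ((m : ℝ) * Real.exp 1 / a) ^ a := by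
        rw [div_pow, mul_pow]
        ring

private theorem tp2_term (μ a : ℕ) (ha : 1 ≤ a) (ha2 : 2 * a ≤ 3 * μ) :
    (((3 * μ).choose a : ℕ) : ℝ) * (((2 * μ).choose a : ℕ) : ℝ) *
      ((a : ℝ) ^ a / ((2 * μ : ℕ) : ℝ) ^ a) ^ 20 ≤ (1 / 2) ^ a := by
  have ha' : (0 : ℝ) < a := by exact_mod_cast ha
  have hμ : 0 < μ := by omega
  have hμ' : (0 : ℝ) < μ := by exact_mod_cast hμ
  have h1 := tp2_choose (3 * μ) a ha
  have h2 := tp2_choose (2 * μ) a ha
  set t : ℝ := (a : ℝ) / (2 * μ) with ht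
  have ht0 : 0 < t := by positivity
  have ht1 : t ≤ 3 / 4 := by
    rw [ht, div_le_iff₀ (by positivity)]
    have : (2 * (a : ℝ)) ≤ 3 * μ := by exact_mod_cast ha2
    linarith
  have e1 : ((3 * μ : ℕ) : ℝ) * Real.exp 1 / a = 3 / 2 * Real.exp 1 / t := by
    rw [ht]
    push_cast
    field_simp
    
  have e2 : ((2 * μ : ℕ) : ℝ) * Real.exp 1 / a = Real.exp 1 / t := by
    rw [ht]
    push_cast
    field_simp
  have e3 : ((a : ℝ) ^ a / ((2 * μ : ℕ) : ℝ) ^ a) ^ 20 = (t ^ 20) ^ a := by
    rw [ht, ← div_pow, ← pow_mul, ← pow_mul, mul_comm a 20]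
    push_cast
    rfl
  rw [e1] at h1
  rw [e2] at h2
  rw [e3]
  have hexp : Real.exp 1 < 2.7182818286 := Real.exp_one_lt_d9
  have hexp0 : 0 < Real.exp 1 := Real.exp_pos 1
  have hbase : 3 / 2 * Real.exp 1 / t * (Real.exp 1 / t) * t ^ 20 ≤ 1 / 2 := by
    have h5 : 3 / 2 * Real.exp 1 / t * (Real.exp 1 / t) * t ^ 20 =
        3 / 2 * Real.exp 1 ^ 2 * t ^ 18 := by
      field_simp
    rw [h5]
    have h6 : t ^ 18 ≤ (3 / 4) ^ 18 := pow_le_pow_left₀ ht0.le ht1 18
    have h7 : Real.exp 1 ^ 2 ≤ 2.7182818286 ^ 2 := pow_le_pow_left₀ hexp0.le hexp.le 2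
    calc 3 / 2 * Real.exp 1 ^ 2 * t ^ 18 ≤ 3 / 2 * 2.7182818286 ^ 2 * (3 / 4) ^ 18 := by
          gcongr
      _ ≤ 1 / 2 := by norm_num
  calc (((3 * μ).choose a : ℕ) : ℝ) * (((2 * μ).choose a : ℕ) : ℝ) * (t ^ 20) ^ a
      ≤ (3 / 2 * Real.exp 1 / t) ^ a * (Real.exp 1 / t) ^ a * (t ^ 20) ^ a := by
        gcongr
    _ = (3 / 2 * Real.exp 1 / t * (Real.exp 1 / t) * t ^ 20) ^ a := by
        rw [mul_pow, mul_pow]
    _ ≤ (1 / 2) ^ a := pow_le_pow_left₀ (by positivity) hbase a

private theorem tp2_geom (m : ℕ) : ∑ b ∈ range m, (1 / 2 : ℝ) ^ (b + 1) < 1 := by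
  have h : ∑ b ∈ range m, (1 / 2 : ℝ) ^ (b + 1) = 1 - (1 / 2) ^ m := by
    induction m with
    | zero => simp
    | succ m ih =>
      rw [Finset.sum_range_succ, ih]
      ring
  rw [h]
  have : (0 : ℝ) < (1 / 2) ^ m := by positivity
  linarith

/-- TP-3: first moment, `α` part: there are 20 functions such that every small set of nodes
expands. (`μ ≥ 1`.)  The bad families are fewer than half of all. -/
theorem template_alpha (μ : ℕ) (hμ : 20 ≤ μ) :
    ∃ α : Fin 20 → Fin (3 * μ) → Fin (2 * μ),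
      ∀ A : Finset (Fin (3 * μ)), 2 * A.card ≤ 3 * μ →
        A.card ≤ (univ.biUnion (fun i => A.image (α i))).card := by
  classical
  by_contra hcon
  push Not at hcon
  set m : ℕ := 3 * μ / 2 with hm
  set F : ℕ := Fintype.card (Fin (3 * μ) → Fin (2 * μ)) with hF
  have hFpos : 0 < F := by
    rw [hF, Fintype.card_pi]
    simp only [Fintype.card_fin, Finset.prod_const]
    positivity
  set Bad : Finset (Fin (3 * μ)) → Finset (Fin (2 * μ)) →
      Finset (Fin 20 → Fin (3 * μ) → Fin (2 * μ)) := fun A W =>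
    univ.filter (fun α => ∀ i, ∀ x ∈ A, α i x ∈ W) with hBad
  have hcover : (univ : Finset (Fin 20 → Fin (3 * μ) → Fin (2 * μ))) ⊆
      (range m).biUnion (fun b => (powersetCard (b + 1) univ).biUnion (fun A =>
        (powersetCard (b + 1) univ).biUnion (fun W => Bad A W))) := by
    intro α _
    obtain ⟨A, hA2, hA⟩ := hcon α
    have hApos : 1 ≤ A.card := by omega
    obtain ⟨W, hUW, -, hWc⟩ := Finset.exists_subsuperset_card_eq
      (Finset.subset_univ (univ.biUnion (fun i => A.image (α i)))) hA.le (by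
        rw [Finset.card_univ, Fintype.card_fin]
        omega)
    rw [Finset.mem_biUnion]
    refine ⟨A.card - 1, ?_, ?_⟩
    · rw [Finset.mem_range]
      omega
    rw [Nat.sub_add_cancel hApos, Finset.mem_biUnion]
    refine ⟨A, Finset.mem_powersetCard.2 ⟨Finset.subset_univ _, rfl⟩, ?_⟩
    rw [Finset.mem_biUnion]
    refine ⟨W, Finset.mem_powersetCard.2 ⟨Finset.subset_univ _, hWc⟩, ?_⟩
    rw [hBad, Finset.mem_filter]
    refine ⟨Finset.mem_univ _, ?_⟩
    intro i x hx
    exact hUW (Finset.mem_biUnion.2 ⟨i, Finset.mem_univ _, Finset.mem_image_of_mem _ hx⟩)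
  have hcard : (F : ℝ) ^ 20 ≤ ∑ b ∈ range m, ∑ A ∈ powersetCard (b + 1) univ,
      ∑ W ∈ powersetCard (b + 1) univ, ((Bad A W).card : ℝ) := by
    have h1 := (Finset.card_le_card hcover).trans Finset.card_biUnion_le
    have h2 : Fintype.card (Fin 20 → Fin (3 * μ) → Fin (2 * μ)) = F ^ 20 := by
      rw [Fintype.card_pi, Finset.prod_const, Finset.card_univ, Fintype.card_fin]
    rw [Finset.card_univ, h2] at h1
    have h3 : F ^ 20 ≤ ∑ b ∈ range m, ∑ A ∈ powersetCard (b + 1) univ,
        ∑ W ∈ powersetCard (b + 1) univ, (Bad A W).card := by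
      refine h1.trans (Finset.sum_le_sum fun b _ => ?_)
      refine Finset.card_biUnion_le.trans (Finset.sum_le_sum fun A _ => ?_)
      exact Finset.card_biUnion_le
    exact_mod_cast h3
  have hterm : ∀ b ∈ range m, ∑ A ∈ powersetCard (b + 1) (univ : Finset (Fin (3 * μ))),
      ∑ W ∈ powersetCard (b + 1) (univ : Finset (Fin (2 * μ))), ((Bad A W).card : ℝ) ≤
        (F : ℝ) ^ 20 * (1 / 2) ^ (b + 1) := by
    intro b hb
    have hb' : 2 * (b + 1) ≤ 3 * μ := by
      have := Finset.mem_range.1 hb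
      omega
    have h1 : ∀ A ∈ powersetCard (b + 1) (univ : Finset (Fin (3 * μ))),
        ∀ W ∈ powersetCard (b + 1) (univ : Finset (Fin (2 * μ))), ((Bad A W).card : ℝ) =
          (F : ℝ) ^ 20 * ((((b + 1 : ℕ) : ℝ)) ^ (b + 1) / ((2 * μ : ℕ) : ℝ) ^ (b + 1)) ^ 20 := by
      intro A hA W hW
      have hAc := (Finset.mem_powersetCard.1 hA).2
      have hWc := (Finset.mem_powersetCard.1 hW).2
      have h2 := card_fun_maps A W
      rw [hAc, hWc, Fintype.card_fin, ← hF] at h2
      have h3 : ((univ.filter (fun f : Fin (3 * μ) → Fin (2 * μ) => ∀ x ∈ A, f x ∈ W)).card : ℝ)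
          * ((2 * μ : ℕ) : ℝ) ^ (b + 1) = ((b + 1 : ℕ) : ℝ) ^ (b + 1) * (F : ℝ) := by
        have h2' : (univ.filter (fun f : Fin (3 * μ) → Fin (2 * μ) => ∀ x ∈ A, f x ∈ W)).card
            * (2 * μ) ^ (b + 1) = (b + 1) ^ (b + 1) * F := by
          convert h2
        exact_mod_cast h2'
      have hpos : (0 : ℝ) < ((2 * μ : ℕ) : ℝ) ^ (b + 1) := by
        have : 0 < 2 * μ := by omega
        have : (0 : ℝ) < ((2 * μ : ℕ) : ℝ) := by exact_mod_cast this
        positivity
      have h4 : ((univ.filter (fun f : Fin (3 * μ) → Fin (2 * μ) => ∀ x ∈ A, f x ∈ W)).card : ℝ)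
          = (F : ℝ) * ((((b + 1 : ℕ) : ℝ)) ^ (b + 1) / ((2 * μ : ℕ) : ℝ) ^ (b + 1)) := by
        rw [eq_comm, mul_div_assoc', div_eq_iff hpos.ne', h3]
        ring
      have h5 : (Bad A W).card =
        (univ.filter (fun f : Fin (3 * μ) → Fin (2 * μ) => ∀ x ∈ A, f x ∈ W)).card ^ 20 :=
        tp2_card_bad μ A W
      rw [h5, Nat.cast_pow, h4, mul_pow]
    rw [Finset.sum_congr rfl fun A hA => Finset.sum_congr rfl fun W hW => h1 A hA W hW]
    rw [Finset.sum_const, Finset.sum_const, Finset.card_powersetCard, Finset.card_powersetCard,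
      Finset.card_univ, Finset.card_univ, Fintype.card_fin, Fintype.card_fin, nsmul_eq_mul,
      nsmul_eq_mul]
    have h6 := tp2_term μ (b + 1) (by omega) hb'
    have h7 : (0 : ℝ) ≤ (F : ℝ) ^ 20 := by positivity
    calc _ = (F : ℝ) ^ 20 * ((((3 * μ).choose (b + 1) : ℕ) : ℝ) *
          (((2 * μ).choose (b + 1) : ℕ) : ℝ) *
          (((b + 1 : ℕ) : ℝ) ^ (b + 1) / ((2 * μ : ℕ) : ℝ) ^ (b + 1)) ^ 20) := by ring
      _ ≤ _ := mul_le_mul_of_nonneg_left h6 h7
  have hfin := hcard.trans (Finset.sum_le_sum hterm)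
  rw [← Finset.mul_sum] at hfin
  have hg := tp2_geom m
  have hF20 : (0 : ℝ) < (F : ℝ) ^ 20 := by
    have : (0 : ℝ) < (F : ℝ) := by exact_mod_cast hFpos
    positivity
  nlinarith

end SqCyc
end

section

/-! # TP-3 first moment, beta part -/

open Finset

namespace SqCyc

private theorem tb_choose (n b : ℕ) (hb : 1 ≤ b) :
    ((n.choose b : ℕ) : ℝ) ≤ ((n : ℝ) * Real.exp 1 / b) ^ b := by
  have hb0 : (0 : ℝ) < b := by exact_mod_cast hb
  have h1 : ((n.choose b : ℕ) : ℝ) ≤ (n : ℝ) ^ b / b.factorial := Nat.choose_le_pow_div b n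
  have h2 := Real.pow_div_factorial_le_exp (b : ℝ) hb0.le b
  rw [div_le_iff₀ (by positivity), ← Real.exp_one_pow] at h2
  refine h1.trans ?_
  rw [div_pow, mul_pow, div_le_div_iff₀ (by positivity) (by positivity)]
  calc (n : ℝ) ^ b * (b : ℝ) ^ b ≤ (n : ℝ) ^ b * (Real.exp 1 ^ b * b.factorial) := by gcongr
    _ = (n : ℝ) ^ b * Real.exp 1 ^ b * b.factorial := by ring

private theorem tb_term (μ b : ℕ) (hμ : 20 ≤ μ) (hb : 1 ≤ b) (hb2 : 2 * b ≤ 3 * μ + 1) :
    (((4 * μ).choose b : ℕ) : ℝ) * (((3 * μ).choose b : ℕ) : ℝ) *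
      (((b : ℝ) / (3 * μ)) ^ b) ^ 10 ≤ (1 / 20) ^ b := by
  have hb0 : (0 : ℝ) < b := by exact_mod_cast hb
  have hμ' : (20 : ℝ) ≤ μ := by exact_mod_cast hμ
  have hμ0 : (0 : ℝ) < μ := by linarith
  have hb2' : 2 * (b : ℝ) ≤ 3 * μ + 1 := by exact_mod_cast hb2
  have h1 := tb_choose (4 * μ) b hb
  have h2 := tb_choose (3 * μ) b hb
  have he := Real.exp_one_lt_d9
  have he0 := Real.exp_pos 1
  set t : ℝ := (b : ℝ) / (3 * μ) with ht
  have ht0 : 0 < t := by positivity
  have ht1 : t ≤ 61 / 120 := by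
    rw [ht, div_le_iff₀ (by positivity)]
    linarith
  have h3 : (((4 * μ : ℕ) : ℝ) * Real.exp 1 / b) * (((3 * μ : ℕ) : ℝ) * Real.exp 1 / b) * t ^ 10 =
      4 / 3 * Real.exp 1 ^ 2 * t ^ 8 := by
    rw [ht]
    push_cast
    field_simp
  calc (((4 * μ).choose b : ℕ) : ℝ) * (((3 * μ).choose b : ℕ) : ℝ) * (t ^ b) ^ 10
      ≤ (((4 * μ : ℕ) : ℝ) * Real.exp 1 / b) ^ b * (((3 * μ : ℕ) : ℝ) * Real.exp 1 / b) ^ b *
        (t ^ b) ^ 10 := by gcongr
    _ = ((((4 * μ : ℕ) : ℝ) * Real.exp 1 / b) * (((3 * μ : ℕ) : ℝ) * Real.exp 1 / b) *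
        t ^ 10) ^ b := by
        rw [mul_pow, mul_pow, ← pow_mul t b 10, ← pow_mul t 10 b, mul_comm b 10]
    _ = (4 / 3 * Real.exp 1 ^ 2 * t ^ 8) ^ b := by rw [h3]
    _ ≤ (1 / 20) ^ b := by
        refine pow_le_pow_left₀ (by positivity) ?_ b
        calc 4 / 3 * Real.exp 1 ^ 2 * t ^ 8 ≤ 4 / 3 * (2.7182818286 : ℝ) ^ 2 * (61 / 120) ^ 8 := by
              gcongr
          _ ≤ 1 / 20 := by norm_num

private theorem tb_geom (n : ℕ) : ∑ b ∈ Finset.Icc 1 n, ((1 : ℝ) / 20) ^ b < 1 := by
  have h : ∀ n : ℕ, ∑ b ∈ Finset.Icc 1 n, ((1 : ℝ) / 20) ^ b = 1 / 19 * (1 - (1 / 20) ^ n) := by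
    intro n
    induction n with
    | zero => simp
    | succ n ih =>
      rw [Finset.sum_Icc_succ_top (by omega), ih]
      ring
  rw [h]
  have : (0 : ℝ) < (1 / 20) ^ n := by positivity
  linarith

/-- TP-4: first moment, `β` part. Elements: `Fin (4 μ)`; slots of nodes: `Fin (3 μ) × Fin 2`. -/
theorem template_beta (μ : ℕ) (hμ : 20 ≤ μ) :
    ∃ β : Fin 10 → Fin (4 * μ) ↪ Fin (3 * μ) × Fin 2,
      ∀ B : Finset (Fin (4 * μ)), 2 * B.card ≤ 3 * μ + 1 →
        B.card ≤ (univ.biUnion (fun i => B.image (fun z => (β i z).1))).card := by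
  classical
  by_contra hcon
  push Not at hcon
  have hμ0 : (0 : ℝ) < μ := by
    have : 0 < μ := by omega
    exact_mod_cast this
  -- number of embeddings
  set F : ℕ := Fintype.card (Fin (4 * μ) ↪ Fin (3 * μ) × Fin 2) with hF
  have hF0 : 0 < F := by
    rw [hF]
    have : Nonempty (Fin (4 * μ) ↪ Fin (3 * μ) × Fin 2) := by
      rw [Function.Embedding.nonempty_iff_card_le]
      simp
      omega
    exact Fintype.card_pos
  have hF0' : (0 : ℝ) < F := by exact_mod_cast hF0
  -- bad events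
  set G : Finset (Fin (4 * μ)) → Finset (Fin (3 * μ)) →
      Finset (Fin (4 * μ) ↪ Fin (3 * μ) × Fin 2) := fun B W =>
    univ.filter (fun f => ∀ x ∈ B, f x ∈ W ×ˢ (univ : Finset (Fin 2))) with hG
  set E : Finset (Fin (4 * μ)) → Finset (Fin (3 * μ)) →
      Finset (Fin 10 → Fin (4 * μ) ↪ Fin (3 * μ) × Fin 2) := fun B W =>
    Fintype.piFinset (fun _ => G B W) with hE
  set Js : Finset ℕ := (Finset.Icc 1 (4 * μ)).filter (fun b => 2 * b ≤ 3 * μ + 1) with hJs
  have hcover : (univ : Finset (Fin 10 → Fin (4 * μ) ↪ Fin (3 * μ) × Fin 2)) ⊆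
      Js.biUnion fun b => (Finset.powersetCard b univ).biUnion fun B =>
        (Finset.powersetCard b univ).biUnion fun W => E B W := by
    intro β _
    obtain ⟨B, hB1, hB2⟩ := hcon β
    have hb1 : 1 ≤ B.card := by omega
    have hb4 : B.card ≤ 4 * μ := by
      simpa using Finset.card_le_univ B
    have hN : B.card ≤ (univ : Finset (Fin (3 * μ))).card := by
      simp
      omega
    obtain ⟨W, hW1, -, hW2⟩ := Finset.exists_subsuperset_card_eq
      (Finset.subset_univ (univ.biUnion (fun i => B.image (fun z => (β i z).1)))) hB2.le hN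
    simp only [Finset.mem_biUnion]
    refine ⟨B.card, ?_, B, Finset.mem_powersetCard.2 ⟨Finset.subset_univ _, rfl⟩, W,
      Finset.mem_powersetCard.2 ⟨Finset.subset_univ _, hW2⟩, ?_⟩
    · rw [hJs, Finset.mem_filter, Finset.mem_Icc]
      exact ⟨⟨hb1, hb4⟩, hB1⟩
    · simp only [hE, hG]
      rw [Fintype.mem_piFinset]
      intro i
      rw [Finset.mem_filter]
      refine ⟨Finset.mem_univ _, fun x hx => ?_⟩
      rw [Finset.mem_product]
      refine ⟨hW1 ?_, Finset.mem_univ _⟩
      rw [Finset.mem_biUnion]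
      exact ⟨i, Finset.mem_univ i, Finset.mem_image.2 ⟨x, hx, rfl⟩⟩
  have hEcard : ∀ b ∈ Js, ∀ B ∈ Finset.powersetCard b (univ : Finset (Fin (4 * μ))),
      ∀ W ∈ Finset.powersetCard b (univ : Finset (Fin (3 * μ))),
      ((E B W).card : ℝ) ≤ (((b : ℝ) / (3 * μ)) ^ b) ^ 10 * (F : ℝ) ^ 10 := by
    intro b hb B hB W hW
    have hBc := (Finset.mem_powersetCard.1 hB).2
    have hWc := (Finset.mem_powersetCard.1 hW).2
    have h1 := card_emb_maps B (W ×ˢ (univ : Finset (Fin 2)))
    rw [Finset.card_product, hBc, hWc] at h1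
    simp only [Finset.card_univ, Fintype.card_fin, Fintype.card_prod] at h1
    have h2 : ((G B W).card : ℝ) * ((3 * μ * 2 : ℕ) : ℝ) ^ b ≤ ((b * 2 : ℕ) : ℝ) ^ b * F := by
      have h1' : (G B W).card * (3 * μ * 2) ^ b ≤ (b * 2) ^ b * F := by
        convert h1
      exact_mod_cast h1'
    have h3 : ((G B W).card : ℝ) ≤ ((b : ℝ) / (3 * μ)) ^ b * F := by
      rw [← le_div_iff₀ (by positivity)] at h2
      refine h2.trans (le_of_eq ?_)
      push_cast
      rw [mul_comm ((b : ℝ)) 2, show (3 * (μ : ℝ) * 2) = 2 * (3 * μ) by ring, mul_pow, mul_pow,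
        div_pow]
      field_simp
    have h4 : (E B W).card = (G B W).card ^ 10 := by
      simp only [hE]
      rw [Fintype.card_piFinset_const]
    rw [h4]
    push_cast
    rw [← mul_pow]
    exact pow_le_pow_left₀ (by positivity) h3 10
  have hcardΩ : (univ : Finset (Fin 10 → Fin (4 * μ) ↪ Fin (3 * μ) × Fin 2)).card = F ^ 10 := by
    rw [Finset.card_univ, Fintype.card_fun, Fintype.card_fin]
  have hle1 : (F : ℝ) ^ 10 ≤ ∑ b ∈ Js, ∑ B ∈ Finset.powersetCard b (univ : Finset (Fin (4 * μ))),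
      ∑ W ∈ Finset.powersetCard b (univ : Finset (Fin (3 * μ))), ((E B W).card : ℝ) := by
    have h1 := Finset.card_le_card hcover
    rw [hcardΩ] at h1
    have h2 : F ^ 10 ≤ ∑ b ∈ Js, ∑ B ∈ Finset.powersetCard b (univ : Finset (Fin (4 * μ))),
      ∑ W ∈ Finset.powersetCard b (univ : Finset (Fin (3 * μ))), (E B W).card := by
      refine h1.trans (Finset.card_biUnion_le.trans (Finset.sum_le_sum fun b _ => ?_))
      refine Finset.card_biUnion_le.trans (Finset.sum_le_sum fun B _ => ?_)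
      exact Finset.card_biUnion_le
    exact_mod_cast h2
  have hle2 : ∑ b ∈ Js, ∑ B ∈ Finset.powersetCard b (univ : Finset (Fin (4 * μ))),
      ∑ W ∈ Finset.powersetCard b (univ : Finset (Fin (3 * μ))), ((E B W).card : ℝ) ≤
      ∑ b ∈ Js, (1 / 20 : ℝ) ^ b * (F : ℝ) ^ 10 := by
    refine Finset.sum_le_sum fun b hb => ?_
    have hb' := hb
    rw [hJs, Finset.mem_filter, Finset.mem_Icc] at hb'
    calc ∑ B ∈ Finset.powersetCard b (univ : Finset (Fin (4 * μ))),
          ∑ W ∈ Finset.powersetCard b (univ : Finset (Fin (3 * μ))), ((E B W).card : ℝ)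
        ≤ ∑ B ∈ Finset.powersetCard b (univ : Finset (Fin (4 * μ))),
          ∑ W ∈ Finset.powersetCard b (univ : Finset (Fin (3 * μ))),
            (((b : ℝ) / (3 * μ)) ^ b) ^ 10 * (F : ℝ) ^ 10 :=
          Finset.sum_le_sum fun B hB => Finset.sum_le_sum fun W hW => hEcard b hb B hB W hW
      _ = (((4 * μ).choose b : ℕ) : ℝ) * (((3 * μ).choose b : ℕ) : ℝ) *
          (((b : ℝ) / (3 * μ)) ^ b) ^ 10 * (F : ℝ) ^ 10 := by
          rw [Finset.sum_const, Finset.sum_const, Finset.card_powersetCard,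
            Finset.card_powersetCard, Finset.card_univ, Finset.card_univ, Fintype.card_fin,
            Fintype.card_fin, nsmul_eq_mul, nsmul_eq_mul]
          ring
      _ ≤ (1 / 20 : ℝ) ^ b * (F : ℝ) ^ 10 := by
          refine mul_le_mul_of_nonneg_right ?_ (by positivity)
          exact tb_term μ b hμ hb'.1.1 hb'.2
  have hle3 : ∑ b ∈ Js, (1 / 20 : ℝ) ^ b * (F : ℝ) ^ 10 ≤
      (∑ b ∈ Finset.Icc 1 (4 * μ), (1 / 20 : ℝ) ^ b) * (F : ℝ) ^ 10 := by
    rw [Finset.sum_mul]
    refine Finset.sum_le_sum_of_subset_of_nonneg (Finset.filter_subset _ _) fun b _ _ => ?_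
    positivity
  have hg := tb_geom (4 * μ)
  have hFp : (0 : ℝ) < (F : ℝ) ^ 10 := by positivity
  have : (∑ b ∈ Finset.Icc 1 (4 * μ), (1 / 20 : ℝ) ^ b) * (F : ℝ) ^ 10 < 1 * (F : ℝ) ^ 10 :=
    mul_lt_mul_of_pos_right hg hFp
  linarith

end SqCyc
end

section

/-! # AB-1 many disjoint fillings -/

open Finset

namespace SqCyc

section AB

variable {α K : Type} [DecidableEq α] [Fintype K] [DecidableEq K]

theorem abs1_card_fill {h : K → ℕ} {T₀ : ℕ} {δ : ℝ} {m : ℕ} {X : Finset α} {cls : α → K}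
    {Fill : ℕ → Finset α → Prop} (H : AbsSys h T₀ δ m X cls Fill) {s : ℕ} (hs : s < m)
    {A : Finset α} (hA : Fill s A) : A.card = ∑ c, h c := by
  rw [card_eq_sum_card_fiberwise (f := cls) (t := univ) (fun _ _ => mem_coe.2 (mem_univ _))]
  exact sum_congr rfl fun c _ => H.cardF s hs A hA c

/-- AB-1: many disjoint fillings of a slot -/
theorem many_fill {h : K → ℕ} {T₀ : ℕ} {δ : ℝ} {m : ℕ} {X : Finset α} {cls : α → K}
    {Fill : ℕ → Finset α → Prop} (H : AbsSys h T₀ δ m X cls Fill) (n : ℕ)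
    (hn : ((n * ∑ c, h c : ℕ) : ℝ) ≤ δ * m) (s : ℕ) (hs : s < m) :
    ∃ D : ℕ → Finset α, (∀ t < n, Fill s (D t)) ∧
      (∀ t < n, ∀ t' < n, t ≠ t' → Disjoint (D t) (D t')) := by
  induction n with
  | zero => exact ⟨fun _ => ∅, fun t ht => absurd ht (by omega), fun t ht => absurd ht (by omega)⟩
  | succ n ih =>
    have hn' : ((n * ∑ c, h c : ℕ) : ℝ) ≤ δ * m :=
      le_trans (by exact_mod_cast Nat.mul_le_mul_right _ (Nat.le_succ n)) hn
    obtain ⟨D, hD1, hD2⟩ := ih hn'
    have hF : (((range n).biUnion D).card : ℝ) ≤ δ * m := by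
      refine le_trans ?_ hn'
      have h1 := card_biUnion_le_card_mul (range n) D (∑ c, h c) fun t ht =>
        (abs1_card_fill H hs (hD1 t (mem_range.1 ht))).le
      rw [card_range] at h1
      exact_mod_cast h1
    obtain ⟨A, hA, hAF⟩ := H.avoid s hs _ hF
    refine ⟨fun t => if t = n then A else D t, fun t ht => ?_, fun t ht t' ht' htt => ?_⟩
    · by_cases h1 : t = n
      · simp only [h1, if_true]; exact hA
      · simp only [h1, if_false]; exact hD1 t (by omega)
    · by_cases h1 : t = n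
      · have h2 : t' ≠ n := fun h => htt (h1.trans h.symm)
        simp only [h1, h2, if_true, if_false]
        exact disjoint_of_subset_right
          (subset_biUnion_of_mem D (mem_range.2 (by omega : t' < n))) hAF
      · by_cases h2 : t' = n
        · simp only [h1, h2, if_true, if_false]
          exact (disjoint_of_subset_right
            (subset_biUnion_of_mem D (mem_range.2 (by omega : t < n))) hAF).symm
        · simp only [h1, h2, if_false]
          exact hD2 t (by omega) t' (by omega) htt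

/-- AB-2: many fillings of a slot through `x`, disjoint apart from `x` -/
theorem many_fill_mem {h : K → ℕ} {T₀ : ℕ} {δ : ℝ} {m : ℕ} {X : Finset α} {cls : α → K}
    {Fill : ℕ → Finset α → Prop} (H : AbsSys h T₀ δ m X cls Fill) (n : ℕ)
    (hn : ((n * ∑ c, h c : ℕ) : ℝ) ≤ δ * m) (s : ℕ) (hs : s < m) (x : α) (hx : x ∈ X) :
    ∃ D : ℕ → Finset α, (∀ t < n, x ∉ D t ∧ Fill s (insert x (D t))) ∧
      (∀ t < n, ∀ t' < n, t ≠ t' → Disjoint (D t) (D t')) := by
  induction n with
  | zero => exact ⟨fun _ => ∅, fun t ht => absurd ht (by omega), fun t ht => absurd ht (by omega)⟩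
  | succ n ih =>
    have hn' : ((n * ∑ c, h c : ℕ) : ℝ) ≤ δ * m :=
      le_trans (by exact_mod_cast Nat.mul_le_mul_right _ (Nat.le_succ n)) hn
    obtain ⟨D, hD1, hD2⟩ := ih hn'
    have hF : (((range n).biUnion D).card : ℝ) ≤ δ * m := by
      refine le_trans ?_ hn'
      have h1 := card_biUnion_le_card_mul (range n) D (∑ c, h c) fun t ht => by
        have h2 := (abs1_card_fill H hs (hD1 t (mem_range.1 ht)).2).le
        exact le_trans (card_le_card (subset_insert _ _)) h2
      rw [card_range] at h1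
      exact_mod_cast h1
    have hxF : x ∉ (range n).biUnion D := by
      intro hx'
      obtain ⟨t, ht, hxt⟩ := mem_biUnion.1 hx'
      exact (hD1 t (mem_range.1 ht)).1 hxt
    obtain ⟨A, hA, hxA, hAF⟩ := H.avoid_mem s hs x hx _ hxF hF
    have hAF' : Disjoint (A.erase x) ((range n).biUnion D) :=
      disjoint_of_subset_left (erase_subset _ _) hAF
    refine ⟨fun t => if t = n then A.erase x else D t, fun t ht => ?_, fun t ht t' ht' htt => ?_⟩
    · by_cases h1 : t = n
      · simp only [h1, if_true]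
        rw [insert_erase hxA]
        exact ⟨notMem_erase _ _, hA⟩
      · simp only [h1, if_false]; exact hD1 t (by omega)
    · by_cases h1 : t = n
      · have h2 : t' ≠ n := fun h => htt (h1.trans h.symm)
        simp only [h1, h2, if_true, if_false]
        exact disjoint_of_subset_right
          (subset_biUnion_of_mem D (mem_range.2 (by omega : t' < n))) hAF'
      · by_cases h2 : t' = n
        · simp only [h1, h2, if_true, if_false]
          exact (disjoint_of_subset_right
            (subset_biUnion_of_mem D (mem_range.2 (by omega : t < n))) hAF').symm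
        · simp only [h1, h2, if_false]
          exact hD2 t (by omega) t' (by omega) htt

end AB

end SqCyc
end
end
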