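import Pool.Agent.Lib.SqCyc.Abs1
import Pool.Agent.Lib.SqCyc.Model

section

/-! # Words: definitions -/

open Finset

namespace SqCyc

/-- the four letters -/
abbrev LA : Letter := (false, false)
abbrev LB : Letter := (false, true)
abbrev LC : Letter := (true, false)
abbrev LD : Letter := (true, true)

/-- number of edges of class `c` of a list: pairs at distance one and two whose first position
is not one of the last two positions -/
def ec (c : Cls) : List Letter → ℕ
  | x :: y :: z :: r => (if clsC x y = c then 1 else 0) + (if clsC x z = c then 1 else 0) +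
      ec c (y :: z :: r)
  | _ => 0

/-- balanced lists -/
structure Bal (l : List Letter) : Prop where
  start : ∃ t, l = LA :: LC :: t
  let_ : ∀ θ : Letter, 4 * l.count θ = l.length
  pur : ∀ i e : Bool, 4 * ec (Cls.P i e) (l ++ [LA, LC]) = l.length
  crs : ∀ e : Bool, 2 * ec (Cls.X e) (l ++ [LA, LC]) = l.length

/-- the main word, `ACBACBDCBDCDBCCCCCDCBADCABCABDABDAAAAABAAACAAADACBCDBADCBDDDDDBCDBDCCCBADCDBBBBBCABDABDDACBD` -/
def v92 : List Letter :=
  [LA, LC, LB, LA, LC, LB, LD, LC, LB, LD, LC, LD, LB, LC, LC, LC, LC, LC, LD, LC, LB, LA, LD,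
   LC, LA, LB, LC, LA, LB, LD, LA, LB, LD, LA, LA, LA, LA, LA, LB, LA, LA, LA, LC, LA, LA, LA,
   LD, LA, LC, LB, LC, LD, LB, LA, LD, LC, LB, LD, LD, LD, LD, LD, LB, LC, LD, LB, LD, LC, LC,
   LC, LB, LA, LD, LC, LD, LB, LB, LB, LB, LB, LC, LA, LB, LD, LA, LB, LD, LD, LA, LC, LB, LD]

def b12 : List Letter := [LA, LC, LA, LA, LB, LB, LC, LC, LD, LB, LD, LD]

def b16 : List Letter := [LA, LC, LC, LA, LD, LA, LD, LA, LB, LB, LD, LD, LC, LC, LB, LB]

/-- the irregular word used for even `k` -/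
def i10 : List Letter := [LA, LC, LB, LB, LD, LC, LD, LD, LA, LB]

/-- the slot word -/
def wslot (i : ℕ) : Letter := v92.getD (i % 92) LA

/-- number of indices of class `c`, ports included -/
def bcnt (k : ℕ) (w : ℕ → Letter) (n : ℕ) (c : Cls) : ℕ :=
  ((range 3 ×ˢ range n).filter (fun b => clsB k w b = c)).card

/-- class counts of a balanced word of length `n` -/
def tgt (k n : ℕ) : Cls → ℕ
  | Cls.V _ e => if k.bodd then (if e then 0 else n / 2) else n / 4
  | Cls.P _ _ => n / 4
  | Cls.X _ => n / 2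

/-- class counts of the extra word for even `k` -/
def tgt' (n : ℕ) : Cls → ℕ
  | Cls.V _ e => if e then (n + 2) / 4 else (n - 2) / 4
  | Cls.P _ e => if e then (n + 2) / 4 else (n - 2) / 4
  | Cls.X e => if e then n / 2 + 1 else n / 2 - 1

/-- the elements used by the ports `0, …, M` and the special (wrap-around) colour -/
def Ports (k M : ℕ) : Finset El :=
  (range (M + 1)).image (fun s => vtx (PA k s)) ∪ (range (M + 1)).image (fun s => vtx (PC k s)) ∪
  (range (M + 1)).image (fun s => El.x (2 * s)) ∪ {El.x (2 * M + k)}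

end SqCyc
end

section

section

/-! # AB-4 greedy completion inside the reservoir -/

open Finset

namespace SqCyc

section AB

variable {α K : Type} [DecidableEq α] [Fintype K] [DecidableEq K]

/-- one of many disjoint sets avoids a small set -/
private theorem ab4_avoid (n : ℕ) (D : ℕ → Finset α) (U : Finset α) (hU : U.card < n)
    (hD : ∀ t < n, ∀ t' < n, t ≠ t' → Disjoint (D t) (D t')) :
    ∃ t < n, Disjoint (D t) U := by
  by_contra hcon
  push Not at hcon
  have h1 : ∀ t, ∃ u, t < n → u ∈ D t ∧ u ∈ U := by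
    intro t
    by_cases ht : t < n
    · obtain ⟨u, hu1, hu2⟩ := not_disjoint_iff.1 (hcon t ht)
      exact ⟨u, fun _ => ⟨hu1, hu2⟩⟩
    · obtain ⟨u, -, -⟩ := not_disjoint_iff.1 (hcon 0 (by omega))
      exact ⟨u, fun h => absurd h ht⟩
  choose u hu using h1
  have h2 : (range n).card ≤ U.card := by
    apply card_le_card_of_injOn u
    · intro t ht
      exact (hu t (mem_range.1 (mem_coe.1 ht))).2
    · intro t ht t' ht' he
      by_contra hne
      have h3 := hD t (mem_range.1 (mem_coe.1 ht)) t' (mem_range.1 (mem_coe.1 ht')) hne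
      rw [disjoint_left] at h3
      apply h3 (hu t (mem_range.1 (mem_coe.1 ht))).1
      have he' : u t = u t' := he
      rw [he']
      exact (hu t' (mem_range.1 (mem_coe.1 ht'))).1
  rw [card_range] at h2
  omega

private theorem ab4_aux {Fill : ℕ → Finset α → Prop} (r : ℕ) (Z : Finset α)
    (x : ℕ → Option α) (n : ℕ) (T : Finset ℕ) (hn : T.card * r < n)
    (hfam : ∀ s ∈ T, ∃ D : ℕ → Finset α, (∀ t < n, D t ⊆ Z ∧ (D t).card ≤ r ∧
        Fill s ((x s).toFinset ∪ D t)) ∧
      (∀ t < n, ∀ t' < n, t ≠ t' → Disjoint (D t) (D t'))) :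
    ∃ E : ℕ → Finset α, (∀ s ∈ T, E s ⊆ Z ∧ (E s).card ≤ r ∧
      Fill s ((x s).toFinset ∪ E s)) ∧ ∀ s ∈ T, ∀ t ∈ T, s ≠ t → Disjoint (E s) (E t) := by
  induction T using Finset.induction_on with
  | empty => exact ⟨fun _ => ∅, by simp, by simp⟩
  | insert s T hs ih =>
    rw [card_insert_of_notMem hs, Nat.add_mul, one_mul] at hn
    obtain ⟨E, hE, hEd⟩ := ih (by omega) (fun t ht => hfam t (mem_insert_of_mem ht))
    obtain ⟨D, hD, hDd⟩ := hfam s (mem_insert_self s T)
    have hU : (T.biUnion E).card < n := by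
      calc (T.biUnion E).card ≤ ∑ t ∈ T, (E t).card := card_biUnion_le
        _ ≤ ∑ _t ∈ T, r := sum_le_sum fun t ht => (hE t ht).2.1
        _ = T.card * r := by rw [sum_const, smul_eq_mul]
        _ < n := by omega
    obtain ⟨t₀, ht₀, hdis⟩ := ab4_avoid n D _ hU hDd
    have hne : ∀ t ∈ T, t ≠ s := fun t ht h => hs (h ▸ ht)
    refine ⟨Function.update E s (D t₀), ?_, ?_⟩
    · intro t ht
      rcases mem_insert.1 ht with rfl | ht
      · rw [Function.update_self]
        exact hD t₀ ht₀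
      · rw [Function.update_of_ne (hne t ht)]
        exact hE t ht
    · have hdis' : ∀ t ∈ T, Disjoint (D t₀) (E t) := fun t ht =>
        disjoint_of_subset_right (subset_biUnion_of_mem E ht) hdis
      intro a ha b hb hab
      rcases mem_insert.1 ha with ha' | ha' <;> rcases mem_insert.1 hb with hb' | hb'
      · exact absurd (ha'.trans hb'.symm) hab
      · rw [ha', Function.update_self, Function.update_of_ne (hne b hb')]
        exact hdis' b hb'
      · rw [hb', Function.update_self, Function.update_of_ne (hne a ha')]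
        exact (hdis' a ha').symm
      · rw [Function.update_of_ne (hne a ha'), Function.update_of_ne (hne b hb')]
        exact hEd a ha' b hb' hab

/-- AB-4: greedy completion inside the reservoir `Z`: the slots of `T` (with prescribed elements
`x s` outside `Z`, or none) are filled disjointly using otherwise only elements of `Z`. -/
theorem greedy_fill {Fill : ℕ → Finset α → Prop} (r : ℕ) (T : Finset ℕ) (Z : Finset α)
    (x : ℕ → Option α) (hxZ : ∀ s ∈ T, ∀ y, x s = some y → y ∉ Z)
    (hxinj : ∀ s ∈ T, ∀ t ∈ T, s ≠ t → ∀ y, x s = some y → x t ≠ some y)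
    (n : ℕ) (hn : T.card * r < n)
    (hfam : ∀ s ∈ T, ∃ D : ℕ → Finset α, (∀ t < n, D t ⊆ Z ∧ (D t).card ≤ r ∧
        Fill s ((x s).toFinset ∪ D t)) ∧
      (∀ t < n, ∀ t' < n, t ≠ t' → Disjoint (D t) (D t'))) :
    ∃ Z' ⊆ Z, CovT Fill T (Z' ∪ T.biUnion (fun s => (x s).toFinset)) := by
  obtain ⟨E, hE, hEd⟩ := ab4_aux r Z x n T hn hfam
  refine ⟨T.biUnion E, biUnion_subset.2 fun s hs => (hE s hs).1,
    fun s => (x s).toFinset ∪ E s, fun s hs => (hE s hs).2.2, ?_, ?_⟩
  · intro s hs t ht hst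
    have hmem : ∀ u y, y ∈ (x u).toFinset ↔ x u = some y := fun u y => by
      rw [Option.mem_toFinset, Option.mem_def]
    rw [disjoint_union_left, disjoint_union_right, disjoint_union_right]
    refine ⟨⟨?_, ?_⟩, ?_, hEd s hs t ht hst⟩
    · rw [disjoint_left]
      intro y hy hy'
      exact hxinj s hs t ht hst y ((hmem s y).1 hy) ((hmem t y).1 hy')
    · rw [disjoint_left]
      intro y hy hy'
      exact hxZ s hs y ((hmem s y).1 hy) ((hE t ht).1 hy')
    · rw [disjoint_left]
      intro y hy hy'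
      exact hxZ t ht y ((hmem t y).1 hy') ((hE s hs).1 hy)
  · ext y
    simp only [mem_biUnion, mem_union]
    constructor
    · rintro ⟨s, hs, h | h⟩
      · exact Or.inr ⟨s, hs, h⟩
      · exact Or.inl ⟨s, hs, h⟩
    · rintro (⟨s, hs, h⟩ | ⟨s, hs, h⟩)
      · exact ⟨s, hs, Or.inr h⟩
      · exact ⟨s, hs, Or.inl h⟩

end AB

end SqCyc
end

section

/-! # RS-2 reservoir lemma -/

open Finset

namespace SqCyc

/-- double counting: the number of functions with prescribed value at one point -/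
theorem res2_card_eval {Y : Type*} [Fintype Y] [DecidableEq Y] (Q : ℕ) (hQ : 1 ≤ Q) (y : Y) :
    (univ.filter (fun g : Y → Fin Q => (g y).val = 0)).card * Q = Fintype.card (Y → Fin Q) := by
  have hz : (0 : ℕ) < Q := hQ
  let e : (univ.filter (fun g : Y → Fin Q => (g y).val = 0)) × Fin Q ≃ (Y → Fin Q) :=
    { toFun := fun p => Function.update p.1.1 y p.2
      invFun := fun g => (⟨Function.update g y ⟨0, hz⟩, by simp⟩, g y)
      left_inv := by
        rintro ⟨⟨g, hg⟩, q⟩
        rw [mem_filter] at hg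
        have : g y = ⟨0, hz⟩ := Fin.ext hg.2
        simp [Function.update_idem, ← this]
      right_inv := by
        intro g
        simp [Function.update_idem] }
  have h := Fintype.card_congr e
  rw [Fintype.card_prod, Fintype.card_fin, Fintype.card_coe] at h
  exact h

/-- expected number of points of a set in the reservoir -/
theorem res2_sum {Y : Type*} [Fintype Y] [DecidableEq Y] (Q : ℕ) (hQ : 1 ≤ Q) (S : Finset Y) :
    (∑ g : Y → Fin Q, (S.filter (fun y => (g y).val = 0)).card) * Q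
      = S.card * Fintype.card (Y → Fin Q) := by
  classical
  have h1 : ∀ g : Y → Fin Q, (S.filter (fun y => (g y).val = 0)).card
      = ∑ y ∈ S, if (g y).val = 0 then 1 else 0 := by
    intro g
    rw [card_filter]
  rw [Finset.sum_congr rfl (fun g _ => h1 g), Finset.sum_comm, Finset.sum_mul]
  rw [Finset.sum_congr rfl (g := fun _ => Fintype.card (Y → Fin Q))]
  · rw [Finset.sum_const, smul_eq_mul]
  · intro y _
    rw [← res2_card_eval Q hQ y, card_filter]

/-- Markov bound -/
theorem res2_markov {Y : Type*} [Fintype Y] [DecidableEq Y] (Q : ℕ) (hQ : 1 ≤ Q) (S : Finset Y)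
    (k L : ℕ) (hS : S.card ≤ L) :
    (univ.filter (fun g : Y → Fin Q =>
      2 * (k + 1) * L < (S.filter (fun y => (g y).val = 0)).card * Q)).card * (2 * (k + 1))
      ≤ Fintype.card (Y → Fin Q) := by
  classical
  set B := univ.filter (fun g : Y → Fin Q =>
      2 * (k + 1) * L < (S.filter (fun y => (g y).val = 0)).card * Q) with hB
  have h1 : B.card * (2 * (k + 1) * L + 1) ≤ L * Fintype.card (Y → Fin Q) := by
    calc B.card * (2 * (k + 1) * L + 1) = ∑ g ∈ B, (2 * (k + 1) * L + 1) := by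
          rw [Finset.sum_const, smul_eq_mul]
      _ ≤ ∑ g ∈ B, (S.filter (fun y => (g y).val = 0)).card * Q := by
          refine Finset.sum_le_sum fun g hg => ?_
          rw [hB, mem_filter] at hg
          exact hg.2
      _ ≤ ∑ g : Y → Fin Q, (S.filter (fun y => (g y).val = 0)).card * Q :=
          Finset.sum_le_sum_of_subset (subset_univ _)
      _ = S.card * Fintype.card (Y → Fin Q) := by
          rw [← Finset.sum_mul, res2_sum Q hQ S]
      _ ≤ L * Fintype.card (Y → Fin Q) := Nat.mul_le_mul_right _ hS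
  rcases Nat.eq_zero_or_pos L with hL | hL
  · subst hL
    simp only [mul_zero, zero_add, mul_one, zero_mul, Nat.le_zero] at h1
    rw [h1, zero_mul]
    exact Nat.zero_le _
  · have h2 : (B.card * (2 * (k + 1))) * L ≤ Fintype.card (Y → Fin Q) * L := by
      calc (B.card * (2 * (k + 1))) * L ≤ B.card * (2 * (k + 1) * L + 1) := by
            have e : (B.card * (2 * (k + 1))) * L = B.card * (2 * (k + 1) * L) := by ring
            rw [e]
            exact Nat.mul_le_mul_left _ (Nat.le_succ _)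
        _ ≤ L * Fintype.card (Y → Fin Q) := h1
        _ = Fintype.card (Y → Fin Q) * L := mul_comm _ _
    exact Nat.le_of_mul_le_mul_right h2 hL

/-- the threshold -/
theorem res2_threshold (c : ℝ) (hc : 0 < c) :
    ∃ m₀ : ℕ, ∀ m : ℕ, m₀ ≤ m → (m : ℝ) ^ 3 * Real.exp (-(c * m)) ≤ 1 / 2 := by
  have h := tendsto_rpow_mul_exp_neg_mul_atTop_nhds_zero 3 c hc
  have h2 := h.comp tendsto_natCast_atTop_atTop
  have h3 := (h2.eventually (gt_mem_nhds (show (0 : ℝ) < 1 / 2 by norm_num)))
  rw [Filter.eventually_atTop] at h3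
  obtain ⟨m₀, hm⟩ := h3
  refine ⟨m₀, fun m hmm => ?_⟩
  have := hm m hmm
  simp only [Function.comp_apply] at this
  have e : ((m : ℝ) ^ (3 : ℝ)) = (m : ℝ) ^ 3 := by
    rw [← Real.rpow_natCast]; norm_num
  rw [e, neg_mul] at this
  exact this.le

/-- RS-2: reservoir lemma. -/
theorem reservoir (K : Type) [Fintype K] [DecidableEq K] (r H : ℕ) (Q : ℕ) (hQ : 1 ≤ Q)
    (δ : ℝ) (hδ : 0 < δ) : ∃ m₀ : ℕ, ∀ (α : Type) [DecidableEq α] (X : Finset α) (cls : α → K)
      (m n : ℕ) (J : Type) [Fintype J] (D : J → ℕ → Finset α), m₀ ≤ m → δ * m ≤ n →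
      (∀ c, (X.filter (fun x => cls x = c)).card ≤ H * m) →
      Fintype.card J ≤ m ^ 3 →
      (∀ j, ∀ t < n, D j t ⊆ X ∧ (D j t).card ≤ r) →
      (∀ j, ∀ s < n, ∀ t < n, s ≠ t → Disjoint (D j s) (D j t)) →
      ∃ Z ⊆ X,
        (∀ c, (Z.filter (fun x => cls x = c)).card * Q ≤ 2 * (Fintype.card K + 1) * H * m) ∧
        (∀ j, (n : ℝ) / (4 * (Q : ℝ) ^ r) ≤
          (((range n).filter (fun t => D j t ⊆ Z)).card : ℝ)) := by
  classical
  have hQ0 : (0 : ℝ) < (Q : ℝ) ^ r := by
    have : (0 : ℝ) < Q := by exact_mod_cast hQ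
    positivity
  obtain ⟨m₀, hm₀⟩ := res2_threshold (δ / (4 * (Q : ℝ) ^ r)) (by positivity)
  refine ⟨m₀, ?_⟩
  intro α _ X cls m n J _ D hm hn hcls hJ hD hdisj
  let Y : Type := {x // x ∈ X}
  let N : ℕ := Fintype.card (Y → Fin Q)
  have hNpos : 0 < N := by
    have : Nonempty (Y → Fin Q) := ⟨fun _ => ⟨0, hQ⟩⟩
    exact Fintype.card_pos
  let k : ℕ := Fintype.card K
  -- first bad events
  let S : K → Finset Y := fun c => univ.filter (fun y : Y => cls y.1 = c)
  have hS : ∀ c, (S c).card ≤ H * m := by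
    intro c
    refine le_trans ?_ (hcls c)
    refine Finset.card_le_card_of_injOn (fun y => y.1) ?_ ?_
    · intro y hy
      simp only [S, coe_filter, mem_univ, true_and, Set.mem_ofPred_eq] at hy
      simp only [coe_filter, Set.mem_ofPred_eq]
      exact ⟨y.2, hy⟩
    · intro y _ z _ h
      exact Subtype.ext h
  let B1 : K → Finset (Y → Fin Q) := fun c => univ.filter (fun g : Y → Fin Q =>
      2 * (k + 1) * (H * m) < ((S c).filter (fun y => (g y).val = 0)).card * Q)
  have hB1 : ∀ c, (B1 c).card * (2 * (k + 1)) ≤ N := fun c =>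
    res2_markov Q hQ (S c) k (H * m) (hS c)
  -- second bad events
  let D' : J → Fin n → Finset Y := fun j t => univ.filter (fun y : Y => y.1 ∈ D j t.1)
  have hD'card : ∀ j t, (D' j t).card ≤ r := by
    intro j t
    refine le_trans ?_ (hD j t.1 t.2).2
    refine Finset.card_le_card_of_injOn (fun y => y.1) ?_ ?_
    · intro y hy
      simp only [D', coe_filter, mem_univ, true_and, Set.mem_ofPred_eq] at hy
      exact hy
    · intro y _ z _ h
      exact Subtype.ext h
  have hD'disj : ∀ j s t, s ≠ t → Disjoint (D' j s) (D' j t) := by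
    intro j s t hst
    rw [Finset.disjoint_left]
    intro y hy hy'
    simp only [D', mem_filter, mem_univ, true_and] at hy hy'
    have := hdisj j s.1 s.2 t.1 t.2 (fun h => hst (Fin.ext h))
    exact (Finset.disjoint_left.1 this) hy hy'
  let B2 : J → Finset (Y → Fin Q) := fun j => univ.filter (fun g : Y → Fin Q =>
        ((univ.filter (fun t : Fin n => ∀ x ∈ D' j t, (g x).val = 0)).card : ℝ)
          ≤ (n : ℝ) / (4 * (Q : ℝ) ^ r))
  have hB2 : ∀ j, ((B2 j).card : ℝ) ≤ Real.exp (-(δ / (4 * (Q : ℝ) ^ r) * m)) * N := by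
    intro j
    refine le_trans (reservoir_tail Q hQ r n (D' j) (hD'card j) (hD'disj j) _) ?_
    refine mul_le_mul_of_nonneg_right ?_ (Nat.cast_nonneg _)
    apply Real.exp_le_exp.2
    have e1 : (n : ℝ) / (4 * (Q : ℝ) ^ r) - n / (2 * (Q : ℝ) ^ r) = -(n / (4 * (Q : ℝ) ^ r)) := by
      field_simp; ring
    rw [e1, neg_le_neg_iff, div_mul_eq_mul_div]
    exact div_le_div_of_nonneg_right hn (by positivity)
  -- union bound
  let B : Finset (Y → Fin Q) := (univ.biUnion B1) ∪ (univ.biUnion B2)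
  have hBcard : (B.card : ℝ) < N := by
    have hb1 : ((univ.biUnion B1).card : ℝ) < N / 2 := by
      have h1 : ((univ.biUnion B1).card : ℝ) ≤ ∑ c : K, ((B1 c).card : ℝ) := by
        exact_mod_cast Finset.card_biUnion_le
      have h2 : ∀ c : K, ((B1 c).card : ℝ) ≤ N / (2 * (k + 1)) := by
        intro c
        rw [le_div_iff₀ (by positivity)]
        exact_mod_cast hB1 c
      have h3 : ∑ c : K, ((B1 c).card : ℝ) ≤ k * (N / (2 * (k + 1))) := by
        refine le_trans (Finset.sum_le_sum (fun c _ => h2 c)) ?_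
        rw [Finset.sum_const, nsmul_eq_mul, Finset.card_univ]
      have hN' : (0 : ℝ) < N := by exact_mod_cast hNpos
      have h4 : (k : ℝ) * (N / (2 * (k + 1))) < N / 2 := by
        have hk : (0 : ℝ) < k + 1 := by positivity
        rw [← mul_div_assoc, div_lt_div_iff₀ (by positivity) (by norm_num)]
        nlinarith
      linarith
    have hb2 : ((univ.biUnion B2).card : ℝ) ≤ N / 2 := by
      have h1 : ((univ.biUnion B2).card : ℝ) ≤ ∑ j : J, ((B2 j).card : ℝ) := by
        exact_mod_cast Finset.card_biUnion_le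
      have h3 : ∑ j : J, ((B2 j).card : ℝ)
          ≤ Fintype.card J * (Real.exp (-(δ / (4 * (Q : ℝ) ^ r) * m)) * N) := by
        refine le_trans (Finset.sum_le_sum (fun j _ => hB2 j)) ?_
        rw [Finset.sum_const, nsmul_eq_mul, Finset.card_univ]
      have h4 : (Fintype.card J : ℝ) ≤ (m : ℝ) ^ 3 := by exact_mod_cast hJ
      have h5 : (Fintype.card J : ℝ) * (Real.exp (-(δ / (4 * (Q : ℝ) ^ r) * m)) * N)
          ≤ (m : ℝ) ^ 3 * (Real.exp (-(δ / (4 * (Q : ℝ) ^ r) * m)) * N) :=
        mul_le_mul_of_nonneg_right h4 (by positivity)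
      have h6 : (m : ℝ) ^ 3 * (Real.exp (-(δ / (4 * (Q : ℝ) ^ r) * m)) * N) ≤ 1 / 2 * N := by
        rw [← mul_assoc]
        exact mul_le_mul_of_nonneg_right (hm₀ m hm) (Nat.cast_nonneg _)
      linarith
    have hu : (B.card : ℝ) ≤ ((univ.biUnion B1).card : ℝ) + ((univ.biUnion B2).card : ℝ) := by
      exact_mod_cast Finset.card_union_le _ _
    linarith
  have hex : ∃ g : Y → Fin Q, g ∉ B := by
    by_contra hcon
    push Not at hcon
    have : B = univ := Finset.eq_univ_iff_forall.2 hcon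
    rw [this, Finset.card_univ] at hBcard
    exact lt_irrefl _ hBcard
  obtain ⟨g, hg⟩ := hex
  simp only [B, mem_union, mem_biUnion, mem_univ, true_and, not_or, not_exists] at hg
  obtain ⟨hg1, hg2⟩ := hg
  refine ⟨(univ.filter (fun y : Y => (g y).val = 0)).image (fun y => y.1), ?_, ?_, ?_⟩
  · intro x hx
    rw [mem_image] at hx
    obtain ⟨y, _, rfl⟩ := hx
    exact y.2
  · intro c
    have h1 := hg1 c
    simp only [B1, mem_filter, mem_univ, true_and, not_lt] at h1
    have h2 : (((univ.filter (fun y : Y => (g y).val = 0)).image (fun y => y.1)).filter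
        (fun x => cls x = c)).card ≤ ((S c).filter (fun y => (g y).val = 0)).card := by
      have : ((univ.filter (fun y : Y => (g y).val = 0)).image (fun y => y.1)).filter
        (fun x => cls x = c) ⊆ ((S c).filter (fun y => (g y).val = 0)).image (fun y => y.1) := by
        intro x hx
        rw [mem_filter, mem_image] at hx
        obtain ⟨⟨y, hy, rfl⟩, hc⟩ := hx
        rw [mem_filter] at hy
        rw [mem_image]
        refine ⟨y, ?_, rfl⟩
        simp only [S, mem_filter, mem_univ, true_and]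
        exact ⟨hc, hy.2⟩
      exact le_trans (card_le_card this) card_image_le
    calc _ ≤ ((S c).filter (fun y => (g y).val = 0)).card * Q := Nat.mul_le_mul_right _ h2
      _ ≤ 2 * (k + 1) * (H * m) := h1
      _ = 2 * (Fintype.card K + 1) * H * m := by ring
  · intro j
    have h1 := hg2 j
    simp only [B2, mem_filter, mem_univ, true_and, not_le] at h1
    refine le_trans h1.le ?_
    have h2 : (univ.filter (fun t : Fin n => ∀ x ∈ D' j t, (g x).val = 0)).card
        ≤ ((range n).filter (fun t => D j t ⊆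
          (univ.filter (fun y : Y => (g y).val = 0)).image (fun y => y.1))).card := by
      refine Finset.card_le_card_of_injOn (fun t => t.1) ?_ ?_
      · intro t ht
        simp only [coe_filter, mem_univ, true_and, Set.mem_ofPred_eq] at ht
        simp only [coe_filter, mem_range, Set.mem_ofPred_eq]
        refine ⟨t.2, ?_⟩
        intro x hx
        have hxX : x ∈ X := (hD j t.1 t.2).1 hx
        rw [mem_image]
        refine ⟨⟨x, hxX⟩, ?_, rfl⟩
        rw [mem_filter]
        refine ⟨mem_univ _, ht ⟨x, hxX⟩ ?_⟩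
        simp only [D', mem_filter, mem_univ, true_and]
        exact hx
      · intro s _ t _ h
        exact Fin.ext h
    exact_mod_cast h2

end SqCyc
end

section

/-! # AB-3 building all nodes greedily -/

open Finset

namespace SqCyc

section AB

variable {α K : Type} [DecidableEq α] [Fintype K] [DecidableEq K]

private theorem build_nodes_card {h : K → ℕ} {T₀ : ℕ} {δ : ℝ} {m : ℕ} {X : Finset α}
    {cls : α → K} {Fill : ℕ → Finset α → Prop} (H : AbsSys h T₀ δ m X cls Fill)
    {T : Finset ℕ} (hT : T ⊆ range m) (hT0 : T.card ≤ T₀) {A : Finset α} (hA : CovT Fill T A) :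
    A.card ≤ T₀ * ∑ c, h c := by
  have h1 : A.card = ∑ c, (A.filter (fun x => cls x = c)).card :=
    Finset.card_eq_sum_card_fiberwise (f := cls) (t := Finset.univ) fun x _ => by simp
  rw [h1, Finset.sum_congr rfl fun c _ => (CovT.card_cls H hT hA c).1, ← Finset.sum_mul,
    mul_comm]
  exact Nat.mul_le_mul_right _ hT0

/-- AB-3: building all nodes greedily. -/
theorem build_nodes {h : K → ℕ} {T₀ : ℕ} {δ : ℝ} {m : ℕ} {X : Finset α} {cls : α → K}
    {Fill : ℕ → Finset α → Prop} (H : AbsSys h T₀ δ m X cls Fill) (J : ℕ)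
    (ys : ℕ → Finset α) (c : ℕ → K) (F : Finset α)
    (hys : ∀ j < J, ys j ⊆ F ∧ ys j ⊆ X ∧ (∀ y ∈ ys j, cls y = c j) ∧ (ys j).card ≤ 40 ∧
      (ys j).Nonempty)
    (hF : (F.card : ℝ) + J * T₀ * ∑ c, (h c : ℝ) ≤ δ * m) (hJ : (J + 1) * T₀ ≤ m) :
    ∃ (T : ℕ → Finset ℕ) (B : ℕ → Finset α),
      (∀ j < J, T j ⊆ range m ∧ (T j).card ≤ T₀ ∧ B j ⊆ X ∧ Disjoint (B j) F ∧
        ∀ y ∈ ys j, CovT Fill (T j) (insert y (B j))) ∧
      (∀ i < J, ∀ j < J, i ≠ j → Disjoint (T i) (T j) ∧ Disjoint (B i) (B j)) := by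
  suffices hmain : ∀ J' ≤ J, ∃ (T : ℕ → Finset ℕ) (B : ℕ → Finset α),
      (∀ j < J', T j ⊆ range m ∧ (T j).card ≤ T₀ ∧ B j ⊆ X ∧ Disjoint (B j) F ∧
        ∀ y ∈ ys j, CovT Fill (T j) (insert y (B j))) ∧
      (∀ i < J', ∀ j < J', i ≠ j → Disjoint (T i) (T j) ∧ Disjoint (B i) (B j)) from
    hmain J le_rfl
  intro J'
  induction J' with
  | zero =>
    intro _
    exact ⟨fun _ => ∅, fun _ => ∅, fun j hj => absurd hj (Nat.not_lt_zero j),
      fun i hi => absurd hi (Nat.not_lt_zero i)⟩
  | succ J' ih =>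
    intro hJ'
    obtain ⟨T, B, h1, h2⟩ := ih (by omega)
    -- the sets built so far are small
    have hB : ∀ j ∈ range J', (B j).card ≤ T₀ * ∑ c, h c := by
      intro j hj
      rw [Finset.mem_range] at hj
      obtain ⟨hT1, hT2, -, -, hcov⟩ := h1 j hj
      obtain ⟨y, hy⟩ := (hys j (by omega)).2.2.2.2
      exact (Finset.card_le_card (Finset.subset_insert y (B j))).trans
        (build_nodes_card H hT1 hT2 (hcov y hy))
    set F' := F ∪ (range J').biUnion B with hF'
    set avail := range m \ (range J').biUnion T with havail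
    have hF'card : (F'.card : ℝ) ≤ δ * m := by
      have h3 : F'.card ≤ F.card + J * (T₀ * ∑ c, h c) := by
        calc F'.card ≤ F.card + ((range J').biUnion B).card := Finset.card_union_le _ _
          _ ≤ F.card + (range J').card * (T₀ * ∑ c, h c) := by
            gcongr
            exact Finset.card_biUnion_le_card_mul _ _ _ hB
          _ ≤ F.card + J * (T₀ * ∑ c, h c) := by
            rw [Finset.card_range]
            gcongr
            omega
      refine le_trans ?_ hF
      have h4 : (F'.card : ℝ) ≤ ((F.card + J * (T₀ * ∑ c, h c) : ℕ) : ℝ) := by exact_mod_cast h3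
      refine h4.trans (le_of_eq ?_)
      push_cast
      ring
    have hav : T₀ ≤ avail.card := by
      have h3 : ((range J').biUnion T).card ≤ J' * T₀ := by
        calc ((range J').biUnion T).card ≤ (range J').card * T₀ :=
              Finset.card_biUnion_le_card_mul _ _ _ fun j hj =>
                (h1 j (Finset.mem_range.mp hj)).2.1
          _ = J' * T₀ := by rw [Finset.card_range]
      have h4 : (range m).card - ((range J').biUnion T).card ≤ avail.card :=
        Finset.le_card_sdiff _ _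
      rw [Finset.card_range] at h4
      have h5 : (J' + 1) * T₀ ≤ (J + 1) * T₀ := Nat.mul_le_mul_right _ (by omega)
      have h6 : (J' + 1) * T₀ = J' * T₀ + T₀ := by ring
      omega
    obtain ⟨hy1, hy2, hy3, hy4, hy5⟩ := hys J' (by omega)
    obtain ⟨T', hT'1, hT'2, B', hB'1, hB'2⟩ := H.node (c J') (ys J') hy2 hy3 hy4 F' hF'card
      avail Finset.sdiff_subset hav
    have hT'r : T' ⊆ range m := hT'1.trans Finset.sdiff_subset
    have hB'X : B' ⊆ X := by
      obtain ⟨y, hy⟩ := hy5
      exact (Finset.subset_insert y B').trans (CovT.card_cls H hT'r (hB'2 y hy) (c J')).2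
    have hB'F' : Disjoint B' F' := hB'1.mono_right Finset.subset_union_left
    have hB'F : Disjoint B' F := hB'F'.mono_right Finset.subset_union_left
    have hB'B : ∀ j < J', Disjoint B' (B j) := fun j hj =>
      hB'F'.mono_right ((Finset.subset_biUnion_of_mem B (Finset.mem_range.mpr hj)).trans
        Finset.subset_union_right)
    have hT'T : ∀ j < J', Disjoint T' (T j) := by
      intro j hj
      have h3 : Disjoint T' ((range J').biUnion T) :=
        (Finset.disjoint_sdiff.symm : Disjoint (range m \ (range J').biUnion T) _).mono_left hT'1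
      exact h3.mono_right (Finset.subset_biUnion_of_mem T (Finset.mem_range.mpr hj))
    refine ⟨fun j => if j = J' then T' else T j, fun j => if j = J' then B' else B j, ?_, ?_⟩
    · intro j hj
      by_cases hjJ : j = J'
      · subst hjJ
        simp only [if_true]
        exact ⟨hT'r, hT'2, hB'X, hB'F, hB'2⟩
      · simp only [if_neg hjJ]
        exact h1 j (by omega)
    · intro i hi j hj hij
      by_cases hiJ : i = J'
      · have hjJ : j ≠ J' := fun hh => hij (hiJ.trans hh.symm)
        simp only [if_pos hiJ, if_neg hjJ]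
        exact ⟨hT'T j (by omega), hB'B j (by omega)⟩
      · by_cases hjJ : j = J'
        · simp only [if_pos hjJ, if_neg hiJ]
          exact ⟨(hT'T i (by omega)).symm, (hB'B i (by omega)).symm⟩
        · simp only [if_neg hjJ, if_neg hiJ]
          exact h2 i (by omega) j (by omega) hij

end AB

end SqCyc
end

section

/-! # TP-4 the template graph -/

open Finset

namespace SqCyc

/-- TP-5: robustly matchable bipartite graph with bounded degree (Montgomery). `Y` and `Z` have
`2μ` elements each, every node has at most 40 neighbours, and for every `Z' ⊆ Z` with `μ` elements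
the `3μ` nodes can be matched perfectly to `Y ∪ Z'`. -/
theorem template (μ : ℕ) (hμ : 20 ≤ μ) :
    ∃ nb : Fin (3 * μ) → Finset (Fin (2 * μ) ⊕ Fin (2 * μ)),
      (∀ x, (nb x).card ≤ 40) ∧
      ∀ Z' : Finset (Fin (2 * μ)), Z'.card = μ →
        ∃ f : Fin (3 * μ) → Fin (2 * μ) ⊕ Fin (2 * μ), Function.Injective f ∧
          (∀ x, f x ∈ nb x) ∧ (∀ x z, f x = Sum.inr z → z ∈ Z') := by
  classical
  obtain ⟨α, hα⟩ := template_alpha μ hμ
  obtain ⟨β, hβ⟩ := template_beta μ hμ
  let e : Fin (4 * μ) ≃ Fin (2 * μ) ⊕ Fin (2 * μ) :=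
    (finSumFinEquiv.trans (finCongr (show 2 * μ + 2 * μ = 4 * μ by omega))).symm
  let nb : Fin (3 * μ) → Finset (Fin (2 * μ) ⊕ Fin (2 * μ)) := fun x =>
    (univ.image (fun i => Sum.inl (α i x))) ∪
      univ.filter (fun y : Fin (2 * μ) ⊕ Fin (2 * μ) => ∃ i, (β i (e.symm y)).1 = x)
  refine ⟨nb, fun x => ?_, fun Z' hZ' => ?_⟩
  · have h1 : (univ.image (fun i => (Sum.inl (α i x) : Fin (2 * μ) ⊕ Fin (2 * μ)))).card ≤ 20 :=
      card_image_le.trans (by simp)
    have h2 : (univ.filter (fun y : Fin (2 * μ) ⊕ Fin (2 * μ) =>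
        ∃ i, (β i (e.symm y)).1 = x)).card ≤ 20 := by
      have h3 : univ.filter (fun y : Fin (2 * μ) ⊕ Fin (2 * μ) => ∃ i, (β i (e.symm y)).1 = x) ⊆
          univ.biUnion (fun i : Fin 10 =>
            univ.filter (fun y : Fin (2 * μ) ⊕ Fin (2 * μ) => (β i (e.symm y)).1 = x)) := by
        intro y hy
        obtain ⟨i, hi⟩ := (mem_filter.1 hy).2
        exact mem_biUnion.2 ⟨i, mem_univ _, mem_filter.2 ⟨mem_univ _, hi⟩⟩
      have h4 : ∀ i ∈ (univ : Finset (Fin 10)),
          (univ.filter (fun y : Fin (2 * μ) ⊕ Fin (2 * μ) => (β i (e.symm y)).1 = x)).card ≤ 2 := by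
        intro i _
        have h5 : (univ.filter (fun y : Fin (2 * μ) ⊕ Fin (2 * μ) =>
            (β i (e.symm y)).1 = x)).card ≤ (univ : Finset (Fin 2)).card := by
          apply card_le_card_of_injOn (fun y => (β i (e.symm y)).2) (fun _ _ => mem_coe.2 (mem_univ _))
          intro y hy y' hy' h
          have a1 := (mem_filter.1 (mem_coe.1 hy)).2
          have a2 := (mem_filter.1 (mem_coe.1 hy')).2
          have a3 : β i (e.symm y) = β i (e.symm y') := Prod.ext (a1.trans a2.symm) h
          exact e.symm.injective ((β i).injective a3)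
        simpa using h5
      calc _ ≤ _ := card_le_card h3
        _ ≤ _ := card_biUnion_le_card_mul _ _ 2 h4
        _ = 20 := by simp
    calc (nb x).card ≤ _ := card_union_le _ _
      _ ≤ 20 + 20 := add_le_add h1 h2
      _ = 40 := rfl
  · set E : Finset (Fin (2 * μ) ⊕ Fin (2 * μ)) := univ.disjSum Z' with hE
    have hEc : E.card = 3 * μ := by
      rw [hE, card_disjSum, card_univ, Fintype.card_fin, hZ']; omega
    set t : Fin (3 * μ) → Finset (Fin (2 * μ) ⊕ Fin (2 * μ)) := fun x => nb x ∩ E with ht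
    have hall : ∀ A : Finset (Fin (3 * μ)), A.card ≤ (A.biUnion t).card := by
      intro A
      by_cases hA : 2 * A.card ≤ 3 * μ
      · refine (hα A hA).trans ?_
        apply card_le_card_of_injOn (fun w => (Sum.inl w : Fin (2 * μ) ⊕ Fin (2 * μ)))
        · intro w hw
          obtain ⟨i, _, hi⟩ := mem_biUnion.1 (mem_coe.1 hw)
          obtain ⟨x, hx, hxw⟩ := mem_image.1 hi
          refine mem_coe.2 (mem_biUnion.2 ⟨x, hx, ?_⟩)
          rw [ht]
          refine mem_inter.2 ⟨mem_union_left _ (mem_image.2 ⟨i, mem_univ _, ?_⟩), ?_⟩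
          · rw [hxw]
          · rw [hE]
            exact inl_mem_disjSum.2 (mem_univ _)
        · intro a _ b _ h
          exact Sum.inl_injective h
      · push Not at hA
        by_contra hlt
        push Not at hlt
        have hA3 : A.card ≤ 3 * μ := by
          have := card_le_univ A
          simpa using this
        set B := E \ A.biUnion t with hB
        have hBc : 3 * μ - A.card + 1 ≤ B.card := by
          have : E.card - (A.biUnion t).card ≤ B.card := le_card_sdiff (A.biUnion t) E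
          rw [hEc] at this
          omega
        obtain ⟨B0, hB0, hB0c⟩ := exists_subset_card_eq hBc
        have h1 : (B0.image e.symm).card = B0.card := card_image_of_injective _ e.symm.injective
        have h2 := hβ (B0.image e.symm) (by rw [h1, hB0c]; omega)
        rw [h1, hB0c] at h2
        set N := univ.biUnion (fun i => (B0.image e.symm).image (fun z => (β i z).1)) with hN
        have h3 : ¬ Disjoint N A := by
          intro hd
          have h4 := card_union_of_disjoint hd
          have h5 := card_le_univ (N ∪ A)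
          rw [Fintype.card_fin] at h5
          omega
        obtain ⟨x, hxN, hxA⟩ := not_disjoint_iff.1 h3
        obtain ⟨i, _, hi⟩ := mem_biUnion.1 hxN
        obtain ⟨z, hz, hzx⟩ := mem_image.1 hi
        obtain ⟨y, hy, hyz⟩ := mem_image.1 hz
        have hyB := mem_sdiff.1 (hB0 hy)
        apply hyB.2
        refine mem_biUnion.2 ⟨x, hxA, ?_⟩
        rw [ht]
        refine mem_inter.2 ⟨mem_union_right _ (mem_filter.2 ⟨mem_univ _, i, ?_⟩), hyB.1⟩
        rw [hyz]
        exact hzx
    obtain ⟨f, hf, hft⟩ := (all_card_le_biUnion_card_iff_exists_injective t).1 hall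
    refine ⟨f, hf, fun x => (mem_inter.1 (hft x)).1, fun x z hz => ?_⟩
    have := (mem_inter.1 (hft x)).2
    rw [hz, hE] at this
    exact inr_mem_disjSum.1 this

/-- TP-6: set version. -/
theorem template_set {α : Type} [DecidableEq α] (μ : ℕ) (hμ : 20 ≤ μ) (Y Z : Finset α)
    (hYZ : Disjoint Y Z) (hY : Y.card = 2 * μ) (hZ : Z.card ≤ 2 * μ) (hZ' : μ ≤ Z.card) :
    ∃ nb : Fin (3 * μ) → Finset α,
      (∀ x, nb x ⊆ Y ∪ Z) ∧ (∀ x, (nb x).card ≤ 40) ∧
      ∀ Z' ⊆ Z, Z'.card = μ →
        ∃ f : Fin (3 * μ) → α, Function.Injective f ∧ (∀ x, f x ∈ nb x) ∧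
          (univ.image f = Y ∪ Z') := by
  classical
  obtain ⟨nb, hnb, hmatch⟩ := template μ hμ
  let eY : Y ≃ Fin (2 * μ) := Y.equivFinOfCardEq hY
  let jZ : Z → Fin (2 * μ) := fun z => Fin.castLE hZ (Z.equivFin z)
  have hjZ : Function.Injective jZ := fun a b h =>
    Z.equivFin.injective (Fin.castLE_injective hZ h)
  let code : α → Fin (2 * μ) ⊕ Fin (2 * μ) := fun a =>
    if h : a ∈ Y then Sum.inl (eY ⟨a, h⟩) else
      if h : a ∈ Z then Sum.inr (jZ ⟨a, h⟩) else Sum.inl ⟨0, by omega⟩
  have hcY : ∀ a (h : a ∈ Y), code a = Sum.inl (eY ⟨a, h⟩) := fun a h => by simp [code, h]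
  have hcZ : ∀ a (h : a ∈ Z), code a = Sum.inr (jZ ⟨a, h⟩) := fun a h => by
    have : a ∉ Y := fun h' => disjoint_left.1 hYZ h' h
    simp [code, h, this]
  have hinj : Set.InjOn code (↑(Y ∪ Z) : Set α) := by
    intro a ha b hb h
    rcases mem_union.1 (mem_coe.1 ha) with ha | ha <;> rcases mem_union.1 (mem_coe.1 hb) with hb | hb
    · rw [hcY a ha, hcY b hb] at h
      have := eY.injective (Sum.inl_injective h)
      exact congrArg Subtype.val this
    · rw [hcY a ha, hcZ b hb] at h
      exact absurd h (by simp)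
    · rw [hcZ a ha, hcY b hb] at h
      exact absurd h (by simp)
    · rw [hcZ a ha, hcZ b hb] at h
      have := hjZ (Sum.inr_injective h)
      exact congrArg Subtype.val this
  refine ⟨fun x => (Y ∪ Z).filter (fun a => code a ∈ nb x), fun x => filter_subset _ _,
    fun x => ?_, fun Z' hZ'Z hZ'c => ?_⟩
  · refine le_trans ?_ (hnb x)
    apply card_le_card_of_injOn code
    · intro a ha
      exact mem_coe.2 (mem_filter.1 (mem_coe.1 ha)).2
    · intro a ha b hb h
      exact hinj (mem_coe.2 (mem_filter.1 (mem_coe.1 ha)).1)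
        (mem_coe.2 (mem_filter.1 (mem_coe.1 hb)).1) h
  · let Z'' : Finset (Fin (2 * μ)) := Z'.attach.image (fun z => jZ ⟨z.1, hZ'Z z.2⟩)
    have hZ''c : Z''.card = μ := by
      rw [card_image_of_injective, card_attach, hZ'c]
      intro a b h
      have h2 : a.1 = b.1 := by simpa using hjZ h
      exact Subtype.ext h2
    obtain ⟨f0, hf0, hf0n, hf0Z⟩ := hmatch Z'' hZ''c
    have hex : ∀ x, ∃ a ∈ Y ∪ Z', code a = f0 x := by
      intro x
      rcases hfx : f0 x with w | w
      · refine ⟨eY.symm w, mem_union_left _ (eY.symm w).2, ?_⟩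
        rw [hcY _ (eY.symm w).2]
        simp
      · obtain ⟨z, _, hz⟩ := mem_image.1 (hf0Z x w hfx)
        refine ⟨z.1, mem_union_right _ z.2, ?_⟩
        rw [hcZ _ (hZ'Z z.2), hz]
    choose f hf1 hf2 using hex
    have hfi : Function.Injective f := fun a b h => hf0 (by rw [← hf2 a, ← hf2 b, h])
    refine ⟨f, hfi, fun x => ?_, ?_⟩
    · refine mem_filter.2 ⟨?_, ?_⟩
      · exact union_subset_union_right hZ'Z (hf1 x)
      · rw [hf2]; exact hf0n x
    · apply eq_of_subset_of_card_le
      · intro a ha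
        obtain ⟨x, _, rfl⟩ := mem_image.1 ha
        exact hf1 x
      · rw [card_image_of_injective _ hfi, card_univ, Fintype.card_fin,
          card_union_of_disjoint (disjoint_of_subset_right hZ'Z hYZ), hY, hZ'c]
        omega

end SqCyc
end

section

/-! # AB-5 abstract absorption theorem -/

open Finset

namespace SqCyc

section AB5

variable {α K : Type} [DecidableEq α] [Fintype K] [DecidableEq K]

/-- the cardinality is the sum over the classes -/
theorem ab5_card_sum (cls : α → K) (A : Finset α) :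
    A.card = ∑ c, (A.filter (fun x => cls x = c)).card :=
  Finset.card_eq_sum_card_fiberwise (fun x _ => Finset.mem_univ (cls x))

theorem ab5_card_union (cls : α → K) {A B : Finset α} (h : Disjoint A B) (c : K) :
    ((A ∪ B).filter (fun x => cls x = c)).card =
      (A.filter (fun x => cls x = c)).card + (B.filter (fun x => cls x = c)).card := by
  rw [Finset.filter_union, Finset.card_union_of_disjoint]
  exact Finset.disjoint_filter_filter h

theorem ab5_card_sdiff (cls : α → K) {A B : Finset α} (h : B ⊆ A) (c : K) :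
    ((A \ B).filter (fun x => cls x = c)).card + (B.filter (fun x => cls x = c)).card =
      (A.filter (fun x => cls x = c)).card := by
  rw [← ab5_card_union cls Finset.sdiff_disjoint c, Finset.sdiff_union_of_subset h]

/-- choosing in each class -/
theorem ab5_choose (cls : α → K) {A B : Finset α} (h : A ⊆ B) (z : K → ℕ)
    (h1 : ∀ c, (A.filter (fun x => cls x = c)).card ≤ z c)
    (h2 : ∀ c, z c ≤ (B.filter (fun x => cls x = c)).card) :
    ∃ C, A ⊆ C ∧ C ⊆ B ∧ ∀ c, (C.filter (fun x => cls x = c)).card = z c := by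
  have h3 : ∀ c, ∃ C, A.filter (fun x => cls x = c) ⊆ C ∧ C ⊆ B.filter (fun x => cls x = c) ∧
      C.card = z c := by
    intro c
    obtain ⟨C, hC1, hC2, hC3⟩ := Finset.exists_subsuperset_card_eq
      (Finset.filter_subset_filter (fun x => cls x = c) h) (h1 c) (h2 c)
    exact ⟨C, hC1, hC2, hC3⟩
  choose C hC1 hC2 hC3 using h3
  have hf : ∀ c, (univ.biUnion C).filter (fun x => cls x = c) = C c := by
    intro c
    ext x
    simp only [Finset.mem_filter, Finset.mem_biUnion, Finset.mem_univ, true_and]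
    constructor
    · rintro ⟨⟨c', hc'⟩, hx⟩
      have := (Finset.mem_filter.1 (hC2 c' hc')).2
      rw [← hx, this]
      exact hc'
    · intro hx
      exact ⟨⟨c, hx⟩, (Finset.mem_filter.1 (hC2 c hx)).2⟩
  refine ⟨univ.biUnion C, ?_, ?_, ?_⟩
  · intro x hx
    rw [Finset.mem_biUnion]
    exact ⟨cls x, Finset.mem_univ _, hC1 _ (Finset.mem_filter.2 ⟨hx, rfl⟩)⟩
  · intro x hx
    rw [Finset.mem_biUnion] at hx
    obtain ⟨c, _, hc⟩ := hx
    exact (Finset.mem_filter.1 (hC2 c hc)).1
  · intro c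
    rw [hf, hC3]

/-- enumeration of a set of indices -/
theorem ab5_enum {S : Finset ℕ} {n' : ℕ} (h : n' ≤ S.card) :
    ∃ e : ℕ → ℕ, (∀ t < n', e t ∈ S) ∧ ∀ t < n', ∀ t' < n', t ≠ t' → e t ≠ e t' := by
  obtain ⟨S', hS', hc⟩ := Finset.exists_subset_card_eq h
  have e := (S'.equivFin).trans (finCongr hc)
  refine ⟨fun t => if ht : t < n' then (e.symm ⟨t, ht⟩ : ℕ) else 0, ?_, ?_⟩
  · intro t ht
    simp only [ht, dif_pos]
    exact hS' (e.symm ⟨t, ht⟩).2
  · intro t ht t' ht' hne h1
    simp only [ht, ht', dif_pos] at h1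
    have := e.symm.injective (Subtype.ext h1)
    simp at this
    exact hne this

/-- the nodes -/
theorem ab5_nodes [Nonempty K] {h : K → ℕ} {T₀ : ℕ} {δ : ℝ} {m : ℕ} {X : Finset α} {cls : α → K}
    {Fill : ℕ → Finset α → Prop} (H : AbsSys h T₀ δ m X cls Fill) {μ : ℕ} (hμ : 20 ≤ μ)
    {Y Z : Finset α} (hYX : Y ⊆ X) (hZX : Z ⊆ X) (hYZ : Disjoint Y Z)
    (hY : ∀ c, (Y.filter (fun x => cls x = c)).card = 2 * μ)
    (hZ1 : ∀ c, μ ≤ (Z.filter (fun x => cls x = c)).card)
    (hZ2 : ∀ c, (Z.filter (fun x => cls x = c)).card ≤ 2 * μ)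
    (h1 : ((4 * μ * Fintype.card K + 3 * μ * Fintype.card K * T₀ * ∑ c, h c : ℕ) : ℝ) ≤ δ * m)
    (h2 : (3 * μ * Fintype.card K + 1) * T₀ ≤ m) :
    ∃ (TN : Finset ℕ) (BN : Finset α), TN ⊆ range m ∧ BN ⊆ X ∧ Disjoint BN (Y ∪ Z) ∧
      TN.card ≤ 3 * μ * Fintype.card K * T₀ ∧
      (∀ c, (BN.filter (fun x => cls x = c)).card + 3 * μ = h c * TN.card) ∧
      ∀ Z'' ⊆ Z, (∀ c, (Z''.filter (fun x => cls x = c)).card = μ) →
        CovT Fill TN (BN ∪ Y ∪ Z'') := by
  classical
  have hnb : ∀ c, ∃ nb : Fin (3 * μ) → Finset α,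
      (∀ x, nb x ⊆ Y.filter (fun x => cls x = c) ∪ Z.filter (fun x => cls x = c)) ∧
      (∀ x, (nb x).card ≤ 40) ∧
      ∀ Z' ⊆ Z.filter (fun x => cls x = c), Z'.card = μ →
        ∃ f : Fin (3 * μ) → α, Function.Injective f ∧ (∀ x, f x ∈ nb x) ∧
          (univ.image f = Y.filter (fun x => cls x = c) ∪ Z') := fun c =>
    template_set μ hμ _ _ (Finset.disjoint_filter_filter hYZ) (hY c) (hZ2 c) (hZ1 c)
  choose nb hnb1 hnb2 hnb3 using hnb
  have hnbY : ∀ c x, ∀ y ∈ nb c x, y ∈ Y ∪ Z ∧ cls y = c := by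
    intro c x y hy
    have := hnb1 c x hy
    rw [Finset.mem_union, Finset.mem_filter, Finset.mem_filter] at this
    rcases this with h | h
    · exact ⟨Finset.mem_union_left _ h.1, h.2⟩
    · exact ⟨Finset.mem_union_right _ h.1, h.2⟩
  have hYZX : Y ∪ Z ⊆ X := Finset.union_subset hYX hZX
  have hnbne : ∀ c x, (nb c x).Nonempty := by
    intro c x
    obtain ⟨Z', hZ', hc⟩ := Finset.exists_subset_card_eq (hZ1 c)
    obtain ⟨f, _, hf, _⟩ := hnb3 c Z' hZ' hc
    exact ⟨f x, hf x⟩
  set J₀ := Fintype.card (K × Fin (3 * μ)) with hJ₀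
  have hJ₀' : J₀ = 3 * μ * Fintype.card K := by
    rw [hJ₀, Fintype.card_prod, Fintype.card_fin, mul_comm]
  let e := Fintype.equivFin (K × Fin (3 * μ))
  let ys : ℕ → Finset α := fun j => if hj : j < J₀ then nb (e.symm ⟨j, hj⟩).1 (e.symm ⟨j, hj⟩).2 else ∅
  let cc : ℕ → K := fun j => if hj : j < J₀ then (e.symm ⟨j, hj⟩).1 else Classical.arbitrary K
  have hysj : ∀ j (hj : j < J₀), ys j = nb (e.symm ⟨j, hj⟩).1 (e.symm ⟨j, hj⟩).2 := by
    intro j hj
    simp only [ys, hj, dif_pos]
  have hccj : ∀ j (hj : j < J₀), cc j = (e.symm ⟨j, hj⟩).1 := by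
    intro j hj
    simp only [cc, hj, dif_pos]
  have hYcard : Y.card = 2 * μ * Fintype.card K := by
    rw [ab5_card_sum cls Y, Finset.sum_congr rfl (fun c _ => hY c), Finset.sum_const,
      Finset.card_univ, smul_eq_mul, mul_comm]
  have hZcard : Z.card ≤ 2 * μ * Fintype.card K := by
    rw [ab5_card_sum cls Z]
    refine (Finset.sum_le_sum (fun c _ => hZ2 c)).trans ?_
    rw [Finset.sum_const, Finset.card_univ, smul_eq_mul, mul_comm]
  obtain ⟨T, B, hTB, hdis⟩ := build_nodes H J₀ ys cc (Y ∪ Z) (by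
      intro j hj
      rw [hysj j hj, hccj j hj]
      refine ⟨fun y hy => (hnbY _ _ y hy).1, fun y hy => hYZX (hnbY _ _ y hy).1,
        fun y hy => (hnbY _ _ y hy).2, hnb2 _ _, hnbne _ _⟩) (by
      have h3 : ((Y ∪ Z).card : ℝ) ≤ ((4 * μ * Fintype.card K : ℕ) : ℝ) := by
        have : (Y ∪ Z).card ≤ 4 * μ * Fintype.card K := by
          refine (Finset.card_union_le _ _).trans ?_
          rw [hYcard]
          calc 2 * μ * Fintype.card K + Z.card ≤ 2 * μ * Fintype.card K + 2 * μ * Fintype.card K := by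
                omega
            _ = _ := by ring
        exact_mod_cast this
      have h4 : (J₀ : ℝ) * T₀ * ∑ c, (h c : ℝ) =
          ((3 * μ * Fintype.card K * T₀ * ∑ c, h c : ℕ) : ℝ) := by
        rw [hJ₀']
        push_cast
        ring
      rw [h4]
      push_cast at h1 h3 ⊢
      linarith) (by rw [hJ₀']; exact h2)
  have hBF : ∀ j < J₀, ∀ y ∈ Y ∪ Z, y ∉ B j := by
    intro j hj y hy hyB
    exact (Finset.disjoint_left.1 (hTB j hj).2.2.2.1 hyB) hy
  -- class counts
  have hcount : ∀ j < J₀, ∀ c, ((B j).filter (fun x => cls x = c)).card +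
      (if cc j = c then 1 else 0) = h c * (T j).card := by
    intro j hj c
    obtain ⟨hT1, hT2, hB1, hB2, hcov⟩ := hTB j hj
    have hne : (ys j).Nonempty := by rw [hysj j hj]; exact hnbne _ _
    obtain ⟨y, hy⟩ := hne
    have hcy : cls y = cc j := by
      rw [hccj j hj]
      rw [hysj j hj] at hy
      exact (hnbY _ _ y hy).2
    have hyF : y ∈ Y ∪ Z := by
      rw [hysj j hj] at hy
      exact (hnbY _ _ y hy).1
    have hyB := hBF j hj y hyF
    have h3 := (CovT.card_cls H hT1 (hcov y hy) c).1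
    rw [Finset.filter_insert, hcy] at h3
    rw [← h3]
    split_ifs with h4
    · rw [Finset.card_insert_of_notMem]
      intro h5
      exact hyB (Finset.mem_filter.1 h5).1
    · rfl
  have hsum1 : ∀ c, ∑ j ∈ range J₀, (if cc j = c then 1 else 0) = 3 * μ := by
    intro c
    rw [Finset.sum_range]
    have h3 : ∀ j : Fin J₀, (if cc j = c then 1 else 0) =
        (fun q : K × Fin (3 * μ) => if q.1 = c then 1 else 0) (e.symm j) := by
      intro j
      rw [hccj j j.2]
    rw [Finset.sum_congr rfl (fun j _ => h3 j), Equiv.sum_comp e.symm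
      (fun q : K × Fin (3 * μ) => if q.1 = c then 1 else 0), Fintype.sum_prod_type]
    have h4 : ∀ x : K, (∑ _y : Fin (3 * μ), if x = c then 1 else 0) = if x = c then 3 * μ else 0 := by
      intro x
      split_ifs <;> simp
    rw [Finset.sum_congr rfl (fun x _ => h4 x)]
    simp
  refine ⟨(range J₀).biUnion T, (range J₀).biUnion B, ?_, ?_, ?_, ?_, ?_, ?_⟩
  · rw [Finset.biUnion_subset]
    intro j hj
    exact (hTB j (Finset.mem_range.1 hj)).1
  · rw [Finset.biUnion_subset]
    intro j hj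
    exact (hTB j (Finset.mem_range.1 hj)).2.2.1
  · rw [Finset.disjoint_biUnion_left]
    intro j hj
    exact (hTB j (Finset.mem_range.1 hj)).2.2.2.1
  · refine Finset.card_biUnion_le.trans ?_
    refine (Finset.sum_le_sum (fun j hj => (hTB j (Finset.mem_range.1 hj)).2.1)).trans ?_
    rw [Finset.sum_const, Finset.card_range, hJ₀', smul_eq_mul]
  · intro c
    have h3 : ((range J₀).biUnion T).card = ∑ j ∈ range J₀, (T j).card :=
      Finset.card_biUnion (fun i hi j hj hij =>
        (hdis i (Finset.mem_range.1 hi) j (Finset.mem_range.1 hj) hij).1)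
    have h4 : (((range J₀).biUnion B).filter (fun x => cls x = c)).card =
        ∑ j ∈ range J₀, ((B j).filter (fun x => cls x = c)).card := by
      rw [Finset.filter_biUnion]
      exact Finset.card_biUnion (fun i hi j hj hij => Finset.disjoint_filter_filter
        (hdis i (Finset.mem_range.1 hi) j (Finset.mem_range.1 hj) hij).2)
    rw [h3, h4, ← hsum1 c, ← Finset.sum_add_distrib, Finset.mul_sum]
    exact Finset.sum_congr rfl (fun j hj => hcount j (Finset.mem_range.1 hj) c)
  · intro Z'' hZ'' hZc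
    have hf : ∀ c, ∃ f : Fin (3 * μ) → α, Function.Injective f ∧ (∀ x, f x ∈ nb c x) ∧
          (univ.image f = Y.filter (fun x => cls x = c) ∪ Z''.filter (fun x => cls x = c)) :=
      fun c => hnb3 c _ (Finset.filter_subset_filter _ hZ'') (hZc c)
    choose f hf1 hf2 hf3 using hf
    let g : ℕ → Finset α := fun j =>
      if hj : j < J₀ then {f (e.symm ⟨j, hj⟩).1 (e.symm ⟨j, hj⟩).2} else ∅
    have hgj : ∀ j (hj : j < J₀), g j = {f (e.symm ⟨j, hj⟩).1 (e.symm ⟨j, hj⟩).2} := by
      intro j hj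
      simp only [g, hj, dif_pos]
    have hfYZ : ∀ c x, f c x ∈ Y ∪ Z ∧ cls (f c x) = c := fun c x => hnbY c x _ (hf2 c x)
    have h3 := CovT.biUnion (Fill := Fill) (range J₀) T (fun j => g j ∪ B j) (by
      intro j hj
      have hj' := Finset.mem_range.1 hj
      have h4 := (hTB j hj').2.2.2.2 (f (e.symm ⟨j, hj'⟩).1 (e.symm ⟨j, hj'⟩).2)
        (by rw [hysj j hj']; exact hf2 _ _)
      simp only [hgj j hj']
      rw [← Finset.insert_eq]
      exact h4) (fun i hi j hj hij =>
        (hdis i (Finset.mem_range.1 hi) j (Finset.mem_range.1 hj) hij).1) (by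
      intro i hi j hj hij
      have hi' := Finset.mem_range.1 hi
      have hj' := Finset.mem_range.1 hj
      simp only [hgj i hi', hgj j hj']
      rw [Finset.disjoint_union_left, Finset.disjoint_union_right, Finset.disjoint_union_right]
      refine ⟨⟨?_, ?_⟩, ⟨?_, (hdis i hi' j hj' hij).2⟩⟩
      · rw [Finset.disjoint_singleton]
        intro h5
        have h6 : (e.symm ⟨i, hi'⟩).1 = (e.symm ⟨j, hj'⟩).1 := by
          rw [← (hfYZ (e.symm ⟨i, hi'⟩).1 (e.symm ⟨i, hi'⟩).2).2, h5,
            (hfYZ (e.symm ⟨j, hj'⟩).1 (e.symm ⟨j, hj'⟩).2).2]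
        have h7 : (e.symm ⟨i, hi'⟩).2 = (e.symm ⟨j, hj'⟩).2 := by
          rw [h6] at h5
          exact hf1 _ h5
        have h8 : e.symm ⟨i, hi'⟩ = e.symm ⟨j, hj'⟩ := Prod.ext h6 h7
        have h9 := e.symm.injective h8
        simp at h9
        exact hij h9
      · rw [Finset.disjoint_singleton_left]
        exact hBF j hj' _ (hfYZ _ _).1
      · rw [Finset.disjoint_singleton_right]
        exact hBF i hi' _ (hfYZ _ _).1)
    have h4 : (range J₀).biUnion (fun j => g j ∪ B j) = (range J₀).biUnion B ∪ Y ∪ Z'' := by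
      ext x
      simp only [Finset.mem_biUnion, Finset.mem_union, Finset.mem_range]
      constructor
      · rintro ⟨j, hj, h5 | h5⟩
        · rw [hgj j hj, Finset.mem_singleton] at h5
          have h6 : x ∈ univ.image (f (e.symm ⟨j, hj⟩).1) := by
            rw [h5]
            exact Finset.mem_image_of_mem _ (Finset.mem_univ _)
          rw [hf3, Finset.mem_union, Finset.mem_filter, Finset.mem_filter] at h6
          rcases h6 with h6 | h6
          · exact Or.inl (Or.inr h6.1)
          · exact Or.inr h6.1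
        · exact Or.inl (Or.inl ⟨j, hj, h5⟩)
      · intro h5
        have h6 : (∃ a, a < J₀ ∧ x ∈ B a) ∨ (x ∈ Y ∨ x ∈ Z'') := or_assoc.1 h5
        rcases h6 with ⟨j, hj, h7⟩ | h7
        · exact ⟨j, hj, Or.inr h7⟩
        · have h8 : x ∈ univ.image (f (cls x)) := by
            rw [hf3, Finset.mem_union, Finset.mem_filter, Finset.mem_filter]
            tauto
          rw [Finset.mem_image] at h8
          obtain ⟨i, _, hi⟩ := h8
          refine ⟨(e (cls x, i) : ℕ), (e (cls x, i)).2, Or.inl ?_⟩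
          rw [hgj _ (e (cls x, i)).2, Finset.mem_singleton]
          simp [hi]
    rw [h4] at h3
    exact h3

/-- the absorption argument for fixed parameters -/
theorem ab5_core [Nonempty K] {h : K → ℕ} {T₀ : ℕ} {δ ε : ℝ} {m : ℕ} {X : Finset α} {cls : α → K}
    {Fill : ℕ → Finset α → Prop} (H : AbsSys h T₀ δ m X cls Fill)
    (N : NibHyp h δ ε m X cls Fill) (hpos : ∀ c, 1 ≤ h c) {μ nR n' : ℕ} (hμ : 20 ≤ μ)
    (hnR : (∑ c, h c) * nR ≤ μ) (hμm : 4 * μ ≤ m)
    (h1 : ((4 * μ * Fintype.card K + 3 * μ * Fintype.card K * T₀ * ∑ c, h c : ℕ) : ℝ) ≤ δ * m)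
    (h2 : (3 * μ * Fintype.card K + 1) * T₀ ≤ m)
    (h3 : 3 * μ * Fintype.card K * T₀ + nR ≤ m)
    (h4 : ((3 * μ * Fintype.card K * T₀ + nR : ℕ) : ℝ) ≤ δ * m)
    (h5 : ε * m * ((∑ c, h c : ℕ) : ℝ) ≤ nR)
    (h6 : ((nR : ℝ) + ε * m) * ((∑ c, h c : ℕ) : ℝ) < n')
    {Z₀ : Finset α} (hZ₀ : Z₀ ⊆ X) (hZ₀c : ∀ c, (Z₀.filter (fun x => cls x = c)).card ≤ μ)
    (hres1 : ∀ s < m, ∃ D : ℕ → Finset α,
      (∀ t < n', D t ⊆ Z₀ ∧ (D t).card ≤ ∑ c, h c ∧ Fill s (D t)) ∧
      (∀ t < n', ∀ t' < n', t ≠ t' → Disjoint (D t) (D t')))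
    (hres2 : ∀ s < m, ∀ x ∈ X, ∃ D : ℕ → Finset α,
      (∀ t < n', D t ⊆ Z₀ ∧ (D t).card ≤ ∑ c, h c ∧ Fill s (insert x (D t))) ∧
      (∀ t < n', ∀ t' < n', t ≠ t' → Disjoint (D t) (D t'))) :
    CovT Fill (range m) X := by
  classical
  have hhr : ∀ c, h c ≤ ∑ c, h c := fun c =>
    Finset.single_le_sum (f := h) (fun i _ => Nat.zero_le _) (Finset.mem_univ c)
  have hhn : ∀ c, h c * nR ≤ μ := fun c => (Nat.mul_le_mul_right _ (hhr c)).trans hnR
  have hXc : ∀ c, m ≤ (X.filter (fun x => cls x = c)).card := by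
    intro c
    rw [H.cardX c]
    exact Nat.le_mul_of_pos_left _ (hpos c)
  -- Z
  obtain ⟨Z, hZ₀Z, hZX, hZc⟩ := ab5_choose cls hZ₀ (fun c => μ + h c * nR)
    (fun c => (hZ₀c c).trans (Nat.le_add_right _ _))
    (fun c => by
      have := hhn c
      have := hXc c
      show μ + h c * nR ≤ _
      omega)
  have hZc2 : ∀ c, (Z.filter (fun x => cls x = c)).card ≤ 2 * μ := by
    intro c
    have := hhn c
    have := hZc c
    omega
  -- Y
  obtain ⟨Y, -, hYX', hYc⟩ := ab5_choose cls (Finset.empty_subset (X \ Z)) (fun _ => 2 * μ)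
    (fun c => by simp) (fun c => by
      have h7 := ab5_card_sdiff cls hZX c
      have := hXc c
      have := hZc2 c
      omega)
  have hYX : Y ⊆ X := hYX'.trans Finset.sdiff_subset
  have hYZ : Disjoint Y Z :=
    Finset.disjoint_of_subset_left hYX' Finset.sdiff_disjoint
  -- nodes
  obtain ⟨TN, BN, hTN, hBN, hBNd, hTNc, hBNc, hnode⟩ := ab5_nodes H hμ hYX hZX hYZ hYc
    (fun c => by rw [hZc c]; exact Nat.le_add_right _ _) hZc2 h1 h2
  -- slots
  have hTNsd : (range m \ TN).card + TN.card = m := by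
    have := Finset.card_sdiff_add_card_eq_card hTN
    rwa [Finset.card_range] at this
  obtain ⟨SR, hSR, hSRc⟩ := Finset.exists_subset_card_eq (s := range m \ TN) (n := nR) (by omega)
  set SM := (range m \ TN) \ SR with hSM
  have hSMc : SM.card + TN.card + nR = m := by
    have h7 := Finset.card_sdiff_add_card_eq_card hSR
    rw [← hSM] at h7
    omega
  set XM := X \ (BN ∪ Y ∪ Z) with hXM
  have hBYZ : BN ∪ Y ∪ Z ⊆ X := Finset.union_subset (Finset.union_subset hBN hYX) hZX
  have hBY : Disjoint BN Y := Finset.disjoint_of_subset_right Finset.subset_union_left hBNd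
  have hBZ : Disjoint BN Z := Finset.disjoint_of_subset_right Finset.subset_union_right hBNd
  have hBYZd : Disjoint (BN ∪ Y) Z := Finset.disjoint_union_left.2 ⟨hBZ, hYZ⟩
  have hXMc : ∀ c, (XM.filter (fun x => cls x = c)).card = h c * SM.card := by
    intro c
    have a1 := ab5_card_sdiff cls hBYZ c
    rw [ab5_card_union cls hBYZd c, ab5_card_union cls hBY c, hZc c, hYc c, H.cardX c] at a1
    have a2 := hBNc c
    have a3 : h c * SM.card + h c * TN.card + h c * nR = h c * m := by
      rw [← Nat.mul_add, ← Nat.mul_add, hSMc]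
    rw [← hXM] at a1
    omega
  have hSMsub : SM ⊆ range m := Finset.sdiff_subset.trans Finset.sdiff_subset
  obtain ⟨D, hD, hDc, A, hA, hcovA⟩ := N SM hSMsub XM Finset.sdiff_subset (by
      have a1 : (m : ℝ) - SM.card = ((TN.card + nR : ℕ) : ℝ) := by
        have : (m : ℝ) = ((SM.card + TN.card + nR : ℕ) : ℝ) := by rw [hSMc]
        rw [this]
        push_cast
        ring
      rw [a1]
      refine le_trans ?_ h4
      exact_mod_cast Nat.add_le_add_right hTNc _) hXMc
  have hDsub : D ⊆ range m := hD.trans hSMsub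
  set Λ := XM \ A with hΛ
  have hSMD : (SM \ D).card + D.card = SM.card := Finset.card_sdiff_add_card_eq_card hD
  have hΛc : ∀ c, (Λ.filter (fun x => cls x = c)).card = h c * (SM \ D).card := by
    intro c
    have a1 := ab5_card_sdiff cls hA c
    rw [(CovT.card_cls H hDsub hcovA c).1, hXMc c, ← hSMD, Nat.mul_add, ← hΛ] at a1
    omega
  have hu : ((SM \ D).card : ℝ) ≤ ε * m := by
    have : (SM.card : ℝ) = ((SM \ D).card : ℝ) + D.card := by exact_mod_cast hSMD.symm
    linarith
  have hΛcard : Λ.card = (∑ c, h c) * (SM \ D).card := by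
    rw [ab5_card_sum cls Λ, Finset.sum_congr rfl (fun c _ => hΛc c), ← Finset.sum_mul]
  have hΛle : Λ.card ≤ SR.card := by
    rw [hSRc]
    have a1 : (Λ.card : ℝ) ≤ nR := by
      rw [hΛcard]
      push_cast
      refine le_trans ?_ h5
      push_cast
      rw [mul_comm (ε * m)]
      gcongr
    exact_mod_cast a1
  obtain ⟨SR', hSR', hSR'c⟩ := Finset.exists_subset_card_eq hΛle
  let e : Λ ≃ SR' := Finset.equivOfCardEq hSR'c.symm
  let x : ℕ → Option α := fun s => if hs : s ∈ SR' then some (e.symm ⟨s, hs⟩ : α) else none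
  have hx1 : ∀ s (hs : s ∈ SR'), x s = some (e.symm ⟨s, hs⟩ : α) := by
    intro s hs
    simp only [x, hs, dif_pos]
  have hx2 : ∀ s, s ∉ SR' → x s = none := by
    intro s hs
    simp only [x, hs, dif_neg, not_false_iff]
  have hxΛ : ∀ s y, x s = some y → y ∈ Λ := by
    intro s y hy
    by_cases hs : s ∈ SR'
    · rw [hx1 s hs] at hy
      have := Option.some.inj hy
      rw [← this]
      exact (e.symm ⟨s, hs⟩).2
    · rw [hx2 s hs] at hy
      cases hy
  have hΛX : Λ ⊆ X := Finset.sdiff_subset.trans Finset.sdiff_subset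
  have hΛZ : Disjoint Z Λ := by
    have a1 : Disjoint (BN ∪ Y ∪ Z) XM := Finset.disjoint_sdiff
    exact Finset.disjoint_of_subset_left Finset.subset_union_right
      (Finset.disjoint_of_subset_right Finset.sdiff_subset a1)
  set T := SR ∪ (SM \ D) with hT
  have hSRSM : Disjoint SR (SM \ D) :=
    Finset.disjoint_of_subset_right Finset.sdiff_subset Finset.disjoint_sdiff
  have hTc : T.card = nR + (SM \ D).card := by
    rw [hT, Finset.card_union_of_disjoint hSRSM, hSRc]
  have hTsub : T ⊆ range m :=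
    Finset.union_subset (hSR.trans Finset.sdiff_subset) (Finset.sdiff_subset.trans hSMsub)
  have hbiU : T.biUnion (fun s => (x s).toFinset) = Λ := by
    ext y
    rw [Finset.mem_biUnion]
    constructor
    · rintro ⟨s, _, hs⟩
      rw [Option.mem_toFinset] at hs
      exact hxΛ s y hs
    · intro hy
      refine ⟨(e ⟨y, hy⟩ : ℕ), Finset.mem_union_left _ (hSR' (e ⟨y, hy⟩).2), ?_⟩
      rw [Option.mem_toFinset, hx1 _ (e ⟨y, hy⟩).2]
      simp
  obtain ⟨Z', hZ'Z, hcovT⟩ := greedy_fill (Fill := Fill) (∑ c, h c) T Z x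
    (fun s _ y hy hyZ => Finset.disjoint_left.1 hΛZ hyZ (hxΛ s y hy))
    (by
      intro s _ t _ hst y hy hy'
      by_cases hs : s ∈ SR'
      · by_cases ht : t ∈ SR'
        · rw [hx1 s hs] at hy
          rw [hx1 t ht, ← hy] at hy'
          have a1 := Subtype.ext (Option.some.inj hy')
          have a2 := e.symm.injective a1
          simp at a2
          exact hst a2.symm
        · rw [hx2 t ht] at hy'
          cases hy'
      · rw [hx2 s hs] at hy
        cases hy) n'
    (by
      have a1 : ((T.card * ∑ c, h c : ℕ) : ℝ) < n' := by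
        refine lt_of_le_of_lt ?_ h6
        rw [hTc]
        push_cast
        gcongr
      exact_mod_cast a1)
    (by
      intro s hs
      have hsm : s < m := Finset.mem_range.1 (hTsub hs)
      rcases hxs : x s with _ | y
      · obtain ⟨D', hD1, hD2⟩ := hres1 s hsm
        refine ⟨D', fun t ht => ⟨(hD1 t ht).1.trans hZ₀Z, (hD1 t ht).2.1, ?_⟩, hD2⟩
        simpa using (hD1 t ht).2.2
      · obtain ⟨D', hD1, hD2⟩ := hres2 s hsm y (hΛX (hxΛ s y hxs))
        refine ⟨D', fun t ht => ⟨(hD1 t ht).1.trans hZ₀Z, (hD1 t ht).2.1, ?_⟩, hD2⟩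
        have := (hD1 t ht).2.2
        rw [Finset.insert_eq] at this
        simpa using this)
  rw [hbiU] at hcovT
  have hZ'Λ : Disjoint Z' Λ := Finset.disjoint_of_subset_left hZ'Z hΛZ
  have hZ'c : ∀ c, (Z'.filter (fun x => cls x = c)).card = h c * nR := by
    intro c
    have a1 := (CovT.card_cls H hTsub hcovT c).1
    rw [ab5_card_union cls hZ'Λ c, hΛc c, hTc, Nat.mul_add] at a1
    omega
  have hZZ'c : ∀ c, ((Z \ Z').filter (fun x => cls x = c)).card = μ := by
    intro c
    have a1 := ab5_card_sdiff cls hZ'Z c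
    rw [hZ'c c, hZc c] at a1
    omega
  have hcovN := hnode (Z \ Z') Finset.sdiff_subset hZZ'c
  -- union
  have hd1 : Disjoint TN T := by
    rw [hT, Finset.disjoint_union_right]
    refine ⟨?_, ?_⟩
    · exact Finset.disjoint_of_subset_right hSR Finset.disjoint_sdiff
    · exact Finset.disjoint_of_subset_right (Finset.sdiff_subset.trans Finset.sdiff_subset)
        Finset.disjoint_sdiff
  have hXMd : Disjoint (BN ∪ Y ∪ Z) XM := Finset.disjoint_sdiff
  have hsub1 : BN ∪ Y ∪ (Z \ Z') ⊆ BN ∪ Y ∪ Z :=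
    Finset.union_subset_union_right Finset.sdiff_subset
  have hd2 : Disjoint (BN ∪ Y ∪ (Z \ Z')) (Z' ∪ Λ) := by
    rw [Finset.disjoint_union_right]
    refine ⟨?_, ?_⟩
    · rw [Finset.disjoint_union_left]
      exact ⟨Finset.disjoint_of_subset_right hZ'Z hBYZd, Finset.sdiff_disjoint⟩
    · exact Finset.disjoint_of_subset_left hsub1
        (Finset.disjoint_of_subset_right Finset.sdiff_subset hXMd)
  have hc1 := CovT.union hcovN hcovT hd1 hd2
  have hd3 : Disjoint (TN ∪ T) D := by
    rw [Finset.disjoint_union_left, hT, Finset.disjoint_union_left]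
    refine ⟨?_, ?_, Finset.sdiff_disjoint⟩
    · exact Finset.disjoint_of_subset_right (hD.trans Finset.sdiff_subset) Finset.disjoint_sdiff
    · exact Finset.disjoint_of_subset_right hD Finset.disjoint_sdiff
  have hd4 : Disjoint (BN ∪ Y ∪ (Z \ Z') ∪ (Z' ∪ Λ)) A := by
    refine Finset.disjoint_union_left.2 ⟨?_, Finset.disjoint_union_left.2
      ⟨?_, Finset.sdiff_disjoint⟩⟩
    · exact Finset.disjoint_of_subset_left hsub1 (Finset.disjoint_of_subset_right hA hXMd)
    · exact Finset.disjoint_of_subset_left (hZ'Z.trans Finset.subset_union_right)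
        (Finset.disjoint_of_subset_right hA hXMd)
  have hc2 := CovT.union hc1 hcovA hd3 hd4
  have e1 : TN ∪ T ∪ D = range m := by
    have a1 : T ∪ D = range m \ TN := by
      rw [hT, Finset.union_assoc, Finset.sdiff_union_of_subset hD, hSM,
        Finset.union_sdiff_of_subset hSR]
    rw [Finset.union_assoc, a1, Finset.union_sdiff_of_subset hTN]
  have e2 : BN ∪ Y ∪ (Z \ Z') ∪ (Z' ∪ Λ) ∪ A = X := by
    have a1 : BN ∪ Y ∪ (Z \ Z') ∪ (Z' ∪ Λ) ∪ A = (BN ∪ Y ∪ ((Z \ Z') ∪ Z')) ∪ (Λ ∪ A) := by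
      simp only [Finset.union_assoc]
    rw [a1, Finset.sdiff_union_of_subset hZ'Z, hΛ, Finset.sdiff_union_of_subset hA, hXM,
      Finset.union_sdiff_of_subset hBYZ]
  rw [e1, e2] at hc2
  exact hc2

theorem ab5_fill_card {h : K → ℕ} {T₀ : ℕ} {δ : ℝ} {m : ℕ} {X : Finset α} {cls : α → K}
    {Fill : ℕ → Finset α → Prop} (H : AbsSys h T₀ δ m X cls Fill) {s : ℕ} (hs : s < m)
    {A : Finset α} (hA : Fill s A) : A.card = ∑ c, h c := by
  rw [ab5_card_sum cls A]
  exact Finset.sum_congr rfl (fun c _ => H.cardF s hs A hA c)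

end AB5

/-- AB: abstract absorption theorem. -/
theorem absorption (K : Type) [Fintype K] [DecidableEq K] [Nonempty K] (h : K → ℕ) (hpos : ∀ c, 1 ≤ h c)
    (T₀ : ℕ) (δ : ℝ) (hδ : 0 < δ) : ∃ ε : ℝ, 0 < ε ∧ ∃ m₀ : ℕ,
      ∀ (α : Type) [DecidableEq α] (m : ℕ) (X : Finset α) (cls : α → K)
        (Fill : ℕ → Finset α → Prop), m₀ ≤ m → AbsSys h T₀ δ m X cls Fill →
        NibHyp h δ ε m X cls Fill → CovT Fill (range m) X := by
  classical
  set r : ℕ := ∑ c, h c with hr
  have hr1 : 1 ≤ r := by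
    obtain ⟨c⟩ := (inferInstance : Nonempty K)
    exact (hpos c).trans (Finset.single_le_sum (f := h) (fun i _ => Nat.zero_le _)
      (Finset.mem_univ c))
  have hrR : (1 : ℝ) ≤ r := by exact_mod_cast hr1
  set k : ℕ := Fintype.card K with hk
  obtain ⟨U₀, hU₀⟩ := exists_nat_ge (2 * (k * (4 + 3 * T₀ * r)) / δ)
  set U : ℕ := U₀ + 6 * k * T₀ + 4 with hU
  have hU4 : 4 ≤ U := by omega
  have hUR : (4 : ℝ) ≤ U := by exact_mod_cast hU4
  have hUδ : 2 * ((k : ℝ) * (4 + 3 * T₀ * r)) ≤ δ * U := by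
    rw [div_le_iff₀ hδ] at hU₀
    have : (U₀ : ℝ) ≤ U := by
      rw [hU]
      push_cast
      have : (0:ℝ) ≤ 6 * (k : ℝ) * T₀ := by positivity
      linarith
    nlinarith
  have hUT : 6 * k * T₀ ≤ U := by omega
  set Q : ℕ := 4 * (k + 1) * r * U with hQ
  have hQ1 : 1 ≤ Q := by
    rw [hQ]
    have : 0 < 4 * (k + 1) * r * U := by positivity
    omega
  have hQR : (1 : ℝ) ≤ Q := by exact_mod_cast hQ1
  set ν : ℝ := δ / (8 * r * (Q : ℝ) ^ r) with hν
  have hν0 : 0 < ν := by positivity
  set κ : ℝ := min (δ / 2) (min (1 / 2) (min (1 / (2 * U * r)) (ν / (2 * r)))) with hκ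
  have hκ0 : 0 < κ := by
    rw [hκ]
    refine lt_min (by positivity) (lt_min (by norm_num) (lt_min (by positivity) (by positivity)))
  have hκ1 : κ ≤ δ / 2 := min_le_left _ _
  have hκ2 : κ ≤ 1 / 2 := (min_le_right _ _).trans (min_le_left _ _)
  have hκ3 : κ ≤ 1 / (2 * U * r) :=
    (min_le_right _ _).trans ((min_le_right _ _).trans (min_le_left _ _))
  have hκ4 : κ ≤ ν / (2 * r) :=
    (min_le_right _ _).trans ((min_le_right _ _).trans (min_le_right _ _))
  obtain ⟨m₁, hm₁⟩ := reservoir K r r Q hQ1 (δ / (2 * r)) (by positivity)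
  obtain ⟨m₂, hm₂⟩ := exists_nat_ge (2 / κ)
  obtain ⟨m₃, hm₃⟩ := exists_nat_ge (2 * r / δ)
  refine ⟨κ / (4 * r), by positivity, m₁ + m₂ + m₃ + 20 * U + 2 * T₀ + r + 1, ?_⟩
  intro α _ m X cls Fill hm H N
  have hmR : (0 : ℝ) < m := by exact_mod_cast (by omega : 0 < m)
  set μ : ℕ := m / U with hμ
  have hμ1 : 20 ≤ μ := by
    rw [hμ, Nat.le_div_iff_mul_le (by omega)]
    omega
  have hμU : μ * U ≤ m := Nat.div_mul_le_self m U
  have hμU2 : m ≤ 2 * U * μ := by
    have h1 := Nat.lt_div_mul_add (a := m) (b := U) (by omega)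
    rw [← hμ] at h1
    nlinarith
  have hμUR : (μ : ℝ) * U ≤ m := by exact_mod_cast hμU
  have hμU2R : (m : ℝ) ≤ 2 * U * μ := by exact_mod_cast hμU2
  set nR : ℕ := ⌊κ * m⌋₊ with hnR
  have hnR1 : (nR : ℝ) ≤ κ * m := Nat.floor_le (by positivity)
  have hnR2 : κ * m - 1 ≤ nR := by
    have := Nat.lt_floor_add_one (κ * m)
    rw [← hnR] at this
    linarith
  set n : ℕ := ⌊δ * m / r⌋₊ with hn
  have hn1 : (n : ℝ) ≤ δ * m / r := Nat.floor_le (by positivity)
  have hn2 : δ / (2 * r) * m ≤ n := by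
    have h1 := Nat.lt_floor_add_one (δ * m / r)
    rw [← hn] at h1
    have h2 : (1 : ℝ) ≤ δ / (2 * r) * m := by
      rw [div_mul_eq_mul_div, le_div_iff₀ (by positivity)]
      rw [div_le_iff₀ hδ] at hm₃
      have : (m₃ : ℝ) ≤ m := by exact_mod_cast (by omega : m₃ ≤ m)
      nlinarith
    have h3 : δ * m / r = 2 * (δ / (2 * r) * m) := by
      field_simp
    rw [h3] at h1
    linarith
  have hnr : ((n * ∑ c, h c : ℕ) : ℝ) ≤ δ * m := by
    rw [← hr]
    push_cast
    rwa [le_div_iff₀ (by positivity)] at hn1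
  have hκm : (2 : ℝ) ≤ κ * m := by
    rw [div_le_iff₀ hκ0] at hm₂
    have : (m₂ : ℝ) ≤ m := by exact_mod_cast (by omega : m₂ ≤ m)
    nlinarith
  -- the tasks
  have hD1 := fun (s : Fin m) => many_fill H n hnr s s.2
  choose D1 hD1a hD1b using hD1
  have hD2 := fun (s : Fin m) (x : X) => many_fill_mem H n hnr s s.2 x x.2
  choose D2 hD2a hD2b using hD2
  let J := Fin m ⊕ (Fin m × X)
  let D : J → ℕ → Finset α := fun j => match j with
    | Sum.inl s => D1 s
    | Sum.inr p => D2 p.1 p.2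
  have hXcard : X.card = r * m := by
    rw [ab5_card_sum cls X, Finset.sum_congr rfl (fun c _ => H.cardX c), ← Finset.sum_mul]
  obtain ⟨Z₀, hZ₀, hZ₀c, hZ₀n⟩ := hm₁ α X cls m n J D (by omega) hn2
    (fun c => by
      rw [H.cardX c]
      exact Nat.mul_le_mul_right _ (Finset.single_le_sum (f := h) (fun i _ => Nat.zero_le _)
        (Finset.mem_univ c)))
    (by
      simp only [J, Fintype.card_sum, Fintype.card_prod, Fintype.card_fin, Fintype.card_coe]
      rw [hXcard]
      have h1 : r + 1 ≤ m := by omega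
      have h2 : 1 ≤ m := by omega
      calc m + m * (r * m) ≤ m * m + m * (r * m) := by nlinarith
        _ = (r + 1) * (m * m) := by ring
        _ ≤ m * (m * m) := Nat.mul_le_mul_right _ h1
        _ = m ^ 3 := by ring)
    (by
      rintro (s | ⟨s, x⟩) t ht
      · exact ⟨H.sub s s.2 _ (hD1a s t ht), (ab5_fill_card H s.2 (hD1a s t ht)).le⟩
      · have h1 := hD2a s x t ht
        refine ⟨(Finset.subset_insert _ _).trans (H.sub s s.2 _ h1.2), ?_⟩
        exact (Finset.card_le_card (Finset.subset_insert _ _)).trans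
          (ab5_fill_card H s.2 h1.2).le)
    (by
      rintro (s | ⟨s, x⟩) t ht t' ht' hne
      · exact hD1b s t ht t' ht' hne
      · exact hD2b s x t ht t' ht' hne)
  have hνm : ν * m ≤ (n : ℝ) / (4 * (Q : ℝ) ^ r) := by
    rw [le_div_iff₀ (by positivity)]
    refine le_trans (le_of_eq ?_) hn2
    rw [hν]
    field_simp
    norm_num
  have hcnt : ∀ j : J, ⌈ν * m⌉₊ ≤ ((range n).filter (fun t => D j t ⊆ Z₀)).card := by
    intro j
    rw [Nat.ceil_le]
    exact hνm.trans (hZ₀n j)
  have hZ₀c' : ∀ c, (Z₀.filter (fun x => cls x = c)).card ≤ μ := by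
    intro c
    have h1 := hZ₀c c
    have h2 : 2 * (Fintype.card K + 1) * r * m ≤ μ * Q := by
      calc 2 * (Fintype.card K + 1) * r * m ≤ 2 * (Fintype.card K + 1) * r * (2 * U * μ) :=
            Nat.mul_le_mul_left _ hμU2
        _ = μ * Q := by
          rw [hQ, hk]
          ring
    exact Nat.le_of_mul_le_mul_right (h1.trans h2) (by omega)
  have hμk : ((μ * (k * (4 + 3 * T₀ * r)) : ℕ) : ℝ) ≤ δ * m / 2 := by
    push_cast
    have h1 : (μ : ℝ) * (2 * ((k : ℝ) * (4 + 3 * T₀ * r))) ≤ μ * (δ * U) := by gcongr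
    have h2 : (μ : ℝ) * (δ * U) ≤ δ * m := by
      calc (μ : ℝ) * (δ * U) = δ * (μ * U) := by ring
        _ ≤ _ := by gcongr
    linarith
  have hμT : 2 * (3 * μ * k * T₀) ≤ m := by
    calc 2 * (3 * μ * k * T₀) = μ * (6 * k * T₀) := by ring
      _ ≤ μ * U := Nat.mul_le_mul_left _ hUT
      _ ≤ m := hμU
  have hnRm : 2 * nR ≤ m := by
    have : (2 : ℝ) * nR ≤ m := by nlinarith
    exact_mod_cast this
  refine ab5_core H N hpos (μ := μ) (nR := nR) (n' := ⌈ν * m⌉₊) hμ1 ?_ ?_ ?_ ?_ ?_ ?_ ?_ ?_ hZ₀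
    hZ₀c' ?_ ?_
  · -- r nR ≤ μ
    rw [← hr]
    have h1 : (r : ℝ) * nR ≤ μ := by
      have h2 : (r : ℝ) * nR ≤ r * (1 / (2 * U * r) * m) := by
        refine mul_le_mul_of_nonneg_left (hnR1.trans ?_) (by positivity)
        gcongr
      have h3 : (r : ℝ) * (1 / (2 * U * r) * m) = m / (2 * U) := by
        field_simp
      rw [h3] at h2
      refine h2.trans ?_
      rw [div_le_iff₀ (by positivity)]
      linarith
    exact_mod_cast h1
  · nlinarith
  · rw [← hr, ← hk]
    have h1 : 4 * μ * k + 3 * μ * k * T₀ * r = μ * (k * (4 + 3 * T₀ * r)) := by ring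
    rw [h1]
    have : 0 ≤ δ * m := by positivity
    linarith
  · rw [← hk]
    have : (3 * μ * k + 1) * T₀ = 3 * μ * k * T₀ + T₀ := by ring
    omega
  · rw [← hk]
    omega
  · rw [← hk]
    have h1 : 3 * μ * k * T₀ ≤ μ * (k * (4 + 3 * T₀ * r)) := by
      calc 3 * μ * k * T₀ = μ * (k * (3 * T₀ * 1)) := by ring
        _ ≤ μ * (k * (3 * T₀ * r)) := by gcongr
        _ ≤ _ := by
          apply Nat.mul_le_mul_left
          apply Nat.mul_le_mul_left
          omega
    have h2 : ((3 * μ * k * T₀ : ℕ) : ℝ) ≤ δ * m / 2 := le_trans (by exact_mod_cast h1) hμk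
    have h3 : (nR : ℝ) ≤ δ * m / 2 := by
      refine hnR1.trans ?_
      calc κ * m ≤ δ / 2 * m := by gcongr
        _ = _ := by ring
    push_cast at h2 ⊢
    linarith
  · rw [← hr]
    have h1 : κ / (4 * r) * m * (r : ℝ) = κ * m / 4 := by
      field_simp
    rw [h1]
    linarith
  · rw [← hr]
    refine lt_of_lt_of_le ?_ (Nat.le_ceil _)
    have h1 : ((nR : ℝ) + κ / (4 * r) * m) * r ≤ (κ * m + κ * m / 4) * r := by
      gcongr
      have : κ / (4 * r) * m ≤ κ / 4 * m := by
        gcongr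
        nlinarith
      linarith
    have h2 : (κ * m + κ * m / 4) * r ≤ 5 / 8 * (ν * m) := by
      have h3 : κ * (2 * r) ≤ ν := by
        rwa [le_div_iff₀ (by positivity)] at hκ4
      have h4 : κ * (2 * r) * m ≤ ν * m := by gcongr
      nlinarith
    have h3 : 0 < ν * m := by positivity
    linarith
  · intro s hs
    obtain ⟨e, he1, he2⟩ := ab5_enum (hcnt (Sum.inl ⟨s, hs⟩))
    refine ⟨fun t => D1 ⟨s, hs⟩ (e t), fun t ht => ?_, fun t ht t' ht' hne => ?_⟩
    · have h1 := Finset.mem_filter.1 (he1 t ht)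
      have h2 := hD1a ⟨s, hs⟩ (e t) (Finset.mem_range.1 h1.1)
      exact ⟨h1.2, (ab5_fill_card H hs h2).le, h2⟩
    · exact hD1b ⟨s, hs⟩ _ (Finset.mem_range.1 (Finset.mem_filter.1 (he1 t ht)).1) _
        (Finset.mem_range.1 (Finset.mem_filter.1 (he1 t' ht')).1) (he2 t ht t' ht' hne)
  · intro s hs x hx
    obtain ⟨e, he1, he2⟩ := ab5_enum (hcnt (Sum.inr (⟨s, hs⟩, ⟨x, hx⟩)))
    refine ⟨fun t => D2 ⟨s, hs⟩ ⟨x, hx⟩ (e t), fun t ht => ?_, fun t ht t' ht' hne => ?_⟩
    · have h1 := Finset.mem_filter.1 (he1 t ht)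
      have h2 := (hD2a ⟨s, hs⟩ ⟨x, hx⟩ (e t) (Finset.mem_range.1 h1.1)).2
      exact ⟨h1.2, (Finset.card_le_card (Finset.subset_insert _ _)).trans
        (ab5_fill_card H hs h2).le, h2⟩
    · exact hD2b ⟨s, hs⟩ ⟨x, hx⟩ _ (Finset.mem_range.1 (Finset.mem_filter.1 (he1 t ht)).1) _
        (Finset.mem_range.1 (Finset.mem_filter.1 (he1 t' ht')).1) (he2 t ht t' ht' hne)

end SqCyc
end
end
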