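import Pool.Agent.Lib.SqCyc.Gib5
import Pool.Agent.Lib.SqCyc.Abs5
import Pool.Agent.Lib.SqCyc.Abs1

section

/-! # GB-6 mass of a prescribed element -/

open Finset

namespace SqCyc

variable {k : ℕ} [NeZero k] {ℓ : ℕ} {w : ℕ → Letter} {X' : Finset El} {p : ℝ}

theorem gib6_psi_nonneg (γ : El → ℝ) (e : El) : 0 ≤ psi X' γ e := by
  unfold psi
  split_ifs
  · exact (Real.exp_pos _).le
  · exact le_rfl

theorem Wt_nonneg (γ : El → ℝ) (x : Cfg k ℓ) : 0 ≤ Wt (idx ℓ) Fc X' γ x :=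
  Finset.prod_nonneg fun _ _ => gib6_psi_nonneg γ _

theorem Zf_pos (G : GCtx k ℓ w X' p) {s : ℕ} (h1 : vtx (PA k s) ∉ X')
    (h2 : vtx (PC k s) ∉ X') (h3 : vtx (PA k (s + 1)) ∉ X') (h4 : vtx (PC k (s + 1)) ∉ X')
    (γ : El → ℝ) : 0 < Zf (Om k w ℓ s) (idx ℓ) Fc X' γ := by
  obtain ⟨x, hx, hb⟩ := exists_good G h1 h2 h3 h4
  refine Finset.sum_pos' (fun y _ => Wt_nonneg γ y) ⟨x, hx, ?_⟩
  refine Finset.prod_pos fun b hb' => ?_
  rw [psi, if_pos (hb b hb')]
  exact Real.exp_pos _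

/-- single site bound for configurations of a slot -/
theorem site_slot (G : GCtx k ℓ w X' p) (γ : El → ℝ) (hγ : ∀ e ∈ X', |γ e| ≤ 1 / 1000)
    (s : ℕ) (i : Fin (ℓ + 2)) (h2 : 2 ≤ i.val) (hi : i.val < ℓ)
    (H : Cfg k ℓ → ℝ) (hH0 : ∀ x ∈ Om k w ℓ s, 0 ≤ H x)
    (hH : ∀ x z, H (Function.update x i z) = H x)
    (T : Cfg k ℓ → Finset (Pt k)) (hT : ∀ x z, T (Function.update x i z) = T x) (t : ℕ)
    (hTt : ∀ x ∈ Om k w ℓ s, (T x).card ≤ t) :
    (k : ℝ) * ∑ x ∈ (Om k w ℓ s).filter (fun x => x i ∈ T x), H x * Wt (idx ℓ) Fc X' γ x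
      ≤ 2 * t * ∑ x ∈ Om k w ℓ s, H x * Wt (idx ℓ) Fc X' γ x := by
  have h := single_site (Apos k w ℓ s) i (idx ℓ) Fc X' γ (1 / 1000) p hγ (by norm_num) le_rfl
    G.p0 G.p1 ((idx ℓ).filter (fun b => i.val = b.2 ∨ i.val = b.2 + b.1))
    (Finset.filter_subset _ _) (near_card ℓ i.val)
    (fun b hb hb' x z => by
      have h3 : ¬ (i.val = b.2 ∨ i.val = b.2 + b.1) := fun h4 =>
        hb' (Finset.mem_filter.2 ⟨hb, h4⟩)
      rw [not_or] at h3
      exact Fc_update x i z h3.1 h3.2)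
    (fun b hb x hx => bad_site G hx h2 hi (Finset.mem_filter.1 hb).1 (Finset.mem_filter.1 hb).2)
    H hH0 hH T hT t hTt
  rw [(card_Apos h2 hi s).1] at h
  exact h

theorem gib6_free {a : ℕ × ℕ} (ha : a ∈ idx ℓ) (hℓ : 20 ≤ ℓ) :
    ∃ j : ℕ, 2 ≤ j ∧ j < ℓ ∧ (j = a.2 ∨ j = a.2 + a.1) := by
  obtain ⟨τ, i⟩ := a
  simp only [idx, Finset.mem_sdiff, Finset.mem_product, Finset.mem_range, Finset.mem_insert,
    Finset.mem_singleton, Prod.mk.injEq, not_or, not_and] at ha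
  obtain ⟨⟨h1, h2⟩, h3, h4, h5⟩ := ha
  simp only
  by_cases hi : 2 ≤ i
  · exact ⟨i, hi, h2, Or.inl rfl⟩
  · refine ⟨i + τ, ?_, by omega, Or.inr rfl⟩
    by_contra hcon
    have h6 : i = 0 ∨ i = 1 := by omega
    rcases h6 with rfl | rfl
    · have h7 : τ = 0 ∨ τ = 1 := by omega
      rcases h7 with rfl | rfl
      · exact h3 rfl rfl
      · exact h5 rfl rfl
    · have h7 : τ = 0 := by omega
      subst h7
      exact h4 rfl rfl

theorem Nm_le (G : GCtx k ℓ w X' p) (γ : El → ℝ) (hγ : ∀ e ∈ X', |γ e| ≤ 1 / 1000)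
    (s : ℕ) {a : ℕ × ℕ} (ha : a ∈ idx ℓ) (e : El) :
    (k : ℝ) * Nm (Om k w ℓ s) (idx ℓ) Fc X' γ a e ≤ 4 * Zf (Om k w ℓ s) (idx ℓ) Fc X' γ := by
  obtain ⟨j, hj2, hjl, hja⟩ := gib6_free ha G.hℓ
  have hj : j < ℓ + 2 := by omega
  set i : Fin (ℓ + 2) := ⟨j, hj⟩ with hi
  have h := site_slot G γ hγ s i hj2 hjl (fun _ => 1) (fun _ _ => zero_le_one) (fun _ _ => rfl)
    (fun x => (Apos k w ℓ s i).filter (fun z => Fc a (Function.update x i z) = e))
    (fun x z => by simp only [Function.update_idem]) 2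
    (fun x _ => two_site x hj2 hjl ha hja e)
  simp only [one_mul] at h
  have h1 : Nm (Om k w ℓ s) (idx ℓ) Fc X' γ a e ≤
      ∑ x ∈ (Om k w ℓ s).filter (fun x => x i ∈
        (Apos k w ℓ s i).filter (fun z => Fc a (Function.update x i z) = e)),
        Wt (idx ℓ) Fc X' γ x := by
    unfold Nm
    refine Finset.sum_le_sum_of_subset_of_nonneg ?_ (fun x _ _ => Wt_nonneg γ x)
    intro x hx
    rw [Finset.mem_filter] at hx ⊢
    refine ⟨hx.1, Finset.mem_filter.2 ⟨?_, ?_⟩⟩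
    · exact Fintype.mem_piFinset.1 hx.1 i
    · rw [Function.update_eq_self]
      exact hx.2
  calc (k : ℝ) * Nm (Om k w ℓ s) (idx ℓ) Fc X' γ a e
      ≤ (k : ℝ) * ∑ x ∈ (Om k w ℓ s).filter (fun x => x i ∈
        (Apos k w ℓ s i).filter (fun z => Fc a (Function.update x i z) = e)),
        Wt (idx ℓ) Fc X' γ x := mul_le_mul_of_nonneg_left h1 (Nat.cast_nonneg k)
    _ ≤ _ := h
    _ = 4 * Zf (Om k w ℓ s) (idx ℓ) Fc X' γ := by
        unfold Zf
        norm_num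

end SqCyc
end

section

section

/-! # GB-10 pairs of elements in a configuration -/

open Finset

namespace SqCyc

variable {k : ℕ} [NeZero k] {ℓ : ℕ} {w : ℕ → Letter} {X' : Finset El} {p : ℝ}

private lemma g10_fp {b : ℕ × ℕ} {j : ℕ} :
    j ∈ fp ℓ b ↔ (j = b.2 ∨ j = b.2 + b.1) ∧ 2 ≤ j ∧ j < ℓ := by
  simp only [fp, mem_filter, mem_insert, mem_singleton]

private lemma g10_pair_aux (G : GCtx k ℓ w X' p) (γ : El → ℝ) (hγ : ∀ e ∈ X', |γ e| ≤ 1 / 1000)
    (s : ℕ) {a b : ℕ × ℕ} (ha : a ∈ idx ℓ) (hb : b ∈ idx ℓ) {j : ℕ} (hja : j ∈ fp ℓ a)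
    (hjb : j ∉ fp ℓ b) (e e' : El) :
    (k : ℝ) ^ 2 * ∑ x ∈ (Om k w ℓ s).filter (fun x => Fc a x = e ∧ Fc b x = e'),
        Wt (idx ℓ) Fc X' γ x ≤ 16 * Zf (Om k w ℓ s) (idx ℓ) Fc X' γ := by
  rw [g10_fp] at hja hjb
  obtain ⟨hja1, hj2, hjl⟩ := hja
  have hb1 : j ≠ b.2 := fun h => hjb ⟨Or.inl h, hj2, hjl⟩
  have hb2 : j ≠ b.2 + b.1 := fun h => hjb ⟨Or.inr h, hj2, hjl⟩
  let i : Fin (ℓ + 2) := ⟨j, by omega⟩
  have hk0 : (0 : ℝ) ≤ k := Nat.cast_nonneg k
  have h := site_slot G γ hγ s i hj2 hjl (fun x => if Fc b x = e' then 1 else 0)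
    (fun x _ => by positivity)
    (fun x z => by rw [Fc_update x i z hb1 hb2])
    (fun x => (Apos k w ℓ s i).filter (fun z => Fc a (Function.update x i z) = e))
    (fun x z => by
      apply filter_congr
      intro z' _
      rw [Function.update_idem]) 2
    (fun x _ => two_site x hj2 hjl ha hja1 e)
  have h1 : ∑ x ∈ (Om k w ℓ s).filter (fun x => Fc a x = e ∧ Fc b x = e'),
        Wt (idx ℓ) Fc X' γ x ≤ ∑ x ∈ (Om k w ℓ s).filter (fun x => x i ∈
          (Apos k w ℓ s i).filter (fun z => Fc a (Function.update x i z) = e)),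
        (if Fc b x = e' then (1 : ℝ) else 0) * Wt (idx ℓ) Fc X' γ x := by
    calc ∑ x ∈ (Om k w ℓ s).filter (fun x => Fc a x = e ∧ Fc b x = e'), Wt (idx ℓ) Fc X' γ x
        = ∑ x ∈ (Om k w ℓ s).filter (fun x => Fc a x = e ∧ Fc b x = e'),
          (if Fc b x = e' then (1 : ℝ) else 0) * Wt (idx ℓ) Fc X' γ x := by
          apply sum_congr rfl
          intro x hx
          rw [if_pos (mem_filter.1 hx).2.2, one_mul]
      _ ≤ _ := by
          apply sum_le_sum_of_subset_of_nonneg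
          · intro x hx
            rw [mem_filter] at hx ⊢
            refine ⟨hx.1, ?_⟩
            rw [mem_filter]
            refine ⟨?_, ?_⟩
            · exact Fintype.mem_piFinset.1 hx.1 i
            · rw [Function.update_eq_self]; exact hx.2.1
          · intro x _ _
            apply mul_nonneg
            · split_ifs <;> norm_num
            · exact Wt_nonneg γ x
  have h2 : ∑ x ∈ Om k w ℓ s, (if Fc b x = e' then (1 : ℝ) else 0) * Wt (idx ℓ) Fc X' γ x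
      = Nm (Om k w ℓ s) (idx ℓ) Fc X' γ b e' := by
    unfold Nm
    rw [sum_filter]
    apply sum_congr rfl
    intro x _
    split_ifs <;> simp
  have h3 := Nm_le G γ hγ s hb e'
  rw [h2] at h
  have h4 := mul_le_mul_of_nonneg_left h1 hk0
  have h5 := h4.trans h
  calc (k : ℝ) ^ 2 * ∑ x ∈ (Om k w ℓ s).filter (fun x => Fc a x = e ∧ Fc b x = e'),
        Wt (idx ℓ) Fc X' γ x
      = k * (k * ∑ x ∈ (Om k w ℓ s).filter (fun x => Fc a x = e ∧ Fc b x = e'),
        Wt (idx ℓ) Fc X' γ x) := by ring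
    _ ≤ k * (2 * (2 : ℕ) * Nm (Om k w ℓ s) (idx ℓ) Fc X' γ b e') :=
        mul_le_mul_of_nonneg_left h5 hk0
    _ = 4 * (k * Nm (Om k w ℓ s) (idx ℓ) Fc X' γ b e') := by push_cast; ring
    _ ≤ 4 * (4 * Zf (Om k w ℓ s) (idx ℓ) Fc X' γ) := by linarith
    _ = _ := by ring

private lemma g10_exists {a b : ℕ × ℕ} (hab : fp ℓ a ≠ fp ℓ b) :
    (∃ j, j ∈ fp ℓ a ∧ j ∉ fp ℓ b) ∨ (∃ j, j ∈ fp ℓ b ∧ j ∉ fp ℓ a) := by
  by_contra hcon
  push Not at hcon
  apply hab
  ext j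
  exact ⟨fun h => hcon.1 j h, fun h => hcon.2 j h⟩

/-- generic pairs -/
theorem pair_le (G : GCtx k ℓ w X' p) (γ : El → ℝ) (hγ : ∀ e ∈ X', |γ e| ≤ 1 / 1000)
    (s : ℕ) {a b : ℕ × ℕ} (ha : a ∈ idx ℓ) (hb : b ∈ idx ℓ) (hab : fp ℓ a ≠ fp ℓ b) (e e' : El) :
    (k : ℝ) ^ 2 * ∑ x ∈ (Om k w ℓ s).filter (fun x => Fc a x = e ∧ Fc b x = e'),
        Wt (idx ℓ) Fc X' γ x ≤ 16 * Zf (Om k w ℓ s) (idx ℓ) Fc X' γ := by
  rcases g10_exists hab with ⟨j, h1, h2⟩ | ⟨j, h1, h2⟩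
  · exact g10_pair_aux G γ hγ s ha hb h1 h2 e e'
  · have h := g10_pair_aux G γ hγ s hb ha h1 h2 e' e
    have h3 : (Om k w ℓ s).filter (fun x => Fc b x = e' ∧ Fc a x = e)
        = (Om k w ℓ s).filter (fun x => Fc a x = e ∧ Fc b x = e') := by
      apply filter_congr
      intro x _
      exact and_comm
    rw [h3] at h
    exact h

/-- the unordered special pairs -/
private def g10_SP (ℓ : ℕ) (a b : ℕ × ℕ) : Prop :=
  (a = (0, 2) ∧ b = (1, 1)) ∨ (a = (0, 2) ∧ b = (2, 0)) ∨ (a = (1, 1) ∧ b = (2, 0)) ∨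
  (a = (0, 3) ∧ b = (2, 1)) ∨ (a = (0, ℓ - 1) ∧ b = (1, ℓ - 1)) ∨
  (a = (0, ℓ - 1) ∧ b = (2, ℓ - 1)) ∨ (a = (1, ℓ - 1) ∧ b = (2, ℓ - 1)) ∨
  (a = (0, ℓ - 2) ∧ b = (2, ℓ - 2))

private lemma g10_idx {a : ℕ × ℕ} (ha : a ∈ idx ℓ) :
    a.1 < 3 ∧ a.2 < ℓ ∧ ¬ (a.1 = 0 ∧ a.2 = 0) ∧ ¬ (a.1 = 0 ∧ a.2 = 1) ∧ ¬ (a.1 = 1 ∧ a.2 = 0) := by
  obtain ⟨t, i⟩ := a
  simp only [idx, mem_sdiff, mem_product, mem_range, mem_insert, mem_singleton, Prod.mk.injEq,
    not_or] at ha
  exact ⟨ha.1.1, ha.1.2, ha.2.1, ha.2.2.1, ha.2.2.2⟩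

private lemma g10_c01 (ℓ i i' : ℕ) (hℓ : 20 ≤ ℓ) (h2 : i < ℓ) (h3 : 2 ≤ i) (h2' : i' < ℓ)
    (k1 : 2 ≤ i → i < ℓ → (i = i' ∨ i = i' + 1))
    (k3 : 2 ≤ i' → i' < ℓ → i' = i)
    (k4 : 2 ≤ i' + 1 → i' + 1 < ℓ → i' + 1 = i) : (i = 2 ∧ i' = 1) ∨ (i = ℓ - 1 ∧ i' = ℓ - 1) := by
  omega

private lemma g10_c02 (ℓ i i' : ℕ) (hℓ : 20 ≤ ℓ) (h2 : i < ℓ) (h3 : 2 ≤ i) (h2' : i' < ℓ)
    (k1 : 2 ≤ i → i < ℓ → (i = i' ∨ i = i' + 2))
    (k3 : 2 ≤ i' → i' < ℓ → i' = i)
    (k4 : 2 ≤ i' + 2 → i' + 2 < ℓ → i' + 2 = i) :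
    (i = 2 ∧ i' = 0) ∨ (i = 3 ∧ i' = 1) ∨ (i = ℓ - 1 ∧ i' = ℓ - 1) ∨ (i = ℓ - 2 ∧ i' = ℓ - 2) := by
  omega

private lemma g10_c12 (ℓ i i' : ℕ) (hℓ : 20 ≤ ℓ) (h2 : i < ℓ) (h2' : i' < ℓ) (h3 : i ≠ 0)
    (k1 : 2 ≤ i → i < ℓ → (i = i' ∨ i = i' + 2))
    (k2 : 2 ≤ i + 1 → i + 1 < ℓ → (i + 1 = i' ∨ i + 1 = i' + 2))
    (k3 : 2 ≤ i' → i' < ℓ → (i' = i ∨ i' = i + 1))
    (k4 : 2 ≤ i' + 2 → i' + 2 < ℓ → (i' + 2 = i ∨ i' + 2 = i + 1)) :
    (i = 1 ∧ i' = 0) ∨ (i = ℓ - 1 ∧ i' = ℓ - 1) := by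
  omega

private lemma g10_c11 (ℓ i i' : ℕ) (hℓ : 20 ≤ ℓ) (h2 : i < ℓ) (h2' : i' < ℓ)
    (h3 : i ≠ 0) (h3' : i' ≠ 0)
    (k1 : 2 ≤ i → i < ℓ → (i = i' ∨ i = i' + 1))
    (k2 : 2 ≤ i + 1 → i + 1 < ℓ → (i + 1 = i' ∨ i + 1 = i' + 1))
    (k3 : 2 ≤ i' → i' < ℓ → (i' = i ∨ i' = i + 1))
    (k4 : 2 ≤ i' + 1 → i' + 1 < ℓ → (i' + 1 = i ∨ i' + 1 = i + 1)) : i = i' := by
  omega

private lemma g10_c22 (ℓ i i' : ℕ) (hℓ : 20 ≤ ℓ) (h2 : i < ℓ) (h2' : i' < ℓ)
    (k1 : 2 ≤ i → i < ℓ → (i = i' ∨ i = i' + 2))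
    (k2 : 2 ≤ i + 2 → i + 2 < ℓ → (i + 2 = i' ∨ i + 2 = i' + 2))
    (k3 : 2 ≤ i' → i' < ℓ → (i' = i ∨ i' = i + 2))
    (k4 : 2 ≤ i' + 2 → i' + 2 < ℓ → (i' + 2 = i ∨ i' + 2 = i + 2)) : i = i' := by
  omega

private lemma g10_imp {a b : ℕ × ℕ} (hab : fp ℓ a = fp ℓ b) :
    (2 ≤ a.2 → a.2 < ℓ → (a.2 = b.2 ∨ a.2 = b.2 + b.1)) ∧
    (2 ≤ a.2 + a.1 → a.2 + a.1 < ℓ → (a.2 + a.1 = b.2 ∨ a.2 + a.1 = b.2 + b.1)) := by
  constructor
  · intro h1 h2
    have h : a.2 ∈ fp ℓ a := g10_fp.2 ⟨Or.inl rfl, h1, h2⟩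
    rw [hab] at h
    exact (g10_fp.1 h).1
  · intro h1 h2
    have h : a.2 + a.1 ∈ fp ℓ a := g10_fp.2 ⟨Or.inr rfl, h1, h2⟩
    rw [hab] at h
    exact (g10_fp.1 h).1

private lemma g10_class_aux (hℓ : 20 ≤ ℓ) {a b : ℕ × ℕ} (ha : a ∈ idx ℓ) (hb : b ∈ idx ℓ)
    (hne : a ≠ b) (hab : fp ℓ a = fp ℓ b) (hle : a.1 ≤ b.1) : g10_SP ℓ a b := by
  have ha' := g10_idx ha
  have hb' := g10_idx hb
  obtain ⟨k1, k2⟩ := g10_imp hab
  obtain ⟨k3, k4⟩ := g10_imp hab.symm
  clear hab ha hb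
  obtain ⟨t, i⟩ := a
  obtain ⟨t', i'⟩ := b
  simp only at k1 k2 k3 k4 ha' hb' hle
  obtain ⟨h1, h2, h3, h4, h5⟩ := ha'
  obtain ⟨h1', h2', h3', h4', h5'⟩ := hb'
  have ht : t = 0 ∨ t = 1 ∨ t = 2 := by omega
  have ht' : t' = 0 ∨ t' = 1 ∨ t' = 2 := by omega
  rcases ht with rfl | rfl | rfl <;> rcases ht' with rfl | rfl | rfl
  · exfalso; apply hne
    have h6 : 2 ≤ i := by omega
    rcases k1 h6 h2 with h | h <;> simp_all
  · have h6 : 2 ≤ i := by omega
    rcases g10_c01 ℓ i i' hℓ h2 h6 h2' k1 (fun x y => by simpa using k3 x y)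
      (fun x y => by simpa using k4 x y) with ⟨rfl, rfl⟩ | ⟨rfl, rfl⟩
    · exact Or.inl ⟨rfl, rfl⟩
    · exact Or.inr (Or.inr (Or.inr (Or.inr (Or.inl ⟨rfl, rfl⟩))))
  · have h6 : 2 ≤ i := by omega
    rcases g10_c02 ℓ i i' hℓ h2 h6 h2' k1 (fun x y => by simpa using k3 x y)
      (fun x y => by simpa using k4 x y) with ⟨rfl, rfl⟩ | ⟨rfl, rfl⟩ | ⟨rfl, rfl⟩ | ⟨rfl, rfl⟩
    · exact Or.inr (Or.inl ⟨rfl, rfl⟩)
    · exact Or.inr (Or.inr (Or.inr (Or.inl ⟨rfl, rfl⟩)))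
    · exact Or.inr (Or.inr (Or.inr (Or.inr (Or.inr (Or.inl ⟨rfl, rfl⟩)))))
    · exact Or.inr (Or.inr (Or.inr (Or.inr (Or.inr (Or.inr (Or.inr ⟨rfl, rfl⟩))))))
  · omega
  · exfalso; apply hne
    rw [g10_c11 ℓ i i' hℓ h2 h2' (by omega) (by omega) k1 k2 k3 k4]
  · rcases g10_c12 ℓ i i' hℓ h2 h2' (by omega) k1 k2 k3 k4 with ⟨rfl, rfl⟩ | ⟨rfl, rfl⟩
    · exact Or.inr (Or.inr (Or.inl ⟨rfl, rfl⟩))
    · exact Or.inr (Or.inr (Or.inr (Or.inr (Or.inr (Or.inr (Or.inl ⟨rfl, rfl⟩))))))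
  · omega
  · omega
  · exfalso; apply hne
    rw [g10_c22 ℓ i i' hℓ h2 h2' k1 k2 k3 k4]

private lemma g10_class (hℓ : 20 ≤ ℓ) {a b : ℕ × ℕ} (ha : a ∈ idx ℓ) (hb : b ∈ idx ℓ)
    (hne : a ≠ b) (hab : fp ℓ a = fp ℓ b) : g10_SP ℓ a b ∨ g10_SP ℓ b a := by
  rcases le_total a.1 b.1 with h | h
  · exact Or.inl (g10_class_aux hℓ ha hb hne hab h)
  · exact Or.inr (g10_class_aux hℓ hb ha hne.symm hab.symm h)

/-- there are few pairs of indices with the same free positions -/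
theorem card_special (hℓ : 20 ≤ ℓ) :
    ((idx ℓ ×ˢ idx ℓ).filter (fun q => q.1 ≠ q.2 ∧ fp ℓ q.1 = fp ℓ q.2)).card ≤ 16 := by
  have hsub : (idx ℓ ×ˢ idx ℓ).filter (fun q => q.1 ≠ q.2 ∧ fp ℓ q.1 = fp ℓ q.2) ⊆
      ([((0, 2), (1, 1)), ((0, 2), (2, 0)), ((1, 1), (2, 0)), ((0, 3), (2, 1)),
        ((0, ℓ - 1), (1, ℓ - 1)), ((0, ℓ - 1), (2, ℓ - 1)), ((1, ℓ - 1), (2, ℓ - 1)),
        ((0, ℓ - 2), (2, ℓ - 2)),
        ((1, 1), (0, 2)), ((2, 0), (0, 2)), ((2, 0), (1, 1)), ((2, 1), (0, 3)),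
        ((1, ℓ - 1), (0, ℓ - 1)), ((2, ℓ - 1), (0, ℓ - 1)), ((2, ℓ - 1), (1, ℓ - 1)),
        ((2, ℓ - 2), (0, ℓ - 2))] : List ((ℕ × ℕ) × (ℕ × ℕ))).toFinset := by
    intro q hq
    rw [mem_filter, mem_product] at hq
    obtain ⟨⟨h1, h2⟩, h3, h4⟩ := hq
    obtain ⟨a, b⟩ := q
    simp only at h1 h2 h3 h4
    rw [List.mem_toFinset]
    rcases g10_class hℓ h1 h2 h3 h4 with h | h
    · rcases h with ⟨rfl, rfl⟩ | ⟨rfl, rfl⟩ | ⟨rfl, rfl⟩ | ⟨rfl, rfl⟩ | ⟨rfl, rfl⟩ | ⟨rfl, rfl⟩ |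
        ⟨rfl, rfl⟩ | ⟨rfl, rfl⟩ <;> simp
    · rcases h with ⟨rfl, rfl⟩ | ⟨rfl, rfl⟩ | ⟨rfl, rfl⟩ | ⟨rfl, rfl⟩ | ⟨rfl, rfl⟩ | ⟨rfl, rfl⟩ |
        ⟨rfl, rfl⟩ | ⟨rfl, rfl⟩ <;> simp
  exact (card_le_card hsub).trans ((List.toFinset_card_le _).trans (by simp))

private lemma g10_pos {s : ℕ} {x : Cfg k ℓ} (hx : x ∈ Om k w ℓ s) {i : ℕ} (hi : i < ℓ + 2) :
    ext x i ∈ Apos k w ℓ s ⟨i, hi⟩ := by
  unfold ext
  rw [dif_pos hi]
  exact Fintype.mem_piFinset.1 hx _

private lemma g10_x0 {s : ℕ} {x : Cfg k ℓ} (hx : x ∈ Om k w ℓ s) : ext x 0 = PA k s := by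
  have h := g10_pos hx (i := 0) (by omega)
  simpa [Apos] using h

private lemma g10_x1 {s : ℕ} {x : Cfg k ℓ} (hx : x ∈ Om k w ℓ s) : ext x 1 = PC k s := by
  have h := g10_pos hx (i := 1) (by omega)
  simpa [Apos] using h

private lemma g10_xl (hℓ : 20 ≤ ℓ) {s : ℕ} {x : Cfg k ℓ} (hx : x ∈ Om k w ℓ s) :
    ext x ℓ = PA k (s + 1) := by
  have h := g10_pos hx (i := ℓ) (by omega)
  have h0 : ℓ ≠ 0 := by omega
  have h1 : ℓ ≠ 1 := by omega
  simpa [Apos, h0, h1] using h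

private lemma g10_xl1 (hℓ : 20 ≤ ℓ) {s : ℕ} {x : Cfg k ℓ} (hx : x ∈ Om k w ℓ s) :
    ext x (ℓ + 1) = PC k (s + 1) := by
  have h := g10_pos hx (i := ℓ + 1) (by omega)
  have h0 : ℓ ≠ 0 := by omega
  simpa [Apos, h0] using h

private lemma g10_inj (m : ℕ) (c d : ℕ) (hc : 0 < c) (h : c * m + d < 2 * k) :
    Set.InjOn (fun s : ℕ => ((c * s + d : ℕ) : ZMod (2 * k))) (range m : Set ℕ) := by
  intro s hs t ht hst
  simp only [coe_range, Set.mem_Iio] at hs ht
  simp only at hst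
  have h1 : c * s ≤ c * m := Nat.mul_le_mul_left c (by omega)
  have h2 : c * t ≤ c * m := Nat.mul_le_mul_left c (by omega)
  rw [ZMod.natCast_eq_natCast_iff, Nat.ModEq, Nat.mod_eq_of_lt (by omega),
    Nat.mod_eq_of_lt (by omega)] at hst
  have h3 : c * s = c * t := by omega
  exact Nat.eq_of_mul_eq_mul_left hc h3

private lemma g10_cs (i : Bool) (a b : ZMod (2 * k)) :
    col ((i, a) : Pt k) ((i, b) : Pt k) = El.p i (dst (a - b)) :=
  col_same (P := ((i, a) : Pt k)) (Q := ((i, b) : Pt k)) rfl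

private lemma g10_cx (a b : ZMod (2 * k)) :
    col ((false, a) : Pt k) ((true, b) : Pt k) = El.x (b - a).val :=
  col_cross (P := ((false, a) : Pt k)) (Q := ((true, b) : Pt k)) rfl rfl

private lemma g10_ce (i : Bool) (a b : ZMod (2 * k)) (z : Pt k)
    (h : col ((i, a) : Pt k) z = col ((i, b) : Pt k) z) : a = b ∨ a = z.2 + z.2 - b :=
  m3_col_eq (z := ((i, a) : Pt k)) (z0 := ((i, b) : Pt k)) (P := z) rfl h

private lemma g10_card4 (m c d : ℕ) (hc : 0 < c) (h : c * m + d < 2 * k) (S : Finset ℕ)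
    (hS : S ⊆ range m)
    (hf : ∀ s0 ∈ S, ∃ v : Fin 4 → ZMod (2 * k), ∀ s ∈ S,
      ∃ j, ((c * s + d : ℕ) : ZMod (2 * k)) = v j) : S.card ≤ 4 := by
  rcases S.eq_empty_or_nonempty with h0 | ⟨s0, hs0⟩
  · rw [h0]; simp
  · obtain ⟨v, hv⟩ := hf s0 hs0
    have h1 : S.card ≤ (univ.image v).card := by
      apply card_le_card_of_injOn (fun s : ℕ => ((c * s + d : ℕ) : ZMod (2 * k)))
      · intro s hs
        obtain ⟨j, hj⟩ := hv s hs
        simp only [coe_image, coe_univ, Set.image_univ, Set.mem_range]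
        exact ⟨j, hj.symm⟩
      · intro s hs t ht
        exact g10_inj m c d hc h (hS hs) (hS ht)
    exact h1.trans (card_image_le.trans (by simp))

/-- vertex of the free point prescribed, and its colour with a port -/
private lemma g10_slotV (m c d : ℕ) (i : Bool) (hc : 0 < c) (h : c * m + d < 2 * k)
    (S : Finset ℕ) (hS : S ⊆ range m) (e e' : El)
    (hE : ∀ s ∈ S, ∃ z : Pt k, vtx z = e ∧
      col z ((i, ((c * s + d : ℕ) : ZMod (2 * k))) : Pt k) = e') : S.card ≤ 4 := by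
  apply g10_card4 m c d hc h S hS
  intro s0 hs0
  obtain ⟨z0, h1, h2⟩ := hE s0 hs0
  refine ⟨![((c * s0 + d : ℕ) : ZMod (2 * k)), z0.2 + z0.2 - ((c * s0 + d : ℕ) : ZMod (2 * k)),
    ((c * s0 + d : ℕ) : ZMod (2 * k)) + k,
    z0.2 + z0.2 + k - ((c * s0 + d : ℕ) : ZMod (2 * k))], ?_⟩
  intro s hs
  obtain ⟨z, h3, h4⟩ := hE s hs
  have h5 := (vtx_eq_iff z z0).1 (h3.trans h1.symm)
  obtain ⟨h6, h7⟩ := h5
  rcases h7 with h7 | h7
  · have hz : z = z0 := Prod.ext h6 h7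
    subst hz
    have h8 : col ((i, ((c * s + d : ℕ) : ZMod (2 * k))) : Pt k) z =
        col ((i, ((c * s0 + d : ℕ) : ZMod (2 * k))) : Pt k) z := by
      rw [col_comm, h4, ← h2, col_comm]
    rcases g10_ce _ _ _ _ h8 with h9 | h9
    · exact ⟨0, h9⟩
    · exact ⟨1, h9⟩
  · have h8 : col ((i, ((c * s + d : ℕ) : ZMod (2 * k))) : Pt k) z =
        col ((i, ((c * s0 + d : ℕ) : ZMod (2 * k)) + k) : Pt k) z := by
      rw [col_comm, h4, ← h2]
      have h10 := m4_col_shift (k := k) (i, ((c * s0 + d : ℕ) : ZMod (2 * k))) z0 z h6.symm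
      rw [h7] at h10
      rw [col_comm, ← h10]
      congr 2
      ring
    rcases g10_ce _ _ _ _ h8 with h9 | h9
    · exact ⟨2, h9⟩
    · refine ⟨3, ?_⟩
      rw [h9, h7]
      have hkk : (k : ZMod (2 * k)) + k = 0 := by
        have h11 : (((2 * k : ℕ)) : ZMod (2 * k)) = 0 := ZMod.natCast_self _
        push_cast at h11
        linear_combination h11
      show z0.2 + ↑k + (z0.2 + ↑k) - (((c * s0 + d : ℕ) : ZMod (2 * k)) + ↑k) =
        z0.2 + z0.2 + k - ((c * s0 + d : ℕ) : ZMod (2 * k))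
      ring

/-- the colours of a free point with the two points of a port are prescribed -/
private lemma g10_slotC (m c d c' d' : ℕ) (hc : 0 < c) (h : c * m + d < 2 * k)
    (hcc : ∀ s : ℕ, ((c' * s + d' : ℕ) : ZMod (2 * k)) = 2 * ((c * s + d : ℕ) : ZMod (2 * k)))
    (S : Finset ℕ) (hS : S ⊆ range m) (e e' : El)
    (hE : ∀ s ∈ S, ∃ z : Pt k, col z ((true, ((c' * s + d' : ℕ) : ZMod (2 * k))) : Pt k) = e ∧
      col z ((false, ((c * s + d : ℕ) : ZMod (2 * k))) : Pt k) = e') : S.card ≤ 4 := by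
  apply g10_card4 m c d hc h S hS
  intro s0 hs0
  obtain ⟨z0, h1, h2⟩ := hE s0 hs0
  rw [hcc] at h1
  obtain ⟨t, ζ⟩ := z0
  have hinj : ∀ a b : ZMod (2 * k), a.val = b.val → a = b := by
    have : NeZero (2 * k) := ⟨by have := NeZero.ne k; omega⟩
    exact fun a b hab => ZMod.val_injective _ hab
  cases t with
  | false =>
    refine ⟨![(2 * ((c * s0 + d : ℕ) : ZMod (2 * k)) - ζ) - (((c * s0 + d : ℕ) : ZMod (2 * k)) - ζ),
      (2 * ((c * s0 + d : ℕ) : ZMod (2 * k)) - ζ) + (((c * s0 + d : ℕ) : ZMod (2 * k)) - ζ),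
      0, 0], ?_⟩
    intro s hs
    obtain ⟨⟨t', ζ'⟩, h3, h4⟩ := hE s hs
    rw [hcc] at h3
    cases t' with
    | true =>
      exfalso
      rw [g10_cx] at h1
      rw [g10_cs, ← h1] at h3
      cases h3
    | false =>
      rw [g10_cx] at h1 h3
      rw [g10_cs] at h2 h4
      rw [← h1] at h3
      rw [← h2] at h4
      injection h3 with h3
      injection h4 with _ h4
      have h5 := hinj _ _ h3
      rcases (dst_eq_iff _ _).1 h4 with h6 | h6
      · refine ⟨0, ?_⟩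
        show _ = (2 * ((c * s0 + d : ℕ) : ZMod (2 * k)) - ζ) - (((c * s0 + d : ℕ) : ZMod (2 * k)) - ζ)
        linear_combination h5 + h6
      · refine ⟨1, ?_⟩
        show _ = (2 * ((c * s0 + d : ℕ) : ZMod (2 * k)) - ζ) + (((c * s0 + d : ℕ) : ZMod (2 * k)) - ζ)
        linear_combination h5 + h6
  | true =>
    refine ⟨![(2 * ((c * s0 + d : ℕ) : ZMod (2 * k)) - ζ) - (((c * s0 + d : ℕ) : ZMod (2 * k)) - ζ),
      - (2 * ((c * s0 + d : ℕ) : ZMod (2 * k)) - ζ) - (((c * s0 + d : ℕ) : ZMod (2 * k)) - ζ),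
      0, 0], ?_⟩
    intro s hs
    obtain ⟨⟨t', ζ'⟩, h3, h4⟩ := hE s hs
    rw [hcc] at h3
    cases t' with
    | false =>
      exfalso
      rw [g10_cs] at h1
      rw [g10_cx, ← h1] at h3
      cases h3
    | true =>
      rw [g10_cs] at h1 h3
      rw [col_comm, g10_cx] at h2 h4
      rw [← h1] at h3
      rw [← h2] at h4
      injection h3 with _ h3
      injection h4 with h4
      have h5 := hinj _ _ h4
      rcases (dst_eq_iff _ _).1 h3 with h6 | h6
      · refine ⟨0, ?_⟩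
        show _ = (2 * ((c * s0 + d : ℕ) : ZMod (2 * k)) - ζ) - (((c * s0 + d : ℕ) : ZMod (2 * k)) - ζ)
        linear_combination (-1 : ZMod (2 * k)) * h6 + h5
      · refine ⟨1, ?_⟩
        show _ = - (2 * ((c * s0 + d : ℕ) : ZMod (2 * k)) - ζ) - (((c * s0 + d : ℕ) : ZMod (2 * k)) - ζ)
        linear_combination (-1 : ZMod (2 * k)) * h6 + h5

private lemma g10_cast2 (s : ℕ) :
    ((4 * s + 0 : ℕ) : ZMod (2 * k)) = 2 * ((2 * s + 0 : ℕ) : ZMod (2 * k)) := by
  push_cast; ring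

private lemma g10_cast2' (s : ℕ) :
    ((4 * s + 4 : ℕ) : ZMod (2 * k)) = 2 * ((2 * s + 2 : ℕ) : ZMod (2 * k)) := by
  push_cast; ring

open Classical in
private lemma g10_slots_aux (hℓ : 20 ≤ ℓ) (m : ℕ) (hm : 4 * (m + 1) < k) {a b : ℕ × ℕ}
    (hab : g10_SP ℓ a b) (e e' : El) :
    ((range m).filter (fun s => ∃ x ∈ Om k w ℓ s, Fc a x = e ∧ Fc b x = e')).card ≤ 4 := by
  have l1 : ℓ - 1 + 1 = ℓ := by omega
  have l2 : ℓ - 1 + 2 = ℓ + 1 := by omega
  have l3 : ℓ - 2 + 2 = ℓ := by omega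
  rcases hab with ⟨rfl, rfl⟩ | ⟨rfl, rfl⟩ | ⟨rfl, rfl⟩ | ⟨rfl, rfl⟩ | ⟨rfl, rfl⟩ | ⟨rfl, rfl⟩ |
    ⟨rfl, rfl⟩ | ⟨rfl, rfl⟩
  · refine g10_slotV (k := k) m 4 0 true (by norm_num) (by omega) _ (filter_subset _ _) e e' ?_
    intro s hs
    obtain ⟨_, x, hx, h1, h2⟩ := mem_filter.1 hs
    refine ⟨ext x 2, h1, ?_⟩
    rw [← h2]
    show col (ext x 2) (PC k s) = col (ext x 1) (ext x 2)
    rw [g10_x1 hx, col_comm]
  · refine g10_slotV (k := k) m 2 0 false (by norm_num) (by omega) _ (filter_subset _ _) e e' ?_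
    intro s hs
    obtain ⟨_, x, hx, h1, h2⟩ := mem_filter.1 hs
    refine ⟨ext x 2, h1, ?_⟩
    rw [← h2]
    show col (ext x 2) (PA k s) = col (ext x 0) (ext x 2)
    rw [g10_x0 hx, col_comm]
  · refine g10_slotC (k := k) m 2 0 4 0 (by norm_num) (by omega) g10_cast2 _ (filter_subset _ _) e e' ?_
    intro s hs
    obtain ⟨_, x, hx, h1, h2⟩ := mem_filter.1 hs
    refine ⟨ext x 2, ?_, ?_⟩
    · rw [← h1]
      show col (ext x 2) (PC k s) = col (ext x 1) (ext x 2)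
      rw [g10_x1 hx, col_comm]
    · rw [← h2]
      show col (ext x 2) (PA k s) = col (ext x 0) (ext x 2)
      rw [g10_x0 hx, col_comm]
  · refine g10_slotV (k := k) m 4 0 true (by norm_num) (by omega) _ (filter_subset _ _) e e' ?_
    intro s hs
    obtain ⟨_, x, hx, h1, h2⟩ := mem_filter.1 hs
    refine ⟨ext x 3, h1, ?_⟩
    rw [← h2]
    show col (ext x 3) (PC k s) = col (ext x 1) (ext x 3)
    rw [g10_x1 hx, col_comm]
  · refine g10_slotV (k := k) m 2 2 false (by norm_num) (by omega) _ (filter_subset _ _) e e' ?_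
    intro s hs
    obtain ⟨_, x, hx, h1, h2⟩ := mem_filter.1 hs
    refine ⟨ext x (ℓ - 1), h1, ?_⟩
    rw [← h2]
    show col (ext x (ℓ - 1)) (PA k (s + 1)) = col (ext x (ℓ - 1)) (ext x (ℓ - 1 + 1))
    rw [l1, g10_xl hℓ hx]
  · refine g10_slotV (k := k) m 4 4 true (by norm_num) (by omega) _ (filter_subset _ _) e e' ?_
    intro s hs
    obtain ⟨_, x, hx, h1, h2⟩ := mem_filter.1 hs
    refine ⟨ext x (ℓ - 1), h1, ?_⟩
    rw [← h2]
    show col (ext x (ℓ - 1)) (PC k (s + 1)) = col (ext x (ℓ - 1)) (ext x (ℓ - 1 + 2))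
    rw [l2, g10_xl1 hℓ hx]
  · refine g10_slotC (k := k) m 2 2 4 4 (by norm_num) (by omega) g10_cast2' _ (filter_subset _ _) e' e ?_
    intro s hs
    obtain ⟨_, x, hx, h1, h2⟩ := mem_filter.1 hs
    refine ⟨ext x (ℓ - 1), ?_, ?_⟩
    · rw [← h2]
      show col (ext x (ℓ - 1)) (PC k (s + 1)) = col (ext x (ℓ - 1)) (ext x (ℓ - 1 + 2))
      rw [l2, g10_xl1 hℓ hx]
    · rw [← h1]
      show col (ext x (ℓ - 1)) (PA k (s + 1)) = col (ext x (ℓ - 1)) (ext x (ℓ - 1 + 1))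
      rw [l1, g10_xl hℓ hx]
  · refine g10_slotV (k := k) m 2 2 false (by norm_num) (by omega) _ (filter_subset _ _) e e' ?_
    intro s hs
    obtain ⟨_, x, hx, h1, h2⟩ := mem_filter.1 hs
    refine ⟨ext x (ℓ - 2), h1, ?_⟩
    rw [← h2]
    show col (ext x (ℓ - 2)) (PA k (s + 1)) = col (ext x (ℓ - 2)) (ext x (ℓ - 2 + 2))
    rw [l3, g10_xl hℓ hx]

open Classical in
/-- for such pairs only four slots can realize prescribed elements -/
theorem slots_special (hℓ : 20 ≤ ℓ) (m : ℕ) (hm : 4 * (m + 1) < k) {a b : ℕ × ℕ}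
    (ha : a ∈ idx ℓ) (hb : b ∈ idx ℓ) (hne : a ≠ b) (hab : fp ℓ a = fp ℓ b) (e e' : El) :
    ((range m).filter (fun s => ∃ x ∈ Om k w ℓ s, Fc a x = e ∧ Fc b x = e')).card ≤ 4 := by
  rcases g10_class hℓ ha hb hne hab with h | h
  · exact g10_slots_aux hℓ m hm h e e'
  · have h1 := g10_slots_aux (w := w) hℓ m hm h e' e
    have h2 : (range m).filter (fun s => ∃ x ∈ Om k w ℓ s, Fc b x = e' ∧ Fc a x = e)
        = (range m).filter (fun s => ∃ x ∈ Om k w ℓ s, Fc a x = e ∧ Fc b x = e') := by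
      apply filter_congr
      intro s _
      constructor
      · rintro ⟨x, hx, h3, h4⟩; exact ⟨x, hx, h4, h3⟩
      · rintro ⟨x, hx, h3, h4⟩; exact ⟨x, hx, h4, h3⟩
    rw [h2] at h1
    exact h1

private lemma g10_vc (P Q R : Pt k) : vtx P ≠ col Q R := by
  unfold vtx col
  split_ifs <;> simp

private lemma g10_ne (z : Pt k) (a b : ZMod (2 * k)) :
    col z ((true, a) : Pt k) ≠ col z ((false, b) : Pt k) := by
  obtain ⟨t, ζ⟩ := z
  cases t with
  | false => rw [g10_cx, g10_cs]; simp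
  | true => rw [g10_cs, col_comm, g10_cx]; simp

private lemma g10_coin_sp (hℓ : 20 ≤ ℓ) {s : ℕ} {x : Cfg k ℓ} (hx : x ∈ Om k w ℓ s)
    {a b : ℕ × ℕ} (hab : g10_SP ℓ a b) : Fc a x ≠ Fc b x := by
  have l1 : ℓ - 1 + 1 = ℓ := by omega
  have l2 : ℓ - 1 + 2 = ℓ + 1 := by omega
  rcases hab with ⟨rfl, rfl⟩ | ⟨rfl, rfl⟩ | ⟨rfl, rfl⟩ | ⟨rfl, rfl⟩ | ⟨rfl, rfl⟩ | ⟨rfl, rfl⟩ |
    ⟨rfl, rfl⟩ | ⟨rfl, rfl⟩
  · exact g10_vc _ _ _
  · exact g10_vc _ _ _
  · show col (ext x 1) (ext x 2) ≠ col (ext x 0) (ext x 2)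
    rw [g10_x1 hx, g10_x0 hx, col_comm (PC k s), col_comm (PA k s)]
    exact g10_ne _ _ _
  · exact g10_vc _ _ _
  · exact g10_vc _ _ _
  · exact g10_vc _ _ _
  · show col (ext x (ℓ - 1)) (ext x (ℓ - 1 + 1)) ≠ col (ext x (ℓ - 1)) (ext x (ℓ - 1 + 2))
    rw [l1, l2, g10_xl hℓ hx, g10_xl1 hℓ hx]
    exact (g10_ne _ _ _).symm
  · exact g10_vc _ _ _

private lemma g10_coin_aux (G : GCtx k ℓ w X' p) (γ : El → ℝ) (hγ : ∀ e ∈ X', |γ e| ≤ 1 / 1000)
    (s : ℕ) {a b : ℕ × ℕ} (ha : a ∈ idx ℓ) {j : ℕ} (hja : j ∈ fp ℓ a) (hjb : j ∉ fp ℓ b) :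
    (k : ℝ) * ∑ x ∈ (Om k w ℓ s).filter (fun x => Fc a x = Fc b x), Wt (idx ℓ) Fc X' γ x
      ≤ 4 * Zf (Om k w ℓ s) (idx ℓ) Fc X' γ := by
  rw [g10_fp] at hja hjb
  obtain ⟨hja1, hj2, hjl⟩ := hja
  have hb1 : j ≠ b.2 := fun h => hjb ⟨Or.inl h, hj2, hjl⟩
  have hb2 : j ≠ b.2 + b.1 := fun h => hjb ⟨Or.inr h, hj2, hjl⟩
  let i : Fin (ℓ + 2) := ⟨j, by omega⟩
  have hk0 : (0 : ℝ) ≤ k := Nat.cast_nonneg k
  have h := site_slot G γ hγ s i hj2 hjl (fun _ => 1)
    (fun x _ => zero_le_one) (fun x z => rfl)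
    (fun x => (Apos k w ℓ s i).filter (fun z => Fc a (Function.update x i z) = Fc b x))
    (fun x z => by
      apply filter_congr
      intro z' _
      rw [Function.update_idem, Fc_update x i z hb1 hb2]) 2
    (fun x _ => two_site x hj2 hjl ha hja1 (Fc b x))
  have h1 : ∑ x ∈ (Om k w ℓ s).filter (fun x => Fc a x = Fc b x), Wt (idx ℓ) Fc X' γ x ≤
      ∑ x ∈ (Om k w ℓ s).filter (fun x => x i ∈
          (Apos k w ℓ s i).filter (fun z => Fc a (Function.update x i z) = Fc b x)),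
        (1 : ℝ) * Wt (idx ℓ) Fc X' γ x := by
    simp only [one_mul]
    apply sum_le_sum_of_subset_of_nonneg
    · intro x hx
      rw [mem_filter] at hx ⊢
      refine ⟨hx.1, ?_⟩
      rw [mem_filter]
      refine ⟨?_, ?_⟩
      · exact Fintype.mem_piFinset.1 hx.1 i
      · rw [Function.update_eq_self]; exact hx.2
    · intro x _ _
      exact Wt_nonneg γ x
  have h4 := (mul_le_mul_of_nonneg_left h1 hk0).trans h
  simp only [one_mul] at h4
  refine h4.trans (le_of_eq ?_)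
  unfold Zf
  norm_num

/-- coincidences -/
theorem coincide_le (G : GCtx k ℓ w X' p) (γ : El → ℝ) (hγ : ∀ e ∈ X', |γ e| ≤ 1 / 1000)
    (s : ℕ) {a b : ℕ × ℕ} (ha : a ∈ idx ℓ) (hb : b ∈ idx ℓ) (hne : a ≠ b) :
    (k : ℝ) * ∑ x ∈ (Om k w ℓ s).filter (fun x => Fc a x = Fc b x), Wt (idx ℓ) Fc X' γ x
      ≤ 4 * Zf (Om k w ℓ s) (idx ℓ) Fc X' γ := by
  by_cases hab : fp ℓ a = fp ℓ b
  · have hem : (Om k w ℓ s).filter (fun x => Fc a x = Fc b x) = ∅ := by
      apply filter_eq_empty_iff.2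
      intro x hx
      rcases g10_class G.hℓ ha hb hne hab with h | h
      · exact g10_coin_sp G.hℓ hx h
      · exact (g10_coin_sp G.hℓ hx h).symm
    rw [hem, sum_empty, mul_zero]
    have h0 : 0 ≤ Zf (Om k w ℓ s) (idx ℓ) Fc X' γ := sum_nonneg (fun x _ => Wt_nonneg γ x)
    linarith
  · rcases g10_exists hab with ⟨j, h1, h2⟩ | ⟨j, h1, h2⟩
    · exact g10_coin_aux G γ hγ s ha h1 h2
    · have h := g10_coin_aux G γ hγ s hb h1 h2
      have h3 : (Om k w ℓ s).filter (fun x => Fc b x = Fc a x)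
          = (Om k w ℓ s).filter (fun x => Fc a x = Fc b x) := by
        apply filter_congr
        intro x _
        exact eq_comm
      rw [h3] at h
      exact h

end SqCyc
end

section

/-! # CT-1 class sizes -/

set_option linter.unusedSimpArgs false

open Finset

namespace SqCyc

private lemma ct1_cnt (m : ℕ) (e : Bool) :
    ((range m).filter (fun n => n.bodd = e)).card = if e then m / 2 else (m + 1) / 2 := by
  induction m with
  | zero => cases e <;> simp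
  | succ m ih =>
    rw [Finset.range_add_one, Finset.filter_insert]
    have h := Nat.mod_two_of_bodd m
    have hm : m ∉ (range m).filter (fun n => n.bodd = e) := by simp
    cases hb : m.bodd <;> cases e <;> rw [hb] at h <;>
      simp only [Bool.toNat_false, Bool.toNat_true] at h <;>
      simp only [reduceCtorEq, if_true, if_false, Bool.false_eq_true] at ih ⊢
    · rw [Finset.card_insert_of_notMem hm, ih]; omega
    · rw [ih]; omega
    · rw [ih]; omega
    · rw [Finset.card_insert_of_notMem hm, ih]; omega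

private lemma ct1_cntI (k : ℕ) (hk : 1 ≤ k) (e : Bool) :
    ((Ico 1 k).filter (fun n => n.bodd = e)).card = if e then k / 2 else (k - 1) / 2 := by
  have h1 := ct1_cnt k e
  have h2 : range k = insert 0 (Ico 1 k) := by
    ext x
    simp only [mem_range, mem_insert, mem_Ico]
    omega
  rw [h2, Finset.filter_insert] at h1
  have h3 : (0 : ℕ) ∉ (Ico 1 k).filter (fun n => n.bodd = e) := by simp
  cases e
  · simp only [Nat.bodd_zero, if_true, Bool.false_eq_true, if_false] at h1 ⊢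
    rw [Finset.card_insert_of_notMem h3] at h1
    omega
  · simp only [Nat.bodd_zero, Bool.false_eq_true, if_true, if_false] at h1 ⊢
    exact h1

private lemma ct1_U (k : ℕ) (c : Cls) :
    ((U k).filter (fun e => clsEl k e = c)).card =
      (((univ : Finset Bool) ×ˢ range k).filter
        (fun q : Bool × ℕ => clsEl k (El.v q.1 q.2) = c)).card +
      (((univ : Finset Bool) ×ˢ Ico 1 k).filter
        (fun q : Bool × ℕ => clsEl k (El.p q.1 q.2) = c)).card +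
      ((range (2 * k)).filter (fun d => clsEl k (El.x d) = c)).card := by
  unfold U
  rw [Finset.filter_union, Finset.filter_union, Finset.card_union_of_disjoint,
    Finset.card_union_of_disjoint, Finset.filter_image, Finset.filter_image, Finset.filter_image,
    Finset.card_image_of_injective, Finset.card_image_of_injective, Finset.card_image_of_injective]
  · intro a b h; exact El.x.inj h
  · rintro ⟨a, b⟩ ⟨a', b'⟩ h
    have := El.p.inj h
    simp only at this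
    rw [this.1, this.2]
  · rintro ⟨a, b⟩ ⟨a', b'⟩ h
    have := El.v.inj h
    simp only at this
    rw [this.1, this.2]
  · apply Finset.disjoint_filter_filter
    rw [Finset.disjoint_left]
    intro x hx hx'
    simp only [mem_image] at hx hx'
    obtain ⟨q, -, rfl⟩ := hx
    obtain ⟨q', -, h⟩ := hx'
    exact El.noConfusion h
  · rw [← Finset.filter_union]
    apply Finset.disjoint_filter_filter
    rw [Finset.disjoint_left]
    intro x hx hx'
    simp only [mem_union, mem_image] at hx hx'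
    obtain ⟨q', -, h⟩ := hx'
    rcases hx with ⟨q, -, rfl⟩ | ⟨q, -, rfl⟩
    · exact El.noConfusion h
    · exact El.noConfusion h

private lemma ct1_prod (s : Finset ℕ) (i : Bool) (p : ℕ → Prop) [DecidablePred p] :
    (((univ : Finset Bool) ×ˢ s).filter (fun q : Bool × ℕ => q.1 = i ∧ p q.2)).card =
      (s.filter p).card := by
  have h : ((univ : Finset Bool) ×ˢ s).filter (fun q : Bool × ℕ => q.1 = i ∧ p q.2) =
      {i} ×ˢ (s.filter p) := by
    ext ⟨a, b⟩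
    simp only [mem_filter, mem_product, mem_univ, true_and, mem_singleton]
    tauto
  rw [h, Finset.card_product, Finset.card_singleton, one_mul]

theorem card_U_cls (k : ℕ) (hk : 1 ≤ k) (c : Cls) :
    ((U k).filter (fun e => clsEl k e = c)).card = (match c with
      | Cls.V _ e => if k.bodd then (if e then 0 else k) else k / 2
      | Cls.P _ e => if e then k / 2 else (k - 1) / 2
      | Cls.X _ => k) := by
  rw [ct1_U]
  have hk2 := Nat.mod_two_of_bodd k
  cases c with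
  | V i e =>
    have h2 : ((univ : Finset Bool) ×ˢ Ico 1 k).filter
        (fun q : Bool × ℕ => clsEl k (El.p q.1 q.2) = Cls.V i e) = ∅ := by
      apply Finset.filter_eq_empty_iff.2
      intro q _ h
      exact Cls.noConfusion h
    have h3 : (range (2 * k)).filter (fun d => clsEl k (El.x d) = Cls.V i e) = ∅ := by
      apply Finset.filter_eq_empty_iff.2
      intro q _ h
      exact Cls.noConfusion h
    rw [h2, h3]
    simp only [card_empty, add_zero]
    by_cases hb : k.bodd = true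
    · rw [if_pos hb]
      have h4 : ((univ : Finset Bool) ×ˢ range k).filter
          (fun q : Bool × ℕ => clsEl k (El.v q.1 q.2) = Cls.V i e) =
          ((univ : Finset Bool) ×ˢ range k).filter (fun q : Bool × ℕ => q.1 = i ∧ e = false) := by
        apply Finset.filter_congr
        intro q _
        simp only [clsEl, hb, if_true, Cls.V.injEq]
        constructor
        · rintro ⟨h, h'⟩; exact ⟨h, h'.symm⟩
        · rintro ⟨h, h'⟩; exact ⟨h, h'.symm⟩
      rw [h4, ct1_prod (range k) i (fun _ => e = false)]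
      cases e <;> simp
    · have hb' : k.bodd = false := by simpa using hb
      rw [if_neg hb]
      have h4 : ((univ : Finset Bool) ×ˢ range k).filter
          (fun q : Bool × ℕ => clsEl k (El.v q.1 q.2) = Cls.V i e) =
          ((univ : Finset Bool) ×ˢ range k).filter (fun q : Bool × ℕ => q.1 = i ∧ q.2.bodd = e) := by
        apply Finset.filter_congr
        intro q _
        simp only [clsEl, hb', Bool.false_eq_true, if_false, Cls.V.injEq]
      rw [h4, ct1_prod (range k) i (fun n => n.bodd = e), ct1_cnt]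
      rw [hb', Bool.toNat_false] at hk2
      cases e
      · simp only [Bool.false_eq_true, if_false]; omega
      · simp
  | P i e =>
    have h2 : ((univ : Finset Bool) ×ˢ range k).filter
        (fun q : Bool × ℕ => clsEl k (El.v q.1 q.2) = Cls.P i e) = ∅ := by
      apply Finset.filter_eq_empty_iff.2
      intro q _ h
      simp only [clsEl] at h
      split_ifs at h
    have h3 : (range (2 * k)).filter (fun d => clsEl k (El.x d) = Cls.P i e) = ∅ := by
      apply Finset.filter_eq_empty_iff.2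
      intro q _ h
      exact Cls.noConfusion h
    rw [h2, h3]
    simp only [card_empty, add_zero, zero_add]
    have h4 : ((univ : Finset Bool) ×ˢ Ico 1 k).filter
        (fun q : Bool × ℕ => clsEl k (El.p q.1 q.2) = Cls.P i e) =
        ((univ : Finset Bool) ×ˢ Ico 1 k).filter (fun q : Bool × ℕ => q.1 = i ∧ q.2.bodd = e) := by
      apply Finset.filter_congr
      intro q _
      simp only [clsEl, Cls.P.injEq]
    rw [h4, ct1_prod (Ico 1 k) i (fun n => n.bodd = e), ct1_cntI k hk]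
  | X e =>
    have h2 : ((univ : Finset Bool) ×ˢ range k).filter
        (fun q : Bool × ℕ => clsEl k (El.v q.1 q.2) = Cls.X e) = ∅ := by
      apply Finset.filter_eq_empty_iff.2
      intro q _ h
      simp only [clsEl] at h
      split_ifs at h
    have h3 : ((univ : Finset Bool) ×ˢ Ico 1 k).filter
        (fun q : Bool × ℕ => clsEl k (El.p q.1 q.2) = Cls.X e) = ∅ := by
      apply Finset.filter_eq_empty_iff.2
      intro q _ h
      exact Cls.noConfusion h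
    rw [h2, h3]
    simp only [card_empty, zero_add]
    have h4 : (range (2 * k)).filter (fun d => clsEl k (El.x d) = Cls.X e) =
        (range (2 * k)).filter (fun n => n.bodd = e) := by
      apply Finset.filter_congr
      intro q _
      simp only [clsEl, Cls.X.injEq]
    rw [h4, ct1_cnt]
    cases e
    · simp only [Bool.false_eq_true, if_false]; omega
    · simp

theorem bcnt_eq_hcls (k : ℕ) (w : ℕ → Letter) (n : ℕ) (hn : 2 ≤ n) (w0 : w 0 = LA)
    (w1 : w 1 = LC) (c : Cls) :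
    bcnt k w n c = hcls k w n c + (if c = clsV k LA then 1 else 0) +
      (if c = clsV k LC then 1 else 0) + (if c = Cls.X false then 1 else 0) := by
  unfold bcnt hcls idx
  rw [Finset.card_filter, Finset.card_filter]
  have hsub : ({(0, 0), (0, 1), (1, 0)} : Finset (ℕ × ℕ)) ⊆ range 3 ×ˢ range n := by
    intro b hb
    simp only [mem_insert, mem_singleton] at hb
    rw [mem_product, mem_range, mem_range]
    rcases hb with rfl | rfl | rfl <;> simp <;> omega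
  rw [← Finset.sum_sdiff hsub]
  have h3 : ∑ b ∈ ({(0, 0), (0, 1), (1, 0)} : Finset (ℕ × ℕ)),
      (if clsB k w b = c then 1 else 0) =
      (if c = clsV k LA then 1 else 0) + ((if c = clsV k LC then 1 else 0) +
        (if c = Cls.X false then 1 else 0)) := by
    rw [Finset.sum_insert (by simp), Finset.sum_insert (by simp), Finset.sum_singleton]
    have e0 : clsB k w (0, 0) = clsV k LA := by simp [clsB, w0]
    have e1 : clsB k w (0, 1) = clsV k LC := by simp [clsB, w1]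
    have e2 : clsB k w (1, 0) = Cls.X false := by simp [clsB, w0, w1, clsC]
    rw [e0, e1, e2]
    simp only [eq_comm (b := c)]
  rw [h3]
  ring

private lemma ct1_pa (k : ℕ) [NeZero k] {s : ℕ} (hs : 2 * s < k) :
    vtx (PA k s) = El.v false (2 * s) := by
  unfold vtx PA
  simp only
  rw [ZMod.val_cast_of_lt (by omega), Nat.mod_eq_of_lt hs]

private lemma ct1_pc (k : ℕ) [NeZero k] {s : ℕ} (hs : 4 * s < k) :
    vtx (PC k s) = El.v true (4 * s) := by
  unfold vtx PC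
  simp only
  rw [ZMod.val_cast_of_lt (by omega), Nat.mod_eq_of_lt hs]

private lemma ct1_mul_ite (n : ℕ) (p : Prop) [Decidable p] :
    ∑ _s ∈ range n, (if p then 1 else 0) = n * (if p then 1 else 0) := by
  rw [Finset.sum_const, card_range, smul_eq_mul]

theorem card_Ports_cls (k : ℕ) [NeZero k] (M : ℕ) (hM : 4 * M < k) (c : Cls) :
    ((Ports k M).filter (fun e => clsEl k e = c)).card =
      (M + 1) * (if c = clsV k LA then 1 else 0) + (M + 1) * (if c = clsV k LC then 1 else 0) +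
      (M + 1) * (if c = Cls.X false then 1 else 0) + (if c = Cls.X k.bodd then 1 else 0) := by
  rw [Finset.card_filter]
  unfold Ports
  have hk0 : 0 < k := Nat.pos_of_ne_zero (NeZero.ne k)
  rw [Finset.sum_union, Finset.sum_union, Finset.sum_union, Finset.sum_image, Finset.sum_image,
    Finset.sum_image, Finset.sum_singleton]
  · have hA : ∀ s ∈ range (M + 1), (if clsEl k (vtx (PA k s)) = c then 1 else 0) =
        (if c = clsV k LA then 1 else 0) := by
      intro s hs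
      have e : clsEl k (vtx (PA k s)) = clsV k LA := by
        apply clsEl_vtx
        unfold Lset PA
        rw [mem_filter]
        refine ⟨mem_univ _, rfl, ?_⟩
        simp only
        rw [val_natCast_bodd, Nat.bodd_mul]
        rfl
      rw [e]
      simp only [eq_comm (b := c)]
    have hC : ∀ s ∈ range (M + 1), (if clsEl k (vtx (PC k s)) = c then 1 else 0) =
        (if c = clsV k LC then 1 else 0) := by
      intro s hs
      have e : clsEl k (vtx (PC k s)) = clsV k LC := by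
        apply clsEl_vtx
        unfold Lset PC
        rw [mem_filter]
        refine ⟨mem_univ _, rfl, ?_⟩
        simp only
        rw [val_natCast_bodd, Nat.bodd_mul]
        rfl
      rw [e]
      simp only [eq_comm (b := c)]
    have hX : ∀ s ∈ range (M + 1), (if clsEl k (El.x (2 * s)) = c then 1 else 0) =
        (if c = Cls.X false then 1 else 0) := by
      intro s hs
      have e : clsEl k (El.x (2 * s)) = Cls.X false := by
        simp [clsEl, Nat.bodd_mul]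
      rw [e]
      simp only [eq_comm (b := c)]
    have hZ : clsEl k (El.x (2 * M + k)) = Cls.X k.bodd := by
      simp [clsEl, Nat.bodd_mul, Nat.bodd_add]
    rw [Finset.sum_congr rfl hA, Finset.sum_congr rfl hC, Finset.sum_congr rfl hX, hZ,
      ct1_mul_ite, ct1_mul_ite, ct1_mul_ite]
    simp only [eq_comm (a := c)]
  · intro a _ b _ h
    have := El.x.inj h
    omega
  · intro a ha b hb h
    rw [Finset.mem_coe, mem_range] at ha hb
    change vtx (PC k a) = vtx (PC k b) at h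
    rw [ct1_pc k (by omega), ct1_pc k (by omega)] at h
    have := (El.v.inj h).2
    omega
  · intro a ha b hb h
    rw [Finset.mem_coe, mem_range] at ha hb
    change vtx (PA k a) = vtx (PA k b) at h
    rw [ct1_pa k (by omega), ct1_pa k (by omega)] at h
    have := (El.v.inj h).2
    omega
  · rw [Finset.disjoint_left]
    intro x hx hx'
    rw [mem_image] at hx hx'
    obtain ⟨a, ha, rfl⟩ := hx
    obtain ⟨b, hb, h⟩ := hx'
    rw [mem_range] at ha hb
    rw [ct1_pc k (by omega), ct1_pa k (by omega)] at h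
    have := (El.v.inj h).1
    exact Bool.noConfusion this
  · rw [Finset.disjoint_left]
    intro x hx hx'
    rw [mem_union, mem_image, mem_image] at hx
    rw [mem_image] at hx'
    obtain ⟨b, hb, h⟩ := hx'
    rcases hx with ⟨a, ha, rfl⟩ | ⟨a, ha, rfl⟩
    · exact El.noConfusion h
    · exact El.noConfusion h
  · rw [Finset.disjoint_left]
    intro x hx hx'
    rw [mem_singleton] at hx'
    rw [mem_union, mem_union, mem_image, mem_image, mem_image] at hx
    rcases hx with (⟨a, ha, h⟩ | ⟨a, ha, h⟩) | ⟨a, ha, h⟩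
    · rw [hx'] at h
      exact El.noConfusion h
    · rw [hx'] at h
      exact El.noConfusion h
    · rw [hx'] at h
      have := El.x.inj h
      rw [mem_range] at ha
      omega

theorem Ports_subset (k : ℕ) [NeZero k] (M : ℕ) (hM : 4 * M < k) : Ports k M ⊆ U k := by
  have hx : ∀ d, d < 2 * k → El.x d ∈ U k := by
    intro d hd
    unfold U
    rw [mem_union]
    exact Or.inr (mem_image_of_mem _ (mem_range.2 hd))
  intro e he
  unfold Ports at he
  rw [mem_union, mem_union, mem_union, mem_image, mem_image, mem_image, mem_singleton] at he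
  rcases he with ((⟨s, hs, rfl⟩ | ⟨s, hs, rfl⟩) | ⟨s, hs, rfl⟩) | rfl
  · exact vtx_mem_U _
  · exact vtx_mem_U _
  · rw [mem_range] at hs
    exact hx _ (by omega)
  · exact hx _ (by omega)

/-- class sizes of the set left for the slots -/
theorem card_X_cls (k : ℕ) [NeZero k] (m ℓ R : ℕ) (hlen : m * ℓ + R + 2 = 2 * k)
    (hm : 4 * (m + 1) < k) (hℓ : 10 ≤ ℓ) (hℓ4 : ℓ % 4 = 0) (hR : 10 ≤ R)
    (w u : ℕ → Letter) (w0 : w 0 = LA) (w1 : w 1 = LC) (u0 : u 0 = LA) (u1 : u 1 = LC)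
    (hw : ∀ c, bcnt k w ℓ c = tgt k ℓ c)
    (hu : ∀ c, bcnt k u R c = if k.bodd then tgt k R c else tgt' R c)
    (E : Finset El) (hE : E ⊆ U k) (hEP : Disjoint E (Ports k (m + 1)))
    (hEc : ∀ c, (E.filter (fun e => clsEl k e = c)).card = hcls k u R c) (c : Cls) :
    ((U k \ (Ports k (m + 1) ∪ E)).filter (fun e => clsEl k e = c)).card
      = hcls k w ℓ c * m := by
  have hk0 : 1 ≤ k := by omega
  have hsub : (Ports k (m + 1) ∪ E) ⊆ U k := Finset.union_subset (Ports_subset k (m + 1) hm) hE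
  -- splitting of the universe
  have h1 : ((U k \ (Ports k (m + 1) ∪ E)).filter (fun e => clsEl k e = c)).card +
      ((Ports k (m + 1) ∪ E).filter (fun e => clsEl k e = c)).card =
      ((U k).filter (fun e => clsEl k e = c)).card := by
    rw [Finset.card_filter, Finset.card_filter, Finset.card_filter, Finset.sum_sdiff hsub]
  have h2 : ((Ports k (m + 1) ∪ E).filter (fun e => clsEl k e = c)).card =
      ((Ports k (m + 1)).filter (fun e => clsEl k e = c)).card +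
      (E.filter (fun e => clsEl k e = c)).card := by
    rw [Finset.filter_union, Finset.card_union_of_disjoint]
    exact Finset.disjoint_filter_filter hEP.symm
  rw [h2, card_Ports_cls k (m + 1) hm c, hEc c, card_U_cls k hk0 c] at h1
  have h3 := bcnt_eq_hcls k w ℓ (by omega) w0 w1 c
  have h4 := bcnt_eq_hcls k u R (by omega) u0 u1 c
  rw [hw c] at h3
  rw [hu c] at h4
  set Xc := ((U k \ (Ports k (m + 1) ∪ E)).filter (fun e => clsEl k e = c)).card
  set hh := hcls k w ℓ c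
  set rr := hcls k u R c
  obtain ⟨q, rfl⟩ : ∃ q, ℓ = 4 * q := ⟨ℓ / 4, by omega⟩
  have hkm := Nat.mod_two_of_bodd k
  have hlen' : 4 * (q * m) + R + 2 = 2 * k := by rw [← hlen]; ring
  have d1 : 4 * q / 4 = q := by omega
  have d2 : 4 * q / 2 = 2 * q := by omega
  have m1 : ∀ a b : ℕ, a = b → a * m = b * m := fun a b h => by rw [h]
  have h5 := m1 _ _ h3
  generalize hs : q * m = s at *
  have hs2 : 2 * q * m = 2 * s := by rw [← hs]; ring
  unfold clsV at h1 h4 h5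
  cases hb : k.bodd
  · rw [hb, Bool.toNat_false] at hkm
    cases c with
    | V i e =>
      cases i <;> cases e <;>
        simp only [hb, tgt, tgt', Cls.V.injEq, reduceCtorEq, Bool.false_eq_true, if_true,
          if_false, and_true, and_false, mul_one, mul_zero, add_zero, and_self, d1, d2,
          Nat.right_distrib, one_mul, zero_mul, hs, hs2] at h1 h4 h5 <;> omega
    | P i e =>
      cases i <;> cases e <;>
        simp only [hb, tgt, tgt', Cls.V.injEq, reduceCtorEq, Bool.false_eq_true, if_true,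
          if_false, and_true, and_false, mul_one, mul_zero, add_zero, and_self, d1, d2,
          Nat.right_distrib, one_mul, zero_mul, hs, hs2] at h1 h4 h5 <;> omega
    | X e =>
      cases e <;>
        simp only [hb, tgt, tgt', Cls.X.injEq, reduceCtorEq, Bool.false_eq_true, if_true,
          if_false, and_true, and_false, mul_one, mul_zero, add_zero, and_self, d1, d2,
          Nat.right_distrib, one_mul, zero_mul, hs, hs2] at h1 h4 h5 <;> omega
  · rw [hb, Bool.toNat_true] at hkm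
    cases c with
    | V i e =>
      cases i <;> cases e <;>
        simp only [hb, tgt, tgt', Cls.V.injEq, reduceCtorEq, Bool.false_eq_true, if_true,
          if_false, and_true, and_false, mul_one, mul_zero, add_zero, and_self, d1, d2,
          Nat.right_distrib, one_mul, zero_mul, hs, hs2] at h1 h4 h5 <;> omega
    | P i e =>
      cases i <;> cases e <;>
        simp only [hb, tgt, tgt', Cls.V.injEq, reduceCtorEq, Bool.false_eq_true, if_true,
          if_false, and_true, and_false, mul_one, mul_zero, add_zero, and_self, d1, d2,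
          Nat.right_distrib, one_mul, zero_mul, hs, hs2] at h1 h4 h5 <;> omega
    | X e =>
      cases e <;>
        simp only [hb, tgt, tgt', Cls.X.injEq, reduceCtorEq, Bool.false_eq_true, if_true,
          if_false, and_true, and_false, mul_one, mul_zero, add_zero, and_self, d1, d2,
          Nat.right_distrib, one_mul, zero_mul, hs, hs2] at h1 h4 h5 <;> omega

end SqCyc
end
end
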