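import Pool.Agent.Lib.SqCyc.Gad4
import Pool.Agent.Lib.SqCyc.Abs1

section

/-! # GD-6 vertex node -/

open Finset

namespace SqCyc

variable {k : ℕ} [NeZero k] {ℓ m : ℕ} {w : ℕ → Letter} {X : Finset El}

private lemma g6_mem {θ : Letter} {P : Pt k} : P ∈ Lset k θ ↔ P.1 = θ.1 ∧ P.2.val.bodd = θ.2 := by
  unfold Lset
  rw [mem_filter]
  exact ⟨fun h => h.2, fun h => ⟨mem_univ _, h⟩⟩

/-- the conditions to be avoided -/
private def g6_bad (Γ : Finset El) : (Unit ⊕ (Pt k ⊕ (Pt k × Pt k))) → Pt k → Prop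
  | Sum.inl _, p => vtx p ∈ Γ
  | Sum.inr (Sum.inl z), p => col p z ∈ Γ
  | Sum.inr (Sum.inr q), p => q.1 ≠ q.2 ∧ col p q.1 = col p q.2

/-- choice of one point -/
private lemma g6_pick (θ : Letter) (Z : Finset (Pt k)) (hZ : Z ⊆ Lset k θ) (Γ : Finset El)
    (h : 2 * Γ.card + (Z.card * (2 * Γ.card) + Z.card * Z.card * 2) < k) :
    ∃ p ∈ Lset k θ, vtx p ∉ Γ ∧ (∀ z ∈ Z, col p z ∉ Γ) ∧
      ∀ z ∈ Z, ∀ z' ∈ Z, z ≠ z' → col p z ≠ col p z' := by
  classical
  let c : (Unit ⊕ (Pt k ⊕ (Pt k × Pt k))) → ℕ := fun j =>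
    match j with
    | Sum.inl _ => 2 * Γ.card
    | Sum.inr (Sum.inl _) => 2 * Γ.card
    | Sum.inr (Sum.inr _) => 2
  have hcol : ∀ p ∈ Lset k θ, ∀ z ∈ Lset k θ, col p z = El.p θ.1 (dst (p.2 - z.2)) := by
    intro p hp z hz
    rw [g6_mem] at hp hz
    rw [col_same (hp.1.trans hz.1.symm), hp.1]
  obtain ⟨p, hp, hbad⟩ := exists_avoid (k := k) θ
    ((univ : Finset Unit).disjSum (Z.disjSum (Z ×ˢ Z))) (g6_bad Γ) c (by
      intro j hj
      rcases j with u | z | q
      · have h1 := card_vtx_aff (k := k) θ θ.1 1 one_ne_zero 0 Γ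
        refine le_trans (card_le_card fun p hp => ?_) (le_trans h1 (by simp [c]))
        rw [mem_filter] at hp ⊢
        refine ⟨hp.1, ?_⟩
        have h2 := (g6_mem.1 hp.1).1
        have h3 : ((θ.1, ((1 : ℤ) : ZMod (2 * k)) * p.2 + 0) : Pt k) = p := by
          rw [Int.cast_one, one_mul, add_zero, ← h2]
        rw [h3]
        exact hp.2
      · have hz : z ∈ Z := by simpa using hj
        have h1 := card_p_aff (k := k) θ θ.1 1 one_ne_zero (-z.2) Γ
        refine le_trans (card_le_card fun p hp => ?_) (le_trans h1 (by simp [c]))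
        rw [mem_filter] at hp ⊢
        refine ⟨hp.1, ?_⟩
        have h2 : col p z ∈ Γ := hp.2
        rw [hcol p hp.1 z (hZ hz)] at h2
        rw [Int.cast_one, one_mul, ← sub_eq_add_neg]
        exact h2
      · have hq : q.1 ∈ Z ∧ q.2 ∈ Z := by simpa using hj
        by_cases hqq : q.1 = q.2
        · rw [filter_false_of_mem (fun p _ h => h.1 hqq)]
          simp
        · have hne : -q.1.2 ≠ -q.2.2 := by
            intro h
            apply hqq
            apply Prod.ext
            · rw [(g6_mem.1 (hZ hq.1)).1, (g6_mem.1 (hZ hq.2)).1]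
            · exact neg_injective h
          have h1 := card_dst_eq (k := k) θ 1 1 (-q.1.2) (-q.2.2) (Or.inr hne)
            (Or.inl (by norm_num))
          refine le_trans (card_le_card fun p hp => ?_) (le_trans h1 (by simp [c]))
          rw [mem_filter] at hp ⊢
          refine ⟨hp.1, ?_⟩
          have h2 : col p q.1 = col p q.2 := hp.2.2
          rw [hcol p hp.1 _ (hZ hq.1), hcol p hp.1 _ (hZ hq.2), El.p.injEq] at h2
          rw [Int.cast_one, one_mul, ← sub_eq_add_neg, ← sub_eq_add_neg]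
          exact h2.2) (by
      rw [sum_disjSum, sum_disjSum]
      simpa [c] using h)
  refine ⟨p, hp, ?_, ?_, ?_⟩
  · exact hbad (Sum.inl ()) (by simp)
  · intro z hz
    exact hbad (Sum.inr (Sum.inl z)) (by simpa using hz)
  · intro z hz z' hz' hne heq
    exact hbad (Sum.inr (Sum.inr (z, z'))) (by simpa using ⟨hz, hz'⟩) ⟨hne, heq⟩

/-- several colour fans -/
private lemma g6_fans (C : Ctx k ℓ w m X) (hℓ : 2 ≤ ℓ) (i : Bool) (Cs : ℕ → Finset El)
    (F0 : Finset El) (Sl : Finset ℕ) (hSl : Sl ⊆ range m) (r : ℕ)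
    (hCX : ∀ j < r, Cs j ⊆ X) (hCF : ∀ j < r, Cs j ⊆ F0)
    (hCe : ∀ j < r, ∀ c ∈ Cs j, ∃ d, c = El.p i d ∧ d.bodd = false)
    (hC40 : ∀ j < r, (Cs j).card ≤ 40)
    (hCd : ∀ j < r, ∀ j' < r, j ≠ j' → Disjoint (Cs j) (Cs j'))
    (hSlc : 80 * r ≤ Sl.card)
    (hk : 10 ^ 7 * ((U k \ X).card + (F0.card + r * (1 + 240 * ℓ)) + ℓ) < k) :
    ∃ (lam : ℕ → El) (T : El → Finset ℕ) (B : El → Finset El),
      (∀ j < r, lam j ∈ X ∧ lam j ∉ F0) ∧
      (∀ j < r, ∀ j' < r, j ≠ j' → lam j ≠ lam j') ∧
      (∀ j < r, ∀ c ∈ Cs j, T c ⊆ Sl ∧ (T c).card ≤ 2 ∧ B c ⊆ X ∧ Disjoint (B c) F0 ∧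
        (∀ j' < r, lam j' ∉ B c) ∧ CovT (Fill k w ℓ X) (T c) (insert c (B c)) ∧
        CovT (Fill k w ℓ X) (T c) (insert (lam j) (B c))) ∧
      (∀ j < r, ∀ j' < r, ∀ c ∈ Cs j, ∀ c' ∈ Cs j', c ≠ c' →
        Disjoint (T c) (T c') ∧ Disjoint (B c) (B c')) := by
  induction r with
  | zero =>
    refine ⟨fun _ => El.x 0, fun _ => ∅, fun _ => ∅, ?_, ?_, ?_, ?_⟩ <;> intro j hj <;>
      exact absurd hj (Nat.not_lt_zero j)
  | succ r ih =>
    obtain ⟨lam, T, B, a1, a2, a3, a4⟩ := ih (fun j hj => hCX j (by omega))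
      (fun j hj => hCF j (by omega)) (fun j hj => hCe j (by omega)) (fun j hj => hC40 j (by omega))
      (fun j hj j' hj' => hCd j (by omega) j' (by omega)) (by omega) (by
        refine lt_of_le_of_lt (Nat.mul_le_mul_left _ ?_) hk
        have : r * (1 + 240 * ℓ) ≤ (r + 1) * (1 + 240 * ℓ) := Nat.mul_le_mul_right _ (by omega)
        omega)
    set G : Finset El := (range r).biUnion (fun j => insert (lam j) ((Cs j).biUnion B)) with hG
    have hBc : ∀ j < r, ∀ c ∈ Cs j, (B c).card ≤ 6 * ℓ := by
      intro j hj c hc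
      obtain ⟨-, b2, -, -, -, b6, -⟩ := a3 j hj c hc
      have h1 := (covT_card hℓ b6).1
      have h2 : 3 * ℓ * (T c).card ≤ 3 * ℓ * 2 := Nat.mul_le_mul_left _ b2
      have h3 : (B c).card ≤ (insert c (B c)).card := card_le_card (subset_insert _ _)
      omega
    have hGc : G.card ≤ r * (1 + 240 * ℓ) := by
      have h1 : G.card ≤ (range r).card * (1 + 240 * ℓ) := by
        refine card_biUnion_le_card_mul _ _ _ fun j hj => ?_
        have hj' := mem_range.1 hj
        have h2 : ((Cs j).biUnion B).card ≤ (Cs j).card * (6 * ℓ) :=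
          card_biUnion_le_card_mul _ _ _ fun c hc => hBc j hj' c hc
        have h3 : (Cs j).card * (6 * ℓ) ≤ 40 * (6 * ℓ) :=
          Nat.mul_le_mul_right _ (hC40 j (by omega))
        have h4 := card_insert_le (lam j) ((Cs j).biUnion B)
        omega
      rwa [card_range] at h1
    set Sl' : Finset ℕ := Sl \ (range r).biUnion (fun j => (Cs j).biUnion T) with hSl'
    have hTc : ((range r).biUnion (fun j => (Cs j).biUnion T)).card ≤ r * 80 := by
      have h1 : ((range r).biUnion (fun j => (Cs j).biUnion T)).card ≤ (range r).card * 80 := by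
        refine card_biUnion_le_card_mul _ _ _ fun j hj => ?_
        have hj' := mem_range.1 hj
        have h2 : ((Cs j).biUnion T).card ≤ (Cs j).card * 2 :=
          card_biUnion_le_card_mul _ _ _ fun c hc => (a3 j hj' c hc).2.1
        have h3 := hC40 j (by omega)
        omega
      rwa [card_range] at h1
    have hSl'c : 80 ≤ Sl'.card := by
      have h1 := le_card_sdiff ((range r).biUnion (fun j => (Cs j).biUnion T)) Sl
      rw [← hSl'] at h1
      omega
    obtain ⟨l, hlX, hlF, hlC, T', B', f1, f2⟩ := fan C i (Cs r) (hCX r (by omega))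
      (hCe r (by omega)) (hC40 r (by omega)) (F0 ∪ G) Sl' (sdiff_subset.trans hSl) hSl'c (by
        refine lt_of_le_of_lt (Nat.mul_le_mul_left _ ?_) hk
        have h1 := card_union_le F0 G
        have h2 : (r + 1) * (1 + 240 * ℓ) = r * (1 + 240 * ℓ) + (1 + 240 * ℓ) := by ring
        omega)
    have hlamG : ∀ j < r, lam j ∈ G := fun j hj => by
      rw [hG, mem_biUnion]
      exact ⟨j, mem_range.2 hj, mem_insert_self _ _⟩
    have hBG : ∀ j < r, ∀ c ∈ Cs j, B c ⊆ G := fun j hj c hc e he => by
      rw [hG, mem_biUnion]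
      exact ⟨j, mem_range.2 hj, mem_insert_of_mem (mem_biUnion.2 ⟨c, hc, he⟩)⟩
    have hTS : ∀ j < r, ∀ c ∈ Cs j, Disjoint (T c) Sl' := fun j hj c hc => by
      rw [disjoint_left]
      intro t ht ht'
      rw [hSl', mem_sdiff] at ht'
      exact ht'.2 (mem_biUnion.2 ⟨j, mem_range.2 hj, mem_biUnion.2 ⟨c, hc, ht⟩⟩)
    have hnr : ∀ j < r, ∀ c ∈ Cs j, c ∉ Cs r := fun j hj c hc hc' =>
      (disjoint_left.1 (hCd j (by omega) r (by omega) (by omega))) hc hc'
    refine ⟨fun j => if j = r then l else lam j, fun c => if c ∈ Cs r then T' c else T c,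
      fun c => if c ∈ Cs r then B' c else B c, ?_, ?_, ?_, ?_⟩
    · intro j hj
      by_cases hjr : j = r
      · simp only [if_pos hjr]
        exact ⟨hlX, fun h => hlF (mem_union_left _ h)⟩
      · simp only [if_neg hjr]
        exact a1 j (by omega)
    · intro j hj j' hj' hne
      by_cases hjr : j = r
      · have hj'r : j' ≠ r := fun h => hne (hjr.trans h.symm)
        simp only [if_pos hjr, if_neg hj'r]
        intro h
        exact hlF (mem_union_right _ (h ▸ hlamG j' (by omega)))
      · by_cases hj'r : j' = r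
        · simp only [if_neg hjr, if_pos hj'r]
          intro h
          exact hlF (mem_union_right _ (h ▸ hlamG j (by omega)))
        · simp only [if_neg hjr, if_neg hj'r]
          exact a2 j (by omega) j' (by omega) hne
    · intro j hj c hc
      by_cases hjr : j = r
      · subst hjr
        obtain ⟨b1, b2, b3, b4, b5, b6⟩ := f1 c hc
        simp only [if_pos hc, if_true]
        refine ⟨b1.trans sdiff_subset, b2, b3, ?_, ?_, b5, b6⟩
        · exact b4.mono_right (subset_union_left.trans (subset_union_left.trans subset_union_left))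
        · intro j' hj'
          by_cases hjj : j' = j
          · simp only [if_pos hjj]
            intro h
            exact (disjoint_left.1 b4) h (mem_union_right _ (mem_singleton_self _))
          · simp only [if_neg hjj]
            intro h
            exact (disjoint_left.1 b4) h (mem_union_left _ (mem_union_left _ (mem_union_right _
              (hlamG j' (by omega)))))
      · have hjlt : j < r := by omega
        have hcr := hnr j hjlt c hc
        obtain ⟨b1, b2, b3, b4, b5, b6, b7⟩ := a3 j hjlt c hc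
        simp only [if_neg hcr, if_neg hjr]
        refine ⟨b1, b2, b3, b4, ?_, b6, b7⟩
        intro j' hj'
        by_cases hjj : j' = r
        · simp only [if_pos hjj]
          intro h
          exact hlF (mem_union_right _ (hBG j hjlt c hc h))
        · simp only [if_neg hjj]
          exact b5 j' (by omega)
    · intro j hj j' hj' c hc c' hc' hne
      by_cases hjr : j = r
      · subst hjr
        by_cases hj'r : j' = j
        · subst hj'r
          simp only [if_pos hc, if_pos hc']
          exact f2 c hc c' hc' hne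
        · have hjlt : j' < j := by omega
          have hcr := hnr j' hjlt c' hc'
          simp only [if_pos hc, if_neg hcr]
          obtain ⟨b1, b2, b3, b4, b5, b6⟩ := f1 c hc
          refine ⟨((hTS j' hjlt c' hc').mono_right b1).symm, ?_⟩
          refine b4.mono_right (fun e he => ?_)
          exact mem_union_left _ (mem_union_left _ (mem_union_right _ (hBG j' hjlt c' hc' he)))
      · have hjlt : j < r := by omega
        have hcr := hnr j hjlt c hc
        by_cases hj'r : j' = r
        · subst hj'r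
          simp only [if_pos hc', if_neg hcr]
          obtain ⟨b1, b2, b3, b4, b5, b6⟩ := f1 c' hc'
          refine ⟨(hTS j hjlt c hc).mono_right b1, ?_⟩
          refine (b4.mono_right (fun e he => ?_)).symm
          exact mem_union_left _ (mem_union_left _ (mem_union_right _ (hBG j hjlt c hc he)))
        · have hjlt' : j' < r := by omega
          have hcr' := hnr j' hjlt' c' hc'
          simp only [if_neg hcr, if_neg hcr']
          exact a4 j hjlt j' hjlt' c hc c' hc' hne

omit [NeZero k] in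
private lemma g6_add3 (p a z : Pt k) (Γ E : Finset El) (hE : E ⊆ Γ) (hv : vtx p ∉ Γ)
    (ha : col p a ∉ Γ) (hz : col p z ∉ Γ) (hne : col p a ≠ col p z)
    (hvc : ∀ q r : Pt k, vtx p ≠ col q r) :
    (insert (vtx p) (insert (col p a) (insert (col p z) E))).card = E.card + 3 := by
  rw [card_insert_of_notMem, card_insert_of_notMem, card_insert_of_notMem]
  · exact fun h => hz (hE h)
  · rw [mem_insert, not_or]
    exact ⟨hne, fun h => ha (hE h)⟩
  · rw [mem_insert, mem_insert, not_or, not_or]
    exact ⟨hvc _ _, hvc _ _, fun h => hv (hE h)⟩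

private lemma g6_vc (P Q R : Pt k) : vtx P ≠ col Q R := vtx_ne_col P Q R

/-- the combination of a slot and four fans -/
private lemma g6_assemble (ys : Finset El) (F F0 Out W : Finset El) (s0 : ℕ)
    (Cs : ℕ → Finset El) (avail : Finset ℕ) (hs0 : s0 ∈ avail)
    (lam : ℕ → El) (T : El → Finset ℕ) (B : El → Finset El) (r : ℕ)
    (a1 : ∀ j < r, lam j ∉ F0)
    (a2 : ∀ j < r, ∀ j' < r, j ≠ j' → lam j ≠ lam j')
    (a3 : ∀ j < r, ∀ c ∈ Cs j, T c ⊆ avail.erase s0 ∧ (T c).card ≤ 2 ∧ Disjoint (B c) F0 ∧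
        (∀ j' < r, lam j' ∉ B c) ∧ CovT (Fill k w ℓ X) (T c) (insert c (B c)) ∧
        CovT (Fill k w ℓ X) (T c) (insert (lam j) (B c)))
    (a4 : ∀ j < r, ∀ j' < r, ∀ c ∈ Cs j, ∀ c' ∈ Cs j', c ≠ c' →
        Disjoint (T c) (T c') ∧ Disjoint (B c) (B c'))
    (hC40 : ∀ j < r, (Cs j).card ≤ 40)
    (hCd : ∀ j < r, ∀ j' < r, j ≠ j' → Disjoint (Cs j) (Cs j'))
    (hF : F ∪ ys ⊆ F0) (hO : Out ⊆ F0) (hW : W ⊆ F0) (hCF : ∀ j < r, Cs j ⊆ F0)
    (dO : Disjoint Out (F ∪ ys)) (dW : Disjoint W (F ∪ ys))
    (dC : ∀ j < r, Disjoint (Cs j) (F ∪ ys)) (dCO : ∀ j < r, Disjoint (Cs j) Out)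
    (dCW : ∀ j < r, Disjoint (Cs j) W)
    (hy : ∀ y ∈ ys, ∃ q : ℕ → El, (∀ j < r, q j ∈ Cs j) ∧
      Fill k w ℓ X s0 (Out ∪ (W ∪ insert y ((range r).image q)))) :
    ∃ T ⊆ avail, T.card ≤ 1 + 80 * r ∧ ∃ B : Finset El, Disjoint B (F ∪ ys) ∧
      ∀ y ∈ ys, CovT (Fill k w ℓ X) T (insert y B) := by
  refine ⟨{s0} ∪ (range r).biUnion (fun j => (Cs j).biUnion T), ?_, ?_,
    (Out ∪ W) ∪ (range r).biUnion (fun j => insert (lam j) (Cs j ∪ (Cs j).biUnion B)), ?_, ?_⟩
  · intro t ht
    rw [mem_union, mem_singleton] at ht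
    rcases ht with rfl | ht
    · exact hs0
    · obtain ⟨j, hj, ht⟩ := mem_biUnion.1 ht
      obtain ⟨c, hc, ht⟩ := mem_biUnion.1 ht
      exact mem_of_mem_erase ((a3 j (mem_range.1 hj) c hc).1 ht)
  · have h1 : ((range r).biUnion (fun j => (Cs j).biUnion T)).card ≤ (range r).card * 80 := by
      refine card_biUnion_le_card_mul _ _ _ fun j hj => ?_
      have hj' := mem_range.1 hj
      have h2 : ((Cs j).biUnion T).card ≤ (Cs j).card * 2 :=
        card_biUnion_le_card_mul _ _ _ fun c hc => (a3 j hj' c hc).2.1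
      have h3 := hC40 j hj'
      omega
    rw [card_range] at h1
    have h2 := card_union_le {s0} ((range r).biUnion (fun j => (Cs j).biUnion T))
    rw [card_singleton] at h2
    omega
  · rw [disjoint_union_left, disjoint_union_left]
    refine ⟨⟨dO, dW⟩, ?_⟩
    rw [disjoint_biUnion_left]
    intro j hj
    have hj' := mem_range.1 hj
    rw [disjoint_insert_left, disjoint_union_left, disjoint_biUnion_left]
    exact ⟨fun h => a1 j hj' (hF h), dC j hj', fun c hc =>
      (a3 j hj' c hc).2.2.1.mono_right hF⟩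
  · intro y hyy
    obtain ⟨q, hq, hfill⟩ := hy y hyy
    have hyF : y ∈ F0 := hF (mem_union_right _ hyy)
    -- slot
    have c0 : CovT (Fill k w ℓ X) {s0} (Out ∪ (W ∪ insert y ((range r).image q))) := by
      refine ⟨fun _ => Out ∪ (W ∪ insert y ((range r).image q)), ?_, ?_, ?_⟩
      · intro s hs
        rw [mem_singleton] at hs
        rw [hs]
        exact hfill
      · intro s hs t ht hst
        rw [mem_singleton] at hs ht
        exact absurd (hs.trans ht.symm) hst
      · rw [singleton_biUnion]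
    -- inner
    have cin : ∀ j < r, CovT (Fill k w ℓ X) ((Cs j).biUnion T)
        ((Cs j).biUnion (fun c => if c = q j then insert (lam j) (B c) else insert c (B c))) := by
      intro j hj
      refine CovT.biUnion (Cs j) T _ ?_ ?_ ?_
      · intro c hc
        by_cases h : c = q j
        · simp only [if_pos h]
          exact (a3 j hj c hc).2.2.2.2.2
        · simp only [if_neg h]
          exact (a3 j hj c hc).2.2.2.2.1
      · intro c hc c' hc' hne
        exact (a4 j hj j hj c hc c' hc' hne).1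
      · intro c hc c' hc' hne
        have hBB := (a4 j hj j hj c hc c' hc' hne).2
        have hB := (a3 j hj c hc).2.2.1
        have hB' := (a3 j hj c' hc').2.2.1
        have hl := (a3 j hj c hc).2.2.2.1 j hj
        have hl' := (a3 j hj c' hc').2.2.2.1 j hj
        have g1 : c ∉ B c' := fun h => (disjoint_left.1 hB') h (hCF j hj hc)
        have g2 : c' ∉ B c := fun h => (disjoint_left.1 hB) h (hCF j hj hc')
        have g3 : lam j ≠ c := fun h => a1 j hj (h ▸ hCF j hj hc)
        have g4 : lam j ≠ c' := fun h => a1 j hj (h ▸ hCF j hj hc')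
        by_cases h : c = q j
        · have h' : c' ≠ q j := fun h' => hne (h.trans h'.symm)
          simp only [if_pos h, if_neg h']
          rw [disjoint_insert_left, disjoint_insert_right, mem_insert, not_or]
          exact ⟨⟨g4, hl'⟩, g2, hBB⟩
        · by_cases h' : c' = q j
          · simp only [if_neg h, if_pos h']
            rw [disjoint_insert_left, disjoint_insert_right, mem_insert, not_or]
            exact ⟨⟨g3.symm, g1⟩, hl, hBB⟩
          · simp only [if_neg h, if_neg h']
            rw [disjoint_insert_left, disjoint_insert_right, mem_insert, not_or]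
            exact ⟨⟨hne, g1⟩, g2, hBB⟩
    -- elements of the inner union
    have hel : ∀ j < r, ∀ e, e ∈ (Cs j).biUnion
        (fun c => if c = q j then insert (lam j) (B c) else insert c (B c)) ↔
        e = lam j ∨ (e ∈ Cs j ∧ e ≠ q j) ∨ ∃ c ∈ Cs j, e ∈ B c := by
      intro j hj e
      rw [mem_biUnion]
      constructor
      · rintro ⟨c, hc, he⟩
        by_cases h : c = q j
        · rw [if_pos h, mem_insert] at he
          rcases he with he | he
          · exact Or.inl he
          · exact Or.inr (Or.inr ⟨c, hc, he⟩)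
        · rw [if_neg h, mem_insert] at he
          rcases he with he | he
          · exact Or.inr (Or.inl ⟨he ▸ hc, he ▸ h⟩)
          · exact Or.inr (Or.inr ⟨c, hc, he⟩)
      · rintro (he | ⟨he, hne⟩ | ⟨c, hc, he⟩)
        · refine ⟨q j, hq j hj, ?_⟩
          rw [if_pos rfl, he]
          exact mem_insert_self _ _
        · refine ⟨e, he, ?_⟩
          rw [if_neg hne]
          exact mem_insert_self _ _
        · refine ⟨c, hc, ?_⟩
          split_ifs
          · exact mem_insert_of_mem he
          · exact mem_insert_of_mem he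
    have cout : CovT (Fill k w ℓ X) ((range r).biUnion (fun j => (Cs j).biUnion T))
        ((range r).biUnion (fun j => (Cs j).biUnion
          (fun c => if c = q j then insert (lam j) (B c) else insert c (B c)))) := by
      refine CovT.biUnion (range r) _ _ (fun j hj => cin j (mem_range.1 hj)) ?_ ?_
      · intro j hj j' hj' hne
        rw [mem_range] at hj hj'
        rw [disjoint_biUnion_left]
        intro c hc
        rw [disjoint_biUnion_right]
        intro c' hc'
        refine (a4 j hj j' hj' c hc c' hc' ?_).1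
        intro h
        exact (disjoint_left.1 (hCd j hj j' hj' hne)) hc (h ▸ hc')
      · intro j hj j' hj' hne
        rw [mem_range] at hj hj'
        rw [disjoint_left]
        intro e he he'
        rw [hel j hj] at he
        rw [hel j' hj'] at he'
        rcases he with he | ⟨he, -⟩ | ⟨c, hc, he⟩
        · rcases he' with he' | ⟨he', -⟩ | ⟨c', hc', he'⟩
          · exact a2 j hj j' hj' hne (he.symm.trans he')
          · exact a1 j hj (he ▸ hCF j' hj' he')
          · exact (a3 j' hj' c' hc').2.2.2.1 j hj (he ▸ he')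
        · rcases he' with he' | ⟨he', -⟩ | ⟨c', hc', he'⟩
          · exact a1 j' hj' (he' ▸ hCF j hj he)
          · exact (disjoint_left.1 (hCd j hj j' hj' hne)) he he'
          · exact (disjoint_left.1 (a3 j' hj' c' hc').2.2.1) he' (hCF j hj he)
        · rcases he' with he' | ⟨he', -⟩ | ⟨c', hc', he'⟩
          · exact (a3 j hj c hc).2.2.2.1 j' hj' (he' ▸ he)
          · exact (disjoint_left.1 (a3 j hj c hc).2.2.1) he (hCF j' hj' he')
          · refine (disjoint_left.1 (a4 j hj j' hj' c hc c' hc' ?_).2) he he'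
            intro h
            exact (disjoint_left.1 (hCd j hj j' hj' hne)) hc (h ▸ hc')
    have call := CovT.union c0 cout (by
      rw [disjoint_singleton_left, mem_biUnion]
      rintro ⟨j, hj, h⟩
      obtain ⟨c, hc, h⟩ := mem_biUnion.1 h
      exact (mem_erase.1 ((a3 j (mem_range.1 hj) c hc).1 h)).1 rfl) (by
      rw [disjoint_left]
      intro e he he'
      obtain ⟨j, hj, he'⟩ := mem_biUnion.1 he'
      rw [mem_range] at hj
      rw [hel j hj] at he'
      have heF : e ∈ F0 := by
        rcases mem_union.1 he with h | h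
        · exact hO h
        · rcases mem_union.1 h with h | h
          · exact hW h
          · rcases mem_insert.1 h with h | h
            · exact h ▸ hyF
            · obtain ⟨j', hj', h⟩ := mem_image.1 h
              exact h ▸ hCF j' (mem_range.1 hj') (hq j' (mem_range.1 hj'))
      rcases he' with he' | ⟨he', hne⟩ | ⟨c', hc', he'⟩
      · exact a1 j hj (he' ▸ heF)
      · rcases mem_union.1 he with h | h
        · exact (disjoint_left.1 (dCO j hj)) he' h
        · rcases mem_union.1 h with h | h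
          · exact (disjoint_left.1 (dCW j hj)) he' h
          · rcases mem_insert.1 h with h | h
            · exact (disjoint_left.1 (dC j hj)) he' (mem_union_right _ (h ▸ hyy))
            · obtain ⟨j', hj', h⟩ := mem_image.1 h
              rw [mem_range] at hj'
              by_cases hjj : j' = j
              · exact hne (by rw [← h, hjj])
              · exact (disjoint_left.1 (hCd j' hj' j hj hjj)) (h ▸ hq j' hj') he'
      · exact (disjoint_left.1 (a3 j hj c' hc').2.2.1) he' heF)
    have heq : (Out ∪ (W ∪ insert y ((range r).image q))) ∪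
        ((range r).biUnion (fun j => (Cs j).biUnion
          (fun c => if c = q j then insert (lam j) (B c) else insert c (B c)))) =
        insert y ((Out ∪ W) ∪ (range r).biUnion
          (fun j => insert (lam j) (Cs j ∪ (Cs j).biUnion B))) := by
      ext e
      rw [mem_union, mem_biUnion, mem_insert, mem_union, mem_union, mem_insert, mem_union,
        mem_union, mem_biUnion, mem_image]
      constructor
      · rintro ((h | h | h | ⟨j, hj, h⟩) | ⟨j, hj, h⟩)
        · exact Or.inr (Or.inl (Or.inl h))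
        · exact Or.inr (Or.inl (Or.inr h))
        · exact Or.inl h
        · refine Or.inr (Or.inr ⟨j, hj, ?_⟩)
          exact mem_insert_of_mem (mem_union_left _ (h ▸ hq j (mem_range.1 hj)))
        · rw [hel j (mem_range.1 hj)] at h
          refine Or.inr (Or.inr ⟨j, hj, ?_⟩)
          rcases h with h | ⟨h, -⟩ | h
          · rw [h]
            exact mem_insert_self _ _
          · exact mem_insert_of_mem (mem_union_left _ h)
          · exact mem_insert_of_mem (mem_union_right _ (mem_biUnion.2 h))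
      · rintro (h | (h | h) | ⟨j, hj, h⟩)
        · exact Or.inl (Or.inr (Or.inr (Or.inl h)))
        · exact Or.inl (Or.inl h)
        · exact Or.inl (Or.inr (Or.inl h))
        · rcases mem_insert.1 h with h | h
          · refine Or.inr ⟨j, hj, ?_⟩
            rw [hel j (mem_range.1 hj)]
            exact Or.inl h
          · rcases mem_union.1 h with h | h
            · by_cases hqj : e = q j
              · exact Or.inl (Or.inr (Or.inr (Or.inr ⟨j, hj, hqj.symm⟩)))
              · refine Or.inr ⟨j, hj, ?_⟩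
                rw [hel j (mem_range.1 hj)]
                exact Or.inr (Or.inl ⟨h, hqj⟩)
            · refine Or.inr ⟨j, hj, ?_⟩
              rw [hel j (mem_range.1 hj)]
              exact Or.inr (Or.inr (mem_biUnion.1 h))
    rw [heq] at call
    exact call

private lemma g6_twelve {α : Type} [DecidableEq α]
    (v1 v2 v3 v4 vz c12 c23 c34 a1 a2 a3 a4 : α) :
    ({v1, v2, v3, v4, c12, c23, c34} ∪ {vz, a1, a2, a3, a4} : Finset α) =
    insert v4 (insert c34 (insert a4 (insert v3 (insert c23 (insert a3 (insert v2 (insert c12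
      (insert a2 (insert v1 (insert a1 {vz})))))))))) := by
  ext e
  simp only [mem_union, mem_insert, mem_singleton]
  constructor
  · rintro ((h | h | h | h | h | h | h) | (h | h | h | h | h)) <;> simp only [h, true_or, or_true]
  · rintro (h | h | h | h | h | h | h | h | h | h | h | h) <;> simp only [h, true_or, or_true]

theorem node_vertex (C : Ctx k ℓ w m X) {i₀ : ℕ} {θ : Letter} (hw : Win w ℓ i₀ θ θ)
    (ys : Finset El) (hys : ys ⊆ X) (hlift : ∀ y ∈ ys, ∃ z ∈ Lset k θ, vtx z = y)
    (h40 : ys.card ≤ 40) (F : Finset El) (avail : Finset ℕ) (hav : avail ⊆ range m)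
    (hav4 : 400 ≤ avail.card) (hk : 10 ^ 11 * ((U k \ X).card + F.card + ℓ) < k) :
    ∃ T ⊆ avail, T.card ≤ 400 ∧ ∃ B : Finset El, Disjoint B (F ∪ ys) ∧
      ∀ y ∈ ys, CovT (Fill k w ℓ X) T (insert y B) := by
  classical
  have hℓ : 11 ≤ ℓ := by
    have h1 := hw.lo
    have h2 := hw.hi
    omega
  rcases ys.eq_empty_or_nonempty with rfl | hne
  · exact ⟨∅, empty_subset _, by simp, ∅, disjoint_empty_left _, by simp⟩
  choose! g hg using hlift
  set Z : Finset (Pt k) := ys.image g with hZ
  have hZL : Z ⊆ Lset k θ := by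
    intro z hz
    obtain ⟨y, hy, rfl⟩ := mem_image.1 hz
    exact (hg y hy).1
  have hZv : ∀ z ∈ Z, vtx z ∈ ys := by
    intro z hz
    obtain ⟨y, hy, rfl⟩ := mem_image.1 hz
    rw [(hg y hy).2]
    exact hy
  have hZ40 : Z.card ≤ 40 := card_image_le.trans h40
  have hZne : Z.Nonempty := hne.image g
  set Γ0 : Finset El := (Uall k \ X) ∪ F ∪ ys with hΓ0
  have hU : (Uall k \ X).card ≤ (U k \ X).card + 4 := by
    have h1 : Uall k \ X ⊆ (U k \ X) ∪ {El.p false 0, El.p true 0, El.p false k, El.p true k} := by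
      intro e he
      rw [mem_sdiff, Uall, mem_union] at he
      rw [mem_union, mem_sdiff]
      rcases he with ⟨h | h, h'⟩
      · exact Or.inl ⟨h, h'⟩
      · exact Or.inr h
    refine (card_le_card h1).trans ((card_union_le _ _).trans ?_)
    have h2 : ({El.p false 0, El.p true 0, El.p false k, El.p true k} : Finset El).card ≤ 4 :=
      card_le_four
    omega
  have hΓ0c : Γ0.card ≤ (U k \ X).card + F.card + 44 := by
    have h1 := card_union_le (Uall k \ X ∪ F) ys
    have h2 := card_union_le (Uall k \ X) F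
    rw [hΓ0]
    omega
  have hin : ∀ e ∈ Uall k, e ∉ Γ0 → e ∈ X := by
    intro e he hn
    by_contra h
    exact hn (mem_union_left _ (mem_union_left _ (mem_sdiff.2 ⟨he, h⟩)))
  have hysΓ : ys ⊆ Γ0 := subset_union_right
  have hFys : F ∪ ys ⊆ Γ0 := union_subset
    (fun e he => mem_union_left _ (mem_union_right _ he)) hysΓ
  have hvU : ∀ P : Pt k, vtx P ∈ Uall k := fun P => mem_union_left _ (vtx_mem_U P)
  have hcU : ∀ P Q : Pt k, col P Q ∈ Uall k := col_mem_Uall
  -- the four points
  obtain ⟨p1, hp1, v1, c1, i1⟩ := g6_pick θ Z hZL Γ0 (by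
    have h1 : Z.card * (2 * Γ0.card) ≤ 40 * (2 * Γ0.card) := Nat.mul_le_mul_right _ hZ40
    have h2 : Z.card * Z.card ≤ 40 * 40 := Nat.mul_le_mul hZ40 hZ40
    omega)
  set N1 : Finset El := insert (vtx p1) (Z.image (col p1)) with hN1
  have hN1c : N1.card ≤ 41 := by
    have h1 := card_insert_le (vtx p1) (Z.image (col p1))
    have h2 : (Z.image (col p1)).card ≤ Z.card := card_image_le
    rw [hN1]
    omega
  set Γ1 : Finset El := Γ0 ∪ N1 with hΓ1
  have hΓ1c : Γ1.card ≤ (U k \ X).card + F.card + 85 := by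
    have := card_union_le Γ0 N1
    rw [hΓ1]
    omega
  have hZ1 : insert p1 Z ⊆ Lset k θ := insert_subset hp1 hZL
  have hZ1c : (insert p1 Z).card ≤ 41 := (card_insert_le _ _).trans (by omega)
  obtain ⟨p2, hp2, v2, c2, i2⟩ := g6_pick θ (insert p1 Z) hZ1 Γ1 (by
    have h1 : (insert p1 Z).card * (2 * Γ1.card) ≤ 41 * (2 * Γ1.card) :=
      Nat.mul_le_mul_right _ hZ1c
    have h2 : (insert p1 Z).card * (insert p1 Z).card ≤ 41 * 41 := Nat.mul_le_mul hZ1c hZ1c
    omega)
  set N2 : Finset El := insert (vtx p2) ((insert p1 Z).image (col p2)) with hN2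
  have hN2c : N2.card ≤ 42 := by
    have h1 := card_insert_le (vtx p2) ((insert p1 Z).image (col p2))
    have h2 : ((insert p1 Z).image (col p2)).card ≤ (insert p1 Z).card := card_image_le
    rw [hN2]
    omega
  set Γ2 : Finset El := Γ1 ∪ N2 with hΓ2
  have hΓ2c : Γ2.card ≤ (U k \ X).card + F.card + 127 := by
    have := card_union_le Γ1 N2
    rw [hΓ2]
    omega
  have hZ2 : insert p2 Z ⊆ Lset k θ := insert_subset hp2 hZL
  have hZ2c : (insert p2 Z).card ≤ 41 := (card_insert_le _ _).trans (by omega)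
  obtain ⟨p3, hp3, v3, c3, i3⟩ := g6_pick θ (insert p2 Z) hZ2 Γ2 (by
    have h1 : (insert p2 Z).card * (2 * Γ2.card) ≤ 41 * (2 * Γ2.card) :=
      Nat.mul_le_mul_right _ hZ2c
    have h2 : (insert p2 Z).card * (insert p2 Z).card ≤ 41 * 41 := Nat.mul_le_mul hZ2c hZ2c
    omega)
  set N3 : Finset El := insert (vtx p3) ((insert p2 Z).image (col p3)) with hN3
  have hN3c : N3.card ≤ 42 := by
    have h1 := card_insert_le (vtx p3) ((insert p2 Z).image (col p3))
    have h2 : ((insert p2 Z).image (col p3)).card ≤ (insert p2 Z).card := card_image_le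
    rw [hN3]
    omega
  set Γ3 : Finset El := Γ2 ∪ N3 with hΓ3
  have hΓ3c : Γ3.card ≤ (U k \ X).card + F.card + 169 := by
    have := card_union_le Γ2 N3
    rw [hΓ3]
    omega
  have hZ3 : insert p3 Z ⊆ Lset k θ := insert_subset hp3 hZL
  have hZ3c : (insert p3 Z).card ≤ 41 := (card_insert_le _ _).trans (by omega)
  obtain ⟨p4, hp4, v4, c4, i4⟩ := g6_pick θ (insert p3 Z) hZ3 Γ3 (by
    have h1 : (insert p3 Z).card * (2 * Γ3.card) ≤ 41 * (2 * Γ3.card) :=
      Nat.mul_le_mul_right _ hZ3c
    have h2 : (insert p3 Z).card * (insert p3 Z).card ≤ 41 * 41 := Nat.mul_le_mul hZ3c hZ3c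
    omega)
  have s01 : Γ0 ⊆ Γ1 := subset_union_left
  have s12 : Γ1 ⊆ Γ2 := subset_union_left
  have s23 : Γ2 ⊆ Γ3 := subset_union_left
  have m1v : vtx p1 ∈ Γ1 := mem_union_right _ (mem_insert_self _ _)
  have m1c : ∀ z ∈ Z, col p1 z ∈ Γ1 := fun z hz =>
    mem_union_right _ (mem_insert_of_mem (mem_image_of_mem _ hz))
  have m2v : vtx p2 ∈ Γ2 := mem_union_right _ (mem_insert_self _ _)
  have m2c : ∀ z ∈ insert p1 Z, col p2 z ∈ Γ2 := fun z hz =>
    mem_union_right _ (mem_insert_of_mem (mem_image_of_mem _ hz))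
  have m3v : vtx p3 ∈ Γ3 := mem_union_right _ (mem_insert_self _ _)
  have m3c : ∀ z ∈ insert p2 Z, col p3 z ∈ Γ3 := fun z hz =>
    mem_union_right _ (mem_insert_of_mem (mem_image_of_mem _ hz))
  -- twelve elements
  have h12 : ∀ z ∈ Z, (W0 p1 p2 p3 p4 ∪ Wz p1 p2 p3 p4 z).card = 12 := by
    intro z hz
    have hzv := hZv z hz
    have n1 : p1 ≠ z := fun h => v1 (hysΓ (h ▸ hzv))
    have n2 : p2 ≠ z := fun h => v2 (s01 (hysΓ (h ▸ hzv)))
    have n3 : p3 ≠ z := fun h => v3 (s12 (s01 (hysΓ (h ▸ hzv))))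
    set E1 : Finset El := {vtx z} with hE1
    set E2 : Finset El := insert (vtx p1) (insert (col p1 z) E1) with hE2
    set E3 : Finset El := insert (vtx p2) (insert (col p2 p1) (insert (col p2 z) E2)) with hE3
    set E4 : Finset El := insert (vtx p3) (insert (col p3 p2) (insert (col p3 z) E3)) with hE4
    have sE1 : E1 ⊆ Γ0 := singleton_subset_iff.2 (hysΓ hzv)
    have sE2 : E2 ⊆ Γ1 := insert_subset m1v (insert_subset (m1c z hz) (sE1.trans s01))
    have sE3 : E3 ⊆ Γ2 := insert_subset m2v (insert_subset (m2c p1 (mem_insert_self _ _))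
      (insert_subset (m2c z (mem_insert_of_mem hz)) (sE2.trans s12)))
    have sE4 : E4 ⊆ Γ3 := insert_subset m3v (insert_subset (m3c p2 (mem_insert_self _ _))
      (insert_subset (m3c z (mem_insert_of_mem hz)) (sE3.trans s23)))
    have k2 : E2.card = 3 := by
      rw [hE2, card_insert_of_notMem, card_insert_of_notMem, hE1, card_singleton]
      · exact fun h => c1 z hz (sE1 h)
      · rw [mem_insert, not_or]
        exact ⟨g6_vc _ _ _, fun h => v1 (sE1 h)⟩
    have k3 := g6_add3 p2 p1 z Γ1 E2 sE2 v2 (c2 p1 (mem_insert_self _ _))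
      (c2 z (mem_insert_of_mem hz)) (i2 p1 (mem_insert_self _ _) z (mem_insert_of_mem hz) n1)
      (fun q r => g6_vc _ _ _)
    have k4 := g6_add3 p3 p2 z Γ2 E3 sE3 v3 (c3 p2 (mem_insert_self _ _))
      (c3 z (mem_insert_of_mem hz)) (i3 p2 (mem_insert_self _ _) z (mem_insert_of_mem hz) n2)
      (fun q r => g6_vc _ _ _)
    have k5 := g6_add3 p4 p3 z Γ3 E4 sE4 v4 (c4 p3 (mem_insert_self _ _))
      (c4 z (mem_insert_of_mem hz)) (i4 p3 (mem_insert_self _ _) z (mem_insert_of_mem hz) n3)
      (fun q r => g6_vc _ _ _)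
    have heq : W0 p1 p2 p3 p4 ∪ Wz p1 p2 p3 p4 z =
        insert (vtx p4) (insert (col p4 p3) (insert (col p4 z) E4)) := by
      unfold W0 Wz
      rw [col_comm p1 p2, col_comm p2 p3, col_comm p3 p4, col_comm z p3, col_comm z p4]
      exact g6_twelve _ _ _ _ _ _ _ _ _ _ _ _
    rw [heq, k5, hE4, k4, hE3, k3, k2]
  -- membership in X
  have nW : ∀ e ∈ W0 p1 p2 p3 p4, e ∉ Γ0 ∧ e ∈ Uall k := by
    intro e he
    unfold W0 at he
    rw [col_comm p1 p2, col_comm p2 p3, col_comm p3 p4] at he
    simp only [mem_insert, mem_singleton] at he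
    rcases he with h | h | h | h | h | h | h
    · exact h ▸ ⟨v1, hvU _⟩
    · exact h ▸ ⟨fun h' => v2 (s01 h'), hvU _⟩
    · exact h ▸ ⟨fun h' => v3 (s12 (s01 h')), hvU _⟩
    · exact h ▸ ⟨fun h' => v4 (s23 (s12 (s01 h'))), hvU _⟩
    · exact h ▸ ⟨fun h' => c2 p1 (mem_insert_self _ _) (s01 h'), hcU _ _⟩
    · exact h ▸ ⟨fun h' => c3 p2 (mem_insert_self _ _) (s12 (s01 h')), hcU _ _⟩
    · exact h ▸ ⟨fun h' => c4 p3 (mem_insert_self _ _) (s23 (s12 (s01 h'))), hcU _ _⟩
  have hWX : W0 p1 p2 p3 p4 ⊆ X := fun e he => hin e (nW e he).2 (nW e he).1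
  -- the families of colours
  set P : ℕ → Pt k := fun j => if j = 0 then p1 else if j = 1 then p2 else if j = 2 then p3 else p4
    with hP
  have P0 : P 0 = p1 := rfl
  have P1 : P 1 = p2 := rfl
  have P2 : P 2 = p3 := rfl
  have P3 : P 3 = p4 := rfl
  set G : ℕ → Finset El := fun j => if j = 0 then Γ0 else if j = 1 then Γ1 else if j = 2 then Γ2
    else Γ3 with hGdef
  have G0 : G 0 = Γ0 := rfl
  have G1 : G 1 = Γ1 := rfl
  have G2 : G 2 = Γ2 := rfl
  have G3 : G 3 = Γ3 := rfl
  set Cs : ℕ → Finset El := fun j => Z.image (col (P j)) with hCs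
  have hPL : ∀ j < 4, P j ∈ Lset k θ := by
    intro j hj
    interval_cases j
    · exact hp1
    · exact hp2
    · exact hp3
    · exact hp4
  have hCn : ∀ j < 4, ∀ z ∈ Z, col (P j) z ∉ G j := by
    intro j hj z hz
    interval_cases j
    · exact c1 z hz
    · exact c2 z (mem_insert_of_mem hz)
    · exact c3 z (mem_insert_of_mem hz)
    · exact c4 z (mem_insert_of_mem hz)
  have hCm : ∀ j < 4, ∀ j' < 4, j < j' → ∀ z ∈ Z, col (P j) z ∈ G j' := by
    intro j hj j' hj' hjj z hz
    interval_cases j' <;> interval_cases j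
    · exact m1c z hz
    · exact s12 (m1c z hz)
    · exact m2c z (mem_insert_of_mem hz)
    · exact s23 (s12 (m1c z hz))
    · exact s23 (m2c z (mem_insert_of_mem hz))
    · exact m3c z (mem_insert_of_mem hz)
  have hGG : ∀ j < 4, Γ0 ⊆ G j := by
    intro j hj
    interval_cases j
    · exact subset_rfl
    · exact s01
    · exact s01.trans s12
    · exact (s01.trans s12).trans s23
  have hCn0 : ∀ j < 4, ∀ z ∈ Z, col (P j) z ∉ Γ0 := fun j hj z hz h => hCn j hj z hz (hGG j hj h)
  have hCX : ∀ j < 4, Cs j ⊆ X := by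
    intro j hj e he
    obtain ⟨z, hz, rfl⟩ := mem_image.1 he
    exact hin _ (hcU _ _) (hCn0 j hj z hz)
  have hCd' : ∀ j < 4, ∀ j' < 4, j < j' → Disjoint (Cs j) (Cs j') := by
    intro j hj j' hj' hjj
    rw [disjoint_left]
    intro e he he'
    obtain ⟨z, hz, rfl⟩ := mem_image.1 he
    obtain ⟨z', hz', he'⟩ := mem_image.1 he'
    apply hCn j' hj' z' hz'
    rw [he']
    exact hCm j hj j' hj' hjj z hz
  have hCd : ∀ j < 4, ∀ j' < 4, j ≠ j' → Disjoint (Cs j) (Cs j') := by
    intro j hj j' hj' hjj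
    rcases Nat.lt_or_gt_of_ne hjj with h | h
    · exact hCd' j hj j' hj' h
    · exact (hCd' j' hj' j hj h).symm
  have hC40 : ∀ j < 4, (Cs j).card ≤ 40 := fun j _ => card_image_le.trans hZ40
  have hCe : ∀ j < 4, ∀ c ∈ Cs j, ∃ d, c = El.p θ.1 d ∧ d.bodd = false := by
    intro j hj c hc
    obtain ⟨z, hz, rfl⟩ := mem_image.1 hc
    have h1 := g6_mem.1 (hPL j hj)
    have h2 := g6_mem.1 (hZL hz)
    refine ⟨dst ((P j).2 - z.2), ?_, ?_⟩
    · rw [col_same (h1.1.trans h2.1.symm), h1.1]
    · rw [dst_bodd, val_sub_bodd, h1.2, h2.2, Bool.xor_self]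
  set Call : Finset El := (range 4).biUnion Cs with hCall
  have hCallc : Call.card ≤ 160 := by
    have := card_biUnion_le_card_mul (range 4) Cs 40 (fun j hj => hC40 j (mem_range.1 hj))
    rw [card_range] at this
    omega
  have hWzs : ∀ z, Wz p1 p2 p3 p4 z = insert (vtx z) ((range 4).image (fun j => col (P j) z)) := by
    intro z
    unfold Wz
    rw [col_comm z p3, col_comm z p4]
    have : range 4 = {0, 1, 2, 3} := rfl
    rw [this, image_insert, image_insert, image_insert, image_singleton, P0, P1, P2, P3]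
  have hXz : ∀ z ∈ Z, W0 p1 p2 p3 p4 ∪ Wz p1 p2 p3 p4 z ⊆ X := by
    intro z hz
    refine union_subset hWX ?_
    rw [hWzs]
    refine insert_subset (hys (hZv z hz)) ?_
    intro e he
    obtain ⟨j, hj, rfl⟩ := mem_image.1 he
    exact hCX j (mem_range.1 hj) (mem_image_of_mem _ hz)
  -- the slot
  obtain ⟨s0, hs0⟩ : avail.Nonempty := card_pos.1 (by omega)
  have hF'c : (F ∪ ys ∪ Call).card ≤ F.card + 200 := by
    have h1 := card_union_le (F ∪ ys) Call
    have h2 := card_union_le F ys
    omega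
  obtain ⟨Out, hOX, hOF, hOd, hOfill⟩ := slot_window C (mem_range.1 (hav hs0)) hw hp1 hp2 hp3 hp4
    Z hZL hZne hZ40 h12 hXz (F ∪ ys ∪ Call) (by omega)
  have hOc : Out.card ≤ 3 * ℓ := by
    obtain ⟨z, hz⟩ := hZne
    have h1 := Fill.card_eq (by omega) (hOfill z hz)
    have h2 : Out.card ≤ (Out ∪ (W0 p1 p2 p3 p4 ∪ Wz p1 p2 p3 p4 z)).card :=
      card_le_card subset_union_left
    omega
  have hWc : (W0 p1 p2 p3 p4).card ≤ 7 := by
    unfold W0
    exact (card_insert_le _ _).trans (Nat.succ_le_succ card_le_six)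
  -- the fans
  set F0 : Finset El := F ∪ ys ∪ Out ∪ W0 p1 p2 p3 p4 ∪ Call with hF0
  have hF0c : F0.card ≤ F.card + 3 * ℓ + 207 := by
    have h1 := card_union_le (F ∪ ys ∪ Out ∪ W0 p1 p2 p3 p4) Call
    have h2 := card_union_le (F ∪ ys ∪ Out) (W0 p1 p2 p3 p4)
    have h3 := card_union_le (F ∪ ys) Out
    have h4 := card_union_le F ys
    rw [hF0]
    omega
  have hCC : ∀ j < 4, Cs j ⊆ Call := fun j hj => subset_biUnion_of_mem Cs (mem_range.2 hj)
  have hCF0 : ∀ j < 4, Cs j ⊆ F0 := fun j hj => (hCC j hj).trans subset_union_right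
  have herase : (avail.erase s0).card + 1 = avail.card := card_erase_add_one hs0
  obtain ⟨lam, T, B, a1, a2, a3, a4⟩ := g6_fans C (by omega) θ.1 Cs F0 (avail.erase s0)
    ((erase_subset _ _).trans hav) 4 hCX hCF0 hCe hC40 hCd (by omega) (by omega)
  obtain ⟨T', hT', hT'c, B', hB', hcov⟩ := g6_assemble (X := X) (w := w) (ℓ := ℓ) ys F F0 Out
    (W0 p1 p2 p3 p4) s0 Cs avail hs0 lam T B 4 (fun j hj => (a1 j hj).2) a2
    (fun j hj c hc => ⟨(a3 j hj c hc).1, (a3 j hj c hc).2.1, (a3 j hj c hc).2.2.2.1,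
      (a3 j hj c hc).2.2.2.2.1, (a3 j hj c hc).2.2.2.2.2.1, (a3 j hj c hc).2.2.2.2.2.2⟩) a4 hC40 hCd
    (subset_union_left.trans (subset_union_left.trans subset_union_left))
    ((subset_union_right (s₁ := F ∪ ys)).trans (subset_union_left.trans subset_union_left))
    ((subset_union_right (s₁ := F ∪ ys ∪ Out)).trans subset_union_left) hCF0
    (hOF.mono_right subset_union_left)
    (disjoint_left.2 fun e he he' => (nW e he).1 (hFys he'))
    (fun j hj => disjoint_left.2 fun e he he' => by
      obtain ⟨z, hz, rfl⟩ := mem_image.1 he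
      exact hCn0 j hj z hz (hFys he'))
    (fun j hj => (hOF.mono_right ((hCC j hj).trans subset_union_right)).symm)
    (fun j hj => disjoint_left.2 fun e he he' => by
      obtain ⟨z, hz, rfl⟩ := mem_image.1 he
      have h1 := h12 z hz
      have h2 : (Wz p1 p2 p3 p4 z).card ≤ 5 := by
        unfold Wz
        exact card_le_five
      have h3 := card_union_add_card_inter (W0 p1 p2 p3 p4) (Wz p1 p2 p3 p4 z)
      have h4 : 0 < (W0 p1 p2 p3 p4 ∩ Wz p1 p2 p3 p4 z).card := by
        refine card_pos.2 ⟨col (P j) z, mem_inter.2 ⟨he', ?_⟩⟩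
        rw [hWzs]
        exact mem_insert_of_mem (mem_image.2 ⟨j, mem_range.2 hj, rfl⟩)
      omega)
    (fun y hy => by
      refine ⟨fun j => col (P j) (g y), fun j _ => mem_image_of_mem _ (mem_image_of_mem _ hy), ?_⟩
      have h1 := hOfill (g y) (mem_image_of_mem _ hy)
      rw [hWzs, (hg y hy).2] at h1
      exact h1)
  exact ⟨T', hT', by omega, B', hB', hcov⟩

end SqCyc
end

section

section

/-! # DC-1 decompositions from families of cyclic orders -/

open Finset

namespace SqCyc

private lemma one_ne_zero' (k : ℕ) (hk : 1 ≤ k) : (1 : ZMod (4 * k + 1)) ≠ 0 := by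
  intro h
  have h2 : ((1 : ℕ) : ZMod (4 * k + 1)) = 0 := by exact_mod_cast h
  rw [ZMod.natCast_eq_zero_iff] at h2
  have := Nat.le_of_dvd (by norm_num) h2
  omega

private lemma two_ne_zero' (k : ℕ) (hk : 1 ≤ k) : (2 : ZMod (4 * k + 1)) ≠ 0 := by
  intro h
  have h2 : ((2 : ℕ) : ZMod (4 * k + 1)) = 0 := by exact_mod_cast h
  rw [ZMod.natCast_eq_zero_iff] at h2
  have := Nat.le_of_dvd (by norm_num) h2
  omega

/-- step -/
private def stp (k : ℕ) (b : Bool) : ZMod (4 * k + 1) := if b then 2 else 1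

private lemma stp_ne (k : ℕ) (hk : 1 ≤ k) (b : Bool) : stp k b ≠ 0 := by
  cases b
  · simpa [stp] using one_ne_zero' k hk
  · simpa [stp] using two_ne_zero' k hk

private lemma stp_exists (k : ℕ) (t : ZMod (4 * k + 1)) (ht : t = 1 ∨ t = 2) :
    ∃ b, stp k b = t := by
  rcases ht with rfl | rfl
  · exact ⟨false, rfl⟩
  · exact ⟨true, rfl⟩

private lemma stp_mem (k : ℕ) (b : Bool) : stp k b = 1 ∨ stp k b = 2 := by
  cases b
  · left; rfl
  · right; rfl

private lemma sqCycle_adj (k : ℕ) (hk : 1 ≤ k) (i j : ZMod (4 * k + 1)) :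
    (sqCycle (4 * k + 1)).Adj i j ↔ ∃ b, j = i + stp k b ∨ i = j + stp k b := by
  unfold sqCycle
  rw [SimpleGraph.fromRel_adj]
  constructor
  · rintro ⟨-, (h | h) | (h | h)⟩
    · exact ⟨false, Or.inl (by simp [stp, ← h])⟩
    · exact ⟨true, Or.inl (by simp [stp, ← h])⟩
    · exact ⟨false, Or.inr (by simp [stp, ← h])⟩
    · exact ⟨true, Or.inr (by simp [stp, ← h])⟩
  · rintro ⟨b, h | h⟩
    · refine ⟨?_, Or.inl ?_⟩
      · intro h2
        apply stp_ne k hk b
        rw [h2] at h
        simpa using h.symm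
      · rcases stp_mem k b with h3 | h3
        · left; rw [h, h3]; ring
        · right; rw [h, h3]; ring
    · refine ⟨?_, Or.inr ?_⟩
      · intro h2
        apply stp_ne k hk b
        rw [← h2] at h
        simpa using h.symm
      · rcases stp_mem k b with h3 | h3
        · left; rw [h, h3]; ring
        · right; rw [h, h3]; ring

theorem decomposes_of_orders (k : ℕ) (hk : 1 ≤ k) (V : Type) [Fintype V] [DecidableEq V]
    (hV : Fintype.card V = 4 * k + 1) (c : Fin k → ZMod (4 * k + 1) → V)
    (hinj : ∀ g, Function.Injective (c g))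
    (hcov : ∀ u v : V, u ≠ v → ∃ (g : Fin k) (a : ZMod (4 * k + 1)) (t : ZMod (4 * k + 1)),
      (t = 1 ∨ t = 2) ∧ ((c g a = u ∧ c g (a + t) = v) ∨ (c g a = v ∧ c g (a + t) = u))) :
    Decomposes (4 * k + 1) := by
  have hbij : ∀ g, Function.Bijective (c g) := by
    intro g
    rw [Fintype.bijective_iff_injective_and_card]
    refine ⟨hinj g, ?_⟩
    rw [hV, ZMod.card]
  let e : Fin k → (ZMod (4 * k + 1) ≃ V) := fun g => Equiv.ofBijective (c g) (hbij g)
  have he : ∀ g a, e g a = c g a := fun g a => rfl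
  let φ : V ≃ Fin (4 * k + 1) := Fintype.equivFinOfCardEq hV
  -- counting map
  let Φ : Fin k × ZMod (4 * k + 1) × Bool → {p : Sym2 V // ¬ p.IsDiag} := fun q =>
    ⟨s(c q.1 q.2.1, c q.1 (q.2.1 + stp k q.2.2)), by
      rw [Sym2.mk_isDiag_iff]
      intro h
      have := hinj _ h
      exact stp_ne k hk q.2.2 (by simpa using this.symm)⟩
  have hsurj : Function.Surjective Φ := by
    rintro ⟨p, hp⟩
    induction p with
    | _ u v =>
      rw [Sym2.mk_isDiag_iff] at hp
      obtain ⟨g, a, t, ht, h⟩ := hcov u v hp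
      obtain ⟨b, rfl⟩ := stp_exists k t ht
      refine ⟨(g, a, b), ?_⟩
      apply Subtype.ext
      show s(c g a, c g (a + stp k b)) = s(u, v)
      rcases h with ⟨h1, h2⟩ | ⟨h1, h2⟩
      · rw [h1, h2]
      · rw [h1, h2]; exact Sym2.eq_swap
  have hcard : Fintype.card (Fin k × ZMod (4 * k + 1) × Bool) =
      Fintype.card {p : Sym2 V // ¬ p.IsDiag} := by
    rw [Sym2.card_subtype_not_diag, hV]
    simp only [Fintype.card_prod, Fintype.card_fin, ZMod.card, Fintype.card_bool]
    rw [Nat.choose_two_right]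
    have : (4 * k + 1) * (4 * k + 1 - 1) = (k * ((4 * k + 1) * 2)) * 2 := by
      rw [Nat.add_sub_cancel]; ring
    rw [this, Nat.mul_div_cancel _ (by norm_num)]
  have hΦ : Function.Injective Φ :=
    ((Fintype.bijective_iff_surjective_and_card Φ).2 ⟨hsurj, hcard⟩).1
  have hk4 : (4 * k + 1 - 1) / 4 = k := by omega
  let B : Fin ((4 * k + 1 - 1) / 4) → SimpleGraph (Fin (4 * k + 1)) := fun b =>
    (sqCycle (4 * k + 1)).comap (fun x => (e (Fin.cast hk4 b)).symm (φ.symm x))
  have hBadj : ∀ b (u v : Fin (4 * k + 1)), (B b).Adj u v ↔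
      ∃ (a : ZMod (4 * k + 1)) (t : Bool),
        s(c (Fin.cast hk4 b) a, c (Fin.cast hk4 b) (a + stp k t)) = s(φ.symm u, φ.symm v) := by
    intro b u v
    show (sqCycle (4 * k + 1)).Adj ((e (Fin.cast hk4 b)).symm (φ.symm u))
      ((e (Fin.cast hk4 b)).symm (φ.symm v)) ↔ _
    rw [sqCycle_adj k hk]
    constructor
    · rintro ⟨t, h | h⟩
      · refine ⟨(e (Fin.cast hk4 b)).symm (φ.symm u), t, ?_⟩
        rw [← h, ← he, ← he]
        simp
      · refine ⟨(e (Fin.cast hk4 b)).symm (φ.symm v), t, ?_⟩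
        rw [← h, ← he, ← he]
        simp only [Equiv.apply_symm_apply]
        exact Sym2.eq_swap
    · rintro ⟨a, t, h⟩
      rw [← he, ← he, Sym2.eq_iff] at h
      refine ⟨t, ?_⟩
      rcases h with ⟨h1, h2⟩ | ⟨h1, h2⟩
      · left; rw [← h1, ← h2]; simp
      · right; rw [← h1, ← h2]; simp
  refine ⟨B, ?_, ?_⟩
  · intro b
    refine ⟨⟨(φ.symm.trans (e (Fin.cast hk4 b)).symm), ?_⟩⟩
    intro x y
    rfl
  · intro u v huv
    have huv' : φ.symm u ≠ φ.symm v := fun h => huv (φ.symm.injective h)
    obtain ⟨g, a, t, ht, h⟩ := hcov _ _ huv'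
    obtain ⟨b, rfl⟩ := stp_exists k t ht
    refine ⟨Fin.cast hk4.symm g, ?_, ?_⟩
    · show (B (Fin.cast hk4.symm g)).Adj u v
      rw [hBadj]
      refine ⟨a, b, ?_⟩
      have hg : Fin.cast hk4 (Fin.cast hk4.symm g) = g := by ext; simp
      rw [hg]
      rcases h with ⟨h1, h2⟩ | ⟨h1, h2⟩
      · rw [h1, h2]
      · rw [h1, h2]; exact Sym2.eq_swap
    · intro b' hb'
      have hb'' := (hBadj b' u v).1 hb'
      obtain ⟨a', t', h'⟩ := hb''
      have hs : s(c g a, c g (a + stp k b)) = s(φ.symm u, φ.symm v) := by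
        rcases h with ⟨h1, h2⟩ | ⟨h1, h2⟩
        · rw [h1, h2]
        · rw [h1, h2]; exact Sym2.eq_swap
      have hEq : Φ (Fin.cast hk4 b', a', t') = Φ (g, a, b) := by
        apply Subtype.ext
        show s(c (Fin.cast hk4 b') a', c (Fin.cast hk4 b') (a' + stp k t')) =
          s(c g a, c g (a + stp k b))
        rw [h', hs]
      have := hΦ hEq
      have h3 : Fin.cast hk4 b' = g := congrArg Prod.fst this
      rw [← h3]
      ext; simp

end SqCyc
end

section

/-! # DC-2 in a half block all colours occur -/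

open Finset

namespace SqCyc

variable {k : ℕ} [NeZero k] {y : ℕ → Pt k}

private theorem dec2_kpos : 0 < k := Nat.pos_of_ne_zero (NeZero.ne k)

private theorem dec2_el0 (y : ℕ → Pt k) (i : ℕ) : el y (0, i) = vtx (y i) := by
  unfold el
  rw [if_pos rfl]

private theorem dec2_el1 (y : ℕ → Pt k) (i : ℕ) : el y (1, i) = col (y i) (y (i + 1)) := by
  unfold el
  rw [if_neg (by norm_num)]

private theorem dec2_el2 (y : ℕ → Pt k) (i : ℕ) : el y (2, i) = col (y i) (y (i + 2)) := by
  unfold el
  rw [if_neg (by norm_num)]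

private theorem dec2_vne (h : HalfBlock k y) {i j : ℕ} (hi : i < 2 * k) (hj : j < 2 * k)
    (hij : i ≠ j) : vtx (y i) ≠ vtx (y j) := by
  intro h1
  rw [← dec2_el0, ← dec2_el0] at h1
  have h2 := h.inj (x₁ := (0, i)) (x₂ := (0, j)) ⟨by norm_num, by simpa using hi⟩
    ⟨by norm_num, by simpa using hj⟩ h1
  exact hij (Prod.mk.inj h2).2

/-- the set of colours -/
private def dec2_UC (k : ℕ) : Finset El :=
  (univ ×ˢ Ico 1 k).image (fun q : Bool × ℕ => El.p q.1 q.2) ∪ (range (2 * k)).image El.x

omit [NeZero k] in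
private theorem dec2_mem_UC {e : El} (he : e ∈ U k) (hv : ∀ i z, e ≠ El.v i z) :
    e ∈ dec2_UC k := by
  simp only [U, Finset.mem_union, Finset.mem_image, Finset.mem_product, Finset.mem_univ,
    true_and, Finset.mem_range, Finset.mem_Ico] at he
  simp only [dec2_UC, Finset.mem_union, Finset.mem_image, Finset.mem_product, Finset.mem_univ,
    true_and, Finset.mem_range, Finset.mem_Ico]
  rcases he with (⟨a, _, h2⟩ | h) | h
  · exact absurd h2.symm (hv _ _)
  · exact Or.inl h
  · exact Or.inr h

omit [NeZero k] in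
private theorem dec2_card_UC (hk : 1 ≤ k) : (dec2_UC k).card = 4 * k - 2 := by
  unfold dec2_UC
  rw [Finset.card_union_of_disjoint, Finset.card_image_of_injective, Finset.card_image_of_injective,
    Finset.card_product, Nat.card_Ico, Finset.card_range, Finset.card_univ, Fintype.card_bool]
  · omega
  · intro a b hab
    exact El.x.inj hab
  · intro a b hab
    have := El.p.inj hab
    exact Prod.ext this.1 this.2
  · rw [Finset.disjoint_left]
    intro x hx hx'
    obtain ⟨a, _, rfl⟩ := Finset.mem_image.1 hx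
    obtain ⟨b, _, hb⟩ := Finset.mem_image.1 hx'
    exact El.noConfusion hb

omit [NeZero k] in
private theorem dec2_col_ne_v (P Q : Pt k) (i : Bool) (z : ℕ) : col P Q ≠ El.v i z := by
  unfold col
  split_ifs <;> simp

/-- every colour is the colour of a pair of positions at distance one or two, or the special one -/
theorem HalfBlock.exists_colour (h : HalfBlock k y) (hk : 2 ≤ k) {e : El} (he : e ∈ U k)
    (hv : ∀ i z, e ≠ El.v i z) :
    (∃ (t i : ℕ), (t = 1 ∨ t = 2) ∧ i + t < 2 * k ∧ col (y i) (y (i + t)) = e) ∨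
    e = col (y (2 * k - 2)) ((y (2 * k - 1)).1, (y (2 * k - 1)).2 + (k : ZMod (2 * k))) := by
  classical
  set sp := col (y (2 * k - 2)) ((y (2 * k - 1)).1, (y (2 * k - 1)).2 + (k : ZMod (2 * k)))
    with hsp
  let A1 := (range (2 * k - 1)).image (fun i => el y (1, i))
  let A2 := (range (2 * k - 2)).image (fun i => el y (2, i))
  have hA1 : A1.card = 2 * k - 1 := by
    rw [Finset.card_image_of_injOn, Finset.card_range]
    intro i hi j hj hij
    rw [Finset.coe_range, Set.mem_Iio] at hi hj
    have h2 := h.inj (x₁ := (1, i)) (x₂ := (1, j)) ⟨by norm_num, by show i + 1 < 2 * k; omega⟩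
      ⟨by norm_num, by show j + 1 < 2 * k; omega⟩ hij
    exact (Prod.mk.inj h2).2
  have hA2 : A2.card = 2 * k - 2 := by
    rw [Finset.card_image_of_injOn, Finset.card_range]
    intro i hi j hj hij
    rw [Finset.coe_range, Set.mem_Iio] at hi hj
    have h2 := h.inj (x₁ := (2, i)) (x₂ := (2, j)) ⟨by norm_num, by show i + 2 < 2 * k; omega⟩
      ⟨by norm_num, by show j + 2 < 2 * k; omega⟩ hij
    exact (Prod.mk.inj h2).2
  have hd : Disjoint A1 A2 := by
    rw [Finset.disjoint_left]
    intro x hx hx'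
    obtain ⟨i, hi, rfl⟩ := Finset.mem_image.1 hx
    obtain ⟨j, hj, hij⟩ := Finset.mem_image.1 hx'
    rw [Finset.mem_range] at hi hj
    have h2 := h.inj (x₁ := (2, j)) (x₂ := (1, i)) ⟨by norm_num, by show j + 2 < 2 * k; omega⟩
      ⟨by norm_num, by show i + 1 < 2 * k; omega⟩ hij
    exact absurd (Prod.mk.inj h2).1 (by norm_num)
  have hs : sp ∉ A1 ∪ A2 := by
    intro hx
    rcases Finset.mem_union.1 hx with hx | hx
    · obtain ⟨i, hi, hi'⟩ := Finset.mem_image.1 hx
      rw [Finset.mem_range] at hi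
      exact h.spec (1, i) (by norm_num) (by show i + 1 < 2 * k; omega) hi'
    · obtain ⟨i, hi, hi'⟩ := Finset.mem_image.1 hx
      rw [Finset.mem_range] at hi
      exact h.spec (2, i) (by norm_num) (by show i + 2 < 2 * k; omega) hi'
  have hc : (insert sp (A1 ∪ A2)).card = 4 * k - 2 := by
    rw [Finset.card_insert_of_notMem hs, Finset.card_union_of_disjoint hd, hA1, hA2]
    omega
  have hsub : insert sp (A1 ∪ A2) ⊆ dec2_UC k := by
    intro x hx
    rcases Finset.mem_insert.1 hx with rfl | hx
    · refine dec2_mem_UC (col_mem_U ?_) (dec2_col_ne_v _ _)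
      rw [Ne, vtx_eq_iff]
      rintro ⟨h1, _⟩
      rw [h.t2] at h1
      have h2 := h.t3
      rw [← h1] at h2
      exact absurd h2 (by simp)
    · rcases Finset.mem_union.1 hx with hx | hx
      · obtain ⟨i, hi, rfl⟩ := Finset.mem_image.1 hx
        rw [Finset.mem_range] at hi
        rw [dec2_el1]
        exact dec2_mem_UC (col_mem_U (dec2_vne h (by omega) (by omega) (by omega)))
          (dec2_col_ne_v _ _)
      · obtain ⟨i, hi, rfl⟩ := Finset.mem_image.1 hx
        rw [Finset.mem_range] at hi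
        rw [dec2_el2]
        exact dec2_mem_UC (col_mem_U (dec2_vne h (by omega) (by omega) (by omega)))
          (dec2_col_ne_v _ _)
  have heq : insert sp (A1 ∪ A2) = dec2_UC k :=
    Finset.eq_of_subset_of_card_le hsub (by rw [hc, dec2_card_UC (by omega)])
  have hmem : e ∈ insert sp (A1 ∪ A2) := by
    rw [heq]
    exact dec2_mem_UC he hv
  rcases Finset.mem_insert.1 hmem with hx | hx
  · exact Or.inr hx
  · left
    rcases Finset.mem_union.1 hx with hx | hx
    · obtain ⟨i, hi, hi'⟩ := Finset.mem_image.1 hx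
      rw [Finset.mem_range] at hi
      rw [dec2_el1] at hi'
      exact ⟨1, i, Or.inl rfl, by omega, hi'⟩
    · obtain ⟨i, hi, hi'⟩ := Finset.mem_image.1 hx
      rw [Finset.mem_range] at hi
      rw [dec2_el2] at hi'
      exact ⟨2, i, Or.inr rfl, by omega, hi'⟩

/-- every vertex occurs exactly once -/
theorem HalfBlock.exists_vertex (h : HalfBlock k y) (P : Pt k) :
    ∃ i < 2 * k, y i = P ∨ y i = (P.1, P.2 + (k : ZMod (2 * k))) := by
  classical
  let UV : Finset El := (univ ×ˢ range k).image (fun q : Bool × ℕ => El.v q.1 q.2)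
  have hUV : UV.card ≤ 2 * k := by
    refine Finset.card_image_le.trans ?_
    rw [Finset.card_product, Finset.card_range, Finset.card_univ, Fintype.card_bool]
  have hV : ∀ Q : Pt k, vtx Q ∈ UV := by
    intro Q
    refine Finset.mem_image.2 ⟨(Q.1, Q.2.val % k), ?_, rfl⟩
    simp [Nat.mod_lt _ (dec2_kpos (k := k))]
  have hA : ((range (2 * k)).image (fun i => vtx (y i))).card = 2 * k := by
    rw [Finset.card_image_of_injOn, Finset.card_range]
    intro i hi j hj hij
    rw [Finset.coe_range, Set.mem_Iio] at hi hj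
    by_contra hne
    exact dec2_vne h hi hj hne hij
  have heq : (range (2 * k)).image (fun i => vtx (y i)) = UV := by
    refine Finset.eq_of_subset_of_card_le ?_ (by rw [hA]; exact hUV)
    intro x hx
    obtain ⟨i, _, rfl⟩ := Finset.mem_image.1 hx
    exact hV _
  have hm := hV P
  rw [← heq] at hm
  obtain ⟨i, hi, hi'⟩ := Finset.mem_image.1 hm
  rw [Finset.mem_range] at hi
  rw [vtx_eq_iff] at hi'
  refine ⟨i, hi, ?_⟩
  rcases hi'.2 with h1 | h1
  · exact Or.inl (Prod.ext hi'.1 h1)
  · exact Or.inr (Prod.ext hi'.1 h1)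

/-- pairs with the same colour are translates of each other -/
theorem exists_translate {P Q R S : Pt k} (h : col P Q = col R S) (hv : vtx P ≠ vtx Q) :
    ∃ t : ZMod (2 * k), (P = (R.1, R.2 + t) ∧ Q = (S.1, S.2 + t)) ∨
      (Q = (R.1, R.2 + t) ∧ P = (S.1, S.2 + t)) := by
  have : NeZero (2 * k) := ⟨by have := NeZero.ne k; omega⟩
  obtain ⟨p1, p2⟩ := P
  obtain ⟨q1, q2⟩ := Q
  obtain ⟨r1, r2⟩ := R
  obtain ⟨s1, s2⟩ := S
  have hadd : ∀ {a b c d : ZMod (2 * k)}, a - b = c - d → a = c + (a - c) ∧ b = d + (a - c) := by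
    intro a b c d h1
    constructor
    · ring
    · linear_combination -h1
  have hplus : ∀ {a b : Bool}, p2 - q2 = r2 - s2 →
      ∃ t : ZMod (2 * k), (((a, p2) : Pt k) = (a, r2 + t) ∧ ((b, q2) : Pt k) = (b, s2 + t)) := by
    intro a b h1
    obtain ⟨h2, h3⟩ := hadd h1
    exact ⟨p2 - r2, by rw [← h2], by rw [← h3]⟩
  have hminus : ∀ {a b : Bool}, p2 - q2 = s2 - r2 →
      ∃ t : ZMod (2 * k), (((b, q2) : Pt k) = (b, r2 + t) ∧ ((a, p2) : Pt k) = (a, s2 + t)) := by
    intro a b h1
    obtain ⟨h2, h3⟩ := hadd h1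
    exact ⟨p2 - s2, by rw [← h3], by rw [← h2]⟩
  unfold col at h
  cases p1 <;> cases q1 <;> cases r1 <;> cases s1 <;>
    simp only [if_true, Bool.false_eq_true, Bool.true_eq_false, if_false, reduceCtorEq,
      El.p.injEq, El.x.injEq, true_and, false_and] at h
  · rw [dst_eq_iff] at h
    rcases h with h | h
    · obtain ⟨t, ht⟩ := hplus (a := false) (b := false) h
      exact ⟨t, Or.inl ht⟩
    · obtain ⟨t, ht⟩ := hminus (a := false) (b := false) (by rw [h]; ring)
      exact ⟨t, Or.inr ht⟩
  · have h1 := ZMod.val_injective _ h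
    obtain ⟨t, ht⟩ := hplus (a := false) (b := true) (by linear_combination -h1)
    exact ⟨t, Or.inl ht⟩
  · have h1 := ZMod.val_injective _ h
    obtain ⟨t, ht⟩ := hminus (a := false) (b := true) (by linear_combination -h1)
    exact ⟨t, Or.inr ht⟩
  · have h1 := ZMod.val_injective _ h
    obtain ⟨t, ht⟩ := hminus (a := true) (b := false) (by linear_combination h1)
    exact ⟨t, Or.inr ht⟩
  · have h1 := ZMod.val_injective _ h
    obtain ⟨t, ht⟩ := hplus (a := true) (b := false) (by linear_combination h1)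
    exact ⟨t, Or.inl ht⟩
  · rw [dst_eq_iff] at h
    rcases h with h | h
    · obtain ⟨t, ht⟩ := hplus (a := true) (b := true) h
      exact ⟨t, Or.inl ht⟩
    · obtain ⟨t, ht⟩ := hminus (a := true) (b := true) (by rw [h]; ring)
      exact ⟨t, Or.inr ht⟩

end SqCyc
end

section

/-! # DC-3 half blocks give decompositions -/

open Finset

namespace SqCyc

/-- translate of a point -/
def dc3_tr {k : ℕ} (P : Pt k) (t : ZMod (2 * k)) : Pt k := (P.1, P.2 + t)

/-- the cyclic orders -/
def dc3_c (k : ℕ) (y : ℕ → Pt k) (g j : ℕ) : Option (Pt k) :=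
  if j = 0 then none
  else if j ≤ 2 * k then some (dc3_tr (y (j - 1)) (g : ZMod (2 * k)))
  else some (dc3_tr (y (4 * k - j)) ((k : ZMod (2 * k)) + (g : ZMod (2 * k))))

theorem dc3_kk (k : ℕ) : (k : ZMod (2 * k)) + (k : ZMod (2 * k)) = 0 := by
  have h : ((2 * k : ℕ) : ZMod (2 * k)) = 0 := ZMod.natCast_self (2 * k)
  push_cast at h
  rw [← h]
  ring

theorem dc3_tau (k : ℕ) [NeZero k] (τ : ZMod (2 * k)) :
    ∃ g : ℕ, g < k ∧ (τ = (g : ZMod (2 * k)) ∨ τ = (k : ZMod (2 * k)) + (g : ZMod (2 * k))) := by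
  have hk : 0 < k := Nat.pos_of_ne_zero (NeZero.ne k)
  have : NeZero (2 * k) := ⟨by omega⟩
  have hlt : τ.val < 2 * k := ZMod.val_lt τ
  by_cases h : τ.val < k
  · exact ⟨τ.val, h, Or.inl (ZMod.natCast_zmod_val τ).symm⟩
  · refine ⟨τ.val - k, by omega, Or.inr ?_⟩
    have h1 : τ.val = k + (τ.val - k) := by omega
    calc τ = ((τ.val : ℕ) : ZMod (2 * k)) := (ZMod.natCast_zmod_val τ).symm
      _ = ((k + (τ.val - k) : ℕ) : ZMod (2 * k)) := by rw [← h1]
      _ = _ := by push_cast; ring

theorem decomposes_of_halfBlock (k : ℕ) [NeZero k] (hk : 2 ≤ k) (y : ℕ → Pt k)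
    (h : HalfBlock k y) : Decomposes (4 * k + 1) := by
  have hk0 : 0 < k := by omega
  have : NeZero (2 * k) := ⟨by omega⟩
  have : NeZero (4 * k + 1) := ⟨by omega⟩
  have hkne : (k : ZMod (2 * k)) ≠ 0 := by
    intro h0
    have := (ZMod.natCast_eq_zero_iff k (2 * k)).mp h0
    have := Nat.le_of_dvd hk0 this
    omega
  -- vertices are distinct
  have hvinj : ∀ i j, i < 2 * k → j < 2 * k → vtx (y i) = vtx (y j) → i = j := by
    intro i j hi hj hij
    have h1 : el y (0, i) = el y (0, j) := by simpa [el] using hij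
    have h2 := h.inj (x₁ := (0, i)) (x₂ := (0, j)) (by simp; omega) (by simp; omega) h1
    exact (Prod.mk.inj h2).2
  set c : Fin k → ZMod (4 * k + 1) → Option (Pt k) := fun g a => dc3_c k y g a.val with hc
  have hval : ∀ j : ℕ, j ≤ 4 * k → ((j : ℕ) : ZMod (4 * k + 1)).val = j := by
    intro j hj
    exact ZMod.val_cast_of_lt (by omega)
  have hcval : ∀ (g : Fin k) (j : ℕ), j ≤ 4 * k → c g (j : ZMod (4 * k + 1)) = dc3_c k y g j := by
    intro g j hj
    simp only [hc]
    rw [hval j hj]
  -- values of the orders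
  have cz : ∀ g : ℕ, dc3_c k y g 0 = none := by intro g; simp [dc3_c]
  have c1 : ∀ (g i : ℕ), i < 2 * k →
      dc3_c k y g (1 + i) = some (dc3_tr (y i) (g : ZMod (2 * k))) := by
    intro g i hi
    unfold dc3_c
    rw [if_neg (by omega), if_pos (by omega)]
    congr 2
    congr 1
    omega
  have c2 : ∀ (g i : ℕ), i < 2 * k →
      dc3_c k y g (4 * k - i) =
        some (dc3_tr (y i) ((k : ZMod (2 * k)) + (g : ZMod (2 * k)))) := by
    intro g i hi
    unfold dc3_c
    rw [if_neg (by omega), if_neg (by omega)]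
    congr 2
    congr 1
    omega
  -- adjacency relation
  let Adj : Option (Pt k) → Option (Pt k) → Prop := fun u v =>
    ∃ (g : Fin k) (a : ZMod (4 * k + 1)) (t : ZMod (4 * k + 1)),
      (t = 1 ∨ t = 2) ∧ ((c g a = u ∧ c g (a + t) = v) ∨ (c g a = v ∧ c g (a + t) = u))
  have hsymm : ∀ u v, Adj u v → Adj v u := by
    rintro u v ⟨g, a, t, ht, h1⟩
    exact ⟨g, a, t, ht, h1.symm⟩
  -- adjacency without wrap around
  have hadj : ∀ (g j t : ℕ) (u v : Option (Pt k)), g < k → (t = 1 ∨ t = 2) → j + t ≤ 4 * k →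
      dc3_c k y g j = u → dc3_c k y g (j + t) = v → Adj u v := by
    intro g j t u v hg ht hjt hu hv
    refine ⟨⟨g, hg⟩, (j : ZMod (4 * k + 1)), (t : ZMod (4 * k + 1)), ?_, Or.inl ⟨?_, ?_⟩⟩
    · rcases ht with rfl | rfl
      · left; simp
      · right; simp
    · rw [hcval _ j (by omega)]; exact hu
    · rw [← Nat.cast_add, hcval _ (j + t) hjt]; exact hv
  -- adjacency with wrap around
  have hwrap : ∀ (g j t s : ℕ) (u v : Option (Pt k)), g < k → (t = 1 ∨ t = 2) → j ≤ 4 * k →
      s ≤ 4 * k → j + t = s + (4 * k + 1) →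
      dc3_c k y g j = u → dc3_c k y g s = v → Adj u v := by
    intro g j t s u v hg ht hj hs hjt hu hv
    refine ⟨⟨g, hg⟩, (j : ZMod (4 * k + 1)), (t : ZMod (4 * k + 1)), ?_, Or.inl ⟨?_, ?_⟩⟩
    · rcases ht with rfl | rfl
      · left; simp
      · right; simp
    · rw [hcval _ j (by omega)]; exact hu
    · have h1 : (j : ZMod (4 * k + 1)) + (t : ZMod (4 * k + 1)) = (s : ZMod (4 * k + 1)) := by
        rw [← Nat.cast_add, hjt]
        rw [Nat.cast_add, ZMod.natCast_self, add_zero]
      rw [h1, hcval _ s hs]; exact hv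
  have hptr : ∀ P R : Pt k, P.1 = R.1 → P = dc3_tr R (P.2 - R.2) := by
    intro P R h1
    unfold dc3_tr
    ext
    · rw [h1]
    · simp
  have htr : ∀ (R : Pt k) (s t : ZMod (2 * k)), dc3_tr (R.1, R.2 + s) t = dc3_tr R (s + t) := by
    intro R s t
    unfold dc3_tr
    simp [add_assoc]
  -- the covering for `none`
  have hnone : ∀ P : Pt k, Adj none (some P) := by
    intro P
    cases hP : P.1 with
    | false =>
      obtain ⟨g, hg, h1 | h1⟩ := dc3_tau k (P.2 - (y 0).2)
      · refine hadj g 0 1 _ _ hg (Or.inl rfl) (by omega) (cz g) ?_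
        have := c1 g 0 (by omega)
        rw [hptr P (y 0) (by rw [hP, h.t0]), h1]
        simpa using this
      · refine hsymm _ _ (hwrap g (4 * k) 1 0 _ _ hg (Or.inl rfl) (by omega) (by omega) (by omega)
          ?_ (cz g))
        have := c2 g 0 (by omega)
        rw [hptr P (y 0) (by rw [hP, h.t0]), h1]
        simpa using this
    | true =>
      obtain ⟨g, hg, h1 | h1⟩ := dc3_tau k (P.2 - (y 1).2)
      · refine hadj g 0 2 _ _ hg (Or.inr rfl) (by omega) (cz g) ?_
        have := c1 g 1 (by omega)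
        rw [hptr P (y 1) (by rw [hP, h.t1]), h1]
        simpa using this
      · refine hsymm _ _ (hwrap g (4 * k - 1) 2 0 _ _ hg (Or.inr rfl) (by omega) (by omega)
          (by omega) ?_ (cz g))
        have := c2 g 1 (by omega)
        rw [hptr P (y 1) (by rw [hP, h.t1]), h1]
        simpa using this
  -- conjugate points
  have hconj : ∀ P : Pt k, Adj (some P) (some (dc3_tr P (k : ZMod (2 * k)))) := by
    intro P
    cases hP : P.1 with
    | false =>
      obtain ⟨g, hg, h1 | h1⟩ := dc3_tau k (P.2 - (y 0).2)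
      · refine hsymm _ _ (hwrap g (4 * k) 2 1 _ _ hg (Or.inr rfl) (by omega) (by omega) (by omega)
          ?_ ?_)
        · have := c2 g 0 (by omega)
          rw [hptr P (y 0) (by rw [hP, h.t0]), h1]
          rw [show dc3_tr (dc3_tr (y 0) (g : ZMod (2 * k))) (k : ZMod (2 * k)) =
            dc3_tr (y 0) ((g : ZMod (2 * k)) + k) from htr _ _ _, add_comm]
          simpa using this
        · have := c1 g 0 (by omega)
          rw [hptr P (y 0) (by rw [hP, h.t0]), h1]
          simpa using this
      · refine (hwrap g (4 * k) 2 1 _ _ hg (Or.inr rfl) (by omega) (by omega) (by omega)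
          ?_ ?_)
        · have := c2 g 0 (by omega)
          rw [hptr P (y 0) (by rw [hP, h.t0]), h1]
          simpa using this
        · have := c1 g 0 (by omega)
          rw [hptr P (y 0) (by rw [hP, h.t0]), h1]
          rw [show dc3_tr (dc3_tr (y 0) ((k : ZMod (2 * k)) + (g : ZMod (2 * k))))
            (k : ZMod (2 * k)) = dc3_tr (y 0) ((k : ZMod (2 * k)) + (g : ZMod (2 * k)) + k) from
            htr _ _ _]
          rw [show (k : ZMod (2 * k)) + (g : ZMod (2 * k)) + k = g + (k + k) by ring, dc3_kk,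
            add_zero]
          simpa using this
    | true =>
      have e1 : 1 + (2 * k - 1) = 2 * k := by omega
      have e2 : 4 * k - (2 * k - 1) = 2 * k + 1 := by omega
      obtain ⟨g, hg, h1 | h1⟩ := dc3_tau k (P.2 - (y (2 * k - 1)).2)
      · refine hadj g (2 * k) 1 _ _ hg (Or.inl rfl) (by omega) ?_ ?_
        · have := c1 g (2 * k - 1) (by omega)
          rw [e1] at this
          rw [hptr P (y (2 * k - 1)) (by rw [hP, h.t3]), h1]
          exact this
        · have := c2 g (2 * k - 1) (by omega)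
          rw [e2] at this
          rw [hptr P (y (2 * k - 1)) (by rw [hP, h.t3]), h1]
          rw [show dc3_tr (dc3_tr (y (2 * k - 1)) (g : ZMod (2 * k))) (k : ZMod (2 * k)) =
            dc3_tr (y (2 * k - 1)) ((g : ZMod (2 * k)) + k) from htr _ _ _,
            add_comm (g : ZMod (2 * k)) (k : ZMod (2 * k))]
          exact this
      · refine hsymm _ _ (hadj g (2 * k) 1 _ _ hg (Or.inl rfl) (by omega) ?_ ?_)
        · have := c1 g (2 * k - 1) (by omega)
          rw [e1] at this
          rw [hptr P (y (2 * k - 1)) (by rw [hP, h.t3]), h1]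
          rw [show dc3_tr (dc3_tr (y (2 * k - 1)) ((k : ZMod (2 * k)) + (g : ZMod (2 * k))))
            (k : ZMod (2 * k)) =
            dc3_tr (y (2 * k - 1)) ((k : ZMod (2 * k)) + (g : ZMod (2 * k)) + k) from htr _ _ _]
          rw [show (k : ZMod (2 * k)) + (g : ZMod (2 * k)) + k = g + (k + k) by ring, dc3_kk,
            add_zero]
          exact this
        · have := c2 g (2 * k - 1) (by omega)
          rw [e2] at this
          rw [hptr P (y (2 * k - 1)) (by rw [hP, h.t3]), h1]
          exact this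
  -- translates of pairs of positions
  have hpair : ∀ (i t : ℕ) (τ : ZMod (2 * k)), (t = 1 ∨ t = 2) → i + t < 2 * k →
      Adj (some (dc3_tr (y i) τ)) (some (dc3_tr (y (i + t)) τ)) := by
    intro i t τ ht hit
    obtain ⟨g, hg, h1 | h1⟩ := dc3_tau k τ
    · refine hadj g (1 + i) t _ _ hg ht (by omega) ?_ ?_
      · rw [h1]; exact c1 g i (by omega)
      · rw [h1, add_assoc]; exact c1 g (i + t) (by omega)
    · refine hsymm _ _ (hadj g (4 * k - (i + t)) t _ _ hg ht (by omega) ?_ ?_)
      · rw [h1]; exact c2 g (i + t) (by omega)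
      · rw [h1, show 4 * k - (i + t) + t = 4 * k - i by omega]; exact c2 g i (by omega)
  -- the special pair
  have hspec : ∀ (τ : ZMod (2 * k)),
      Adj (some (dc3_tr (y (2 * k - 2)) τ))
        (some (dc3_tr (y (2 * k - 1)) ((k : ZMod (2 * k)) + τ))) := by
    intro τ
    obtain ⟨g, hg, h1 | h1⟩ := dc3_tau k τ
    · refine hadj g (1 + (2 * k - 2)) 2 _ _ hg (Or.inr rfl) (by omega) ?_ ?_
      · rw [h1]; exact c1 g (2 * k - 2) (by omega)
      · rw [h1, show 1 + (2 * k - 2) + 2 = 4 * k - (2 * k - 1) by omega]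
        exact c2 g (2 * k - 1) (by omega)
    · refine hsymm _ _ (hadj g (1 + (2 * k - 1)) 2 _ _ hg (Or.inr rfl) (by omega) ?_ ?_)
      · rw [h1, show (k : ZMod (2 * k)) + ((k : ZMod (2 * k)) + (g : ZMod (2 * k))) =
          (k + k) + g by ring, dc3_kk, zero_add]
        exact c1 g (2 * k - 1) (by omega)
      · rw [h1, show 1 + (2 * k - 1) + 2 = 4 * k - (2 * k - 2) by omega]
        exact c2 g (2 * k - 2) (by omega)
  refine decomposes_of_orders k (by omega) (Option (Pt k)) ?_ c ?_ ?_
  · rw [Fintype.card_option, Fintype.card_prod, Fintype.card_bool, ZMod.card]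
    omega
  · -- injectivity
    intro g
    have key : ∀ j j' : ℕ, j ≤ 4 * k → j' ≤ 4 * k → j ≤ j' →
        dc3_c k y g j = dc3_c k y g j' → j = j' := by
      intro j j' hj hj' hle heq
      rcases Nat.eq_zero_or_pos j with hj0 | hj0
      · subst hj0
        by_contra hne
        rw [cz] at heq
        unfold dc3_c at heq
        rw [if_neg (by omega)] at heq
        split_ifs at heq
      · by_cases h1 : j' ≤ 2 * k
        · -- both in the first half
          obtain ⟨i, rfl⟩ : ∃ i, j = 1 + i := ⟨j - 1, by omega⟩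
          obtain ⟨i', rfl⟩ : ∃ i, j' = 1 + i := ⟨j' - 1, by omega⟩
          rw [c1 _ i (by omega), c1 _ i' (by omega), Option.some.injEq] at heq
          have h2 : y i = y i' := by
            have e1 := congrArg Prod.fst heq
            have e2 := congrArg Prod.snd heq
            simp only [dc3_tr] at e1 e2
            exact Prod.ext e1 (add_right_cancel e2)
          rw [hvinj i i' (by omega) (by omega) (by rw [h2])]
        · obtain ⟨i', hi', rfl⟩ : ∃ i, i < 2 * k ∧ j' = 4 * k - i :=
            ⟨4 * k - j', by omega, by omega⟩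
          by_cases h3 : j ≤ 2 * k
          · exfalso
            obtain ⟨i, rfl⟩ : ∃ i, j = 1 + i := ⟨j - 1, by omega⟩
            rw [c1 _ i (by omega), c2 _ i' (by omega), Option.some.injEq] at heq
            have e1 := congrArg Prod.fst heq
            have e2 := congrArg Prod.snd heq
            simp only [dc3_tr] at e1 e2
            have e3 : (y i).2 = (y i').2 + (k : ZMod (2 * k)) := by
              have : (y i).2 + ((g : ℕ) : ZMod (2 * k)) =
                ((y i').2 + (k : ZMod (2 * k))) + ((g : ℕ) : ZMod (2 * k)) := by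
                rw [e2]; ring
              exact add_right_cancel this
            have e4 := hvinj i i' (by omega) (by omega) ((vtx_eq_iff _ _).mpr ⟨e1, Or.inr e3⟩)
            rw [e4] at e3
            exact hkne (by simpa using e3)
          · obtain ⟨i, hi, rfl⟩ : ∃ i, i < 2 * k ∧ j = 4 * k - i :=
              ⟨4 * k - j, by omega, by omega⟩
            rw [c2 _ i (by omega), c2 _ i' (by omega), Option.some.injEq] at heq
            have h2 : y i = y i' := by
              have e1 := congrArg Prod.fst heq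
              have e2 := congrArg Prod.snd heq
              simp only [dc3_tr] at e1 e2
              exact Prod.ext e1 (add_right_cancel e2)
            rw [hvinj i i' (by omega) (by omega) (by rw [h2])]
    intro a b hab
    have ha : a.val ≤ 4 * k := by have := ZMod.val_lt a; omega
    have hb : b.val ≤ 4 * k := by have := ZMod.val_lt b; omega
    apply ZMod.val_injective
    simp only [hc] at hab
    rcases le_total a.val b.val with hle | hle
    · exact key _ _ ha hb hle hab
    · exact (key _ _ hb ha hle hab.symm).symm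
  · -- covering
    intro u v huv
    change Adj u v
    cases u with
    | none =>
      cases v with
      | none => exact absurd rfl huv
      | some P => exact hnone P
    | some P =>
      cases v with
      | none => exact hsymm _ _ (hnone P)
      | some Q =>
        by_cases hv : vtx P = vtx Q
        · obtain ⟨h1, h2 | h2⟩ := (vtx_eq_iff P Q).mp hv
          · exact absurd (congrArg some (Prod.ext h1 h2)) huv
          · have h3 : P = dc3_tr Q (k : ZMod (2 * k)) := Prod.ext h1 h2
            rw [h3]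
            exact hsymm _ _ (hconj Q)
        · rcases h.exists_colour hk (col_mem_U hv) (fun i z hz => by
            unfold col at hz; split_ifs at hz) with ⟨t, i, ht, hit, he⟩ | he
          · obtain ⟨τ, ⟨h1, h2⟩ | ⟨h1, h2⟩⟩ := exists_translate he.symm hv
            · rw [h1, h2]; exact hpair i t τ ht hit
            · rw [h1, h2]; exact hsymm _ _ (hpair i t τ ht hit)
          · obtain ⟨τ, ⟨h1, h2⟩ | ⟨h1, h2⟩⟩ := exists_translate he hv
            · have h4 := hspec τ
              have h3 : Q = dc3_tr (y (2 * k - 1)) ((k : ZMod (2 * k)) + τ) := by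
                rw [h2]; unfold dc3_tr; simp [add_assoc]
              rw [h3, h1]; exact h4
            · have h4 := hspec τ
              have h3 : P = dc3_tr (y (2 * k - 1)) ((k : ZMod (2 * k)) + τ) := by
                rw [h2]; unfold dc3_tr; simp [add_assoc]
              rw [h3, h1]; exact hsymm _ _ h4

end SqCyc
end
end
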