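import Pool.Agent.Lib.SqCyc.Abs1

section

/-! # MD-3 fibres -/

open Finset

namespace SqCyc

variable {k : ℕ} [NeZero k]

theorem m3_two_of_pair {s : Finset (Pt k)} (f : Pt k → Pt k)
    (h : ∀ z0 ∈ s, ∀ z ∈ s, z = z0 ∨ z = f z0) : s.card ≤ 2 := by
  rcases s.eq_empty_or_nonempty with h0 | ⟨z0, hz0⟩
  · rw [h0]; simp
  · have hsub : s ⊆ {z0, f z0} := by
      intro z hz
      rcases h z0 hz0 z hz with h1 | h1 <;> simp [h1]
    exact (card_le_card hsub).trans (card_le_two)

theorem m3_track {θ : Letter} {z : Pt k} (h : z ∈ Lset k θ) : z.1 = θ.1 := by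
  simp only [Lset, mem_filter] at h
  exact h.2.1

theorem m3_vtx_fib (θ : Letter) (e : El) :
    ((Lset k θ).filter (fun z => vtx z = e)).card ≤ 2 := by
  apply m3_two_of_pair (fun z => (z.1, z.2 + (k : ZMod (2 * k))))
  intro z0 hz0 z hz
  rw [mem_filter] at hz0 hz
  have h := (vtx_eq_iff z z0).1 (hz.2.trans hz0.2.symm)
  rcases h.2 with h2 | h2
  · left; exact Prod.ext h.1 h2
  · right; exact Prod.ext h.1 h2

theorem m3_col_eq {z z0 P : Pt k} (h : z.1 = z0.1) (hc : col z P = col z0 P) :
    z.2 = z0.2 ∨ z.2 = P.2 + P.2 - z0.2 := by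
  by_cases h1 : z.1 = P.1
  · rw [col_same h1, col_same (h.symm.trans h1)] at hc
    injection hc with _ hd
    rcases (dst_eq_iff _ _).1 hd with h2 | h2
    · left; exact sub_left_injective h2
    · right
      have : z.2 = -(z0.2 - P.2) + P.2 := by rw [← h2]; ring
      rw [this]; ring
  · left
    cases hz : z.1 with
    | false =>
      have hP : P.1 = true := by
        cases hP : P.1 with
        | false => exact absurd (hz.trans hP.symm) h1
        | true => rfl
      rw [col_cross hz hP, col_cross (h.symm.trans hz) hP] at hc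
      injection hc with hd
      have h3 := ZMod.val_injective _ hd
      exact sub_right_injective h3
    | true =>
      have hP : P.1 = false := by
        cases hP : P.1 with
        | true => exact absurd (hz.trans hP.symm) h1
        | false => rfl
      rw [col_comm z P, col_comm z0 P, col_cross hP hz, col_cross hP (h.symm.trans hz)] at hc
      injection hc with hd
      have h3 := ZMod.val_injective _ hd
      exact sub_left_injective h3

theorem m3_col_fib (θ : Letter) (P : Pt k) (e : El) :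
    ((Lset k θ).filter (fun z => col z P = e)).card ≤ 2 := by
  apply m3_two_of_pair (fun z => (z.1, P.2 + P.2 - z.2))
  intro z0 hz0 z hz
  rw [mem_filter] at hz0 hz
  have ht : z.1 = z0.1 := (m3_track hz.1).trans (m3_track hz0.1).symm
  rcases m3_col_eq ht (hz.2.trans hz0.2.symm) with h2 | h2
  · left; exact Prod.ext ht h2
  · right; exact Prod.ext ht h2

theorem card_vtx_fiber (F : Finset El) (θ : Letter) :
    ((Lset k θ).filter (fun z => vtx z ∈ F)).card ≤ 2 * F.card := by
  apply card_le_mul_card_image_of_maps_to (f := fun z : Pt k => vtx z)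
  · intro z hz
    exact (mem_filter.1 hz).2
  · intro b _
    refine (card_le_card ?_).trans (m3_vtx_fib θ b)
    intro z hz
    simp only [mem_filter] at hz ⊢
    exact ⟨hz.1.1, hz.2⟩

theorem card_col_fiber (F : Finset El) (θ : Letter) (P : Pt k) :
    ((Lset k θ).filter (fun z => col z P ∈ F)).card ≤ 2 * F.card := by
  apply card_le_mul_card_image_of_maps_to (f := fun z : Pt k => col z P)
  · intro z hz
    exact (mem_filter.1 hz).2
  · intro b _
    refine (card_le_card ?_).trans (m3_col_fib θ P b)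
    intro z hz
    simp only [mem_filter] at hz ⊢
    exact ⟨hz.1.1, hz.2⟩

theorem m3_double {a : ZMod (2 * k)} (h : a + a = 0) : a = 0 ∨ a = (k : ZMod (2 * k)) := by
  have hk : 0 < k := Nat.pos_of_ne_zero (NeZero.ne k)
  have h1 : ((a.val + a.val : ℕ) : ZMod (2 * k)) = 0 := by
    push_cast
    rw [ZMod.natCast_zmod_val]; exact h
  rw [ZMod.natCast_eq_zero_iff] at h1
  have hlt : a.val < 2 * k := ZMod.val_lt a
  obtain ⟨c, hc⟩ := h1
  have hc2 : c < 2 := by
    by_contra hcon
    push Not at hcon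
    have : 2 * k * 2 ≤ 2 * k * c := Nat.mul_le_mul_left _ hcon
    omega
  interval_cases c
  · left
    have : a.val = 0 := by omega
    exact (ZMod.val_eq_zero a).1 this
  · right
    have : a.val = k := by omega
    rw [← ZMod.natCast_zmod_val a, this]

theorem card_col_eq (θ : Letter) {P Q : Pt k} (h : P ≠ Q) :
    ((Lset k θ).filter (fun z => col z P = col z Q)).card ≤ 2 := by
  have key : ∀ z : Pt k, col z P = col z Q → z.2 + z.2 = P.2 + Q.2 := by
    intro z hz
    by_cases h1 : z.1 = P.1
    · by_cases h2 : z.1 = Q.1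
      · rw [col_same h1, col_same h2] at hz
        injection hz with _ hd
        rcases (dst_eq_iff _ _).1 hd with h3 | h3
        · exfalso
          exact h (Prod.ext (h1.symm.trans h2) (sub_right_injective h3))
        · have : z.2 + z.2 = (z.2 - P.2) + (z.2 - Q.2) + (P.2 + Q.2) := by ring
          rw [this, h3]; ring
      · exfalso
        rw [col, col, if_pos h1, if_neg h2] at hz
        cases hz
    · by_cases h2 : z.1 = Q.1
      · exfalso
        rw [col, col, if_neg h1, if_pos h2] at hz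
        cases hz
      · exfalso
        have h4 : P.1 = Q.1 := by
          revert h1 h2
          cases z.1 <;> cases P.1 <;> cases Q.1 <;> simp
        have h5 : col P z = col Q z := by rw [col_comm P z, col_comm Q z]; exact hz
        rcases m3_col_eq h4 h5 with h6 | h6
        · exact h (Prod.ext h4 h6)
        · rw [col, col, if_neg h1, if_neg h2] at hz
          injection hz with hd
          split_ifs at hd with h7
          · exact h (Prod.ext h4 (sub_right_injective (ZMod.val_injective _ hd)))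
          · exact h (Prod.ext h4 (sub_left_injective (ZMod.val_injective _ hd)))
  apply m3_two_of_pair (fun z => (z.1, z.2 + (k : ZMod (2 * k))))
  intro z0 hz0 z hz
  rw [mem_filter] at hz0 hz
  have ht : z.1 = z0.1 := (m3_track hz.1).trans (m3_track hz0.1).symm
  have h1 := key z hz.2
  have h2 := key z0 hz0.2
  have h3 : (z.2 - z0.2) + (z.2 - z0.2) = 0 := by
    have : (z.2 - z0.2) + (z.2 - z0.2) = (z.2 + z.2) - (z0.2 + z0.2) := by ring
    rw [this, h1, h2, sub_self]
  rcases m3_double h3 with h4 | h4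
  · left; exact Prod.ext ht (sub_eq_zero.1 h4)
  · right
    refine Prod.ext ht ?_
    show z.2 = z0.2 + (k : ZMod (2 * k))
    rw [← h4]; ring

theorem card_bad_vtx {X' : Finset El} (hX : X' ⊆ U k) (θ : Letter) :
    ((Lset k θ).filter (fun z => vtx z ∉ X')).card
      ≤ 2 * ((U k \ X').filter (fun e => clsEl k e = clsV k θ)).card := by
  refine (card_le_card ?_).trans (card_vtx_fiber _ θ)
  intro z hz
  simp only [mem_filter, mem_sdiff] at hz ⊢
  exact ⟨hz.1, ⟨vtx_mem_U z, hz.2⟩, clsEl_vtx hz.1⟩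

theorem card_bad_col {X' : Finset El} (hX : X' ⊆ U k) (θ η : Letter) {P : Pt k}
    (hP : P ∈ Lset k η) :
    ((Lset k θ).filter (fun z => col z P ∉ X')).card
      ≤ 2 * ((U k \ X').filter (fun e => clsEl k e = clsC θ η)).card + 2 := by
  have hsub : (Lset k θ).filter (fun z => col z P ∉ X') ⊆
      (Lset k θ).filter (fun z => col z P ∈ (U k \ X').filter (fun e => clsEl k e = clsC θ η)) ∪
        (Lset k θ).filter (fun z => vtx z = vtx P) := by
    intro z hz
    rw [mem_filter] at hz
    rw [mem_union, mem_filter, mem_filter, mem_filter, mem_sdiff]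
    by_cases hv : vtx z = vtx P
    · exact Or.inr ⟨hz.1, hv⟩
    · exact Or.inl ⟨hz.1, ⟨col_mem_U hv, hz.2⟩, clsEl_col hz.1 hP⟩
  refine (card_le_card hsub).trans ((card_union_le _ _).trans ?_)
  exact Nat.add_le_add (card_col_fiber _ θ P) (m3_vtx_fib θ _)

end SqCyc
end

section

section

/-! # EX-1 adding one point to a partial segment -/

open Finset

namespace SqCyc

variable {k : ℕ} [NeZero k]

omit [NeZero k] in
private theorem ext1_cases (n : ℕ) (y : ℕ → Pt k) (K : Finset ℕ) (j : ℕ) (z : Pt k)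
    (hjK : j ∉ K) (hcc : ∀ P Q : Pt k, col P Q = col Q P) (b : ℕ × ℕ)
    (hb : b ∈ knownIdx n (insert j K)) :
    (b ∈ knownIdx n K ∧ el (Function.update y j z) b = el y b) ∨
    (b = (0, j) ∧ el (Function.update y j z) b = vtx z) ∨
    ∃ u ∈ K, u ≤ j + 2 ∧ j ≤ u + 2 ∧ el (Function.update y j z) b = col z (y u) ∧
      b = (if u < j then (j - u, u) else (u - j, j)) := by
  obtain ⟨τ, i⟩ := b
  simp only [knownIdx, Finset.mem_filter, Finset.mem_insert] at hb
  obtain ⟨hidx, h1, h2⟩ := hb
  have hτ : τ < 3 := by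
    simp only [idx, Finset.mem_sdiff, Finset.mem_product, Finset.mem_range] at hidx
    exact hidx.1.1
  have hupd : ∀ u, u ≠ j → Function.update y j z u = y u := fun u hu =>
    Function.update_of_ne hu z y
  have hupj : Function.update y j z j = z := Function.update_self j z y
  by_cases hij : i = j
  · subst hij
    by_cases hτ0 : τ = 0
    · subst hτ0
      right; left
      refine ⟨rfl, ?_⟩
      simp only [el, if_true, hupj]
    · right; right
      have h3 : i + τ ∈ K := by
        rcases h2 with h2 | h2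
        · omega
        · exact h2
      refine ⟨i + τ, h3, by omega, by omega, ?_, ?_⟩
      · simp only [el, if_neg hτ0, hupj]
        rw [hupd (i + τ) (by omega)]
      · rw [if_neg (by omega)]
        congr 1
        omega
  · have hiK : i ∈ K := by
      rcases h1 with h1 | h1
      · exact absurd h1 hij
      · exact h1
    by_cases hij2 : i + τ = j
    · have hτ0 : τ ≠ 0 := by
        intro h
        omega
      right; right
      refine ⟨i, hiK, by omega, by omega, ?_, ?_⟩
      · simp only [el, if_neg hτ0, hij2, hupj]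
        rw [hupd i hij, hcc]
      · rw [if_pos (by omega)]
        congr 1
        omega
    · left
      refine ⟨?_, ?_⟩
      · simp only [knownIdx, Finset.mem_filter]
        refine ⟨hidx, hiK, ?_⟩
        rcases h2 with h2 | h2
        · exact absurd h2 hij2
        · exact h2
      · simp only [el]
        rw [hupd i hij, hupd (i + τ) hij2]

private theorem ext1_D (θ : Letter) (P Q : Pt k) :
    ((Lset k θ).filter (fun z => P ≠ Q ∧ col z P = col z Q)).card ≤ 2 := by
  by_cases h : P = Q
  · rw [Finset.filter_false_of_mem]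
    · simp
    · intro z _ hz
      exact hz.1 h
  · refine le_trans (Finset.card_le_card ?_) (card_col_eq θ h)
    intro z hz
    rw [Finset.mem_filter] at hz ⊢
    exact ⟨hz.1, hz.2.2⟩

omit [NeZero k] in
private theorem ext1_card_union (A B : Finset (Pt k)) {a b : ℕ} (hA : A.card ≤ a)
    (hB : B.card ≤ b) : (A ∪ B).card ≤ a + b :=
  le_trans (Finset.card_union_le A B) (Nat.add_le_add hA hB)

private theorem ext1_choose (θ : Letter) (F : Finset El) (p₁ p₂ p₃ p₄ : Pt k)
    (hk : 10 * F.card + 12 < k) :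
    ∃ z ∈ Lset k θ, vtx z ∉ F ∧ (col z p₁ ∉ F ∧ col z p₂ ∉ F ∧ col z p₃ ∉ F ∧ col z p₄ ∉ F) ∧
      (p₁ ≠ p₂ → col z p₁ ≠ col z p₂) ∧ (p₁ ≠ p₃ → col z p₁ ≠ col z p₃) ∧
      (p₁ ≠ p₄ → col z p₁ ≠ col z p₄) ∧ (p₂ ≠ p₃ → col z p₂ ≠ col z p₃) ∧
      (p₂ ≠ p₄ → col z p₂ ≠ col z p₄) ∧ (p₃ ≠ p₄ → col z p₃ ≠ col z p₄) := by
  classical
  set Bad : Finset (Pt k) :=
    (Lset k θ).filter (fun z => vtx z ∈ F) ∪
    (Lset k θ).filter (fun z => col z p₁ ∈ F) ∪
    (Lset k θ).filter (fun z => col z p₂ ∈ F) ∪
    (Lset k θ).filter (fun z => col z p₃ ∈ F) ∪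
    (Lset k θ).filter (fun z => col z p₄ ∈ F) ∪
    (Lset k θ).filter (fun z => p₁ ≠ p₂ ∧ col z p₁ = col z p₂) ∪
    (Lset k θ).filter (fun z => p₁ ≠ p₃ ∧ col z p₁ = col z p₃) ∪
    (Lset k θ).filter (fun z => p₁ ≠ p₄ ∧ col z p₁ = col z p₄) ∪
    (Lset k θ).filter (fun z => p₂ ≠ p₃ ∧ col z p₂ = col z p₃) ∪
    (Lset k θ).filter (fun z => p₂ ≠ p₄ ∧ col z p₂ = col z p₄) ∪
    (Lset k θ).filter (fun z => p₃ ≠ p₄ ∧ col z p₃ = col z p₄) with hBad
  have hcard : Bad.card ≤ 2 * F.card + 2 * F.card + 2 * F.card + 2 * F.card + 2 * F.card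
      + 2 + 2 + 2 + 2 + 2 + 2 := by
    rw [hBad]
    refine ext1_card_union _ _ ?_ (ext1_D θ _ _)
    refine ext1_card_union _ _ ?_ (ext1_D θ _ _)
    refine ext1_card_union _ _ ?_ (ext1_D θ _ _)
    refine ext1_card_union _ _ ?_ (ext1_D θ _ _)
    refine ext1_card_union _ _ ?_ (ext1_D θ _ _)
    refine ext1_card_union _ _ ?_ (ext1_D θ _ _)
    refine ext1_card_union _ _ ?_ (card_col_fiber F θ _)
    refine ext1_card_union _ _ ?_ (card_col_fiber F θ _)
    refine ext1_card_union _ _ ?_ (card_col_fiber F θ _)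
    refine ext1_card_union _ _ ?_ (card_col_fiber F θ _)
    exact card_vtx_fiber F θ
  have hlt : Bad.card < (Lset k θ).card := by
    rw [card_Lset]
    omega
  obtain ⟨z, hz, hzB⟩ := Finset.exists_mem_notMem_of_card_lt_card hlt
  rw [hBad] at hzB
  simp only [Finset.mem_union, Finset.mem_filter, hz, true_and, not_or, not_and] at hzB
  obtain ⟨⟨⟨⟨⟨⟨⟨⟨⟨⟨h0, h1⟩, h2⟩, h3⟩, h4⟩, h5⟩, h6⟩, h7⟩, h8⟩, h9⟩, h10⟩ := hzB
  exact ⟨z, hz, h0, ⟨h1, h2, h3, h4⟩, h5, h6, h7, h8, h9, h10⟩

omit [NeZero k] in
private theorem ext1_four (j : ℕ) (hj2 : 2 ≤ j) (y : ℕ → Pt k) (z : Pt k)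
    (h5 : y (j - 2) ≠ y (j - 1) → col z (y (j - 2)) ≠ col z (y (j - 1)))
    (h6 : y (j - 2) ≠ y (j + 1) → col z (y (j - 2)) ≠ col z (y (j + 1)))
    (h7 : y (j - 2) ≠ y (j + 2) → col z (y (j - 2)) ≠ col z (y (j + 2)))
    (h8 : y (j - 1) ≠ y (j + 1) → col z (y (j - 1)) ≠ col z (y (j + 1)))
    (h9 : y (j - 1) ≠ y (j + 2) → col z (y (j - 1)) ≠ col z (y (j + 2)))
    (h10 : y (j + 1) ≠ y (j + 2) → col z (y (j + 1)) ≠ col z (y (j + 2)))
    (u v : ℕ) (hu : u ≠ j) (hu1 : u ≤ j + 2) (hu2 : j ≤ u + 2) (hv : v ≠ j) (hv1 : v ≤ j + 2)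
    (hv2 : j ≤ v + 2) (huv : u ≠ v) (hy : y u ≠ y v) : col z (y u) ≠ col z (y v) := by
  have hu' : u = j - 2 ∨ u = j - 1 ∨ u = j + 1 ∨ u = j + 2 := by omega
  have hv' : v = j - 2 ∨ v = j - 1 ∨ v = j + 1 ∨ v = j + 2 := by omega
  rcases hu' with rfl | rfl | rfl | rfl <;> rcases hv' with rfl | rfl | rfl | rfl
  · exact absurd rfl huv
  · exact h5 hy
  · exact h6 hy
  · exact h7 hy
  · exact (h5 hy.symm).symm
  · exact absurd rfl huv
  · exact h8 hy
  · exact h9 hy
  · exact (h6 hy.symm).symm
  · exact (h8 hy.symm).symm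
  · exact absurd rfl huv
  · exact h10 hy
  · exact (h7 hy.symm).symm
  · exact (h9 hy.symm).symm
  · exact (h10 hy.symm).symm
  · exact absurd rfl huv

/-- `K` = set of positions already used. Any two used positions near `j` carry different points. -/
theorem add_point (w : ℕ → Letter) (n : ℕ) (y : ℕ → Pt k) (K : Finset ℕ) (j : ℕ)
    (hj2 : 2 ≤ j) (hjn : j < n) (hjK : j ∉ K) (forb : Finset El)
    (hinj : Set.InjOn (el y) (knownIdx n K))
    (hforb : ∀ b ∈ knownIdx n K, el y b ∉ forb)
    (hdist : ∀ i ∈ K, ∀ i' ∈ K, i ≠ i' → i ≤ j + 2 → j ≤ i + 2 → i' ≤ j + 2 → j ≤ i' + 2 →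
      y i ≠ y i')
    (hk : 10 * forb.card + 30 * n + 20 < k) :
    ∃ z ∈ Lset k (w j),
      Set.InjOn (el (Function.update y j z)) (knownIdx n (insert j K)) ∧
      ∀ b ∈ knownIdx n (insert j K), el (Function.update y j z) b ∉ forb := by
  classical
  set F : Finset El := forb ∪ (knownIdx n K).image (el y) with hF
  have hFc : F.card ≤ forb.card + 3 * n := by
    refine le_trans (Finset.card_union_le _ _) (Nat.add_le_add_left ?_ _)
    refine le_trans Finset.card_image_le ?_
    refine le_trans (Finset.card_le_card (Finset.filter_subset _ _)) ?_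
    refine le_trans (Finset.card_le_card Finset.sdiff_subset) ?_
    rw [Finset.card_product, Finset.card_range, Finset.card_range]
  obtain ⟨z, hz, h0, ⟨h1, h2, h3, h4⟩, h5, h6, h7, h8, h9, h10⟩ :=
    ext1_choose (w j) F (y (j - 2)) (y (j - 1)) (y (j + 1)) (y (j + 2)) (by omega)
  have hcol : ∀ u, u ≠ j → u ≤ j + 2 → j ≤ u + 2 → col z (y u) ∉ F := by
    intro u hu hu1 hu2
    have hu' : u = j - 2 ∨ u = j - 1 ∨ u = j + 1 ∨ u = j + 2 := by omega
    rcases hu' with rfl | rfl | rfl | rfl
    · exact h1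
    · exact h2
    · exact h3
    · exact h4
  have hmemF : ∀ b ∈ knownIdx n K, el y b ∈ F := fun b hb =>
    Finset.mem_union_right _ (Finset.mem_image_of_mem _ hb)
  have hne : ∀ u ∈ K, u ≠ j := fun u hu h => hjK (h ▸ hu)
  refine ⟨z, hz, ?_, ?_⟩
  · intro b hb c hc heq
    rcases ext1_cases n y K j z hjK col_comm b hb with ⟨b1, b2⟩ | ⟨b1, b2⟩ | ⟨u, b1, b2, b3, b4, b5⟩
    · rcases ext1_cases n y K j z hjK col_comm c hc with
        ⟨c1, c2⟩ | ⟨c1, c2⟩ | ⟨v, c1, c2, c3, c4, c5⟩
      · rw [b2, c2] at heq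
        exact hinj b1 c1 heq
      · exfalso
        rw [b2, c2] at heq
        exact h0 (heq ▸ hmemF b b1)
      · exfalso
        rw [b2, c4] at heq
        exact hcol v (hne v c1) c2 c3 (heq ▸ hmemF b b1)
    · rcases ext1_cases n y K j z hjK col_comm c hc with
        ⟨c1, c2⟩ | ⟨c1, c2⟩ | ⟨v, c1, c2, c3, c4, c5⟩
      · exfalso
        rw [b2, c2] at heq
        exact h0 (heq.symm ▸ hmemF c c1)
      · rw [b1, c1]
      · exfalso
        rw [b2, c4] at heq
        exact vtx_ne_col _ _ _ heq
    · rcases ext1_cases n y K j z hjK col_comm c hc with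
        ⟨c1, c2⟩ | ⟨c1, c2⟩ | ⟨v, c1, c2, c3, c4, c5⟩
      · exfalso
        rw [b4, c2] at heq
        exact hcol u (hne u b1) b2 b3 (heq.symm ▸ hmemF c c1)
      · exfalso
        rw [b4, c2] at heq
        exact vtx_ne_col _ _ _ heq.symm
      · by_cases huv : u = v
        · subst huv
          rw [b5, c5]
        · exfalso
          rw [b4, c4] at heq
          exact ext1_four j hj2 y z h5 h6 h7 h8 h9 h10 u v (hne u b1) b2 b3 (hne v c1) c2 c3 huv
            (hdist u b1 v c1 huv b2 b3 c2 c3) heq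
  · intro b hb hmem
    rcases ext1_cases n y K j z hjK col_comm b hb with ⟨b1, b2⟩ | ⟨b1, b2⟩ | ⟨u, b1, b2, b3, b4, b5⟩
    · rw [b2] at hmem
      exact hforb b b1 hmem
    · rw [b2] at hmem
      exact h0 (Finset.mem_union_left _ hmem)
    · rw [b4] at hmem
      exact hcol u (hne u b1) b2 b3 (Finset.mem_union_left _ hmem)

end SqCyc
end

section

/-! # EX-2 completing a partial segment -/

open Finset

namespace SqCyc

variable {k : ℕ} [NeZero k]

private theorem ext2_mem_port (n i : ℕ) :
    i ∈ ({0, 1, n, n + 1} : Finset ℕ) ↔ i = 0 ∨ i = 1 ∨ i = n ∨ i = n + 1 := by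
  simp only [Finset.mem_insert, Finset.mem_singleton]

private theorem ext2_vtx_idx (n : ℕ) (K : Finset ℕ) {i : ℕ} (h2 : 2 ≤ i) (hn : i < n)
    (hi : i ∈ K) : (0, i) ∈ knownIdx n K := by
  simp only [knownIdx, idx, Finset.mem_filter, Finset.mem_sdiff, Finset.mem_product,
    Finset.mem_range, Finset.mem_insert, Finset.mem_singleton, Prod.mk.injEq]
  refine ⟨⟨⟨by omega, hn⟩, by omega⟩, hi, by simpa using hi⟩

theorem ext_seg (w : ℕ → Letter) (n : ℕ) (hn : 10 ≤ n) (P P' Q Q' : Pt k) (hP : P ≠ P')
    (hQ : Q ≠ Q') (forb : Finset El) (h1 : vtx P ∈ forb) (h2 : vtx P' ∈ forb)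
    (h3 : vtx Q ∈ forb) (h4 : vtx Q' ∈ forb) (I : Finset ℕ) (hI : ∀ i ∈ I, 2 ≤ i ∧ i < n)
    (y₀ : ℕ → Pt k) (hl : ∀ i ∈ I, y₀ i ∈ Lset k (w i)) (e0 : y₀ 0 = P) (e1 : y₀ 1 = P')
    (en : y₀ n = Q) (en1 : y₀ (n + 1) = Q')
    (hinj : Set.InjOn (el y₀) (knownIdx n (I ∪ {0, 1, n, n + 1})))
    (hforb : ∀ b ∈ knownIdx n (I ∪ {0, 1, n, n + 1}), el y₀ b ∉ forb)
    (hk : 10 * forb.card + 30 * n + 20 < k) :
    ∃ y : ℕ → Pt k, Seg k w n P P' Q Q' y ∧ (∀ i ∈ I, y i = y₀ i) ∧
      Set.InjOn (el y) (idx n) ∧ ∀ b ∈ idx n, el y b ∉ forb := by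
  classical
  have key : ∀ J : Finset ℕ, J ⊆ Finset.Ico 2 n → ∃ y : ℕ → Pt k,
      (∀ i ∈ I ∪ {0, 1, n, n + 1}, y i = y₀ i) ∧ (∀ i ∈ I ∪ J, y i ∈ Lset k (w i)) ∧
      Set.InjOn (el y) (knownIdx n (I ∪ J ∪ {0, 1, n, n + 1})) ∧
      ∀ b ∈ knownIdx n (I ∪ J ∪ {0, 1, n, n + 1}), el y b ∉ forb := by
    intro J
    induction J using Finset.induction_on with
    | empty =>
      intro _
      refine ⟨y₀, fun _ _ => rfl, ?_, ?_, ?_⟩
      · intro i hi
        rw [Finset.union_empty] at hi
        exact hl i hi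
      · rw [Finset.union_empty]
        exact hinj
      · rw [Finset.union_empty]
        exact hforb
    | insert j J hjJ ih =>
      intro hJ
      obtain ⟨y, y1, y2, y3, y4⟩ := ih (fun i hi => hJ (Finset.mem_insert_of_mem hi))
      have hj : 2 ≤ j ∧ j < n := Finset.mem_Ico.1 (hJ (Finset.mem_insert_self j J))
      by_cases hjI : j ∈ I
      · have e : I ∪ insert j J = I ∪ J := by
          rw [Finset.union_insert, Finset.insert_eq_of_mem (Finset.mem_union_left _ hjI)]
        rw [e]
        exact ⟨y, y1, y2, y3, y4⟩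
      · have hjK : j ∉ I ∪ J ∪ {0, 1, n, n + 1} := by
          rw [Finset.mem_union, Finset.mem_union, ext2_mem_port]
          rintro ((h | h) | h)
          · exact hjI h
          · exact hjJ h
          · omega
        have hIco : ∀ i ∈ I ∪ J, 2 ≤ i ∧ i < n := by
          intro i hi
          rcases Finset.mem_union.1 hi with hi | hi
          · exact hI i hi
          · exact Finset.mem_Ico.1 (hJ (Finset.mem_insert_of_mem hi))
        have hport : ∀ i, (i = 0 ∨ i = 1 ∨ i = n ∨ i = n + 1) → vtx (y i) ∈ forb := by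
          intro i hi
          rw [y1 i (Finset.mem_union_right _ ((ext2_mem_port n i).2 hi))]
          rcases hi with rfl | rfl | rfl | rfl
          · rw [e0]; exact h1
          · rw [e1]; exact h2
          · rw [en]; exact h3
          · rw [en1]; exact h4
        have hin : ∀ i ∈ I ∪ J, vtx (y i) ∉ forb := by
          intro i hi
          have h5 := hIco i hi
          have h6 := y4 (0, i) (ext2_vtx_idx n _ h5.1 h5.2 (Finset.mem_union_left _ hi))
          simpa only [el, if_true] using h6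
        have hdist : ∀ i ∈ I ∪ J ∪ {0, 1, n, n + 1}, ∀ i' ∈ I ∪ J ∪ {0, 1, n, n + 1}, i ≠ i' →
            i ≤ j + 2 → j ≤ i + 2 → i' ≤ j + 2 → j ≤ i' + 2 → y i ≠ y i' := by
          intro i hi i' hi' hne hi1 hi2 hi1' hi2' heq
          rcases Finset.mem_union.1 hi with hi | hi
          · rcases Finset.mem_union.1 hi' with hi' | hi'
            · have h5 := hIco i hi
              have h5' := hIco i' hi'
              have h6 := ext2_vtx_idx n (I ∪ J ∪ {0, 1, n, n + 1}) h5.1 h5.2
                (Finset.mem_union_left _ hi)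
              have h6' := ext2_vtx_idx n (I ∪ J ∪ {0, 1, n, n + 1}) h5'.1 h5'.2
                (Finset.mem_union_left _ hi')
              have h7 : el y (0, i) = el y (0, i') := by
                simp only [el, if_true, heq]
              have h8 := y3 h6 h6' h7
              simp only [Prod.mk.injEq, true_and] at h8
              exact hne h8
            · have h5 := hport i' ((ext2_mem_port n i').1 hi')
              rw [← heq] at h5
              exact hin i hi h5
          · rcases Finset.mem_union.1 hi' with hi' | hi'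
            · have h5 := hport i ((ext2_mem_port n i).1 hi)
              rw [heq] at h5
              exact hin i' hi' h5
            · have e0' : y 0 = P := by
                rw [y1 0 (Finset.mem_union_right _ ((ext2_mem_port n 0).2 (by omega))), e0]
              have e1' : y 1 = P' := by
                rw [y1 1 (Finset.mem_union_right _ ((ext2_mem_port n 1).2 (by omega))), e1]
              have en' : y n = Q := by
                rw [y1 n (Finset.mem_union_right _ ((ext2_mem_port n n).2 (by omega))), en]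
              have en1' : y (n + 1) = Q' := by
                rw [y1 (n + 1) (Finset.mem_union_right _ ((ext2_mem_port n (n + 1)).2 (by omega))),
                  en1]
              have hi3 := (ext2_mem_port n i).1 hi
              have hi3' := (ext2_mem_port n i').1 hi'
              have h9 : (i = 0 ∧ i' = 1) ∨ (i = 1 ∧ i' = 0) ∨ (i = n ∧ i' = n + 1) ∨
                  (i = n + 1 ∧ i' = n) := by omega
              rcases h9 with ⟨rfl, rfl⟩ | ⟨rfl, rfl⟩ | ⟨rfl, rfl⟩ | ⟨rfl, rfl⟩
              · rw [e0', e1'] at heq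
                exact hP heq
              · rw [e0', e1'] at heq
                exact hP heq.symm
              · rw [en', en1'] at heq
                exact hQ heq
              · rw [en', en1'] at heq
                exact hQ heq.symm
        obtain ⟨z, hz, z1, z2⟩ := add_point w n y (I ∪ J ∪ {0, 1, n, n + 1}) j hj.1 hj.2 hjK forb
          y3 y4 hdist hk
        have eK : I ∪ insert j J ∪ {0, 1, n, n + 1} = insert j (I ∪ J ∪ {0, 1, n, n + 1}) := by
          rw [Finset.union_insert j I J, Finset.insert_union]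
        refine ⟨Function.update y j z, ?_, ?_, ?_, ?_⟩
        · intro i hi
          have hij : i ≠ j := by
            rintro rfl
            apply hjK
            rcases Finset.mem_union.1 hi with hi | hi
            · exact absurd hi hjI
            · exact Finset.mem_union_right _ hi
          rw [Function.update_of_ne hij, y1 i hi]
        · intro i hi
          by_cases hij : i = j
          · subst hij
            rw [Function.update_self]
            exact hz
          · rw [Function.update_of_ne hij]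
            apply y2
            rw [Finset.union_insert] at hi
            exact Finset.mem_of_mem_insert_of_ne hi hij
        · rw [eK]
          exact z1
        · rw [eK]
          exact z2
  obtain ⟨y, y1, y2, y3, y4⟩ := key (Finset.Ico 2 n) (Finset.Subset.refl _)
  have hall : knownIdx n (I ∪ Finset.Ico 2 n ∪ {0, 1, n, n + 1}) = idx n := by
    rw [knownIdx, Finset.filter_true_of_mem]
    rintro ⟨τ, i⟩ hb
    simp only [idx, Finset.mem_sdiff, Finset.mem_product, Finset.mem_range] at hb
    have hmem : ∀ m, m < n + 2 → m ∈ I ∪ Finset.Ico 2 n ∪ {0, 1, n, n + 1} := by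
      intro m hm
      rw [Finset.mem_union, Finset.mem_union, ext2_mem_port, Finset.mem_Ico]
      omega
    exact ⟨hmem _ (by simp only; omega), hmem _ (by simp only; omega)⟩
  rw [hall] at y3 y4
  have hp : ∀ i, (i = 0 ∨ i = 1 ∨ i = n ∨ i = n + 1) → y i = y₀ i := fun i hi =>
    y1 i (Finset.mem_union_right _ ((ext2_mem_port n i).2 hi))
  refine ⟨y, ⟨?_, ?_, ?_, ?_, ?_⟩, ?_, y3, y4⟩
  · rw [hp 0 (by omega), e0]
  · rw [hp 1 (by omega), e1]
  · rw [hp n (by omega), en]
  · rw [hp (n + 1) (by omega), en1]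
  · intro i hi1 hi2
    exact y2 i (Finset.mem_union_right _ (Finset.mem_Ico.2 ⟨hi1, hi2⟩))
  · intro i hi
    exact y1 i (Finset.mem_union_left _ hi)

/-- the case of an empty initial set -/
theorem ext_seg_empty (w : ℕ → Letter) (n : ℕ) (hn : 10 ≤ n) (P P' Q Q' : Pt k) (hP : P ≠ P')
    (hQ : Q ≠ Q') (forb : Finset El) (h1 : vtx P ∈ forb) (h2 : vtx P' ∈ forb)
    (h3 : vtx Q ∈ forb) (h4 : vtx Q' ∈ forb) (hk : 10 * forb.card + 30 * n + 20 < k) :
    ∃ y : ℕ → Pt k, Seg k w n P P' Q Q' y ∧
      Set.InjOn (el y) (idx n) ∧ ∀ b ∈ idx n, el y b ∉ forb := by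
  classical
  have hempty : knownIdx n (∅ ∪ {0, 1, n, n + 1}) = ∅ := by
    rw [knownIdx, Finset.filter_eq_empty_iff]
    rintro ⟨τ, i⟩ hb
    simp only [idx, Finset.mem_sdiff, Finset.mem_product, Finset.mem_range, Finset.mem_insert,
      Finset.mem_singleton, Prod.mk.injEq] at hb
    rw [Finset.empty_union, ext2_mem_port, ext2_mem_port]
    simp only
    omega
  obtain ⟨y, hy1, -, hy2, hy3⟩ := ext_seg w n hn P P' Q Q' hP hQ forb h1 h2 h3 h4 ∅ (by simp)
    (fun i => if i = 0 then P else if i = 1 then P' else if i = n then Q else Q') (by simp)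
    (by simp) (by simp)
    (by rw [if_neg (by omega), if_neg (by omega), if_pos rfl])
    (by rw [if_neg (by omega), if_neg (by omega), if_neg (by omega)])
    (by rw [hempty]; simp) (by rw [hempty]; simp) hk
  exact ⟨y, hy1, hy2, hy3⟩

end SqCyc
end
end
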