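import Pool.Agent.Lib.SqCyc.Model
import Pool.Agent.Lib.SqCyc.Ext2
import Pool.Agent.Lib.SqCyc.Abs1
import Pool.Agent.Lib.SqCyc.Abs5

section

/-! # Gadgets: context -/

open Finset

namespace SqCyc

/-- context of the gadget lemmas: `m` slots with word `w` of length `ℓ`, available elements `X` -/
structure Ctx (k : ℕ) [NeZero k] (ℓ : ℕ) (w : ℕ → Letter) (m : ℕ) (X : Finset El) : Prop where
  hX : X ⊆ U k
  hA : ∀ s ≤ m, vtx (PA k s) ∉ X
  hC : ∀ s ≤ m, vtx (PC k s) ∉ X
  wins : HasWins w ℓ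

end SqCyc
end

section

/-! # GD-1 filling a slot around a window -/

open Finset

namespace SqCyc

variable {k : ℕ} [NeZero k] {ℓ m : ℕ} {w : ℕ → Letter} {X : Finset El}

private theorem gd1_card_idx (hℓ : 2 ≤ ℓ) : (idx ℓ).card + 3 = 3 * ℓ := by
  have hsub : ({(0, 0), (0, 1), (1, 0)} : Finset (ℕ × ℕ)) ⊆ range 3 ×ˢ range ℓ := by
    intro b hb
    simp only [mem_insert, mem_singleton] at hb
    rw [mem_product, mem_range, mem_range]
    rcases hb with rfl | rfl | rfl <;> constructor <;> simp <;> omega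
  have h1 := card_sdiff_add_card_eq_card hsub
  have h2 : ({(0, 0), (0, 1), (1, 0)} : Finset (ℕ × ℕ)).card = 3 := by decide
  rw [h2, card_product, card_range, card_range] at h1
  exact h1

/-- a filling covers `3ℓ - 3` elements -/
theorem Fill.card_eq (hℓ : 2 ≤ ℓ) {s : ℕ} {A : Finset El} (h : Fill k w ℓ X s A) :
    A.card + 3 = 3 * ℓ := by
  obtain ⟨y, -, hinj, rfl, -⟩ := h
  rw [card_image_of_injOn hinj, gd1_card_idx hℓ]

theorem covT_card (hℓ : 2 ≤ ℓ) {T : Finset ℕ} {A : Finset El}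
    (h : CovT (Fill k w ℓ X) T A) : A.card + 3 * T.card = 3 * ℓ * T.card ∧ A ⊆ X := by
  obtain ⟨f, hf, hd, rfl⟩ := h
  constructor
  · rw [card_biUnion hd]
    have h1 : ∑ s ∈ T, ((f s).card + 3) = ∑ s ∈ T, 3 * ℓ :=
      sum_congr rfl fun s hs => (hf s hs).card_eq hℓ
    rw [sum_add_distrib, sum_const, sum_const, smul_eq_mul, smul_eq_mul] at h1
    linarith
  · intro x hx
    obtain ⟨s, hs, hxs⟩ := mem_biUnion.1 hx
    obtain ⟨y, -, -, -, hX⟩ := hf s hs
    exact hX hxs

/-- the twelve indices of a window -/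
private def gd1_K (i : ℕ) : Finset (ℕ × ℕ) :=
  {(0, i), (0, i + 1), (0, i + 3), (0, i + 4), (1, i), (2, i + 1), (1, i + 3)} ∪
  {(0, i + 2), (2, i), (1, i + 1), (1, i + 2), (2, i + 2)}

omit [NeZero k] in
private theorem gd1_image (y : ℕ → Pt k) (i : ℕ) :
    (gd1_K i).image (el y) = W0 (y i) (y (i + 1)) (y (i + 3)) (y (i + 4)) ∪
      Wz (y i) (y (i + 1)) (y (i + 3)) (y (i + 4)) (y (i + 2)) := by
  rw [gd1_K, image_union]
  congr 1
  all_goals
    simp only [image_insert, image_singleton, W0, Wz, el, if_true, one_ne_zero, if_false,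
      OfNat.ofNat_ne_zero, Nat.add_assoc]

private theorem gd1_card_K (i : ℕ) : (gd1_K i).card = 12 := by
  have h : gd1_K i = (gd1_K 0).image (fun b => (b.1, b.2 + i)) := by
    simp only [gd1_K, image_union, image_insert, image_singleton]
    simp only [zero_add, add_comm i]
  rw [h, card_image_of_injective]
  · decide
  · intro a b hab
    simp only [Prod.mk.injEq, add_left_inj] at hab
    exact Prod.ext hab.1 hab.2

private theorem gd1_known {i : ℕ} (h4 : 4 ≤ i) (h7 : i + 7 ≤ ℓ) :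
    knownIdx ℓ ({i, i + 1, i + 2, i + 3, i + 4} ∪ {0, 1, ℓ, ℓ + 1}) = gd1_K i := by
  ext ⟨t, j⟩
  simp only [knownIdx, idx, gd1_K, mem_filter, mem_sdiff, mem_product, mem_range, mem_union,
    mem_insert, mem_singleton, Prod.mk.injEq]
  constructor
  · rintro ⟨⟨⟨h1, h2⟩, h3⟩, h5, h6⟩
    have ht : t = 0 ∨ t = 1 ∨ t = 2 := by omega
    rcases h5 with (rfl | rfl | rfl | rfl | rfl) | (rfl | rfl | rfl | rfl) <;>
      rcases ht with rfl | rfl | rfl <;>
      first
        | (simp; done)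
        | (simp at h3; done)
        | (exfalso; clear h3; omega)
  · rintro ((⟨rfl, rfl⟩ | ⟨rfl, rfl⟩ | ⟨rfl, rfl⟩ | ⟨rfl, rfl⟩ | ⟨rfl, rfl⟩ | ⟨rfl, rfl⟩ |
      ⟨rfl, rfl⟩) | (⟨rfl, rfl⟩ | ⟨rfl, rfl⟩ | ⟨rfl, rfl⟩ | ⟨rfl, rfl⟩ | ⟨rfl, rfl⟩)) <;>
      exact ⟨⟨⟨by omega, by omega⟩, by omega⟩, by omega, by omega⟩

theorem slot_window (C : Ctx k ℓ w m X) {s : ℕ} (hs : s < m) {i₀ : ℕ} {θ η : Letter}
    (hw : Win w ℓ i₀ θ η) {p₁ p₂ p₃ p₄ : Pt k} (h1 : p₁ ∈ Lset k θ) (h2 : p₂ ∈ Lset k θ)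
    (h3 : p₃ ∈ Lset k η) (h4 : p₄ ∈ Lset k θ) (Z : Finset (Pt k)) (hZ : Z ⊆ Lset k θ)
    (hne : Z.Nonempty) (hZ40 : Z.card ≤ 40)
    (h12 : ∀ z ∈ Z, (W0 p₁ p₂ p₃ p₄ ∪ Wz p₁ p₂ p₃ p₄ z).card = 12)
    (hXz : ∀ z ∈ Z, W0 p₁ p₂ p₃ p₄ ∪ Wz p₁ p₂ p₃ p₄ z ⊆ X) (F : Finset El)
    (hk : 300 * ((U k \ X).card + F.card + ℓ) < k) :
    ∃ Out ⊆ X, Disjoint Out F ∧
      (∀ z ∈ Z, Disjoint Out (W0 p₁ p₂ p₃ p₄ ∪ Wz p₁ p₂ p₃ p₄ z)) ∧
      ∀ z ∈ Z, Fill k w ℓ X s (Out ∪ (W0 p₁ p₂ p₃ p₄ ∪ Wz p₁ p₂ p₃ p₄ z)) := by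
  obtain ⟨z₀, hz₀⟩ := hne
  have hlo := hw.lo
  have hhi := hw.hi
  set y₀ : ℕ → Pt k := fun i => if i = 0 then PA k s else if i = 1 then PC k s else
    if i = ℓ then PA k (s + 1) else if i = ℓ + 1 then PC k (s + 1) else
    if i = i₀ then p₁ else if i = i₀ + 1 then p₂ else if i = i₀ + 2 then z₀ else
    if i = i₀ + 3 then p₃ else p₄ with hy₀
  have e0 : y₀ 0 = PA k s := by simp [hy₀]
  have e1 : y₀ 1 = PC k s := by simp [hy₀]
  have en : y₀ ℓ = PA k (s + 1) := by
    simp only [hy₀]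
    rw [if_neg (by omega), if_neg (by omega), if_true]
  have en1 : y₀ (ℓ + 1) = PC k (s + 1) := by
    simp only [hy₀]
    rw [if_neg (by omega), if_neg (by omega), if_neg (by omega), if_true]
  have w0 : y₀ i₀ = p₁ := by
    simp only [hy₀]
    rw [if_neg (by omega), if_neg (by omega), if_neg (by omega), if_neg (by omega), if_true]
  have w1 : y₀ (i₀ + 1) = p₂ := by
    simp only [hy₀]
    rw [if_neg (by omega), if_neg (by omega), if_neg (by omega), if_neg (by omega),
      if_neg (by omega), if_true]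
  have w2 : y₀ (i₀ + 2) = z₀ := by
    simp only [hy₀]
    rw [if_neg (by omega), if_neg (by omega), if_neg (by omega), if_neg (by omega),
      if_neg (by omega), if_neg (by omega), if_true]
  have w3 : y₀ (i₀ + 3) = p₃ := by
    simp only [hy₀]
    rw [if_neg (by omega), if_neg (by omega), if_neg (by omega), if_neg (by omega),
      if_neg (by omega), if_neg (by omega), if_neg (by omega), if_true]
  have w4 : y₀ (i₀ + 4) = p₄ := by
    simp only [hy₀]
    rw [if_neg (by omega), if_neg (by omega), if_neg (by omega), if_neg (by omega),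
      if_neg (by omega), if_neg (by omega), if_neg (by omega), if_neg (by omega)]
  set I : Finset ℕ := {i₀, i₀ + 1, i₀ + 2, i₀ + 3, i₀ + 4} with hI
  have hmemI : ∀ i, i ∈ I ↔ i = i₀ ∨ i = i₀ + 1 ∨ i = i₀ + 2 ∨ i = i₀ + 3 ∨ i = i₀ + 4 := by
    intro i
    simp only [hI, mem_insert, mem_singleton]
  have hknown : knownIdx ℓ (I ∪ {0, 1, ℓ, ℓ + 1}) = gd1_K i₀ := gd1_known hlo hhi
  set V := W0 p₁ p₂ p₃ p₄ with hV
  have himg₀ : (gd1_K i₀).image (el y₀) = V ∪ Wz p₁ p₂ p₃ p₄ z₀ := by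
    rw [gd1_image, w0, w1, w2, w3, w4]
  have hVcard : V.card ≤ 7 := by
    rw [hV, W0]
    exact (card_insert_le _ _).trans (Nat.add_le_add_right card_le_six 1)
  have hWcard : ∀ z, (Wz p₁ p₂ p₃ p₄ z).card ≤ 5 := fun z => by
    rw [Wz]
    exact card_le_five
  set forb : Finset El := (Uall k \ X) ∪
    ((F ∪ V ∪ Z.biUnion (fun z => Wz p₁ p₂ p₃ p₄ z)) \ (V ∪ Wz p₁ p₂ p₃ p₄ z₀)) with hforb
  have hforbcard : forb.card ≤ (U k \ X).card + F.card + 211 := by
    have a1 : (Uall k \ X).card ≤ (U k \ X).card + 4 := by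
      have b1 : Uall k \ X ⊆ (U k \ X) ∪
          {El.p false 0, El.p true 0, El.p false k, El.p true k} := by
        intro x hx
        rw [mem_sdiff, Uall, mem_union] at hx
        rw [mem_union, mem_sdiff]
        rcases hx with ⟨hx | hx, hx'⟩
        · exact Or.inl ⟨hx, hx'⟩
        · exact Or.inr hx
      exact (card_le_card b1).trans ((card_union_le _ _).trans (Nat.add_le_add_left card_le_four _))
    have a2 : (Z.biUnion (fun z => Wz p₁ p₂ p₃ p₄ z)).card ≤ 200 := by
      refine (card_biUnion_le_card_mul _ _ 5 fun z _ => hWcard z).trans ?_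
      omega
    have a3 : (F ∪ V ∪ Z.biUnion (fun z => Wz p₁ p₂ p₃ p₄ z)).card ≤ F.card + 7 + 200 :=
      (card_union_le _ _).trans (Nat.add_le_add
        ((card_union_le _ _).trans (Nat.add_le_add_left hVcard _)) a2)
    have a4 : ((F ∪ V ∪ Z.biUnion (fun z => Wz p₁ p₂ p₃ p₄ z)) \
        (V ∪ Wz p₁ p₂ p₃ p₄ z₀)).card ≤ F.card + 7 + 200 := (card_le_card sdiff_subset).trans a3
    have a5 := card_union_le (Uall k \ X)
      ((F ∪ V ∪ Z.biUnion (fun z => Wz p₁ p₂ p₃ p₄ z)) \ (V ∪ Wz p₁ p₂ p₃ p₄ z₀))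
    rw [hforb]
    omega
  have hport : ∀ P : Pt k, vtx P ∉ X → vtx P ∈ forb := by
    intro P hP
    rw [hforb, mem_union, mem_sdiff]
    exact Or.inl ⟨by rw [Uall, mem_union]; exact Or.inl (vtx_mem_U P), hP⟩
  have hPAC : ∀ t, PA k t ≠ PC k t := fun t h => by
    have := congrArg Prod.fst h
    simp [PA, PC] at this
  obtain ⟨y, hseg, hyI, hinj, hyforb⟩ := ext_seg w ℓ (by omega) (PA k s) (PC k s) (PA k (s + 1))
    (PC k (s + 1)) (hPAC s) (hPAC (s + 1)) forb (hport _ (C.hA s hs.le)) (hport _ (C.hC s hs.le))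
    (hport _ (C.hA (s + 1) hs)) (hport _ (C.hC (s + 1) hs)) I
    (fun i hi => by
      rw [hmemI] at hi
      omega)
    y₀
    (fun i hi => by
      rw [hmemI] at hi
      rcases hi with rfl | rfl | rfl | rfl | rfl
      · rw [w0, hw.l0]; exact h1
      · rw [w1, hw.l1]; exact h2
      · rw [w2, hw.l2]; exact hZ hz₀
      · rw [w3, hw.l3]; exact h3
      · rw [w4, hw.l4]; exact h4)
    e0 e1 en en1
    (by
      rw [hknown, ← card_image_iff, himg₀, gd1_card_K]
      exact h12 z₀ hz₀)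
    (fun b hb => by
      rw [hknown] at hb
      have a1 : el y₀ b ∈ V ∪ Wz p₁ p₂ p₃ p₄ z₀ := by
        rw [← himg₀]
        exact mem_image_of_mem _ hb
      rw [hforb, mem_union, mem_sdiff, mem_sdiff, not_or]
      exact ⟨fun h => h.2 (hXz z₀ hz₀ a1), fun h => h.2 a1⟩)
    (by omega)
  have v0 : y i₀ = p₁ := by rw [hyI i₀ ((hmemI _).2 (by omega)), w0]
  have v1 : y (i₀ + 1) = p₂ := by rw [hyI _ ((hmemI _).2 (by omega)), w1]
  have v2 : y (i₀ + 2) = z₀ := by rw [hyI _ ((hmemI _).2 (by omega)), w2]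
  have v3 : y (i₀ + 3) = p₃ := by rw [hyI _ ((hmemI _).2 (by omega)), w3]
  have v4 : y (i₀ + 4) = p₄ := by rw [hyI _ ((hmemI _).2 (by omega)), w4]
  have himg : (gd1_K i₀).image (el y) = V ∪ Wz p₁ p₂ p₃ p₄ z₀ := by
    rw [gd1_image, v0, v1, v2, v3, v4]
  have hKsub : gd1_K i₀ ⊆ idx ℓ := by
    rw [← hknown]
    exact filter_subset _ _
  have hUall : ∀ (u : ℕ → Pt k) (b : ℕ × ℕ), el u b ∈ Uall k := by
    intro u b
    rw [el]
    split_ifs
    · rw [Uall, mem_union]
      exact Or.inl (vtx_mem_U _)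
    · exact col_mem_Uall _ _
  have hOutdis : ∀ b ∈ idx ℓ \ gd1_K i₀, el y b ∉ V ∪ Wz p₁ p₂ p₃ p₄ z₀ := by
    intro b hb hcon
    rw [← himg] at hcon
    obtain ⟨b', hb', hbb⟩ := mem_image.1 hcon
    rw [mem_sdiff] at hb
    have := hinj (hKsub hb') hb.1 hbb
    exact hb.2 (this ▸ hb')
  have hOutforb : ∀ b ∈ idx ℓ \ gd1_K i₀, el y b ∈ X ∧
      el y b ∉ F ∪ V ∪ Z.biUnion (fun z => Wz p₁ p₂ p₃ p₄ z) := by
    intro b hb
    have a1 := hyforb b (mem_sdiff.1 hb).1
    rw [hforb, mem_union, mem_sdiff, mem_sdiff, not_or] at a1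
    refine ⟨?_, fun h => a1.2 ⟨h, hOutdis b hb⟩⟩
    by_contra hcon
    exact a1.1 ⟨hUall y b, hcon⟩
  have hOutV : ∀ z ∈ Z, ∀ b ∈ idx ℓ \ gd1_K i₀, el y b ∉ V ∪ Wz p₁ p₂ p₃ p₄ z := by
    intro z hz b hb hcon
    refine (hOutforb b hb).2 ?_
    rcases mem_union.1 hcon with h | h
    · exact mem_union_left _ (mem_union_right _ h)
    · exact mem_union_right _ (mem_biUnion.2 ⟨z, hz, h⟩)
  refine ⟨(idx ℓ \ gd1_K i₀).image (el y), ?_, ?_, ?_, ?_⟩
  · intro x hx
    obtain ⟨b, hb, rfl⟩ := mem_image.1 hx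
    exact (hOutforb b hb).1
  · rw [disjoint_left]
    intro x hx hxF
    obtain ⟨b, hb, rfl⟩ := mem_image.1 hx
    exact (hOutforb b hb).2 (mem_union_left _ (mem_union_left _ hxF))
  · intro z hz
    rw [disjoint_left]
    intro x hx hxW
    obtain ⟨b, hb, rfl⟩ := mem_image.1 hx
    exact hOutV z hz b hb hxW
  · intro z hz
    set yz : ℕ → Pt k := Function.update y (i₀ + 2) z with hyz
    have hne' : ∀ i, i ≠ i₀ + 2 → yz i = y i := fun i hi => by
      rw [hyz, Function.update_of_ne hi]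
    have u2 : yz (i₀ + 2) = z := by rw [hyz, Function.update_self]
    have helz : ∀ b ∈ idx ℓ \ gd1_K i₀, el yz b = el y b := by
      rintro ⟨t, j⟩ hb
      simp only [idx, gd1_K, mem_sdiff, mem_product, mem_range, mem_union, mem_insert,
        mem_singleton, Prod.mk.injEq] at hb
      have a1 : j ≠ i₀ + 2 := by
        rintro rfl
        omega
      have a2 : j + t ≠ i₀ + 2 := by
        intro h
        omega
      simp only [el]
      rw [hne' j a1, hne' (j + t) a2]
    have himgz : (gd1_K i₀).image (el yz) = V ∪ Wz p₁ p₂ p₃ p₄ z := by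
      rw [gd1_image, u2, hne' _ (by omega), hne' _ (by omega), hne' _ (by omega),
        hne' _ (by omega), v0, v1, v3, v4]
    have hunion : (idx ℓ \ gd1_K i₀) ∪ gd1_K i₀ = idx ℓ := sdiff_union_of_subset hKsub
    have himgout : (idx ℓ \ gd1_K i₀).image (el yz) = (idx ℓ \ gd1_K i₀).image (el y) :=
      image_congr fun b hb => helz b hb
    refine ⟨yz, ⟨?_, ?_, ?_, ?_, ?_⟩, ?_, ?_, ?_⟩
    · rw [hne' _ (by omega)]; exact hseg.h0
    · rw [hne' _ (by omega)]; exact hseg.h1
    · rw [hne' _ (by omega)]; exact hseg.hn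
    · rw [hne' _ (by omega)]; exact hseg.hn1
    · intro i hi hi'
      rcases eq_or_ne i (i₀ + 2) with rfl | hii
      · rw [u2, hw.l2]
        exact hZ hz
      · rw [hne' i hii]
        exact hseg.lett i hi hi'
    · rw [← hunion, coe_union, Set.injOn_union (disjoint_coe.2 sdiff_disjoint)]
      refine ⟨?_, ?_, ?_⟩
      · intro a ha b hb hab
        rw [helz a ha, helz b hb] at hab
        exact hinj (mem_sdiff.1 ha).1 (mem_sdiff.1 hb).1 hab
      · rw [← card_image_iff, himgz, gd1_card_K]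
        exact h12 z hz
      · intro a ha b hb hab
        rw [helz a ha] at hab
        refine hOutV z hz a ha ?_
        rw [hab, ← himgz]
        exact mem_image_of_mem _ hb
    · have hfin : (idx ℓ).image (el yz) = ((idx ℓ \ gd1_K i₀) ∪ gd1_K i₀).image (el yz) := by
        rw [hunion]
      rw [hfin, image_union, himgout, himgz]
    · refine union_subset ?_ (hXz z hz)
      intro x hx
      obtain ⟨b, hb, rfl⟩ := mem_image.1 hx
      exact (hOutforb b hb).1

end SqCyc
end

section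

section

/-! # GB-4 variational lemma -/

open Finset

namespace SqCyc

section
variable {σ Ω β E K : Type} [DecidableEq E] [DecidableEq K]

theorem gb4_psi_nonneg (X' : Finset E) (γ : E → ℝ) (e : E) : 0 ≤ psi X' γ e := by
  unfold psi
  split_ifs
  · exact (Real.exp_pos _).le
  · exact le_refl _

theorem gb4_Wt_nonneg (J : Finset β) (F : β → Ω → E) (X' : Finset E) (γ : E → ℝ) (x : Ω) :
    0 ≤ Wt J F X' γ x :=
  Finset.prod_nonneg fun _ _ => gb4_psi_nonneg X' γ _

theorem gb4_Wt_pos (J : Finset β) (F : β → Ω → E) (X' : Finset E) (γ : E → ℝ) (x : Ω)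
    (h : ∀ b ∈ J, F b x ∈ X') : 0 < Wt J F X' γ x := by
  apply Finset.prod_pos
  intro b hb
  unfold psi
  rw [if_pos (h b hb)]
  exact Real.exp_pos _

theorem gb4_Zf_pos (Om : Finset Ω) (J : Finset β) (F : β → Ω → E) (X' : Finset E) (γ : E → ℝ)
    (h : ∃ x ∈ Om, ∀ b ∈ J, F b x ∈ X') : 0 < Zf Om J F X' γ := by
  obtain ⟨x, hx, hb⟩ := h
  exact Finset.sum_pos' (fun y _ => gb4_Wt_nonneg J F X' γ y)
    ⟨x, hx, gb4_Wt_pos J F X' γ x hb⟩

/-- the functional to be minimized -/
noncomputable def gb4Lam (S' : Finset σ) (Om : σ → Finset Ω) (J : Finset β) (F : β → Ω → E)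
    (X' : Finset E) (γ : E → ℝ) : ℝ :=
  ∑ s ∈ S', Real.log (Zf (Om s) J F X' γ) - ∑ e ∈ X', γ e

theorem gb4_Lam_congr (S' : Finset σ) (Om : σ → Finset Ω) (J : Finset β) (F : β → Ω → E)
    (X' : Finset E) (γ γ' : E → ℝ) (h : ∀ e ∈ X', γ e = γ' e) :
    gb4Lam S' Om J F X' γ = gb4Lam S' Om J F X' γ' := by
  have h1 : psi X' γ = psi X' γ' := by
    funext e
    unfold psi
    split_ifs with he
    · rw [h e he]
    · rfl
  unfold gb4Lam Zf Wt
  rw [h1, Finset.sum_congr rfl h]

theorem gb4_Lam_cont (S' : Finset σ) (Om : σ → Finset Ω) (J : Finset β) (F : β → Ω → E)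
    (X' : Finset E) (hZ : ∀ s ∈ S', ∃ x ∈ Om s, ∀ b ∈ J, F b x ∈ X') :
    Continuous (gb4Lam S' Om J F X') := by
  have hpsi : ∀ e, Continuous fun γ : E → ℝ => psi X' γ e := by
    intro e
    unfold psi
    split_ifs
    · exact Real.continuous_exp.comp (continuous_apply e)
    · exact continuous_const
  have hZc : ∀ s, Continuous fun γ : E → ℝ => Zf (Om s) J F X' γ := by
    intro s
    unfold Zf Wt
    exact continuous_finsetSum _ fun x _ => continuous_finsetProd _ fun b _ => hpsi _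
  unfold gb4Lam
  apply Continuous.sub
  · apply continuous_finsetSum
    intro s hs
    exact (hZc s).log fun γ => (gb4_Zf_pos (Om s) J F X' γ (hZ s hs)).ne'
  · exact continuous_finsetSum _ fun e _ => continuous_apply e

/-- invariance under class shifts -/
theorem gb4_Lam_shift (S' : Finset σ) (Om : σ → Finset Ω) (J : Finset β) (F : β → Ω → E)
    (X' : Finset E) (cE : E → K) (cB : β → K)
    (hcls : ∀ s ∈ S', ∀ x ∈ Om s, ∀ b ∈ J, F b x ∈ X' → cE (F b x) = cB b)
    (hcount : ∀ c, (X'.filter (fun e => cE e = c)).card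
      = (J.filter (fun b => cB b = c)).card * S'.card)
    (hZ : ∀ s ∈ S', ∃ x ∈ Om s, ∀ b ∈ J, F b x ∈ X') (γ : E → ℝ) (τ : K → ℝ) :
    gb4Lam S' Om J F X' (fun e => γ e - τ (cE e)) = gb4Lam S' Om J F X' γ := by
  set H : ℝ := ∑ b ∈ J, τ (cB b) with hH
  -- partition functions
  have h1 : ∀ s ∈ S', Zf (Om s) J F X' (fun e => γ e - τ (cE e)) =
      Real.exp (-H) * Zf (Om s) J F X' γ := by
    intro s hs
    unfold Zf
    rw [Finset.mul_sum]
    refine Finset.sum_congr rfl fun x hx => ?_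
    by_cases hg : ∀ b ∈ J, F b x ∈ X'
    · unfold Wt
      have e1 : ∀ b ∈ J, psi X' (fun e => γ e - τ (cE e)) (F b x) =
          Real.exp (-τ (cB b)) * psi X' γ (F b x) := by
        intro b hb
        unfold psi
        rw [if_pos (hg b hb), if_pos (hg b hb)]
        dsimp only
        rw [hcls s hs x hx b hb (hg b hb), ← Real.exp_add]
        congr 1
        ring
      rw [Finset.prod_congr rfl e1, Finset.prod_mul_distrib, ← Real.exp_sum, hH,
        Finset.sum_neg_distrib]
    · push Not at hg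
      obtain ⟨b, hb, hbx⟩ := hg
      have e1 : ∀ γ' : E → ℝ, Wt J F X' γ' x = 0 := by
        intro γ'
        apply Finset.prod_eq_zero hb
        unfold psi
        rw [if_neg hbx]
      rw [e1, e1, mul_zero]
  have h2 : ∀ s ∈ S', Real.log (Zf (Om s) J F X' (fun e => γ e - τ (cE e))) =
      -H + Real.log (Zf (Om s) J F X' γ) := by
    intro s hs
    rw [h1 s hs, Real.log_mul (Real.exp_pos _).ne' (gb4_Zf_pos (Om s) J F X' γ (hZ s hs)).ne',
      Real.log_exp]
  -- the linear term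
  have h3 : ∑ e ∈ X', τ (cE e) = S'.card * H := by
    set C : Finset K := X'.image cE ∪ J.image cB with hC
    have a1 : ∑ e ∈ X', τ (cE e) = ∑ c ∈ C, ((X'.filter (fun e => cE e = c)).card : ℝ) * τ c := by
      rw [← Finset.sum_fiberwise_of_maps_to (s := X') (t := C) (g := cE)]
      · refine Finset.sum_congr rfl fun c _ => ?_
        rw [Finset.sum_congr rfl (g := fun _ => τ c)]
        · rw [Finset.sum_const, nsmul_eq_mul]
        · intro e he
          rw [(Finset.mem_filter.1 he).2]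
      · intro e he
        exact Finset.mem_union_left _ (Finset.mem_image_of_mem _ he)
    have a2 : H = ∑ c ∈ C, ((J.filter (fun b => cB b = c)).card : ℝ) * τ c := by
      rw [hH, ← Finset.sum_fiberwise_of_maps_to (s := J) (t := C) (g := cB)]
      · refine Finset.sum_congr rfl fun c _ => ?_
        rw [Finset.sum_congr rfl (g := fun _ => τ c)]
        · rw [Finset.sum_const, nsmul_eq_mul]
        · intro e he
          rw [(Finset.mem_filter.1 he).2]
      · intro e he
        exact Finset.mem_union_right _ (Finset.mem_image_of_mem _ he)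
    rw [a1, a2, Finset.mul_sum]
    refine Finset.sum_congr rfl fun c _ => ?_
    rw [hcount c]
    push_cast
    ring
  unfold gb4Lam
  rw [Finset.sum_congr rfl h2, Finset.sum_add_distrib, Finset.sum_sub_distrib, h3,
    Finset.sum_const, nsmul_eq_mul]
  ring

/-- the derivative in a coordinate direction -/
theorem gb4_deriv (S' : Finset σ) (Om : σ → Finset Ω) (J : Finset β) (F : β → Ω → E)
    (X' : Finset E) (hZ : ∀ s ∈ S', ∃ x ∈ Om s, ∀ b ∈ J, F b x ∈ X') (γ : E → ℝ) (e : E)
    (he : e ∈ X') :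
    HasDerivAt (fun t : ℝ => gb4Lam S' Om J F X' (fun e' => γ e' + if e' = e then t else 0))
      (covr S' Om J F X' γ e - 1) 0 := by
  have hγ0 : (fun e' => γ e' + if e' = e then (0 : ℝ) else 0) = γ := by
    funext e'
    split_ifs <;> simp
  have hW : ∀ (t : ℝ) (x : Ω), Wt J F X' (fun e' => γ e' + if e' = e then t else 0) x =
      Wt J F X' γ x * Real.exp (((J.filter (fun b => F b x = e)).card : ℝ) * t) := by
    intro t x
    unfold Wt
    have e1 : ∀ b ∈ J, psi X' (fun e' => γ e' + if e' = e then t else 0) (F b x) =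
        psi X' γ (F b x) * (if F b x = e then Real.exp t else 1) := by
      intro b _
      unfold psi
      dsimp only
      by_cases h1 : F b x ∈ X'
      · rw [if_pos h1, if_pos h1]
        by_cases h2 : F b x = e
        · rw [if_pos h2, if_pos h2, Real.exp_add]
        · rw [if_neg h2, if_neg h2, add_zero, mul_one]
      · rw [if_neg h1, if_neg h1, zero_mul]
    rw [Finset.prod_congr rfl e1, Finset.prod_mul_distrib, Finset.prod_ite, Finset.prod_const,
      Finset.prod_const_one, mul_one, ← Real.exp_nat_mul]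
  have hZd : ∀ s ∈ S', HasDerivAt
      (fun t : ℝ => Zf (Om s) J F X' (fun e' => γ e' + if e' = e then t else 0))
      (∑ a ∈ J, Nm (Om s) J F X' γ a e) 0 := by
    intro s _
    have a1 : (fun t : ℝ => Zf (Om s) J F X' (fun e' => γ e' + if e' = e then t else 0)) =
        fun t : ℝ => ∑ x ∈ Om s, Wt J F X' γ x *
          Real.exp (((J.filter (fun b => F b x = e)).card : ℝ) * t) := by
      funext t
      unfold Zf
      exact Finset.sum_congr rfl fun x _ => hW t x
    rw [a1]
    have a2 : (∑ a ∈ J, Nm (Om s) J F X' γ a e) = ∑ x ∈ Om s, Wt J F X' γ x *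
        ((J.filter (fun b => F b x = e)).card : ℝ) := by
      unfold Nm
      simp_rw [Finset.sum_filter]
      rw [Finset.sum_comm]
      refine Finset.sum_congr rfl fun x _ => ?_
      rw [← Finset.sum_filter, Finset.sum_const, nsmul_eq_mul]
      ring
    rw [a2]
    apply HasDerivAt.fun_sum
    intro x _
    have a3 : HasDerivAt (fun t : ℝ => Real.exp (((J.filter (fun b => F b x = e)).card : ℝ) * t))
        ((J.filter (fun b => F b x = e)).card : ℝ) 0 := by
      have a4 : HasDerivAt (fun t : ℝ => ((J.filter (fun b => F b x = e)).card : ℝ) * t)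
          ((J.filter (fun b => F b x = e)).card : ℝ) 0 := by
        simpa using (hasDerivAt_id (0 : ℝ)).const_mul ((J.filter (fun b => F b x = e)).card : ℝ)
      have a5 := a4.exp
      simpa using a5
    exact a3.const_mul _
  unfold gb4Lam covr
  apply HasDerivAt.sub
  · apply HasDerivAt.fun_sum
    intro s hs
    have b1 := (hZd s hs).log (by
      rw [hγ0]
      exact (gb4_Zf_pos (Om s) J F X' γ (hZ s hs)).ne')
    rw [hγ0] at b1
    exact b1
  · have c1 : (fun t : ℝ => ∑ e' ∈ X', (γ e' + if e' = e then t else 0)) =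
        fun t : ℝ => (∑ e' ∈ X', γ e') + t := by
      funext t
      rw [Finset.sum_add_distrib, Finset.sum_ite_eq' X' e, if_pos he]
    rw [c1]
    exact (hasDerivAt_id (0 : ℝ)).const_add _

theorem gb4_right {φ : ℝ → ℝ} {d ε : ℝ} (hd : HasDerivAt φ d 0) (hε : 0 < ε)
    (h : ∀ t, 0 < t → t ≤ ε → φ 0 ≤ φ t) : 0 ≤ d := by
  have h1 := hasDerivAt_iff_tendsto_slope_zero.1 hd
  have h2 := h1.mono_left (nhdsGT_le_nhdsNE (0 : ℝ))
  apply ge_of_tendsto h2
  have h3 : Set.Ioc (0 : ℝ) ε ∈ nhdsWithin (0 : ℝ) (Set.Ioi 0) := Ioc_mem_nhdsGT hε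
  filter_upwards [h3] with t ht
  rw [zero_add, smul_eq_mul]
  apply mul_nonneg (inv_nonneg.2 ht.1.le)
  linarith [h t ht.1 ht.2]

theorem gb4_left {φ : ℝ → ℝ} {d ε : ℝ} (hd : HasDerivAt φ d 0) (hε : 0 < ε)
    (h : ∀ t, t < 0 → -ε ≤ t → φ 0 ≤ φ t) : d ≤ 0 := by
  have h1 := hasDerivAt_iff_tendsto_slope_zero.1 hd
  have h2 := h1.mono_left (nhdsLT_le_nhdsNE (0 : ℝ))
  apply le_of_tendsto h2
  have h3 : Set.Ico (-ε) (0 : ℝ) ∈ nhdsWithin (0 : ℝ) (Set.Iio 0) :=
    Ico_mem_nhdsLT (by linarith)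
  filter_upwards [h3] with t ht
  rw [zero_add, smul_eq_mul]
  apply mul_nonpos_of_nonpos_of_nonneg (inv_nonpos.2 ht.2.le)
  linarith [h t ht.2 ht.1]

omit [DecidableEq E] in
/-- centring of a class -/
theorem gb4_centre (X' : Finset E) (cE : E → K) (ρ : ℝ) (γ : E → ℝ)
    (hγ : ∀ e ∈ X', |γ e| ≤ ρ) (c : K) :
    ∃ τ : ℝ, (∀ e ∈ X', cE e = c → |γ e - τ| ≤ ρ) ∧
      ((∀ e ∈ X', cE e = c → |γ e - τ| < ρ) ∨
        ((∃ e ∈ X', cE e = c ∧ γ e - τ = ρ) ∧ (∃ e ∈ X', cE e = c ∧ γ e - τ = -ρ))) := by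
  rcases (X'.filter (fun e => cE e = c)).eq_empty_or_nonempty with h | h
  · have h' : ∀ e ∈ X', cE e ≠ c := by
      intro e he hc
      have : e ∈ X'.filter (fun e => cE e = c) := Finset.mem_filter.2 ⟨he, hc⟩
      rw [h] at this
      exact absurd this (Finset.notMem_empty e)
    exact ⟨0, fun e he hc => absurd hc (h' e he), Or.inl fun e he hc => absurd hc (h' e he)⟩
  · obtain ⟨eM, hM1, hM2⟩ := Finset.exists_max_image _ γ h
    obtain ⟨em, hm1, hm2⟩ := Finset.exists_min_image _ γ h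
    rw [Finset.mem_filter] at hM1 hm1
    have bM := abs_le.1 (hγ eM hM1.1)
    have bm := abs_le.1 (hγ em hm1.1)
    set τ : ℝ := (γ eM + γ em) / 2 with hτ
    have key : ∀ e ∈ X', cE e = c → |γ e - τ| ≤ (γ eM - γ em) / 2 := by
      intro e he hc
      have a1 := hM2 e (Finset.mem_filter.2 ⟨he, hc⟩)
      have a2 := hm2 e (Finset.mem_filter.2 ⟨he, hc⟩)
      rw [abs_le]
      constructor <;> linarith
    refine ⟨τ, fun e he hc => (key e he hc).trans (by linarith), ?_⟩
    rcases lt_or_ge ((γ eM - γ em) / 2) ρ with hlt | hge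
    · exact Or.inl fun e he hc => (key e he hc).trans_lt hlt
    · right
      refine ⟨⟨eM, hM1.1, hM1.2, by linarith⟩, ⟨em, hm1.1, hm1.2, by linarith⟩⟩

end

theorem variational {σ Ω β E K : Type} [DecidableEq E] [DecidableEq K] (S' : Finset σ)
    (Om : σ → Finset Ω) (J : Finset β) (F : β → Ω → E) (X' : Finset E) (cE : E → K)
    (cB : β → K)
    (hcls : ∀ s ∈ S', ∀ x ∈ Om s, ∀ b ∈ J, F b x ∈ X' → cE (F b x) = cB b)
    (hcount : ∀ c, (X'.filter (fun e => cE e = c)).card
      = (J.filter (fun b => cB b = c)).card * S'.card)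
    (hZ : ∀ s ∈ S', ∃ x ∈ Om s, ∀ b ∈ J, F b x ∈ X') (ρ : ℝ) (hρ : 0 < ρ)
    (hstar : ∀ γ : E → ℝ, (∀ e ∈ X', |γ e| ≤ ρ) → ∀ e ∈ X', ∀ e' ∈ X', cE e = cE e' →
      γ e = ρ → γ e' = -ρ →
      ¬ (covr S' Om J F X' γ e ≤ 1 ∧ 1 ≤ covr S' Om J F X' γ e')) :
    ∃ γ : E → ℝ, (∀ e ∈ X', |γ e| ≤ ρ) ∧ ∀ e ∈ X', covr S' Om J F X' γ e = 1 := by
  classical
  -- a minimizer on the box
  have hcomp : IsCompact (Set.univ.pi fun _ : E => Set.Icc (-ρ) ρ) :=
    isCompact_univ_pi fun _ => isCompact_Icc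
  have hne : (Set.univ.pi fun _ : E => Set.Icc (-ρ) ρ).Nonempty :=
    ⟨fun _ => 0, fun _ _ => ⟨by linarith, hρ.le⟩⟩
  obtain ⟨γ0, hγ0, hmin0⟩ := hcomp.exists_isMinOn hne
    (gb4_Lam_cont S' Om J F X' hZ).continuousOn
  have hγ0' : ∀ e ∈ X', |γ0 e| ≤ ρ := fun e _ => abs_le.2 (hγ0 e (Set.mem_univ e))
  have hmin : ∀ γ : E → ℝ, (∀ e ∈ X', |γ e| ≤ ρ) →
      gb4Lam S' Om J F X' γ0 ≤ gb4Lam S' Om J F X' γ := by
    intro γ hγ
    have e1 : gb4Lam S' Om J F X' γ = gb4Lam S' Om J F X' (fun e => if e ∈ X' then γ e else 0) := by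
      apply gb4_Lam_congr
      intro e he
      rw [if_pos he]
    rw [e1]
    apply hmin0
    intro e _
    dsimp only
    split_ifs with he
    · exact abs_le.1 (hγ e he)
    · exact ⟨by linarith, hρ.le⟩
  -- centring
  choose τ hτ1 hτ2 using gb4_centre X' cE ρ γ0 hγ0'
  set γ : E → ℝ := fun e => γ0 e - τ (cE e) with hγdef
  have hγbox : ∀ e ∈ X', |γ e| ≤ ρ := fun e he => hτ1 (cE e) e he rfl
  have hLam : gb4Lam S' Om J F X' γ = gb4Lam S' Om J F X' γ0 :=
    gb4_Lam_shift S' Om J F X' cE cB hcls hcount hZ γ0 τ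
  -- the function in a coordinate direction
  have hφ0 : ∀ e : E, gb4Lam S' Om J F X' (fun e' => γ e' + if e' = e then (0 : ℝ) else 0) =
      gb4Lam S' Om J F X' γ := by
    intro e
    congr 1
    funext e'
    split_ifs <;> simp
  have hφ : ∀ (e : E) (t : ℝ), |γ e + t| ≤ ρ →
      gb4Lam S' Om J F X' (fun e' => γ e' + if e' = e then (0 : ℝ) else 0) ≤
      gb4Lam S' Om J F X' (fun e' => γ e' + if e' = e then t else 0) := by
    intro e t ht
    rw [hφ0, hLam]
    apply hmin
    intro e' he'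
    split_ifs with h
    · rw [h]; exact ht
    · rw [add_zero]; exact hγbox e' he'
  refine ⟨γ, hγbox, ?_⟩
  intro e he
  have hd := gb4_deriv S' Om J F X' hZ γ e he
  rcases hτ2 (cE e) with h | ⟨⟨e1, he1, hc1, hv1⟩, ⟨e2, he2, hc2, hv2⟩⟩
  · have hlt : |γ e| < ρ := h e he rfl
    have hlt' := abs_lt.1 hlt
    have a1 : 0 ≤ covr S' Om J F X' γ e - 1 := by
      apply gb4_right hd (ε := ρ - |γ e|) (by linarith)
      intro t ht0 ht1
      apply hφ
      have := abs_add_le (γ e) t
      rw [abs_of_pos ht0] at this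
      linarith
    have a2 : covr S' Om J F X' γ e - 1 ≤ 0 := by
      apply gb4_left hd (ε := ρ - |γ e|) (by linarith)
      intro t ht0 ht1
      apply hφ
      have := abs_add_le (γ e) t
      rw [abs_of_neg ht0] at this
      linarith
    linarith
  · exfalso
    have g1 : γ e1 = ρ := by rw [hγdef]; dsimp only; rw [hc1]; exact hv1
    have g2 : γ e2 = -ρ := by rw [hγdef]; dsimp only; rw [hc2]; exact hv2
    apply hstar γ hγbox e1 he1 e2 he2 (hc1.trans hc2.symm) g1 g2
    constructor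
    · have a2 : covr S' Om J F X' γ e1 - 1 ≤ 0 := by
        apply gb4_left (gb4_deriv S' Om J F X' hZ γ e1 he1) (ε := ρ) hρ
        intro t ht0 ht1
        apply hφ
        rw [g1, abs_le]
        constructor <;> linarith
      linarith
    · have a1 : 0 ≤ covr S' Om J F X' γ e2 - 1 := by
        apply gb4_right (gb4_deriv S' Om J F X' hZ γ e2 he2) (ε := ρ) hρ
        intro t ht0 ht1
        apply hφ
        rw [g2, abs_le]
        constructor <;> linarith
      linarith

end SqCyc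
end

section

/-! # WD-1 balanced lists -/

open Finset

namespace SqCyc

theorem ec_append (c : Cls) (l l' : List Letter) (h : ∃ t, l' = LA :: LC :: t) :
    ec c (l ++ l') = ec c (l ++ [LA, LC]) + ec c l' := by
  obtain ⟨t, rfl⟩ := h
  induction l with
  | nil => simp [ec]
  | cons x r ih =>
    cases r with
    | nil => simp [ec]
    | cons y r' =>
      cases r' with
      | nil =>
        simp only [List.cons_append, List.nil_append, ec] at ih ⊢
        omega
      | cons z r'' =>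
        simp only [List.cons_append] at ih ⊢
        have e1 : ∀ s, ec c (x :: y :: z :: s) = (if clsC x y = c then 1 else 0) +
          (if clsC x z = c then 1 else 0) + ec c (y :: z :: s) := fun _ => rfl
        rw [e1, e1, ih]
        omega

theorem Bal.append {l l' : List Letter} (h : Bal l) (h' : Bal l') : Bal (l ++ l') := by
  obtain ⟨t', ht'⟩ := h'.start
  have hs : ∃ t, l' ++ [LA, LC] = LA :: LC :: t := ⟨t' ++ [LA, LC], by rw [ht']; rfl⟩
  have hec : ∀ c, ec c ((l ++ l') ++ [LA, LC]) = ec c (l ++ [LA, LC]) + ec c (l' ++ [LA, LC]) := by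
    intro c
    rw [List.append_assoc, ec_append c l (l' ++ [LA, LC]) hs]
  refine ⟨?_, ?_, ?_, ?_⟩
  · obtain ⟨t, ht⟩ := h.start
    exact ⟨t ++ l', by rw [ht]; rfl⟩
  · intro θ
    rw [List.count_append, List.length_append]
    have := h.let_ θ
    have := h'.let_ θ
    omega
  · intro i e
    rw [hec, List.length_append]
    have := h.pur i e
    have := h'.pur i e
    omega
  · intro e
    rw [hec, List.length_append]
    have := h.crs e
    have := h'.crs e
    omega

theorem bal_v92 : Bal v92 where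
  start := ⟨_, rfl⟩
  let_ := by decide +kernel
  pur := by decide +kernel
  crs := by decide +kernel

theorem bal_b12 : Bal b12 where
  start := ⟨_, rfl⟩
  let_ := by decide +kernel
  pur := by decide +kernel
  crs := by decide +kernel

theorem bal_b16 : Bal b16 where
  start := ⟨_, rfl⟩
  let_ := by decide +kernel
  pur := by decide +kernel
  crs := by decide +kernel

theorem bal_v92_pow (q : ℕ) (hq : 1 ≤ q) : Bal (List.replicate q v92).flatten := by
  induction q, hq using Nat.le_induction with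
  | base => simpa using bal_v92
  | succ n hn ih =>
    rw [List.replicate_succ, List.flatten_cons]
    exact bal_v92.append ih

/-- balanced lists of every length divisible by 4 from 24 on -/
theorem exists_bal (R : ℕ) (hR : 24 ≤ R) (h4 : R % 4 = 0) : ∃ l, Bal l ∧ l.length = R := by
  induction R using Nat.strong_induction_on with
  | _ R ih =>
    by_cases h36 : 36 ≤ R
    · obtain ⟨l, hl, hlen⟩ := ih (R - 12) (by omega) (by omega) (by omega)
      refine ⟨b12 ++ l, bal_b12.append hl, ?_⟩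
      rw [List.length_append, hlen]
      have : b12.length = 12 := rfl
      omega
    · have h3 : R = 24 ∨ R = 28 ∨ R = 32 := by omega
      rcases h3 with rfl | rfl | rfl
      · exact ⟨b12 ++ b12, bal_b12.append bal_b12, rfl⟩
      · exact ⟨b12 ++ b16, bal_b12.append bal_b16, rfl⟩
      · exact ⟨b16 ++ b16, bal_b16.append bal_b16, rfl⟩

theorem i10_counts : i10.length = 10 ∧ (∀ θ : Letter, i10.count θ = if θ.2 then 3 else 2) ∧
    (∀ i e : Bool, ec (Cls.P i e) (i10 ++ [LA, LC]) = if e then 3 else 2) ∧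
    (∀ e : Bool, ec (Cls.X e) (i10 ++ [LA, LC]) = if e then 6 else 4) := by
  refine ⟨rfl, by decide +kernel, by decide +kernel, by decide +kernel⟩

end SqCyc
end

section

/-! # WD-2 from lists to functions -/

open Finset

namespace SqCyc

private theorem wd2_ec_sum (c : Cls) (L : List Letter) : ec c L =
    ∑ i ∈ range (L.length - 2), ((if clsC (L.getD i LA) (L.getD (i + 1) LA) = c then 1 else 0) +
      (if clsC (L.getD i LA) (L.getD (i + 2) LA) = c then 1 else 0)) := by
  induction L with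
  | nil => rfl
  | cons x L ih =>
    match L, ih with
    | [], _ => rfl
    | [y], _ => rfl
    | y :: z :: r, ih =>
      show (if clsC x y = c then 1 else 0) + (if clsC x z = c then 1 else 0) +
        ec c (y :: z :: r) = _
      have h1 : (x :: y :: z :: r).length - 2 = ((y :: z :: r).length - 2) + 1 := by
        simp only [List.length_cons]; omega
      rw [h1, Finset.sum_range_succ', ih, add_comm]
      rfl

private theorem wd2_aux (l : List Letter) (i : Bool) :
    l.countP (fun θ => decide (θ.1 = i)) = l.count (i, false) + l.count (i, true) := by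
  induction l with
  | nil => rfl
  | cons x l ih =>
    rw [List.countP_cons, List.count_cons, List.count_cons, ih]
    obtain ⟨x1, x2⟩ := x
    cases x1 <;> cases x2 <;> cases i <;> simp <;> omega

/-- index counts of the function given by a list followed by `A C` -/
theorem bcnt_list (k : ℕ) (l : List Letter) (u : ℕ → Letter)
    (hu : ∀ i, i < l.length + 2 → u i = (l ++ [LA, LC]).getD i LA) (c : Cls) :
    bcnt k u l.length c = (match c with
      | Cls.V i e => if k.bodd then (if e then 0 else l.count (i, false) + l.count (i, true))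
          else l.count (i, e)
      | Cls.P i e => ec (Cls.P i e) (l ++ [LA, LC])
      | Cls.X e => ec (Cls.X e) (l ++ [LA, LC])) := by
  have hbc : bcnt k u l.length c = (∑ i ∈ range l.length, if clsV k (u i) = c then 1 else 0) +
      (∑ i ∈ range l.length, if clsC (u i) (u (i + 1)) = c then 1 else 0) +
      (∑ i ∈ range l.length, if clsC (u i) (u (i + 2)) = c then 1 else 0) := by
    unfold bcnt
    rw [Finset.card_filter, Finset.sum_product, Finset.sum_range_succ, Finset.sum_range_succ,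
      Finset.sum_range_succ, Finset.sum_range_zero, zero_add]
    rfl
  have hV : ∀ (i : Bool) (e : Bool), ∀ θ η : Letter, clsC θ η ≠ Cls.V i e := by
    intro i e θ η
    unfold clsC
    split_ifs <;> simp
  have hvP : ∀ (i : Bool) (e : Bool), ∀ θ : Letter, clsV k θ ≠ Cls.P i e := by
    intro i e θ
    unfold clsV
    split_ifs <;> simp
  have hvX : ∀ (e : Bool), ∀ θ : Letter, clsV k θ ≠ Cls.X e := by
    intro e θ
    unfold clsV
    split_ifs <;> simp
  have hlen : (l ++ [LA, LC]).length - 2 = l.length := by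
    rw [List.length_append]; simp
  have hec : ∀ c, ec c (l ++ [LA, LC]) =
      (∑ i ∈ range l.length, if clsC (u i) (u (i + 1)) = c then 1 else 0) +
      (∑ i ∈ range l.length, if clsC (u i) (u (i + 2)) = c then 1 else 0) := by
    intro c
    rw [wd2_ec_sum, hlen, ← Finset.sum_add_distrib]
    refine Finset.sum_congr rfl fun i hi => ?_
    rw [Finset.mem_range] at hi
    rw [hu i (by omega), hu (i + 1) (by omega), hu (i + 2) (by omega)]
  have hcount : ∀ (p : Letter → Prop) [DecidablePred p],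
      (∑ i ∈ range l.length, if p (u i) then 1 else 0) = l.countP (fun θ => decide (p θ)) := by
    intro p _
    have h1 : ∀ i ∈ range l.length, (if p (u i) then 1 else 0) =
        if p (l.getD i LA) then 1 else 0 := by
      intro i hi
      rw [Finset.mem_range] at hi
      rw [hu i (by omega), List.getD_append _ _ _ _ hi]
    rw [Finset.sum_congr rfl h1]
    clear h1 hu hbc hV hvP hvX hlen hec
    induction l with
    | nil => rfl
    | cons x l ih =>
      rw [List.length_cons, Finset.sum_range_succ', List.countP_cons]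
      simp only [List.getD_cons_succ, List.getD_cons_zero]
      rw [ih]
      simp
  rcases c with ⟨i, e⟩ | ⟨i, e⟩ | e
  · rw [hbc]
    have h1 : (∑ j ∈ range l.length, if clsC (u j) (u (j + 1)) = Cls.V i e then 1 else 0) = 0 :=
      Finset.sum_eq_zero fun j _ => if_neg (hV i e _ _)
    have h2 : (∑ j ∈ range l.length, if clsC (u j) (u (j + 2)) = Cls.V i e then 1 else 0) = 0 :=
      Finset.sum_eq_zero fun j _ => if_neg (hV i e _ _)
    rw [h1, h2, add_zero, add_zero, hcount (fun θ => clsV k θ = Cls.V i e)]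
    show _ = if k.bodd then (if e then 0 else l.count (i, false) + l.count (i, true))
          else l.count (i, e)
    by_cases hk : k.bodd = true
    · rw [if_pos hk]
      have h3 : ∀ θ : Letter, (clsV k θ = Cls.V i e) ↔ (θ.1 = i ∧ false = e) := by
        intro θ
        unfold clsV
        rw [if_pos hk, Cls.V.injEq]
      simp only [h3]
      cases e
      · simp only [and_true]
        rw [if_neg (by simp)]
        exact wd2_aux l i
      · simp
    · rw [if_neg hk]
      have h3 : ∀ θ : Letter, (clsV k θ = Cls.V i e) ↔ θ = (i, e) := by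
        intro θ
        unfold clsV
        rw [if_neg hk, Cls.V.injEq, Prod.ext_iff]
      simp only [h3]
      rw [List.count]
      congr 1
      funext θ
      rw [Bool.eq_iff_iff, decide_eq_true_iff, beq_iff_eq]
  · rw [hbc]
    have h1 : (∑ j ∈ range l.length, if clsV k (u j) = Cls.P i e then 1 else 0) = 0 :=
      Finset.sum_eq_zero fun j _ => if_neg (hvP i e _)
    rw [h1, zero_add]
    exact (hec _).symm
  · rw [hbc]
    have h1 : (∑ j ∈ range l.length, if clsV k (u j) = Cls.X e then 1 else 0) = 0 :=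
      Finset.sum_eq_zero fun j _ => if_neg (hvX e _)
    rw [h1, zero_add]
    exact (hec _).symm

private theorem wd2_bal_tgt (k : ℕ) (l : List Letter) (hB : Bal l) (u : ℕ → Letter)
    (hu : ∀ i, i < l.length + 2 → u i = (l ++ [LA, LC]).getD i LA) (c : Cls) :
    bcnt k u l.length c = tgt k l.length c := by
  rw [bcnt_list k l u hu c]
  rcases c with ⟨i, e⟩ | ⟨i, e⟩ | e
  · show (if k.bodd then (if e then 0 else l.count (i, false) + l.count (i, true))
          else l.count (i, e)) = if k.bodd then (if e then 0 else l.length / 2) else l.length / 4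
    have h1 := hB.let_ (i, false)
    have h2 := hB.let_ (i, true)
    have h3 := hB.let_ (i, e)
    split_ifs <;> omega
  · show ec (Cls.P i e) (l ++ [LA, LC]) = l.length / 4
    have h1 := hB.pur i e
    omega
  · show ec (Cls.X e) (l ++ [LA, LC]) = l.length / 2
    have h1 := hB.crs e
    omega

private theorem wd2_ends (l : List Letter) (h : ∃ t, l = LA :: LC :: t) (u : ℕ → Letter)
    (hu : ∀ i, i < l.length + 2 → u i = (l ++ [LA, LC]).getD i LA) :
    u 0 = LA ∧ u 1 = LC ∧ u l.length = LA ∧ u (l.length + 1) = LC := by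
  refine ⟨?_, ?_, ?_, ?_⟩
  · rw [hu 0 (by omega)]
    obtain ⟨t, rfl⟩ := h
    rfl
  · rw [hu 1 (by omega)]
    obtain ⟨t, rfl⟩ := h
    rfl
  · rw [hu l.length (by omega), List.getD_append_right _ _ _ _ (le_refl _), Nat.sub_self]
    rfl
  · rw [hu (l.length + 1) (by omega), List.getD_append_right _ _ _ _ (by omega),
      Nat.add_sub_cancel_left]
    rfl

private theorem wd2_v92_length : v92.length = 92 := rfl

private theorem wd2_pow_length (q : ℕ) : (List.replicate q v92).flatten.length = 92 * q := by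
  rw [List.length_flatten, List.map_replicate, List.sum_replicate, wd2_v92_length, smul_eq_mul,
    mul_comm]

private theorem wd2_wslot (q : ℕ) : ∀ i, i < 92 * q + 2 →
    wslot i = ((List.replicate q v92).flatten ++ [LA, LC]).getD i LA := by
  induction q with
  | zero =>
    intro i hi
    have h : i = 0 ∨ i = 1 := by omega
    rcases h with rfl | rfl <;> rfl
  | succ q ih =>
    intro i hi
    rw [List.replicate_succ, List.flatten_cons, List.append_assoc]
    by_cases h : i < 92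
    · rw [List.getD_append _ _ _ _ (by rw [wd2_v92_length]; exact h)]
      unfold wslot
      rw [Nat.mod_eq_of_lt h]
    · rw [List.getD_append_right _ _ _ _ (by rw [wd2_v92_length]; omega), wd2_v92_length,
        ← ih (i - 92) (by omega)]
      unfold wslot
      congr 1
      omega

theorem slot_word (q : ℕ) (hq : 1 ≤ q) :
    wslot 0 = LA ∧ wslot 1 = LC ∧ wslot (92 * q) = LA ∧ wslot (92 * q + 1) = LC ∧
    HasWins wslot (92 * q) ∧ ∀ k c, bcnt k wslot (92 * q) c = tgt k (92 * q) c := by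
  have hB := bal_v92_pow q hq
  have hu : ∀ i, i < (List.replicate q v92).flatten.length + 2 →
      wslot i = ((List.replicate q v92).flatten ++ [LA, LC]).getD i LA := by
    rw [wd2_pow_length]; exact wd2_wslot q
  obtain ⟨h0, h1, h2, h3⟩ := wd2_ends _ hB.start wslot hu
  have h4 : ∀ k c, bcnt k wslot (92 * q) c = tgt k (92 * q) c := by
    intro k c
    have h := wd2_bal_tgt k _ hB wslot hu c
    rw [wd2_pow_length] at h
    exact h
  rw [wd2_pow_length] at h2 h3
  refine ⟨h0, h1, h2, h3, ?_, h4⟩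
  have hw : 92 ≤ 92 * q := by omega
  exact {
    AA := ⟨33, by omega, by omega, rfl, rfl, rfl, rfl, rfl⟩
    AB := ⟨35, by omega, by omega, rfl, rfl, rfl, rfl, rfl⟩
    AC := ⟨39, by omega, by omega, rfl, rfl, rfl, rfl, rfl⟩
    AD := ⟨43, by omega, by omega, rfl, rfl, rfl, rfl, rfl⟩
    BB := ⟨75, by omega, by omega, rfl, rfl, rfl, rfl, rfl⟩
    CC := ⟨13, by omega, by omega, rfl, rfl, rfl, rfl, rfl⟩
    CD := ⟨15, by omega, by omega, rfl, rfl, rfl, rfl, rfl⟩
    DD := ⟨57, by omega, by omega, rfl, rfl, rfl, rfl, rfl⟩ }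

theorem extra_word_odd (R : ℕ) (hR : 24 ≤ R) (h4 : R % 4 = 0) : ∃ u : ℕ → Letter,
    u 0 = LA ∧ u 1 = LC ∧ u R = LA ∧ u (R + 1) = LC ∧ ∀ k c, bcnt k u R c = tgt k R c := by
  obtain ⟨l, hB, hl⟩ := exists_bal R hR h4
  have hu : ∀ i, i < l.length + 2 →
      (fun i => (l ++ [LA, LC]).getD i LA) i = (l ++ [LA, LC]).getD i LA := fun i _ => rfl
  obtain ⟨h0, h1, h2, h3⟩ := wd2_ends l hB.start _ hu
  refine ⟨fun i => (l ++ [LA, LC]).getD i LA, h0, h1, ?_, ?_, ?_⟩
  · rw [← hl]; exact h2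
  · rw [← hl]; exact h3
  · intro k c
    rw [← hl]
    exact wd2_bal_tgt k l hB _ hu c

theorem extra_word_even (R : ℕ) (hR : 34 ≤ R) (h4 : R % 4 = 2) : ∃ u : ℕ → Letter,
    u 0 = LA ∧ u 1 = LC ∧ u R = LA ∧ u (R + 1) = LC ∧
    ∀ k c, k.bodd = false → bcnt k u R c = tgt' R c := by
  obtain ⟨l', hB, hl'⟩ := exists_bal (R - 10) (by omega) (by omega)
  obtain ⟨hi1, hi2, hi3, hi4⟩ := i10_counts
  obtain ⟨l, hldef⟩ : ∃ l, l = i10 ++ l' := ⟨_, rfl⟩
  have hl : l.length = R := by rw [hldef, List.length_append, hi1, hl']; omega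
  have hu : ∀ i, i < l.length + 2 →
      (fun i => (l ++ [LA, LC]).getD i LA) i = (l ++ [LA, LC]).getD i LA := fun i _ => rfl
  have hstart : ∃ t, l = LA :: LC :: t := by
    rw [hldef]
    exact ⟨_, rfl⟩
  have hstart' : ∃ t, l' ++ [LA, LC] = LA :: LC :: t := by
    obtain ⟨t, ht⟩ := hB.start
    rw [ht]
    exact ⟨_, rfl⟩
  obtain ⟨h0, h1, h2, h3⟩ := wd2_ends l hstart _ hu
  refine ⟨fun i => (l ++ [LA, LC]).getD i LA, h0, h1, ?_, ?_, ?_⟩
  · rw [← hl]; exact h2
  · rw [← hl]; exact h3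
  · intro k c hk
    have hb := bcnt_list k l _ hu c
    rw [hl] at hb
    rw [hb]
    have hec : ∀ c, ec c (l ++ [LA, LC]) = ec c (i10 ++ [LA, LC]) + ec c (l' ++ [LA, LC]) := by
      intro c
      rw [hldef, List.append_assoc, ec_append c _ _ hstart']
    rcases c with ⟨i, e⟩ | ⟨i, e⟩ | e
    · show (if k.bodd then (if e then 0 else l.count (i, false) + l.count (i, true))
          else l.count (i, e)) = if e then (R + 2) / 4 else (R - 2) / 4
      rw [hk, if_neg (by simp), hldef, List.count_append, hi2 (i, e)]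
      have h5 := hB.let_ (i, e)
      rw [hl'] at h5
      show (if e then 3 else 2) + _ = _
      split_ifs <;> omega
    · show ec (Cls.P i e) (l ++ [LA, LC]) = if e then (R + 2) / 4 else (R - 2) / 4
      rw [hec, hi3]
      have h5 := hB.pur i e
      rw [hl'] at h5
      split_ifs <;> omega
    · show ec (Cls.X e) (l ++ [LA, LC]) = if e then R / 2 + 1 else R / 2 - 1
      rw [hec, hi4]
      have h5 := hB.crs e
      rw [hl'] at h5
      split_ifs <;> omega

end SqCyc
end

section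

/-! # GL gluing the segments -/

open Finset

namespace SqCyc

private lemma gl_vA {k s : ℕ} (h : 2 * s < k) : vtx (PA k s) = El.v false (2 * s) := by
  unfold vtx PA
  simp only
  rw [ZMod.val_cast_of_lt (by omega), Nat.mod_eq_of_lt h]

private lemma gl_vC {k s : ℕ} (h : 4 * s < k) : vtx (PC k s) = El.v true (4 * s) := by
  unfold vtx PC
  simp only
  rw [ZMod.val_cast_of_lt (by omega), Nat.mod_eq_of_lt h]

private lemma gl_col {k s : ℕ} (h : 2 * s < k) : col (PA k s) (PC k s) = El.x (2 * s) := by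
  unfold col PA PC
  simp only [Bool.false_eq_true, if_false]
  have : (((4 * s : ℕ) : ZMod (2 * k)) - ((2 * s : ℕ) : ZMod (2 * k))) =
      ((2 * s : ℕ) : ZMod (2 * k)) := by
    push_cast; ring
  rw [this, ZMod.val_cast_of_lt (by omega)]

private lemma gl_colk {k s : ℕ} (h : 2 * s < k) :
    col (PA k s) ((PC k s).1, (PC k s).2 + (k : ZMod (2 * k))) = El.x (2 * s + k) := by
  unfold col PA PC
  simp only [Bool.false_eq_true, if_false]
  have : (((4 * s : ℕ) : ZMod (2 * k)) + (k : ZMod (2 * k)) - ((2 * s : ℕ) : ZMod (2 * k))) =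
      ((2 * s + k : ℕ) : ZMod (2 * k)) := by
    push_cast; ring
  rw [this, ZMod.val_cast_of_lt (by omega)]

private lemma gl_pA {k M s : ℕ} (hs : s ≤ M) (h : 2 * s < k) : El.v false (2 * s) ∈ Ports k M := by
  unfold Ports
  simp only [mem_union, mem_image, mem_range, mem_singleton]
  left; left; left
  exact ⟨s, by omega, gl_vA h⟩

private lemma gl_pC {k M s : ℕ} (hs : s ≤ M) (h : 4 * s < k) : El.v true (4 * s) ∈ Ports k M := by
  unfold Ports
  simp only [mem_union, mem_image, mem_range, mem_singleton]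
  left; left; right
  exact ⟨s, by omega, gl_vC h⟩

private lemma gl_px {k M s : ℕ} (hs : s ≤ M) : El.x (2 * s) ∈ Ports k M := by
  unfold Ports
  simp only [mem_union, mem_image, mem_range, mem_singleton]
  left; right
  exact ⟨s, by omega, rfl⟩

private lemma gl_pk {k M : ℕ} : El.x (2 * M + k) ∈ Ports k M := by
  unfold Ports
  simp only [mem_union, mem_singleton]
  right; trivial

private lemma gl_idx {n t j : ℕ} : (t, j) ∈ idx n ↔
    (t < 3 ∧ j < n) ∧ ¬ ((t = 0 ∧ j = 0) ∨ (t = 0 ∧ j = 1) ∨ (t = 1 ∧ j = 0)) := by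
  unfold idx
  simp only [mem_sdiff, mem_product, mem_range, mem_insert, mem_singleton, Prod.mk.injEq]

theorem glue (k : ℕ) [NeZero k] (m ℓ R : ℕ) (hm1 : 1 ≤ m) (hlen : m * ℓ + R + 2 = 2 * k)
    (hm : 4 * (m + 1) < k) (hℓ : 10 ≤ ℓ) (hR : 10 ≤ R) (w u : ℕ → Letter)
    (yE : ℕ → Pt k) (hE : Seg k u R (PA k m) (PC k m) (PA k (m + 1)) (PC k (m + 1)) yE)
    (hEinj : Set.InjOn (el yE) (idx R)) (hEU : (idx R).image (el yE) ⊆ U k)
    (hEP : Disjoint ((idx R).image (el yE)) (Ports k (m + 1)))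
    (hcov : CovT (Fill k w ℓ (U k \ (Ports k (m + 1) ∪ (idx R).image (el yE)))) (range m)
      (U k \ (Ports k (m + 1) ∪ (idx R).image (el yE)))) :
    ∃ y : ℕ → Pt k, HalfBlock k y := by
  classical
  obtain ⟨f, hf, hdisj, -⟩ := hcov
  have hf' : ∀ s, ∃ y : ℕ → Pt k, s < m →
      (Seg k w ℓ (PA k s) (PC k s) (PA k (s + 1)) (PC k (s + 1)) y ∧
      Set.InjOn (el y) (idx ℓ) ∧ (idx ℓ).image (el y) = f s ∧
      f s ⊆ (U k \ (Ports k (m + 1) ∪ (idx R).image (el yE)))) := by
    intro s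
    by_cases hs : s < m
    · obtain ⟨y, h1, h2, h3, h4⟩ := hf s (mem_range.mpr hs)
      exact ⟨y, fun _ => ⟨h1, h2, h3, h4⟩⟩
    · exact ⟨fun _ => (false, 0), fun h => absurd h hs⟩
  choose Y hY using hf'
  set y : ℕ → Pt k := fun i => if i < m * ℓ then Y (i / ℓ) (i % ℓ) else yE (i - m * ℓ) with hy
  have hℓ0 : 0 < ℓ := by omega
  have hlt : ∀ s j, s < m → j < ℓ → s * ℓ + j < m * ℓ := by
    intro s j hs hj
    calc s * ℓ + j < s * ℓ + ℓ := by omega
      _ = (s + 1) * ℓ := by ring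
      _ ≤ m * ℓ := Nat.mul_le_mul_right _ hs
  have hdiv : ∀ s j, j < ℓ → (s * ℓ + j) / ℓ = s := by
    intro s j hj
    rw [Nat.add_comm, Nat.add_mul_div_right _ _ hℓ0, Nat.div_eq_of_lt hj, Nat.zero_add]
  have hmod : ∀ s j, j < ℓ → (s * ℓ + j) % ℓ = j := by
    intro s j hj
    rw [Nat.add_comm, Nat.add_mul_mod_self_right, Nat.mod_eq_of_lt hj]
  have K0 : ∀ s j, s < m → j < ℓ → y (s * ℓ + j) = Y s j := by
    intro s j hs hj
    rw [hy]; simp only
    rw [if_pos (hlt s j hs hj), hdiv s j hj, hmod s j hj]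
  have K2 : ∀ j, y (m * ℓ + j) = yE j := by
    intro j
    rw [hy]; simp only
    rw [if_neg (by omega), Nat.add_sub_cancel_left]
  have K1 : ∀ s j, s < m → j ≤ ℓ + 1 → y (s * ℓ + j) = Y s j := by
    intro s j hs hj
    by_cases h1 : j < ℓ
    · exact K0 s j hs h1
    · obtain ⟨hseg, -⟩ := hY s hs
      have h2 : j = ℓ ∨ j = ℓ + 1 := by omega
      by_cases h3 : s + 1 < m
      · obtain ⟨hseg', -⟩ := hY (s + 1) h3
        rcases h2 with h2 | h2
        · rw [h2, hseg.hn, ← hseg'.h0, ← K0 (s + 1) 0 h3 hℓ0]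
          congr 1; ring
        · rw [h2, hseg.hn1, ← hseg'.h1, ← K0 (s + 1) 1 h3 (by omega)]
          congr 1; ring
      · have h4 : s + 1 = m := by omega
        rcases h2 with h2 | h2
        · rw [h2, hseg.hn, h4, ← hE.h0, ← K2 0]
          congr 1; rw [← h4]; ring
        · rw [h2, hseg.hn1, h4, ← hE.h1, ← K2 1]
          congr 1; rw [← h4]; ring
  -- elements of the glued sequence
  have E1 : ∀ s t j, s < m → t < 3 → j < ℓ → j + t ≤ ℓ + 1 →
      el y (t, s * ℓ + j) = el (Y s) (t, j) := by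
    intro s t j hs ht hj hjt
    unfold el
    simp only
    rw [K1 s j hs (by omega), show s * ℓ + j + t = s * ℓ + (j + t) by ring, K1 s (j + t) hs hjt]
  have E2 : ∀ t j, el y (t, m * ℓ + j) = el yE (t, j) := by
    intro t j
    unfold el
    simp only
    rw [K2 j, show m * ℓ + j + t = m * ℓ + (j + t) by ring, K2 (j + t)]
  set o : ℕ → ℕ := fun s => if s ≤ m then s * ℓ else m * ℓ + R with ho
  have hos : ∀ s, s ≤ m → o s = s * ℓ := by
    intro s hs; rw [ho]; simp only; rw [if_pos hs]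
  have hom : o (m + 1) = m * ℓ + R := by
    rw [ho]; simp only; rw [if_neg (by omega)]
  have yo : ∀ s, s ≤ m + 1 → y (o s) = PA k s ∧ y (o s + 1) = PC k s := by
    intro s hs
    by_cases h1 : s < m
    · obtain ⟨hseg, -⟩ := hY s h1
      rw [hos s (by omega)]
      constructor
      · have := K0 s 0 h1 hℓ0
        rw [Nat.add_zero] at this
        rw [this, hseg.h0]
      · rw [K0 s 1 h1 (by omega), hseg.h1]
    · by_cases h2 : s = m
      · rw [h2, hos m le_rfl]
        constructor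
        · have := K2 0
          rw [Nat.add_zero] at this
          rw [this, hE.h0]
        · rw [K2 1, hE.h1]
      · have h3 : s = m + 1 := by omega
        rw [h3, hom]
        constructor
        · rw [K2 R, hE.hn]
        · rw [show m * ℓ + R + 1 = m * ℓ + (R + 1) by ring, K2 (R + 1), hE.hn1]
  have oe0 : ∀ s, s ≤ m + 1 → el y (0, o s) = El.v false (2 * s) := by
    intro s hs
    unfold el
    simp only [if_true]
    rw [(yo s hs).1, gl_vA (by omega)]
  have oe1 : ∀ s, s ≤ m + 1 → el y (0, o s + 1) = El.v true (4 * s) := by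
    intro s hs
    unfold el
    simp only [if_true]
    rw [(yo s hs).2, gl_vC (by omega)]
  have oe2 : ∀ s, s ≤ m + 1 → el y (1, o s) = El.x (2 * s) := by
    intro s hs
    unfold el
    simp only [one_ne_zero, if_false]
    rw [(yo s hs).1, (yo s hs).2, gl_col (by omega)]
  -- classification
  have cl : ∀ t i, t < 3 → i + t < 2 * k →
      (∃ s j, s < m ∧ (t, j) ∈ idx ℓ ∧ i = s * ℓ + j ∧ el y (t, i) = el (Y s) (t, j)) ∨
      (∃ j, (t, j) ∈ idx R ∧ i = m * ℓ + j ∧ el y (t, i) = el yE (t, j)) ∨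
      (∃ s, s ≤ m + 1 ∧ ((t = 0 ∧ i = o s ∧ el y (t, i) = El.v false (2 * s)) ∨
        (t = 0 ∧ i = o s + 1 ∧ el y (t, i) = El.v true (4 * s)) ∨
        (t = 1 ∧ i = o s ∧ el y (t, i) = El.x (2 * s)))) := by
    intro t i ht hit
    have port : ∀ s, s ≤ m + 1 → ((t = 0 ∧ i = o s) ∨ (t = 0 ∧ i = o s + 1) ∨
        (t = 1 ∧ i = o s)) → ∃ s, s ≤ m + 1 ∧
        ((t = 0 ∧ i = o s ∧ el y (t, i) = El.v false (2 * s)) ∨
        (t = 0 ∧ i = o s + 1 ∧ el y (t, i) = El.v true (4 * s)) ∨
        (t = 1 ∧ i = o s ∧ el y (t, i) = El.x (2 * s))) := by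
      intro s hs h
      refine ⟨s, hs, ?_⟩
      rcases h with ⟨h1, h2⟩ | ⟨h1, h2⟩ | ⟨h1, h2⟩
      · left; refine ⟨h1, h2, ?_⟩; rw [h1, h2]; exact oe0 s hs
      · right; left; refine ⟨h1, h2, ?_⟩; rw [h1, h2]; exact oe1 s hs
      · right; right; refine ⟨h1, h2, ?_⟩; rw [h1, h2]; exact oe2 s hs
    by_cases h1 : i < m * ℓ
    · have hs : i / ℓ < m := Nat.div_lt_of_lt_mul (by rw [Nat.mul_comm]; exact h1)
      have hj : i % ℓ < ℓ := Nat.mod_lt _ hℓ0
      have hi : i = (i / ℓ) * ℓ + i % ℓ := by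
        have := Nat.div_add_mod i ℓ
        rw [Nat.mul_comm] at this
        exact this.symm
      by_cases h2 : (t, i % ℓ) ∈ idx ℓ
      · left
        refine ⟨i / ℓ, i % ℓ, hs, h2, hi, ?_⟩
        have := E1 (i / ℓ) t (i % ℓ) hs ht hj (by omega)
        rw [← hi] at this
        exact this
      · right; right
        rw [gl_idx] at h2
        have h3 : (t = 0 ∧ i % ℓ = 0) ∨ (t = 0 ∧ i % ℓ = 1) ∨ (t = 1 ∧ i % ℓ = 0) := by
          by_contra h4
          exact h2 ⟨⟨ht, hj⟩, h4⟩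
        apply port (i / ℓ) (by omega)
        rw [hos _ hs.le]
        generalize i / ℓ * ℓ = a at hi ⊢
        generalize i % ℓ = b at hi h3
        omega
    · obtain ⟨j, hj⟩ : ∃ j, i = m * ℓ + j := ⟨i - m * ℓ, by omega⟩
      by_cases h2 : (t, j) ∈ idx R
      · right; left
        exact ⟨j, h2, hj, by rw [hj]; exact E2 t j⟩
      · right; right
        rw [gl_idx] at h2
        by_cases h3 : j < R
        · have h4 : (t = 0 ∧ j = 0) ∨ (t = 0 ∧ j = 1) ∨ (t = 1 ∧ j = 0) := by
            by_contra h4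
            exact h2 ⟨⟨ht, h3⟩, h4⟩
          apply port m (by omega)
          rw [hos m le_rfl]
          omega
        · apply port (m + 1) le_rfl
          rw [hom]
          omega
  -- disjointness facts
  have X1 : ∀ s t j, s < m → (t, j) ∈ idx ℓ → el (Y s) (t, j) ∈ f s := by
    intro s t j hs h
    obtain ⟨-, -, h3, -⟩ := hY s hs
    rw [← h3]
    exact mem_image_of_mem _ h
  have X2 : ∀ s e, s < m → e ∈ f s → e ∉ Ports k (m + 1) ∧ e ∉ (idx R).image (el yE) := by
    intro s e hs h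
    obtain ⟨-, -, -, h4⟩ := hY s hs
    have := h4 h
    rw [mem_sdiff, mem_union, not_or] at this
    exact this.2
  have X3 : ∀ t j, (t, j) ∈ idx R → el yE (t, j) ∈ (idx R).image (el yE) := by
    intro t j h
    exact mem_image_of_mem _ h
  have X4 : ∀ e, e ∈ (idx R).image (el yE) → e ∉ Ports k (m + 1) := by
    intro e h
    exact Finset.disjoint_left.mp hEP h
  have P0 : ∀ s, s ≤ m + 1 → El.v false (2 * s) ∈ Ports k (m + 1) :=
    fun s hs => gl_pA hs (by omega)
  have P1 : ∀ s, s ≤ m + 1 → El.v true (4 * s) ∈ Ports k (m + 1) :=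
    fun s hs => gl_pC hs (by omega)
  have P2 : ∀ s, s ≤ m + 1 → El.x (2 * s) ∈ Ports k (m + 1) :=
    fun s hs => gl_px hs
  -- port elements belong to Ports
  have cl' : ∀ t i, t < 3 → i + t < 2 * k →
      (∃ s j, s < m ∧ (t, j) ∈ idx ℓ ∧ i = s * ℓ + j ∧ el y (t, i) = el (Y s) (t, j) ∧
        el y (t, i) ∈ f s ∧ el y (t, i) ∉ Ports k (m + 1) ∧
        el y (t, i) ∉ (idx R).image (el yE)) ∨
      (∃ j, (t, j) ∈ idx R ∧ i = m * ℓ + j ∧ el y (t, i) = el yE (t, j) ∧
        el y (t, i) ∈ (idx R).image (el yE) ∧ el y (t, i) ∉ Ports k (m + 1)) ∨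
      (el y (t, i) ∈ Ports k (m + 1) ∧
      ∃ s, s ≤ m + 1 ∧ ((t = 0 ∧ i = o s ∧ el y (t, i) = El.v false (2 * s)) ∨
        (t = 0 ∧ i = o s + 1 ∧ el y (t, i) = El.v true (4 * s)) ∨
        (t = 1 ∧ i = o s ∧ el y (t, i) = El.x (2 * s)))) := by
    intro t i ht hit
    rcases cl t i ht hit with ⟨s, j, h1, h2, h3, h4⟩ | ⟨j, h1, h2, h3⟩ | ⟨s, h1, h2⟩
    · left
      have h5 : el y (t, i) ∈ f s := by rw [h4]; exact X1 s t j h1 h2
      exact ⟨s, j, h1, h2, h3, h4, h5, (X2 s _ h1 h5).1, (X2 s _ h1 h5).2⟩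
    · right; left
      have h5 : el y (t, i) ∈ (idx R).image (el yE) := by rw [h3]; exact X3 t j h1
      exact ⟨j, h1, h2, h3, h5, X4 _ h5⟩
    · right; right
      refine ⟨?_, s, h1, h2⟩
      rcases h2 with ⟨-, -, h⟩ | ⟨-, -, h⟩ | ⟨-, -, h⟩
      · rw [h]; exact P0 s h1
      · rw [h]; exact P1 s h1
      · rw [h]; exact P2 s h1
  refine ⟨y, ?_, ?_, ?_, ?_, ?_, ?_⟩
  · rintro ⟨t, i⟩ ⟨ht, hit⟩ ⟨t', i'⟩ ⟨ht', hit'⟩ heq
    simp only at ht hit ht' hit'
    rcases cl' t i ht hit with ⟨s, j, a1, a2, a3, a4, a5, a6, a7⟩ | ⟨j, a1, a2, a3, a4, a5⟩ |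
      ⟨a0, s, a1, a2⟩ <;>
    rcases cl' t' i' ht' hit' with ⟨s', j', b1, b2, b3, b4, b5, b6, b7⟩ |
      ⟨j', b1, b2, b3, b4, b5⟩ | ⟨b0, s', b1, b2⟩
    · by_cases hss : s = s'
      · subst hss
        obtain ⟨-, hinj, -, -⟩ := hY s a1
        have h5 : el (Y s) (t, j) = el (Y s) (t', j') := by rw [← a4, ← b4]; exact heq
        have h6 := hinj a2 b2 h5
        rw [Prod.mk.injEq] at h6 ⊢
        exact ⟨h6.1, by rw [a3, b3, h6.2]⟩
      · exfalso
        rw [heq] at a5
        exact Finset.disjoint_left.mp (hdisj s (mem_range.mpr a1) s' (mem_range.mpr b1) hss) a5 b5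
    · exfalso; rw [heq] at a7; exact a7 b4
    · exfalso; rw [heq] at a6; exact a6 b0
    · exfalso; rw [← heq] at b7; exact b7 a4
    · have h5 : el yE (t, j) = el yE (t', j') := by rw [← a3, ← b3]; exact heq
      have h6 := hEinj a1 b1 h5
      rw [Prod.mk.injEq] at h6 ⊢
      exact ⟨h6.1, by rw [a2, b2, h6.2]⟩
    · exfalso; rw [heq] at a5; exact a5 b0
    · exfalso; rw [← heq] at b6; exact b6 a0
    · exfalso; rw [← heq] at b5; exact b5 a0
    · rw [Prod.mk.injEq]
      rcases a2 with ⟨c1, c2, c3⟩ | ⟨c1, c2, c3⟩ | ⟨c1, c2, c3⟩ <;>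
      rcases b2 with ⟨d1, d2, d3⟩ | ⟨d1, d2, d3⟩ | ⟨d1, d2, d3⟩ <;>
      rw [c3, d3] at heq <;> simp only [El.v.injEq, El.x.injEq, reduceCtorEq, true_and,
        Bool.false_eq_true, Bool.true_eq_false, false_and] at heq
      · have : s = s' := by omega
        subst this
        exact ⟨by omega, by omega⟩
      · have : s = s' := by omega
        subst this
        exact ⟨by omega, by omega⟩
      · have : s = s' := by omega
        subst this
        exact ⟨by omega, by omega⟩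
  · have := (yo 0 (by omega)).1
    rw [hos 0 (by omega), Nat.zero_mul] at this
    rw [this]; rfl
  · have := (yo 0 (by omega)).2
    rw [hos 0 (by omega), Nat.zero_mul, Nat.zero_add] at this
    rw [this]; rfl
  · have := (yo (m + 1) le_rfl).1
    rw [hom, show m * ℓ + R = 2 * k - 2 by omega] at this
    rw [this]; rfl
  · have := (yo (m + 1) le_rfl).2
    rw [hom, show m * ℓ + R + 1 = 2 * k - 1 by omega] at this
    rw [this]; rfl
  · rintro ⟨t, i⟩ ht hit
    simp only at ht hit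
    have q1 := (yo (m + 1) le_rfl).1
    rw [hom, show m * ℓ + R = 2 * k - 2 by omega] at q1
    have q2 := (yo (m + 1) le_rfl).2
    rw [hom, show m * ℓ + R + 1 = 2 * k - 1 by omega] at q2
    rw [q1, q2, gl_colk (by omega)]
    have hk : El.x (2 * (m + 1) + k) ∈ Ports k (m + 1) := gl_pk
    intro h
    rcases cl' t i ht hit with ⟨s, j, a1, a2, a3, a4, a5, a6, a7⟩ | ⟨j, a1, a2, a3, a4, a5⟩ |
      ⟨a0, s, a1, a2⟩
    · rw [h] at a6; exact a6 hk
    · rw [h] at a5; exact a5 hk
    · rcases a2 with ⟨c1, c2, c3⟩ | ⟨c1, c2, c3⟩ | ⟨c1, c2, c3⟩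
      · rw [c3] at h; simp at h
      · rw [c3] at h; simp at h
      · rw [c3] at h
        simp only [El.x.injEq] at h
        omega

end SqCyc
end
end
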