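import Pool.Agent.Lib.SqCyc.Abs1
import Pool.Agent.Lib.SqCyc.Glue

section

section

/-! # MD-5 avoiding finitely many affine conditions -/

open Finset

namespace SqCyc

variable {k : ℕ} [NeZero k]

/-- union bound -/
theorem exists_avoid {ι : Type} (θ : Letter) (J : Finset ι) (bad : ι → Pt k → Prop)
    [∀ j, DecidablePred (bad j)] (c : ι → ℕ)
    (hc : ∀ j ∈ J, ((Lset k θ).filter (bad j)).card ≤ c j) (hlt : ∑ j ∈ J, c j < k) :
    ∃ z ∈ Lset k θ, ∀ j ∈ J, ¬ bad j z := by
  by_contra hcon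
  push Not at hcon
  have hsub : Lset k θ ⊆ J.biUnion (fun j => (Lset k θ).filter (bad j)) := by
    intro z hz
    obtain ⟨j, hj, hb⟩ := hcon z hz
    exact mem_biUnion.2 ⟨j, hj, mem_filter.2 ⟨hz, hb⟩⟩
  have h1 := (card_le_card hsub).trans card_biUnion_le
  have h2 : ∑ j ∈ J, ((Lset k θ).filter (bad j)).card ≤ ∑ j ∈ J, c j := sum_le_sum hc
  rw [card_Lset] at h1
  omega

theorem mod5_card_nat {n : ℕ} [NeZero n] (m : ℕ) (b : ZMod n) :
    (univ.filter (fun y : ZMod n => (m : ZMod n) * y = b)).card ≤ m ∨ m = 0 := by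
  rcases Nat.eq_zero_or_pos m with h0 | hm
  · exact Or.inr h0
  left
  have hn : 0 < n := Nat.pos_of_ne_zero (NeZero.ne n)
  have h := card_le_card_of_injOn (s := univ.filter (fun y : ZMod n => (m : ZMod n) * y = b))
    (t := range m) (fun y => (m * y.val) / n) ?_ ?_
  · rwa [card_range] at h
  · intro y _
    simp only [coe_range, Set.mem_Iio]
    rw [Nat.div_lt_iff_lt_mul hn]
    exact Nat.mul_lt_mul_of_pos_left (ZMod.val_lt y) hm
  · intro y hy y' hy' e
    simp only [coe_filter, mem_univ, true_and, Set.mem_ofPred_eq] at hy hy'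
    have hmod : ∀ z : ZMod n, (m : ZMod n) * z = b → (m * z.val) % n = b.val := by
      intro z hz
      have : ((m * z.val : ℕ) : ZMod n) = b := by
        rw [Nat.cast_mul, ZMod.natCast_zmod_val, hz]
      rw [← this, ZMod.val_natCast]
    have e1 := Nat.div_add_mod (m * y.val) n
    have e2 := Nat.div_add_mod (m * y'.val) n
    simp only at e
    rw [hmod y hy] at e1
    rw [hmod y' hy', ← e] at e2
    have e3 : m * y.val = m * y'.val := by rw [← e1, ← e2]
    exact ZMod.val_injective n (Nat.eq_of_mul_eq_mul_left hm e3)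

theorem mod5_filter_le (θ : Letter) (S : Finset (ZMod (2 * k))) :
    ((Lset k θ).filter (fun z => z.2 ∈ S)).card ≤ S.card := by
  refine card_le_card_of_injOn (fun z => z.2) (fun z hz => ?_) ?_
  · exact (mem_filter.1 hz).2
  · intro z hz z' hz' e
    have h1 := (mem_filter.1 (mem_filter.1 hz).1).2.1
    have h2 := (mem_filter.1 (mem_filter.1 hz').1).2.1
    exact Prod.ext (h1.trans h2.symm) e

theorem card_lin (θ : Letter) (c : ℤ) (hc : c ≠ 0) (b : ZMod (2 * k)) :
    ((Lset k θ).filter (fun z => (c : ZMod (2 * k)) * z.2 = b)).card ≤ c.natAbs := by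
  have hk : NeZero (2 * k) := ⟨by have := NeZero.ne k; omega⟩
  have key : ∀ b' : ZMod (2 * k),
      (univ.filter (fun y : ZMod (2 * k) => ((c.natAbs : ℕ) : ZMod (2 * k)) * y = b')).card
        ≤ c.natAbs := by
    intro b'
    rcases mod5_card_nat (n := 2 * k) c.natAbs b' with h | h
    · exact h
    · exact absurd (Int.natAbs_eq_zero.1 h) hc
  rcases Int.natAbs_eq c with h | h
  · have e : ((Lset k θ).filter (fun z => (c : ZMod (2 * k)) * z.2 = b)) ⊆
        (Lset k θ).filter (fun z => z.2 ∈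
          univ.filter (fun y : ZMod (2 * k) => ((c.natAbs : ℕ) : ZMod (2 * k)) * y = b)) := by
      intro z hz
      rw [mem_filter] at hz ⊢
      refine ⟨hz.1, mem_filter.2 ⟨mem_univ _, ?_⟩⟩
      rw [← hz.2]
      conv_rhs => rw [h]
      rw [Int.cast_natCast]
    exact (card_le_card e).trans ((mod5_filter_le θ _).trans (key b))
  · have e : ((Lset k θ).filter (fun z => (c : ZMod (2 * k)) * z.2 = b)) ⊆
        (Lset k θ).filter (fun z => z.2 ∈
          univ.filter (fun y : ZMod (2 * k) => ((c.natAbs : ℕ) : ZMod (2 * k)) * y = -b)) := by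
      intro z hz
      rw [mem_filter] at hz ⊢
      refine ⟨hz.1, mem_filter.2 ⟨mem_univ _, ?_⟩⟩
      rw [← hz.2]
      conv_rhs => rw [h]
      rw [Int.cast_neg, Int.cast_natCast]
      ring
    exact (card_le_card e).trans ((mod5_filter_le θ _).trans (key (-b)))

theorem card_lin_mem (θ : Letter) (c : ℤ) (hc : c ≠ 0) (b : ZMod (2 * k))
    (B : Finset (ZMod (2 * k))) :
    ((Lset k θ).filter (fun z => (c : ZMod (2 * k)) * z.2 + b ∈ B)).card
      ≤ c.natAbs * B.card := by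
  have hsub : (Lset k θ).filter (fun z => (c : ZMod (2 * k)) * z.2 + b ∈ B) ⊆
      B.biUnion (fun b' => (Lset k θ).filter (fun z => (c : ZMod (2 * k)) * z.2 = b' - b)) := by
    intro z hz
    rw [mem_filter] at hz
    refine mem_biUnion.2 ⟨_, hz.2, mem_filter.2 ⟨hz.1, ?_⟩⟩
    ring
  refine (card_le_card hsub).trans (card_biUnion_le.trans ?_)
  calc ∑ b' ∈ B, ((Lset k θ).filter (fun z => (c : ZMod (2 * k)) * z.2 = b' - b)).card
      ≤ ∑ _b' ∈ B, c.natAbs := sum_le_sum fun b' _ => card_lin θ c hc _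
    _ = c.natAbs * B.card := by rw [sum_const, smul_eq_mul, mul_comm]

/-- affine preimages of a finite set of elements under a map with small fibres -/
theorem mod5_aff (θ : Letter) (c : ℤ) (hc : c ≠ 0) (b : ZMod (2 * k)) (F : Finset El)
    (g : ZMod (2 * k) → El) (n : ℕ)
    (hg : ∀ u, ∃ T : Finset (ZMod (2 * k)), T.card ≤ n ∧ ∀ u', g u' = g u → u' ∈ T) :
    ((Lset k θ).filter (fun z => g ((c : ZMod (2 * k)) * z.2 + b) ∈ F)).card
      ≤ n * c.natAbs * F.card := by
  have hk : NeZero (2 * k) := ⟨by have := NeZero.ne k; omega⟩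
  set B : Finset (ZMod (2 * k)) := univ.filter (fun u => g u ∈ F) with hB
  have hBc : B.card ≤ n * F.card := by
    apply card_le_mul_card_image_of_maps_to (f := g) (t := F)
    · intro u hu; exact (mem_filter.1 hu).2
    · intro e _
      rcases (B.filter (fun u => g u = e)).eq_empty_or_nonempty with h | ⟨u, hu⟩
      · rw [h]; simp
      · obtain ⟨T, hT, hTu⟩ := hg u
        refine (card_le_card fun u' hu' => ?_).trans hT
        apply hTu
        rw [(mem_filter.1 hu').2, (mem_filter.1 hu).2]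
  have e : (Lset k θ).filter (fun z => g ((c : ZMod (2 * k)) * z.2 + b) ∈ F) =
      (Lset k θ).filter (fun z => (c : ZMod (2 * k)) * z.2 + b ∈ B) := by
    apply filter_congr
    intro z _
    rw [hB, mem_filter]
    simp
  rw [e]
  calc _ ≤ c.natAbs * B.card := card_lin_mem θ c hc b B
    _ ≤ c.natAbs * (n * F.card) := Nat.mul_le_mul_left _ hBc
    _ = n * c.natAbs * F.card := by ring

theorem card_vtx_aff (θ : Letter) (i : Bool) (c : ℤ) (hc : c ≠ 0) (b : ZMod (2 * k))
    (F : Finset El) :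
    ((Lset k θ).filter (fun z => vtx ((i, (c : ZMod (2 * k)) * z.2 + b) : Pt k) ∈ F)).card
      ≤ 2 * c.natAbs * F.card := by
  refine mod5_aff θ c hc b F (fun u => vtx ((i, u) : Pt k)) 2 fun u => ?_
  refine ⟨{u, u + (k : ZMod (2 * k))}, card_le_two, fun u' h => ?_⟩
  rcases ((vtx_eq_iff _ _).1 h).2 with h' | h'
  · exact mem_insert.2 (Or.inl h')
  · exact mem_insert_of_mem (mem_singleton.2 h')

theorem card_p_aff (θ : Letter) (i : Bool) (c : ℤ) (hc : c ≠ 0) (b : ZMod (2 * k))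
    (F : Finset El) :
    ((Lset k θ).filter (fun z => El.p i (dst ((c : ZMod (2 * k)) * z.2 + b)) ∈ F)).card
      ≤ 2 * c.natAbs * F.card := by
  refine mod5_aff θ c hc b F (fun u => El.p i (dst u)) 2 fun u => ?_
  refine ⟨{u, -u}, card_le_two, fun u' h => ?_⟩
  have h1 : dst u' = dst u := by
    have := h
    simp only [El.p.injEq] at this
    exact this.2
  rcases (dst_eq_iff _ _).1 h1 with h' | h'
  · exact mem_insert.2 (Or.inl h')
  · exact mem_insert_of_mem (mem_singleton.2 h')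

theorem card_x_aff (θ : Letter) (c : ℤ) (hc : c ≠ 0) (b : ZMod (2 * k)) (F : Finset El) :
    ((Lset k θ).filter (fun z => El.x ((c : ZMod (2 * k)) * z.2 + b).val ∈ F)).card
      ≤ c.natAbs * F.card := by
  have hk : NeZero (2 * k) := ⟨by have := NeZero.ne k; omega⟩
  have h := mod5_aff θ c hc b F (fun u => El.x u.val) 1 fun u => ?_
  · rwa [one_mul] at h
  refine ⟨{u}, by simp, fun u' h => ?_⟩
  have h1 : u'.val = u.val := by
    have := h
    simp only [El.x.injEq] at this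
    exact this
  exact mem_singleton.2 (ZMod.val_injective _ h1)

theorem mod5_lin_ne (θ : Letter) (c : ℤ) (b : ZMod (2 * k)) (h : c ≠ 0 ∨ b ≠ 0) :
    ((Lset k θ).filter (fun z => (c : ZMod (2 * k)) * z.2 = b)).card ≤ c.natAbs := by
  by_cases hc : c = 0
  · have hb : b ≠ 0 := by
      rcases h with h | h
      · exact absurd hc h
      · exact h
    have e : (Lset k θ).filter (fun z => (c : ZMod (2 * k)) * z.2 = b) = ∅ := by
      apply filter_eq_empty_iff.2
      intro z _ hz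
      rw [hc, Int.cast_zero, zero_mul] at hz
      exact hb hz.symm
    rw [e]; simp
  · exact card_lin θ c hc b

/-- two affine forms with the same distance -/
theorem card_dst_eq (θ : Letter) (c c' : ℤ) (b b' : ZMod (2 * k)) (h1 : c ≠ c' ∨ b ≠ b')
    (h2 : c ≠ - c' ∨ b ≠ -b') :
    ((Lset k θ).filter (fun z => dst ((c : ZMod (2 * k)) * z.2 + b)
      = dst ((c' : ZMod (2 * k)) * z.2 + b'))).card ≤ (c - c').natAbs + (c + c').natAbs := by
  have hsub : (Lset k θ).filter (fun z => dst ((c : ZMod (2 * k)) * z.2 + b)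
      = dst ((c' : ZMod (2 * k)) * z.2 + b')) ⊆
      (Lset k θ).filter (fun z => ((c - c' : ℤ) : ZMod (2 * k)) * z.2 = b' - b) ∪
      (Lset k θ).filter (fun z => ((c + c' : ℤ) : ZMod (2 * k)) * z.2 = -b - b') := by
    intro z hz
    rw [mem_filter] at hz
    rw [mem_union, mem_filter, mem_filter]
    rcases (dst_eq_iff _ _).1 hz.2 with h | h
    · left
      refine ⟨hz.1, ?_⟩
      push_cast
      linear_combination h
    · right
      refine ⟨hz.1, ?_⟩
      push_cast
      linear_combination h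
  refine (card_le_card hsub).trans ((card_union_le _ _).trans (add_le_add ?_ ?_))
  · apply mod5_lin_ne
    rcases h1 with h | h
    · exact Or.inl (sub_ne_zero.2 h)
    · exact Or.inr (sub_ne_zero.2 h.symm)
  · apply mod5_lin_ne
    rcases h2 with h | h
    · left
      intro e
      exact h (eq_neg_of_add_eq_zero_left e)
    · right
      intro e
      apply h
      linear_combination -e

end SqCyc
end

section

/-! # GD-2 vertex switch -/

open Finset

namespace SqCyc

variable {k : ℕ} [NeZero k] {ℓ m : ℕ} {w : ℕ → Letter} {X : Finset El}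

/-- a set together with a bound of its size -/
private structure G2S (α : Type) where
  T : Finset α
  c : ℕ
  h : T.card ≤ c

private theorem g2_exists_out {α : Type} [DecidableEq α] (L : Finset α) (S : List (G2S α))
    (h : (S.map G2S.c).sum < L.card) : ∃ z ∈ L, ∀ T ∈ S, z ∉ T.T := by
  induction S generalizing L with
  | nil =>
    simp only [List.map_nil, List.sum_nil] at h
    obtain ⟨z, hz⟩ := Finset.card_pos.1 h
    exact ⟨z, hz, by simp⟩
  | cons T S ih =>
    simp only [List.map_cons, List.sum_cons] at h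
    have h1 := Finset.le_card_sdiff T.T L
    have h2 := T.h
    obtain ⟨z, hz, hz2⟩ := ih (L \ T.T) (by omega)
    rw [Finset.mem_sdiff] at hz
    refine ⟨z, hz.1, ?_⟩
    intro T' hT'
    rcases List.mem_cons.1 hT' with rfl | h2
    · exact hz.2
    · exact hz2 T' h2

omit [NeZero k] in
private theorem g2_p_mem_U {i : Bool} {d : ℕ} (h : El.p i d ∈ U k) : 1 ≤ d ∧ d < k := by
  simpa [U] using h

private theorem g2_p_mem_Uall (i : Bool) (x : ZMod (2 * k)) : El.p i (dst x) ∈ Uall k := by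
  have h := col_mem_Uall ((i, x) : Pt k) (i, 0)
  rw [col_same (P := ((i, x) : Pt k)) (Q := ((i, 0) : Pt k)) rfl] at h
  simpa using h

private theorem g2_vtx_mem_Uall (P : Pt k) : vtx P ∈ Uall k :=
  Finset.mem_union_left _ (vtx_mem_U P)

private theorem g2_vtx_ne {i : Bool} {P Q : Pt k} (h : El.p i (dst (P.2 - Q.2)) ∈ U k) :
    vtx P ≠ vtx Q := by
  intro h2
  have h3 := g2_p_mem_U h
  rcases ((vtx_eq_iff P Q).1 h2).2 with h4 | h4
  · rw [h4, sub_self, (dst_eq_zero_iff (0 : ZMod (2 * k))).2 rfl] at h3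
    omega
  · rw [h4, add_sub_cancel_left, (dst_eq_k_iff ((k : ℕ) : ZMod (2 * k))).2 rfl] at h3
    omega

omit [NeZero k] in
private theorem g2_card_Uall (X : Finset El) : (Uall k \ X).card ≤ (U k \ X).card + 4 := by
  have h1 : Uall k \ X ⊆ (U k \ X) ∪ {El.p false 0, El.p true 0, El.p false k, El.p true k} := by
    intro e he
    rw [Finset.mem_sdiff, Uall, Finset.mem_union] at he
    rw [Finset.mem_union, Finset.mem_sdiff]
    rcases he.1 with h | h
    · exact Or.inl ⟨h, he.2⟩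
    · exact Or.inr h
  refine (Finset.card_le_card h1).trans ((Finset.card_union_le _ _).trans ?_)
  have := Finset.card_le_four (a := El.p false 0) (b := El.p true 0) (c := El.p false k)
    (d := El.p true k)
  omega

private theorem g2_card_four {a b c d : El} (h1 : a ≠ b) (h2 : a ≠ c) (h3 : a ≠ d) (h4 : b ≠ c)
    (h5 : b ≠ d) (h6 : c ≠ d) : ({a, b, c, d} : Finset El).card = 4 := by
  rw [Finset.card_insert_of_notMem (by simp [h1, h2, h3]),
    Finset.card_insert_of_notMem (by simp [h4, h5]), Finset.card_pair h6]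

/-- the elements common to the two fillings -/
private def g2B (i : Bool) (σ : ZMod (2 * k)) (P P' a b : Pt k) : Finset El :=
  {vtx a, vtx ((i, σ - a.2) : Pt k), vtx b, vtx ((i, σ - b.2) : Pt k)} ∪
  {El.p i (dst (2 * a.2 - σ)), El.p i (dst (a.2 - P.2)), El.p i (dst (a.2 - P'.2)),
    El.p i (dst (2 * b.2 - σ)), El.p i (dst (b.2 - P.2)), El.p i (dst (b.2 - P'.2)),
    El.p i (dst (σ - a.2 - b.2))}

private theorem g2_window {i : Bool} {σ : ZMod (2 * k)} {P P' a b z : Pt k}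
    (hσ : σ = P.2 + P'.2) (ha : a.1 = i) (hb : b.1 = i)
    (hP : P.1 = i) (hP' : P'.1 = i) (hz : z = P ∨ z = P') :
    W0 a (i, σ - a.2) b (i, σ - b.2) ∪ Wz a (i, σ - a.2) b (i, σ - b.2) z
      = insert (vtx z) (g2B i σ P P' a b) := by
  have hz1 : z.1 = i := by rcases hz with rfl | rfl <;> assumption
  have c1 : col a (i, σ - a.2) = El.p i (dst (2 * a.2 - σ)) := by
    rw [col_same (by simp [ha]), ha]
    congr 2; simp only; ring
  have c2 : col ((i, σ - a.2) : Pt k) b = El.p i (dst (σ - a.2 - b.2)) := by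
    rw [col_same (by simp [hb])]
  have c3 : col b (i, σ - b.2) = El.p i (dst (2 * b.2 - σ)) := by
    rw [col_same (by simp [hb]), hb]
    congr 2; simp only; ring
  have c4 : col a z = El.p i (dst (a.2 - z.2)) := by
    rw [col_same (by rw [ha, hz1]), ha]
  have c5 : col ((i, σ - a.2) : Pt k) z = El.p i (dst (a.2 - (σ - z.2))) := by
    rw [col_same (by simp [hz1]), ← dst_neg]
    congr 2; simp only; ring
  have c6 : col z b = El.p i (dst (b.2 - z.2)) := by
    rw [col_same (by rw [hb, hz1]), hz1, ← dst_neg]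
    congr 2; ring
  have c7 : col z (i, σ - b.2) = El.p i (dst (b.2 - (σ - z.2))) := by
    rw [col_same (by simp [hz1]), hz1]
    congr 2; simp only; ring
  unfold W0 Wz g2B
  rw [c1, c2, c3, c4, c5, c6, c7]
  rcases hz with rfl | rfl
  · have e1 : σ - z.2 = P'.2 := by rw [hσ]; ring
    rw [e1]
    ext e
    simp only [Finset.mem_union, Finset.mem_insert, Finset.mem_singleton]
    tauto
  · have e1 : σ - z.2 = P.2 := by rw [hσ]; ring
    rw [e1]
    ext e
    simp only [Finset.mem_union, Finset.mem_insert, Finset.mem_singleton]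
    tauto

theorem vswap (C : Ctx k ℓ w m X) {s : ℕ} (hs : s < m) {i₀ : ℕ} {θ : Letter}
    (hw : Win w ℓ i₀ θ θ) {P P' : Pt k} (hP : P ∈ Lset k θ) (hP' : P' ∈ Lset k θ)
    (hne : vtx P ≠ vtx P') (hPX : vtx P ∈ X) (hPX' : vtx P' ∈ X) (F : Finset El)
    (hk : 1000 * ((U k \ X).card + F.card + ℓ) < k) :
    ∃ B ⊆ X, Disjoint B (F ∪ {vtx P, vtx P'}) ∧
      Fill k w ℓ X s (insert (vtx P) B) ∧ Fill k w ℓ X s (insert (vtx P') B) := by
  have hℓ : 11 ≤ ℓ := by have := hw.lo; have := hw.hi; omega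
  obtain ⟨-, hPi, hPo⟩ := Finset.mem_filter.1 hP
  obtain ⟨-, hPi', hPo'⟩ := Finset.mem_filter.1 hP'
  set i : Bool := θ.1 with hi
  obtain ⟨σ, hσ⟩ : ∃ σ : ZMod (2 * k), σ = P.2 + P'.2 := ⟨_, rfl⟩
  obtain ⟨G, hG⟩ : ∃ G : Finset El, G = (Uall k \ X) ∪ F ∪ {vtx P, vtx P'} := ⟨_, rfl⟩
  have hGc : G.card ≤ (U k \ X).card + F.card + 6 := by
    rw [hG]
    have h1 := Finset.card_union_le ((Uall k \ X) ∪ F) ({vtx P, vtx P'} : Finset El)
    have h2 := Finset.card_union_le (Uall k \ X) F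
    have h3 := g2_card_Uall (k := k) X
    have h4 : ({vtx P, vtx P'} : Finset El).card ≤ 2 := Finset.card_le_two
    omega
  have hGX : ∀ e ∈ Uall k, e ∉ G → e ∈ X := by
    intro e he hn
    by_contra h
    apply hn
    rw [hG]
    exact Finset.mem_union_left _ (Finset.mem_union_left _ (Finset.mem_sdiff.2 ⟨he, h⟩))
  have hGF : ∀ e, e ∉ G → e ∉ F ∪ {vtx P, vtx P'} := by
    intro e hn h
    apply hn
    rw [hG]
    rcases Finset.mem_union.1 h with h | h
    · exact Finset.mem_union_left _ (Finset.mem_union_right _ h)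
    · exact Finset.mem_union_right _ h
  have hPG : vtx P ∈ G := by rw [hG]; simp
  have hPG' : vtx P' ∈ G := by rw [hG]; simp
  have hPP : P.2 ≠ P'.2 := by
    intro h
    exact hne (by rw [vtx_eq_iff]; exact ⟨by rw [hPi, hPi'], Or.inl h⟩)
  -- parity of the reflected points
  have hrefl : ∀ z ∈ Lset k θ, ((i, σ - z.2) : Pt k) ∈ Lset k θ := by
    intro z hz
    obtain ⟨-, -, hz2⟩ := Finset.mem_filter.1 hz
    refine Finset.mem_filter.2 ⟨Finset.mem_univ _, rfl, ?_⟩
    show (σ - z.2).val.bodd = θ.2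
    rw [val_sub_bodd, hσ, val_add_bodd, hPo, hPo', hz2]
    cases θ.2 <;> rfl
  -- the point `a`
  obtain ⟨a, haL, ha1, ha2, ha3, ha4, ha5, ha6, ha7, ha8⟩ : ∃ a ∈ Lset k θ,
      vtx a ∉ G ∧ vtx ((i, σ - a.2) : Pt k) ∉ G ∧ El.p i (dst (2 * a.2 - σ)) ∉ G ∧
      El.p i (dst (a.2 - P.2)) ∉ G ∧ El.p i (dst (a.2 - P'.2)) ∉ G ∧
      dst (2 * a.2 - σ) ≠ dst (a.2 - P.2) ∧ dst (2 * a.2 - σ) ≠ dst (a.2 - P'.2) ∧
      dst (a.2 - P.2) ≠ dst (a.2 - P'.2) := by
    have b1 : _ ≤ 2 * 1 * G.card := card_vtx_aff (k := k) θ i 1 (by norm_num) 0 G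
    have b2 : _ ≤ 2 * 1 * G.card := card_vtx_aff θ i (-1) (by norm_num) σ G
    have b3 : _ ≤ 2 * 2 * G.card := card_p_aff θ i 2 (by norm_num) (-σ) G
    have b4 : _ ≤ 2 * 1 * G.card := card_p_aff θ i 1 (by norm_num) (-P.2) G
    have b5 : _ ≤ 2 * 1 * G.card := card_p_aff θ i 1 (by norm_num) (-P'.2) G
    have b6 : _ ≤ 1 + 3 := card_dst_eq θ 2 1 (-σ) (-P.2) (Or.inl (by norm_num)) (Or.inl (by norm_num))
    have b7 : _ ≤ 1 + 3 := card_dst_eq θ 2 1 (-σ) (-P'.2) (Or.inl (by norm_num))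
      (Or.inl (by norm_num))
    have b8 : _ ≤ 0 + 2 := card_dst_eq θ 1 1 (-P.2) (-P'.2) (Or.inr (fun h => hPP (neg_injective h)))
      (Or.inl (by norm_num))
    obtain ⟨a, haL, ha⟩ := g2_exists_out (Lset k θ) [⟨_, _, b1⟩, ⟨_, _, b2⟩, ⟨_, _, b3⟩,
      ⟨_, _, b4⟩, ⟨_, _, b5⟩, ⟨_, _, b6⟩, ⟨_, _, b7⟩, ⟨_, _, b8⟩] (by
      simp only [List.map_cons, List.map_nil, List.sum_cons, List.sum_nil]
      rw [card_Lset]
      omega)
    simp only [List.mem_cons, List.not_mem_nil, or_false, forall_eq_or_imp, forall_eq,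
      Finset.mem_filter, not_and] at ha
    obtain ⟨g1, g2, g3, g4, g5, g6, g7, g8⟩ := ha
    have ha1 : a.1 = i := (Finset.mem_filter.1 haL).2.1
    refine ⟨a, haL, ?_, ?_, ?_, ?_, ?_, ?_, ?_, ?_⟩
    · have := g1 haL
      have e : ((i, ((1 : ℤ) : ZMod (2 * k)) * a.2 + 0) : Pt k) = a := by
        rw [← ha1]; ext <;> simp
      rwa [e] at this
    · have := g2 haL
      have e : ((-1 : ℤ) : ZMod (2 * k)) * a.2 + σ = σ - a.2 := by push_cast; ring
      rwa [e] at this
    · have := g3 haL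
      have e : ((2 : ℤ) : ZMod (2 * k)) * a.2 + -σ = 2 * a.2 - σ := by push_cast; ring
      rwa [e] at this
    · have := g4 haL
      have e : ((1 : ℤ) : ZMod (2 * k)) * a.2 + -P.2 = a.2 - P.2 := by push_cast; ring
      rwa [e] at this
    · have := g5 haL
      have e : ((1 : ℤ) : ZMod (2 * k)) * a.2 + -P'.2 = a.2 - P'.2 := by push_cast; ring
      rwa [e] at this
    · have := g6 haL
      have e : ((2 : ℤ) : ZMod (2 * k)) * a.2 + -σ = 2 * a.2 - σ := by push_cast; ring
      have e2 : ((1 : ℤ) : ZMod (2 * k)) * a.2 + -P.2 = a.2 - P.2 := by push_cast; ring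
      rwa [e, e2] at this
    · have := g7 haL
      have e : ((2 : ℤ) : ZMod (2 * k)) * a.2 + -σ = 2 * a.2 - σ := by push_cast; ring
      have e2 : ((1 : ℤ) : ZMod (2 * k)) * a.2 + -P'.2 = a.2 - P'.2 := by push_cast; ring
      rwa [e, e2] at this
    · have := g8 haL
      have e : ((1 : ℤ) : ZMod (2 * k)) * a.2 + -P.2 = a.2 - P.2 := by push_cast; ring
      have e2 : ((1 : ℤ) : ZMod (2 * k)) * a.2 + -P'.2 = a.2 - P'.2 := by push_cast; ring
      rwa [e, e2] at this
  have hai : a.1 = i := (Finset.mem_filter.1 haL).2.1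
  have haP : a.2 ≠ P.2 := by
    intro h
    exact ha1 (by rw [show a = P from Prod.ext (hai.trans hPi.symm) h]; exact hPG)
  have haP' : a.2 ≠ P'.2 := by
    intro h
    exact ha1 (by rw [show a = P' from Prod.ext (hai.trans hPi'.symm) h]; exact hPG')
  -- the point `b`
  obtain ⟨G', hG'⟩ : ∃ G' : Finset El, G' = G ∪ {vtx a, vtx ((i, σ - a.2) : Pt k),
    El.p i (dst (2 * a.2 - σ)), El.p i (dst (a.2 - P.2)), El.p i (dst (a.2 - P'.2))} := ⟨_, rfl⟩
  have hGc' : G'.card ≤ (U k \ X).card + F.card + 11 := by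
    rw [hG']
    have h1 := Finset.card_union_le G ({vtx a, vtx ((i, σ - a.2) : Pt k),
      El.p i (dst (2 * a.2 - σ)), El.p i (dst (a.2 - P.2)), El.p i (dst (a.2 - P'.2))} : Finset El)
    have h2 := Finset.card_le_five (a := vtx a) (b := vtx ((i, σ - a.2) : Pt k))
      (c := El.p i (dst (2 * a.2 - σ))) (d := El.p i (dst (a.2 - P.2)))
      (e := El.p i (dst (a.2 - P'.2)))
    omega
  have hGG : ∀ e, e ∉ G' → e ∉ G := by
    intro e he h
    exact he (by rw [hG']; exact Finset.mem_union_left _ h)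
  have m1 : vtx a ∈ G' := by rw [hG']; simp
  have m2 : vtx ((i, σ - a.2) : Pt k) ∈ G' := by rw [hG']; simp
  have m3 : El.p i (dst (2 * a.2 - σ)) ∈ G' := by rw [hG']; simp
  have m4 : El.p i (dst (a.2 - P.2)) ∈ G' := by rw [hG']; simp
  have m5 : El.p i (dst (a.2 - P'.2)) ∈ G' := by rw [hG']; simp
  obtain ⟨b, hbL, hb1, hb2, hb3, hb4, hb5, hb6, hb7, hb8, hb9, hb10, hb11, hb12⟩ :
      ∃ b ∈ Lset k θ,
      vtx b ∉ G' ∧ vtx ((i, σ - b.2) : Pt k) ∉ G' ∧ El.p i (dst (2 * b.2 - σ)) ∉ G' ∧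
      El.p i (dst (b.2 - P.2)) ∉ G' ∧ El.p i (dst (b.2 - P'.2)) ∉ G' ∧
      El.p i (dst (σ - a.2 - b.2)) ∉ G' ∧
      dst (2 * b.2 - σ) ≠ dst (b.2 - P.2) ∧ dst (2 * b.2 - σ) ≠ dst (b.2 - P'.2) ∧
      dst (b.2 - P.2) ≠ dst (b.2 - P'.2) ∧ dst (σ - a.2 - b.2) ≠ dst (b.2 - P.2) ∧
      dst (σ - a.2 - b.2) ≠ dst (b.2 - P'.2) ∧ dst (σ - a.2 - b.2) ≠ dst (2 * b.2 - σ) := by
    have b1 : _ ≤ 2 * 1 * G'.card := card_vtx_aff (k := k) θ i 1 (by norm_num) 0 G'
    have b2 : _ ≤ 2 * 1 * G'.card := card_vtx_aff θ i (-1) (by norm_num) σ G'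
    have b3 : _ ≤ 2 * 2 * G'.card := card_p_aff θ i 2 (by norm_num) (-σ) G'
    have b4 : _ ≤ 2 * 1 * G'.card := card_p_aff θ i 1 (by norm_num) (-P.2) G'
    have b5 : _ ≤ 2 * 1 * G'.card := card_p_aff θ i 1 (by norm_num) (-P'.2) G'
    have b6 : _ ≤ 2 * 1 * G'.card := card_p_aff θ i (-1) (by norm_num) (σ - a.2) G'
    have b7 : _ ≤ 1 + 3 := card_dst_eq θ 2 1 (-σ) (-P.2) (Or.inl (by norm_num)) (Or.inl (by norm_num))
    have b8 : _ ≤ 1 + 3 := card_dst_eq θ 2 1 (-σ) (-P'.2) (Or.inl (by norm_num))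
      (Or.inl (by norm_num))
    have b9 : _ ≤ 0 + 2 := card_dst_eq θ 1 1 (-P.2) (-P'.2) (Or.inr (fun h => hPP (neg_injective h)))
      (Or.inl (by norm_num))
    have b10 : _ ≤ 2 + 0 := card_dst_eq θ (-1) 1 (σ - a.2) (-P.2) (Or.inl (by norm_num))
      (Or.inr (fun h => haP' (by
        rw [neg_neg, hσ] at h
        have : P'.2 - a.2 = 0 := by linear_combination h
        exact (sub_eq_zero.1 this).symm)))
    have b11 : _ ≤ 2 + 0 := card_dst_eq θ (-1) 1 (σ - a.2) (-P'.2) (Or.inl (by norm_num))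
      (Or.inr (fun h => haP (by
        rw [neg_neg, hσ] at h
        have : P.2 - a.2 = 0 := by linear_combination h
        exact (sub_eq_zero.1 this).symm)))
    have b12 : _ ≤ 3 + 1 := card_dst_eq θ (-1) 2 (σ - a.2) (-σ) (Or.inl (by norm_num))
      (Or.inl (by norm_num))
    obtain ⟨b, hbL, hb⟩ := g2_exists_out (Lset k θ) [⟨_, _, b1⟩, ⟨_, _, b2⟩, ⟨_, _, b3⟩,
      ⟨_, _, b4⟩, ⟨_, _, b5⟩, ⟨_, _, b6⟩, ⟨_, _, b7⟩, ⟨_, _, b8⟩, ⟨_, _, b9⟩, ⟨_, _, b10⟩,
      ⟨_, _, b11⟩, ⟨_, _, b12⟩] (by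
      simp only [List.map_cons, List.map_nil, List.sum_cons, List.sum_nil]
      rw [card_Lset]
      omega)
    simp only [List.mem_cons, List.not_mem_nil, or_false, forall_eq_or_imp, forall_eq,
      Finset.mem_filter, not_and] at hb
    obtain ⟨g1, g2, g3, g4, g5, g6, g7, g8, g9, g10, g11, g12⟩ := hb
    have hb1 : b.1 = i := (Finset.mem_filter.1 hbL).2.1
    have e2 : ((2 : ℤ) : ZMod (2 * k)) * b.2 + -σ = 2 * b.2 - σ := by push_cast; ring
    have eP : ((1 : ℤ) : ZMod (2 * k)) * b.2 + -P.2 = b.2 - P.2 := by push_cast; ring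
    have eP' : ((1 : ℤ) : ZMod (2 * k)) * b.2 + -P'.2 = b.2 - P'.2 := by push_cast; ring
    have eab : ((-1 : ℤ) : ZMod (2 * k)) * b.2 + (σ - a.2) = σ - a.2 - b.2 := by push_cast; ring
    refine ⟨b, hbL, ?_, ?_, ?_, ?_, ?_, ?_, ?_, ?_, ?_, ?_, ?_, ?_⟩
    · have := g1 hbL
      have e : ((i, ((1 : ℤ) : ZMod (2 * k)) * b.2 + 0) : Pt k) = b := by
        rw [← hb1]; ext <;> simp
      rwa [e] at this
    · have := g2 hbL
      have e : ((-1 : ℤ) : ZMod (2 * k)) * b.2 + σ = σ - b.2 := by push_cast; ring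
      rwa [e] at this
    · have := g3 hbL
      rwa [e2] at this
    · have := g4 hbL
      rwa [eP] at this
    · have := g5 hbL
      rwa [eP'] at this
    · have := g6 hbL
      rwa [eab] at this
    · have := g7 hbL
      rwa [e2, eP] at this
    · have := g8 hbL
      rwa [e2, eP'] at this
    · have := g9 hbL
      rwa [eP, eP'] at this
    · have := g10 hbL
      rwa [eab, eP] at this
    · have := g11 hbL
      rwa [eab, eP'] at this
    · have := g12 hbL
      rwa [eab, e2] at this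
  have hbi : b.1 = i := (Finset.mem_filter.1 hbL).2.1
  -- everything belongs to `X`
  have xv : ∀ Q : Pt k, vtx Q ∉ G → vtx Q ∈ X := fun Q h => hGX _ (g2_vtx_mem_Uall Q) h
  have xp : ∀ x : ZMod (2 * k), El.p i (dst x) ∉ G → El.p i (dst x) ∈ X :=
    fun x h => hGX _ (g2_p_mem_Uall i x) h
  have hB : ∀ e ∈ g2B i σ P P' a b, e ∉ G ∧ e ∈ X := by
    intro e he
    simp only [g2B, Finset.mem_union, Finset.mem_insert, Finset.mem_singleton] at he
    rcases he with (rfl | rfl | rfl | rfl) | (rfl | rfl | rfl | rfl | rfl | rfl | rfl)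
    · exact ⟨ha1, xv _ ha1⟩
    · exact ⟨ha2, xv _ ha2⟩
    · exact ⟨hGG _ hb1, xv _ (hGG _ hb1)⟩
    · exact ⟨hGG _ hb2, xv _ (hGG _ hb2)⟩
    · exact ⟨ha3, xp _ ha3⟩
    · exact ⟨ha4, xp _ ha4⟩
    · exact ⟨ha5, xp _ ha5⟩
    · exact ⟨hGG _ hb3, xp _ (hGG _ hb3)⟩
    · exact ⟨hGG _ hb4, xp _ (hGG _ hb4)⟩
    · exact ⟨hGG _ hb5, xp _ (hGG _ hb5)⟩
    · exact ⟨hGG _ hb6, xp _ (hGG _ hb6)⟩
  -- the number of elements
  have v12 : vtx a ≠ vtx ((i, σ - a.2) : Pt k) := by
    apply g2_vtx_ne (i := i)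
    have e : a.2 - ((i, σ - a.2) : Pt k).2 = 2 * a.2 - σ := by simp only; ring
    rw [e]
    exact C.hX (xp _ ha3)
  have v34 : vtx b ≠ vtx ((i, σ - b.2) : Pt k) := by
    apply g2_vtx_ne (i := i)
    have e : b.2 - ((i, σ - b.2) : Pt k).2 = 2 * b.2 - σ := by simp only; ring
    rw [e]
    exact C.hX (xp _ (hGG _ hb3))
  have hc4 : ({vtx a, vtx ((i, σ - a.2) : Pt k), vtx b, vtx ((i, σ - b.2) : Pt k)} :
      Finset El).card = 4 :=
    g2_card_four v12 (fun h => hb1 (h ▸ m1)) (fun h => hb2 (h ▸ m1)) (fun h => hb1 (h ▸ m2))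
      (fun h => hb2 (h ▸ m2)) v34
  have hc7 : ({El.p i (dst (2 * a.2 - σ)), El.p i (dst (a.2 - P.2)), El.p i (dst (a.2 - P'.2)),
      El.p i (dst (2 * b.2 - σ)), El.p i (dst (b.2 - P.2)), El.p i (dst (b.2 - P'.2)),
      El.p i (dst (σ - a.2 - b.2))} : Finset El).card = 7 := by
    have q1 : ∀ e, e ∈ G' → e ≠ El.p i (dst (2 * b.2 - σ)) := fun e h h2 => hb3 (h2 ▸ h)
    have q2 : ∀ e, e ∈ G' → e ≠ El.p i (dst (b.2 - P.2)) := fun e h h2 => hb4 (h2 ▸ h)
    have q3 : ∀ e, e ∈ G' → e ≠ El.p i (dst (b.2 - P'.2)) := fun e h h2 => hb5 (h2 ▸ h)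
    have q4 : ∀ e, e ∈ G' → e ≠ El.p i (dst (σ - a.2 - b.2)) := fun e h h2 => hb6 (h2 ▸ h)
    have pne : ∀ d d' : ℕ, d ≠ d' → El.p i d ≠ El.p i d' := by
      intro d d' h h2
      injection h2 with _ h3
      exact h h3
    rw [Finset.card_insert_of_notMem (by
        simp only [Finset.mem_insert, Finset.mem_singleton, not_or]
        exact ⟨pne _ _ ha6, pne _ _ ha7, q1 _ m3, q2 _ m3, q3 _ m3, q4 _ m3⟩),
      Finset.card_insert_of_notMem (by
        simp only [Finset.mem_insert, Finset.mem_singleton, not_or]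
        exact ⟨pne _ _ ha8, q1 _ m4, q2 _ m4, q3 _ m4, q4 _ m4⟩),
      Finset.card_insert_of_notMem (by
        simp only [Finset.mem_insert, Finset.mem_singleton, not_or]
        exact ⟨q1 _ m5, q2 _ m5, q3 _ m5, q4 _ m5⟩),
      g2_card_four (pne _ _ hb7) (pne _ _ hb8) (pne _ _ hb12.symm) (pne _ _ hb9)
        (pne _ _ hb10.symm) (pne _ _ hb11.symm)]
  have hc11 : (g2B i σ P P' a b).card = 11 := by
    unfold g2B
    rw [Finset.card_union_of_disjoint, hc4, hc7]
    rw [Finset.disjoint_left]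
    intro e he he2
    simp only [Finset.mem_insert, Finset.mem_singleton] at he he2
    rcases he with rfl | rfl | rfl | rfl <;> simp [vtx] at he2
  have hc12 : ∀ z, z = P ∨ z = P' → (insert (vtx z) (g2B i σ P P' a b)).card = 12 := by
    intro z hz
    rw [Finset.card_insert_of_notMem, hc11]
    intro h
    rcases hz with rfl | rfl
    · exact (hB _ h).1 hPG
    · exact (hB _ h).1 hPG'
  have hsub : ∀ z, z = P ∨ z = P' → insert (vtx z) (g2B i σ P P' a b) ⊆ X := by
    intro z hz e he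
    rcases Finset.mem_insert.1 he with rfl | h
    · rcases hz with rfl | rfl
      · exact hPX
      · exact hPX'
    · exact (hB _ h).2
  have hZ : ∀ z ∈ ({P, P'} : Finset (Pt k)), z = P ∨ z = P' := by
    intro z hz
    simpa using hz
  have hwin : ∀ z, z = P ∨ z = P' →
      W0 a (i, σ - a.2) b (i, σ - b.2) ∪ Wz a (i, σ - a.2) b (i, σ - b.2) z
        = insert (vtx z) (g2B i σ P P' a b) :=
    fun z hz => g2_window hσ hai hbi hPi hPi' hz
  obtain ⟨Out, hOX, hOF, hOd, hfill⟩ := slot_window C hs hw haL (hrefl a haL) hbL (hrefl b hbL)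
    ({P, P'} : Finset (Pt k)) (by
      intro z hz
      rcases hZ z hz with rfl | rfl
      · exact hP
      · exact hP') ⟨P, by simp⟩ (Finset.card_le_two.trans (by norm_num)) (by
      intro z hz
      rw [hwin z (hZ z hz)]
      exact hc12 z (hZ z hz)) (by
      intro z hz
      rw [hwin z (hZ z hz)]
      exact hsub z (hZ z hz)) (F ∪ {vtx P, vtx P'}) (by
      have h1 := Finset.card_union_le F ({vtx P, vtx P'} : Finset El)
      have h2 : ({vtx P, vtx P'} : Finset El).card ≤ 2 := Finset.card_le_two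
      omega)
  refine ⟨Out ∪ g2B i σ P P' a b, ?_, ?_, ?_, ?_⟩
  · intro e he
    rcases Finset.mem_union.1 he with h | h
    · exact hOX h
    · exact (hB e h).2
  · rw [Finset.disjoint_union_left]
    refine ⟨hOF, ?_⟩
    rw [Finset.disjoint_left]
    intro e he
    exact hGF e (hB e he).1
  · have h := hfill P (by simp)
    rw [hwin P (Or.inl rfl), Finset.union_insert] at h
    exact h
  · have h := hfill P' (by simp)
    rw [hwin P' (Or.inr rfl), Finset.union_insert] at h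
    exact h

end SqCyc
end
end

section

section

/-! # GD-3 colour switch (pure even colours, two slots) -/

open Finset

namespace SqCyc

variable {k : ℕ} [NeZero k] {ℓ m : ℕ} {w : ℕ → Letter} {X : Finset El}

private lemma cs_avoid6 (θ : Letter) (q1 q2 q3 q4 q5 q6 : Pt k → Prop)
    [DecidablePred q1] [DecidablePred q2] [DecidablePred q3] [DecidablePred q4]
    [DecidablePred q5] [DecidablePred q6] {c1 c2 c3 c4 c5 c6 : ℕ}
    (h1 : ((Lset k θ).filter q1).card ≤ c1) (h2 : ((Lset k θ).filter q2).card ≤ c2)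
    (h3 : ((Lset k θ).filter q3).card ≤ c3) (h4 : ((Lset k θ).filter q4).card ≤ c4)
    (h5 : ((Lset k θ).filter q5).card ≤ c5) (h6 : ((Lset k θ).filter q6).card ≤ c6)
    (hlt : c1 + c2 + c3 + c4 + c5 + c6 < k) :
    ∃ z ∈ Lset k θ, ¬ q1 z ∧ ¬ q2 z ∧ ¬ q3 z ∧ ¬ q4 z ∧ ¬ q5 z ∧ ¬ q6 z := by
  by_contra hcon
  push Not at hcon
  have hsub : Lset k θ ⊆ (Lset k θ).filter q1 ∪ ((Lset k θ).filter q2 ∪ ((Lset k θ).filter q3 ∪
      ((Lset k θ).filter q4 ∪ ((Lset k θ).filter q5 ∪ (Lset k θ).filter q6)))) := by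
    intro z hz
    have := hcon z hz
    simp only [mem_union, mem_filter, hz, true_and]
    tauto
  have hc := card_le_card hsub
  rw [card_Lset] at hc
  have d1 := card_union_le ((Lset k θ).filter q1) ((Lset k θ).filter q2 ∪
    ((Lset k θ).filter q3 ∪ ((Lset k θ).filter q4 ∪ ((Lset k θ).filter q5 ∪
      (Lset k θ).filter q6))))
  have d2 := card_union_le ((Lset k θ).filter q2) ((Lset k θ).filter q3 ∪
    ((Lset k θ).filter q4 ∪ ((Lset k θ).filter q5 ∪ (Lset k θ).filter q6)))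
  have d3 := card_union_le ((Lset k θ).filter q3) ((Lset k θ).filter q4 ∪
    ((Lset k θ).filter q5 ∪ (Lset k θ).filter q6))
  have d4 := card_union_le ((Lset k θ).filter q4) ((Lset k θ).filter q5 ∪ (Lset k θ).filter q6)
  have d5 := card_union_le ((Lset k θ).filter q5) ((Lset k θ).filter q6)
  omega

private lemma cs_choose_e (i e₀ : Bool) (f h : ZMod (2 * k)) (G : Finset El)
    (B1 B2 : Finset (ZMod (2 * k))) (hB1 : B1.card ≤ 7) (hB2 : B2.card ≤ 2)
    (hG : 8 * G.card + 20 < k) :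
    ∃ e : ZMod (2 * k), e.val.bodd = e₀ ∧ El.p i (dst e) ∉ G ∧ El.p i (dst (e + f)) ∉ G ∧
      El.p i (dst (e - h)) ∉ G ∧ El.p i (dst (e + h)) ∉ G ∧ 2 * e ∉ B1 ∧ e ∉ B2 := by
  have a1 := card_p_aff (k := k) (i, e₀) i 1 one_ne_zero 0 G
  have a2 := card_p_aff (k := k) (i, e₀) i 1 one_ne_zero f G
  have a3 := card_p_aff (k := k) (i, e₀) i 1 one_ne_zero (-h) G
  have a4 := card_p_aff (k := k) (i, e₀) i 1 one_ne_zero h G
  have a5 := card_lin_mem (k := k) (i, e₀) 2 two_ne_zero 0 B1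
  have a6 := card_lin_mem (k := k) (i, e₀) 1 one_ne_zero 0 B2
  obtain ⟨z, hz, z1, z2, z3, z4, z5, z6⟩ := cs_avoid6 (i, e₀) _ _ _ _ _ _ a1 a2 a3 a4 a5 a6
    (by
      have t1 : Int.natAbs 1 = 1 := rfl
      have t2 : Int.natAbs 2 = 2 := rfl
      rw [t1, t2]
      omega)
  refine ⟨z.2, ?_, ?_, ?_, ?_, ?_, ?_, ?_⟩
  · have := hz
    simp only [Lset, mem_filter, mem_univ, true_and] at this
    exact this.2
  · simpa using z1
  · simpa using z2
  · simpa [sub_eq_add_neg] using z3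
  · simpa using z4
  · simpa using z5
  · simpa using z6

private lemma cs_choose_a (i e₀ : Bool) (b1 b2 b3 b4 b5 b6 : ZMod (2 * k)) (G : Finset El)
    (hG : 12 * G.card < k) :
    ∃ a : ZMod (2 * k), a.val.bodd = e₀ ∧ vtx ((i, a + b1) : Pt k) ∉ G ∧
      vtx ((i, a + b2) : Pt k) ∉ G ∧ vtx ((i, a + b3) : Pt k) ∉ G ∧
      vtx ((i, a + b4) : Pt k) ∉ G ∧ vtx ((i, a + b5) : Pt k) ∉ G ∧
      vtx ((i, a + b6) : Pt k) ∉ G := by
  have a1 := card_vtx_aff (k := k) (i, e₀) i 1 one_ne_zero b1 G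
  have a2 := card_vtx_aff (k := k) (i, e₀) i 1 one_ne_zero b2 G
  have a3 := card_vtx_aff (k := k) (i, e₀) i 1 one_ne_zero b3 G
  have a4 := card_vtx_aff (k := k) (i, e₀) i 1 one_ne_zero b4 G
  have a5 := card_vtx_aff (k := k) (i, e₀) i 1 one_ne_zero b5 G
  have a6 := card_vtx_aff (k := k) (i, e₀) i 1 one_ne_zero b6 G
  obtain ⟨z, hz, z1, z2, z3, z4, z5, z6⟩ := cs_avoid6 (i, e₀) _ _ _ _ _ _ a1 a2 a3 a4 a5 a6
    (by
      have t1 : Int.natAbs 1 = 1 := rfl
      rw [t1]
      omega)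
  refine ⟨z.2, ?_, ?_, ?_, ?_, ?_, ?_, ?_⟩
  · have := hz
    simp only [Lset, mem_filter, mem_univ, true_and] at this
    exact this.2
  · simpa using z1
  · simpa using z2
  · simpa using z3
  · simpa using z4
  · simpa using z5
  · simpa using z6

private lemma cs_col (i : Bool) {x y d : ZMod (2 * k)} (h : x - y = d ∨ x - y = -d) :
    col ((i, x) : Pt k) (i, y) = El.p i (dst d) := by
  rw [col_same (P := ((i, x) : Pt k)) (Q := (i, y)) rfl]
  rcases h with h | h
  · simp only [h]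
  · simp only [h, dst_neg]

omit [NeZero k] in
private lemma cs_kk : (k : ZMod (2 * k)) + k = 0 := by
  have h : ((2 * k : ℕ) : ZMod (2 * k)) = 0 := ZMod.natCast_self _
  push_cast at h
  linear_combination h

private lemma cs_vtx_ne (i : Bool) {x y d : ZMod (2 * k)} (h : x - y = d ∨ x - y = -d)
    (h0 : d ≠ 0) (hk : d ≠ (k : ZMod (2 * k))) : vtx ((i, x) : Pt k) ≠ vtx (i, y) := by
  intro hv
  rw [vtx_eq_iff] at hv
  obtain ⟨_, hv | hv⟩ := hv
  · simp only at hv
    rcases h with h | h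
    · exact h0 (by rw [← h, hv, sub_self])
    · exact h0 (by rw [hv, sub_self] at h; exact (neg_eq_zero.1 h.symm))
  · simp only at hv
    rcases h with h | h
    · exact hk (by rw [← h, hv]; ring)
    · apply hk
      have h1 : -d = (k : ZMod (2 * k)) := by rw [← h, hv]; ring
      have h2 := cs_kk (k := k)
      linear_combination -h1 - h2

private lemma cs_ne {i : Bool} {d : ZMod (2 * k)} (h : El.p i (dst d) ∈ U k) :
    d ≠ 0 ∧ d ≠ (k : ZMod (2 * k)) := by
  have h1 : 1 ≤ dst d ∧ dst d < k := by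
    unfold U at h
    simp only [mem_union, mem_image, mem_product, mem_univ, true_and, mem_range, mem_Ico,
      Prod.exists, reduceCtorEq, and_false, exists_false, false_or, or_false, El.p.injEq] at h
    obtain ⟨_, n, hn, _, rfl⟩ := h
    exact hn
  constructor
  · intro h0
    have := (dst_eq_zero_iff d).2 h0
    omega
  · intro h0
    have := (dst_eq_k_iff d).2 h0
    omega

private lemma cs_two {h : ZMod (2 * k)} (h0 : h ≠ 0) (hk : h ≠ (k : ZMod (2 * k))) :
    2 * h ≠ 0 := by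
  intro h2
  have hkpos : 0 < k := Nat.pos_of_ne_zero (NeZero.ne k)
  have h3 : ((2 * h.val : ℕ) : ZMod (2 * k)) = 0 := by
    push_cast
    rw [ZMod.natCast_zmod_val]
    exact h2
  rw [ZMod.natCast_eq_zero_iff] at h3
  have h4 : k ∣ h.val := Nat.dvd_of_mul_dvd_mul_left two_pos h3
  obtain ⟨c, hc⟩ := h4
  have h5 := ZMod.val_lt h
  have h6 : c < 2 := by
    rw [hc] at h5
    by_contra hcon
    push Not at hcon
    nlinarith
  have h7 : h = ((h.val : ℕ) : ZMod (2 * k)) := (ZMod.natCast_zmod_val h).symm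
  interval_cases c
  · exact h0 (by rw [h7, hc]; simp)
  · exact hk (by rw [h7, hc, mul_one])

private lemma cs_p_ne (i : Bool) {d d' : ZMod (2 * k)} (h1 : d ≠ d') (h2 : d ≠ -d') :
    El.p i (dst d) ≠ El.p i (dst d') := by
  intro h
  have h3 : dst d = dst d' := by injection h
  rw [dst_eq_iff] at h3
  exact h3.elim h1 h2

private lemma cs_four {a b c d : El} (h : ({a, b, c, d} : Finset El).card = 4) :
    a ≠ b ∧ a ≠ c ∧ a ≠ d ∧ b ≠ c ∧ b ≠ d ∧ c ≠ d := by
  have h1 : a ∉ ({b, c, d} : Finset El) := by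
    intro hm
    rw [insert_eq_of_mem hm] at h
    have := card_le_three (a := b) (b := c) (c := d)
    omega
  rw [card_insert_of_notMem h1] at h
  have h2 : b ∉ ({c, d} : Finset El) := by
    intro hm
    rw [insert_eq_of_mem hm] at h
    have := card_le_two (a := c) (b := d)
    omega
  rw [card_insert_of_notMem h2] at h
  have h3 : c ∉ ({d} : Finset El) := by
    intro hm
    rw [insert_eq_of_mem hm, card_singleton] at h
    omega
  simp only [mem_insert, mem_singleton, not_or] at h1 h2 h3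
  exact ⟨h1.1, h1.2.1, h1.2.2, h2.1, h2.2, h3⟩

private lemma cs_card12 {v1 v2 v3 v4 v5 c1 c2 c3 c4 c5 c6 c7 : El}
    (hv : [v1, v2, v3, v4, v5].Nodup) (hc : [c1, c2, c3, c4, c5, c6, c7].Nodup)
    (hvc : ∀ v ∈ [v1, v2, v3, v4, v5], ∀ c ∈ [c1, c2, c3, c4, c5, c6, c7], v ≠ c) :
    (({v1, v2, v3, v4, c1, c2, c3} : Finset El) ∪ {v5, c4, c5, c6, c7}).card = 12 := by
  have e : (({v1, v2, v3, v4, c1, c2, c3} : Finset El) ∪ {v5, c4, c5, c6, c7}) =
      [v1, v2, v3, v4, v5].toFinset ∪ [c1, c2, c3, c4, c5, c6, c7].toFinset := by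
    ext x
    simp only [mem_union, mem_insert, mem_singleton, List.mem_toFinset,
      List.mem_cons, List.not_mem_nil, or_false]
    apply iff_of_eq
    ac_rfl
  have hd : Disjoint [v1, v2, v3, v4, v5].toFinset [c1, c2, c3, c4, c5, c6, c7].toFinset := by
    rw [disjoint_left]
    intro x hx hx'
    rw [List.mem_toFinset] at hx hx'
    exact hvc x hx x hx' rfl
  rw [e, card_union_of_disjoint hd, List.toFinset_card_of_nodup hv,
    List.toFinset_card_of_nodup hc]
  rfl

omit [NeZero k] in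
private lemma cs_Uall {G' : Finset El} {e : El} (he : e ∈ Uall k)
    (h : e ∉ (Uall k \ X) ∪ G') : e ∈ X ∧ e ∉ G' := by
  simp only [mem_union, mem_sdiff, he, true_and, not_or, not_not] at h
  exact h

private lemma cs_p_Uall (i : Bool) (d : ZMod (2 * k)) : El.p i (dst d) ∈ Uall k := by
  have hkpos : 0 < k := Nat.pos_of_ne_zero (NeZero.ne k)
  have h := dst_le d
  unfold Uall U
  simp only [mem_union, mem_image, mem_product, mem_univ, true_and, mem_range, mem_Ico,
    Prod.exists, reduceCtorEq, and_false, exists_false, false_or, or_false, El.p.injEq,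
    mem_insert, mem_singleton]
  by_cases h0 : dst d = 0
  · right
    cases i <;> simp [h0]
  · by_cases hk : dst d = k
    · right
      cases i <;> simp [hk]
    · left
      exact ⟨i, dst d, ⟨by omega, by omega⟩, rfl, rfl⟩

/-- the two windows -/
private lemma cs_wins (C : Ctx k ℓ w m X) (i e₀ : Bool) :
    (∃ j, Win w ℓ j (i, false) (i, e₀)) ∧ ∃ j, Win w ℓ j (i, false) (i, false) := by
  have W := C.wins
  cases i <;> cases e₀
  · exact ⟨W.AA, W.AA⟩
  · exact ⟨W.AB, W.AA⟩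
  · exact ⟨W.CC, W.CC⟩
  · exact ⟨W.CD, W.CC⟩

private lemma cs_covT {s s' : ℕ} (hss : s ≠ s') {A A' R : Finset El}
    (h1 : Fill k w ℓ X s A) (h2 : Fill k w ℓ X s' A') (hd : Disjoint A A')
    (hR : A ∪ A' = R) : CovT (Fill k w ℓ X) {s, s'} R := by
  refine ⟨fun t => if t = s then A else A', ?_, ?_, ?_⟩
  · intro t ht
    simp only [mem_insert, mem_singleton] at ht
    rcases ht with rfl | rfl
    · simpa using h1
    · simpa [hss.symm] using h2
  · intro t ht t' ht' htt
    simp only [mem_insert, mem_singleton] at ht ht'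
    rcases ht with rfl | rfl <;> rcases ht' with rfl | rfl
    · exact absurd rfl htt
    · simpa [hss.symm] using hd
    · simpa [hss.symm] using hd.symm
    · exact absurd rfl htt
  · rw [← hR]
    ext x
    simp [hss.symm]

private lemma cs_notmem {K : Finset El} {x y : El} (hK : K.card ≤ 10)
    (h : (K ∪ {x, y}).card = 12) : x ∉ K ∧ y ∉ K ∧ x ≠ y := by
  refine ⟨fun hx => ?_, fun hy => ?_, fun hxy => ?_⟩
  · have e : K ∪ {x, y} = K ∪ {y} := by
      ext z
      simp only [mem_union, mem_insert, mem_singleton]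
      constructor
      · rintro (h | rfl | h)
        · exact Or.inl h
        · exact Or.inl hx
        · exact Or.inr h
      · rintro (h | h)
        · exact Or.inl h
        · exact Or.inr (Or.inr h)
    rw [e] at h
    have := card_union_le K {y}
    rw [card_singleton] at this
    omega
  · have e : K ∪ {x, y} = K ∪ {x} := by
      ext z
      simp only [mem_union, mem_insert, mem_singleton]
      constructor
      · rintro (h | h | rfl)
        · exact Or.inl h
        · exact Or.inr h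
        · exact Or.inl hy
      · rintro (h | h)
        · exact Or.inl h
        · exact Or.inr (Or.inl h)
    rw [e] at h
    have := card_union_le K {x}
    rw [card_singleton] at this
    omega
  · subst hxy
    have := card_union_le K {x, x}
    simp only [insert_eq_of_mem, mem_singleton, card_singleton] at this
    simp only [insert_eq_of_mem, mem_singleton] at h
    omega

private lemma cs_final {D BV F : Finset El} {VP VQ c c' : El} (hQD : VQ ∉ D) (hPQ : VP ≠ VQ)
    (hQc : VQ ≠ c) (hBV : Disjoint BV (F ∪ {c, c'} ∪ D ∪ {VP, VQ})) :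
    Disjoint (D ∪ {VP, c}) (insert VQ BV) ∧
      (D ∪ {VP, c}) ∪ insert VQ BV = insert c (D ∪ BV ∪ {VP, VQ}) := by
  rw [disjoint_right] at hBV
  simp only [mem_union, mem_insert, mem_singleton] at hBV
  constructor
  · rw [disjoint_left]
    intro x hx hx'
    simp only [mem_union, mem_insert, mem_singleton] at hx hx'
    rcases hx' with rfl | hx'
    · rcases hx with h | h | h
      · exact hQD h
      · exact hPQ h.symm
      · exact hQc h
    · rcases hx with h | h | h
      · exact hBV (Or.inl (Or.inr h)) hx'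
      · exact hBV (Or.inr (Or.inl h)) hx'
      · exact hBV (Or.inl (Or.inl (Or.inr (Or.inl h)))) hx'
  · ext x
    simp only [mem_union, mem_insert, mem_singleton]
    tauto

private lemma cs_final' {D BV F : Finset El} {VP VQ c c' : El} (hPD : VP ∉ D) (hPQ : VP ≠ VQ)
    (hPc : VP ≠ c') (hBV : Disjoint BV (F ∪ {c, c'} ∪ D ∪ {VP, VQ})) :
    Disjoint (D ∪ {VQ, c'}) (insert VP BV) ∧
      (D ∪ {VQ, c'}) ∪ insert VP BV = insert c' (D ∪ BV ∪ {VP, VQ}) := by
  rw [disjoint_right] at hBV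
  simp only [mem_union, mem_insert, mem_singleton] at hBV
  constructor
  · rw [disjoint_left]
    intro x hx hx'
    simp only [mem_union, mem_insert, mem_singleton] at hx hx'
    rcases hx' with rfl | hx'
    · rcases hx with h | h | h
      · exact hPD h
      · exact hPQ h
      · exact hPc h
    · rcases hx with h | h | h
      · exact hBV (Or.inl (Or.inr h)) hx'
      · exact hBV (Or.inr (Or.inr h)) hx'
      · exact hBV (Or.inl (Or.inl (Or.inr (Or.inr h)))) hx'
  · ext x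
    simp only [mem_union, mem_insert, mem_singleton]
    tauto

theorem cswap (C : Ctx k ℓ w m X) {s s' : ℕ} (hs : s < m) (hs' : s' < m) (hss : s ≠ s')
    (i : Bool) (f h : ZMod (2 * k)) (hpar : f.val.bodd = h.val.bodd)
    (h2 : 2 * h ≠ (k : ZMod (2 * k)))
    (hX : ({El.p i (dst f), El.p i (dst h), El.p i (dst (f + h)),
      El.p i (dst (f - h))} : Finset El) ⊆ X)
    (hcard : ({El.p i (dst f), El.p i (dst h), El.p i (dst (f + h)),
      El.p i (dst (f - h))} : Finset El).card = 4)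
    (F : Finset El) (hFf : El.p i (dst f) ∉ F) (hFh : El.p i (dst h) ∉ F)
    (hk : 10000 * ((U k \ X).card + F.card + ℓ) < k) :
    ∃ B ⊆ X, Disjoint B (F ∪ {El.p i (dst (f + h)), El.p i (dst (f - h))}) ∧
      CovT (Fill k w ℓ X) {s, s'} (insert (El.p i (dst (f + h))) B) ∧
      CovT (Fill k w ℓ X) {s, s'} (insert (El.p i (dst (f - h))) B) := by
  classical
  set e₀ := h.val.bodd with he₀
  obtain ⟨⟨j, hj⟩, ⟨j', hj'⟩⟩ := cs_wins C i e₀
  have hℓ : 11 ≤ ℓ := by have := hj.lo; have := hj.hi; omega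
  obtain ⟨n1, n2, n3, n4, n5, n6⟩ := cs_four hcard
  have Xf : El.p i (dst f) ∈ X := hX (by simp)
  have Xh : El.p i (dst h) ∈ X := hX (by simp)
  have Xc : El.p i (dst (f + h)) ∈ X := hX (by simp)
  have Xc' : El.p i (dst (f - h)) ∈ X := hX (by simp)
  obtain ⟨f0, fk⟩ := cs_ne (C.hX Xf)
  obtain ⟨h0, hk0⟩ := cs_ne (C.hX Xh)
  obtain ⟨c0, ck⟩ := cs_ne (C.hX Xc)
  obtain ⟨c0', ck'⟩ := cs_ne (C.hX Xc')
  have hh0 : 2 * h ≠ 0 := cs_two h0 hk0
  have fh1 : f ≠ h := fun h => n1 (by rw [h])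
  have fh2 : f ≠ -h := fun h => n1 (by rw [h, dst_neg])
  set G' : Finset El := F ∪ {El.p i (dst f), El.p i (dst h), El.p i (dst (f + h)),
      El.p i (dst (f - h))} with hG'
  set G : Finset El := (Uall k \ X) ∪ G' with hG
  have hGcard : G.card ≤ (U k \ X).card + F.card + 8 := by
    have e1 : G'.card ≤ F.card + 4 := by
      refine (card_union_le _ _).trans ?_
      rw [hcard]
    have e2 : (Uall k \ X).card ≤ (U k \ X).card + 4 := by
      have e3 : Uall k \ X ⊆ (U k \ X) ∪ {El.p false 0, El.p true 0, El.p false k, El.p true k} := by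
        intro x hx
        unfold Uall at hx
        simp only [mem_sdiff, mem_union] at hx ⊢
        tauto
      refine (card_le_card e3).trans ((card_union_le _ _).trans ?_)
      have := card_le_four (a := El.p false 0) (b := El.p true 0) (c := El.p false k)
        (d := El.p true k)
      omega
    have := card_union_le (Uall k \ X) G'
    rw [hG]
    omega
  -- the choice of `e`
  obtain ⟨e, epar, g1, g2, g3, g4, g5, g6⟩ := cs_choose_e i e₀ f h G
    {-f, h, -h, h - f, -h - f, 0, (k : ZMod (2 * k))} {f, f + (k : ZMod (2 * k))}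
    (by
      refine (card_insert_le _ _).trans ?_
      have := card_le_six (a := h) (b := -h) (c := h - f) (d := -h - f) (e := 0)
        (f := (k : ZMod (2 * k)))
      omega) card_le_two (by omega)
  simp only [mem_insert, mem_singleton, not_or] at g5 g6
  obtain ⟨e1, e2, e3, e4, e5, e6, e7⟩ := g5
  obtain ⟨e8, e9⟩ := g6
  obtain ⟨Xe, Ge⟩ := cs_Uall (cs_p_Uall i e) g1
  obtain ⟨Xef, Gef⟩ := cs_Uall (cs_p_Uall i (e + f)) g2
  obtain ⟨Xem, Gem⟩ := cs_Uall (cs_p_Uall i (e - h)) g3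
  obtain ⟨Xep, Gep⟩ := cs_Uall (cs_p_Uall i (e + h)) g4
  -- the choice of `a`
  obtain ⟨a, apar, a1, a2, a3, a4, a5, a6⟩ := cs_choose_a i e₀ (-e) f 0 e (-h) h G (by omega)
  simp only [add_zero, ← sub_eq_add_neg] at a1 a3 a5
  have hVU : ∀ P : Pt k, vtx P ∈ Uall k := fun P => by
    unfold Uall
    exact mem_union_left _ (vtx_mem_U P)
  obtain ⟨Y1, G1⟩ := cs_Uall (hVU _) a1
  obtain ⟨Y2, G2⟩ := cs_Uall (hVU _) a2
  obtain ⟨Y3, G3⟩ := cs_Uall (hVU _) a3
  obtain ⟨Y4, G4⟩ := cs_Uall (hVU _) a4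
  obtain ⟨YP, GP⟩ := cs_Uall (hVU _) a5
  obtain ⟨YQ, GQ⟩ := cs_Uall (hVU _) a6
  obtain ⟨he0, hek⟩ := cs_ne (C.hX Xe)
  obtain ⟨hef0, hefk⟩ := cs_ne (C.hX Xef)
  obtain ⟨hem0, hemk⟩ := cs_ne (C.hX Xem)
  obtain ⟨hep0, hepk⟩ := cs_ne (C.hX Xep)
  -- colours
  have k12 : col ((i, a - e) : Pt k) (i, a + f) = El.p i (dst (e + f)) :=
    cs_col i (Or.inr (by ring))
  have k23 : col ((i, a + f) : Pt k) (i, a) = El.p i (dst f) := cs_col i (Or.inl (by ring))
  have k34 : col ((i, a) : Pt k) (i, a + e) = El.p i (dst e) := cs_col i (Or.inr (by ring))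
  have k1P : col ((i, a - e) : Pt k) (i, a - h) = El.p i (dst (e - h)) :=
    cs_col i (Or.inr (by ring))
  have k2P : col ((i, a + f) : Pt k) (i, a - h) = El.p i (dst (f + h)) :=
    cs_col i (Or.inl (by ring))
  have kP3 : col ((i, a - h) : Pt k) (i, a) = El.p i (dst h) := cs_col i (Or.inr (by ring))
  have kP4 : col ((i, a - h) : Pt k) (i, a + e) = El.p i (dst (e + h)) :=
    cs_col i (Or.inr (by ring))
  have k1Q : col ((i, a - e) : Pt k) (i, a + h) = El.p i (dst (e + h)) :=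
    cs_col i (Or.inr (by ring))
  have k2Q : col ((i, a + f) : Pt k) (i, a + h) = El.p i (dst (f - h)) :=
    cs_col i (Or.inl (by ring))
  have kQ3 : col ((i, a + h) : Pt k) (i, a) = El.p i (dst h) := cs_col i (Or.inl (by ring))
  have kQ4 : col ((i, a + h) : Pt k) (i, a + e) = El.p i (dst (e - h)) :=
    cs_col i (Or.inr (by ring))
  -- vertices are different
  have v12 : vtx ((i, a - e) : Pt k) ≠ vtx (i, a + f) :=
    cs_vtx_ne i (d := e + f) (Or.inr (by ring)) hef0 hefk
  have v13 : vtx ((i, a - e) : Pt k) ≠ vtx (i, a) :=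
    cs_vtx_ne i (d := e) (Or.inr (by ring)) he0 hek
  have v14 : vtx ((i, a - e) : Pt k) ≠ vtx (i, a + e) :=
    cs_vtx_ne i (d := 2 * e) (Or.inr (by ring)) e6 e7
  have v1P : vtx ((i, a - e) : Pt k) ≠ vtx (i, a - h) :=
    cs_vtx_ne i (d := e - h) (Or.inr (by ring)) hem0 hemk
  have v1Q : vtx ((i, a - e) : Pt k) ≠ vtx (i, a + h) :=
    cs_vtx_ne i (d := e + h) (Or.inr (by ring)) hep0 hepk
  have v23 : vtx ((i, a + f) : Pt k) ≠ vtx (i, a) :=
    cs_vtx_ne i (d := f) (Or.inl (by ring)) f0 fk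
  have v24 : vtx ((i, a + f) : Pt k) ≠ vtx (i, a + e) :=
    cs_vtx_ne i (d := e - f) (Or.inr (by ring)) (fun h => e8 (by linear_combination h))
      (fun h => e9 (by linear_combination h))
  have v2P : vtx ((i, a + f) : Pt k) ≠ vtx (i, a - h) :=
    cs_vtx_ne i (d := f + h) (Or.inl (by ring)) c0 ck
  have v2Q : vtx ((i, a + f) : Pt k) ≠ vtx (i, a + h) :=
    cs_vtx_ne i (d := f - h) (Or.inl (by ring)) c0' ck'
  have v34 : vtx ((i, a) : Pt k) ≠ vtx (i, a + e) :=
    cs_vtx_ne i (d := e) (Or.inr (by ring)) he0 hek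
  have v3P : vtx ((i, a) : Pt k) ≠ vtx (i, a - h) :=
    cs_vtx_ne i (d := h) (Or.inl (by ring)) h0 hk0
  have v3Q : vtx ((i, a) : Pt k) ≠ vtx (i, a + h) :=
    cs_vtx_ne i (d := h) (Or.inr (by ring)) h0 hk0
  have v4P : vtx ((i, a + e) : Pt k) ≠ vtx (i, a - h) :=
    cs_vtx_ne i (d := e + h) (Or.inl (by ring)) hep0 hepk
  have v4Q : vtx ((i, a + e) : Pt k) ≠ vtx (i, a + h) :=
    cs_vtx_ne i (d := e - h) (Or.inl (by ring)) hem0 hemk
  have vPQ : vtx ((i, a - h) : Pt k) ≠ vtx (i, a + h) :=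
    cs_vtx_ne i (d := 2 * h) (Or.inr (by ring)) hh0 h2
  -- letters
  have L1 : ((i, a - e) : Pt k) ∈ Lset k (i, false) := by
    simp [Lset, val_sub_bodd, apar, epar]
  have L2 : ((i, a + f) : Pt k) ∈ Lset k (i, false) := by
    simp [Lset, val_add_bodd, apar, hpar]
  have L3 : ((i, a) : Pt k) ∈ Lset k (i, e₀) := by
    simp [Lset, apar]
  have L4 : ((i, a + e) : Pt k) ∈ Lset k (i, false) := by
    simp [Lset, val_add_bodd, apar, epar]
  have LP : ((i, a - h) : Pt k) ∈ Lset k (i, false) := by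
    simp [Lset, val_sub_bodd, apar, ← he₀]
  have LQ : ((i, a + h) : Pt k) ∈ Lset k (i, false) := by
    simp [Lset, val_add_bodd, apar, ← he₀]
  -- colours are different
  simp only [hG', mem_union, mem_insert, mem_singleton, not_or] at Ge Gef Gem Gep G1 G2 G3 G4 GP GQ
  have d13 : El.p i (dst (e + f)) ≠ El.p i (dst e) :=
    cs_p_ne i (fun h => f0 (by linear_combination h)) (fun h => e1 (by linear_combination h))
  have d14 : El.p i (dst (e + f)) ≠ El.p i (dst (e - h)) :=
    cs_p_ne i (fun h => fh2 (by linear_combination h)) (fun h => e4 (by linear_combination h))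
  have d15 : El.p i (dst (e + f)) ≠ El.p i (dst (e + h)) :=
    cs_p_ne i (fun h => fh1 (by linear_combination h)) (fun h => e5 (by linear_combination h))
  have d34 : El.p i (dst e) ≠ El.p i (dst (e - h)) :=
    cs_p_ne i (fun h => h0 (by linear_combination h)) (fun h => e2 (by linear_combination h))
  have d35 : El.p i (dst e) ≠ El.p i (dst (e + h)) :=
    cs_p_ne i (fun h => h0 (by linear_combination -h)) (fun h => e3 (by linear_combination h))
  have d45 : El.p i (dst (e - h)) ≠ El.p i (dst (e + h)) :=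
    cs_p_ne i (fun h => hh0 (by linear_combination -h)) (fun h => e6 (by linear_combination h))
  -- the abstract sets
  set V1 := vtx ((i, a - e) : Pt k) with hV1
  set V2 := vtx ((i, a + f) : Pt k) with hV2
  set V3 := vtx ((i, a) : Pt k) with hV3
  set V4 := vtx ((i, a + e) : Pt k) with hV4
  set VP := vtx ((i, a - h) : Pt k) with hVP
  set VQ := vtx ((i, a + h) : Pt k) with hVQ
  set E1 := El.p i (dst (e + f)) with hE1
  set E2 := El.p i (dst f) with hE2
  set E3 := El.p i (dst e) with hE3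
  set E4 := El.p i (dst (e - h)) with hE4
  set E5 := El.p i (dst (e + h)) with hE5
  set E6 := El.p i (dst h) with hE6
  set c := El.p i (dst (f + h)) with hc
  set c' := El.p i (dst (f - h)) with hc'
  have w0 : W0 ((i, a - e) : Pt k) (i, a + f) (i, a) (i, a + e) = {V1, V2, V3, V4, E1, E2, E3} := by
    unfold W0
    rw [k12, k23, k34]
  have wP : Wz ((i, a - e) : Pt k) (i, a + f) (i, a) (i, a + e) (i, a - h) =
      {VP, E4, c, E6, E5} := by
    unfold Wz
    rw [k1P, k2P, kP3, kP4]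
  have wQ : Wz ((i, a - e) : Pt k) (i, a + f) (i, a) (i, a + e) (i, a + h) =
      {VQ, E5, c', E6, E4} := by
    unfold Wz
    rw [k1Q, k2Q, kQ3, kQ4]
  have hvp : ∀ (P : Pt k) (n : ℕ), vtx P ≠ El.p i n := fun P n => by simp [vtx]
  have m23 : E2 ≠ E3 := Ne.symm Ge.2.1
  have m24 : E2 ≠ E4 := Ne.symm Gem.2.1
  have m25 : E2 ≠ E5 := Ne.symm Gep.2.1
  have mc5 : c ≠ E5 := Ne.symm Gep.2.2.2.1
  have m65 : E6 ≠ E5 := Ne.symm Gep.2.2.1
  have mc4 : c' ≠ E4 := Ne.symm Gem.2.2.2.2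
  have m64 : E6 ≠ E4 := Ne.symm Gem.2.2.1
  have cardP : (({V1, V2, V3, V4, E1, E2, E3} : Finset El) ∪ {VP, E4, c, E6, E5}).card = 12 := by
    refine cs_card12 ?_ ?_ ?_
    · simp [v12, v13, v14, v1P, v23, v24, v2P, v34, v3P, v4P]
    · simp [d13, d14, d15, d34, d35, d45, Gef, Ge, Gem, n1, n2, n4.symm, m23, m24, m25, mc5, m65]
    · intro v hv x hx
      have t1 : ∃ P : Pt k, v = vtx P := by
        simp only [List.mem_cons, List.not_mem_nil, or_false] at hv
        rcases hv with rfl | rfl | rfl | rfl | rfl <;> exact ⟨_, rfl⟩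
      have t2 : ∃ n, x = El.p i n := by
        simp only [List.mem_cons, List.not_mem_nil, or_false] at hx
        rcases hx with rfl | rfl | rfl | rfl | rfl | rfl | rfl <;> exact ⟨_, rfl⟩
      obtain ⟨P, rfl⟩ := t1
      obtain ⟨n, rfl⟩ := t2
      exact hvp P n
  have cardQ : (({V1, V2, V3, V4, E1, E2, E3} : Finset El) ∪ {VQ, E5, c', E6, E4}).card = 12 := by
    refine cs_card12 ?_ ?_ ?_
    · simp [v12, v13, v14, v1Q, v23, v24, v2Q, v34, v3Q, v4Q]
    · simp [d13, d14, d15, d34, d35, d45.symm, Gef, Ge, Gep, n1, n3, n5.symm, m23, m24, m25,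
        mc4, m64]
    · intro v hv x hx
      have t1 : ∃ P : Pt k, v = vtx P := by
        simp only [List.mem_cons, List.not_mem_nil, or_false] at hv
        rcases hv with rfl | rfl | rfl | rfl | rfl <;> exact ⟨_, rfl⟩
      have t2 : ∃ n, x = El.p i n := by
        simp only [List.mem_cons, List.not_mem_nil, or_false] at hx
        rcases hx with rfl | rfl | rfl | rfl | rfl | rfl | rfl <;> exact ⟨_, rfl⟩
      obtain ⟨P, rfl⟩ := t1
      obtain ⟨n, rfl⟩ := t2
      exact hvp P n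
  -- the filling of slot `s`
  have hsubP : (({V1, V2, V3, V4, E1, E2, E3} : Finset El) ∪ {VP, E4, c, E6, E5}) ⊆ X := by
    intro x hx
    simp only [mem_union, mem_insert, mem_singleton] at hx
    rcases hx with (rfl | rfl | rfl | rfl | rfl | rfl | rfl) | (rfl | rfl | rfl | rfl | rfl) <;>
      assumption
  have hsubQ : (({V1, V2, V3, V4, E1, E2, E3} : Finset El) ∪ {VQ, E5, c', E6, E4}) ⊆ X := by
    intro x hx
    simp only [mem_union, mem_insert, mem_singleton] at hx
    rcases hx with (rfl | rfl | rfl | rfl | rfl | rfl | rfl) | (rfl | rfl | rfl | rfl | rfl) <;>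
      assumption
  obtain ⟨Out, hOX, hOF, hOW, hOfill⟩ := slot_window C hs hj L1 L2 L3 L4
    {((i, a - h) : Pt k), (i, a + h)} (by
      intro z hz
      simp only [mem_insert, mem_singleton] at hz
      rcases hz with rfl | rfl
      · exact LP
      · exact LQ) (by simp) (card_le_two.trans (by norm_num)) (by
      intro z hz
      simp only [mem_insert, mem_singleton] at hz
      rcases hz with rfl | rfl
      · rw [w0, wP]; exact cardP
      · rw [w0, wQ]; exact cardQ) (by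
      intro z hz
      simp only [mem_insert, mem_singleton] at hz
      rcases hz with rfl | rfl
      · rw [w0, wP]; exact hsubP
      · rw [w0, wQ]; exact hsubQ) F (by omega)
  have oP := hOW (i, a - h) (by simp)
  have oQ := hOW (i, a + h) (by simp)
  have fP := hOfill (i, a - h) (by simp)
  have fQ := hOfill (i, a + h) (by simp)
  rw [w0, wP] at oP fP
  rw [w0, wQ] at oQ fQ
  set K : Finset El := {V1, V2, V3, V4, E1, E2, E3, E4, E5, E6} with hK
  have uP : (({V1, V2, V3, V4, E1, E2, E3} : Finset El) ∪ {VP, E4, c, E6, E5}) = K ∪ {VP, c} := by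
    ext x
    simp only [hK, mem_union, mem_insert, mem_singleton]
    apply iff_of_eq
    ac_rfl
  have uQ : (({V1, V2, V3, V4, E1, E2, E3} : Finset El) ∪ {VQ, E5, c', E6, E4}) =
      K ∪ {VQ, c'} := by
    ext x
    simp only [hK, mem_union, mem_insert, mem_singleton]
    apply iff_of_eq
    ac_rfl
  rw [uP] at oP fP cardP
  rw [uQ] at oQ fQ cardQ
  have hK10 : K.card ≤ 10 := by
    have e : K = [V1, V2, V3, V4, E1, E2, E3, E4, E5, E6].toFinset := by
      ext x
      simp [hK]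
    rw [e]
    exact List.toFinset_card_le _
  obtain ⟨q1, q2, q3⟩ := cs_notmem hK10 cardP
  obtain ⟨q4, q5, q6⟩ := cs_notmem hK10 cardQ
  have hKF : Disjoint K F := by
    rw [disjoint_left]
    intro x hx
    simp only [hK, mem_insert, mem_singleton] at hx
    rcases hx with rfl | rfl | rfl | rfl | rfl | rfl | rfl | rfl | rfl | rfl
    · exact G1.1
    · exact G2.1
    · exact G3.1
    · exact G4.1
    · exact Gef.1
    · exact hFf
    · exact Ge.1
    · exact Gem.1
    · exact Gep.1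
    · exact hFh
  set D : Finset El := Out ∪ K with hD
  have hA1 : Out ∪ (K ∪ {VP, c}) = D ∪ {VP, c} := by rw [hD, union_assoc]
  have hA2 : Out ∪ (K ∪ {VQ, c'}) = D ∪ {VQ, c'} := by rw [hD, union_assoc]
  rw [hA1] at fP
  rw [hA2] at fQ
  rw [disjoint_left] at oP oQ
  have hVPD : VP ∉ D := by
    rw [hD, mem_union, not_or]
    exact ⟨fun h => oP h (by simp), q1⟩
  have hcD : c ∉ D := by
    rw [hD, mem_union, not_or]
    exact ⟨fun h => oP h (by simp), q2⟩
  have hVQD : VQ ∉ D := by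
    rw [hD, mem_union, not_or]
    exact ⟨fun h => oQ h (by simp), q4⟩
  have hcD' : c' ∉ D := by
    rw [hD, mem_union, not_or]
    exact ⟨fun h => oQ h (by simp), q5⟩
  have hDcard : D.card ≤ 3 * ℓ := by
    have e1 := Fill.card_eq (by omega) fP
    have e2 := card_le_card (subset_union_left (s₁ := D) (s₂ := {VP, c}))
    omega
  have hDX : D ⊆ X := by
    obtain ⟨y, _, _, _, hyX⟩ := fP
    exact subset_union_left.trans hyX
  have hF2 : (F ∪ {c, c'} ∪ D).card ≤ F.card + 2 + 3 * ℓ := by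
    have e1 := card_union_le (F ∪ {c, c'}) D
    have e2 := card_union_le F {c, c'}
    have e3 := card_le_two (a := c) (b := c')
    omega
  obtain ⟨BV, hBVX, hBVd, b1, b2⟩ := vswap C hs' hj' LP LQ vPQ YP YQ (F ∪ {c, c'} ∪ D)
    (by omega)
  obtain ⟨r1, r2⟩ := cs_final (c' := c') hVQD vPQ GQ.2.2.2.1 hBVd
  obtain ⟨r3, r4⟩ := cs_final' (c := c) hVPD vPQ GP.2.2.2.2 hBVd
  refine ⟨D ∪ BV ∪ {VP, VQ}, ?_, ?_, cs_covT hss fP b2 r1 r2, cs_covT hss fQ b1 r3 r4⟩
  · intro x hx
    simp only [mem_union, mem_insert, mem_singleton] at hx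
    rcases hx with (h | h) | rfl | rfl
    · exact hDX h
    · exact hBVX h
    · exact YP
    · exact YQ
  · rw [disjoint_left]
    intro x hx hx'
    simp only [mem_union, mem_insert, mem_singleton] at hx hx'
    rcases hx with (h | h) | rfl | rfl
    · rcases hx' with h' | rfl | rfl
      · rcases mem_union.1 h with h | h
        · exact disjoint_left.1 hOF h h'
        · exact disjoint_left.1 hKF h h'
      · exact hcD h
      · exact hcD' h
    · rw [disjoint_left] at hBVd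
      apply hBVd h
      simp only [mem_union, mem_insert, mem_singleton]
      exact Or.inl (Or.inl hx')
    · rcases hx' with h' | h' | h'
      · exact GP.1 h'
      · exact GP.2.2.2.1 h'
      · exact GP.2.2.2.2 h'
    · rcases hx' with h' | h' | h'
      · exact GQ.1 h'
      · exact GQ.2.2.2.1 h'
      · exact GQ.2.2.2.2 h'

end SqCyc
end

section

/-! # GD-4 colour fan -/

open Finset

namespace SqCyc

variable {k : ℕ} [NeZero k] {ℓ m : ℕ} {w : ℕ → Letter} {X : Finset El}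

omit [NeZero k] in
private lemma gd4_memU {i : Bool} {d : ℕ} (h : El.p i d ∈ U k) : 1 ≤ d ∧ d < k := by
  unfold U at h
  simp only [mem_union, mem_image, mem_product, mem_univ, true_and, mem_range, mem_Ico] at h
  rcases h with (⟨q, _, h⟩ | ⟨q, hq, h⟩) | ⟨q, _, h⟩
  · cases h
  · injection h with h1 h2
    omega
  · cases h

/-- half of a colour -/
private def gd4_half (k : ℕ) : El → ZMod (2 * k)
  | El.p _ d => ((d / 2 : ℕ) : ZMod (2 * k))
  | _ => 0

private lemma gd4_even {d : ℕ} (h : d.bodd = false) : d / 2 + d / 2 = d := by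
  have h1 := Nat.bodd_add_div2 d
  rw [h, Nat.div2_val] at h1
  simp only [Bool.toNat_false, zero_add] at h1
  omega

private lemma gd4_half_add {i : Bool} {d : ℕ} (hd : d.bodd = false) (hdk : d < k) :
    dst (gd4_half k (El.p i d) + gd4_half k (El.p i d)) = d := by
  unfold gd4_half
  rw [← Nat.cast_add, gd4_even hd]
  exact dst_natCast hdk.le

omit [NeZero k] in
private lemma gd4_half_ne {i i' : Bool} {d d' : ℕ} (hd : d.bodd = false) (hdk : d < k)
    (hd1 : 1 ≤ d) (hdk' : d' < k) :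
    gd4_half k (El.p i d) ≠ - gd4_half k (El.p i' d') := by
  intro h
  rw [eq_neg_iff_add_eq_zero] at h
  unfold gd4_half at h
  rw [← Nat.cast_add, ZMod.natCast_eq_zero_iff] at h
  have h1 := gd4_even hd
  have h2 := Nat.le_of_dvd (by omega) h
  omega

omit [NeZero k] in
private lemma gd4_half_inj {i : Bool} {d d' : ℕ} (hd : d.bodd = false) (hdk : d < k)
    (hd' : d'.bodd = false) (hdk' : d' < k)
    (h : gd4_half k (El.p i d) = gd4_half k (El.p i d')) : d = d' := by
  unfold gd4_half at h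
  rw [ZMod.natCast_eq_natCast_iff', Nat.mod_eq_of_lt (by omega), Nat.mod_eq_of_lt (by omega)] at h
  have h1 := gd4_even hd
  have h2 := gd4_even hd'
  omega

/-- the affine forms used -/
private def gd4_forms (Γ : Finset El) (a : El → ZMod (2 * k)) : Finset (ℤ × ZMod (2 * k)) :=
  (Γ.image (fun c => ((1 : ℤ), a c)) ∪ Γ.image (fun c => ((-1 : ℤ), a c))) ∪ {((2 : ℤ), 0)}

omit [NeZero k] in
private lemma gd4_forms_card (Γ : Finset El) (a : El → ZMod (2 * k)) (h : Γ.card ≤ 40) :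
    (gd4_forms Γ a).card ≤ 81 := by
  unfold gd4_forms
  have h1 : (Γ.image (fun c => ((1 : ℤ), a c))).card ≤ Γ.card := card_image_le
  have h2 : (Γ.image (fun c => ((-1 : ℤ), a c))).card ≤ Γ.card := card_image_le
  have h3 := card_union_le (Γ.image (fun c => ((1 : ℤ), a c)) ∪
    Γ.image (fun c => ((-1 : ℤ), a c))) {((2 : ℤ), (0 : ZMod (2 * k)))}
  have h4 := card_union_le (Γ.image (fun c => ((1 : ℤ), a c)))
    (Γ.image (fun c => ((-1 : ℤ), a c)))
  rw [card_singleton] at h3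
  omega

omit [NeZero k] in
private lemma gd4_forms_mem {Γ : Finset El} {a : El → ZMod (2 * k)} {φ : ℤ × ZMod (2 * k)}
    (h : φ ∈ gd4_forms Γ a) :
    (φ.1 = 1 ∧ ∃ c ∈ Γ, φ.2 = a c) ∨ (φ.1 = -1 ∧ ∃ c ∈ Γ, φ.2 = a c) ∨
      (φ.1 = 2 ∧ φ.2 = 0) := by
  unfold gd4_forms at h
  simp only [mem_union, mem_image, mem_singleton] at h
  rcases h with (⟨c, hc, rfl⟩ | ⟨c, hc, rfl⟩) | rfl
  · exact Or.inl ⟨rfl, c, hc, rfl⟩
  · exact Or.inr (Or.inl ⟨rfl, c, hc, rfl⟩)
  · exact Or.inr (Or.inr ⟨rfl, rfl⟩)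

private lemma gd4_choose (Γ : Finset El) (a : El → ZMod (2 * k)) (i : Bool) (G : Finset El)
    (hΓ40 : Γ.card ≤ 40) (ha : ∀ c ∈ Γ, ∀ c' ∈ Γ, a c ≠ - a c')
    (hk : 324 * G.card + 27000 < k) :
    ∃ t : ZMod (2 * k),
      (∀ φ ∈ gd4_forms Γ a, El.p i (dst ((φ.1 : ZMod (2 * k)) * t + φ.2)) ∉ G) ∧
      (∀ φ ∈ gd4_forms Γ a, ∀ φ' ∈ gd4_forms Γ a, φ ≠ φ' →
        dst ((φ.1 : ZMod (2 * k)) * t + φ.2) ≠ dst ((φ'.1 : ZMod (2 * k)) * t + φ'.2)) ∧
      (∀ c ∈ Γ, 2 * (a c - t) ≠ (k : ZMod (2 * k))) := by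
  classical
  set L := Lset k (false, false) with hL
  set Φ := gd4_forms Γ a with hΦ
  have hΦ81 : Φ.card ≤ 81 := gd4_forms_card Γ a hΓ40
  set B1 := Φ.biUnion (fun φ => L.filter
    (fun z => El.p i (dst ((φ.1 : ZMod (2 * k)) * z.2 + φ.2)) ∈ G)) with hB1
  set B2 := Φ.offDiag.biUnion (fun q => L.filter
    (fun z => dst ((q.1.1 : ZMod (2 * k)) * z.2 + q.1.2)
      = dst ((q.2.1 : ZMod (2 * k)) * z.2 + q.2.2))) with hB2
  set B3 := Γ.biUnion (fun c => L.filter
    (fun z => ((-2 : ℤ) : ZMod (2 * k)) * z.2 = (k : ZMod (2 * k)) - 2 * a c)) with hB3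
  have c1 : B1.card ≤ Φ.card * (4 * G.card) := by
    refine card_biUnion_le_card_mul _ _ _ ?_
    intro φ hφ
    rcases gd4_forms_mem hφ with ⟨h1, -⟩ | ⟨h1, -⟩ | ⟨h1, -⟩
    · refine (card_p_aff (false, false) i φ.1 (by rw [h1]; norm_num) φ.2 G).trans ?_
      rw [h1]
      have : (1 : ℤ).natAbs = 1 := rfl
      rw [this]
      omega
    · refine (card_p_aff (false, false) i φ.1 (by rw [h1]; norm_num) φ.2 G).trans ?_
      rw [h1]
      have : (-1 : ℤ).natAbs = 1 := rfl
      rw [this]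
      omega
    · refine (card_p_aff (false, false) i φ.1 (by rw [h1]; norm_num) φ.2 G).trans ?_
      rw [h1]
      have : (2 : ℤ).natAbs = 2 := rfl
      rw [this]
  have c2 : B2.card ≤ Φ.offDiag.card * 4 := by
    refine card_biUnion_le_card_mul _ _ _ ?_
    intro q hq
    rw [mem_offDiag] at hq
    obtain ⟨hq1, hq2, hq3⟩ := hq
    have e1 : q.1.1 ≠ q.2.1 ∨ q.1.2 ≠ q.2.2 := by
      by_contra hcon
      push Not at hcon
      exact hq3 (Prod.ext hcon.1 hcon.2)
    have e2 : q.1.1 ≠ - q.2.1 ∨ q.1.2 ≠ - q.2.2 := by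
      rcases gd4_forms_mem hq1 with ⟨h1, c, hc, h1'⟩ | ⟨h1, c, hc, h1'⟩ | ⟨h1, h1'⟩ <;>
      rcases gd4_forms_mem hq2 with ⟨h2, c', hc', h2'⟩ | ⟨h2, c', hc', h2'⟩ | ⟨h2, h2'⟩
      · left; rw [h1, h2]; norm_num
      · right; rw [h1', h2']; exact ha c hc c' hc'
      · left; rw [h1, h2]; norm_num
      · right; rw [h1', h2']; exact ha c hc c' hc'
      · left; rw [h1, h2]; norm_num
      · left; rw [h1, h2]; norm_num
      · left; rw [h1, h2]; norm_num
      · left; rw [h1, h2]; norm_num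
      · left; rw [h1, h2]; norm_num
    refine (card_dst_eq (false, false) q.1.1 q.2.1 q.1.2 q.2.2 e1 e2).trans ?_
    rcases gd4_forms_mem hq1 with ⟨h1, -⟩ | ⟨h1, -⟩ | ⟨h1, -⟩ <;>
    rcases gd4_forms_mem hq2 with ⟨h2, -⟩ | ⟨h2, -⟩ | ⟨h2, -⟩ <;>
    rw [h1, h2] <;> decide
  have c3 : B3.card ≤ Γ.card * 2 := by
    refine card_biUnion_le_card_mul _ _ _ ?_
    intro c _
    exact card_lin (false, false) (-2) (by norm_num) _
  have hcard : ((B1 ∪ B2) ∪ B3).card < L.card := by
    rw [hL, card_Lset]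
    have h1 := card_union_le (B1 ∪ B2) B3
    have h2 := card_union_le B1 B2
    have h3 : Φ.offDiag.card ≤ 81 * 80 := by
      rw [offDiag_card]
      have : Φ.card * Φ.card - Φ.card = Φ.card * (Φ.card - 1) := by
        rw [Nat.mul_sub, Nat.mul_one]
      rw [this]
      exact Nat.mul_le_mul hΦ81 (by omega)
    have h4 : Φ.card * (4 * G.card) ≤ 81 * (4 * G.card) := Nat.mul_le_mul_right _ hΦ81
    omega
  obtain ⟨z, hzL, hz⟩ := exists_mem_notMem_of_card_lt_card hcard
  simp only [mem_union, not_or] at hz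
  obtain ⟨⟨z1, z2⟩, z3⟩ := hz
  refine ⟨z.2, ?_, ?_, ?_⟩
  · intro φ hφ hcon
    exact z1 (mem_biUnion.2 ⟨φ, hφ, mem_filter.2 ⟨hzL, hcon⟩⟩)
  · intro φ hφ φ' hφ' hne hcon
    exact z2 (mem_biUnion.2 ⟨(φ, φ'), mem_offDiag.2 ⟨hφ, hφ', hne⟩, mem_filter.2 ⟨hzL, hcon⟩⟩)
  · intro c hc hcon
    refine z3 (mem_biUnion.2 ⟨c, hc, mem_filter.2 ⟨hzL, ?_⟩⟩)
    rw [← hcon]
    push_cast
    ring

private lemma gd4_p_mem_Uall (i : Bool) (a : ZMod (2 * k)) : El.p i (dst a) ∈ Uall k := by
  have h := col_mem_Uall ((i, a) : Pt k) ((i, 0) : Pt k)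
  rw [col_same (P := ((i, a) : Pt k)) (Q := ((i, 0) : Pt k)) rfl] at h
  simpa using h

omit [NeZero k] in
private lemma gd4_card_Uall : (Uall k \ X).card ≤ (U k \ X).card + 4 := by
  unfold Uall
  rw [union_sdiff_distrib]
  refine (card_union_le _ _).trans (Nat.add_le_add_left ?_ _)
  exact (card_le_card sdiff_subset).trans card_le_four

/-- induction over the colours of the fan -/
private lemma gd4_step (C : Ctx k ℓ w m X) (i : Bool) (Γ : Finset El) (a : El → ZMod (2 * k))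
    (t : ZMod (2 * k)) (F : Finset El) (Sl : Finset ℕ) (hSl : Sl ⊆ range m)
    (hSl80 : 80 ≤ Sl.card) (hΓ40 : Γ.card ≤ 40) (hΓX : Γ ⊆ X)
    (hk : 10 ^ 7 * ((U k \ X).card + F.card + ℓ) < k)
    (hac : ∀ c ∈ Γ, El.p i (dst (a c + a c)) = c)
    (hinj : ∀ c ∈ Γ, ∀ c' ∈ Γ, a c = a c' → c = c')
    (h2k : ∀ c ∈ Γ, 2 * (a c - t) ≠ (k : ZMod (2 * k)))
    (hne : ∀ φ ∈ gd4_forms Γ a, ∀ φ' ∈ gd4_forms Γ a, φ ≠ φ' →
        dst ((φ.1 : ZMod (2 * k)) * t + φ.2) ≠ dst ((φ'.1 : ZMod (2 * k)) * t + φ'.2))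
    (hEX : ∀ φ ∈ gd4_forms Γ a, El.p i (dst ((φ.1 : ZMod (2 * k)) * t + φ.2)) ∈ X)
    (hEF : ∀ φ ∈ gd4_forms Γ a, El.p i (dst ((φ.1 : ZMod (2 * k)) * t + φ.2)) ∉ F)
    (hEΓ : ∀ φ ∈ gd4_forms Γ a, El.p i (dst ((φ.1 : ZMod (2 * k)) * t + φ.2)) ∉ Γ)
    (Γ' : Finset El) (hΓ' : Γ' ⊆ Γ) :
    ∃ (T : El → Finset ℕ) (B : El → Finset El),
      (∀ c ∈ Γ', T c ⊆ Sl ∧ (T c).card ≤ 2 ∧ B c ⊆ X ∧ (B c).card ≤ 6 * ℓ ∧
        Disjoint (B c) (F ∪ Γ ∪ {El.p i (dst (2 * t))} ∪
          ((gd4_forms Γ a).image (fun φ => El.p i (dst ((φ.1 : ZMod (2 * k)) * t + φ.2))) \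
            {El.p i (dst (a c + t)), El.p i (dst (a c - t))})) ∧
        CovT (Fill k w ℓ X) (T c) (insert c (B c)) ∧
        CovT (Fill k w ℓ X) (T c) (insert (El.p i (dst (2 * t))) (B c))) ∧
      (∀ c ∈ Γ', ∀ c' ∈ Γ', c ≠ c' → Disjoint (T c) (T c') ∧ Disjoint (B c) (B c')) := by
  classical
  set E := (gd4_forms Γ a).image (fun φ => El.p i (dst ((φ.1 : ZMod (2 * k)) * t + φ.2))) with hE
  have hEcard : E.card ≤ 81 := card_image_le.trans (gd4_forms_card Γ a hΓ40)
  have hℓ : 11 ≤ ℓ := by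
    obtain ⟨i₀, hi⟩ := C.wins.AA
    have := hi.lo
    have := hi.hi
    omega
  -- forms
  have mf : ∀ c ∈ Γ, ((1 : ℤ), a c) ∈ gd4_forms Γ a := fun c hc =>
    mem_union_left _ (mem_union_left _ (mem_image.2 ⟨c, hc, rfl⟩))
  have mh : ∀ c ∈ Γ, ((-1 : ℤ), a c) ∈ gd4_forms Γ a := fun c hc =>
    mem_union_left _ (mem_union_right _ (mem_image.2 ⟨c, hc, rfl⟩))
  have ml : ((2 : ℤ), (0 : ZMod (2 * k))) ∈ gd4_forms Γ a :=
    mem_union_right _ (mem_singleton_self _)
  have ef : ∀ c, (((1 : ℤ) : ZMod (2 * k)) * t + a c) = a c + t := fun c => by push_cast; ring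
  have eh : ∀ c, (((-1 : ℤ) : ZMod (2 * k)) * t + a c) = a c - t := fun c => by push_cast; ring
  have el : (((2 : ℤ) : ZMod (2 * k)) * t + 0) = 2 * t := by push_cast; ring
  have fX : ∀ c ∈ Γ, El.p i (dst (a c + t)) ∈ X := fun c hc => by
    have := hEX _ (mf c hc); simpa only [ef] using this
  have hX' : ∀ c ∈ Γ, El.p i (dst (a c - t)) ∈ X := fun c hc => by
    have := hEX _ (mh c hc); simpa only [eh] using this
  have lX : El.p i (dst (2 * t)) ∈ X := by
    have := hEX _ ml; simpa only [el] using this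
  have fF : ∀ c ∈ Γ, El.p i (dst (a c + t)) ∉ F := fun c hc => by
    have := hEF _ (mf c hc); simpa only [ef] using this
  have hF' : ∀ c ∈ Γ, El.p i (dst (a c - t)) ∉ F := fun c hc => by
    have := hEF _ (mh c hc); simpa only [eh] using this
  have fΓ : ∀ c ∈ Γ, El.p i (dst (a c + t)) ∉ Γ := fun c hc => by
    have := hEΓ _ (mf c hc); simpa only [ef] using this
  have hΓ'' : ∀ c ∈ Γ, El.p i (dst (a c - t)) ∉ Γ := fun c hc => by
    have := hEΓ _ (mh c hc); simpa only [eh] using this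
  have lΓ : El.p i (dst (2 * t)) ∉ Γ := by
    have := hEΓ _ ml; simpa only [el] using this
  have fE : ∀ c ∈ Γ, El.p i (dst (a c + t)) ∈ E := fun c hc => by
    rw [hE]; exact mem_image.2 ⟨_, mf c hc, by simp only [ef]⟩
  have hE' : ∀ c ∈ Γ, El.p i (dst (a c - t)) ∈ E := fun c hc => by
    rw [hE]; exact mem_image.2 ⟨_, mh c hc, by simp only [eh]⟩
  have ne_fl : ∀ c ∈ Γ, El.p i (dst (a c + t)) ≠ El.p i (dst (2 * t)) := fun c hc h => by
    injection h with _ h
    refine hne _ (mf c hc) _ ml (fun h' => by injection h' with h' _; norm_num at h') ?_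
    simpa only [ef, el] using h
  have ne_hl : ∀ c ∈ Γ, El.p i (dst (a c - t)) ≠ El.p i (dst (2 * t)) := fun c hc h => by
    injection h with _ h
    refine hne _ (mh c hc) _ ml (fun h' => by injection h' with h' _; norm_num at h') ?_
    simpa only [eh, el] using h
  have ne_fh : ∀ c ∈ Γ, ∀ c' ∈ Γ, El.p i (dst (a c + t)) ≠ El.p i (dst (a c' - t)) :=
    fun c hc c' hc' h => by
    injection h with _ h
    refine hne _ (mf c hc) _ (mh c' hc') (fun h' => by injection h' with h' _; norm_num at h') ?_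
    simpa only [ef, eh] using h
  have ne_ff : ∀ c ∈ Γ, ∀ c' ∈ Γ, c ≠ c' →
      El.p i (dst (a c + t)) ≠ El.p i (dst (a c' + t)) :=
    fun c hc c' hc' hcc h => by
    injection h with _ h
    refine hne _ (mf c hc) _ (mf c' hc')
      (fun h' => hcc (hinj c hc c' hc' (by injection h' with _ h'))) ?_
    simpa only [ef] using h
  have ne_hh : ∀ c ∈ Γ, ∀ c' ∈ Γ, c ≠ c' →
      El.p i (dst (a c - t)) ≠ El.p i (dst (a c' - t)) :=
    fun c hc c' hc' hcc h => by
    injection h with _ h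
    refine hne _ (mh c hc) _ (mh c' hc')
      (fun h' => hcc (hinj c hc c' hc' (by injection h' with _ h'))) ?_
    simpa only [eh] using h
  induction Γ' using Finset.induction_on with
  | empty => exact ⟨fun _ => ∅, fun _ => ∅, by simp, by simp⟩
  | insert c Γ' hc IH =>
    obtain ⟨T, B, h1, h2⟩ := IH ((subset_insert c Γ').trans hΓ')
    have hcΓ : c ∈ Γ := hΓ' (mem_insert_self c Γ')
    have hΓ'Γ : Γ' ⊆ Γ := (subset_insert c Γ').trans hΓ'
    have hcard' : Γ'.card + 1 ≤ 40 := by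
      rw [← card_insert_of_notMem hc]
      exact (card_le_card hΓ').trans hΓ40
    -- slots
    have hu : (Γ'.biUnion T).card ≤ Γ'.card * 2 :=
      card_biUnion_le_card_mul _ _ _ (fun c' hc' => (h1 c' hc').2.1)
    have hfree : 1 < (Sl \ Γ'.biUnion T).card := by
      have := le_card_sdiff (Γ'.biUnion T) Sl
      omega
    obtain ⟨s, hs, s', hs', hss⟩ := one_lt_card.1 hfree
    rw [mem_sdiff] at hs hs'
    -- forbidden set
    set Fc := (F ∪ Γ ∪ {El.p i (dst (2 * t))} ∪ (E \ {El.p i (dst (a c + t)),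
      El.p i (dst (a c - t))})) ∪ Γ'.biUnion B with hFc
    have hBu : (Γ'.biUnion B).card ≤ Γ'.card * (6 * ℓ) :=
      card_biUnion_le_card_mul _ _ _ (fun c' hc' => (h1 c' hc').2.2.2.1)
    have hFcard : Fc.card ≤ F.card + 40 + 1 + 81 + 39 * (6 * ℓ) := by
      have e1 := card_union_le (F ∪ Γ ∪ {El.p i (dst (2 * t))} ∪ (E \ {El.p i (dst (a c + t)),
        El.p i (dst (a c - t))})) (Γ'.biUnion B)
      have e2 := card_union_le (F ∪ Γ ∪ {El.p i (dst (2 * t))}) (E \ {El.p i (dst (a c + t)),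
        El.p i (dst (a c - t))})
      have e3 := card_union_le (F ∪ Γ) {El.p i (dst (2 * t))}
      have e4 := card_union_le F Γ
      have e5 : (E \ {El.p i (dst (a c + t)), El.p i (dst (a c - t))}).card ≤ E.card :=
        card_le_card sdiff_subset
      have e6 : Γ'.card * (6 * ℓ) ≤ 39 * (6 * ℓ) := Nat.mul_le_mul_right _ (by omega)
      rw [card_singleton] at e3
      rw [hFc]
      omega
    have hBf : ∀ c' ∈ Γ', El.p i (dst (a c + t)) ∉ B c' := fun c' hc' hmem => by
      have hcc : c ≠ c' := fun h => hc (h ▸ hc')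
      have hc'Γ := hΓ'Γ hc'
      refine disjoint_left.1 (h1 c' hc').2.2.2.2.1 hmem (mem_union_right _ ?_)
      rw [mem_sdiff, mem_insert, mem_singleton, not_or]
      exact ⟨fE c hcΓ, ne_ff c hcΓ c' hc'Γ hcc, ne_fh c hcΓ c' hc'Γ⟩
    have hBh : ∀ c' ∈ Γ', El.p i (dst (a c - t)) ∉ B c' := fun c' hc' hmem => by
      have hcc : c ≠ c' := fun h => hc (h ▸ hc')
      have hc'Γ := hΓ'Γ hc'
      refine disjoint_left.1 (h1 c' hc').2.2.2.2.1 hmem (mem_union_right _ ?_)
      rw [mem_sdiff, mem_insert, mem_singleton, not_or]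
      exact ⟨hE' c hcΓ, (ne_fh c' hc'Γ c hcΓ).symm, ne_hh c hcΓ c' hc'Γ hcc⟩
    have hFf : El.p i (dst (a c + t)) ∉ Fc := by
      rw [hFc]
      intro hmem
      rcases mem_union.1 hmem with hmem | hmem
      · rcases mem_union.1 hmem with hmem | hmem
        · rcases mem_union.1 hmem with hmem | hmem
          · rcases mem_union.1 hmem with hmem | hmem
            · exact fF c hcΓ hmem
            · exact fΓ c hcΓ hmem
          · exact ne_fl c hcΓ (mem_singleton.1 hmem)
        · exact (mem_sdiff.1 hmem).2 (mem_insert_self _ _)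
      · obtain ⟨c', hc', hmem⟩ := mem_biUnion.1 hmem
        exact hBf c' hc' hmem
    have hFh : El.p i (dst (a c - t)) ∉ Fc := by
      rw [hFc]
      intro hmem
      rcases mem_union.1 hmem with hmem | hmem
      · rcases mem_union.1 hmem with hmem | hmem
        · rcases mem_union.1 hmem with hmem | hmem
          · rcases mem_union.1 hmem with hmem | hmem
            · exact hF' c hcΓ hmem
            · exact hΓ'' c hcΓ hmem
          · exact ne_hl c hcΓ (mem_singleton.1 hmem)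
        · exact (mem_sdiff.1 hmem).2 (mem_insert_of_mem (mem_singleton_self _))
      · obtain ⟨c', hc', hmem⟩ := mem_biUnion.1 hmem
        exact hBh c' hc' hmem
    have e_sum : a c + t + (a c - t) = a c + a c := by ring
    have e_dif : a c + t - (a c - t) = 2 * t := by ring
    have hcp := hac c hcΓ
    have hcX := hΓX hcΓ
    have key := cswap C (mem_range.1 (hSl hs.1)) (mem_range.1 (hSl hs'.1)) hss i (a c + t)
      (a c - t) (by rw [val_add_bodd, val_sub_bodd]) (h2k c hcΓ)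
      (by
        rw [e_sum, e_dif, hcp]
        intro x hx
        simp only [mem_insert, mem_singleton] at hx
        rcases hx with rfl | rfl | rfl | rfl
        · exact fX c hcΓ
        · exact hX' c hcΓ
        · exact hcX
        · exact lX)
      (by
        rw [e_sum, e_dif, hcp]
        have n1 : El.p i (dst (a c + t)) ≠ El.p i (dst (a c - t)) := ne_fh c hcΓ c hcΓ
        have n2 : El.p i (dst (a c + t)) ≠ c := fun h => fΓ c hcΓ (h.symm ▸ hcΓ)
        have n3 := ne_fl c hcΓ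
        have n4 : El.p i (dst (a c - t)) ≠ c := fun h => hΓ'' c hcΓ (h.symm ▸ hcΓ)
        have n5 := ne_hl c hcΓ
        have n6 : c ≠ El.p i (dst (2 * t)) := fun h => lΓ (h ▸ hcΓ)
        rw [card_insert_of_notMem, card_insert_of_notMem, card_insert_of_notMem,
          card_singleton]
        · simpa using n6
        · simp only [mem_insert, mem_singleton, not_or]; exact ⟨n4, n5⟩
        · simp only [mem_insert, mem_singleton, not_or]; exact ⟨n1, n2, n3⟩)
      Fc hFf hFh (by omega)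
    rw [e_sum, e_dif, hcp] at key
    obtain ⟨Bc, hBX, hBdisj, cov1, cov2⟩ := key
    have hBcard : Bc.card ≤ 6 * ℓ := by
      have h3 := (covT_card (by omega) cov1).1
      have h4 : Bc.card ≤ (insert c Bc).card := card_le_card (subset_insert _ _)
      have h5 : ({s, s'} : Finset ℕ).card ≤ 2 := card_le_two
      have h6 : 3 * ℓ * ({s, s'} : Finset ℕ).card ≤ 3 * ℓ * 2 := Nat.mul_le_mul_left _ h5
      omega
    have hBc' := (disjoint_union_right.1 hBdisj).1
    rw [hFc] at hBc'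
    have hBc1 := (disjoint_union_right.1 hBc').1
    have hBc2 := (disjoint_union_right.1 hBc').2
    refine ⟨Function.update T c {s, s'}, Function.update B c Bc, ?_, ?_⟩
    · intro c' hc'
      rcases mem_insert.1 hc' with rfl | hc'
      · rw [Function.update_self, Function.update_self]
        refine ⟨?_, card_le_two, hBX, hBcard, hBc1, cov1, cov2⟩
        intro u hu
        rcases mem_insert.1 hu with rfl | hu
        · exact hs.1
        · rw [mem_singleton.1 hu]; exact hs'.1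
      · have hcc : c' ≠ c := fun h => hc (h ▸ hc')
        rw [Function.update_of_ne hcc, Function.update_of_ne hcc]
        exact h1 c' hc'
    · have hnew : ∀ c' ∈ Γ', Disjoint ({s, s'} : Finset ℕ) (T c') ∧ Disjoint Bc (B c') := by
        intro c' hc'
        constructor
        · rw [disjoint_left]
          intro u hu hu'
          rcases mem_insert.1 hu with rfl | hu
          · exact hs.2 (mem_biUnion.2 ⟨c', hc', hu'⟩)
          · rw [mem_singleton.1 hu] at hu'
            exact hs'.2 (mem_biUnion.2 ⟨c', hc', hu'⟩)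
        · exact (disjoint_biUnion_right _ _ _).1 hBc2 c' hc'
      intro c1 hc1 c2 hc2 hcc
      rcases mem_insert.1 hc1 with g1 | g1
      · rcases mem_insert.1 hc2 with g2 | g2
        · exact absurd (g1.trans g2.symm) hcc
        · have n2 : c2 ≠ c := fun h => hc (h ▸ g2)
          rw [g1, Function.update_self, Function.update_self, Function.update_of_ne n2,
            Function.update_of_ne n2]
          exact hnew c2 g2
      · rcases mem_insert.1 hc2 with g2 | g2
        · have n1 : c1 ≠ c := fun h => hc (h ▸ g1)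
          rw [g2, Function.update_self, Function.update_self, Function.update_of_ne n1,
            Function.update_of_ne n1]
          exact ⟨(hnew c1 g1).1.symm, (hnew c1 g1).2.symm⟩
        · have n1 : c1 ≠ c := fun h => hc (h ▸ g1)
          have n2 : c2 ≠ c := fun h => hc (h ▸ g2)
          rw [Function.update_of_ne n1, Function.update_of_ne n2, Function.update_of_ne n1,
            Function.update_of_ne n2]
          exact h2 c1 g1 c2 g2 hcc

theorem fan (C : Ctx k ℓ w m X) (i : Bool) (Γ : Finset El) (hΓX : Γ ⊆ X)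
    (hΓ : ∀ c ∈ Γ, ∃ d, c = El.p i d ∧ d.bodd = false) (hΓ40 : Γ.card ≤ 40)
    (F : Finset El) (Sl : Finset ℕ) (hSl : Sl ⊆ range m) (hSl80 : 80 ≤ Sl.card)
    (hk : 10 ^ 7 * ((U k \ X).card + F.card + ℓ) < k) :
    ∃ lam ∈ X, lam ∉ F ∧ lam ∉ Γ ∧ ∃ (T : El → Finset ℕ) (B : El → Finset El),
      (∀ c ∈ Γ, T c ⊆ Sl ∧ (T c).card ≤ 2 ∧ B c ⊆ X ∧ Disjoint (B c) (F ∪ Γ ∪ {lam}) ∧
        CovT (Fill k w ℓ X) (T c) (insert c (B c)) ∧
        CovT (Fill k w ℓ X) (T c) (insert lam (B c))) ∧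
      (∀ c ∈ Γ, ∀ c' ∈ Γ, c ≠ c' → Disjoint (T c) (T c') ∧ Disjoint (B c) (B c')) := by
  classical
  have hℓ : 11 ≤ ℓ := by
    obtain ⟨i₀, hi⟩ := C.wins.AA
    have := hi.lo
    have := hi.hi
    omega
  have hd : ∀ c ∈ Γ, ∃ d, c = El.p i d ∧ d.bodd = false ∧ 1 ≤ d ∧ d < k := by
    intro c hc
    obtain ⟨d, rfl, hd⟩ := hΓ c hc
    exact ⟨d, rfl, hd, gd4_memU (C.hX (hΓX hc))⟩
  have ha : ∀ c ∈ Γ, ∀ c' ∈ Γ, gd4_half k c ≠ - gd4_half k c' := by
    intro c hc c' hc'
    obtain ⟨d, rfl, h1, h2, h3⟩ := hd c hc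
    obtain ⟨d', rfl, h1', h2', h3'⟩ := hd c' hc'
    exact gd4_half_ne h1 h3 h2 h3'
  have hinj : ∀ c ∈ Γ, ∀ c' ∈ Γ, gd4_half k c = gd4_half k c' → c = c' := by
    intro c hc c' hc' h
    obtain ⟨d, rfl, h1, h2, h3⟩ := hd c hc
    obtain ⟨d', rfl, h1', h2', h3'⟩ := hd c' hc'
    rw [gd4_half_inj h1 h3 h1' h3' h]
  have hac : ∀ c ∈ Γ, El.p i (dst (gd4_half k c + gd4_half k c)) = c := by
    intro c hc
    obtain ⟨d, rfl, h1, h2, h3⟩ := hd c hc
    rw [gd4_half_add h1 h3]
  have hG : ((Uall k \ X) ∪ F ∪ Γ).card ≤ (U k \ X).card + 4 + F.card + 40 := by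
    have e1 := card_union_le ((Uall k \ X) ∪ F) Γ
    have e2 := card_union_le (Uall k \ X) F
    have e3 := gd4_card_Uall (k := k) (X := X)
    omega
  obtain ⟨t, ht1, ht2, ht3⟩ := gd4_choose Γ (gd4_half k) i ((Uall k \ X) ∪ F ∪ Γ) hΓ40 ha
    (by omega)
  have hEX : ∀ φ ∈ gd4_forms Γ (gd4_half k),
      El.p i (dst ((φ.1 : ZMod (2 * k)) * t + φ.2)) ∈ X := by
    intro φ hφ
    by_contra hcon
    exact ht1 φ hφ (mem_union_left _ (mem_union_left _
      (mem_sdiff.2 ⟨gd4_p_mem_Uall i _, hcon⟩)))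
  have hEF : ∀ φ ∈ gd4_forms Γ (gd4_half k),
      El.p i (dst ((φ.1 : ZMod (2 * k)) * t + φ.2)) ∉ F := by
    intro φ hφ hcon
    exact ht1 φ hφ (mem_union_left _ (mem_union_right _ hcon))
  have hEΓ : ∀ φ ∈ gd4_forms Γ (gd4_half k),
      El.p i (dst ((φ.1 : ZMod (2 * k)) * t + φ.2)) ∉ Γ := by
    intro φ hφ hcon
    exact ht1 φ hφ (mem_union_right _ hcon)
  obtain ⟨T, B, h1, h2⟩ := gd4_step C i Γ (gd4_half k) t F Sl hSl hSl80 hΓ40 hΓX hk hac hinj
    ht3 ht2 hEX hEF hEΓ Γ Subset.rfl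
  have ml : ((2 : ℤ), (0 : ZMod (2 * k))) ∈ gd4_forms Γ (gd4_half k) :=
    mem_union_right _ (mem_singleton_self _)
  have el : (((2 : ℤ) : ZMod (2 * k)) * t + 0) = 2 * t := by push_cast; ring
  refine ⟨El.p i (dst (2 * t)), ?_, ?_, ?_, T, B, ?_, h2⟩
  · have := hEX _ ml; simpa only [el] using this
  · have := hEF _ ml; simpa only [el] using this
  · have := hEΓ _ ml; simpa only [el] using this
  · intro c hc
    obtain ⟨g1, g2, g3, g4, g5, g6, g7⟩ := h1 c hc
    exact ⟨g1, g2, g3, (disjoint_union_right.1 g5).1, g6, g7⟩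

end SqCyc
end
end
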