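import Pool.Agent.Lib.SqCyc.Gad4
import Pool.Agent.Lib.SqCyc.Abs1
import Pool.Agent.Lib.SqCyc.Ext2

section

/-! # GD-5 vertex fan -/

open Finset

namespace SqCyc

variable {k : ℕ} [NeZero k] {ℓ m : ℕ} {w : ℕ → Letter} {X : Finset El}

private theorem gad5_covT {s : ℕ} {A : Finset El} (h : Fill k w ℓ X s A) :
    CovT (Fill k w ℓ X) {s} A := by
  refine ⟨fun _ => A, ?_, ?_, ?_⟩
  · intro t ht
    rw [Finset.mem_singleton] at ht
    rw [ht]
    exact h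
  · intro t ht t' ht' hne
    rw [Finset.mem_singleton] at ht ht'
    exact absurd (ht.trans ht'.symm) hne
  · rw [Finset.singleton_biUnion]

private theorem gad5_om (C : Ctx k ℓ w m X) {θ : Letter} (V F : Finset El) (hV40 : V.card ≤ 40)
    (hℓ : 11 ≤ ℓ) (hk : 10 ^ 6 * ((U k \ X).card + F.card + ℓ) < k) :
    ∃ z ∈ Lset k θ, vtx z ∈ X ∧ vtx z ∉ F ∧ vtx z ∉ V := by
  by_contra hcon
  push Not at hcon
  have h1 : Lset k θ ⊆ (Lset k θ).filter (fun z => vtx z ∉ X) ∪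
      (Lset k θ).filter (fun z => vtx z ∈ F ∪ V) := by
    intro z hz
    rw [Finset.mem_union, Finset.mem_filter, Finset.mem_filter]
    by_cases hzX : vtx z ∈ X
    · right
      refine ⟨hz, ?_⟩
      rw [Finset.mem_union]
      by_cases hzF : vtx z ∈ F
      · exact Or.inl hzF
      · exact Or.inr (hcon z hz hzX hzF)
    · exact Or.inl ⟨hz, hzX⟩
  have h2 := (Finset.card_le_card h1).trans (Finset.card_union_le _ _)
  rw [card_Lset] at h2
  have h3 := card_bad_vtx C.hX θ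
  have h4 : ((U k \ X).filter (fun e => clsEl k e = clsV k θ)).card ≤ (U k \ X).card :=
    Finset.card_filter_le _ _
  have h5 := card_vtx_fiber (k := k) (F ∪ V) θ
  have h6 := Finset.card_union_le F V
  omega

theorem vfan (C : Ctx k ℓ w m X) {i₀ : ℕ} {θ : Letter} (hw : Win w ℓ i₀ θ θ)
    (V : Finset El) (hVX : V ⊆ X) (hV : ∀ v ∈ V, ∃ z ∈ Lset k θ, vtx z = v)
    (hV40 : V.card ≤ 40)
    (F : Finset El) (Sl : Finset ℕ) (hSl : Sl ⊆ range m) (hSl40 : 40 ≤ Sl.card)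
    (hk : 10 ^ 6 * ((U k \ X).card + F.card + ℓ) < k) :
    ∃ om ∈ X, om ∉ F ∧ om ∉ V ∧ ∃ (T : El → Finset ℕ) (B : El → Finset El),
      (∀ v ∈ V, T v ⊆ Sl ∧ (T v).card ≤ 1 ∧ B v ⊆ X ∧ Disjoint (B v) (F ∪ V ∪ {om}) ∧
        CovT (Fill k w ℓ X) (T v) (insert v (B v)) ∧
        CovT (Fill k w ℓ X) (T v) (insert om (B v))) ∧
      (∀ v ∈ V, ∀ v' ∈ V, v ≠ v' → Disjoint (T v) (T v') ∧ Disjoint (B v) (B v')) := by
  have hℓ : 11 ≤ ℓ := by
    have := hw.lo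
    have := hw.hi
    omega
  obtain ⟨zo, hzo, hoX, hoF, hoV⟩ := gad5_om C (θ := θ) V F hV40 hℓ hk
  refine ⟨vtx zo, hoX, hoF, hoV, ?_⟩
  -- induction over subsets
  have key : ∀ V' : Finset El, V' ⊆ V → ∃ (T : El → Finset ℕ) (B : El → Finset El),
      (∀ v ∈ V', T v ⊆ Sl ∧ (T v).card ≤ 1 ∧ B v ⊆ X ∧ (B v).card ≤ 3 * ℓ ∧
        Disjoint (B v) (F ∪ V ∪ {vtx zo}) ∧
        CovT (Fill k w ℓ X) (T v) (insert v (B v)) ∧
        CovT (Fill k w ℓ X) (T v) (insert (vtx zo) (B v))) ∧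
      (∀ v ∈ V', ∀ v' ∈ V', v ≠ v' → Disjoint (T v) (T v') ∧ Disjoint (B v) (B v')) := by
    intro V'
    induction V' using Finset.induction_on with
    | empty =>
      intro _
      exact ⟨fun _ => ∅, fun _ => ∅, by simp, by simp⟩
    | insert v V' hvV' ih =>
      intro hsub
      have hvV : v ∈ V := hsub (Finset.mem_insert_self v V')
      have hV'V : V' ⊆ V := (Finset.subset_insert v V').trans hsub
      obtain ⟨T, B, h1, h2⟩ := ih hV'V
      have hc40 : V'.card + 1 ≤ 40 := by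
        have := Finset.card_le_card hsub
        rw [Finset.card_insert_of_notMem hvV'] at this
        omega
      -- an unused slot
      obtain ⟨s, hs, hsn⟩ : ∃ s ∈ Sl, s ∉ V'.biUnion T := by
        by_contra hcon
        push Not at hcon
        have h3 : Sl.card ≤ (V'.biUnion T).card := Finset.card_le_card hcon
        have h4 : (V'.biUnion T).card ≤ V'.card * 1 :=
          Finset.card_biUnion_le_card_mul _ _ _ fun u hu => (h1 u hu).2.1
        omega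
      have hsm : s < m := Finset.mem_range.1 (hSl hs)
      obtain ⟨P, hP, hPv⟩ := hV v hvV
      have hBc : (V'.biUnion B).card ≤ V'.card * (3 * ℓ) :=
        Finset.card_biUnion_le_card_mul _ _ _ fun u hu => (h1 u hu).2.2.2.1
      have hFc : (F ∪ V ∪ {vtx zo} ∪ V'.biUnion B).card ≤ F.card + 41 + 120 * ℓ := by
        have e1 := Finset.card_union_le (F ∪ V ∪ {vtx zo}) (V'.biUnion B)
        have e2 := Finset.card_union_le (F ∪ V) {vtx zo}
        have e3 := Finset.card_union_le F V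
        rw [Finset.card_singleton] at e2
        have e4 : V'.card * (3 * ℓ) ≤ 40 * (3 * ℓ) := Nat.mul_le_mul_right _ (by omega)
        omega
      have hne : vtx P ≠ vtx zo := by
        rw [hPv]
        intro h
        exact hoV (h ▸ hvV)
      obtain ⟨Bv, hBX, hBd, hf1, hf2⟩ := vswap C hsm hw hP hzo hne (hPv ▸ hVX hvV) hoX
        (F ∪ V ∪ {vtx zo} ∪ V'.biUnion B) (by omega)
      have hBvc : Bv.card ≤ 3 * ℓ := by
        have e1 := Fill.card_eq (by omega) hf1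
        have e2 : Bv.card ≤ (insert (vtx P) Bv).card :=
          Finset.card_le_card (Finset.subset_insert _ _)
        omega
      have hBd1 : Disjoint Bv (F ∪ V ∪ {vtx zo} ∪ V'.biUnion B) :=
        hBd.mono_right Finset.subset_union_left
      have hBd2 : Disjoint Bv (F ∪ V ∪ {vtx zo}) := hBd1.mono_right Finset.subset_union_left
      have hBd3 : ∀ u ∈ V', Disjoint Bv (B u) := fun u hu =>
        hBd1.mono_right ((Finset.subset_biUnion_of_mem B hu).trans Finset.subset_union_right)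
      have hTd : ∀ u ∈ V', Disjoint ({s} : Finset ℕ) (T u) := fun u hu => by
        rw [Finset.disjoint_singleton_left]
        exact fun h => hsn (Finset.mem_biUnion.2 ⟨u, hu, h⟩)
      have hne' : ∀ u ∈ V', u ≠ v := fun u hu h => hvV' (h ▸ hu)
      refine ⟨fun u => if u = v then {s} else T u, fun u => if u = v then Bv else B u, ?_, ?_⟩
      · intro u hu
        rcases Finset.mem_insert.1 hu with rfl | hu'
        · simp only [if_true]
          refine ⟨Finset.singleton_subset_iff.2 hs, by rw [Finset.card_singleton], hBX, hBvc, hBd2,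
            ?_, gad5_covT hf2⟩
          rw [← hPv]
          exact gad5_covT hf1
        · simp only [if_neg (hne' u hu')]
          exact h1 u hu'
      · intro u hu u' hu' huu
        rcases Finset.mem_insert.1 hu with rfl | hu1
        · rcases Finset.mem_insert.1 hu' with rfl | hu1'
          · exact absurd rfl huu
          · simp only [if_true, if_neg (hne' u' hu1')]
            exact ⟨hTd u' hu1', hBd3 u' hu1'⟩
        · rcases Finset.mem_insert.1 hu' with rfl | hu1'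
          · simp only [if_true, if_neg (hne' u hu1)]
            exact ⟨(hTd u hu1).symm, (hBd3 u hu1).symm⟩
          · simp only [if_neg (hne' u hu1), if_neg (hne' u' hu1')]
            exact h2 u hu1 u' hu1' huu
  obtain ⟨T, B, h1, h2⟩ := key V subset_rfl
  refine ⟨T, B, fun v hv => ?_, h2⟩
  obtain ⟨a1, a2, a3, -, a5, a6, a7⟩ := h1 v hv
  exact ⟨a1, a2, a3, a5, a6, a7⟩

end SqCyc
end

section

/-! # Common lemmas for the vertex node (GD-6) and the colour node (GD-7) -/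

open Finset

set_option linter.unusedSectionVars false

namespace SqCyc

variable {k : ℕ} [NeZero k] {ℓ m : ℕ} {w : ℕ → Letter} {X : Finset El}

/-- choice of a point avoiding `G` with its vertex and its colours to the points of `Q` -/
theorem choose_pt (θ : Letter) (Q : Finset (Pt k)) (G : Finset El)
    (h : 2 * G.card + Q.card * (2 * G.card) + Q.card * Q.card * 2 < k) :
    ∃ p ∈ Lset k θ, vtx p ∉ G ∧ (∀ q ∈ Q, col p q ∉ G) ∧
      ∀ q ∈ Q, ∀ q' ∈ Q, q ≠ q' → col p q ≠ col p q' := by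
  classical
  let b1 := (Lset k θ).filter (fun z => vtx z ∈ G)
  let b2 := Q.biUnion (fun q => (Lset k θ).filter (fun z => col z q ∈ G))
  let b3 := Q.offDiag.biUnion (fun q => (Lset k θ).filter (fun z => col z q.1 = col z q.2))
  have c1 : b1.card ≤ 2 * G.card := card_vtx_fiber G θ
  have c2 : b2.card ≤ Q.card * (2 * G.card) :=
    Finset.card_biUnion_le_card_mul _ _ _ fun q _ => card_col_fiber G θ q
  have c3 : b3.card ≤ Q.card * Q.card * 2 := by
    refine (Finset.card_biUnion_le_card_mul _ _ 2 fun q hq => ?_).trans ?_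
    · exact card_col_eq θ (Finset.mem_offDiag.1 hq).2.2
    · refine Nat.mul_le_mul_right _ ?_
      rw [Finset.offDiag_card]
      omega
  have hlt : (b1 ∪ b2 ∪ b3).card < (Lset k θ).card := by
    rw [card_Lset]
    refine lt_of_le_of_lt ((Finset.card_union_le _ _).trans
      (Nat.add_le_add ((Finset.card_union_le _ _).trans (Nat.add_le_add c1 c2)) c3)) h
  obtain ⟨p, hp, hpb⟩ := Finset.exists_mem_notMem_of_card_lt_card hlt
  simp only [Finset.mem_union, not_or] at hpb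
  obtain ⟨⟨hb1, hb2⟩, hb3⟩ := hpb
  refine ⟨p, hp, ?_, ?_, ?_⟩
  · intro h1
    exact hb1 (Finset.mem_filter.2 ⟨hp, h1⟩)
  · intro q hq h1
    exact hb2 (Finset.mem_biUnion.2 ⟨q, hq, Finset.mem_filter.2 ⟨hp, h1⟩⟩)
  · intro q hq q' hq' hne h1
    exact hb3 (Finset.mem_biUnion.2 ⟨(q, q'), Finset.mem_offDiag.2 ⟨hq, hq', hne⟩,
      Finset.mem_filter.2 ⟨hp, h1⟩⟩)

theorem CovT.single {α : Type} [DecidableEq α] {Fill : ℕ → Finset α → Prop} {s : ℕ}
    {A : Finset α} (h : Fill s A) : CovT Fill {s} A := by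
  refine ⟨fun _ => A, ?_, ?_, ?_⟩
  · intro t ht
    rw [Finset.mem_singleton.1 ht]
    exact h
  · intro t ht t' ht' hne
    rw [Finset.mem_singleton.1 ht, Finset.mem_singleton.1 ht'] at hne
    exact absurd rfl hne
  · simp

/-- A fan as one gadget: it covers `D` and all alternatives but one. -/
theorem fan_abs {Fill : ℕ → Finset El → Prop} (Γ F X : Finset El) (Sl : Finset ℕ) (r : ℕ)
    (lam : El) (T : El → Finset ℕ) (B : El → Finset El)
    (hlX : lam ∈ X) (hlF : lam ∉ F) (hlΓ : lam ∉ Γ)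
    (h1 : ∀ c ∈ Γ, T c ⊆ Sl ∧ (T c).card ≤ r ∧ B c ⊆ X ∧ Disjoint (B c) (F ∪ Γ ∪ {lam}) ∧
        CovT Fill (T c) (insert c (B c)) ∧ CovT Fill (T c) (insert lam (B c)))
    (h2 : ∀ c ∈ Γ, ∀ c' ∈ Γ, c ≠ c' → Disjoint (T c) (T c') ∧ Disjoint (B c) (B c')) :
    ∃ T' ⊆ Sl, T'.card ≤ Γ.card * r ∧ ∃ D ⊆ X, Disjoint D (F ∪ Γ) ∧
      (Γ = ∅ → D.card = 1) ∧ ∀ c ∈ Γ, CovT Fill T' (D ∪ Γ.erase c) := by
  classical
  refine ⟨Γ.biUnion T, ?_, ?_, insert lam (Γ.biUnion B), ?_, ?_, ?_, ?_⟩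
  · rw [Finset.biUnion_subset]
    exact fun c hc => (h1 c hc).1
  · exact Finset.card_biUnion_le_card_mul _ _ _ fun c hc => (h1 c hc).2.1
  · rw [Finset.insert_subset_iff, Finset.biUnion_subset]
    exact ⟨hlX, fun c hc => (h1 c hc).2.2.1⟩
  · rw [Finset.disjoint_insert_left, Finset.disjoint_biUnion_left]
    refine ⟨?_, fun c hc => ?_⟩
    · rw [Finset.mem_union, not_or]
      exact ⟨hlF, hlΓ⟩
    · exact Finset.disjoint_of_subset_right Finset.subset_union_left (h1 c hc).2.2.2.1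
  · rintro rfl
    simp
  · intro c hc
    have hcov := CovT.biUnion (Fill := Fill) Γ T
      (fun c' => if c' = c then insert lam (B c') else insert c' (B c')) ?_ ?_ ?_
    · have he : Γ.biUnion (fun c' => if c' = c then insert lam (B c') else insert c' (B c')) =
          insert lam (Γ.biUnion B) ∪ Γ.erase c := by
        ext x
        simp only [Finset.mem_biUnion, Finset.mem_union, Finset.mem_insert, Finset.mem_erase]
        constructor
        · rintro ⟨c', hc', hx⟩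
          by_cases h : c' = c
          · rw [if_pos h, Finset.mem_insert] at hx
            rcases hx with hx | hx
            · exact Or.inl (Or.inl hx)
            · exact Or.inl (Or.inr ⟨c', hc', hx⟩)
          · rw [if_neg h, Finset.mem_insert] at hx
            rcases hx with hx | hx
            · rw [hx]
              exact Or.inr ⟨h, hc'⟩
            · exact Or.inl (Or.inr ⟨c', hc', hx⟩)
        · rintro ((hx | ⟨c', hc', hx⟩) | ⟨hx1, hx2⟩)
          · exact ⟨c, hc, by rw [if_pos rfl]; exact Finset.mem_insert.2 (Or.inl hx)⟩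
          · refine ⟨c', hc', ?_⟩
            split_ifs
            · exact Finset.mem_insert_of_mem hx
            · exact Finset.mem_insert_of_mem hx
          · exact ⟨x, hx2, by rw [if_neg hx1]; exact Finset.mem_insert_self _ _⟩
      rw [he] at hcov
      exact hcov
    · intro c' hc'
      split_ifs
      · exact (h1 c' hc').2.2.2.2.2
      · exact (h1 c' hc').2.2.2.2.1
    · exact fun i hi j hj hij => (h2 i hi j hj hij).1
    · have key : ∀ i ∈ Γ, ∀ j ∈ Γ, i ≠ j → ∀ a b : El, (a = i ∨ a = lam) → (b = j ∨ b = lam) →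
          a ≠ b → Disjoint (insert a (B i)) (insert b (B j)) := by
        intro i hi j hj hij a b ha hb hab
        have d1 := (h1 i hi).2.2.2.1
        have d2 := (h1 j hj).2.2.2.1
        have ha' : a ∈ F ∪ Γ ∪ {lam} := by
          rcases ha with rfl | rfl
          · simp [hi]
          · simp
        have hb' : b ∈ F ∪ Γ ∪ {lam} := by
          rcases hb with rfl | rfl
          · simp [hj]
          · simp
        rw [Finset.disjoint_insert_left, Finset.disjoint_insert_right, Finset.mem_insert, not_or]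
        exact ⟨⟨hab, fun h => Finset.disjoint_left.1 d2 h ha'⟩,
          fun h => Finset.disjoint_left.1 d1 h hb', (h2 i hi j hj hij).2⟩
      intro i hi j hj hij
      by_cases hi' : i = c
      · have hj' : j ≠ c := fun h => hij (hi'.trans h.symm)
        rw [if_pos hi', if_neg hj']
        exact key i hi j hj hij lam j (Or.inr rfl) (Or.inl rfl) (fun h => hlΓ (h ▸ hj))
      · rw [if_neg hi']
        by_cases hj' : j = c
        · rw [if_pos hj']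
          exact key i hi j hj hij i lam (Or.inl rfl) (Or.inr rfl) (fun h => hlΓ (h ▸ hi))
        · rw [if_neg hj']
          exact key i hi j hj hij i j (Or.inl rfl) (Or.inl rfl) hij

/-- The colour fan as one gadget. -/
theorem fan2 (hℓ : 2 ≤ ℓ) (C : Ctx k ℓ w m X) (i : Bool) (Γ : Finset El) (hΓX : Γ ⊆ X)
    (hΓ : ∀ c ∈ Γ, ∃ d, c = El.p i d ∧ d.bodd = false) (hΓ40 : Γ.card ≤ 40)
    (F : Finset El) (Sl : Finset ℕ) (hSl : Sl ⊆ range m) (hSl80 : 80 ≤ Sl.card)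
    (hk : 10 ^ 7 * ((U k \ X).card + F.card + ℓ) < k) :
    ∃ T ⊆ Sl, T.card ≤ 80 ∧ ∃ D ⊆ X, Disjoint D (F ∪ Γ) ∧ D.card ≤ 240 * ℓ ∧
      ∀ c ∈ Γ, CovT (Fill k w ℓ X) T (D ∪ Γ.erase c) := by
  classical
  obtain ⟨lam, hlX, hlF, hlΓ, T, B, h1, h2⟩ := fan C i Γ hΓX hΓ hΓ40 F Sl hSl hSl80 hk
  obtain ⟨T', hT', hT'c, D, hD, hDF, hD0, hDc⟩ := fan_abs Γ F X Sl 2 lam T B hlX hlF hlΓ h1 h2
  have hT80 : T'.card ≤ 80 := by omega
  refine ⟨T', hT', hT80, D, hD, hDF, ?_, hDc⟩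
  rcases Γ.eq_empty_or_nonempty with hΓe | ⟨c, hc⟩
  · rw [hD0 hΓe]
    omega
  · have h3 := (covT_card hℓ (hDc c hc)).1
    have h4 : D.card ≤ (D ∪ Γ.erase c).card := Finset.card_le_card Finset.subset_union_left
    calc D.card ≤ 3 * ℓ * T'.card := by omega
      _ ≤ 3 * ℓ * 80 := Nat.mul_le_mul_left _ hT80
      _ = 240 * ℓ := by ring

/-- The vertex fan as one gadget. -/
theorem vfan2 (hℓ : 2 ≤ ℓ) (C : Ctx k ℓ w m X) {i₀ : ℕ} {θ : Letter} (hw : Win w ℓ i₀ θ θ)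
    (V : Finset El) (hVX : V ⊆ X) (hV : ∀ v ∈ V, ∃ z ∈ Lset k θ, vtx z = v)
    (hV40 : V.card ≤ 40)
    (F : Finset El) (Sl : Finset ℕ) (hSl : Sl ⊆ range m) (hSl40 : 40 ≤ Sl.card)
    (hk : 10 ^ 6 * ((U k \ X).card + F.card + ℓ) < k) :
    ∃ T ⊆ Sl, T.card ≤ 40 ∧ ∃ D ⊆ X, Disjoint D (F ∪ V) ∧ D.card ≤ 120 * ℓ ∧
      ∀ v ∈ V, CovT (Fill k w ℓ X) T (D ∪ V.erase v) := by
  classical
  obtain ⟨om, hoX, hoF, hoV, T, B, h1, h2⟩ := vfan C hw V hVX hV hV40 F Sl hSl hSl40 hk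
  obtain ⟨T', hT', hT'c, D, hD, hDF, hD0, hDc⟩ := fan_abs V F X Sl 1 om T B hoX hoF hoV h1 h2
  have hT40 : T'.card ≤ 40 := by omega
  refine ⟨T', hT', hT40, D, hD, hDF, ?_, hDc⟩
  rcases V.eq_empty_or_nonempty with hVe | ⟨v, hv⟩
  · rw [hD0 hVe]
    omega
  · have h3 := (covT_card hℓ (hDc v hv)).1
    have h4 : D.card ≤ (D ∪ V.erase v).card := Finset.card_le_card Finset.subset_union_left
    calc D.card ≤ 3 * ℓ * T'.card := by omega
      _ ≤ 3 * ℓ * 40 := Nat.mul_le_mul_left _ hT40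
      _ = 120 * ℓ := by ring

theorem card_Uall_sdiff (X : Finset El) : (Uall k \ X).card ≤ (U k \ X).card + 4 := by
  have h : Uall k \ X ⊆ (U k \ X) ∪ {El.p false 0, El.p true 0, El.p false k, El.p true k} := by
    intro e he
    simp only [Uall, Finset.mem_sdiff, Finset.mem_union] at he ⊢
    tauto
  refine (Finset.card_le_card h).trans ((Finset.card_union_le _ _).trans ?_)
  exact Nat.add_le_add_left Finset.card_le_four _

theorem U_subset_Uall : U k ⊆ Uall k := Finset.subset_union_left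

theorem mem_of_vtx_notMem {p : Pt k} {G : Finset El} (hG : Uall k \ X ⊆ G)
    (h : vtx p ∉ G) : vtx p ∈ X := by
  by_contra h1
  exact h (hG (Finset.mem_sdiff.2 ⟨U_subset_Uall (vtx_mem_U p), h1⟩))

theorem mem_of_col_notMem {p q : Pt k} {G : Finset El} (hG : Uall k \ X ⊆ G)
    (h : col p q ∉ G) : col p q ∈ X := by
  by_contra h1
  exact h (hG (Finset.mem_sdiff.2 ⟨col_mem_Uall p q, h1⟩))

/-- colours between points of the same letter are pure and even -/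
theorem col_pure_even {θ : Letter} {p q : Pt k} (hp : p ∈ Lset k θ) (hq : q ∈ Lset k θ) :
    ∃ d, col p q = El.p θ.1 d ∧ d.bodd = false := by
  simp only [Lset, Finset.mem_filter, Finset.mem_univ, true_and] at hp hq
  refine ⟨dst (p.2 - q.2), ?_, ?_⟩
  · rw [col_same (hp.1.trans hq.1.symm), hp.1]
  · rw [dst_bodd, val_sub_bodd, hp.2, hq.2]
    simp

end SqCyc
end

section

/-! # GD-7 colour node -/

open Finset

set_option linter.unusedSectionVars false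

namespace SqCyc

variable {k : ℕ} [NeZero k] {ℓ m : ℕ} {w : ℕ → Letter} {X : Finset El}

private theorem gad7_clsC_comm (θ η : Letter) : clsC θ η = clsC η θ := by
  unfold clsC
  by_cases h : θ.1 = η.1
  · rw [if_pos h, if_pos h.symm, h, Bool.xor_comm]
  · rw [if_neg h, if_neg (Ne.symm h), Bool.xor_comm]

private theorem gad7_col_shift (i j : Bool) (a b t : ZMod (2 * k)) :
    col ((i, a + t) : Pt k) (j, b + t) = col ((i, a) : Pt k) (j, b) := by
  unfold col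
  simp only [add_sub_add_right_eq_sub]

private theorem gad7_pure_notMem_U {i : Bool} {d : ℕ} (h : d = 0 ∨ d = k) : El.p i d ∉ U k := by
  intro h1
  simp only [U, Finset.mem_union, Finset.mem_image, Finset.mem_product, Finset.mem_univ,
    true_and, Finset.mem_range, Finset.mem_Ico] at h1
  rcases h1 with (⟨a, _, h2⟩ | ⟨a, h2, h3⟩) | ⟨a, _, h2⟩
  · exact El.noConfusion h2
  · rw [El.p.injEq] at h3
    rcases h with h | h <;> omega
  · exact El.noConfusion h2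

private theorem gad7_lift {i : Bool} {η : Letter} {g : El} (hg : g ∈ U k)
    (hc : clsEl k g = clsC (i, false) η) :
    ∃ s : ZMod (2 * k), ∀ p ∈ Lset k η, ((i, p.2 + s) : Pt k) ∈ Lset k (i, false) ∧
      col ((i, p.2 + s) : Pt k) p = g ∧ vtx ((i, p.2 + s) : Pt k) ≠ vtx p := by
  have hne : (Lset k η).Nonempty := by
    rw [← Finset.card_pos, card_Lset]
    exact Nat.pos_of_ne_zero (NeZero.ne k)
  obtain ⟨p0, hp0⟩ := hne
  obtain ⟨z0, hz0, hcol⟩ := exists_col_lift (θ := η) (η := (i, false)) hg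
    (hc.trans (gad7_clsC_comm _ _)) hp0
  have hp0' := hp0
  have hz0' := hz0
  simp only [Lset, Finset.mem_filter, Finset.mem_univ, true_and] at hp0' hz0'
  refine ⟨z0.2 - p0.2, ?_⟩
  intro p hp
  have hp' := hp
  simp only [Lset, Finset.mem_filter, Finset.mem_univ, true_and] at hp'
  have hcolg : col ((i, p.2 + (z0.2 - p0.2)) : Pt k) p = g := by
    have e1 : ((i, p.2 + (z0.2 - p0.2)) : Pt k) = (i, z0.2 + (p.2 - p0.2)) := by
      ext1
      · rfl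
      · show p.2 + (z0.2 - p0.2) = z0.2 + (p.2 - p0.2)
        ring
    have e2 : p = ((η.1, p0.2 + (p.2 - p0.2)) : Pt k) := by
      ext1
      · exact hp'.1
      · show p.2 = p0.2 + (p.2 - p0.2)
        ring
    have e3 : ((i, z0.2) : Pt k) = z0 := by
      ext1
      · exact hz0'.1.symm
      · rfl
    have e4 : ((η.1, p0.2) : Pt k) = p0 := by
      ext1
      · exact hp0'.1.symm
      · rfl
    calc col ((i, p.2 + (z0.2 - p0.2)) : Pt k) p
        = col ((i, z0.2 + (p.2 - p0.2)) : Pt k) ((η.1, p0.2 + (p.2 - p0.2)) : Pt k) := by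
          rw [e1, ← e2]
      _ = col ((i, z0.2) : Pt k) ((η.1, p0.2) : Pt k) := gad7_col_shift _ _ _ _ _
      _ = col z0 p0 := by rw [e3, e4]
      _ = g := by rw [col_comm]; exact hcol
  refine ⟨?_, hcolg, ?_⟩
  · simp only [Lset, Finset.mem_filter, Finset.mem_univ, true_and]
    rw [val_add_bodd, val_sub_bodd, hp'.2, hz0'.2, hp0'.2]
    cases η.2 <;> rfl
  · intro hv
    rw [vtx_eq_iff] at hv
    obtain ⟨h1, h2⟩ := hv
    have h1' : i = p.1 := h1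
    have h3 : g = El.p i (dst (p.2 + (z0.2 - p0.2) - p.2)) := by
      rw [← hcolg]
      exact col_same h1
    apply gad7_pure_notMem_U (k := k) (i := i) (d := dst (p.2 + (z0.2 - p0.2) - p.2)) ?_ (h3 ▸ hg)
    rcases h2 with h2 | h2
    · left
      have h2' : p.2 + (z0.2 - p0.2) = p.2 := h2
      rw [h2', sub_self, dst_eq_zero_iff]
    · right
      have h2' : p.2 + (z0.2 - p0.2) = p.2 + (k : ZMod (2 * k)) := h2
      rw [h2', add_sub_cancel_left, dst_eq_k_iff]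

private theorem gad7_p3 {η : Letter} (i : Bool) (ys : Finset El) (s : El → ZMod (2 * k))
    (G : Finset El) (h : 2 * G.card + ys.card * (2 * G.card) < k) :
    ∃ p ∈ Lset k η, vtx p ∉ G ∧ ∀ g ∈ ys, vtx ((i, p.2 + s g) : Pt k) ∉ G := by
  classical
  let b1 := (Lset k η).filter (fun z => vtx z ∈ G)
  let b2 := ys.biUnion (fun g => (Lset k η).filter (fun z =>
    vtx ((i, ((1 : ℤ) : ZMod (2 * k)) * z.2 + s g) : Pt k) ∈ G))
  have c1 : b1.card ≤ 2 * G.card := card_vtx_fiber G η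
  have c2 : b2.card ≤ ys.card * (2 * G.card) :=
    Finset.card_biUnion_le_card_mul _ _ _ fun g _ => by
      have := card_vtx_aff η i 1 one_ne_zero (s g) G
      simpa using this
  have hlt : (b1 ∪ b2).card < (Lset k η).card := by
    rw [card_Lset]
    exact lt_of_le_of_lt ((Finset.card_union_le _ _).trans (Nat.add_le_add c1 c2)) h
  obtain ⟨p, hp, hpb⟩ := Finset.exists_mem_notMem_of_card_lt_card hlt
  simp only [Finset.mem_union, not_or] at hpb
  obtain ⟨hb1, hb2⟩ := hpb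
  refine ⟨p, hp, ?_, ?_⟩
  · intro h1
    exact hb1 (Finset.mem_filter.2 ⟨hp, h1⟩)
  · intro g hg h1
    refine hb2 (Finset.mem_biUnion.2 ⟨g, hg, Finset.mem_filter.2 ⟨hp, ?_⟩⟩)
    simpa using h1

private theorem gad7_bd {g q n k : ℕ} (hg : g ≤ n + 169) (hq : q ≤ 42) (hn : 11 ≤ n)
    (hk : 10 ^ 11 * n < k) : 2 * g + q * (2 * g) + q * q * 2 < k := by
  have h1 : q * (2 * g) ≤ 42 * (2 * (n + 169)) := Nat.mul_le_mul hq (by omega)
  have h2 : q * q ≤ 42 * 42 := Nat.mul_le_mul hq hq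
  omega

private theorem gad7_disj_SR {S D C K : Finset El} {a : El} (hS : S ⊆ K) (hD : Disjoint D K)
    (hSC : ∀ x ∈ S, x ∈ C → x = a) : Disjoint S (D ∪ C.erase a) := by
  rw [Finset.disjoint_left]
  intro x hx hx'
  rcases Finset.mem_union.1 hx' with h | h
  · exact Finset.disjoint_left.1 hD h (hS hx)
  · exact (Finset.mem_erase.1 h).1 (hSC x hx (Finset.mem_erase.1 h).2)

private theorem gad7_disj_RR {D D' C C' K : Finset El} {a a' : El} (hDD : Disjoint D D')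
    (hD : Disjoint D K) (hD' : Disjoint D' K) (hC : C ⊆ K) (hC' : C' ⊆ K)
    (hCC : Disjoint C C') : Disjoint (D ∪ C.erase a) (D' ∪ C'.erase a') := by
  rw [Finset.disjoint_left]
  intro x hx hx'
  rcases Finset.mem_union.1 hx with h | h <;> rcases Finset.mem_union.1 hx' with h' | h'
  · exact Finset.disjoint_left.1 hDD h h'
  · exact Finset.disjoint_left.1 hD h (hC' (Finset.mem_erase.1 h').2)
  · exact Finset.disjoint_left.1 hD' h' (hC (Finset.mem_erase.1 h).2)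
  · exact Finset.disjoint_left.1 hCC (Finset.mem_erase.1 h).2 (Finset.mem_erase.1 h').2

private theorem gad7_union (O W Wt C₁ C₂ C₄ V D₁ D₂ D₄ DV : Finset El) (a₁ a₂ a₄ v g : El)
    (h1 : a₁ ∈ C₁) (h2 : a₂ ∈ C₂) (h4 : a₄ ∈ C₄) (hv : v ∈ V)
    (hW : Wt = {v, a₁, a₂, g, a₄}) :
    (O ∪ (W ∪ Wt)) ∪ (D₁ ∪ C₁.erase a₁) ∪ (D₂ ∪ C₂.erase a₂) ∪ (D₄ ∪ C₄.erase a₄) ∪
      (DV ∪ V.erase v) = insert g (O ∪ W ∪ C₁ ∪ C₂ ∪ C₄ ∪ V ∪ D₁ ∪ D₂ ∪ D₄ ∪ DV) := by
  have e1 : C₁ = {a₁} ∪ C₁.erase a₁ := by rw [← Finset.insert_eq, Finset.insert_erase h1]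
  have e2 : C₂ = {a₂} ∪ C₂.erase a₂ := by rw [← Finset.insert_eq, Finset.insert_erase h2]
  have e4 : C₄ = {a₄} ∪ C₄.erase a₄ := by rw [← Finset.insert_eq, Finset.insert_erase h4]
  have ev : V = {v} ∪ V.erase v := by rw [← Finset.insert_eq, Finset.insert_erase hv]
  have eW : Wt = {v} ∪ ({a₁} ∪ ({a₂} ∪ ({g} ∪ {a₄}))) := by
    rw [hW]; rfl
  rw [eW, Finset.insert_eq]
  generalize C₁.erase a₁ = C₁' at *
  generalize C₂.erase a₂ = C₂' at *
  generalize C₄.erase a₄ = C₄' at *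
  generalize V.erase v = V' at *
  rw [e1, e2, e4, ev]
  ac_rfl

private theorem gad7_sub6 (A B C D E F : Finset El) :
    A ⊆ A ∪ B ∪ C ∪ D ∪ E ∪ F ∧ B ⊆ A ∪ B ∪ C ∪ D ∪ E ∪ F ∧ C ⊆ A ∪ B ∪ C ∪ D ∪ E ∪ F ∧
      D ⊆ A ∪ B ∪ C ∪ D ∪ E ∪ F ∧ E ⊆ A ∪ B ∪ C ∪ D ∪ E ∪ F ∧ F ⊆ A ∪ B ∪ C ∪ D ∪ E ∪ F := by
  refine ⟨?_, ?_, ?_, ?_, ?_, ?_⟩ <;> intro x hx <;> simp [hx]

private theorem gad7_Wz (p₁ p₂ p₃ p₄ z : Pt k) : Wz p₁ p₂ p₃ p₄ z =
    {vtx z, col p₁ z, col p₂ z, col z p₃, col p₄ z} := by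
  rw [Wz, col_comm z p₄]

private theorem gad7_card12 (p₁ p₂ p₃ p₄ z : Pt k) (G₁ G₂ G₃ : Finset El)
    (s12 : G₁ ⊆ G₂) (s23 : G₂ ⊆ G₃)
    (hz : vtx z ∈ G₁) (hg : col z p₃ ∈ G₁) (m3 : vtx p₃ ∈ G₁) (hz3 : vtx z ≠ vtx p₃)
    (hv₁ : vtx p₁ ∉ G₁) (hc₁ : col p₁ z ∉ G₁) (m1 : vtx p₁ ∈ G₂) (mc1 : col p₁ z ∈ G₂)
    (hv₂ : vtx p₂ ∉ G₂) (hc₂ : col p₂ z ∉ G₂) (h21 : col p₂ p₁ ∉ G₂) (h23 : col p₂ p₃ ∉ G₂)
    (n1 : col p₂ p₁ ≠ col p₂ p₃) (n2 : col p₂ z ≠ col p₂ p₁) (n3 : col p₂ z ≠ col p₂ p₃)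
    (m2 : vtx p₂ ∈ G₃) (mc2 : col p₂ z ∈ G₃) (m21 : col p₂ p₁ ∈ G₃) (m23 : col p₂ p₃ ∈ G₃)
    (hv₄ : vtx p₄ ∉ G₃) (hc₄ : col p₄ z ∉ G₃) (h43 : col p₄ p₃ ∉ G₃)
    (n4 : col p₄ z ≠ col p₄ p₃) :
    (W0 p₁ p₂ p₃ p₄ ∪ Wz p₁ p₂ p₃ p₄ z).card = 12 := by
  have he : W0 p₁ p₂ p₃ p₄ ∪ Wz p₁ p₂ p₃ p₄ z =
      (({vtx z, col z p₃, vtx p₃} ∪ {vtx p₁, col p₁ z}) ∪
        {vtx p₂, col p₂ z, col p₂ p₁, col p₂ p₃}) ∪ {vtx p₄, col p₄ z, col p₄ p₃} := by
    rw [gad7_Wz, W0, col_comm p₁ p₂, col_comm p₃ p₄]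
    clear * -
    ext x
    simp only [Finset.mem_union, Finset.mem_insert, Finset.mem_singleton]
    tauto
  rw [he]
  have a0 : ({vtx z, col z p₃, vtx p₃} : Finset El) ⊆ G₁ := by
    intro x hx
    simp only [Finset.mem_insert, Finset.mem_singleton] at hx
    rcases hx with rfl | rfl | rfl
    · exact hz
    · exact hg
    · exact m3
  have a1 : ({vtx p₁, col p₁ z} : Finset El) ⊆ G₂ := by
    intro x hx
    simp only [Finset.mem_insert, Finset.mem_singleton] at hx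
    rcases hx with rfl | rfl
    · exact m1
    · exact mc1
  have a2 : ({vtx p₂, col p₂ z, col p₂ p₁, col p₂ p₃} : Finset El) ⊆ G₃ := by
    intro x hx
    simp only [Finset.mem_insert, Finset.mem_singleton] at hx
    rcases hx with rfl | rfl | rfl | rfl
    · exact m2
    · exact mc2
    · exact m21
    · exact m23
  have b1 : ∀ x ∈ ({vtx p₁, col p₁ z} : Finset El), x ∉ G₁ := by
    intro x hx
    simp only [Finset.mem_insert, Finset.mem_singleton] at hx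
    rcases hx with rfl | rfl
    · exact hv₁
    · exact hc₁
  have b2 : ∀ x ∈ ({vtx p₂, col p₂ z, col p₂ p₁, col p₂ p₃} : Finset El), x ∉ G₂ := by
    intro x hx
    simp only [Finset.mem_insert, Finset.mem_singleton] at hx
    rcases hx with rfl | rfl | rfl | rfl
    · exact hv₂
    · exact hc₂
    · exact h21
    · exact h23
  have b3 : ∀ x ∈ ({vtx p₄, col p₄ z, col p₄ p₃} : Finset El), x ∉ G₃ := by
    intro x hx
    simp only [Finset.mem_insert, Finset.mem_singleton] at hx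
    rcases hx with rfl | rfl | rfl
    · exact hv₄
    · exact hc₄
    · exact h43
  have c0 : ({vtx z, col z p₃, vtx p₃} : Finset El).card = 3 := by
    rw [Finset.card_eq_three]
    exact ⟨_, _, _, vtx_ne_col _ _ _, hz3, (vtx_ne_col _ _ _).symm, rfl⟩
  have c1 : ({vtx p₁, col p₁ z} : Finset El).card = 2 := Finset.card_pair (vtx_ne_col _ _ _)
  have c2 : ({vtx p₂, col p₂ z, col p₂ p₁, col p₂ p₃} : Finset El).card = 4 := by
    rw [Finset.card_insert_of_notMem, Finset.card_insert_of_notMem, Finset.card_pair n1]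
    · simp only [Finset.mem_insert, Finset.mem_singleton, not_or]
      exact ⟨n2, n3⟩
    · simp only [Finset.mem_insert, Finset.mem_singleton, not_or]
      exact ⟨vtx_ne_col _ _ _, vtx_ne_col _ _ _, vtx_ne_col _ _ _⟩
  have c3 : ({vtx p₄, col p₄ z, col p₄ p₃} : Finset El).card = 3 := by
    rw [Finset.card_eq_three]
    exact ⟨_, _, _, vtx_ne_col _ _ _, vtx_ne_col _ _ _, n4, rfl⟩
  rw [Finset.card_union_of_disjoint, Finset.card_union_of_disjoint,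
    Finset.card_union_of_disjoint, c0, c1, c2, c3]
  · rw [Finset.disjoint_left]
    exact fun x hx hx' => b1 x hx' (a0 hx)
  · rw [Finset.disjoint_left]
    intro x hx hx'
    rcases Finset.mem_union.1 hx with h | h
    · exact b2 x hx' (s12 (a0 h))
    · exact b2 x hx' (a1 h)
  · rw [Finset.disjoint_left]
    intro x hx hx'
    rcases Finset.mem_union.1 hx with h | h
    · rcases Finset.mem_union.1 h with h | h
      · exact b3 x hx' (s23 (s12 (a0 h)))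
      · exact b3 x hx' (s23 (a1 h))
    · exact b3 x hx' (a2 h)

/-- the data around the windows -/
private structure Node7 (X E : Finset El) (Z : Finset (Pt k)) (p₁ p₂ p₃ p₄ : Pt k) : Prop where
  xW : W0 p₁ p₂ p₃ p₄ ⊆ X
  xV : Z.image vtx ⊆ X
  x1 : Z.image (col p₁) ⊆ X
  x2 : Z.image (col p₂) ⊆ X
  x4 : Z.image (col p₄) ⊆ X
  c12 : ∀ z ∈ Z, (W0 p₁ p₂ p₃ p₄ ∪ Wz p₁ p₂ p₃ p₄ z).card = 12
  EW : ∀ x ∈ W0 p₁ p₂ p₃ p₄, x ∉ E
  EV : ∀ x ∈ Z.image vtx, x ∉ E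
  E1 : ∀ x ∈ Z.image (col p₁), x ∉ E
  E2 : ∀ x ∈ Z.image (col p₂), x ∉ E
  E4 : ∀ x ∈ Z.image (col p₄), x ∉ E
  WV : ∀ x ∈ W0 p₁ p₂ p₃ p₄, x ∉ Z.image vtx
  W1 : ∀ x ∈ W0 p₁ p₂ p₃ p₄, x ∉ Z.image (col p₁)
  W2 : ∀ x ∈ W0 p₁ p₂ p₃ p₄, x ∉ Z.image (col p₂)
  W4 : ∀ x ∈ W0 p₁ p₂ p₃ p₄, x ∉ Z.image (col p₄)
  d12 : Disjoint (Z.image (col p₁)) (Z.image (col p₂))
  d14 : Disjoint (Z.image (col p₁)) (Z.image (col p₄))
  d24 : Disjoint (Z.image (col p₂)) (Z.image (col p₄))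
  d1V : Disjoint (Z.image (col p₁)) (Z.image vtx)
  d2V : Disjoint (Z.image (col p₂)) (Z.image vtx)
  d4V : Disjoint (Z.image (col p₄)) (Z.image vtx)

private theorem gad7_node (X E : Finset El) (Z : Finset (Pt k)) (p₁ p₂ p₃ p₄ : Pt k)
    (G₀ G₁ G₂ G₃ : Finset El) (hU : Uall k \ X ⊆ G₀) (hE : E ⊆ G₀)
    (hG₁ : G₁ = G₀ ∪ {vtx p₃} ∪ Z.image vtx)
    (hG₂ : G₂ = G₁ ∪ {vtx p₁} ∪ Z.image (col p₁))
    (hG₃ : G₃ = G₂ ∪ {vtx p₂} ∪ Z.image (col p₂) ∪ {col p₂ p₁, col p₂ p₃})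
    (hZc : ∀ z ∈ Z, col z p₃ ∈ E) (hZv : ∀ z ∈ Z, vtx z ≠ vtx p₃) (hZG : ∀ z ∈ Z, vtx z ∉ G₀)
    (hv₃ : vtx p₃ ∉ G₀)
    (hv₁ : vtx p₁ ∉ G₁) (hc₁ : ∀ q ∈ Z, col p₁ q ∉ G₁)
    (hv₂ : vtx p₂ ∉ G₂) (hc₂ : ∀ q ∈ insert p₁ (insert p₃ Z), col p₂ q ∉ G₂)
    (hd₂ : ∀ q ∈ insert p₁ (insert p₃ Z), ∀ q' ∈ insert p₁ (insert p₃ Z), q ≠ q' →
      col p₂ q ≠ col p₂ q')
    (hv₄ : vtx p₄ ∉ G₃) (hc₄ : ∀ q ∈ insert p₃ Z, col p₄ q ∉ G₃)
    (hd₄ : ∀ q ∈ insert p₃ Z, ∀ q' ∈ insert p₃ Z, q ≠ q' → col p₄ q ≠ col p₄ q') :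
    Node7 X E Z p₁ p₂ p₃ p₄ := by
  classical
  have s01 : G₀ ⊆ G₁ := fun x hx => by simp [hG₁, hx]
  have s12 : G₁ ⊆ G₂ := fun x hx => by simp [hG₂, hx]
  have s23 : G₂ ⊆ G₃ := fun x hx => by simp [hG₃, hx]
  have s02 := s01.trans s12
  have s13 := s12.trans s23
  have s03 := s02.trans s23
  have sV1 : Z.image vtx ⊆ G₁ := by rw [hG₁]; exact Finset.subset_union_right
  have sC1 : Z.image (col p₁) ⊆ G₂ := by rw [hG₂]; exact Finset.subset_union_right
  have sC2 : Z.image (col p₂) ⊆ G₃ := by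
    rw [hG₃]; exact Finset.subset_union_right.trans Finset.subset_union_left
  have m3 : vtx p₃ ∈ G₁ := by simp [hG₁]
  have m1 : vtx p₁ ∈ G₂ := by simp [hG₂]
  have m2 : vtx p₂ ∈ G₃ := by simp [hG₃]
  have m21 : col p₂ p₁ ∈ G₃ := by simp [hG₃]
  have m23 : col p₂ p₃ ∈ G₃ := by simp [hG₃]
  have i1 : p₁ ∈ insert p₁ (insert p₃ Z) := Finset.mem_insert_self _ _
  have i3 : p₃ ∈ insert p₁ (insert p₃ Z) :=
    Finset.mem_insert_of_mem (Finset.mem_insert_self _ _)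
  have iz : ∀ z ∈ Z, z ∈ insert p₁ (insert p₃ Z) := fun z hz =>
    Finset.mem_insert_of_mem (Finset.mem_insert_of_mem hz)
  have j3 : p₃ ∈ insert p₃ Z := Finset.mem_insert_self _ _
  have jz : ∀ z ∈ Z, z ∈ insert p₃ Z := fun z hz => Finset.mem_insert_of_mem hz
  have nz3 : ∀ z ∈ Z, z ≠ p₃ := fun z hz h => hZv z hz (by rw [h])
  have nz1 : ∀ z ∈ Z, z ≠ p₁ := fun z hz h => hv₁ (sV1 (by
    rw [← h]; exact Finset.mem_image_of_mem _ hz))
  have n13 : p₁ ≠ p₃ := fun h => hv₁ (by rw [h]; exact m3)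
  have hW : ∀ P : El → Prop, P (vtx p₁) → P (vtx p₂) → P (vtx p₃) → P (vtx p₄) →
      P (col p₂ p₁) → P (col p₂ p₃) → P (col p₄ p₃) → ∀ x ∈ W0 p₁ p₂ p₃ p₄, P x := by
    intro P q1 q2 q3 q4 q5 q6 q7 x hx
    rw [W0, col_comm p₁ p₂, col_comm p₃ p₄] at hx
    simp only [Finset.mem_insert, Finset.mem_singleton] at hx
    rcases hx with rfl | rfl | rfl | rfl | rfl | rfl | rfl <;> assumption
  have hvC : ∀ (p q : Pt k), vtx q ∉ Z.image (col p) := by
    intro p q h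
    obtain ⟨z, hz, h1⟩ := Finset.mem_image.1 h
    exact vtx_ne_col _ _ _ h1.symm
  have hcV : ∀ (p q : Pt k), col p q ∉ Z.image vtx := by
    intro p q h
    obtain ⟨z, hz, h1⟩ := Finset.mem_image.1 h
    exact vtx_ne_col _ _ _ h1
  have bC₁ : ∀ x ∈ Z.image (col p₁), x ∉ G₁ := by
    intro x hx
    obtain ⟨z, hz, rfl⟩ := Finset.mem_image.1 hx
    exact hc₁ z hz
  have bC₂ : ∀ x ∈ Z.image (col p₂), x ∉ G₂ := by
    intro x hx
    obtain ⟨z, hz, rfl⟩ := Finset.mem_image.1 hx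
    exact hc₂ z (iz z hz)
  have bC₄ : ∀ x ∈ Z.image (col p₄), x ∉ G₃ := by
    intro x hx
    obtain ⟨z, hz, rfl⟩ := Finset.mem_image.1 hx
    exact hc₄ z (jz z hz)
  have bV : ∀ x ∈ Z.image vtx, x ∉ G₀ := by
    intro x hx
    obtain ⟨z, hz, rfl⟩ := Finset.mem_image.1 hx
    exact hZG z hz
  have bW₀ : ∀ x ∈ W0 p₁ p₂ p₃ p₄, x ∉ G₀ :=
    hW _ (fun h => hv₁ (s01 h)) (fun h => hv₂ (s02 h)) hv₃ (fun h => hv₄ (s03 h))
      (fun h => hc₂ _ i1 (s02 h)) (fun h => hc₂ _ i3 (s02 h)) (fun h => hc₄ _ j3 (s03 h))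
  constructor
  case xW =>
    refine hW _ (mem_of_vtx_notMem hU (fun h => hv₁ (s01 h)))
      (mem_of_vtx_notMem hU (fun h => hv₂ (s02 h))) (mem_of_vtx_notMem hU hv₃)
      (mem_of_vtx_notMem hU (fun h => hv₄ (s03 h)))
      (mem_of_col_notMem hU (fun h => hc₂ _ i1 (s02 h)))
      (mem_of_col_notMem hU (fun h => hc₂ _ i3 (s02 h)))
      (mem_of_col_notMem hU (fun h => hc₄ _ j3 (s03 h)))
  case xV =>
    intro x hx
    obtain ⟨z, hz, rfl⟩ := Finset.mem_image.1 hx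
    exact mem_of_vtx_notMem hU (hZG z hz)
  case x1 =>
    intro x hx
    obtain ⟨z, hz, rfl⟩ := Finset.mem_image.1 hx
    exact mem_of_col_notMem hU (fun h => hc₁ z hz (s01 h))
  case x2 =>
    intro x hx
    obtain ⟨z, hz, rfl⟩ := Finset.mem_image.1 hx
    exact mem_of_col_notMem hU (fun h => hc₂ z (iz z hz) (s02 h))
  case x4 =>
    intro x hx
    obtain ⟨z, hz, rfl⟩ := Finset.mem_image.1 hx
    exact mem_of_col_notMem hU (fun h => hc₄ z (jz z hz) (s03 h))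
  case c12 =>
    intro z hz
    exact gad7_card12 p₁ p₂ p₃ p₄ z G₁ G₂ G₃ s12 s23 (sV1 (Finset.mem_image_of_mem _ hz))
      (s01 (hE (hZc z hz))) m3 (hZv z hz) hv₁ (hc₁ z hz) m1
      (sC1 (Finset.mem_image_of_mem _ hz)) hv₂ (hc₂ z (iz z hz)) (hc₂ _ i1) (hc₂ _ i3)
      (hd₂ _ i1 _ i3 n13) (hd₂ _ (iz z hz) _ i1 (nz1 z hz)) (hd₂ _ (iz z hz) _ i3 (nz3 z hz))
      m2 (sC2 (Finset.mem_image_of_mem _ hz)) m21 m23 hv₄ (hc₄ z (jz z hz)) (hc₄ _ j3)
      (hd₄ _ (jz z hz) _ j3 (nz3 z hz))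
  case EW => exact fun x hx h => bW₀ x hx (hE h)
  case EV => exact fun x hx h => bV x hx (hE h)
  case E1 => exact fun x hx h => bC₁ x hx (s01 (hE h))
  case E2 => exact fun x hx h => bC₂ x hx (s02 (hE h))
  case E4 => exact fun x hx h => bC₄ x hx (s03 (hE h))
  case WV =>
    refine hW _ (fun h => hv₁ (sV1 h)) (fun h => hv₂ (s12 (sV1 h))) ?_
      (fun h => hv₄ (s13 (sV1 h))) (hcV _ _) (hcV _ _) (hcV _ _)
    intro h
    obtain ⟨z, hz, h1⟩ := Finset.mem_image.1 h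
    exact hZv z hz h1
  case W1 =>
    exact hW _ (hvC _ _) (hvC _ _) (hvC _ _) (hvC _ _) (fun h => hc₂ _ i1 (sC1 h))
      (fun h => hc₂ _ i3 (sC1 h)) (fun h => hc₄ _ j3 (s23 (sC1 h)))
  case W2 =>
    refine hW _ (hvC _ _) (hvC _ _) (hvC _ _) (hvC _ _) ?_ ?_ (fun h => hc₄ _ j3 (sC2 h))
    · intro h
      obtain ⟨z, hz, h1⟩ := Finset.mem_image.1 h
      exact hd₂ z (iz z hz) p₁ i1 (nz1 z hz) h1
    · intro h
      obtain ⟨z, hz, h1⟩ := Finset.mem_image.1 h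
      exact hd₂ z (iz z hz) p₃ i3 (nz3 z hz) h1
  case W4 =>
    refine hW _ (hvC _ _) (hvC _ _) (hvC _ _) (hvC _ _) (fun h => bC₄ _ h m21)
      (fun h => bC₄ _ h m23) ?_
    intro h
    obtain ⟨z, hz, h1⟩ := Finset.mem_image.1 h
    exact hd₄ z (jz z hz) p₃ j3 (nz3 z hz) h1
  case d12 => exact Finset.disjoint_left.2 fun x h h' => bC₂ x h' (sC1 h)
  case d14 => exact Finset.disjoint_left.2 fun x h h' => bC₄ x h' (s23 (sC1 h))
  case d24 => exact Finset.disjoint_left.2 fun x h h' => bC₄ x h' (sC2 h)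
  case d1V => exact Finset.disjoint_left.2 fun x h h' => bC₁ x h (sV1 h')
  case d2V => exact Finset.disjoint_left.2 fun x h h' => bC₂ x h (s12 (sV1 h'))
  case d4V => exact Finset.disjoint_left.2 fun x h h' => bC₄ x h (s13 (sV1 h'))

private theorem gad7_points (hX : X ⊆ U k) {i : Bool} {η : Letter}
    (ys : Finset El) (hys : ys ⊆ X) (hcls : ∀ y ∈ ys, clsEl k y = clsC (i, false) η)
    (h40 : ys.card ≤ 40) (F : Finset El) (hℓ : 11 ≤ ℓ)
    (hk : 10 ^ 11 * ((U k \ X).card + F.card + ℓ) < k) :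
    ∃ (zf : El → Pt k) (p₁ p₂ p₃ p₄ : Pt k), p₁ ∈ Lset k (i, false) ∧ p₂ ∈ Lset k (i, false) ∧
      p₃ ∈ Lset k η ∧ p₄ ∈ Lset k (i, false) ∧ (∀ g ∈ ys, zf g ∈ Lset k (i, false)) ∧
      (∀ g ∈ ys, col (zf g) p₃ = g) ∧ Node7 X (F ∪ ys) (ys.image zf) p₁ p₂ p₃ p₄ := by
  classical
  set n := (U k \ X).card + F.card + ℓ with hn
  have hn11 : 11 ≤ n := by omega
  -- the lifts
  have hlift : ∀ g ∈ ys, ∃ s : ZMod (2 * k), ∀ p ∈ Lset k η,
      ((i, p.2 + s) : Pt k) ∈ Lset k (i, false) ∧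
      col ((i, p.2 + s) : Pt k) p = g ∧ vtx ((i, p.2 + s) : Pt k) ≠ vtx p :=
    fun g hg => gad7_lift (hX (hys hg)) (hcls g hg)
  choose! s hs using hlift
  obtain ⟨G₀, hG₀⟩ : ∃ G₀ : Finset El, G₀ = (Uall k \ X) ∪ F ∪ ys := ⟨_, rfl⟩
  have cG₀ : G₀.card ≤ n + 44 := by
    have h1 := card_Uall_sdiff (k := k) X
    have h2 : G₀.card ≤ (Uall k \ X).card + F.card + ys.card := by
      rw [hG₀]
      exact (Finset.card_union_le _ _).trans (Nat.add_le_add_right (Finset.card_union_le _ _) _)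
    omega
  have hUG₀ : Uall k \ X ⊆ G₀ := by
    rw [hG₀]
    exact Finset.subset_union_left.trans Finset.subset_union_left
  have hEG₀ : F ∪ ys ⊆ G₀ := by
    rw [hG₀, Finset.union_assoc]
    exact Finset.subset_union_right
  obtain ⟨p₃, hp₃, hv₃, hz₃⟩ := gad7_p3 (η := η) i ys s G₀
    (by have := gad7_bd (g := G₀.card) (q := ys.card) (by omega) (by omega) hn11 hk; omega)
  obtain ⟨zf, hzf⟩ : ∃ zf : El → Pt k, zf = fun g => (i, p₃.2 + s g) := ⟨_, rfl⟩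
  have hzfθ : ∀ g ∈ ys, zf g ∈ Lset k (i, false) := fun g hg => by
    rw [hzf]; exact (hs g hg p₃ hp₃).1
  have hzfc : ∀ g ∈ ys, col (zf g) p₃ = g := fun g hg => by
    rw [hzf]; exact (hs g hg p₃ hp₃).2.1
  have hzfv : ∀ g ∈ ys, vtx (zf g) ≠ vtx p₃ := fun g hg => by
    rw [hzf]; exact (hs g hg p₃ hp₃).2.2
  have hzfG : ∀ g ∈ ys, vtx (zf g) ∉ G₀ := fun g hg => by
    rw [hzf]; exact hz₃ g hg
  obtain ⟨Z, hZ⟩ : ∃ Z : Finset (Pt k), Z = ys.image zf := ⟨_, rfl⟩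
  have hZ40 : Z.card ≤ 40 := by
    rw [hZ]
    exact Finset.card_image_le.trans h40
  have hZc : ∀ z ∈ Z, col z p₃ ∈ F ∪ ys := by
    intro z hz
    rw [hZ] at hz
    obtain ⟨g, hg, rfl⟩ := Finset.mem_image.1 hz
    rw [hzfc g hg]
    exact Finset.mem_union_right _ hg
  have hZv : ∀ z ∈ Z, vtx z ≠ vtx p₃ := by
    intro z hz
    rw [hZ] at hz
    obtain ⟨g, hg, rfl⟩ := Finset.mem_image.1 hz
    exact hzfv g hg
  have hZG : ∀ z ∈ Z, vtx z ∉ G₀ := by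
    intro z hz
    rw [hZ] at hz
    obtain ⟨g, hg, rfl⟩ := Finset.mem_image.1 hz
    exact hzfG g hg
  have hV40 : (Z.image vtx).card ≤ 40 := Finset.card_image_le.trans hZ40
  obtain ⟨G₁, hG₁⟩ : ∃ G₁ : Finset El, G₁ = G₀ ∪ {vtx p₃} ∪ Z.image vtx := ⟨_, rfl⟩
  have cG₁ : G₁.card ≤ n + 85 := by
    have h2 : G₁.card ≤ G₀.card + 1 + (Z.image vtx).card := by
      rw [hG₁]
      exact (Finset.card_union_le _ _).trans (Nat.add_le_add_right (Finset.card_union_le _ _) _)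
    omega
  obtain ⟨p₁, hp₁, hv₁, hc₁, hd₁⟩ := choose_pt (i, false) Z G₁
    (gad7_bd (by omega) (by omega) hn11 hk)
  have hC₁40 : (Z.image (col p₁)).card ≤ 40 := Finset.card_image_le.trans hZ40
  obtain ⟨G₂, hG₂⟩ : ∃ G₂ : Finset El, G₂ = G₁ ∪ {vtx p₁} ∪ Z.image (col p₁) := ⟨_, rfl⟩
  have cG₂ : G₂.card ≤ n + 126 := by
    have h2 : G₂.card ≤ G₁.card + 1 + (Z.image (col p₁)).card := by
      rw [hG₂]
      exact (Finset.card_union_le _ _).trans (Nat.add_le_add_right (Finset.card_union_le _ _) _)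
    omega
  have hQ₂ : (insert p₁ (insert p₃ Z)).card ≤ 42 :=
    (Finset.card_insert_le _ _).trans (Nat.add_le_add_right
      ((Finset.card_insert_le _ _).trans (Nat.add_le_add_right hZ40 1)) 1)
  obtain ⟨p₂, hp₂, hv₂, hc₂, hd₂⟩ := choose_pt (i, false) (insert p₁ (insert p₃ Z)) G₂
    (gad7_bd (by omega) hQ₂ hn11 hk)
  have hC₂40 : (Z.image (col p₂)).card ≤ 40 := Finset.card_image_le.trans hZ40
  obtain ⟨G₃, hG₃⟩ : ∃ G₃ : Finset El,
    G₃ = G₂ ∪ {vtx p₂} ∪ Z.image (col p₂) ∪ {col p₂ p₁, col p₂ p₃} := ⟨_, rfl⟩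
  have cG₃ : G₃.card ≤ n + 169 := by
    have h2 : G₃.card ≤ G₂.card + 1 + (Z.image (col p₂)).card + 2 := by
      rw [hG₃]
      exact (Finset.card_union_le _ _).trans (Nat.add_le_add ((Finset.card_union_le _ _).trans
        (Nat.add_le_add_right (Finset.card_union_le _ _) _)) Finset.card_le_two)
    omega
  have hQ₃ : (insert p₃ Z).card ≤ 42 :=
    (Finset.card_insert_le _ _).trans (by omega)
  obtain ⟨p₄, hp₄, hv₄, hc₄, hd₄⟩ := choose_pt (i, false) (insert p₃ Z) G₃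
    (gad7_bd (by omega) hQ₃ hn11 hk)
  refine ⟨zf, p₁, p₂, p₃, p₄, hp₁, hp₂, hp₃, hp₄, hzfθ, hzfc, ?_⟩
  rw [← hZ]
  exact gad7_node X (F ∪ ys) Z p₁ p₂ p₃ p₄ G₀ G₁ G₂ G₃ hUG₀ hEG₀ hG₁ hG₂ hG₃ hZc hZv hZG hv₃ hv₁
    hc₁ hv₂ hc₂ hd₂ hv₄ hc₄ hd₄

/-- the covering for one colour -/
private theorem gad7_final {Fill : ℕ → Finset El → Prop}
    {O W Wt ys C₁ C₂ C₄ V D₁ D₂ D₄ D₅ K : Finset El} {s₀ : ℕ} {T₁ T₂ T₄ T₅ : Finset ℕ}
    {a₁ a₂ a₄ v g : El} (hWt : Wt = {v, a₁, a₂, g, a₄}) (m1 : a₁ ∈ C₁) (m2 : a₂ ∈ C₂)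
    (m4 : a₄ ∈ C₄) (mV : v ∈ V) (mg : g ∈ ys)
    (kO : O ⊆ K) (kW : W ⊆ K) (ky : ys ⊆ K) (kV : V ⊆ K) (k1 : C₁ ⊆ K) (k2 : C₂ ⊆ K)
    (k4 : C₄ ⊆ K)
    (dK1 : Disjoint D₁ K) (dK2 : Disjoint D₂ K) (dK4 : Disjoint D₄ K) (dK5 : Disjoint D₅ K)
    (d12 : Disjoint D₁ D₂) (d14 : Disjoint D₁ D₄) (d15 : Disjoint D₁ D₅)
    (d24 : Disjoint D₂ D₄) (d25 : Disjoint D₂ D₅) (d45 : Disjoint D₄ D₅)
    (c12 : Disjoint C₁ C₂) (c14 : Disjoint C₁ C₄) (c24 : Disjoint C₂ C₄)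
    (c1V : Disjoint C₁ V) (c2V : Disjoint C₂ V) (c4V : Disjoint C₄ V)
    (o1 : ∀ x ∈ O, x ∉ C₁) (o2 : ∀ x ∈ O, x ∉ C₂) (o4 : ∀ x ∈ O, x ∉ C₄)
    (oV : ∀ x ∈ O, x ∉ V)
    (w1 : ∀ x ∈ W, x ∉ C₁) (w2 : ∀ x ∈ W, x ∉ C₂) (w4 : ∀ x ∈ W, x ∉ C₄)
    (wV : ∀ x ∈ W, x ∉ V) (g1 : g ∉ C₁) (g2 : g ∉ C₂) (g4 : g ∉ C₄) (gV : g ∉ V)
    (t01 : Disjoint ({s₀} : Finset ℕ) T₁) (t02 : Disjoint (({s₀} : Finset ℕ) ∪ T₁) T₂)
    (t04 : Disjoint (({s₀} : Finset ℕ) ∪ T₁ ∪ T₂) T₄)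
    (t05 : Disjoint (({s₀} : Finset ℕ) ∪ T₁ ∪ T₂ ∪ T₄) T₅)
    (u0 : Fill s₀ (O ∪ (W ∪ Wt))) (u1 : CovT Fill T₁ (D₁ ∪ C₁.erase a₁))
    (u2 : CovT Fill T₂ (D₂ ∪ C₂.erase a₂)) (u4 : CovT Fill T₄ (D₄ ∪ C₄.erase a₄))
    (u5 : CovT Fill T₅ (D₅ ∪ V.erase v)) :
    CovT Fill ({s₀} ∪ T₁ ∪ T₂ ∪ T₄ ∪ T₅)
      (insert g (O ∪ W ∪ C₁ ∪ C₂ ∪ C₄ ∪ V ∪ D₁ ∪ D₂ ∪ D₄ ∪ D₅)) := by
  have hSK : O ∪ (W ∪ Wt) ⊆ K := by
    refine Finset.union_subset kO (Finset.union_subset kW ?_)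
    intro x h
    rw [hWt] at h
    simp only [Finset.mem_insert, Finset.mem_singleton] at h
    rcases h with rfl | rfl | rfl | rfl | rfl
    · exact kV mV
    · exact k1 m1
    · exact k2 m2
    · exact ky mg
    · exact k4 m4
  have hS : ∀ (Cs : Finset El) (a : El), (∀ x ∈ O, x ∉ Cs) → (∀ x ∈ W, x ∉ Cs) →
      (v ∈ Cs → v = a) → (a₁ ∈ Cs → a₁ = a) → (a₂ ∈ Cs → a₂ = a) → (g ∈ Cs → g = a) →
      (a₄ ∈ Cs → a₄ = a) → ∀ x ∈ O ∪ (W ∪ Wt), x ∈ Cs → x = a := by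
    intro Cs a h1 h2 h3 h4 h5 h6 h7 x hx hxC
    rcases Finset.mem_union.1 hx with h | h
    · exact absurd hxC (h1 x h)
    rcases Finset.mem_union.1 h with h | h
    · exact absurd hxC (h2 x h)
    · rw [hWt] at h
      simp only [Finset.mem_insert, Finset.mem_singleton] at h
      rcases h with rfl | rfl | rfl | rfl | rfl
      · exact h3 hxC
      · exact h4 hxC
      · exact h5 hxC
      · exact h6 hxC
      · exact h7 hxC
  have q01 := gad7_disj_SR hSK dK1 (hS C₁ a₁ o1 w1 (fun h => absurd h (Finset.disjoint_right.1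
    c1V mV)) (fun _ => rfl) (fun h => absurd h (Finset.disjoint_right.1 c12 m2))
    (fun h => absurd h g1) (fun h => absurd h (Finset.disjoint_right.1 c14 m4)))
  have q02 := gad7_disj_SR hSK dK2 (hS C₂ a₂ o2 w2 (fun h => absurd h (Finset.disjoint_right.1
    c2V mV)) (fun h => absurd h (Finset.disjoint_left.1 c12 m1)) (fun _ => rfl)
    (fun h => absurd h g2) (fun h => absurd h (Finset.disjoint_right.1 c24 m4)))
  have q04 := gad7_disj_SR hSK dK4 (hS C₄ a₄ o4 w4 (fun h => absurd h (Finset.disjoint_right.1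
    c4V mV)) (fun h => absurd h (Finset.disjoint_left.1 c14 m1))
    (fun h => absurd h (Finset.disjoint_left.1 c24 m2))
    (fun h => absurd h g4) (fun _ => rfl))
  have q05 := gad7_disj_SR hSK dK5 (hS V v oV wV (fun _ => rfl)
    (fun h => absurd h (Finset.disjoint_left.1 c1V m1))
    (fun h => absurd h (Finset.disjoint_left.1 c2V m2))
    (fun h => absurd h gV) (fun h => absurd h (Finset.disjoint_left.1 c4V m4)))
  have q12 := gad7_disj_RR (a := a₁) (a' := a₂) d12 dK1 dK2 k1 k2 c12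
  have q14 := gad7_disj_RR (a := a₁) (a' := a₄) d14 dK1 dK4 k1 k4 c14
  have q24 := gad7_disj_RR (a := a₂) (a' := a₄) d24 dK2 dK4 k2 k4 c24
  have q15 := gad7_disj_RR (a := a₁) (a' := v) d15 dK1 dK5 k1 kV c1V
  have q25 := gad7_disj_RR (a := a₂) (a' := v) d25 dK2 dK5 k2 kV c2V
  have q45 := gad7_disj_RR (a := a₄) (a' := v) d45 dK4 dK5 k4 kV c4V
  have v1 := CovT.union (CovT.single u0) u1 t01 q01
  have v2 := CovT.union v1 u2 t02 (Finset.disjoint_union_left.2 ⟨q02, q12⟩)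
  have v4 := CovT.union v2 u4 t04
    (Finset.disjoint_union_left.2 ⟨Finset.disjoint_union_left.2 ⟨q04, q14⟩, q24⟩)
  have v5 := CovT.union v4 u5 t05
    (Finset.disjoint_union_left.2 ⟨Finset.disjoint_union_left.2
      ⟨Finset.disjoint_union_left.2 ⟨q05, q15⟩, q25⟩, q45⟩)
  rw [← gad7_union O W Wt C₁ C₂ C₄ V D₁ D₂ D₄ D₅ a₁ a₂ a₄ v g m1 m2 m4 mV hWt]
  exact v5

private theorem gad7_slots {A T₁ T₂ T₄ T₅ : Finset ℕ} {s₀ : ℕ} (hs₀ : s₀ ∈ A)
    (hT₁ : T₁ ⊆ A.erase s₀) (hT₂ : T₂ ⊆ (A.erase s₀) \ T₁)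
    (hT₄ : T₄ ⊆ ((A.erase s₀) \ T₁) \ T₂) (hT₅ : T₅ ⊆ (((A.erase s₀) \ T₁) \ T₂) \ T₄) :
    Disjoint ({s₀} : Finset ℕ) T₁ ∧ Disjoint (({s₀} : Finset ℕ) ∪ T₁) T₂ ∧
      Disjoint (({s₀} : Finset ℕ) ∪ T₁ ∪ T₂) T₄ ∧
      Disjoint (({s₀} : Finset ℕ) ∪ T₁ ∪ T₂ ∪ T₄) T₅ ∧
      ({s₀} ∪ T₁ ∪ T₂ ∪ T₄ ∪ T₅ : Finset ℕ) ⊆ A ∧
      ({s₀} ∪ T₁ ∪ T₂ ∪ T₄ ∪ T₅ : Finset ℕ).card ≤
        1 + T₁.card + T₂.card + T₄.card + T₅.card := by
  refine ⟨?_, ?_, ?_, ?_, ?_, ?_⟩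
  · rw [Finset.disjoint_singleton_left]
    exact fun h => (Finset.mem_erase.1 (hT₁ h)).1 rfl
  · rw [Finset.disjoint_left]
    intro x hx hx'
    have h1 := hT₂ hx'
    simp only [Finset.mem_sdiff, Finset.mem_erase] at h1
    rcases Finset.mem_union.1 hx with h | h
    · exact h1.1.1 (Finset.mem_singleton.1 h)
    · exact h1.2 h
  · rw [Finset.disjoint_left]
    intro x hx hx'
    have h1 := hT₄ hx'
    simp only [Finset.mem_sdiff, Finset.mem_erase] at h1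
    rcases Finset.mem_union.1 hx with h | h
    · rcases Finset.mem_union.1 h with h | h
      · exact h1.1.1.1 (Finset.mem_singleton.1 h)
      · exact h1.1.2 h
    · exact h1.2 h
  · rw [Finset.disjoint_left]
    intro x hx hx'
    have h1 := hT₅ hx'
    simp only [Finset.mem_sdiff, Finset.mem_erase] at h1
    rcases Finset.mem_union.1 hx with h | h
    · rcases Finset.mem_union.1 h with h | h
      · rcases Finset.mem_union.1 h with h | h
        · exact h1.1.1.1.1 (Finset.mem_singleton.1 h)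
        · exact h1.1.1.2 h
      · exact h1.1.2 h
    · exact h1.2 h
  · intro x hx
    simp only [Finset.mem_union, Finset.mem_singleton] at hx
    rcases hx with (((rfl | h) | h) | h) | h
    · exact hs₀
    · exact Finset.mem_of_mem_erase (hT₁ h)
    · have h1 := hT₂ h
      simp only [Finset.mem_sdiff, Finset.mem_erase] at h1
      exact h1.1.2
    · have h1 := hT₄ h
      simp only [Finset.mem_sdiff, Finset.mem_erase] at h1
      exact h1.1.1.2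
    · have h1 := hT₅ h
      simp only [Finset.mem_sdiff, Finset.mem_erase] at h1
      exact h1.1.1.1.2
  · exact (Finset.card_union_le _ _).trans (Nat.add_le_add_right ((Finset.card_union_le _ _).trans
        (Nat.add_le_add_right ((Finset.card_union_le _ _).trans (Nat.add_le_add_right
          (Finset.card_union_le _ _) _)) _)) _)

private theorem gad7_card6 (A B C D E F : Finset El) :
    (A ∪ B ∪ C ∪ D ∪ E ∪ F).card ≤ A.card + B.card + C.card + D.card + E.card + F.card :=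
  (Finset.card_union_le _ _).trans (Nat.add_le_add_right ((Finset.card_union_le _ _).trans
    (Nat.add_le_add_right ((Finset.card_union_le _ _).trans (Nat.add_le_add_right
      ((Finset.card_union_le _ _).trans (Nat.add_le_add_right
        (Finset.card_union_le _ _) _)) _)) _)) _)

theorem node_colour (C : Ctx k ℓ w m X) {i₀ i₁ : ℕ} {i : Bool} {η : Letter}
    (hw : Win w ℓ i₀ (i, false) η) (hw' : Win w ℓ i₁ (i, false) (i, false))
    (ys : Finset El) (hys : ys ⊆ X) (hcls : ∀ y ∈ ys, clsEl k y = clsC (i, false) η)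
    (h40 : ys.card ≤ 40) (F : Finset El) (avail : Finset ℕ) (hav : avail ⊆ range m)
    (hav4 : 400 ≤ avail.card) (hk : 10 ^ 11 * ((U k \ X).card + F.card + ℓ) < k) :
    ∃ T ⊆ avail, T.card ≤ 400 ∧ ∃ B : Finset El, Disjoint B (F ∪ ys) ∧
      ∀ y ∈ ys, CovT (Fill k w ℓ X) T (insert y B) := by
  classical
  rcases ys.eq_empty_or_nonempty with rfl | hne
  · exact ⟨∅, Finset.empty_subset _, by simp, ∅, by simp, by simp⟩
  have hℓ : 11 ≤ ℓ := by
    have h1 := hw.lo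
    have h2 := hw.hi
    omega
  obtain ⟨zf, p₁, p₂, p₃, p₄, hp₁, hp₂, hp₃, hp₄, hzfθ, hzfc, N⟩ :=
    gad7_points C.hX ys hys hcls h40 F hℓ hk
  obtain ⟨Z, hZ⟩ : ∃ Z : Finset (Pt k), Z = ys.image zf := ⟨_, rfl⟩
  rw [← hZ] at N
  have hZθ : Z ⊆ Lset k (i, false) := by
    intro z hz
    rw [hZ] at hz
    obtain ⟨g, hg, rfl⟩ := Finset.mem_image.1 hz
    exact hzfθ g hg
  have hZ40 : Z.card ≤ 40 := by
    rw [hZ]
    exact Finset.card_image_le.trans h40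
  have hZne : Z.Nonempty := by
    rw [hZ]
    exact hne.image _
  have hZc : ∀ z ∈ Z, col z p₃ ∈ ys := by
    intro z hz
    rw [hZ] at hz
    obtain ⟨g, hg, rfl⟩ := Finset.mem_image.1 hz
    rw [hzfc g hg]
    exact hg
  have xWz : ∀ z ∈ Z, Wz p₁ p₂ p₃ p₄ z ⊆ X := by
    intro z hz x hx
    rw [gad7_Wz] at hx
    simp only [Finset.mem_insert, Finset.mem_singleton] at hx
    rcases hx with rfl | rfl | rfl | rfl | rfl
    · exact N.xV (Finset.mem_image_of_mem _ hz)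
    · exact N.x1 (Finset.mem_image_of_mem _ hz)
    · exact N.x2 (Finset.mem_image_of_mem _ hz)
    · exact hys (hZc z hz)
    · exact N.x4 (Finset.mem_image_of_mem _ hz)
  have hslot := fun (s : ℕ) (hs : s < m) (F' : Finset El)
      (hk' : 300 * ((U k \ X).card + F'.card + ℓ) < k) =>
    slot_window C hs hw hp₁ hp₂ hp₃ hp₄ Z hZθ hZne hZ40 N.c12
      (fun z hz => Finset.union_subset N.xW (xWz z hz)) F' hk'
  have hpure : ∀ p ∈ Lset k (i, false), ∀ c ∈ Z.image (col p), ∃ d, c = El.p i d ∧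
      d.bodd = false := by
    intro p hp c hc
    obtain ⟨z, hz, rfl⟩ := Finset.mem_image.1 hc
    exact col_pure_even hp (hZθ hz)
  have hpure₁ := hpure p₁ hp₁
  have hpure₂ := hpure p₂ hp₂
  have hpure₄ := hpure p₄ hp₄
  have hVl : ∀ v ∈ Z.image vtx, ∃ z ∈ Lset k ((i, false) : Letter), vtx z = v := by
    intro v hv
    obtain ⟨z, hz, rfl⟩ := Finset.mem_image.1 hv
    exact ⟨z, hZθ hz, rfl⟩
  obtain ⟨xW, xV, x1, x2, x4, -, EW, EV, E1, E2, E4, WV, W1, W2, W4, c12, c14, c24, c1V, c2V,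
    c4V⟩ := N
  have hW7 : (W0 p₁ p₂ p₃ p₄).card ≤ 7 := by
    unfold W0
    exact (Finset.card_insert_le _ _).trans (Nat.add_le_add_right Finset.card_le_six 1)
  obtain ⟨V, hV⟩ : ∃ V : Finset El, V = Z.image vtx := ⟨_, rfl⟩
  obtain ⟨C₁, hC₁⟩ : ∃ V : Finset El, V = Z.image (col p₁) := ⟨_, rfl⟩
  obtain ⟨C₂, hC₂⟩ : ∃ V : Finset El, V = Z.image (col p₂) := ⟨_, rfl⟩
  obtain ⟨C₄, hC₄⟩ : ∃ V : Finset El, V = Z.image (col p₄) := ⟨_, rfl⟩
  obtain ⟨W, hW⟩ : ∃ V : Finset El, V = W0 p₁ p₂ p₃ p₄ := ⟨_, rfl⟩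
  rw [← hV] at xV EV WV c1V c2V c4V hVl
  rw [← hC₁] at x1 E1 W1 c12 c14 c1V hpure₁
  rw [← hC₂] at x2 E2 W2 c12 c24 c2V hpure₂
  rw [← hC₄] at x4 E4 W4 c14 c24 c4V hpure₄
  rw [← hW] at xW EW WV W1 W2 W4 hW7 hslot
  have hV40 : V.card ≤ 40 := by rw [hV]; exact Finset.card_image_le.trans hZ40
  have hC₁40 : C₁.card ≤ 40 := by rw [hC₁]; exact Finset.card_image_le.trans hZ40
  have hC₂40 : C₂.card ≤ 40 := by rw [hC₂]; exact Finset.card_image_le.trans hZ40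
  have hC₄40 : C₄.card ≤ 40 := by rw [hC₄]; exact Finset.card_image_le.trans hZ40
  -- the slot
  obtain ⟨s₀, hs₀⟩ : avail.Nonempty := by
    rw [← Finset.card_pos]
    omega
  obtain ⟨F₀, hF₀⟩ : ∃ F₀ : Finset El, F₀ = F ∪ ys ∪ V ∪ C₁ ∪ C₂ ∪ C₄ := ⟨_, rfl⟩
  have cF₀ : F₀.card ≤ F.card + 200 := by
    have h2 := gad7_card6 F ys V C₁ C₂ C₄
    rw [← hF₀] at h2
    omega
  obtain ⟨fF, fy, fV, f1, f2, f4⟩ := gad7_sub6 F ys V C₁ C₂ C₄
  rw [← hF₀] at fF fy fV f1 f2 f4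
  obtain ⟨Out, -, hOF, -, hOfill⟩ := hslot s₀ (Finset.mem_range.1 (hav hs₀)) F₀ (by omega)
  have cOut : Out.card ≤ 3 * ℓ := by
    obtain ⟨z, hz⟩ := hZne
    have h1 := Fill.card_eq (by omega) (hOfill z hz)
    have h2 : Out.card ≤ (Out ∪ (W ∪ Wz p₁ p₂ p₃ p₄ z)).card :=
      Finset.card_le_card Finset.subset_union_left
    omega
  obtain ⟨Kb, hKb⟩ : ∃ Kb : Finset El, Kb = F₀ ∪ (Out ∪ W) := ⟨_, rfl⟩
  have cKb : Kb.card ≤ F.card + 207 + 3 * ℓ := by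
    have h2 : Kb.card ≤ F₀.card + (Out.card + W.card) := by
      rw [hKb]
      exact (Finset.card_union_le _ _).trans (Nat.add_le_add_left (Finset.card_union_le _ _) _)
    omega
  have kF₀ : F₀ ⊆ Kb := by rw [hKb]; exact Finset.subset_union_left
  have kO : Out ⊆ Kb := by
    rw [hKb]; exact Finset.subset_union_left.trans Finset.subset_union_right
  have kW : W ⊆ Kb := by
    rw [hKb]; exact Finset.subset_union_right.trans Finset.subset_union_right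
  -- the fans
  have hav1 : avail.erase s₀ ⊆ range m := (Finset.erase_subset _ _).trans hav
  have hav1c : 399 ≤ (avail.erase s₀).card := by
    rw [Finset.card_erase_of_mem hs₀]
    omega
  obtain ⟨T₁, hT₁, hT₁c, D₁, hD₁X, hD₁d, hD₁c, hD₁⟩ := fan2 (by omega) C i C₁ x1 hpure₁
    hC₁40 Kb (avail.erase s₀) hav1 (by omega) (by omega)
  have hav2c : 319 ≤ ((avail.erase s₀) \ T₁).card := by
    have := Finset.le_card_sdiff T₁ (avail.erase s₀)
    omega
  have cK1 : (Kb ∪ D₁).card ≤ Kb.card + 240 * ℓ :=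
    (Finset.card_union_le _ _).trans (Nat.add_le_add_left hD₁c _)
  obtain ⟨T₂, hT₂, hT₂c, D₂, hD₂X, hD₂d, hD₂c, hD₂⟩ := fan2 (by omega) C i C₂ x2 hpure₂
    hC₂40 (Kb ∪ D₁) ((avail.erase s₀) \ T₁) (Finset.sdiff_subset.trans hav1) (by omega) (by omega)
  have hav4c : 239 ≤ (((avail.erase s₀) \ T₁) \ T₂).card := by
    have := Finset.le_card_sdiff T₂ ((avail.erase s₀) \ T₁)
    omega
  have cK2 : (Kb ∪ D₁ ∪ D₂).card ≤ Kb.card + 480 * ℓ :=
    (Finset.card_union_le _ _).trans ((Nat.add_le_add cK1 hD₂c).trans (by omega))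
  obtain ⟨T₄, hT₄, hT₄c, D₄, hD₄X, hD₄d, hD₄c, hD₄⟩ := fan2 (by omega) C i C₄ x4 hpure₄
    hC₄40 (Kb ∪ D₁ ∪ D₂) (((avail.erase s₀) \ T₁) \ T₂)
    (Finset.sdiff_subset.trans (Finset.sdiff_subset.trans hav1)) (by omega) (by omega)
  have hav5c : 159 ≤ ((((avail.erase s₀) \ T₁) \ T₂) \ T₄).card := by
    have := Finset.le_card_sdiff T₄ (((avail.erase s₀) \ T₁) \ T₂)
    omega
  have cK4 : (Kb ∪ D₁ ∪ D₂ ∪ D₄).card ≤ Kb.card + 720 * ℓ :=
    (Finset.card_union_le _ _).trans ((Nat.add_le_add cK2 hD₄c).trans (by omega))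
  obtain ⟨T₅, hT₅, hT₅c, D₅, hD₅X, hD₅d, hD₅c, hD₅⟩ := vfan2 (by omega) C hw' V xV hVl
    hV40 (Kb ∪ D₁ ∪ D₂ ∪ D₄) ((((avail.erase s₀) \ T₁) \ T₂) \ T₄)
    (Finset.sdiff_subset.trans (Finset.sdiff_subset.trans (Finset.sdiff_subset.trans hav1)))
    (by omega) (by omega)
  obtain ⟨t01, t02, t04, t05, tA, tc⟩ := gad7_slots hs₀ hT₁ hT₂ hT₄ hT₅
  -- disjointness of the D's
  have dK1 : Disjoint D₁ Kb := Finset.disjoint_of_subset_right Finset.subset_union_left hD₁d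
  have dK2' : Disjoint D₂ (Kb ∪ D₁) :=
    Finset.disjoint_of_subset_right Finset.subset_union_left hD₂d
  have dK2 : Disjoint D₂ Kb := Finset.disjoint_of_subset_right Finset.subset_union_left dK2'
  have d12 : Disjoint D₁ D₂ :=
    (Finset.disjoint_of_subset_right Finset.subset_union_right dK2').symm
  have dK4' : Disjoint D₄ (Kb ∪ D₁ ∪ D₂) :=
    Finset.disjoint_of_subset_right Finset.subset_union_left hD₄d
  have dK4 : Disjoint D₄ Kb := Finset.disjoint_of_subset_right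
    (Finset.subset_union_left.trans Finset.subset_union_left) dK4'
  have d14 : Disjoint D₁ D₄ := (Finset.disjoint_of_subset_right
    (Finset.subset_union_right.trans Finset.subset_union_left) dK4').symm
  have d24 : Disjoint D₂ D₄ :=
    (Finset.disjoint_of_subset_right Finset.subset_union_right dK4').symm
  have dK5' : Disjoint D₅ (Kb ∪ D₁ ∪ D₂ ∪ D₄) :=
    Finset.disjoint_of_subset_right Finset.subset_union_left hD₅d
  have dK5 : Disjoint D₅ Kb := Finset.disjoint_of_subset_right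
    (Finset.subset_union_left.trans (Finset.subset_union_left.trans
      Finset.subset_union_left)) dK5'
  have d15 : Disjoint D₁ D₅ := (Finset.disjoint_of_subset_right
    (Finset.subset_union_right.trans (Finset.subset_union_left.trans
      Finset.subset_union_left)) dK5').symm
  have d25 : Disjoint D₂ D₅ := (Finset.disjoint_of_subset_right
    (Finset.subset_union_right.trans Finset.subset_union_left) dK5').symm
  have d45 : Disjoint D₄ D₅ :=
    (Finset.disjoint_of_subset_right Finset.subset_union_right dK5').symm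
  have oF : ∀ x ∈ Out, x ∉ F₀ := fun x hx hx' => Finset.disjoint_left.1 hOF hx hx'
  refine ⟨{s₀} ∪ T₁ ∪ T₂ ∪ T₄ ∪ T₅, tA, by omega,
    Out ∪ W ∪ C₁ ∪ C₂ ∪ C₄ ∪ V ∪ D₁ ∪ D₂ ∪ D₄ ∪ D₅, ?_, ?_⟩
  · have hEF : F ∪ ys ⊆ F₀ := Finset.union_subset fF fy
    rw [Finset.disjoint_left]
    intro x hx hx'
    have hxF : x ∈ F₀ := hEF hx'
    simp only [Finset.mem_union] at hx
    rcases hx with ((((((((h | h) | h) | h) | h) | h) | h) | h) | h) | h
    · exact oF x h hxF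
    · exact EW x h hx'
    · exact E1 x h hx'
    · exact E2 x h hx'
    · exact E4 x h hx'
    · exact EV x h hx'
    · exact Finset.disjoint_left.1 dK1 h (kF₀ hxF)
    · exact Finset.disjoint_left.1 dK2 h (kF₀ hxF)
    · exact Finset.disjoint_left.1 dK4 h (kF₀ hxF)
    · exact Finset.disjoint_left.1 dK5 h (kF₀ hxF)
  · intro g hg
    have hzZ : zf g ∈ Z := by rw [hZ]; exact Finset.mem_image_of_mem _ hg
    have mV : vtx (zf g) ∈ V := by rw [hV]; exact Finset.mem_image_of_mem _ hzZ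
    have mC1 : col p₁ (zf g) ∈ C₁ := by rw [hC₁]; exact Finset.mem_image_of_mem _ hzZ
    have mC2 : col p₂ (zf g) ∈ C₂ := by rw [hC₂]; exact Finset.mem_image_of_mem _ hzZ
    have mC4 : col p₄ (zf g) ∈ C₄ := by rw [hC₄]; exact Finset.mem_image_of_mem _ hzZ
    have hgE : g ∈ F ∪ ys := Finset.mem_union_right _ hg
    exact gad7_final (ys := ys) (K := Kb) (by rw [gad7_Wz, hzfc g hg]) mC1 mC2 mC4 mV hg
      kO kW (fy.trans kF₀) (fV.trans kF₀) (f1.trans kF₀) (f2.trans kF₀) (f4.trans kF₀)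
      dK1 dK2 dK4 dK5 d12 d14 d15 d24 d25 d45 c12 c14 c24 c1V c2V c4V
      (fun x hx h => oF x hx (f1 h)) (fun x hx h => oF x hx (f2 h))
      (fun x hx h => oF x hx (f4 h)) (fun x hx h => oF x hx (fV h))
      W1 W2 W4 WV (fun h => E1 _ h hgE) (fun h => E2 _ h hgE) (fun h => E4 _ h hgE)
      (fun h => EV _ h hgE) t01 t02 t04 t05 (hOfill _ hzZ) (hD₁ _ mC1) (hD₂ _ mC2) (hD₄ _ mC4)
      (hD₅ _ mV)

end SqCyc
end
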