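import Pool.Agent.Lib.SqCyc.Abs1
import Pool.Agent.Lib.SqCyc.Ext2

section

/-! # GB-1 product sets -/

open Finset

namespace SqCyc

variable {P Q : Type} [Fintype P] [DecidableEq P] [DecidableEq Q]

theorem mix_mem {A : P → Finset Q} (T : Finset P) {x u : P → Q}
    (hx : x ∈ Fintype.piFinset A) (hu : u ∈ Fintype.piFinset A) :
    mix T x u ∈ Fintype.piFinset A := by
  rw [Fintype.mem_piFinset] at hx hu ⊢
  intro i
  unfold mix
  by_cases h : i ∈ T
  · rw [if_pos h]; exact hu i
  · rw [if_neg h]; exact hx i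

private theorem gib1_mix_mix (T : Finset P) (x u : P → Q) :
    mix T (mix T x u) (mix T u x) = x := by
  funext i
  unfold mix
  by_cases h : i ∈ T
  · simp only [if_pos h]
  · simp only [if_neg h]

theorem sum_mix (A : P → Finset Q) (T : Finset P) (G : (P → Q) → ℝ) :
    ∑ x ∈ Fintype.piFinset A, ∑ u ∈ Fintype.piFinset A, G (mix T x u)
      = (Fintype.piFinset A).card * ∑ x ∈ Fintype.piFinset A, G x := by
  have h1 : (Fintype.piFinset A).card * ∑ x ∈ Fintype.piFinset A, G x =
      ∑ p ∈ Fintype.piFinset A ×ˢ Fintype.piFinset A, G p.1 := by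
    rw [Finset.sum_product]
    simp only [Finset.sum_const, nsmul_eq_mul, Finset.mul_sum]
  rw [h1, ← Finset.sum_product' (f := fun x u => G (mix T x u))]
  have hmem : ∀ p ∈ Fintype.piFinset A ×ˢ Fintype.piFinset A,
      ((mix T p.1 p.2, mix T p.2 p.1) : (P → Q) × (P → Q)) ∈
        Fintype.piFinset A ×ˢ Fintype.piFinset A := by
    intro p hp
    rw [Finset.mem_product] at hp ⊢
    exact ⟨mix_mem T hp.1 hp.2, mix_mem T hp.2 hp.1⟩
  refine Finset.sum_nbij' (fun p => (mix T p.1 p.2, mix T p.2 p.1))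
    (fun p => (mix T p.1 p.2, mix T p.2 p.1)) hmem hmem ?_ ?_ ?_
  · intro p _
    exact Prod.ext (gib1_mix_mix T _ _) (gib1_mix_mix T _ _)
  · intro p _
    exact Prod.ext (gib1_mix_mix T _ _) (gib1_mix_mix T _ _)
  · intro p _
    rfl

private theorem gib1_update_mem {A : P → Finset Q} {x : P → Q} {i : P} {z : Q}
    (hx : x ∈ Fintype.piFinset A) (hz : z ∈ A i) :
    Function.update x i z ∈ Fintype.piFinset A := by
  rw [Fintype.mem_piFinset] at hx ⊢
  intro j
  by_cases h : j = i
  · subst h; rw [Function.update_self]; exact hz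
  · rw [Function.update_of_ne h]; exact hx j

theorem sum_update (A : P → Finset Q) (i : P) (G : (P → Q) → ℝ) :
    ∑ x ∈ Fintype.piFinset A, ∑ z ∈ A i, G (Function.update x i z)
      = (A i).card * ∑ x ∈ Fintype.piFinset A, G x := by
  have h1 : ((A i).card : ℝ) * ∑ x ∈ Fintype.piFinset A, G x =
      ∑ p ∈ Fintype.piFinset A ×ˢ A i, G p.1 := by
    rw [Finset.sum_product]
    simp only [Finset.sum_const, nsmul_eq_mul, Finset.mul_sum]
  rw [h1, ← Finset.sum_product' (f := fun x z => G (Function.update x i z))]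
  have hmem : ∀ p ∈ Fintype.piFinset A ×ˢ A i,
      ((Function.update p.1 i p.2, p.1 i) : (P → Q) × Q) ∈ Fintype.piFinset A ×ˢ A i := by
    intro p hp
    rw [Finset.mem_product] at hp ⊢
    exact ⟨gib1_update_mem hp.1 hp.2, (Fintype.mem_piFinset.1 hp.1) i⟩
  have hinv : ∀ p : (P → Q) × Q, ((Function.update (Function.update p.1 i p.2) i (p.1 i),
      (Function.update p.1 i p.2) i) : (P → Q) × Q) = p := by
    intro p
    refine Prod.ext ?_ ?_
    · show Function.update (Function.update p.1 i p.2) i (p.1 i) = p.1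
      rw [Function.update_idem, Function.update_eq_self]
    · show (Function.update p.1 i p.2) i = p.2
      rw [Function.update_self]
  refine Finset.sum_nbij' (fun p => (Function.update p.1 i p.2, p.1 i))
    (fun p => (Function.update p.1 i p.2, p.1 i)) hmem hmem (fun p _ => hinv p)
    (fun p _ => hinv p) (fun p _ => rfl)

/-- a function of the coordinate `i` is independent of a function of the other coordinates -/
theorem sum_indep (A : P → Finset Q) (i : P) (f : Q → ℝ) (G : (P → Q) → ℝ)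
    (hG : ∀ x z, G (Function.update x i z) = G x) :
    (A i).card * ∑ x ∈ Fintype.piFinset A, f (x i) * G x
      = (∑ z ∈ A i, f z) * ∑ x ∈ Fintype.piFinset A, G x := by
  rw [← sum_update A i (fun x => f (x i) * G x)]
  simp only [Function.update_self, hG, ← Finset.sum_mul]
  rw [Finset.mul_sum]

theorem sum_two (A : P → Finset Q) (i j : P) (hij : i ≠ j) (f : Q → Q → ℝ) :
    ((A i).card : ℝ) * (A j).card * ∑ x ∈ Fintype.piFinset A, f (x i) (x j)
      = (Fintype.piFinset A).card * ∑ z ∈ A i, ∑ z' ∈ A j, f z z' := by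
  have h1 := sum_update A i (fun x => f (x i) (x j))
  simp only [Function.update_self, Function.update_of_ne hij.symm] at h1
  have h2 := sum_indep A j (fun z' => ∑ z ∈ A i, f z z') (fun _ => 1) (fun _ _ => rfl)
  simp only [mul_one, Finset.sum_const, nsmul_eq_mul] at h2
  rw [Finset.sum_comm (s := A i), mul_comm ((A i).card : ℝ), mul_assoc, ← h1, h2]
  ring

open Classical in
/-- averaging a bad event over the coordinate `j` -/
theorem sum_bad_le (A : P → Finset Q) (j : P) (H : (P → Q) → ℝ)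
    (hH0 : ∀ x ∈ Fintype.piFinset A, 0 ≤ H x)
    (hH : ∀ x z, H (Function.update x j z) = H x) (Ev : (P → Q) → Prop) (p : ℝ)
    (hE : ∀ x ∈ Fintype.piFinset A,
      (((A j).filter (fun z => Ev (Function.update x j z))).card : ℝ) ≤ p * (A j).card) :
    ∑ x ∈ (Fintype.piFinset A).filter (fun x => Ev x), H x
      ≤ p * ∑ x ∈ Fintype.piFinset A, H x := by
  rcases Finset.eq_empty_or_nonempty (A j) with h0 | h0
  · have h1 : Fintype.piFinset A = ∅ := by
      rw [Finset.eq_empty_iff_forall_notMem]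
      intro x hx
      have h2 := (Fintype.mem_piFinset.1 hx) j
      rw [h0] at h2
      exact absurd h2 (Finset.notMem_empty _)
    rw [h1]
    simp
  · have hc : (0 : ℝ) < (A j).card := by exact_mod_cast Finset.card_pos.2 h0
    have h1 := sum_update A j (fun x => if Ev x then H x else 0)
    have h2 : ∑ x ∈ Fintype.piFinset A, ∑ z ∈ A j,
        (if Ev (Function.update x j z) then H (Function.update x j z) else 0) ≤
        ∑ x ∈ Fintype.piFinset A, (p * (A j).card) * H x := by
      refine Finset.sum_le_sum fun x hx => ?_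
      simp only [hH]
      rw [← Finset.sum_filter, Finset.sum_const, nsmul_eq_mul]
      exact mul_le_mul_of_nonneg_right (hE x hx) (hH0 x hx)
    rw [h1, ← Finset.mul_sum, ← Finset.sum_filter] at h2
    have h3 : ((A j).card : ℝ) * ∑ x ∈ (Fintype.piFinset A).filter (fun x => Ev x), H x ≤
        (A j).card * (p * ∑ x ∈ Fintype.piFinset A, H x) := by
      calc ((A j).card : ℝ) * ∑ x ∈ (Fintype.piFinset A).filter (fun x => Ev x), H x
          ≤ p * (A j).card * ∑ x ∈ Fintype.piFinset A, H x := h2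
        _ = (A j).card * (p * ∑ x ∈ Fintype.piFinset A, H x) := by ring
    exact le_of_mul_le_mul_left h3 hc

end SqCyc
end

section

/-! # GB-2 single site bound -/

open Finset

namespace SqCyc

variable {P Q β E : Type} [Fintype P] [DecidableEq P] [DecidableEq Q] [DecidableEq E]
  [DecidableEq β]

private theorem gib2_psi0 (X' : Finset E) (γ : E → ℝ) (e : E) : 0 ≤ psi X' γ e := by
  unfold psi
  split_ifs
  · exact (Real.exp_pos _).le
  · exact le_refl _

private theorem gib2_psi_le (X' : Finset E) (γ : E → ℝ) (ρ : ℝ) (hρ : ∀ e ∈ X', |γ e| ≤ ρ)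
    (e : E) : psi X' γ e ≤ Real.exp ρ := by
  unfold psi
  split_ifs with h
  · exact Real.exp_le_exp.2 (le_trans (le_abs_self _) (hρ e h))
  · exact (Real.exp_pos _).le

private theorem gib2_psi_ge (X' : Finset E) (γ : E → ℝ) (ρ : ℝ) (hρ : ∀ e ∈ X', |γ e| ≤ ρ)
    (e : E) (he : e ∈ X') : Real.exp (-ρ) ≤ psi X' γ e := by
  unfold psi
  rw [if_pos he]
  exact Real.exp_le_exp.2 (neg_le_of_abs_le (hρ e he))

theorem single_site (A : P → Finset Q) (i : P) (J : Finset β) (F : β → (P → Q) → E)
    (X' : Finset E) (γ : E → ℝ) (ρ p : ℝ) (hρ : ∀ e ∈ X', |γ e| ≤ ρ) (hρ0 : 0 ≤ ρ)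
    (hρ1 : ρ ≤ 1 / 1000) (hp0 : 0 ≤ p) (hp1 : p ≤ 1 / 1000)
    (near : Finset β) (hnear : near ⊆ J) (hn5 : near.card ≤ 5)
    (hdep : ∀ b ∈ J, b ∉ near → ∀ x z, F b (Function.update x i z) = F b x)
    (hbad : ∀ b ∈ near, ∀ x ∈ Fintype.piFinset A,
      (((A i).filter (fun z => F b (Function.update x i z) ∉ X')).card : ℝ) ≤ p * (A i).card)
    (G : (P → Q) → ℝ) (hG0 : ∀ x ∈ Fintype.piFinset A, 0 ≤ G x)
    (hG : ∀ x z, G (Function.update x i z) = G x)
    (T : (P → Q) → Finset Q) (hT : ∀ x z, T (Function.update x i z) = T x) (t : ℕ)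
    (hTt : ∀ x ∈ Fintype.piFinset A, (T x).card ≤ t) :
    ((A i).card : ℝ) * ∑ x ∈ (Fintype.piFinset A).filter (fun x => x i ∈ T x),
        G x * Wt J F X' γ x
      ≤ 2 * t * ∑ x ∈ Fintype.piFinset A, G x * Wt J F X' γ x := by
  classical
  set Near : (P → Q) → ℝ := fun x => ∏ b ∈ near, psi X' γ (F b x) with hNeardef
  set Far : (P → Q) → ℝ := fun x => ∏ b ∈ J \ near, psi X' γ (F b x) with hFardef
  have hW : ∀ x, Wt J F X' γ x = Far x * Near x := by
    intro x
    simp only [Wt, hNeardef, hFardef]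
    exact (Finset.prod_sdiff hnear).symm
  have hFar : ∀ x z, Far (Function.update x i z) = Far x := by
    intro x z
    simp only [hFardef]
    refine Finset.prod_congr rfl (fun b hb => ?_)
    rw [Finset.mem_sdiff] at hb
    rw [hdep b hb.1 hb.2]
  have hNear0 : ∀ x, 0 ≤ Near x := fun x =>
    Finset.prod_nonneg (fun b _ => gib2_psi0 X' γ _)
  have hFar0 : ∀ x, 0 ≤ Far x := fun x =>
    Finset.prod_nonneg (fun b _ => gib2_psi0 X' γ _)
  have hNearle : ∀ x, Near x ≤ Real.exp (5 * ρ) := by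
    intro x
    have h1 : Near x ≤ ∏ _b ∈ near, Real.exp ρ :=
      Finset.prod_le_prod (fun b _ => gib2_psi0 X' γ _) (fun b _ => gib2_psi_le X' γ ρ hρ _)
    rw [Finset.prod_const] at h1
    have h2 : Real.exp ρ ^ near.card ≤ Real.exp ρ ^ 5 :=
      pow_le_pow_right₀ (Real.one_le_exp hρ0) hn5
    have h3 : Real.exp ρ ^ 5 = Real.exp (5 * ρ) := by
      rw [← Real.exp_nat_mul]; norm_num
    linarith
  -- lower bound
  have hNearge : ∀ x ∈ Fintype.piFinset A,
      Real.exp (-(5 * ρ)) * (1 - 5 * p) * (A i).card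
        ≤ ∑ z ∈ A i, Near (Function.update x i z) := by
    intro x hx
    set Good := (A i).filter (fun z => ∀ b ∈ near, F b (Function.update x i z) ∈ X')
      with hGooddef
    have hc1 : ((A i).card : ℝ) ≤ Good.card + 5 * p * (A i).card := by
      have hsub : A i ⊆ Good ∪ near.biUnion
          (fun b => (A i).filter (fun z => F b (Function.update x i z) ∉ X')) := by
        intro z hz
        by_cases hg : ∀ b ∈ near, F b (Function.update x i z) ∈ X'
        · exact Finset.mem_union_left _ (Finset.mem_filter.2 ⟨hz, hg⟩)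
        · push Not at hg
          obtain ⟨b, hb, hb2⟩ := hg
          exact Finset.mem_union_right _
            (Finset.mem_biUnion.2 ⟨b, hb, Finset.mem_filter.2 ⟨hz, hb2⟩⟩)
      have h1 : (A i).card ≤ Good.card + ∑ b ∈ near,
          ((A i).filter (fun z => F b (Function.update x i z) ∉ X')).card :=
        le_trans (Finset.card_le_card hsub) (le_trans (Finset.card_union_le _ _)
          (Nat.add_le_add_left Finset.card_biUnion_le _))
      have h2 : ((A i).card : ℝ) ≤ Good.card + ∑ b ∈ near,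
          (((A i).filter (fun z => F b (Function.update x i z) ∉ X')).card : ℝ) := by
        exact_mod_cast h1
      have h3 : ∑ b ∈ near,
          (((A i).filter (fun z => F b (Function.update x i z) ∉ X')).card : ℝ)
          ≤ ∑ _b ∈ near, p * (A i).card :=
        Finset.sum_le_sum (fun b hb => hbad b hb x hx)
      rw [Finset.sum_const, nsmul_eq_mul] at h3
      have h4 : (near.card : ℝ) * (p * (A i).card) ≤ 5 * (p * (A i).card) := by
        apply mul_le_mul_of_nonneg_right
        · exact_mod_cast hn5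
        · positivity
      linarith
    have hc2 : Real.exp (-(5 * ρ)) * Good.card
        ≤ ∑ z ∈ Good, Near (Function.update x i z) := by
      have : ∀ z ∈ Good, Real.exp (-(5 * ρ)) ≤ Near (Function.update x i z) := by
        intro z hz
        rw [hGooddef, Finset.mem_filter] at hz
        have h1 : ∏ _b ∈ near, Real.exp (-ρ) ≤ Near (Function.update x i z) :=
          Finset.prod_le_prod (fun b _ => (Real.exp_pos _).le)
            (fun b hb => gib2_psi_ge X' γ ρ hρ _ (hz.2 b hb))
        rw [Finset.prod_const] at h1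
        have h2 : Real.exp (-ρ) ^ 5 ≤ Real.exp (-ρ) ^ near.card :=
          pow_le_pow_of_le_one (Real.exp_pos _).le (Real.exp_le_one_iff.2 (by linarith)) hn5
        have h3 : Real.exp (-ρ) ^ 5 = Real.exp (-(5 * ρ)) := by
          rw [← Real.exp_nat_mul]
          congr 1
          push_cast
          ring
        linarith
      have h := Finset.card_nsmul_le_sum Good (fun z => Near (Function.update x i z)) _ this
      rw [nsmul_eq_mul] at h
      linarith
    have hc3 : ∑ z ∈ Good, Near (Function.update x i z)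
        ≤ ∑ z ∈ A i, Near (Function.update x i z) :=
      Finset.sum_le_sum_of_subset_of_nonneg (Finset.filter_subset _ _)
        (fun z _ _ => hNear0 _)
    have hc4 : Real.exp (-(5 * ρ)) * ((1 - 5 * p) * (A i).card)
        ≤ Real.exp (-(5 * ρ)) * Good.card := by
      apply mul_le_mul_of_nonneg_left _ (Real.exp_pos _).le
      linarith
    rw [mul_assoc]
    linarith
  set S := ∑ x ∈ Fintype.piFinset A, G x * Far x with hS
  have hS0 : 0 ≤ S := Finset.sum_nonneg (fun x hx => mul_nonneg (hG0 x hx) (hFar0 x))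
  -- upper bound of the left side
  have hL : ((A i).card : ℝ) * ∑ x ∈ (Fintype.piFinset A).filter (fun x => x i ∈ T x),
        G x * Wt J F X' γ x ≤ t * Real.exp (5 * ρ) * S := by
    rw [Finset.sum_filter,
      ← sum_update A i (fun x => if x i ∈ T x then G x * Wt J F X' γ x else 0), hS,
      Finset.mul_sum]
    refine Finset.sum_le_sum (fun x hx => ?_)
    have h1 : ∀ z ∈ A i,
        (fun x => if x i ∈ T x then G x * Wt J F X' γ x else 0) (Function.update x i z)
          = if z ∈ T x then G x * Far x * Near (Function.update x i z) else 0 := by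
      intro z _
      simp only [Function.update_self, hT, hG, hW, hFar]
      split_ifs
      · ring
      · rfl
    rw [Finset.sum_congr rfl h1, ← Finset.sum_filter]
    have h2 : ∑ z ∈ (A i).filter (fun z => z ∈ T x), G x * Far x * Near (Function.update x i z)
        ≤ ∑ _z ∈ (A i).filter (fun z => z ∈ T x), G x * Far x * Real.exp (5 * ρ) :=
      Finset.sum_le_sum (fun z _ => mul_le_mul_of_nonneg_left (hNearle _)
        (mul_nonneg (hG0 x hx) (hFar0 x)))
    rw [Finset.sum_const, nsmul_eq_mul] at h2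
    have h3 : (((A i).filter (fun z => z ∈ T x)).card : ℝ) ≤ t := by
      have h4 : ((A i).filter (fun z => z ∈ T x)).card ≤ (T x).card :=
        Finset.card_le_card (fun z hz => (Finset.mem_filter.1 hz).2)
      exact_mod_cast le_trans h4 (hTt x hx)
    have h5 : (((A i).filter (fun z => z ∈ T x)).card : ℝ) * (G x * Far x * Real.exp (5 * ρ))
        ≤ t * (G x * Far x * Real.exp (5 * ρ)) :=
      mul_le_mul_of_nonneg_right h3
        (mul_nonneg (mul_nonneg (hG0 x hx) (hFar0 x)) (Real.exp_pos _).le)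
    calc _ ≤ _ := h2
      _ ≤ _ := h5
      _ = _ := by ring
  -- lower bound of the right side
  have hR : Real.exp (-(5 * ρ)) * (1 - 5 * p) * (A i).card * S
      ≤ (A i).card * ∑ x ∈ Fintype.piFinset A, G x * Wt J F X' γ x := by
    rw [← sum_update A i (fun x => G x * Wt J F X' γ x), hS, Finset.mul_sum]
    refine Finset.sum_le_sum (fun x hx => ?_)
    have h1 : ∀ z ∈ A i,
        (fun x => G x * Wt J F X' γ x) (Function.update x i z)
          = G x * Far x * Near (Function.update x i z) := by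
      intro z _
      simp only [hG, hW, hFar]
      ring
    rw [Finset.sum_congr rfl h1, ← Finset.mul_sum]
    have h2 := mul_le_mul_of_nonneg_left (hNearge x hx) (mul_nonneg (hG0 x hx) (hFar0 x))
    linarith
  have hRHS0 : 0 ≤ ∑ x ∈ Fintype.piFinset A, G x * Wt J F X' γ x :=
    Finset.sum_nonneg (fun x hx => mul_nonneg (hG0 x hx) (by
      rw [hW]; exact mul_nonneg (hFar0 x) (hNear0 x)))
  rcases Nat.eq_zero_or_pos (A i).card with h0 | hpos
  · rw [h0]
    simp only [Nat.cast_zero, zero_mul]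
    positivity
  · have hA : (0 : ℝ) < (A i).card := by exact_mod_cast hpos
    have hR2 : Real.exp (-(5 * ρ)) * (1 - 5 * p) * S
        ≤ ∑ x ∈ Fintype.piFinset A, G x * Wt J F X' γ x := by
      have : (A i).card * (Real.exp (-(5 * ρ)) * (1 - 5 * p) * S)
          ≤ (A i).card * ∑ x ∈ Fintype.piFinset A, G x * Wt J F X' γ x := by
        calc _ = Real.exp (-(5 * ρ)) * (1 - 5 * p) * (A i).card * S := by ring
          _ ≤ _ := hR
      exact le_of_mul_le_mul_left this hA
    have he : Real.exp (5 * ρ) ≤ 2 * (Real.exp (-(5 * ρ)) * (1 - 5 * p)) := by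
      have h1 : Real.exp (10 * ρ) ≤ 1 / (1 - 10 * ρ) := by
        have h2 := Real.add_one_le_exp (-(10 * ρ))
        have h3 : (0 : ℝ) < 1 - 10 * ρ := by linarith
        rw [le_div_iff₀ h3]
        calc Real.exp (10 * ρ) * (1 - 10 * ρ)
            ≤ Real.exp (10 * ρ) * Real.exp (-(10 * ρ)) :=
              mul_le_mul_of_nonneg_left (by linarith) (Real.exp_pos _).le
          _ = 1 := by rw [← Real.exp_add]; simp
      have h4 : 1 / (1 - 10 * ρ) ≤ 2 * (1 - 5 * p) := by
        rw [div_le_iff₀ (by linarith)]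
        nlinarith
      have h5 : Real.exp (5 * ρ) = Real.exp (10 * ρ) * Real.exp (-(5 * ρ)) := by
        rw [← Real.exp_add]
        congr 1
        ring
      rw [h5]
      calc Real.exp (10 * ρ) * Real.exp (-(5 * ρ))
          ≤ (2 * (1 - 5 * p)) * Real.exp (-(5 * ρ)) :=
            mul_le_mul_of_nonneg_right (le_trans h1 h4) (Real.exp_pos _).le
        _ = _ := by ring
    have ht : (0 : ℝ) ≤ t := Nat.cast_nonneg t
    calc _ ≤ t * Real.exp (5 * ρ) * S := hL
      _ ≤ t * (2 * (Real.exp (-(5 * ρ)) * (1 - 5 * p))) * S :=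
          mul_le_mul_of_nonneg_right (mul_le_mul_of_nonneg_left he ht) hS0
      _ = 2 * t * (Real.exp (-(5 * ρ)) * (1 - 5 * p) * S) := by ring
      _ ≤ _ := mul_le_mul_of_nonneg_left hR2 (by positivity)

end SqCyc
end

section

/-! # MD-4 uniformity -/

open Finset

namespace SqCyc

variable {k : ℕ} [NeZero k]

theorem m4_mem_shift {θ η : Letter} {P Q z : Pt k} (hP : P ∈ Lset k η) (hQ : Q ∈ Lset k η)
    (hz : z ∈ Lset k θ) : (z.1, z.2 + (Q.2 - P.2)) ∈ Lset k θ := by
  have h := mem_Lset_add hz (Q.2 - P.2)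
  simp only [Lset, mem_filter] at hP hQ
  rw [val_sub_bodd, hP.2.2, hQ.2.2, Bool.xor_self, Bool.xor_false] at h
  exact h

theorem m4_col_shift (z P Q : Pt k) (h : P.1 = Q.1) :
    col (z.1, z.2 + (Q.2 - P.2)) Q = col z P := by
  have e1 : z.2 + (Q.2 - P.2) - Q.2 = z.2 - P.2 := by ring
  have e2 : Q.2 - (z.2 + (Q.2 - P.2)) = P.2 - z.2 := by ring
  simp only [col, e1, e2, h]

theorem sum_col_eq (θ η : Letter) {P Q : Pt k} (hP : P ∈ Lset k η) (hQ : Q ∈ Lset k η)
    (g : El → ℝ) : ∑ z ∈ Lset k θ, g (col z P) = ∑ z ∈ Lset k θ, g (col z Q) := by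
  have ht : P.1 = Q.1 := (m3_track hP).trans (m3_track hQ).symm
  refine sum_nbij' (fun z => (z.1, z.2 + (Q.2 - P.2))) (fun z => (z.1, z.2 + (P.2 - Q.2)))
    ?_ ?_ ?_ ?_ ?_
  · intro z hz; exact m4_mem_shift hP hQ hz
  · intro z hz; exact m4_mem_shift hQ hP hz
  · intro z _
    refine Prod.ext rfl ?_
    show z.2 + (Q.2 - P.2) + (P.2 - Q.2) = z.2
    ring
  · intro z _
    refine Prod.ext rfl ?_
    show z.2 + (P.2 - Q.2) + (Q.2 - P.2) = z.2
    ring
  · intro z _
    rw [m4_col_shift z P Q ht]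

theorem card_vtx_lift (θ : Letter) {e e' : El} (he : e ∈ U k) (he' : e' ∈ U k)
    (hc : clsEl k e = clsV k θ) (hc' : clsEl k e' = clsV k θ) :
    ((Lset k θ).filter (fun z => vtx z = e)).card =
      ((Lset k θ).filter (fun z => vtx z = e')).card := by
  obtain ⟨P, hP, rfl⟩ := exists_vtx_lift he hc
  obtain ⟨Q, hQ, rfl⟩ := exists_vtx_lift he' hc'
  have ht : P.1 = Q.1 := (m3_track hP).trans (m3_track hQ).symm
  have key : ∀ {P Q : Pt k}, P.1 = Q.1 → P ∈ Lset k θ → Q ∈ Lset k θ → ∀ z : Pt k,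
      z ∈ (Lset k θ).filter (fun z => vtx z = vtx P) →
      (z.1, z.2 + (Q.2 - P.2)) ∈ (Lset k θ).filter (fun z => vtx z = vtx Q) := by
    intro P Q ht hP hQ z hz
    rw [mem_filter] at hz ⊢
    refine ⟨m4_mem_shift hP hQ hz.1, ?_⟩
    rw [vtx_eq_iff] at hz ⊢
    refine ⟨hz.2.1.trans ht, ?_⟩
    show z.2 + (Q.2 - P.2) = Q.2 ∨ z.2 + (Q.2 - P.2) = Q.2 + (k : ZMod (2 * k))
    rcases hz.2.2 with h | h
    · left; rw [h]; ring
    · right; rw [h]; ring
  refine card_nbij' (fun z => (z.1, z.2 + (Q.2 - P.2))) (fun z => (z.1, z.2 + (P.2 - Q.2)))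
    ?_ ?_ ?_ ?_
  · intro z hz; exact key ht hP hQ z hz
  · intro z hz; exact key ht.symm hQ hP z hz
  · intro z _
    refine Prod.ext rfl ?_
    show z.2 + (Q.2 - P.2) + (P.2 - Q.2) = z.2
    ring
  · intro z _
    refine Prod.ext rfl ?_
    show z.2 + (P.2 - Q.2) + (Q.2 - P.2) = z.2
    ring

theorem m4_cross {θ η : Letter} (hne : θ.1 ≠ η.1) {e : El} (he : e ∈ U k)
    (hc : clsEl k e = clsC θ η) {z : Pt k} (hz : z ∈ Lset k θ) :
    ((Lset k η).filter (fun u => col z u = e)).card = 1 := by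
  obtain ⟨P, hP, hPe⟩ := exists_col_lift he hc hz
  rw [card_eq_one]
  refine ⟨P, ?_⟩
  ext u
  rw [mem_filter, mem_singleton]
  constructor
  · rintro ⟨hu, hue⟩
    have h1 : u.1 = P.1 := (m3_track hu).trans (m3_track hP).symm
    have h2 : z.1 ≠ u.1 := by rw [m3_track hz, m3_track hu]; exact hne
    have h3 : z.1 ≠ P.1 := by rw [m3_track hz, m3_track hP]; exact hne
    rw [← hPe, col, col, if_neg h2, if_neg h3] at hue
    injection hue with hd
    split_ifs at hd with h7
    · exact Prod.ext h1 (sub_right_injective (ZMod.val_injective _ hd))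
    · exact Prod.ext h1 (sub_left_injective (ZMod.val_injective _ hd))
  · rintro rfl
    exact ⟨hP, hPe⟩

theorem m4_pure {θ η : Letter} (heq : θ.1 = η.1) {e : El} (he : e ∈ U k)
    (hc : clsEl k e = clsC θ η) {z : Pt k} (hz : z ∈ Lset k θ) :
    ((Lset k η).filter (fun u => col z u = e)).card = 2 := by
  obtain ⟨P, hP, hPe⟩ := exists_col_lift he hc hz
  have ht : z.1 = P.1 := by rw [m3_track hz, m3_track hP]; exact heq
  have hQ : (P.1, z.2 + z.2 - P.2) ∈ Lset k η := by
    have h := mem_Lset_add hP (z.2 + z.2 - P.2 - P.2)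
    rw [val_sub_bodd, val_sub_bodd, val_add_bodd] at h
    have e1 : P.2 + (z.2 + z.2 - P.2 - P.2) = z.2 + z.2 - P.2 := by ring
    rw [e1] at h
    cases hb : z.2.val.bodd <;> cases hb2 : P.2.val.bodd <;> simpa [hb, hb2] using h
  have hQe : col z (P.1, z.2 + z.2 - P.2) = e := by
    rw [← hPe, col_same ht, col_same (show z.1 = ((P.1, z.2 + z.2 - P.2) : Pt k).1 from ht)]
    congr 1
    rw [dst_eq_iff]
    right
    show z.2 - (z.2 + z.2 - P.2) = -(z.2 - P.2)
    ring
  have hne : P ≠ (P.1, z.2 + z.2 - P.2) := by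
    intro h
    have h2 : P.2 = z.2 + z.2 - P.2 := congrArg Prod.snd h
    have h3 : (z.2 - P.2) + (z.2 - P.2) = 0 := by
      have : (z.2 - P.2) + (z.2 - P.2) = (z.2 + z.2 - P.2) - P.2 := by ring
      rw [this, ← h2, sub_self]
    rw [← hPe, col_same ht] at he
    have h4 : 1 ≤ dst (z.2 - P.2) ∧ dst (z.2 - P.2) < k := by
      simp only [U, mem_union, mem_image, mem_product, mem_univ, true_and, mem_Ico,
        mem_range, Prod.exists] at he
      rcases he with (⟨a, b, _, hh⟩ | ⟨a, b, hab, hh⟩) | ⟨a, _, hh⟩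
      · cases hh
      · injection hh with _ hb
        rw [← hb]; exact hab
      · cases hh
    rcases m3_double h3 with h5 | h5
    · have := (dst_eq_zero_iff _).2 h5
      omega
    · have := (dst_eq_k_iff _).2 h5
      omega
  rw [card_eq_two]
  refine ⟨P, (P.1, z.2 + z.2 - P.2), hne, ?_⟩
  ext u
  rw [mem_filter, mem_insert, mem_singleton]
  constructor
  · rintro ⟨hu, hue⟩
    have h1 : u.1 = P.1 := (m3_track hu).trans (m3_track hP).symm
    have h2 : col u z = col P z := by rw [col_comm u z, col_comm P z, hue, hPe]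
    rcases m3_col_eq h1 h2 with h3 | h3
    · left; exact Prod.ext h1 h3
    · right; exact Prod.ext h1 h3
  · rintro (rfl | rfl)
    · exact ⟨hP, hPe⟩
    · exact ⟨hQ, hQe⟩

theorem card_col_lift (θ η : Letter) {e e' : El} (he : e ∈ U k) (he' : e' ∈ U k)
    (hc : clsEl k e = clsC θ η) (hc' : clsEl k e' = clsC θ η) {z z' : Pt k}
    (hz : z ∈ Lset k θ) (hz' : z' ∈ Lset k θ) :
    ((Lset k η).filter (fun u => col z u = e)).card =
      ((Lset k η).filter (fun u => col z' u = e')).card := by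
  by_cases h : θ.1 = η.1
  · rw [m4_pure h he hc hz, m4_pure h he' hc' hz']
  · rw [m4_cross h he hc hz, m4_cross h he' hc' hz']

end SqCyc
end

section

/-! # GB-5 configurations of a slot -/

open Finset

namespace SqCyc

variable {k : ℕ} [NeZero k] {ℓ : ℕ} {w : ℕ → Letter} {X' : Finset El} {p : ℝ}

omit [NeZero k] in
private theorem g5_el_congr {b : ℕ × ℕ} {y y' : ℕ → Pt k} (h1 : y b.2 = y' b.2)
    (h2 : y (b.2 + b.1) = y' (b.2 + b.1)) : el y b = el y' b := by
  unfold el
  rw [h1, h2]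

private theorem g5_mem_idx {b : ℕ × ℕ} {n : ℕ} (hb : b ∈ idx n) :
    b.1 ≤ 2 ∧ b.2 < n ∧ (b.1 = 0 → 2 ≤ b.2) ∧ (b.1 = 1 → 1 ≤ b.2) := by
  obtain ⟨t, i⟩ := b
  simp only [idx, Finset.mem_sdiff, Finset.mem_product, Finset.mem_range, Finset.mem_insert,
    Finset.mem_singleton, Prod.mk.injEq] at hb
  simp only
  omega

theorem Fc_congr {b : ℕ × ℕ} {x x' : Cfg k ℓ}
    (h : ∀ i : Fin (ℓ + 2), i.val = b.2 ∨ i.val = b.2 + b.1 → x i = x' i) : Fc b x = Fc b x' := by
  unfold Fc
  apply g5_el_congr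
  · unfold ext
    split_ifs with h1
    · exact h ⟨b.2, h1⟩ (Or.inl rfl)
    · rfl
  · unfold ext
    split_ifs with h1
    · exact h ⟨b.2 + b.1, h1⟩ (Or.inr rfl)
    · rfl

theorem Fc_update {b : ℕ × ℕ} (x : Cfg k ℓ) (i : Fin (ℓ + 2)) (z : Pt k)
    (h1 : i.val ≠ b.2) (h2 : i.val ≠ b.2 + b.1) : Fc b (Function.update x i z) = Fc b x := by
  apply Fc_congr
  intro j hj
  apply Function.update_of_ne
  rintro rfl
  rcases hj with hj | hj
  · exact h1 hj
  · exact h2 hj

theorem near_card (ℓ : ℕ) (i : ℕ) :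
    ((idx ℓ).filter (fun b => i = b.2 ∨ i = b.2 + b.1)).card ≤ 5 := by
  refine (Finset.card_le_card (t := {(0, i), (1, i), (2, i), (1, i - 1), (2, i - 2)}) ?_).trans
    Finset.card_le_five
  intro b hb
  rw [Finset.mem_filter] at hb
  have h := g5_mem_idx hb.1
  obtain ⟨t, j⟩ := b
  simp only [Finset.mem_insert, Finset.mem_singleton, Prod.mk.injEq] at *
  omega

theorem card_Apos {i : Fin (ℓ + 2)} (h2 : 2 ≤ i.val) (hi : i.val < ℓ) (s : ℕ) :
    (Apos k w ℓ s i).card = k ∧ Apos k w ℓ s i = Lset k (w i.val) := by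
  have h : Apos k w ℓ s i = Lset k (w i.val) := by
    unfold Apos
    rw [if_neg (by omega), if_neg (by omega), if_pos hi]
  exact ⟨by rw [h, card_Lset], h⟩

private theorem g5_PA_mem (s : ℕ) : PA k s ∈ Lset k (false, false) := by
  unfold PA Lset
  rw [Finset.mem_filter]
  refine ⟨Finset.mem_univ _, rfl, ?_⟩
  simp only
  rw [val_natCast_bodd]
  simp

private theorem g5_PC_mem (s : ℕ) : PC k s ∈ Lset k (true, false) := by
  unfold PC Lset
  rw [Finset.mem_filter]
  refine ⟨Finset.mem_univ _, rfl, ?_⟩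
  simp only
  rw [val_natCast_bodd]
  simp [Nat.bodd_mul]

theorem Apos_subset (G : GCtx k ℓ w X' p) (i : Fin (ℓ + 2)) (s : ℕ) :
    Apos k w ℓ s i ⊆ Lset k (w i.val) := by
  have hi := i.isLt
  unfold Apos
  split_ifs with h0 h1 h2 h3
  · rw [Finset.singleton_subset_iff, h0, G.w0]
    exact g5_PA_mem s
  · rw [Finset.singleton_subset_iff, h1, G.w1]
    exact g5_PC_mem s
  · exact Finset.Subset.refl _
  · rw [Finset.singleton_subset_iff, h3, G.wl]
    exact g5_PA_mem _
  · have h4 : i.val = ℓ + 1 := by omega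
    rw [Finset.singleton_subset_iff, h4, G.wl1]
    exact g5_PC_mem _

/-- the letters of a configuration -/
theorem Om_mem_Lset (G : GCtx k ℓ w X' p) {s : ℕ} {x : Cfg k ℓ} (hx : x ∈ Om k w ℓ s) {i : ℕ}
    (hi : i < ℓ + 2) : ext x i ∈ Lset k (w i) := by
  unfold ext
  rw [dif_pos hi]
  unfold Om at hx
  rw [Fintype.mem_piFinset] at hx
  exact Apos_subset G ⟨i, hi⟩ s (hx ⟨i, hi⟩)

theorem clsEl_Fc (G : GCtx k ℓ w X' p) {s : ℕ} {x : Cfg k ℓ} (hx : x ∈ Om k w ℓ s)
    {b : ℕ × ℕ} (hb : b ∈ idx ℓ) : clsEl k (Fc b x) = clsB k w b := by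
  obtain ⟨h1, h2, h3, h4⟩ := g5_mem_idx hb
  unfold Fc el clsB
  split_ifs with h
  · exact clsEl_vtx (Om_mem_Lset G hx (by omega))
  · exact clsEl_col (Om_mem_Lset G hx (by omega)) (Om_mem_Lset G hx (by omega))

/-- value of an index at an updated configuration -/
private theorem g5_site {x : Cfg k ℓ} {i : Fin (ℓ + 2)} {b : ℕ × ℕ} (hb : b ∈ idx ℓ)
    (hib : i.val = b.2 ∨ i.val = b.2 + b.1) :
    (b.1 = 0 ∧ ∀ z, Fc b (Function.update x i z) = vtx z) ∨
    ∃ j : ℕ, j < ℓ + 2 ∧ b.1 ≠ 0 ∧ ((j = b.2 + b.1 ∧ i.val = b.2) ∨ (j = b.2 ∧ i.val = b.2 + b.1)) ∧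
      ∀ z, Fc b (Function.update x i z) = col z (ext x j) := by
  obtain ⟨h1, h2, h3, h4⟩ := g5_mem_idx hb
  have hext : ∀ z, ext (Function.update x i z) i.val = z := by
    intro z
    unfold ext
    rw [dif_pos i.isLt]
    simp
  have hext' : ∀ z (j : ℕ), j ≠ i.val → ext (Function.update x i z) j = ext x j := by
    intro z j hj
    unfold ext
    split_ifs with h
    · apply Function.update_of_ne
      intro h'
      apply hj
      rw [← h']
    · rfl
  by_cases h0 : b.1 = 0
  · left
    refine ⟨h0, ?_⟩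
    intro z
    unfold Fc el
    rw [if_pos h0]
    have : b.2 = i.val := by
      rcases hib with h | h
      · exact h.symm
      · rw [h0] at h; omega
    rw [this, hext]
  · right
    rcases hib with h | h
    · refine ⟨b.2 + b.1, by omega, h0, Or.inl ⟨rfl, h⟩, ?_⟩
      intro z
      unfold Fc el
      rw [if_neg h0, ← h, hext, hext' z _ (by omega)]
    · refine ⟨b.2, by omega, h0, Or.inr ⟨rfl, h⟩, ?_⟩
      intro z
      unfold Fc el
      rw [if_neg h0, ← h, hext, hext' z _ (by omega), col_comm]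

/-- few bad values at a free position -/
theorem bad_site (G : GCtx k ℓ w X' p) {s : ℕ} {x : Cfg k ℓ} (hx : x ∈ Om k w ℓ s)
    {i : Fin (ℓ + 2)} (h2 : 2 ≤ i.val) (hi : i.val < ℓ) {b : ℕ × ℕ} (hb : b ∈ idx ℓ)
    (hib : i.val = b.2 ∨ i.val = b.2 + b.1) :
    (((Apos k w ℓ s i).filter (fun z => Fc b (Function.update x i z) ∉ X')).card : ℝ)
      ≤ p * (Apos k w ℓ s i).card := by
  obtain ⟨hc, hA⟩ := card_Apos (k := k) (w := w) h2 hi s
  rw [hc, hA]
  rcases g5_site (x := x) hb hib with ⟨h0, h⟩ | ⟨j, hj, h0, -, h⟩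
  · simp only [h]
    have h5 := card_bad_vtx G.hX (w i.val)
    have h6 := G.bad (clsV k (w i.val))
    have h7 : ((((Lset k (w i.val)).filter (fun z => vtx z ∉ X')).card : ℕ) : ℝ) ≤
        2 * (((U k \ X').filter (fun e => clsEl k e = clsV k (w i.val))).card : ℝ) := by
      exact_mod_cast h5
    linarith
  · simp only [h]
    have h5 := card_bad_col G.hX (w i.val) (w j) (Om_mem_Lset G hx hj)
    have h6 := G.bad (clsC (w i.val) (w j))
    have h7 : ((((Lset k (w i.val)).filter (fun z => col z (ext x j) ∉ X')).card : ℕ) : ℝ) ≤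
        2 * (((U k \ X').filter (fun e => clsEl k e = clsC (w i.val) (w j))).card : ℝ) + 2 := by
      exact_mod_cast h5
    linarith

/-- at most two values at a free position give a prescribed element -/
theorem two_site {s : ℕ} (x : Cfg k ℓ)
    {i : Fin (ℓ + 2)} (h2 : 2 ≤ i.val) (hi : i.val < ℓ) {b : ℕ × ℕ} (hb : b ∈ idx ℓ)
    (hib : i.val = b.2 ∨ i.val = b.2 + b.1) (e : El) :
    ((Apos k w ℓ s i).filter (fun z => Fc b (Function.update x i z) = e)).card ≤ 2 := by
  obtain ⟨hc, hA⟩ := card_Apos (k := k) (w := w) h2 hi s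
  rw [hA]
  rcases g5_site (x := x) hb hib with ⟨h0, h⟩ | ⟨j, hj, h0, -, h⟩
  · simp only [h]
    exact m3_vtx_fib (w i.val) e
  · simp only [h]
    exact m3_col_fib (w i.val) (ext x j) e

private theorem g5_card_bad (G : GCtx k ℓ w X' p) :
    ((Uall k \ X').card : ℝ) ≤ k / 200 + 4 := by
  classical
  have h1 : (Uall k \ X').card ≤ (U k \ X').card + 4 := by
    have hs : Uall k \ X' ⊆ (U k \ X') ∪ {El.p false 0, El.p true 0, El.p false k, El.p true k} := by
      intro e he
      rw [Finset.mem_sdiff] at he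
      unfold Uall at he
      rw [Finset.mem_union] at he
      rw [Finset.mem_union, Finset.mem_sdiff]
      rcases he.1 with h | h
      · exact Or.inl ⟨h, he.2⟩
      · exact Or.inr h
    refine (Finset.card_le_card hs).trans ((Finset.card_union_le _ _).trans ?_)
    exact Nat.add_le_add_left Finset.card_le_four _
  have h2 : (U k \ X').card = ∑ c : Cls, ((U k \ X').filter (fun e => clsEl k e = c)).card :=
    Finset.card_eq_sum_card_fiberwise (fun _ _ => Finset.mem_coe.2 (Finset.mem_univ _))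
  have h3 : ((U k \ X').card : ℝ) ≤ ∑ c : Cls, ((p * k - 2) / 2) := by
    rw [h2]
    push_cast
    apply Finset.sum_le_sum
    intro c _
    have := G.bad c
    linarith
  have h4 : (Finset.univ : Finset Cls).card = 10 := by decide
  rw [Finset.sum_const, h4] at h3
  have h5 : ((Uall k \ X').card : ℝ) ≤ (U k \ X').card + 4 := by exact_mod_cast h1
  have h6 : p * k ≤ 1 / 1000 * k :=
    mul_le_mul_of_nonneg_right G.p1 (Nat.cast_nonneg k)
  rw [nsmul_eq_mul] at h3
  push_cast at h3
  linarith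

/-- there is a configuration with all elements in `X'` -/
theorem exists_good (G : GCtx k ℓ w X' p) {s : ℕ} (h1 : vtx (PA k s) ∉ X')
    (h2 : vtx (PC k s) ∉ X') (h3 : vtx (PA k (s + 1)) ∉ X') (h4 : vtx (PC k (s + 1)) ∉ X') :
    ∃ x ∈ Om k w ℓ s, ∀ b ∈ idx ℓ, Fc b x ∈ X' := by
  have hℓ := G.hℓ
  have hk := G.hk
  have hU : ∀ P : Pt k, vtx P ∉ X' → vtx P ∈ Uall k \ X' := by
    intro P hP
    rw [Finset.mem_sdiff]
    refine ⟨?_, hP⟩
    unfold Uall
    exact Finset.mem_union_left _ (vtx_mem_U P)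
  have hcard : 10 * (Uall k \ X').card + 30 * ℓ + 20 < k := by
    have h5 := g5_card_bad G
    have hk' : (100 * (ℓ : ℝ) + 1000) ≤ k := by exact_mod_cast hk
    have hℓ' : (20 : ℝ) ≤ ℓ := by exact_mod_cast hℓ
    have : (10 * ((Uall k \ X').card : ℝ) + 30 * ℓ + 20) < k := by linarith
    exact_mod_cast this
  have hne : ∀ s, PA k s ≠ PC k s := by
    intro s h
    have := congrArg Prod.fst h
    simp [PA, PC] at this
  obtain ⟨y, hy1, -, hy3⟩ := ext_seg_empty w ℓ (by omega) (PA k s) (PC k s) (PA k (s + 1))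
    (PC k (s + 1)) (hne s) (hne (s + 1)) (Uall k \ X') (hU _ h1) (hU _ h2) (hU _ h3) (hU _ h4)
    hcard
  have hxy : ∀ b ∈ idx ℓ, Fc b (fun i : Fin (ℓ + 2) => y i.val) = el y b := by
    intro b hb
    obtain ⟨g1, g2, g3, g4⟩ := g5_mem_idx hb
    unfold Fc
    apply g5_el_congr
    · unfold ext
      rw [dif_pos (by omega)]
    · unfold ext
      rw [dif_pos (by omega)]
  refine ⟨fun i => y i.val, ?_, ?_⟩
  · unfold Om
    rw [Fintype.mem_piFinset]
    intro i
    have hi := i.isLt
    unfold Apos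
    split_ifs with g0 g1 g2 g3
    · rw [Finset.mem_singleton, g0, hy1.h0]
    · rw [Finset.mem_singleton, g1, hy1.h1]
    · exact hy1.lett i.val (by omega) g2
    · rw [Finset.mem_singleton, g3, hy1.hn]
    · have g4 : i.val = ℓ + 1 := by omega
      rw [Finset.mem_singleton, g4, hy1.hn1]
  · intro b hb
    rw [hxy b hb]
    have h5 := hy3 b hb
    rw [Finset.mem_sdiff, not_and, not_not] at h5
    apply h5
    unfold el
    split_ifs
    · unfold Uall
      exact Finset.mem_union_left _ (vtx_mem_U _)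
    · exact col_mem_Uall _ _

end SqCyc
end
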