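import Pool.Agent.Lib.SqCyc.Abs1
import Pool.Agent.Lib.SqCyc.Glue
import Pool.Agent.Lib.SqCyc.Nib5
import Pool.Agent.Lib.SqCyc.Gib5

section

/-! # GB-3 ratio lemma -/

open Finset

namespace SqCyc

private theorem ratio_pointwise {β E : Type} [DecidableEq E] (N : Finset β) (hN : N.card ≤ 17)
    (f : β → E) (X' : Finset E) (γ : E → ℝ) (ρ : ℝ) (hρ : ∀ e ∈ X', |γ e| ≤ ρ) (hρ0 : 0 ≤ ρ)
    (hρ1 : ρ ≤ 1 / 1000) :
    |∏ b ∈ N, psi X' γ (f b) - (1 + ∑ b ∈ N, (if f b ∈ X' then γ (f b) else 0))| ≤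
      289 * ρ ^ 2 + 2 * ∑ b ∈ N, (if f b ∉ X' then (1 : ℝ) else 0) := by
  have hN' : (N.card : ℝ) ≤ 17 := by exact_mod_cast hN
  have hT : |∑ b ∈ N, (if f b ∈ X' then γ (f b) else 0)| ≤ 17 * ρ := by
    refine (Finset.abs_sum_le_sum_abs _ _).trans ?_
    have h1 : ∑ b ∈ N, |(if f b ∈ X' then γ (f b) else 0)| ≤ ∑ _b ∈ N, ρ := by
      refine Finset.sum_le_sum fun b _ => ?_
      split_ifs with h
      · exact hρ _ h
      · simpa using hρ0
    rw [Finset.sum_const, nsmul_eq_mul] at h1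
    nlinarith
  by_cases hall : ∀ b ∈ N, f b ∈ X'
  · have h1 : ∏ b ∈ N, psi X' γ (f b) =
        Real.exp (∑ b ∈ N, (if f b ∈ X' then γ (f b) else 0)) := by
      rw [Real.exp_sum]
      refine Finset.prod_congr rfl fun b hb => ?_
      simp [psi, hall b hb]
    have h2 : ∑ b ∈ N, (if f b ∉ X' then (1 : ℝ) else 0) = 0 :=
      Finset.sum_eq_zero fun b hb => by simp [hall b hb]
    rw [h1, h2]
    set t := ∑ b ∈ N, (if f b ∈ X' then γ (f b) else 0) with ht
    have ht1 : |t| ≤ 1 := hT.trans (by linarith)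
    have h3 := Real.abs_exp_sub_one_sub_id_le ht1
    have h4 : Real.exp t - (1 + t) = Real.exp t - 1 - t := by ring
    rw [h4]
    refine h3.trans ?_
    have h5 : t ^ 2 ≤ (17 * ρ) ^ 2 := by
      rw [← sq_abs t]
      exact pow_le_pow_left₀ (abs_nonneg _) hT 2
    nlinarith
  · push Not at hall
    obtain ⟨b0, hb0, hb0'⟩ := hall
    have h1 : ∏ b ∈ N, psi X' γ (f b) = 0 :=
      Finset.prod_eq_zero hb0 (by simp [psi, hb0'])
    have h2 : (1 : ℝ) ≤ ∑ b ∈ N, (if f b ∉ X' then (1 : ℝ) else 0) := by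
      have := Finset.single_le_sum (f := fun b => (if f b ∉ X' then (1 : ℝ) else 0))
        (fun b _ => by split_ifs <;> norm_num) hb0
      simpa [hb0'] using this
    rw [h1, zero_sub, abs_neg]
    have h3 : |1 + ∑ b ∈ N, (if f b ∈ X' then γ (f b) else 0)| ≤ 1 + 17 * ρ := by
      refine (abs_add_le _ _).trans ?_
      rw [abs_one]
      linarith
    have h4 : 0 ≤ ρ ^ 2 := sq_nonneg ρ
    linarith

private theorem ratio_num {ρ p n S Bd A B : ℝ} (hρ0 : 0 ≤ ρ) (hρ1 : ρ ≤ 1 / 1000) (hp0 : 0 ≤ p)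
    (hp1 : p ≤ 1 / 10000) (hn0 : 0 ≤ n) (hBd0 : 0 ≤ Bd) (hBd_le : Bd ≤ 17 * p * n)
    (hS_ge : -(17 * ρ * n) ≤ S) (hA : n + S - 289 * ρ ^ 2 * n - 2 * Bd ≤ A)
    (hB : B ≤ n + S + 289 * ρ ^ 2 * n + 2 * Bd) :
    (1 - (1200 * ρ ^ 2 + 140 * p)) * B ≤ A := by
  obtain ⟨κ, hκ⟩ : ∃ κ : ℝ, κ = 1200 * ρ ^ 2 + 140 * p := ⟨_, rfl⟩
  rw [← hκ]
  have hρ2 : 0 ≤ ρ ^ 2 := sq_nonneg ρ
  have hρ3 : ρ ^ 2 ≤ 1 / 1000000 := by nlinarith
  have hκ0 : 0 ≤ κ := by rw [hκ]; positivity
  have hκ1 : κ ≤ 1 := by rw [hκ]; linarith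
  have h1 : (1 - κ) * B ≤ (1 - κ) * (n + S + 289 * ρ ^ 2 * n + 2 * Bd) :=
    mul_le_mul_of_nonneg_left hB (by linarith)
  have h2 : κ * (983 / 1000 * n) ≤ κ * (n + S + 289 * ρ ^ 2 * n + 2 * Bd) := by
    refine mul_le_mul_of_nonneg_left ?_ hκ0
    have e1 : 0 ≤ 289 * ρ ^ 2 * n := by positivity
    have e3 : 17 * ρ * n ≤ 17 / 1000 * n := by nlinarith
    linarith
  have h3 : 2 * (289 * ρ ^ 2 * n + 2 * Bd) ≤ κ * (983 / 1000 * n) := by
    have e1 : 0 ≤ ρ ^ 2 * n := by positivity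
    have e2 : 0 ≤ p * n := by positivity
    rw [hκ]
    nlinarith
  nlinarith

theorem ratio_lemma {π β E : Type} [DecidableEq E] (Pa Pb : Finset π)
    (hcard : Pa.card = Pb.card) (N : Finset β) (hN : N.card ≤ 17) (F : β → π → E)
    (X' : Finset E) (γ : E → ℝ) (ρ p : ℝ) (hρ : ∀ e ∈ X', |γ e| ≤ ρ) (hρ0 : 0 ≤ ρ)
    (hρ1 : ρ ≤ 1 / 1000) (hp0 : 0 ≤ p) (hp1 : p ≤ 1 / 10000)
    (heq : ∀ b ∈ N, ∀ g : E → ℝ, ∑ u ∈ Pa, g (F b u) = ∑ u ∈ Pb, g (F b u))
    (hbad : ∀ b ∈ N, ((Pa.filter (fun u => F b u ∉ X')).card : ℝ) ≤ p * Pa.card) :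
    (1 - (1200 * ρ ^ 2 + 140 * p)) * ∑ u ∈ Pb, ∏ b ∈ N, psi X' γ (F b u)
      ≤ ∑ u ∈ Pa, ∏ b ∈ N, psi X' γ (F b u) := by
  have hN' : (N.card : ℝ) ≤ 17 := by exact_mod_cast hN
  set n : ℝ := (Pa.card : ℝ) with hn
  have hn0 : 0 ≤ n := Nat.cast_nonneg _
  have hnb : (Pb.card : ℝ) = n := by rw [hn, hcard]
  -- the linear term
  set g : E → ℝ := fun e => if e ∈ X' then γ e else 0 with hg
  set S : ℝ := ∑ u ∈ Pa, ∑ b ∈ N, g (F b u) with hS
  have hSb : ∑ u ∈ Pb, ∑ b ∈ N, g (F b u) = S := by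
    rw [hS, Finset.sum_comm, Finset.sum_comm (s := Pa)]
    exact Finset.sum_congr rfl fun b hb => (heq b hb g).symm
  -- the bad term
  set i : E → ℝ := fun e => if e ∉ X' then (1 : ℝ) else 0 with hi
  set Bd : ℝ := ∑ u ∈ Pa, ∑ b ∈ N, i (F b u) with hBd
  have hBdb : ∑ u ∈ Pb, ∑ b ∈ N, i (F b u) = Bd := by
    rw [hBd, Finset.sum_comm, Finset.sum_comm (s := Pa)]
    exact Finset.sum_congr rfl fun b hb => (heq b hb i).symm
  have hBd_le : Bd ≤ 17 * p * n := by
    rw [hBd, Finset.sum_comm]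
    have h1 : ∑ b ∈ N, ∑ u ∈ Pa, i (F b u) ≤ ∑ _b ∈ N, p * n := by
      refine Finset.sum_le_sum fun b hb => ?_
      refine le_trans (le_of_eq ?_) (hbad b hb)
      rw [hi]
      simp only
      rw [Finset.sum_ite, Finset.sum_const_zero, add_zero, Finset.sum_const, nsmul_eq_mul, mul_one]
    rw [Finset.sum_const, nsmul_eq_mul] at h1
    have h2 : 0 ≤ p * n := mul_nonneg hp0 hn0
    nlinarith
  -- bound for the linear term
  have hS_ge : -(17 * ρ * n) ≤ S := by
    have h1 : ∑ _u ∈ Pa, (-(17 * ρ)) ≤ S := by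
      rw [hS]
      refine Finset.sum_le_sum fun u _ => ?_
      have h2 : ∑ _b ∈ N, (-ρ) ≤ ∑ b ∈ N, g (F b u) := by
        refine Finset.sum_le_sum fun b _ => ?_
        simp only [hg]
        split_ifs with h
        · exact (abs_le.mp (hρ _ h)).1
        · linarith
      rw [Finset.sum_const, nsmul_eq_mul] at h2
      nlinarith
    rw [Finset.sum_const, nsmul_eq_mul] at h1
    rw [hn]
    linarith
  -- lower bound for the sum over Pa
  have hA : n + S - 289 * ρ ^ 2 * n - 2 * Bd ≤ ∑ u ∈ Pa, ∏ b ∈ N, psi X' γ (F b u) := by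
    have h1 : ∑ u ∈ Pa, ((1 + ∑ b ∈ N, g (F b u)) - (289 * ρ ^ 2 + 2 * ∑ b ∈ N, i (F b u))) ≤
        ∑ u ∈ Pa, ∏ b ∈ N, psi X' γ (F b u) := by
      refine Finset.sum_le_sum fun u _ => ?_
      have := (abs_le.mp (ratio_pointwise N hN (fun b => F b u) X' γ ρ hρ hρ0 hρ1)).1
      simp only [hg, hi]
      linarith
    refine le_trans (le_of_eq ?_) h1
    rw [Finset.sum_sub_distrib, Finset.sum_add_distrib, Finset.sum_add_distrib, Finset.sum_const,
      Finset.sum_const, nsmul_eq_mul, nsmul_eq_mul, ← Finset.mul_sum, ← hS, ← hBd, ← hn]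
    ring
  have hB : ∑ u ∈ Pb, ∏ b ∈ N, psi X' γ (F b u) ≤ n + S + 289 * ρ ^ 2 * n + 2 * Bd := by
    have h1 : ∑ u ∈ Pb, ∏ b ∈ N, psi X' γ (F b u) ≤
        ∑ u ∈ Pb, ((1 + ∑ b ∈ N, g (F b u)) + (289 * ρ ^ 2 + 2 * ∑ b ∈ N, i (F b u))) := by
      refine Finset.sum_le_sum fun u _ => ?_
      have := (abs_le.mp (ratio_pointwise N hN (fun b => F b u) X' γ ρ hρ hρ0 hρ1)).2
      simp only [hg, hi]
      linarith
    refine h1.trans (le_of_eq ?_)
    rw [Finset.sum_add_distrib, Finset.sum_add_distrib, Finset.sum_add_distrib, Finset.sum_const,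
      Finset.sum_const, nsmul_eq_mul, nsmul_eq_mul, ← Finset.mul_sum, hSb, hBdb, hnb]
    ring
  have hBd0 : 0 ≤ Bd := by
    rw [hBd]
    exact Finset.sum_nonneg fun u _ => Finset.sum_nonneg fun b _ => by
      simp only [hi]; split_ifs <;> norm_num
  exact ratio_num hρ0 hρ1 hp0 hp1 hn0 hBd0 hBd_le hS_ge hA hB

end SqCyc
end

section

/-! # GD-8 the avoiding hypotheses (A2a), (A2b) -/

open Finset

namespace SqCyc

variable {k : ℕ} [NeZero k] {ℓ m : ℕ} {w : ℕ → Letter} {X : Finset El}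

private lemma gad8_el_mem (y : ℕ → Pt k) (b : ℕ × ℕ) : el y b ∈ Uall k := by
  unfold el
  split_ifs
  · exact Finset.mem_union_left _ (vtx_mem_U _)
  · exact col_mem_Uall _ _

private lemma gad8_of_seg {s : ℕ} (F : Finset El) {y : ℕ → Pt k}
    (hy : Seg k w ℓ (PA k s) (PC k s) (PA k (s + 1)) (PC k (s + 1)) y)
    (hi : Set.InjOn (el y) (idx ℓ)) (hf : ∀ b ∈ idx ℓ, el y b ∉ (Uall k \ X) ∪ F) :
    Fill k w ℓ X s ((idx ℓ).image (el y)) ∧ Disjoint ((idx ℓ).image (el y)) F := by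
  refine ⟨⟨y, hy, hi, rfl, ?_⟩, ?_⟩
  · intro e he
    obtain ⟨b, hb, rfl⟩ := Finset.mem_image.1 he
    have h1 := hf b hb
    rw [Finset.mem_union, Finset.mem_sdiff] at h1
    by_contra hc
    exact h1 (Or.inl ⟨gad8_el_mem y b, hc⟩)
  · rw [Finset.disjoint_left]
    intro e he heF
    obtain ⟨b, hb, rfl⟩ := Finset.mem_image.1 he
    exact hf b hb (Finset.mem_union_right _ heF)

private lemma gad8_card (F : Finset El) :
    ((Uall k \ X) ∪ F).card ≤ (U k \ X).card + 4 + F.card := by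
  refine (Finset.card_union_le _ _).trans ?_
  have h1 : Uall k \ X ⊆ (U k \ X) ∪ {El.p false 0, El.p true 0, El.p false k, El.p true k} := by
    intro e he
    unfold Uall at he
    simp only [Finset.mem_sdiff, Finset.mem_union] at he ⊢
    tauto
  have h2 := (Finset.card_le_card h1).trans (Finset.card_union_le _ _)
  have h3 : ({El.p false 0, El.p true 0, El.p false k, El.p true k} : Finset El).card ≤ 4 :=
    Finset.card_le_four
  omega

private lemma gad8_ports (C : Ctx k ℓ w m X) {s : ℕ} (hs : s ≤ m) (F : Finset El) :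
    vtx (PA k s) ∈ (Uall k \ X) ∪ F ∧ vtx (PC k s) ∈ (Uall k \ X) ∪ F := by
  constructor
  · exact Finset.mem_union_left _ (Finset.mem_sdiff.2
      ⟨Finset.mem_union_left _ (vtx_mem_U _), C.hA s hs⟩)
  · exact Finset.mem_union_left _ (Finset.mem_sdiff.2
      ⟨Finset.mem_union_left _ (vtx_mem_U _), C.hC s hs⟩)

private lemma gad8_ne (s : ℕ) : PA k s ≠ PC k s := by
  intro h
  have := congrArg Prod.fst h
  simp [PA, PC] at this

private lemma gad8_len (C : Ctx k ℓ w m X) : 11 ≤ ℓ := by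
  obtain ⟨i, hi⟩ := C.wins.AA
  have h1 := hi.lo
  have h2 := hi.hi
  omega

theorem fill_avoid (C : Ctx k ℓ w m X) {s : ℕ} (hs : s < m) (F : Finset El)
    (hk : 1000 * ((U k \ X).card + F.card + ℓ) < k) :
    ∃ A, Fill k w ℓ X s A ∧ Disjoint A F := by
  have hℓ := gad8_len C
  have hc := gad8_card (X := X) (k := k) F
  obtain ⟨y, hy, hi, hf⟩ := ext_seg_empty w ℓ (by omega) (PA k s) (PC k s) (PA k (s + 1))
    (PC k (s + 1)) (gad8_ne s) (gad8_ne (s + 1)) ((Uall k \ X) ∪ F)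
    (gad8_ports C hs.le F).1 (gad8_ports C hs.le F).2 (gad8_ports C hs F).1
    (gad8_ports C hs F).2 (by omega)
  exact ⟨_, gad8_of_seg F hy hi hf⟩

private lemma gad8_vtx_ne {P Q : Pt k} (h : col P Q ∈ U k) : vtx P ≠ vtx Q := by
  intro hv
  rw [vtx_eq_iff] at hv
  obtain ⟨h1, h2⟩ := hv
  rw [col_same h1] at h
  have h3 : dst (P.2 - Q.2) = 0 ∨ dst (P.2 - Q.2) = k := by
    rcases h2 with h2 | h2
    · left; rw [dst_eq_zero_iff, h2, sub_self]
    · right; rw [dst_eq_k_iff, h2, add_sub_cancel_left]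
  unfold U at h
  simp only [Finset.mem_union, Finset.mem_image, Finset.mem_product, Finset.mem_univ, true_and,
    Finset.mem_Ico, reduceCtorEq, and_false, exists_false, false_or, or_false,
    El.p.injEq, Prod.exists] at h
  obtain ⟨a, b, ⟨hb1, hb2⟩, _, hb⟩ := h
  omega

private lemma gad8_win (C : Ctx k ℓ w m X) (θ : Letter) : ∃ i, Win w ℓ i θ θ := by
  rcases θ with ⟨a, b⟩
  cases a <;> cases b
  · exact C.wins.AA
  · exact C.wins.BB
  · exact C.wins.CC
  · exact C.wins.DD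

private lemma gad8_win2 (C : Ctx k ℓ w m X) (i e : Bool) :
    ∃ θ η i₀, Win w ℓ i₀ θ η ∧ clsC θ η = Cls.P i e := by
  cases i <;> cases e
  · obtain ⟨i₀, h⟩ := C.wins.AA; exact ⟨_, _, i₀, h, rfl⟩
  · obtain ⟨i₀, h⟩ := C.wins.AB; exact ⟨_, _, i₀, h, rfl⟩
  · obtain ⟨i₀, h⟩ := C.wins.CC; exact ⟨_, _, i₀, h, rfl⟩
  · obtain ⟨i₀, h⟩ := C.wins.CD; exact ⟨_, _, i₀, h, rfl⟩

private lemma gad8_win3 (C : Ctx k ℓ w m X) (e : Bool) :
    ∃ θ η i₀, Win w ℓ i₀ θ η ∧ clsC θ η = Cls.X e := by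
  cases e
  · obtain ⟨i₀, h⟩ := C.wins.AC; exact ⟨_, _, i₀, h, rfl⟩
  · obtain ⟨i₀, h⟩ := C.wins.AD; exact ⟨_, _, i₀, h, rfl⟩

/-- the vertex case -/
private lemma gad8_vertex (C : Ctx k ℓ w m X) {s : ℕ} (hs : s < m) (x : El) (hx : x ∈ X)
    (F : Finset El) (hxF : x ∉ F) (hk : 1000 * ((U k \ X).card + F.card + ℓ) < k)
    {θ : Letter} {z : Pt k} (hz : z ∈ Lset k θ) (hzx : vtx z = x) :
    ∃ A, Fill k w ℓ X s A ∧ x ∈ A ∧ Disjoint A F := by
  have hℓ := gad8_len C
  have hc := gad8_card (X := X) (k := k) F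
  have hxf : x ∉ (Uall k \ X) ∪ F := by
    rw [Finset.mem_union, Finset.mem_sdiff]
    rintro (h | h)
    · exact h.2 hx
    · exact hxF h
  obtain ⟨i₀, hw⟩ := gad8_win C θ
  have h4 := hw.lo
  have h7 := hw.hi
  set y₀ : ℕ → Pt k := fun i => if i = 0 then PA k s else if i = 1 then PC k s else
    if i = ℓ then PA k (s + 1) else if i = ℓ + 1 then PC k (s + 1) else z with hy₀
  have hyz : y₀ (i₀ + 2) = z := by
    simp only [hy₀]
    rw [if_neg (by omega), if_neg (by omega), if_neg (by omega), if_neg (by omega)]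
  have hknown : ∀ b ∈ knownIdx ℓ ({i₀ + 2} ∪ {0, 1, ℓ, ℓ + 1}), b = (0, i₀ + 2) := by
    intro b hb
    rcases b with ⟨τ, i⟩
    simp only [knownIdx, idx, Finset.mem_filter, Finset.mem_sdiff, Finset.mem_product,
      Finset.mem_range, Finset.mem_insert, Finset.mem_singleton, Finset.mem_union,
      Prod.mk.injEq] at hb ⊢
    omega
  obtain ⟨y, hy, hyI, hi, hf⟩ := ext_seg w ℓ (by omega) (PA k s) (PC k s) (PA k (s + 1))
    (PC k (s + 1)) (gad8_ne s) (gad8_ne (s + 1)) ((Uall k \ X) ∪ F)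
    (gad8_ports C hs.le F).1 (gad8_ports C hs.le F).2 (gad8_ports C hs F).1
    (gad8_ports C hs F).2 {i₀ + 2} (by
      intro i hi
      rw [Finset.mem_singleton] at hi
      omega) y₀ (by
      intro i hi
      rw [Finset.mem_singleton] at hi
      subst hi
      rw [hyz, hw.l2]
      exact hz) (by simp [hy₀]) (by simp [hy₀]) (by
        simp only [hy₀]
        rw [if_neg (by omega), if_neg (by omega), if_pos trivial]) (by
        simp only [hy₀]
        rw [if_neg (by omega), if_neg (by omega), if_neg (by omega), if_pos trivial]) (by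
        intro b hb b' hb' _
        rw [hknown b hb, hknown b' hb']) (by
        intro b hb
        rw [hknown b hb]
        unfold el
        rw [if_pos rfl]
        show vtx (y₀ (i₀ + 2)) ∉ _
        rw [hyz, hzx]
        exact hxf) (by omega)
  obtain ⟨a1, a2⟩ := gad8_of_seg F hy hi hf
  refine ⟨_, a1, ?_, a2⟩
  rw [Finset.mem_image]
  refine ⟨(0, i₀ + 2), ?_, ?_⟩
  · simp only [idx, Finset.mem_sdiff, Finset.mem_product, Finset.mem_range, Finset.mem_insert,
      Finset.mem_singleton, Prod.mk.injEq]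
    omega
  · unfold el
    rw [if_pos rfl]
    show vtx (y (i₀ + 2)) = x
    rw [hyI _ (Finset.mem_singleton_self _), hyz, hzx]

/-- the colour case -/
private lemma gad8_colour (C : Ctx k ℓ w m X) {s : ℕ} (hs : s < m) (x : El) (hx : x ∈ X)
    (F : Finset El) (hxF : x ∉ F) (hk : 1000 * ((U k \ X).card + F.card + ℓ) < k)
    {θ η : Letter} {i₀ : ℕ} (hw : Win w ℓ i₀ θ η) (hcls : clsEl k x = clsC θ η) :
    ∃ A, Fill k w ℓ X s A ∧ x ∈ A ∧ Disjoint A F := by
  classical
  have hℓ := gad8_len C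
  have hc := gad8_card (X := X) (k := k) F
  have hxf : x ∉ (Uall k \ X) ∪ F := by
    rw [Finset.mem_union, Finset.mem_sdiff]
    rintro (h | h)
    · exact h.2 hx
    · exact hxF h
  have h4 := hw.lo
  have h7 := hw.hi
  set forb := (Uall k \ X) ∪ F with hforb
  -- choice of the two points
  have hlift : ∀ z ∈ Lset k θ, ∃ z' ∈ Lset k η, col z z' = x := fun z hz =>
    exists_col_lift (C.hX hx) hcls hz
  choose! g hg1 hg2 using hlift
  have hb1 : ((Lset k θ).filter (fun z => vtx (g z) ∈ forb)).card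
      ≤ 2 * ((Lset k η).filter (fun z => vtx z ∈ forb)).card := by
    apply Finset.card_le_mul_card_image_of_maps_to (f := g)
    · intro z hz
      rw [Finset.mem_filter] at hz ⊢
      exact ⟨hg1 z hz.1, hz.2⟩
    · intro z' _
      calc _ ≤ ((Lset k θ).filter (fun z => col z z' ∈ ({x} : Finset El))).card := by
            apply Finset.card_le_card
            intro z hz
            simp only [Finset.mem_filter, Finset.mem_singleton] at hz ⊢
            refine ⟨hz.1.1, ?_⟩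
            rw [← hz.2]
            exact hg2 z hz.1.1
        _ ≤ 2 * ({x} : Finset El).card := card_col_fiber {x} θ z'
        _ = 2 := by simp
  have hb2 := card_vtx_fiber (k := k) forb θ
  have hb3 := card_vtx_fiber (k := k) forb η
  have hex : ∃ z ∈ Lset k θ, vtx z ∉ forb ∧ vtx (g z) ∉ forb := by
    by_contra hcon
    push Not at hcon
    have hsub : Lset k θ ⊆ (Lset k θ).filter (fun z => vtx z ∈ forb) ∪
        (Lset k θ).filter (fun z => vtx (g z) ∈ forb) := by
      intro z hz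
      rw [Finset.mem_union, Finset.mem_filter, Finset.mem_filter]
      by_cases h : vtx z ∈ forb
      · exact Or.inl ⟨hz, h⟩
      · exact Or.inr ⟨hz, hcon z hz h⟩
    have h5 := (Finset.card_le_card hsub).trans (Finset.card_union_le _ _)
    rw [card_Lset] at h5
    omega
  obtain ⟨z, hz, hzf, hzf'⟩ := hex
  set z' := g z with hz'
  have hz'm : z' ∈ Lset k η := hg1 z hz
  have hzz : col z z' = x := hg2 z hz
  have hvne : vtx z ≠ vtx z' := gad8_vtx_ne (by rw [hzz]; exact C.hX hx)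
  set y₀ : ℕ → Pt k := fun i => if i = 0 then PA k s else if i = 1 then PC k s else
    if i = ℓ then PA k (s + 1) else if i = ℓ + 1 then PC k (s + 1) else
    if i = i₀ + 2 then z else z' with hy₀
  have hyz : y₀ (i₀ + 2) = z := by
    simp only [hy₀]
    rw [if_neg (by omega), if_neg (by omega), if_neg (by omega), if_neg (by omega),
      if_pos trivial]
  have hyz' : y₀ (i₀ + 3) = z' := by
    simp only [hy₀]
    rw [if_neg (by omega), if_neg (by omega), if_neg (by omega), if_neg (by omega),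
      if_neg (by omega)]
  have hknown : ∀ b ∈ knownIdx ℓ ({i₀ + 2, i₀ + 3} ∪ {0, 1, ℓ, ℓ + 1}),
      b = (0, i₀ + 2) ∨ b = (0, i₀ + 3) ∨ b = (1, i₀ + 2) := by
    intro b hb
    rcases b with ⟨τ, i⟩
    simp only [knownIdx, idx, Finset.mem_filter, Finset.mem_sdiff, Finset.mem_product,
      Finset.mem_range, Finset.mem_insert, Finset.mem_singleton, Finset.mem_union,
      Prod.mk.injEq] at hb ⊢
    omega
  have e1 : el y₀ (0, i₀ + 2) = vtx z := by
    unfold el
    rw [if_pos rfl]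
    show vtx (y₀ (i₀ + 2)) = _
    rw [hyz]
  have e2 : el y₀ (0, i₀ + 3) = vtx z' := by
    unfold el
    rw [if_pos rfl]
    show vtx (y₀ (i₀ + 3)) = _
    rw [hyz']
  have e3 : el y₀ (1, i₀ + 2) = x := by
    unfold el
    rw [if_neg (by norm_num)]
    show col (y₀ (i₀ + 2)) (y₀ (i₀ + 2 + 1)) = _
    rw [hyz, hyz', hzz]
  have n1 : vtx z ≠ x := by rw [← hzz]; exact vtx_ne_col _ _ _
  have n2 : vtx z' ≠ x := by rw [← hzz]; exact vtx_ne_col _ _ _
  obtain ⟨y, hy, hyI, hi, hf⟩ := ext_seg w ℓ (by omega) (PA k s) (PC k s) (PA k (s + 1))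
    (PC k (s + 1)) (gad8_ne s) (gad8_ne (s + 1)) forb
    (gad8_ports C hs.le F).1 (gad8_ports C hs.le F).2 (gad8_ports C hs F).1
    (gad8_ports C hs F).2 {i₀ + 2, i₀ + 3} (by
      intro i hi
      rw [Finset.mem_insert, Finset.mem_singleton] at hi
      omega) y₀ (by
      intro i hi
      rw [Finset.mem_insert, Finset.mem_singleton] at hi
      rcases hi with rfl | rfl
      · rw [hyz, hw.l2]
        exact hz
      · rw [hyz', hw.l3]
        exact hz'm) (by simp [hy₀]) (by simp [hy₀]) (by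
        simp only [hy₀]
        rw [if_neg (by omega), if_neg (by omega), if_pos trivial]) (by
        simp only [hy₀]
        rw [if_neg (by omega), if_neg (by omega), if_neg (by omega), if_pos trivial]) (by
        intro b hb b' hb' hbb
        rcases hknown b hb with rfl | rfl | rfl <;> rcases hknown b' hb' with rfl | rfl | rfl <;>
          simp only [e1, e2, e3] at hbb <;>
          first
            | rfl
            | exact absurd hbb hvne
            | exact absurd hbb hvne.symm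
            | exact absurd hbb n1
            | exact absurd hbb n1.symm
            | exact absurd hbb n2
            | exact absurd hbb n2.symm) (by
        intro b hb
        rcases hknown b hb with rfl | rfl | rfl
        · rw [e1]; exact hzf
        · rw [e2]; exact hzf'
        · rw [e3]; exact hxf) (by omega)
  obtain ⟨a1, a2⟩ := gad8_of_seg F hy hi hf
  refine ⟨_, a1, ?_, a2⟩
  rw [Finset.mem_image]
  refine ⟨(1, i₀ + 2), ?_, ?_⟩
  · simp only [idx, Finset.mem_sdiff, Finset.mem_product, Finset.mem_range, Finset.mem_insert,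
      Finset.mem_singleton, Prod.mk.injEq]
    omega
  · unfold el
    rw [if_neg (by norm_num)]
    show col (y (i₀ + 2)) (y (i₀ + 2 + 1)) = x
    rw [hyI (i₀ + 2) (by simp), hyI (i₀ + 2 + 1) (by simp), hyz, hyz', hzz]

theorem fill_avoid_mem (C : Ctx k ℓ w m X) {s : ℕ} (hs : s < m) (x : El) (hx : x ∈ X)
    (F : Finset El) (hxF : x ∉ F) (hk : 1000 * ((U k \ X).card + F.card + ℓ) < k) :
    ∃ A, Fill k w ℓ X s A ∧ x ∈ A ∧ Disjoint A F := by
  cases x with
  | v i y =>
    have hcl : clsEl k (El.v i y) = clsV k (i, if k.bodd then false else y.bodd) := by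
      unfold clsEl clsV
      split_ifs <;> rfl
    obtain ⟨z, hz, hzx⟩ := exists_vtx_lift (C.hX hx) hcl
    exact gad8_vertex C hs _ hx F hxF hk hz hzx
  | p i d =>
    obtain ⟨θ, η, i₀, hw, hcl⟩ := gad8_win2 C i d.bodd
    exact gad8_colour C hs _ hx F hxF hk hw hcl.symm
  | x d =>
    obtain ⟨θ, η, i₀, hw, hcl⟩ := gad8_win3 C d.bodd
    exact gad8_colour C hs _ hx F hxF hk hw hcl.symm

end SqCyc
end

section

/-! # NB-9 iteration -/

open Finset

namespace SqCyc

section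
variable {α ι : Type} [DecidableEq α] [DecidableEq ι]

private theorem nib_iter_aux {r : ℕ} (hr : 2 ≤ r) {θ : ℝ} (hθ : 0 < θ) (hθ1 : θ ≤ 1 / 2)
    (Δ c : ℝ) (hc : r * θ ^ 2 +
      r * ((1 - θ) ^ (r - 1))⁻¹ * Real.sqrt
        (Real.exp (4 * r ^ 2 * Δ) - 1 + (((1 - θ) ^ (r - 1))⁻¹) ^ 2 * r * Δ) ≤ c)
    (hc0 : 0 ≤ c) (T : ℕ) :
    ∀ (δ : ℝ), 0 ≤ δ → ∀ (V : Finset α) (I : Finset ι) (e : ι → Finset α)
      (w : ι → ℝ), NibSys r δ V I e w → ((1 - θ) ^ (r - 1))⁻¹ ^ T * δ ≤ Δ →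
    ∃ M ⊆ I, (∀ i ∈ M, ∀ j ∈ M, i ≠ j → Disjoint (e i) (e j)) ∧
      (V.card : ℝ) - r * M.card ≤ defc V I e w +
        ((1 - θ) ^ T + c / θ * (1 - (1 - θ) ^ T)) * V.card := by
  have hq0 : 0 < 1 - θ := by linarith
  have hq1 : 1 - θ ≤ 1 := by linarith
  have hlam : 1 ≤ ((1 - θ) ^ (r - 1))⁻¹ := by
    rw [one_le_inv₀ (by positivity)]
    exact pow_le_one₀ hq0.le hq1
  have hr0 : (0 : ℝ) ≤ r := by positivity
  induction T with
  | zero =>
    intro δ _ V I e w hs _
    refine ⟨∅, empty_subset _, by simp, ?_⟩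
    have h1 : 0 ≤ defc V I e w := sum_nonneg fun v hv => by
      have := hs.deg_le v hv
      linarith
    simp only [card_empty, Nat.cast_zero, mul_zero, sub_zero, pow_zero, sub_self, add_zero,
      one_mul]
    linarith
  | succ T ih =>
    intro δ hδ V I e w hs hΔ
    have hpT : (1 - θ) ^ T ≤ 1 := pow_le_one₀ hq0.le hq1
    have hpT0 : 0 < (1 - θ) ^ T := by positivity
    have hK : 0 ≤ (1 - θ) ^ T + c / θ * (1 - (1 - θ) ^ T) := by
      have : 0 ≤ c / θ * (1 - (1 - θ) ^ T) := mul_nonneg (by positivity) (by linarith)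
      linarith
    obtain ⟨V', M, I', w', hV', hM, hI', hMd, hMV, hs', hle⟩ := nib_step hs hr hθ.le hθ1 hδ hK
    have hδΔ : δ ≤ Δ := by
      refine le_trans ?_ hΔ
      have := one_le_pow₀ (n := T + 1) hlam
      nlinarith
    obtain ⟨M₂, hM₂, hM₂d, hM₂le⟩ := ih (((1 - θ) ^ (r - 1))⁻¹ * δ) (by positivity) V' I' e w' hs'
      (by rw [← mul_assoc, ← pow_succ]; exact hΔ)
    have hcross : ∀ i ∈ M, ∀ j ∈ M₂, Disjoint (e i) (e j) := fun i hi j hj =>
      disjoint_of_subset_right (hs'.sub j (hM₂ hj)) (hMV i hi)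
    have hdis : Disjoint M M₂ := by
      rw [disjoint_left]
      intro i hi hi2
      have h1 := hcross i hi i hi2
      rw [disjoint_self_iff_empty] at h1
      have h2 := hs.card i (hM hi)
      rw [h1, card_empty] at h2
      omega
    refine ⟨M ∪ M₂, union_subset hM (hM₂.trans hI'), ?_, ?_⟩
    · intro i hi j hj hij
      rcases mem_union.1 hi with hi | hi <;> rcases mem_union.1 hj with hj | hj
      · exact hMd i hi j hj hij
      · exact hcross i hi j hj
      · exact (hcross j hj i hi).symm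
      · exact hM₂d i hi j hj hij
    · rw [card_union_of_disjoint hdis, Nat.cast_add]
      have hs1 : Real.sqrt
            (Real.exp (4 * r ^ 2 * δ) - 1 + (((1 - θ) ^ (r - 1))⁻¹) ^ 2 * r * δ) ≤
          Real.sqrt
            (Real.exp (4 * r ^ 2 * Δ) - 1 + (((1 - θ) ^ (r - 1))⁻¹) ^ 2 * r * Δ) := by
        apply Real.sqrt_le_sqrt
        have e1 : Real.exp (4 * r ^ 2 * δ) ≤ Real.exp (4 * r ^ 2 * Δ) := by
          apply Real.exp_le_exp.2
          exact mul_le_mul_of_nonneg_left hδΔ (by positivity)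
        have e2 : (((1 - θ) ^ (r - 1))⁻¹) ^ 2 * r * δ ≤ (((1 - θ) ^ (r - 1))⁻¹) ^ 2 * r * Δ :=
          mul_le_mul_of_nonneg_left hδΔ (by positivity)
        linarith
      have hs2 : r * θ ^ 2 + r * ((1 - θ) ^ (r - 1))⁻¹ * Real.sqrt
            (Real.exp (4 * r ^ 2 * δ) - 1 + (((1 - θ) ^ (r - 1))⁻¹) ^ 2 * r * δ) ≤ c := by
        refine le_trans ?_ hc
        have : r * ((1 - θ) ^ (r - 1))⁻¹ * Real.sqrt
            (Real.exp (4 * r ^ 2 * δ) - 1 + (((1 - θ) ^ (r - 1))⁻¹) ^ 2 * r * δ) ≤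
          r * ((1 - θ) ^ (r - 1))⁻¹ * Real.sqrt
            (Real.exp (4 * r ^ 2 * Δ) - 1 + (((1 - θ) ^ (r - 1))⁻¹) ^ 2 * r * Δ) :=
          mul_le_mul_of_nonneg_left hs1 (by positivity)
        linarith
      have hV0 : (0 : ℝ) ≤ V.card := by positivity
      have hKs : (1 - θ) * ((1 - θ) ^ T + c / θ * (1 - (1 - θ) ^ T)) + c =
          (1 - θ) ^ (T + 1) + c / θ * (1 - (1 - θ) ^ (T + 1)) := by
        rw [pow_succ]
        field_simp
        ring
      have hfin : ((1 - θ) * ((1 - θ) ^ T + c / θ * (1 - (1 - θ) ^ T)) + r * θ ^ 2 +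
          r * ((1 - θ) ^ (r - 1))⁻¹ * Real.sqrt
            (Real.exp (4 * r ^ 2 * δ) - 1 + (((1 - θ) ^ (r - 1))⁻¹) ^ 2 * r * δ)) * V.card ≤
          ((1 - θ) ^ (T + 1) + c / θ * (1 - (1 - θ) ^ (T + 1))) * V.card := by
        apply mul_le_mul_of_nonneg_right _ hV0
        rw [← hKs]
        linarith
      linarith

theorem nib_iter {r : ℕ} (hr : 2 ≤ r) {θ : ℝ} (hθ : 0 < θ) (hθ1 : θ ≤ 1 / 2) (T : ℕ)
    {δ : ℝ} (hδ : 0 ≤ δ) {V : Finset α} {I : Finset ι} {e : ι → Finset α}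
    {w : ι → ℝ} (hs : NibSys r δ V I e w) (Δ : ℝ) (hΔ : ((1 - θ) ^ (r - 1))⁻¹ ^ T * δ ≤ Δ) :
    ∃ M ⊆ I, (∀ i ∈ M, ∀ j ∈ M, i ≠ j → Disjoint (e i) (e j)) ∧
      (V.card : ℝ) - r * M.card ≤ defc V I e w +
        ((1 - θ) ^ T + r * θ + r * ((1 - θ) ^ (r - 1))⁻¹ * Real.sqrt
            (Real.exp (4 * r ^ 2 * Δ) - 1 + (((1 - θ) ^ (r - 1))⁻¹) ^ 2 * r * Δ) / θ) *
        V.card := by
  have hq0 : 0 < 1 - θ := by linarith
  set s : ℝ := Real.sqrt
    (Real.exp (4 * r ^ 2 * Δ) - 1 + (((1 - θ) ^ (r - 1))⁻¹) ^ 2 * r * Δ) with hsdef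
  have hs0 : 0 ≤ s := Real.sqrt_nonneg _
  set c : ℝ := r * θ ^ 2 + r * ((1 - θ) ^ (r - 1))⁻¹ * s with hcdef
  have hc0 : 0 ≤ c := by positivity
  obtain ⟨M, hM, hMd, hle⟩ := nib_iter_aux hr hθ hθ1 Δ c le_rfl hc0 T δ hδ V I e w hs hΔ
  refine ⟨M, hM, hMd, hle.trans ?_⟩
  have hV0 : (0 : ℝ) ≤ V.card := by positivity
  have h1 : (1 - θ) ^ T + c / θ * (1 - (1 - θ) ^ T) ≤
      (1 - θ) ^ T + r * θ + r * ((1 - θ) ^ (r - 1))⁻¹ * s / θ := by
    have h2 : 0 ≤ c / θ * (1 - θ) ^ T := by positivity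
    have h3 : c / θ = r * θ + r * ((1 - θ) ^ (r - 1))⁻¹ * s / θ := by
      rw [hcdef]
      field_simp
    have h4 : c / θ * (1 - (1 - θ) ^ T) = c / θ - c / θ * (1 - θ) ^ T := by ring
    rw [h4]
    linarith
  have h5 := mul_le_mul_of_nonneg_right h1 hV0
  linarith

end

end SqCyc
end

section

/-! # GB-7 ratio estimate, colour positions -/

open Finset

namespace SqCyc

variable {k : ℕ} [NeZero k] {ℓ : ℕ} {w : ℕ → Letter} {X' : Finset El} {p : ℝ}

private theorem g7_clsC_comm (θ η : Letter) : clsC θ η = clsC η θ := by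
  unfold clsC
  by_cases h : θ.1 = η.1
  · rw [if_pos h, if_pos h.symm, h, Bool.xor_comm]
  · rw [if_neg h, if_neg (Ne.symm h), Bool.xor_comm]

private theorem g7_count {A : Fin (ℓ + 2) → Finset (Pt k)} {I J : Fin (ℓ + 2)} (hIJ : I ≠ J)
    {θ η : Letter} (hI : A I = Lset k θ) (hJ : A J = Lset k η) (e : El) (c : ℝ)
    (hc : ∀ z ∈ Lset k θ, (((Lset k η).filter (fun u => col z u = e)).card : ℝ) = c)
    (h : Pt k → ℝ) :
    (k : ℝ) * k * ∑ u ∈ (Fintype.piFinset A).filter (fun u => col (u I) (u J) = e), h (u I)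
      = (Fintype.piFinset A).card * (c * ∑ z ∈ Lset k θ, h z) := by
  have h1 := sum_two A I J hIJ (fun z z' => if col z z' = e then h z else 0)
  rw [hI, hJ, card_Lset, card_Lset] at h1
  rw [Finset.sum_filter, h1]
  congr 1
  rw [Finset.mul_sum]
  apply Finset.sum_congr rfl
  intro z hz
  rw [← hc z hz, ← Finset.sum_filter, Finset.sum_const, nsmul_eq_mul]

private theorem g7_key {A : Fin (ℓ + 2) → Finset (Pt k)} {I J : Fin (ℓ + 2)} (hIJ : I ≠ J)
    {θ η : Letter} (hI : A I = Lset k θ) (hJ : A J = Lset k η) {e e' : El} (he : e ∈ U k)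
    (he' : e' ∈ U k) (hc : clsEl k e = clsC θ η) (hc' : clsEl k e' = clsC θ η) :
    ∃ c : ℝ, 0 ≤ c ∧ ∀ h : Pt k → ℝ,
      (k : ℝ) * k * ∑ u ∈ (Fintype.piFinset A).filter (fun u => col (u I) (u J) = e), h (u I)
        = (Fintype.piFinset A).card * (c * ∑ z ∈ Lset k θ, h z) ∧
      (k : ℝ) * k * ∑ u ∈ (Fintype.piFinset A).filter (fun u => col (u I) (u J) = e'), h (u I)
        = (Fintype.piFinset A).card * (c * ∑ z ∈ Lset k θ, h z) := by
  have hk : 0 < k := Nat.pos_of_ne_zero (NeZero.ne k)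
  obtain ⟨z0, hz0⟩ : (Lset k θ).Nonempty := by
    rw [← Finset.card_pos, card_Lset]; exact hk
  refine ⟨(((Lset k η).filter (fun u => col z0 u = e)).card : ℝ), Nat.cast_nonneg _, ?_⟩
  intro h
  refine ⟨g7_count hIJ hI hJ e _ ?_ h, g7_count hIJ hI hJ e' _ ?_ h⟩
  · intro z hz
    rw [card_col_lift θ η he he hc hc hz hz0]
  · intro z hz
    rw [card_col_lift θ η he' he hc' hc hz hz0]

/-- an index that involves the position `I` but not `J` -/
private theorem g7_Fc_mix {x u : Cfg k ℓ} {I J : Fin (ℓ + 2)} {b : ℕ × ℕ}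
    (hJ1 : J.val ≠ b.2) (hJ2 : J.val ≠ b.2 + b.1) :
    Fc b (mix {I, J} x u) = Fc b (Function.update x I (u I)) := by
  apply Fc_congr
  intro i hi
  by_cases h1 : i = I
  · subst h1
    rw [Function.update_self]
    simp [mix]
  · have h2 : i ≠ J := by
      rintro rfl
      rcases hi with hi | hi
      · exact hJ1 hi
      · exact hJ2 hi
    rw [Function.update_of_ne h1]
    simp [mix, h1, h2]

private theorem g7_sub {A : Fin (ℓ + 2) → Finset (Pt k)} {I J : Fin (ℓ + 2)} (hIJ : I ≠ J)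
    {θ η : Letter} (hI : A I = Lset k θ) (hJ : A J = Lset k η) {e e' : El} (he : e ∈ U k)
    (he' : e' ∈ U k) (hc : clsEl k e = clsC θ η) (hc' : clsEl k e' = clsC θ η)
    (x : Cfg k ℓ) (b : ℕ × ℕ) (hb1 : J.val ≠ b.2) (hb2 : J.val ≠ b.2 + b.1)
    (hbad : (((A I).filter (fun z => Fc b (Function.update x I z) ∉ X')).card : ℝ)
      ≤ p * (A I).card) :
    (∀ g : El → ℝ,
      ∑ u ∈ (Fintype.piFinset A).filter (fun u => col (u I) (u J) = e), g (Fc b (mix {I, J} x u))
      = ∑ u ∈ (Fintype.piFinset A).filter (fun u => col (u I) (u J) = e'),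
          g (Fc b (mix {I, J} x u))) ∧
    ((((Fintype.piFinset A).filter (fun u => col (u I) (u J) = e)).filter
      (fun u => Fc b (mix {I, J} x u) ∉ X')).card : ℝ)
      ≤ p * ((Fintype.piFinset A).filter (fun u => col (u I) (u J) = e)).card := by
  have hk : 0 < k := Nat.pos_of_ne_zero (NeZero.ne k)
  have hkR : (0 : ℝ) < k := by exact_mod_cast hk
  obtain ⟨c, hc0, hkey⟩ := g7_key hIJ hI hJ he he' hc hc'
  constructor
  · intro g
    obtain ⟨h1, h2⟩ := hkey (fun z => g (Fc b (Function.update x I z)))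
    have h3 := h1.trans h2.symm
    have h4 := mul_left_cancel₀ (by positivity) h3
    calc _ = _ := Finset.sum_congr rfl fun u _ => by rw [g7_Fc_mix hb1 hb2]
      _ = _ := h4
      _ = _ := Finset.sum_congr rfl fun u _ => by rw [g7_Fc_mix hb1 hb2]
  · have h1 := (hkey (fun z => if Fc b (Function.update x I z) ∉ X' then 1 else 0)).1
    have h2 := (hkey (fun _ => 1)).1
    have e1 : ((((Fintype.piFinset A).filter (fun u => col (u I) (u J) = e)).filter
        (fun u => Fc b (mix {I, J} x u) ∉ X')).card : ℝ)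
        = ∑ u ∈ (Fintype.piFinset A).filter (fun u => col (u I) (u J) = e),
          (if Fc b (Function.update x I (u I)) ∉ X' then (1 : ℝ) else 0) := by
      rw [Finset.card_filter]
      push_cast
      apply Finset.sum_congr rfl
      intro u _
      rw [g7_Fc_mix hb1 hb2]
    have e2 : ∑ z ∈ Lset k θ, (if Fc b (Function.update x I z) ∉ X' then (1 : ℝ) else 0)
        = (((A I).filter (fun z => Fc b (Function.update x I z) ∉ X')).card : ℝ) := by
      rw [Finset.card_filter, hI]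
      push_cast
      rfl
    rw [e2] at h1
    rw [e1]
    rw [Finset.sum_const, Finset.sum_const, card_Lset, nsmul_eq_mul, nsmul_eq_mul, mul_one,
      mul_one] at h2
    rw [hI, card_Lset] at hbad
    rw [hI] at h1
    have h3 : (k : ℝ) * k * ∑ u ∈ (Fintype.piFinset A).filter (fun u => col (u I) (u J) = e),
          (if Fc b (Function.update x I (u I)) ∉ X' then (1 : ℝ) else 0)
        ≤ (k : ℝ) * k * (p * ((Fintype.piFinset A).filter (fun u => col (u I) (u J) = e)).card) := by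
      rw [h1]
      calc _ ≤ ((Fintype.piFinset A).card : ℝ) * (c * (p * k)) := by
            apply mul_le_mul_of_nonneg_left _ (Nat.cast_nonneg _)
            exact mul_le_mul_of_nonneg_left hbad hc0
        _ = p * (((Fintype.piFinset A).card : ℝ) * (c * k)) := by ring
        _ = _ := by rw [← h2]; ring
    exact le_of_mul_le_mul_left h3 (by positivity)

theorem ratio_colour (G : GCtx k ℓ w X' p) (hp : p ≤ 1 / 10000) (γ : El → ℝ) (ρ : ℝ)
    (hρ0 : 0 ≤ ρ) (hρ1 : ρ ≤ 1 / 1000) (hγ : ∀ e ∈ X', |γ e| ≤ ρ) (s : ℕ) {a : ℕ × ℕ}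
    (ha1 : a.1 = 1 ∨ a.1 = 2) (ha2 : 2 ≤ a.2) (haℓ : a.2 + a.1 < ℓ) {e e' : El}
    (he : e ∈ X') (he' : e' ∈ X') (hc : clsEl k e = clsB k w a) (hc' : clsEl k e' = clsB k w a) :
    (1 - (1200 * ρ ^ 2 + 140 * p)) *
        (Real.exp (γ e - γ e') * Nm (Om k w ℓ s) (idx ℓ) Fc X' γ a e')
      ≤ Nm (Om k w ℓ s) (idx ℓ) Fc X' γ a e := by
  have hk : 0 < k := Nat.pos_of_ne_zero (NeZero.ne k)
  have hkR : (0 : ℝ) < k := by exact_mod_cast hk
  have ha0 : a.1 ≠ 0 := by omega
  obtain ⟨I, hI⟩ : ∃ I : Fin (ℓ + 2), I.val = a.2 := ⟨⟨a.2, by omega⟩, rfl⟩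
  obtain ⟨J, hJ⟩ : ∃ J : Fin (ℓ + 2), J.val = a.2 + a.1 := ⟨⟨a.2 + a.1, by omega⟩, rfl⟩
  have hIJ : I ≠ J := by
    intro h
    have := congrArg Fin.val h
    omega
  have hAI := card_Apos (k := k) (w := w) (i := I) (by omega) (by omega) s
  have hAJ := card_Apos (k := k) (w := w) (i := J) (by omega) (by omega) s
  have haidx : a ∈ idx ℓ := by
    unfold idx
    rw [mem_sdiff, mem_product, mem_range, mem_range]
    refine ⟨⟨by omega, by omega⟩, ?_⟩
    intro h
    simp only [mem_insert, mem_singleton] at h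
    rcases h with h | h | h <;> (rw [h] at ha2; simp at ha2)
  have hcl : clsEl k e = clsC (w I.val) (w J.val) := by
    rw [hc, clsB, if_neg ha0, hI, hJ]
  have hcl' : clsEl k e' = clsC (w I.val) (w J.val) := by
    rw [hc', clsB, if_neg ha0, hI, hJ]
  have heU := G.hX he
  have heU' := G.hX he'
  -- the weight without the index `a`
  set V : Cfg k ℓ → ℝ := fun x => ∏ b ∈ (idx ℓ).erase a, psi X' γ (Fc b x) with hV
  have hNm : ∀ f ∈ X', Nm (Om k w ℓ s) (idx ℓ) Fc X' γ a f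
      = Real.exp (γ f) * ∑ x ∈ (Om k w ℓ s).filter (fun x => Fc a x = f), V x := by
    intro f hf
    unfold Nm
    rw [Finset.mul_sum]
    apply Finset.sum_congr rfl
    intro x hx
    rw [mem_filter] at hx
    unfold Wt
    rw [← Finset.mul_prod_erase _ _ haidx, hx.2, psi, if_pos hf]
  set S : El → ℝ := fun f => ∑ x ∈ (Om k w ℓ s).filter (fun x => Fc a x = f), V x with hS
  suffices hmain : (1 - (1200 * ρ ^ 2 + 140 * p)) * S e' ≤ S e by
    rw [hNm e he, hNm e' he']
    have h1 : (1 - (1200 * ρ ^ 2 + 140 * p)) * (Real.exp (γ e - γ e') * (Real.exp (γ e') * S e'))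
        = Real.exp (γ e) * ((1 - (1200 * ρ ^ 2 + 140 * p)) * S e') := by
      have : Real.exp (γ e) = Real.exp (γ e - γ e') * Real.exp (γ e') := by
        rw [← Real.exp_add]; congr 1; ring
      rw [this]; ring
    rw [h1]
    exact mul_le_mul_of_nonneg_left hmain (Real.exp_pos _).le
  -- averaging
  have hpsi0 : ∀ f, 0 ≤ psi X' γ f := by
    intro f; unfold psi; split_ifs
    · exact (Real.exp_pos _).le
    · exact le_rfl
  have hFca : ∀ x u : Cfg k ℓ, Fc a (mix {I, J} x u) = col (u I) (u J) := by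
    intro x u
    have h1 : ext (mix {I, J} x u) a.2 = u I := by
      unfold ext
      rw [dif_pos (by omega)]
      have : (⟨a.2, by omega⟩ : Fin (ℓ + 2)) = I := Fin.ext hI.symm
      rw [this]
      simp [mix]
    have h2 : ext (mix {I, J} x u) (a.2 + a.1) = u J := by
      unfold ext
      rw [dif_pos (by omega)]
      have : (⟨a.2 + a.1, by omega⟩ : Fin (ℓ + 2)) = J := Fin.ext hJ.symm
      rw [this]
      simp [mix]
    unfold Fc el
    rw [if_neg ha0, h1, h2]
  have havg : ∀ f, ((Om k w ℓ s).card : ℝ) * S f = ∑ x ∈ Om k w ℓ s,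
      ∑ u ∈ (Om k w ℓ s).filter (fun u => col (u I) (u J) = f), V (mix {I, J} x u) := by
    intro f
    have h1 := sum_mix (Apos k w ℓ s) {I, J} (fun x => if Fc a x = f then V x else 0)
    rw [← Finset.sum_filter] at h1
    change _ = ((Om k w ℓ s).card : ℝ) * S f at h1
    rw [← h1]
    apply Finset.sum_congr rfl
    intro x _
    simp only [hFca]
    rw [← Finset.sum_filter]
    rfl
  have hstep : ∀ x ∈ Om k w ℓ s, (1 - (1200 * ρ ^ 2 + 140 * p)) *
      ∑ u ∈ (Om k w ℓ s).filter (fun u => col (u I) (u J) = e'), V (mix {I, J} x u)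
      ≤ ∑ u ∈ (Om k w ℓ s).filter (fun u => col (u I) (u J) = e), V (mix {I, J} x u) := by
    intro x hx
    set N : Finset (ℕ × ℕ) := ((idx ℓ).erase a).filter
      (fun b => (I.val = b.2 ∨ I.val = b.2 + b.1) ∨ (J.val = b.2 ∨ J.val = b.2 + b.1)) with hN
    have hfar : ∀ u : Cfg k ℓ, V (mix {I, J} x u)
        = (∏ b ∈ ((idx ℓ).erase a).filter (fun b => ¬ ((I.val = b.2 ∨ I.val = b.2 + b.1) ∨
            (J.val = b.2 ∨ J.val = b.2 + b.1))), psi X' γ (Fc b x))
          * ∏ b ∈ N, psi X' γ (Fc b (mix {I, J} x u)) := by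
      intro u
      rw [hV]
      simp only
      rw [← Finset.prod_filter_mul_prod_filter_not ((idx ℓ).erase a)
        (fun b => (I.val = b.2 ∨ I.val = b.2 + b.1) ∨ (J.val = b.2 ∨ J.val = b.2 + b.1)), mul_comm]
      congr 1
      apply Finset.prod_congr rfl
      intro b hb
      rw [mem_filter] at hb
      congr 1
      apply Fc_congr
      intro i hi
      have h1 : i ≠ I := by
        rintro rfl
        exact hb.2 (Or.inl hi)
      have h2 : i ≠ J := by
        rintro rfl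
        exact hb.2 (Or.inr hi)
      simp [mix, h1, h2]
    simp only [hfar]
    rw [← Finset.mul_sum, ← Finset.mul_sum]
    set Far : ℝ := ∏ b ∈ ((idx ℓ).erase a).filter (fun b => ¬ ((I.val = b.2 ∨ I.val = b.2 + b.1) ∨
            (J.val = b.2 ∨ J.val = b.2 + b.1))), psi X' γ (Fc b x) with hFar
    have hFar0 : 0 ≤ Far := Finset.prod_nonneg fun b _ => hpsi0 _
    have hNcard : N.card ≤ 17 := by
      have h1 : N ⊆ (idx ℓ).filter (fun b => I.val = b.2 ∨ I.val = b.2 + b.1) ∪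
          (idx ℓ).filter (fun b => J.val = b.2 ∨ J.val = b.2 + b.1) := by
        intro b hb
        rw [hN, mem_filter, mem_erase] at hb
        rw [mem_union, mem_filter, mem_filter]
        rcases hb.2 with h | h
        · exact Or.inl ⟨hb.1.2, h⟩
        · exact Or.inr ⟨hb.1.2, h⟩
      have h2 := (Finset.card_le_card h1).trans (Finset.card_union_le _ _)
      have h3 := near_card ℓ I.val
      have h4 := near_card ℓ J.val
      omega
    have hsub : ∀ b ∈ N, (∀ g : El → ℝ,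
        ∑ u ∈ (Om k w ℓ s).filter (fun u => col (u I) (u J) = e), g (Fc b (mix {I, J} x u))
        = ∑ u ∈ (Om k w ℓ s).filter (fun u => col (u I) (u J) = e'),
            g (Fc b (mix {I, J} x u))) ∧
      ((((Om k w ℓ s).filter (fun u => col (u I) (u J) = e)).filter
        (fun u => Fc b (mix {I, J} x u) ∉ X')).card : ℝ)
        ≤ p * ((Om k w ℓ s).filter (fun u => col (u I) (u J) = e)).card := by
      intro b hb
      rw [hN, mem_filter, mem_erase] at hb
      obtain ⟨⟨hba, hbidx⟩, hbIJ⟩ := hb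
      by_cases hbJ : J.val = b.2 ∨ J.val = b.2 + b.1
      · -- involves `J`, not `I`
        have hbI : I.val ≠ b.2 ∧ I.val ≠ b.2 + b.1 := by
          by_contra hcon
          apply hba
          have h5 : b.2 = a.2 ∧ b.1 = a.1 := by omega
          exact Prod.ext h5.2 h5.1
        have h6 := g7_sub (A := Apos k w ℓ s) (X' := X') (p := p) hIJ.symm hAJ.2 hAI.2 heU heU'
          (hcl.trans (g7_clsC_comm _ _)) (hcl'.trans (g7_clsC_comm _ _)) x b hbI.1 hbI.2
          (bad_site G hx (by omega) (by omega) hbidx hbJ)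
        have hset : ∀ f, (Fintype.piFinset (Apos k w ℓ s)).filter
            (fun u => col (u J) (u I) = f)
            = (Om k w ℓ s).filter (fun u => col (u I) (u J) = f) := by
          intro f
          apply Finset.filter_congr
          intro u _
          rw [col_comm]
        rw [hset, hset, Finset.pair_comm J I] at h6
        exact h6
      · have hbI : I.val = b.2 ∨ I.val = b.2 + b.1 := by tauto
        push Not at hbJ
        exact g7_sub (A := Apos k w ℓ s) (X' := X') (p := p) hIJ hAI.2 hAJ.2 heU heU' hcl hcl' x b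
          hbJ.1 hbJ.2 (bad_site G hx (by omega) (by omega) hbidx hbI)
    have hcard : ((Om k w ℓ s).filter (fun u => col (u I) (u J) = e)).card
        = ((Om k w ℓ s).filter (fun u => col (u I) (u J) = e')).card := by
      obtain ⟨c, -, hkey⟩ := g7_key (A := Apos k w ℓ s) hIJ hAI.2 hAJ.2 heU heU' hcl hcl'
      have h7 := hkey (fun _ => 1)
      have h8 := h7.1.trans h7.2.symm
      have h9 := mul_left_cancel₀ (by positivity) h8
      simp only [Finset.sum_const, nsmul_eq_mul, mul_one] at h9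
      exact_mod_cast h9
    have hR := ratio_lemma ((Om k w ℓ s).filter (fun u => col (u I) (u J) = e))
      ((Om k w ℓ s).filter (fun u => col (u I) (u J) = e')) hcard N hNcard
      (fun b u => Fc b (mix {I, J} x u)) X' γ ρ p hγ hρ0 hρ1 G.p0 hp
      (fun b hb => (hsub b hb).1) (by intro b hb; convert (hsub b hb).2 using 3)
    calc _ = Far * ((1 - (1200 * ρ ^ 2 + 140 * p)) *
          ∑ u ∈ (Om k w ℓ s).filter (fun u => col (u I) (u J) = e'),
            ∏ b ∈ N, psi X' γ (Fc b (mix {I, J} x u))) := by ring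
      _ ≤ _ := mul_le_mul_of_nonneg_left hR hFar0
  rcases Nat.eq_zero_or_pos (Om k w ℓ s).card with h0 | h0
  · rw [Finset.card_eq_zero] at h0
    have : ∀ f, S f = 0 := by
      intro f
      rw [hS]
      simp [h0]
    rw [this, this, mul_zero]
  · have h0R : (0 : ℝ) < (Om k w ℓ s).card := by exact_mod_cast h0
    have h1 : ((Om k w ℓ s).card : ℝ) * ((1 - (1200 * ρ ^ 2 + 140 * p)) * S e')
        ≤ ((Om k w ℓ s).card : ℝ) * S e := by
      calc _ = (1 - (1200 * ρ ^ 2 + 140 * p)) * (((Om k w ℓ s).card : ℝ) * S e') := by ring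
        _ = ∑ x ∈ Om k w ℓ s, (1 - (1200 * ρ ^ 2 + 140 * p)) *
            ∑ u ∈ (Om k w ℓ s).filter (fun u => col (u I) (u J) = e'), V (mix {I, J} x u) := by
            rw [havg, Finset.mul_sum]
        _ ≤ _ := by rw [havg]; exact Finset.sum_le_sum hstep
    exact le_of_mul_le_mul_left h1 h0R

end SqCyc
end

section

/-! # GB-8 ratio estimate, vertex positions -/

open Finset

namespace SqCyc

variable {k : ℕ} [NeZero k] {ℓ : ℕ} {w : ℕ → Letter} {X' : Finset El} {p : ℝ}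

theorem gb8_psi_nonneg (X' : Finset El) (γ : El → ℝ) (e : El) : 0 ≤ psi X' γ e := by
  unfold psi
  split_ifs
  · exact (Real.exp_pos _).le
  · exact le_rfl

omit [NeZero k] in
theorem gb8_Nm (O : Finset (Cfg k ℓ)) (γ : El → ℝ) {a : ℕ × ℕ} (ha : a ∈ idx ℓ) {e : El}
    (he : e ∈ X') : Nm O (idx ℓ) Fc X' γ a e = Real.exp (γ e) *
      ∑ x ∈ O.filter (fun x => Fc a x = e), ∏ b ∈ (idx ℓ).erase a, psi X' γ (Fc b x) := by
  unfold Nm
  rw [Finset.mul_sum]
  refine Finset.sum_congr rfl fun x hx => ?_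
  unfold Wt
  rw [← Finset.mul_prod_erase _ _ ha, (mem_filter.1 hx).2]
  unfold psi
  rw [if_pos he]

/-- the indices near the position `i`, without the vertex itself -/
def gb8_N (ℓ i : ℕ) : Finset (ℕ × ℕ) :=
  ((idx ℓ).erase (0, i)).filter (fun b => (i ≤ b.2 + 2 ∧ b.2 ≤ i + 2) ∨
    (i ≤ b.2 + b.1 + 2 ∧ b.2 + b.1 ≤ i + 2))

theorem gb8_N_card (ℓ i : ℕ) (hi : 4 ≤ i) : (gb8_N ℓ i).card ≤ 17 := by
  have hsub : gb8_N ℓ i ⊆ (({i - 2, i - 1, i + 1, i + 2} : Finset ℕ).image (fun j => (0, j))) ∪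
      ((Icc (i - 3) (i + 2)).image (fun j => (1, j))) ∪
      ((Icc (i - 4) (i + 2)).image (fun j => (2, j))) := by
    rintro ⟨t, j⟩ hb
    simp only [gb8_N, idx, mem_filter, mem_erase, mem_sdiff, mem_product, mem_range, mem_insert,
      mem_singleton, Prod.mk.injEq, ne_eq] at hb
    simp only [mem_union, mem_image, mem_insert, mem_singleton, mem_Icc, Prod.mk.injEq]
    obtain ⟨⟨h1, ⟨h2, h3⟩, h4⟩, h5⟩ := hb
    interval_cases t
    · left; left
      exact ⟨j, by omega, rfl, rfl⟩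
    · left; right
      exact ⟨j, by omega, rfl, rfl⟩
    · right
      exact ⟨j, by omega, rfl, rfl⟩
  refine (card_le_card hsub).trans ?_
  refine (card_union_le _ _).trans ?_
  have h1 := card_union_le (({i - 2, i - 1, i + 1, i + 2} : Finset ℕ).image (fun j => (0, j)))
    ((Icc (i - 3) (i + 2)).image (fun j => (1, j)))
  have h2 : (({i - 2, i - 1, i + 1, i + 2} : Finset ℕ).image (fun j => ((0 : ℕ), j))).card ≤ 4 :=
    card_image_le.trans Finset.card_le_four
  have h3 : ((Icc (i - 3) (i + 2)).image (fun j => ((1 : ℕ), j))).card ≤ 6 :=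
    card_image_le.trans (by rw [Nat.card_Icc]; omega)
  have h4 : ((Icc (i - 4) (i + 2)).image (fun j => ((2 : ℕ), j))).card ≤ 7 :=
    card_image_le.trans (by rw [Nat.card_Icc]; omega)
  omega

theorem ratio_vertex (G : GCtx k ℓ w X' p) (hp : p ≤ 1 / 10000) (γ : El → ℝ) (ρ : ℝ)
    (hρ0 : 0 ≤ ρ) (hρ1 : ρ ≤ 1 / 1000) (hγ : ∀ e ∈ X', |γ e| ≤ ρ) (s : ℕ) {i : ℕ}
    (hi : 4 ≤ i) (hiℓ : i + 2 < ℓ) {e e' : El}
    (he : e ∈ X') (he' : e' ∈ X') (hc : clsEl k e = clsV k (w i))
    (hc' : clsEl k e' = clsV k (w i)) :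
    (1 - (1200 * ρ ^ 2 + 140 * p)) *
        (Real.exp (γ e - γ e') * Nm (Om k w ℓ s) (idx ℓ) Fc X' γ (0, i) e')
      ≤ Nm (Om k w ℓ s) (idx ℓ) Fc X' γ (0, i) e := by
  classical
  have hkpos : 0 < k := Nat.pos_of_ne_zero (NeZero.ne k)
  have hkR : (0 : ℝ) < k := by exact_mod_cast hkpos
  have hfi : i < ℓ + 2 := by omega
  obtain ⟨fi, hfiv⟩ : ∃ fi : Fin (ℓ + 2), fi.val = i := ⟨⟨i, hfi⟩, rfl⟩
  obtain ⟨T, hT⟩ : ∃ T : Finset (Fin (ℓ + 2)), ∀ j, j ∈ T ↔ i ≤ j.val + 2 ∧ j.val ≤ i + 2 :=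
    ⟨univ.filter (fun j => i ≤ j.val + 2 ∧ j.val ≤ i + 2), fun j => by simp⟩
  have hfiT : fi ∈ T := by rw [hT]; omega
  have haidx : ((0, i) : ℕ × ℕ) ∈ idx ℓ := by
    simp only [idx, mem_sdiff, mem_product, mem_range, mem_insert, mem_singleton, Prod.mk.injEq]
    omega
  have hmu : ∀ (x u : Cfg k ℓ) (j : Fin (ℓ + 2)) (z : Pt k), j ∈ T →
      mix T x (Function.update u j z) = Function.update (mix T x u) j z := by
    intro x u j z hj
    funext m
    unfold mix
    by_cases hm : m = j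
    · subst hm
      rw [if_pos hj, Function.update_self, Function.update_self]
    · rw [Function.update_of_ne hm, Function.update_of_ne hm]
  have hext : ∀ (y : Cfg k ℓ) (j : Fin (ℓ + 2)), ext y j.val = y j := by
    intro y j
    unfold ext
    rw [dif_pos j.2]
  have hmT : ∀ (x u : Cfg k ℓ) (j : Fin (ℓ + 2)), j ∈ T → ext (mix T x u) j.val = u j := by
    intro x u j hj
    rw [hext]
    unfold mix
    rw [if_pos hj]
  have hFa : ∀ x u : Cfg k ℓ, Fc (0, i) (mix T x u) = vtx (u fi) := by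
    intro x u
    have h := hmT x u fi hfiT
    rw [hfiv] at h
    unfold Fc el
    rw [if_pos rfl, h]
  obtain ⟨O, hO⟩ : ∃ O, O = Om k w ℓ s := ⟨_, rfl⟩
  have hOpi : O = Fintype.piFinset (Apos k w ℓ s) := hO
  obtain ⟨hAc, hAi⟩ := card_Apos (k := k) (w := w) (i := fi) (by omega) (by omega : fi.val < ℓ) s
  rw [hfiv] at hAi
  have heU : e ∈ U k := G.hX he
  have heU' : e' ∈ U k := G.hX he'
  -- the number of lifts
  obtain ⟨c, hce, hce'⟩ : ∃ c : ℕ, ((Apos k w ℓ s fi).filter (fun z => vtx z = e)).card = c ∧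
      ((Apos k w ℓ s fi).filter (fun z => vtx z = e')).card = c := by
    rw [hAi]
    exact ⟨_, rfl, (card_vtx_lift (w i) heU heU' hc hc').symm⟩
  -- independence of the coordinate `i`
  have hind : ∀ e0 : El, ((Apos k w ℓ s fi).filter (fun z => vtx z = e0)).card = c →
      ∀ H : Cfg k ℓ → ℝ, (∀ x z, H (Function.update x fi z) = H x) →
      (k : ℝ) * ∑ u ∈ O.filter (fun u => vtx (u fi) = e0), H u = c * ∑ u ∈ O, H u := by
    intro e0 h0 H hH
    have h1 := sum_indep (Apos k w ℓ s) fi (fun z => if vtx z = e0 then (1 : ℝ) else 0) H hH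
    rw [hAc, ← hOpi] at h1
    have h2 : (∑ z ∈ Apos k w ℓ s fi, if vtx z = e0 then (1 : ℝ) else 0) = c := by
      rw [Finset.sum_boole, h0]
    have h3 : (∑ x ∈ O, (if vtx (x fi) = e0 then (1 : ℝ) else 0) * H x) =
        ∑ u ∈ O.filter (fun u => vtx (u fi) = e0), H u := by
      rw [Finset.sum_filter]
      refine Finset.sum_congr rfl fun x _ => ?_
      split_ifs
      · rw [one_mul]
      · rw [zero_mul]
    rw [h2, h3] at h1
    exact h1
  have hcardP : ∀ e0 : El, ((Apos k w ℓ s fi).filter (fun z => vtx z = e0)).card = c →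
      (k : ℝ) * ((O.filter (fun u => vtx (u fi) = e0)).card : ℝ) = c * (O.card : ℝ) := by
    intro e0 h0
    have := hind e0 h0 (fun _ => 1) (fun _ _ => rfl)
    simpa using this
  -- the ratio estimate for fixed `x`
  have hratio : ∀ x ∈ O, (1 - (1200 * ρ ^ 2 + 140 * p)) *
      ∑ u ∈ O.filter (fun u => vtx (u fi) = e'), ∏ b ∈ gb8_N ℓ i, psi X' γ (Fc b (mix T x u))
      ≤ ∑ u ∈ O.filter (fun u => vtx (u fi) = e), ∏ b ∈ gb8_N ℓ i, psi X' γ (Fc b (mix T x u)) := by
    intro x hx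
    refine ratio_lemma _ _ ?_ (gb8_N ℓ i) (gb8_N_card ℓ i hi) (fun b u => Fc b (mix T x u)) X' γ ρ p
      hγ hρ0 hρ1 G.p0 hp ?_ ?_
    · have h1 := hcardP e hce
      have h2 := hcardP e' hce'
      have h3 : (k : ℝ) * ((O.filter (fun u => vtx (u fi) = e)).card : ℝ) =
          k * ((O.filter (fun u => vtx (u fi) = e')).card : ℝ) := by rw [h1, h2]
      have h4 := mul_left_cancel₀ hkR.ne' h3
      exact_mod_cast h4
    · intro b hb g
      simp only [gb8_N, mem_filter, mem_erase] at hb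
      obtain ⟨⟨hba, hbidx⟩, hbT⟩ := hb
      have hbidx' := hbidx
      simp only [idx, mem_sdiff, mem_product, mem_range] at hbidx'
      by_cases hbi : i = b.2 ∨ i = b.2 + b.1
      · -- `b` involves the position `i`
        have hb1 : b.1 ≠ 0 := by
          intro h0
          apply hba
          have : i = b.2 := by omega
          exact Prod.ext h0 this.symm
        obtain ⟨j, hj1, hj2, hj3⟩ : ∃ j : ℕ, (i ≤ j + 2 ∧ j ≤ i + 2) ∧ j ≠ i ∧
            ∀ u : Cfg k ℓ, ∀ fj : Fin (ℓ + 2), fj.val = j →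
              Fc b (mix T x u) = col (u fj) (u fi) := by
          rcases hbi with h | h
          · refine ⟨b.2 + b.1, by omega, by omega, fun u fj hfj => ?_⟩
            have hjT : fj ∈ T := by rw [hT]; omega
            have h1 := hmT x u fi hfiT
            have h2 := hmT x u fj hjT
            rw [hfiv, h] at h1
            rw [hfj] at h2
            unfold Fc el
            rw [if_neg hb1, h1, h2, col_comm]
          · refine ⟨b.2, by omega, by omega, fun u fj hfj => ?_⟩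
            have hjT : fj ∈ T := by rw [hT]; omega
            have h1 := hmT x u fi hfiT
            have h2 := hmT x u fj hjT
            rw [hfiv, h] at h1
            rw [hfj] at h2
            unfold Fc el
            rw [if_neg hb1, h1, h2]
        obtain ⟨fj, hfjv⟩ : ∃ fj : Fin (ℓ + 2), fj.val = j := ⟨⟨j, by omega⟩, rfl⟩
        obtain ⟨hAcj, hAj⟩ := card_Apos (k := k) (w := w) (i := fj) (by omega)
          (by omega : fj.val < ℓ) s
        have hij : fi ≠ fj := by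
          intro h
          apply hj2
          rw [← hfjv, ← hfiv, h]
        -- the common value
        have hgam : ∀ e0 : El, ((Apos k w ℓ s fi).filter (fun z => vtx z = e0)).card = c →
            (k : ℝ) * k * ∑ u ∈ O.filter (fun u => vtx (u fi) = e0), g (col (u fj) (u fi)) =
              O.card * (c * ((∑ z ∈ Apos k w ℓ s fi, ∑ z' ∈ Apos k w ℓ s fj, g (col z' z)) / k)) := by
          intro e0 h0
          have h1 := sum_two (Apos k w ℓ s) fi fj hij
            (fun z z' => if vtx z = e0 then g (col z' z) else 0)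
          rw [hAc, hAcj, ← hOpi] at h1
          have h2 : (∑ x ∈ O, if vtx (x fi) = e0 then g (col (x fj) (x fi)) else 0) =
              ∑ u ∈ O.filter (fun u => vtx (u fi) = e0), g (col (u fj) (u fi)) := by
            rw [Finset.sum_filter]
          rw [h2] at h1
          rw [h1]
          congr 1
          -- all inner sums are equal
          have hall : ∀ z ∈ Apos k w ℓ s fi, ∀ z1 ∈ Apos k w ℓ s fi,
              ∑ z' ∈ Apos k w ℓ s fj, g (col z' z) = ∑ z' ∈ Apos k w ℓ s fj, g (col z' z1) := by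
            intro z hz z1 hz1
            rw [hAj]
            rw [hAi] at hz hz1
            exact sum_col_eq (w fj.val) (w i) hz hz1 g
          obtain ⟨z0, hz0⟩ : (Apos k w ℓ s fi).Nonempty := by
            rw [← Finset.card_pos, hAc]
            exact hkpos
          have h3 : (∑ z ∈ Apos k w ℓ s fi, ∑ z' ∈ Apos k w ℓ s fj, g (col z' z)) =
              k * ∑ z' ∈ Apos k w ℓ s fj, g (col z' z0) := by
            rw [Finset.sum_congr rfl fun z hz => hall z hz z0 hz0, Finset.sum_const, hAc,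
              nsmul_eq_mul]
          have h4 : (∑ z ∈ Apos k w ℓ s fi, ∑ z' ∈ Apos k w ℓ s fj,
              if vtx z = e0 then g (col z' z) else 0) =
              c * ∑ z' ∈ Apos k w ℓ s fj, g (col z' z0) := by
            have h5 : (∑ z ∈ Apos k w ℓ s fi, ∑ z' ∈ Apos k w ℓ s fj,
                if vtx z = e0 then g (col z' z) else 0) =
                ∑ z ∈ (Apos k w ℓ s fi).filter (fun z => vtx z = e0),
                  ∑ z' ∈ Apos k w ℓ s fj, g (col z' z) := by
              rw [Finset.sum_filter]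
              refine Finset.sum_congr rfl fun z _ => ?_
              split_ifs
              · rfl
              · simp
            rw [h5, Finset.sum_congr rfl fun z hz => hall z (mem_filter.1 hz).1 z0 hz0,
              Finset.sum_const, h0, nsmul_eq_mul]
          rw [h4, h3, mul_div_cancel_left₀ _ hkR.ne']
        have h1 := hgam e hce
        have h2 := hgam e' hce'
        rw [← h2] at h1
        have h3 := mul_left_cancel₀ (mul_pos hkR hkR).ne' h1
        simp only [hj3 _ fj hfjv]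
        exact h3
      · -- `b` does not involve the position `i`
        push Not at hbi
        have hH : ∀ (u : Cfg k ℓ) (z : Pt k),
            g (Fc b (mix T x (Function.update u fi z))) = g (Fc b (mix T x u)) := by
          intro u z
          rw [hmu x u fi z hfiT, Fc_update _ _ _ (by rw [hfiv]; exact hbi.1)
            (by rw [hfiv]; exact hbi.2)]
        have h1 := hind e hce (fun u => g (Fc b (mix T x u))) hH
        have h2 := hind e' hce' (fun u => g (Fc b (mix T x u))) hH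
        rw [← h2] at h1
        exact mul_left_cancel₀ hkR.ne' h1
    · intro b hb
      simp only [gb8_N, mem_filter, mem_erase] at hb
      obtain ⟨⟨hba, hbidx⟩, hbT⟩ := hb
      have hbidx' := hbidx
      simp only [idx, mem_sdiff, mem_product, mem_range] at hbidx'
      obtain ⟨j, hj1, hj2, hj3⟩ : ∃ j : ℕ, (i ≤ j + 2 ∧ j ≤ i + 2) ∧ j ≠ i ∧
          (j = b.2 ∨ j = b.2 + b.1) := by
        by_cases hbi : i = b.2 ∨ i = b.2 + b.1
        · have hb1 : b.1 ≠ 0 := by
            intro h0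
            apply hba
            have : i = b.2 := by omega
            exact Prod.ext h0 this.symm
          rcases hbi with h | h
          · exact ⟨b.2 + b.1, by omega, by omega, Or.inr rfl⟩
          · exact ⟨b.2, by omega, by omega, Or.inl rfl⟩
        · push Not at hbi
          rcases hbT with h | h
          · exact ⟨b.2, h, fun h1 => hbi.1 h1.symm, Or.inl rfl⟩
          · exact ⟨b.2 + b.1, h, fun h1 => hbi.2 h1.symm, Or.inr rfl⟩
      obtain ⟨fj, hfjv⟩ : ∃ fj : Fin (ℓ + 2), fj.val = j := ⟨⟨j, by omega⟩, rfl⟩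
      have hjT : fj ∈ T := by rw [hT]; omega
      have hij : fi ≠ fj := by
        intro h
        apply hj2
        rw [← hfjv, ← hfiv, h]
      have h1 := sum_bad_le (Apos k w ℓ s) fj
        (fun u => if vtx (u fi) = e then (1 : ℝ) else 0)
        (fun u _ => by split_ifs <;> norm_num)
        (fun u z => by rw [Function.update_of_ne hij])
        (fun u => Fc b (mix T x u) ∉ X') p (by
          intro u hu
          have hmem : mix T x u ∈ Om k w ℓ s := mix_mem T (by rw [← hOpi]; exact hx) hu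
          have h2 := bad_site G hmem (i := fj) (by omega) (by omega) hbidx
            (by rw [hfjv]; exact hj3)
          simp only [hmu x u fj _ hjT]
          exact h2)
      rw [← hOpi, Finset.sum_boole, Finset.sum_boole] at h1
      refine le_trans (le_of_eq ?_) h1
      rw [Finset.filter_comm]
      congr
  -- the main estimate
  obtain ⟨S, hS⟩ : ∃ S : El → ℝ, ∀ e0, S e0 = ∑ x ∈ O.filter (fun x => Fc (0, i) x = e0),
      ∏ b ∈ (idx ℓ).erase (0, i), psi X' γ (Fc b x) := ⟨_, fun _ => rfl⟩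
  obtain ⟨Far, hFar⟩ : ∃ Far : Cfg k ℓ → ℝ, ∀ x, Far x =
      ∏ b ∈ ((idx ℓ).erase (0, i)).filter (fun b => ¬ ((i ≤ b.2 + 2 ∧ b.2 ≤ i + 2) ∨
        (i ≤ b.2 + b.1 + 2 ∧ b.2 + b.1 ≤ i + 2))), psi X' γ (Fc b x) := ⟨_, fun _ => rfl⟩
  have hFar0 : ∀ x, 0 ≤ Far x := fun x => by
    rw [hFar]
    exact Finset.prod_nonneg fun b _ => gb8_psi_nonneg X' γ _
  have hsplit : ∀ x u : Cfg k ℓ, ∏ b ∈ (idx ℓ).erase (0, i), psi X' γ (Fc b (mix T x u)) =
      Far x * ∏ b ∈ gb8_N ℓ i, psi X' γ (Fc b (mix T x u)) := by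
    intro x u
    rw [← Finset.prod_filter_mul_prod_filter_not ((idx ℓ).erase (0, i))
      (fun b => (i ≤ b.2 + 2 ∧ b.2 ≤ i + 2) ∨ (i ≤ b.2 + b.1 + 2 ∧ b.2 + b.1 ≤ i + 2)), hFar,
      mul_comm]
    congr 1
    refine Finset.prod_congr rfl fun b hb => ?_
    congr 1
    apply Fc_congr
    intro m hm
    have hb2 := (mem_filter.1 hb).2
    unfold mix
    rw [if_neg]
    rw [hT]
    rcases hm with hm | hm
    · rw [hm]; tauto
    · rw [hm]; tauto
  have hsum : ∀ e0 : El, (O.card : ℝ) * S e0 = ∑ x ∈ O, Far x *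
      ∑ u ∈ O.filter (fun u => vtx (u fi) = e0), ∏ b ∈ gb8_N ℓ i, psi X' γ (Fc b (mix T x u)) := by
    intro e0
    have h1 := sum_mix (Apos k w ℓ s) T (fun y : Cfg k ℓ => if Fc (0, i) y = e0 then
      ∏ b ∈ (idx ℓ).erase (0, i), psi X' γ (Fc b y) else 0)
    rw [← hOpi, ← Finset.sum_filter, ← hS] at h1
    rw [← h1]
    refine Finset.sum_congr rfl fun x _ => ?_
    rw [Finset.mul_sum, Finset.sum_filter]
    refine Finset.sum_congr rfl fun u _ => ?_
    rw [hFa, hsplit]
  have hmain : (1 - (1200 * ρ ^ 2 + 140 * p)) * S e' ≤ S e := by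
    rcases O.eq_empty_or_nonempty with h0 | h0
    · rw [hS, hS, h0]
      simp
    · have hcO : (0 : ℝ) < O.card := by exact_mod_cast Finset.card_pos.2 h0
      have h1 : (1 - (1200 * ρ ^ 2 + 140 * p)) * ((O.card : ℝ) * S e') ≤ (O.card : ℝ) * S e := by
        rw [hsum, hsum, Finset.mul_sum]
        refine Finset.sum_le_sum fun x hx => ?_
        have h2 := mul_le_mul_of_nonneg_left (hratio x hx) (hFar0 x)
        linarith
      have h3 : (O.card : ℝ) * ((1 - (1200 * ρ ^ 2 + 140 * p)) * S e') ≤ (O.card : ℝ) * S e := by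
        linarith
      exact le_of_mul_le_mul_left h3 hcO
  rw [← hO, gb8_Nm O γ haidx he, gb8_Nm O γ haidx he', ← hS, ← hS]
  have h1 : Real.exp (γ e - γ e') * (Real.exp (γ e') * S e') = Real.exp (γ e) * S e' := by
    rw [← mul_assoc, ← Real.exp_add]
    congr 2
    ring
  rw [h1]
  have h2 := mul_le_mul_of_nonneg_left hmain (Real.exp_pos (γ e)).le
  linarith

end SqCyc
end

section

/-! # NB-10 the weighted nibble theorem -/

open Finset

namespace SqCyc

section
variable {α ι : Type} [DecidableEq α] [DecidableEq ι]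

theorem nibble (r : ℕ) (hr : 2 ≤ r) (ε : ℝ) (hε : 0 < ε) : ∃ δ : ℝ, 0 < δ ∧
    ∀ (α ι : Type) [DecidableEq α] [DecidableEq ι] (V : Finset α) (I : Finset ι)
      (e : ι → Finset α) (w : ι → ℝ), NibSys r δ V I e w → defc V I e w ≤ δ * V.card →
      ∃ M ⊆ I, (∀ i ∈ M, ∀ j ∈ M, i ≠ j → Disjoint (e i) (e j)) ∧
        (1 - ε) * V.card ≤ r * M.card := by
  have hr0 : (0 : ℝ) < r := by
    have : 0 < r := by omega
    exact_mod_cast this
  obtain ⟨θ, hθ0, hθ1, hθ2⟩ : ∃ θ : ℝ, 0 < θ ∧ θ ≤ 1 / 2 ∧ r * θ ≤ ε / 4 := by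
    refine ⟨min (1 / 2) (ε / (4 * r)), lt_min (by norm_num) (by positivity),
      min_le_left _ _, ?_⟩
    calc (r : ℝ) * min (1 / 2) (ε / (4 * r)) ≤ r * (ε / (4 * r)) := by
          gcongr
          exact min_le_right _ _
      _ = ε / 4 := by field_simp
  obtain ⟨T, hT⟩ : ∃ T : ℕ, (1 - θ) ^ T < ε / 4 :=
    exists_pow_lt_of_lt_one (by positivity) (by linarith)
  set lam : ℝ := ((1 - θ) ^ (r - 1))⁻¹ with hlam
  have hlam0 : 0 < lam := by
    rw [hlam]
    have : 0 < 1 - θ := by linarith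
    positivity
  obtain ⟨Δ, hΔ0, hΔ⟩ : ∃ Δ : ℝ, 0 < Δ ∧ r * lam * Real.sqrt
      (Real.exp (4 * r ^ 2 * Δ) - 1 + lam ^ 2 * r * Δ) / θ < ε / 4 := by
    have hcont : Continuous (fun Δ : ℝ => r * lam * Real.sqrt
      (Real.exp (4 * r ^ 2 * Δ) - 1 + lam ^ 2 * r * Δ) / θ) := by
      fun_prop
    have h0 : (fun Δ : ℝ => r * lam * Real.sqrt
      (Real.exp (4 * r ^ 2 * Δ) - 1 + lam ^ 2 * r * Δ) / θ) 0 < ε / 4 := by
      simp
      positivity
    have h1 := hcont.continuousAt.eventually_lt (continuousAt_const (y := ε / 4)) h0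
    obtain ⟨η, hη, h2⟩ := Metric.eventually_nhds_iff.1 h1
    refine ⟨η / 2, by positivity, h2 ?_⟩
    rw [Real.dist_eq, sub_zero, abs_of_pos (by positivity)]
    linarith
  refine ⟨min (Δ / lam ^ T) (ε / 4), lt_min (by positivity) (by positivity), ?_⟩
  intro α ι _ _ V I e w hs hd
  have hδ0 : (0 : ℝ) ≤ min (Δ / lam ^ T) (ε / 4) := le_min (by positivity) (by positivity)
  have hδ1 : lam ^ T * min (Δ / lam ^ T) (ε / 4) ≤ Δ := by
    calc lam ^ T * min (Δ / lam ^ T) (ε / 4) ≤ lam ^ T * (Δ / lam ^ T) := by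
          gcongr
          exact min_le_left _ _
      _ = Δ := by field_simp
  obtain ⟨M, hM, hdis, hle⟩ := nib_iter hr hθ0 hθ1 T hδ0 hs Δ hδ1
  refine ⟨M, hM, hdis, ?_⟩
  rw [← hlam] at hle
  have hV : (0 : ℝ) ≤ V.card := Nat.cast_nonneg _
  have h1 : defc V I e w ≤ ε / 4 * V.card := by
    refine hd.trans ?_
    gcongr
    exact min_le_right _ _
  have h2 : ((1 - θ) ^ T + r * θ + r * lam * Real.sqrt
      (Real.exp (4 * r ^ 2 * Δ) - 1 + lam ^ 2 * r * Δ) / θ) * V.card ≤
      (ε / 4 + ε / 4 + ε / 4) * V.card := by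
    gcongr
  linarith

end

end SqCyc
end
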