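import Pool.Agent.Lib.SqCyc.Abs5
import Pool.Agent.Lib.SqCyc.Glue
import Pool.Agent.Lib.SqCyc.Count1
import Pool.Agent.Lib.SqCyc.Nib7
import Pool.Agent.Lib.SqCyc.NibDefs
import Pool.Agent.Lib.SqCyc.Dec3
import Pool.Agent.Lib.SqCyc.Gad7
import Pool.Agent.Lib.SqCyc.Abs1

section

/-! # AB-6 absorption theorem, some classes may be empty -/

open Finset

namespace SqCyc

theorem absorption' (K : Type) [Fintype K] [DecidableEq K] (h : K → ℕ) (hpos : ∃ c, 1 ≤ h c)
    (T₀ : ℕ) (δ : ℝ) (hδ : 0 < δ) : ∃ ε : ℝ, 0 < ε ∧ ∃ m₀ : ℕ,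
      ∀ (α : Type) [DecidableEq α] (m : ℕ) (X : Finset α) (cls : α → K)
        (Fill : ℕ → Finset α → Prop), m₀ ≤ m → AbsSys h T₀ δ m X cls Fill →
        NibHyp h δ ε m X cls Fill → CovT Fill (range m) X := by
  classical
  obtain ⟨c0, hc0⟩ := hpos
  let K' := {c : K // 1 ≤ h c}
  haveI : Nonempty K' := ⟨⟨c0, hc0⟩⟩
  obtain ⟨ε, hε, m₀, hm₀⟩ := absorption K' (fun c => h c.1) (fun c => c.2) T₀ δ hδ
  refine ⟨ε, hε, max m₀ 1, ?_⟩
  intro α _ m X cls Fill hm H N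
  have hm1 : 1 ≤ m := (le_max_right _ _).trans hm
  let cls' : α → K' := fun x => if hx : 1 ≤ h (cls x) then ⟨cls x, hx⟩ else ⟨c0, hc0⟩
  have hX : ∀ x ∈ X, 1 ≤ h (cls x) := by
    intro x hx
    have h1 := H.cardX (cls x)
    have h2 : 0 < (X.filter (fun y => cls y = cls x)).card :=
      card_pos.2 ⟨x, mem_filter.2 ⟨hx, rfl⟩⟩
    rw [h1] at h2
    exact Nat.pos_of_mul_pos_right h2
  have hcls : ∀ x ∈ X, ∀ c : K', cls' x = c ↔ cls x = c.1 := by
    intro x hx c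
    simp only [cls', hX x hx, dif_pos]
    exact ⟨fun e => congrArg Subtype.val e, fun e => Subtype.ext e⟩
  have hfil : ∀ A ⊆ X, ∀ c : K', A.filter (fun x => cls' x = c) = A.filter (fun x => cls x = c.1) :=
    fun A hA c => filter_congr fun x hx => hcls x (hA hx) c
  refine hm₀ α m X cls' Fill ((le_max_left _ _).trans hm) ?_ ?_
  · exact
      { cardX := fun c => by rw [hfil X (Subset.refl _) c]; exact H.cardX c.1
        sub := H.sub
        cardF := fun s hs A hA c => by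
          rw [hfil A (H.sub s hs A hA) c]; exact H.cardF s hs A hA c.1
        avoid := H.avoid
        avoid_mem := H.avoid_mem
        node := fun c ys hys hc => H.node c.1 ys hys fun y hy => (hcls y (hys hy) c).1 (hc y hy) }
  · intro S' hS' X' hX' hle hcard
    refine N S' hS' X' hX' hle fun c => ?_
    by_cases hc : 1 ≤ h c
    · have := hcard ⟨c, hc⟩
      rw [hfil X' hX' ⟨c, hc⟩] at this
      exact this
    · have h0 : h c = 0 := by omega
      have h1 : X'.filter (fun x => cls x = c) = ∅ := by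
        rw [filter_eq_empty_iff]
        intro x hx hxc
        exact hc (hxc ▸ hX x (hX' hx))
      rw [h1, h0]; simp

end SqCyc
end

section

/-! # GB-9 exact fractional covering -/

open Finset

namespace SqCyc

variable {k : ℕ} [NeZero k] {ℓ : ℕ} {w : ℕ → Letter} {X' : Finset El}

/-- regular indices -/
private def gb9Reg (ℓ : ℕ) (a : ℕ × ℕ) : Prop :=
  (a.1 = 0 ∧ 4 ≤ a.2 ∧ a.2 + 2 < ℓ) ∨ ((a.1 = 1 ∨ a.1 = 2) ∧ 2 ≤ a.2 ∧ a.2 + a.1 < ℓ)

open Classical in
private theorem gb9_card (ℓ : ℕ) : ((idx ℓ).filter (fun a => ¬ gb9Reg ℓ a)).card ≤ 10 := by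
  have hsub : (idx ℓ).filter (fun a => ¬ gb9Reg ℓ a) ⊆
      ([(0, 2), (0, 3), (0, ℓ - 2), (0, ℓ - 1), (1, 1), (2, 0), (2, 1), (1, ℓ - 1), (2, ℓ - 2),
        (2, ℓ - 1)] : List (ℕ × ℕ)).toFinset := by
    intro a ha
    rw [mem_filter] at ha
    obtain ⟨ha1, ha2⟩ := ha
    obtain ⟨t, i⟩ := a
    simp only [gb9Reg] at ha2
    rw [idx, mem_sdiff, mem_product, mem_range, mem_range] at ha1
    simp only [mem_insert, mem_singleton, Prod.mk.injEq] at ha1
    obtain ⟨⟨ht, hi⟩, hne⟩ := ha1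
    simp only [List.toFinset_cons, List.toFinset_nil, mem_insert, Prod.mk.injEq,
      LawfulSingleton.insert_empty_eq, mem_singleton]
    interval_cases t
    · simp at ha2 hne ⊢
      omega
    · simp at ha2 hne ⊢
      omega
    · simp at ha2 hne ⊢
      omega
  exact (card_le_card hsub).trans (List.toFinset_card_le _)

private theorem gb9_Nm_nonneg (γ : El → ℝ) (s : ℕ) (a : ℕ × ℕ) (e : El) :
    0 ≤ Nm (Om k w ℓ s) (idx ℓ) Fc X' γ a e :=
  sum_nonneg fun x _ => Wt_nonneg γ x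

private theorem gb9_Nm_zero {p : ℝ} (G : GCtx k ℓ w X' p) (γ : El → ℝ) (s : ℕ) {a : ℕ × ℕ}
    (ha : a ∈ idx ℓ) (e : El) (hne : clsEl k e ≠ clsB k w a) :
    Nm (Om k w ℓ s) (idx ℓ) Fc X' γ a e = 0 := by
  unfold Nm
  rw [filter_eq_empty_iff.2, sum_empty]
  intro x hx hxe
  apply hne
  rw [← hxe]
  exact clsEl_Fc G hx ha

theorem exists_gamma (G : GCtx k ℓ w X' (1 / 10 ^ 6)) (S' : Finset ℕ)
    (hports : ∀ s ∈ S', vtx (PA k s) ∉ X' ∧ vtx (PC k s) ∉ X' ∧ vtx (PA k (s + 1)) ∉ X' ∧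
      vtx (PC k (s + 1)) ∉ X')
    (hcount : ∀ c, (X'.filter (fun e => clsEl k e = c)).card = hcls k w ℓ c * S'.card)
    (hS : 400000 * S'.card ≤ k) :
    ∃ γ : El → ℝ, (∀ e ∈ X', |γ e| ≤ 1 / 2000) ∧
      ∀ e ∈ X', covr S' (Om k w ℓ) (idx ℓ) Fc X' γ e = 1 := by
  classical
  refine variational S' (Om k w ℓ) (idx ℓ) Fc X' (clsEl k) (clsB k w)
    (fun s _ x hx b hb _ => clsEl_Fc G hx hb) hcount
    (fun s hs => exists_good G (hports s hs).1 (hports s hs).2.1 (hports s hs).2.2.1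
      (hports s hs).2.2.2) (1 / 2000) (by norm_num) ?_
  rintro γ hγ e he e' he' hcls hγe hγe' ⟨h1, h2⟩
  have hk0 : (0 : ℝ) < k := by
    have := G.hk
    have : 0 < k := by omega
    exact_mod_cast this
  have hγ' : ∀ e ∈ X', |γ e| ≤ 1 / 1000 := fun e he => (hγ e he).trans (by norm_num)
  set θ : ℝ := (1 - (1200 * (1 / 2000 : ℝ) ^ 2 + 140 * (1 / 10 ^ 6))) *
    Real.exp (γ e - γ e') with hθ
  have hexp : (1.001 : ℝ) ≤ Real.exp (γ e - γ e') := by
    rw [hγe, hγe']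
    have := Real.add_one_le_exp ((1 / 2000 : ℝ) - -(1 / 2000))
    linarith
  have hθ1 : (1.0005 : ℝ) ≤ θ := by
    rw [hθ]
    nlinarith
  have hθ0 : 0 ≤ θ := by linarith
  -- one index
  have hidx : ∀ s ∈ S', ∀ a ∈ idx ℓ,
      θ * Nm (Om k w ℓ s) (idx ℓ) Fc X' γ a e' ≤ Nm (Om k w ℓ s) (idx ℓ) Fc X' γ a e +
        (if gb9Reg ℓ a then 0 else θ * (4 / k * Zf (Om k w ℓ s) (idx ℓ) Fc X' γ)) := by
    intro s hs a ha
    have hZ := Zf_pos G (hports s hs).1 (hports s hs).2.1 (hports s hs).2.2.1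
      (hports s hs).2.2.2 γ
    by_cases hc : clsEl k e = clsB k w a
    · by_cases hreg : gb9Reg ℓ a
      · rw [if_pos hreg, add_zero]
        rcases hreg with ⟨ha1, ha2, ha3⟩ | ⟨ha1, ha2, ha3⟩
        · obtain ⟨t, i⟩ := a
          simp only at ha1 ha2 ha3
          subst ha1
          have hcV : clsB k w (0, i) = clsV k (w i) := by simp [clsB]
          have := ratio_vertex G (by norm_num) γ (1 / 2000) (by norm_num) (by norm_num) hγ s
            ha2 ha3 he he' (hc.trans hcV) ((hcls.symm.trans hc).trans hcV)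
          rw [hθ, mul_assoc]
          exact this
        · have := ratio_colour G (by norm_num) γ (1 / 2000) (by norm_num) (by norm_num) hγ s
            ha1 ha2 ha3 he he' hc (hcls.symm.trans hc)
          rw [hθ, mul_assoc]
          exact this
      · rw [if_neg hreg]
        have hle := Nm_le G γ hγ' s ha e'
        have hle2 : Nm (Om k w ℓ s) (idx ℓ) Fc X' γ a e' ≤
            4 / k * Zf (Om k w ℓ s) (idx ℓ) Fc X' γ := by
          rw [div_mul_eq_mul_div, le_div_iff₀ hk0]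
          linarith
        have h0 := gb9_Nm_nonneg (k := k) (ℓ := ℓ) (w := w) (X' := X') γ s a e
        have := mul_le_mul_of_nonneg_left hle2 hθ0
        linarith
    · rw [gb9_Nm_zero G γ s ha e' (by rw [← hcls]; exact hc), gb9_Nm_zero G γ s ha e hc]
      split_ifs
      · simp
      · have : 0 ≤ θ * (4 / k * Zf (Om k w ℓ s) (idx ℓ) Fc X' γ) := by positivity
        simpa using this
  -- one slot
  have hslot : ∀ s ∈ S',
      θ * ((∑ a ∈ idx ℓ, Nm (Om k w ℓ s) (idx ℓ) Fc X' γ a e') /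
        Zf (Om k w ℓ s) (idx ℓ) Fc X' γ) ≤
      (∑ a ∈ idx ℓ, Nm (Om k w ℓ s) (idx ℓ) Fc X' γ a e) /
        Zf (Om k w ℓ s) (idx ℓ) Fc X' γ + θ * (40 / k) := by
    intro s hs
    have hZ := Zf_pos G (hports s hs).1 (hports s hs).2.1 (hports s hs).2.2.1
      (hports s hs).2.2.2 γ
    have hsum := sum_le_sum (hidx s hs)
    rw [← mul_sum, sum_add_distrib, sum_ite, sum_const_zero, zero_add, sum_const,
      nsmul_eq_mul] at hsum
    have hcard : (((idx ℓ).filter (fun a => ¬ gb9Reg ℓ a)).card : ℝ) ≤ 10 := by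
      exact_mod_cast gb9_card ℓ
    have hpos : 0 ≤ θ * (4 / k * Zf (Om k w ℓ s) (idx ℓ) Fc X' γ) := by positivity
    have hmul := mul_le_mul_of_nonneg_right hcard hpos
    rw [← mul_div_assoc, div_add' _ _ _ hZ.ne', div_le_div_iff_of_pos_right hZ]
    have : 10 * (θ * (4 / k * Zf (Om k w ℓ s) (idx ℓ) Fc X' γ)) =
        θ * (40 / k) * Zf (Om k w ℓ s) (idx ℓ) Fc X' γ := by ring
    linarith
  have htot : θ * covr S' (Om k w ℓ) (idx ℓ) Fc X' γ e' ≤
      covr S' (Om k w ℓ) (idx ℓ) Fc X' γ e + S'.card * (θ * (40 / k)) := by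
    unfold covr
    rw [mul_sum, ← nsmul_eq_mul, ← sum_const, ← sum_add_distrib]
    exact sum_le_sum hslot
  have hSk : (S'.card : ℝ) * (θ * (40 / k)) ≤ θ * (1 / 10000) := by
    have hS' : (400000 : ℝ) * S'.card ≤ k := by exact_mod_cast hS
    have : (S'.card : ℝ) * (40 / k) ≤ 1 / 10000 := by
      rw [mul_div_assoc', div_le_iff₀ hk0]
      linarith
    calc (S'.card : ℝ) * (θ * (40 / k)) = θ * ((S'.card : ℝ) * (40 / k)) := by ring
      _ ≤ θ * (1 / 10000) := mul_le_mul_of_nonneg_left this hθ0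
  have h3 : θ ≤ θ * covr S' (Om k w ℓ) (idx ℓ) Fc X' γ e' := by nlinarith
  nlinarith

end SqCyc
end

section

/-! # GB-11 the weighted hypergraph of all configurations -/

open Finset

namespace SqCyc

variable {k : ℕ} [NeZero k] {ℓ : ℕ} {w : ℕ → Letter} {X' : Finset El}

open Classical in
/-- index set: slots of `S'` with configurations covering distinct elements of `X'` -/
noncomputable def hypI (k : ℕ) [NeZero k] (w : ℕ → Letter) (ℓ : ℕ) (S' : Finset ℕ)
    (X' : Finset El) : Finset (ℕ × Cfg k ℓ) :=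
  (S' ×ˢ univ).filter (fun q => q.2 ∈ Om k w ℓ q.1 ∧
    Set.InjOn (fun b => Fc b q.2) (idx ℓ : Set (ℕ × ℕ)) ∧ ∀ b ∈ idx ℓ, Fc b q.2 ∈ X')

def hypE (q : ℕ × Cfg k ℓ) : Finset (ℕ ⊕ El) :=
  insert (Sum.inl q.1) (((idx ℓ).image (fun b => Fc b q.2)).image Sum.inr)

def hypV (S' : Finset ℕ) (X' : Finset El) : Finset (ℕ ⊕ El) :=
  S'.image Sum.inl ∪ X'.image Sum.inr

noncomputable def hypW (w : ℕ → Letter) (X' : Finset El) (γ : El → ℝ) (q : ℕ × Cfg k ℓ) : ℝ :=
  Wt (idx ℓ) Fc X' γ q.2 / Zf (Om k w ℓ q.1) (idx ℓ) Fc X' γ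

/-- validity of a configuration -/
def gib11V (X' : Finset El) (x : Cfg k ℓ) : Prop :=
  Set.InjOn (fun b => Fc b x) (idx ℓ : Set (ℕ × ℕ)) ∧ ∀ b ∈ idx ℓ, Fc b x ∈ X'

theorem gib11_sum (S' : Finset ℕ) (P : ℕ × Cfg k ℓ → Prop) [DecidablePred P]
    [∀ s, DecidablePred (fun x : Cfg k ℓ => gib11V X' x ∧ P (s, x))] (f : ℕ × Cfg k ℓ → ℝ) :
    ∑ q ∈ (hypI k w ℓ S' X').filter P, f q =
      ∑ s ∈ S', ∑ x ∈ (Om k w ℓ s).filter (fun x => gib11V X' x ∧ P (s, x)), f (s, x) := by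
  unfold hypI
  rw [Finset.filter_filter, Finset.sum_filter, Finset.sum_product]
  refine Finset.sum_congr rfl fun s _ => ?_
  rw [← Finset.sum_filter]
  refine Finset.sum_congr ?_ fun _ _ => rfl
  ext x
  simp only [Finset.mem_filter, Finset.mem_univ, true_and, gib11V, and_assoc]

theorem gib11_card_idx (hℓ : 20 ≤ ℓ) : (idx ℓ).card = 3 * ℓ - 3 := by
  unfold idx
  have hsub : ({(0, 0), (0, 1), (1, 0)} : Finset (ℕ × ℕ)) ⊆ range 3 ×ˢ range ℓ := by
    intro b hb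
    simp only [Finset.mem_insert, Finset.mem_singleton] at hb
    rcases hb with rfl | rfl | rfl <;> simp <;> omega
  rw [Finset.card_sdiff_of_subset hsub, Finset.card_product, card_range, card_range]
  have : ({(0, 0), (0, 1), (1, 0)} : Finset (ℕ × ℕ)).card = 3 := by decide
  rw [this]

theorem gib11_inl {s : ℕ} {q : ℕ × Cfg k ℓ} : (Sum.inl s : ℕ ⊕ El) ∈ hypE q ↔ q.1 = s := by
  simp [hypE, eq_comm]

theorem gib11_inr {e : El} {q : ℕ × Cfg k ℓ} :
    (Sum.inr e : ℕ ⊕ El) ∈ hypE q ↔ ∃ b ∈ idx ℓ, Fc b q.2 = e := by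
  simp [hypE]

theorem gib11_cardE (hℓ : 20 ≤ ℓ) {q : ℕ × Cfg k ℓ}
    (hinj : Set.InjOn (fun b => Fc b q.2) (idx ℓ : Set (ℕ × ℕ))) :
    (hypE q).card = 3 * ℓ - 2 := by
  unfold hypE
  rw [Finset.card_insert_of_notMem (by simp), Finset.card_image_of_injective _ Sum.inr_injective,
    Finset.card_image_of_injOn hinj, gib11_card_idx hℓ]
  omega

theorem gib11_union {Ω ι : Type} (O : Finset Ω) (T : Finset ι) (A : Ω → Prop) (B : ι → Ω → Prop)
    [DecidablePred A] [∀ i, DecidablePred (B i)] (g : Ω → ℝ) (hg : ∀ x ∈ O, 0 ≤ g x)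
    (h : ∀ x ∈ O, A x → g x ≠ 0 → ∃ i ∈ T, B i x) :
    ∑ x ∈ O.filter A, g x ≤ ∑ i ∈ T, ∑ x ∈ O.filter (B i), g x := by
  simp only [Finset.sum_filter]
  rw [Finset.sum_comm]
  refine Finset.sum_le_sum fun x hx => ?_
  have hnn : ∀ i ∈ T, 0 ≤ (if B i x then g x else 0) := by
    intro i _
    split_ifs
    · exact hg x hx
    · exact le_rfl
  split_ifs with hA
  · by_cases h0 : g x = 0
    · rw [h0]
      exact Finset.sum_nonneg fun i hi => by simp
    · obtain ⟨i, hi, hB⟩ := h x hx hA h0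
      calc g x = if B i x then g x else 0 := by rw [if_pos hB]
        _ ≤ _ := Finset.single_le_sum hnn hi
  · exact Finset.sum_nonneg hnn

theorem gib11_mem {γ : El → ℝ} {x : Cfg k ℓ} (h : Wt (idx ℓ) Fc X' γ x ≠ 0) :
    ∀ b ∈ idx ℓ, Fc b x ∈ X' := by
  intro b hb
  by_contra hcon
  apply h
  unfold Wt
  refine Finset.prod_eq_zero hb ?_
  rw [psi, if_neg hcon]

theorem gib11_cardX (S' : Finset ℕ)
    (hcount : ∀ c, (X'.filter (fun e => clsEl k e = c)).card = hcls k w ℓ c * S'.card) :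
    X'.card = (idx ℓ).card * S'.card := by
  have h1 : X'.card = ∑ c : Cls, (X'.filter (fun e => clsEl k e = c)).card :=
    Finset.card_eq_sum_card_fiberwise (fun _ _ => Finset.mem_univ _)
  have h2 : (idx ℓ).card = ∑ c : Cls, ((idx ℓ).filter (fun b => clsB k w b = c)).card :=
    Finset.card_eq_sum_card_fiberwise (fun _ _ => Finset.mem_univ _)
  rw [h1, h2, Finset.sum_mul]
  exact Finset.sum_congr rfl fun c _ => hcount c

/-- weight of a configuration divided by the partition function -/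
noncomputable def gib11R (k : ℕ) [NeZero k] (ℓ : ℕ) (w : ℕ → Letter) (X' : Finset El)
    (γ : El → ℝ) (s : ℕ) (x : Cfg k ℓ) : ℝ :=
  Wt (idx ℓ) Fc X' γ x / Zf (Om k w ℓ s) (idx ℓ) Fc X' γ

theorem gib11_hypW (γ : El → ℝ) (s : ℕ) (x : Cfg k ℓ) :
    hypW w X' γ (s, x) = gib11R k ℓ w X' γ s x := rfl

theorem gib11R_nonneg (γ : El → ℝ) (s : ℕ) (x : Cfg k ℓ) : 0 ≤ gib11R k ℓ w X' γ s x :=
  div_nonneg (Wt_nonneg γ x) (Finset.sum_nonneg fun x _ => Wt_nonneg γ x)

/-- hypotheses -/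
structure G11 (k : ℕ) [NeZero k] (ℓ : ℕ) (w : ℕ → Letter) (X' : Finset El) (S' : Finset ℕ)
    (γ : El → ℝ) : Prop where
  G : GCtx k ℓ w X' (1 / 10 ^ 6)
  hγ : ∀ e ∈ X', |γ e| ≤ 1 / 1000
  hZ : ∀ s ∈ S', 0 < Zf (Om k w ℓ s) (idx ℓ) Fc X' γ

section
variable {S' : Finset ℕ} {γ : El → ℝ}

theorem gib11_k (H : G11 k ℓ w X' S' γ) : 0 < (k : ℝ) := by
  have := H.G.hk
  have : 0 < k := by omega
  exact_mod_cast this

theorem gib11_sum_one (H : G11 k ℓ w X' S' γ) {s : ℕ} (hs : s ∈ S') :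
    ∑ x ∈ Om k w ℓ s, gib11R k ℓ w X' γ s x = 1 := by
  unfold gib11R
  rw [← Finset.sum_div]
  exact div_self (H.hZ s hs).ne'

theorem gib11_le_one (H : G11 k ℓ w X' S' γ) {s : ℕ} (hs : s ∈ S') (A : Cfg k ℓ → Prop)
    [DecidablePred A] : ∑ x ∈ (Om k w ℓ s).filter A, gib11R k ℓ w X' γ s x ≤ 1 := by
  rw [← gib11_sum_one H hs]
  exact Finset.sum_le_sum_of_subset_of_nonneg (Finset.filter_subset _ _)
    fun x _ _ => gib11R_nonneg γ s x

theorem gib11_Nm (H : G11 k ℓ w X' S' γ) {s : ℕ} (hs : s ∈ S') {a : ℕ × ℕ} (ha : a ∈ idx ℓ)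
    (e : El) [DecidablePred fun x : Cfg k ℓ => Fc a x = e] :
    ∑ x ∈ (Om k w ℓ s).filter (fun x => Fc a x = e), gib11R k ℓ w X' γ s x ≤ 4 / k := by
  have h := Nm_le H.G γ H.hγ s ha e
  unfold gib11R
  rw [← Finset.sum_div, div_le_div_iff₀ (H.hZ s hs) (gib11_k H), mul_comm]
  refine le_trans (le_of_eq ?_) h
  unfold Nm
  congr 1
  exact Finset.sum_congr (by ext; simp) fun _ _ => rfl

theorem gib11_idx_le (H : G11 k ℓ w X' S' γ) : ((idx ℓ).card : ℝ) ≤ 3 * ℓ := by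
  rw [gib11_card_idx H.G.hℓ]
  have : 3 * ℓ - 3 ≤ 3 * ℓ := Nat.sub_le _ _
  exact_mod_cast this

theorem gib11_pd1 (H : G11 k ℓ w X' S' γ) (s : ℕ) (e : El) :
    pdeg (hypI k w ℓ S' X') hypE (hypW w X' γ) (Sum.inl s) (Sum.inr e) ≤
      400 * (ℓ : ℝ) ^ 2 / k := by
  classical
  have hkpos := gib11_k H
  have hidx := gib11_idx_le H
  have hℓR : (20 : ℝ) ≤ ℓ := by exact_mod_cast H.G.hℓ
  have hδ0 : 0 ≤ 400 * (ℓ : ℝ) ^ 2 / k := by positivity
  unfold pdeg
  rw [gib11_sum S' (fun q => (Sum.inl s : ℕ ⊕ El) ∈ hypE q ∧ (Sum.inr e : ℕ ⊕ El) ∈ hypE q)]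
  have h2 : ∀ s' ∈ S', ∑ x ∈ (Om k w ℓ s').filter (fun x => gib11V X' x ∧
        ((Sum.inl s : ℕ ⊕ El) ∈ hypE (s', x) ∧ (Sum.inr e : ℕ ⊕ El) ∈ hypE (s', x))),
        hypW w X' γ (s', x) ≤ if s' = s then 400 * (ℓ : ℝ) ^ 2 / k else 0 := by
    intro s' hs'
    split_ifs with hss
    · have h3 : ∑ x ∈ (Om k w ℓ s').filter (fun x => gib11V X' x ∧
          ((Sum.inl s : ℕ ⊕ El) ∈ hypE (s', x) ∧ (Sum.inr e : ℕ ⊕ El) ∈ hypE (s', x))),
          hypW w X' γ (s', x) ≤ ∑ a ∈ idx ℓ,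
          ∑ x ∈ (Om k w ℓ s').filter (fun x => Fc a x = e), gib11R k ℓ w X' γ s' x :=
        gib11_union _ _ _ (fun a x => Fc a x = e) _ (fun x _ => gib11R_nonneg γ s' x)
          fun x _ hx _ => gib11_inr.1 hx.2.2
      refine h3.trans ((Finset.sum_le_sum fun a ha => gib11_Nm H hs' ha e).trans ?_)
      rw [Finset.sum_const, nsmul_eq_mul, mul_div_assoc', div_le_div_iff_of_pos_right hkpos]
      nlinarith
    · refine le_of_eq (Finset.sum_eq_zero ?_)
      intro x hx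
      exfalso
      exact hss (gib11_inl.1 (Finset.mem_filter.1 hx).2.2.1)
  refine (Finset.sum_le_sum h2).trans ?_
  rw [Finset.sum_ite_eq']
  split_ifs
  · exact le_rfl
  · exact hδ0

theorem gib11_pair (H : G11 k ℓ w X' S' γ) {m : ℕ} (hm : 400000 * (m + 1) ≤ k)
    (hS : S' ⊆ range m) {e e' : El} (hee : e ≠ e') {a b : ℕ × ℕ} (ha : a ∈ idx ℓ)
    (hb : b ∈ idx ℓ) :
    ∑ s' ∈ S', ∑ x ∈ (Om k w ℓ s').filter (fun x => Fc a x = e ∧ Fc b x = e'),
      gib11R k ℓ w X' γ s' x ≤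
        16 / k + (if a ≠ b ∧ fp ℓ a = fp ℓ b then 16 / (k : ℝ) else 0) := by
  classical
  have hkpos := gib11_k H
  have hcardS : S'.card ≤ m := by
    have := Finset.card_le_card hS
    rwa [card_range] at this
  have hSk : (S'.card : ℝ) ≤ k := by
    have : S'.card ≤ k := by omega
    exact_mod_cast this
  have h16 : 0 ≤ 16 / (k : ℝ) := by positivity
  have h4k : 0 ≤ 4 / (k : ℝ) := by positivity
  by_cases hne : a = b
  · have h0 : ∑ s' ∈ S', ∑ x ∈ (Om k w ℓ s').filter (fun x => Fc a x = e ∧ Fc b x = e'),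
        gib11R k ℓ w X' γ s' x = 0 := by
      refine Finset.sum_eq_zero fun s' _ => Finset.sum_eq_zero fun x hx => ?_
      exfalso
      have := (Finset.mem_filter.1 hx).2
      rw [← hne] at this
      exact hee (this.1.symm.trans this.2)
    rw [h0, if_neg (fun h => h.1 hne), add_zero]
    exact h16
  · by_cases hfp : fp ℓ a = fp ℓ b
    · rw [if_pos ⟨hne, hfp⟩]
      have h4 : ∀ s' ∈ S', ∑ x ∈ (Om k w ℓ s').filter (fun x => Fc a x = e ∧ Fc b x = e'),
          gib11R k ℓ w X' γ s' x ≤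
            if (∃ x ∈ Om k w ℓ s', Fc a x = e ∧ Fc b x = e') then 4 / (k : ℝ) else 0 := by
        intro s' hs'
        split_ifs with hex
        · refine le_trans ?_ (gib11_Nm H hs' ha e)
          refine Finset.sum_le_sum_of_subset_of_nonneg ?_ fun x _ _ => gib11R_nonneg γ s' x
          intro x hx
          have := Finset.mem_filter.1 hx
          exact Finset.mem_filter.2 ⟨this.1, this.2.1⟩
        · refine le_of_eq (Finset.sum_eq_zero fun x hx => ?_)
          exfalso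
          have := Finset.mem_filter.1 hx
          exact hex ⟨x, this.1, this.2⟩
      refine (Finset.sum_le_sum h4).trans ?_
      have h5 : ∑ s' ∈ S', (if (∃ x ∈ Om k w ℓ s', Fc a x = e ∧ Fc b x = e') then 4 / (k : ℝ)
            else 0) ≤ ∑ s' ∈ range m, (if (∃ x ∈ Om k w ℓ s', Fc a x = e ∧ Fc b x = e')
            then 4 / (k : ℝ) else 0) := by
        refine Finset.sum_le_sum_of_subset_of_nonneg hS fun s' _ _ => ?_
        split_ifs
        · exact h4k
        · exact le_rfl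
      refine h5.trans ?_
      rw [← Finset.sum_filter, Finset.sum_const, nsmul_eq_mul]
      have h6 : ((range m).filter (fun s => ∃ x ∈ Om k w ℓ s, Fc a x = e ∧ Fc b x = e')).card
          ≤ 4 := slots_special (w := w) H.G.hℓ m (by omega) ha hb hne hfp e e'
      have h7 : (((range m).filter (fun s => ∃ x ∈ Om k w ℓ s, Fc a x = e ∧ Fc b x = e')).card
          : ℝ) ≤ 4 := by exact_mod_cast h6
      have h8 : 4 * (4 / (k : ℝ)) = 16 / k := by ring
      have h9 := mul_le_mul_of_nonneg_right h7 h4k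
      rw [h8] at h9
      linarith
    · have h4 : ∀ s' ∈ S', ∑ x ∈ (Om k w ℓ s').filter (fun x => Fc a x = e ∧ Fc b x = e'),
          gib11R k ℓ w X' γ s' x ≤ 16 / (k : ℝ) ^ 2 := by
        intro s' hs'
        have h := pair_le H.G γ H.hγ s' ha hb hfp e e'
        unfold gib11R
        rw [← Finset.sum_div, div_le_div_iff₀ (H.hZ s' hs') (by positivity), mul_comm]
        exact h
      refine (Finset.sum_le_sum h4).trans ?_
      rw [Finset.sum_const, nsmul_eq_mul]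
      have h5 : (S'.card : ℝ) * (16 / (k : ℝ) ^ 2) ≤ k * (16 / (k : ℝ) ^ 2) :=
        mul_le_mul_of_nonneg_right hSk (by positivity)
      have h6 : (k : ℝ) * (16 / (k : ℝ) ^ 2) = 16 / k := by
        field_simp
      rw [h6] at h5
      refine h5.trans ?_
      rw [if_neg (fun h => hfp h.2), add_zero]

theorem gib11_pd2 (H : G11 k ℓ w X' S' γ) {m : ℕ} (hm : 400000 * (m + 1) ≤ k)
    (hS : S' ⊆ range m) {e e' : El} (hee : e ≠ e') :
    pdeg (hypI k w ℓ S' X') hypE (hypW w X' γ) (Sum.inr e) (Sum.inr e') ≤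
      400 * (ℓ : ℝ) ^ 2 / k := by
  classical
  have hkpos := gib11_k H
  have hidx := gib11_idx_le H
  have hidx0 : (0 : ℝ) ≤ (idx ℓ).card := Nat.cast_nonneg _
  have hℓR : (20 : ℝ) ≤ ℓ := by exact_mod_cast H.G.hℓ
  unfold pdeg
  rw [gib11_sum S' (fun q => (Sum.inr e : ℕ ⊕ El) ∈ hypE q ∧ (Sum.inr e' : ℕ ⊕ El) ∈ hypE q)]
  have h2 : ∀ s' ∈ S', ∑ x ∈ (Om k w ℓ s').filter (fun x => gib11V X' x ∧
        ((Sum.inr e : ℕ ⊕ El) ∈ hypE (s', x) ∧ (Sum.inr e' : ℕ ⊕ El) ∈ hypE (s', x))),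
        hypW w X' γ (s', x) ≤ ∑ ab ∈ idx ℓ ×ˢ idx ℓ,
          ∑ x ∈ (Om k w ℓ s').filter
            (fun x : Cfg k ℓ => Fc (ab : (ℕ × ℕ) × (ℕ × ℕ)).1 x = e ∧ Fc ab.2 x = e'),
            gib11R k ℓ w X' γ s' x := by
    intro s' hs'
    refine gib11_union (Om k w ℓ s') (idx ℓ ×ˢ idx ℓ) _
      (fun ab x => Fc (ab : (ℕ × ℕ) × (ℕ × ℕ)).1 x = e ∧ Fc ab.2 x = e') _
      (fun x _ => gib11R_nonneg γ s' x) ?_
    intro x _ hx _
    obtain ⟨a, ha, hae⟩ := gib11_inr.1 hx.2.1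
    obtain ⟨b, hb, hbe⟩ := gib11_inr.1 hx.2.2
    exact ⟨(a, b), Finset.mem_product.2 ⟨ha, hb⟩, hae, hbe⟩
  refine (Finset.sum_le_sum h2).trans ?_
  rw [Finset.sum_comm]
  have h3 : ∀ ab ∈ idx ℓ ×ˢ idx ℓ, ∑ s' ∈ S',
      ∑ x ∈ (Om k w ℓ s').filter
        (fun x : Cfg k ℓ => Fc (ab : (ℕ × ℕ) × (ℕ × ℕ)).1 x = e ∧ Fc ab.2 x = e'),
        gib11R k ℓ w X' γ s' x ≤
      16 / k + (if ab.1 ≠ ab.2 ∧ fp ℓ ab.1 = fp ℓ ab.2 then 16 / (k : ℝ) else 0) := by
    rintro ⟨a, b⟩ hab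
    obtain ⟨ha, hb⟩ := Finset.mem_product.1 hab
    exact gib11_pair H hm hS hee ha hb
  refine (Finset.sum_le_sum h3).trans ?_
  rw [Finset.sum_add_distrib, Finset.sum_const, nsmul_eq_mul, ← Finset.sum_filter,
    Finset.sum_const, nsmul_eq_mul, Finset.card_product]
  have h4 : ((((idx ℓ) ×ˢ (idx ℓ)).filter
      (fun q : (ℕ × ℕ) × (ℕ × ℕ) => q.1 ≠ q.2 ∧ fp ℓ q.1 = fp ℓ q.2)).card : ℝ) ≤ 16 := by
    exact_mod_cast card_special H.G.hℓ
  have h5 : 0 ≤ 16 / (k : ℝ) := by positivity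
  have h6 : (((idx ℓ).card * (idx ℓ).card : ℕ) : ℝ) ≤ 9 * (ℓ : ℝ) ^ 2 := by
    push_cast
    nlinarith
  have h7 := mul_le_mul_of_nonneg_right h6 h5
  have h8 := mul_le_mul_of_nonneg_right h4 h5
  refine (add_le_add h7 h8).trans ?_
  rw [← add_mul, mul_div_assoc', div_le_div_iff_of_pos_right hkpos]
  nlinarith

theorem gib11_deg_inl (H : G11 k ℓ w X' S' γ) (s : ℕ) :
    deg (hypI k w ℓ S' X') hypE (hypW w X' γ) (Sum.inl s) ≤ 1 := by
  classical
  unfold deg
  rw [gib11_sum S' (fun q => (Sum.inl s : ℕ ⊕ El) ∈ hypE q)]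
  have h2 : ∀ s' ∈ S', ∑ x ∈ (Om k w ℓ s').filter (fun x => gib11V X' x ∧
        (Sum.inl s : ℕ ⊕ El) ∈ hypE (s', x)), hypW w X' γ (s', x) ≤
        if s' = s then (1 : ℝ) else 0 := by
    intro s' hs'
    split_ifs with hss
    · exact gib11_le_one H hs' _
    · refine le_of_eq (Finset.sum_eq_zero ?_)
      intro x hx
      exfalso
      exact hss (gib11_inl.1 (Finset.mem_filter.1 hx).2.2)
  refine (Finset.sum_le_sum h2).trans ?_
  rw [Finset.sum_ite_eq']
  split_ifs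
  · exact le_rfl
  · exact zero_le_one

theorem gib11_deg_inr (hcov : ∀ e ∈ X', covr S' (Om k w ℓ) (idx ℓ) Fc X' γ e = 1)
    {e : El} (he : e ∈ X') :
    deg (hypI k w ℓ S' X') hypE (hypW w X' γ) (Sum.inr e) ≤ 1 := by
  classical
  unfold deg
  rw [gib11_sum S' (fun q => (Sum.inr e : ℕ ⊕ El) ∈ hypE q), ← hcov e he]
  unfold covr
  refine Finset.sum_le_sum fun s' _ => ?_
  rw [Finset.sum_div]
  have h2 : ∀ a ∈ idx ℓ, Nm (Om k w ℓ s') (idx ℓ) Fc X' γ a e /
      Zf (Om k w ℓ s') (idx ℓ) Fc X' γ =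
      ∑ x ∈ (Om k w ℓ s').filter (fun x => Fc a x = e), gib11R k ℓ w X' γ s' x := by
    intro a _
    unfold gib11R
    rw [← Finset.sum_div]
    unfold Nm
    congr 1
  rw [Finset.sum_congr rfl h2]
  exact gib11_union _ _ _ (fun a x => Fc a x = e) _ (fun x _ => gib11R_nonneg γ s' x)
    fun x _ hx _ => gib11_inr.1 hx.2

theorem gib11_sub : ∀ q ∈ hypI k w ℓ S' X', hypE q ⊆ hypV S' X' := by
  intro q hq v hv
  unfold hypI at hq
  have hq' := Finset.mem_filter.1 hq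
  have hqS := (Finset.mem_product.1 hq'.1).1
  unfold hypV
  rcases v with s | e
  · have := gib11_inl.1 hv
    rw [← this]
    exact Finset.mem_union_left _ (Finset.mem_image_of_mem _ hqS)
  · obtain ⟨b, hb, hbe⟩ := gib11_inr.1 hv
    rw [← hbe]
    exact Finset.mem_union_right _ (Finset.mem_image_of_mem _ (hq'.2.2.2 b hb))

theorem gib11_card (hℓ : 20 ≤ ℓ) : ∀ q ∈ hypI k w ℓ S' X', (hypE q).card = 3 * ℓ - 2 := by
  intro q hq
  unfold hypI at hq
  exact gib11_cardE hℓ (Finset.mem_filter.1 hq).2.2.1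

theorem gib11_cardV (hℓ : 20 ≤ ℓ)
    (hcount : ∀ c, (X'.filter (fun e => clsEl k e = c)).card = hcls k w ℓ c * S'.card) :
    (hypV S' X').card = (3 * ℓ - 2) * S'.card := by
  unfold hypV
  rw [Finset.card_union_of_disjoint, Finset.card_image_of_injective _ Sum.inl_injective,
    Finset.card_image_of_injective _ Sum.inr_injective, gib11_cardX S' hcount,
    gib11_card_idx hℓ]
  · obtain ⟨r, hr⟩ : ∃ r, ℓ = r + 1 := ⟨ℓ - 1, by omega⟩
    rw [hr]
    have e1 : 3 * (r + 1) - 3 = 3 * r := by omega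
    have e2 : 3 * (r + 1) - 2 = 3 * r + 1 := by omega
    rw [e1, e2]; ring
  · rw [Finset.disjoint_left]
    intro v hv1 hv2
    obtain ⟨s, _, rfl⟩ := Finset.mem_image.1 hv1
    obtain ⟨e, _, he⟩ := Finset.mem_image.1 hv2
    exact Sum.inr_ne_inl he

theorem gib11_degsum (hℓ : 20 ≤ ℓ) :
    ∑ v ∈ hypV S' X', deg (hypI k w ℓ S' X') hypE (hypW w X' γ) v =
      ((3 * ℓ - 2 : ℕ) : ℝ) * ∑ q ∈ hypI k w ℓ S' X', hypW w X' γ q := by
  unfold deg
  simp only [Finset.sum_filter]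
  rw [Finset.sum_comm, Finset.mul_sum]
  refine Finset.sum_congr rfl fun q hq => ?_
  rw [← Finset.sum_filter, Finset.sum_const, nsmul_eq_mul, ← gib11_card hℓ q hq]
  congr 2
  congr 1
  ext v
  simp only [Finset.mem_filter]
  exact ⟨fun h => h.2, fun h => ⟨gib11_sub q hq h, h⟩⟩

open Classical in
theorem gib11_bad (H : G11 k ℓ w X' S' γ) {s : ℕ} (hs : s ∈ S') :
    1 - ∑ x ∈ (Om k w ℓ s).filter (fun x => gib11V X' x), gib11R k ℓ w X' γ s x ≤
      36 * (ℓ : ℝ) ^ 2 / k := by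
  have hkpos := gib11_k H
  have hidx := gib11_idx_le H
  have hidx0 : (0 : ℝ) ≤ (idx ℓ).card := Nat.cast_nonneg _
  rw [← gib11_sum_one H hs, ← Finset.sum_filter_add_sum_filter_not (Om k w ℓ s)
    (fun x : Cfg k ℓ => gib11V X' x) (fun x => gib11R k ℓ w X' γ s x), add_sub_cancel_left]
  have h4 : ∑ x ∈ (Om k w ℓ s).filter (fun x => ¬ gib11V X' x), gib11R k ℓ w X' γ s x ≤
      ∑ ab ∈ (idx ℓ ×ˢ idx ℓ).filter (fun ab => ab.1 ≠ ab.2),
        ∑ x ∈ (Om k w ℓ s).filter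
          (fun x : Cfg k ℓ => Fc (ab : (ℕ × ℕ) × (ℕ × ℕ)).1 x = Fc ab.2 x),
          gib11R k ℓ w X' γ s x := by
    refine gib11_union (Om k w ℓ s) ((idx ℓ ×ˢ idx ℓ).filter
      (fun ab : (ℕ × ℕ) × (ℕ × ℕ) => ab.1 ≠ ab.2)) (fun x => ¬ gib11V X' x)
      (fun ab x => Fc (ab : (ℕ × ℕ) × (ℕ × ℕ)).1 x = Fc ab.2 x) _
      (fun x _ => gib11R_nonneg γ s x) ?_
    intro x _ hx hx0
    have hx1 : Wt (idx ℓ) Fc X' γ x ≠ 0 := by
      intro h0; apply hx0; unfold gib11R; rw [h0, zero_div]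
    have hx2 := gib11_mem hx1
    have hx3 : ¬ Set.InjOn (fun b => Fc b x) (idx ℓ : Set (ℕ × ℕ)) := fun h => hx ⟨h, hx2⟩
    rw [Set.InjOn] at hx3
    push Not at hx3
    obtain ⟨a, ha, b, hb, hab, hne⟩ := hx3
    exact ⟨(a, b), Finset.mem_filter.2 ⟨Finset.mem_product.2
      ⟨Finset.mem_coe.1 ha, Finset.mem_coe.1 hb⟩, hne⟩, hab⟩
  refine h4.trans ?_
  have h5 : ∀ ab ∈ (idx ℓ ×ˢ idx ℓ).filter (fun ab => ab.1 ≠ ab.2),
      ∑ x ∈ (Om k w ℓ s).filter
        (fun x : Cfg k ℓ => Fc (ab : (ℕ × ℕ) × (ℕ × ℕ)).1 x = Fc ab.2 x),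
        gib11R k ℓ w X' γ s x ≤ 4 / (k : ℝ) := by
    rintro ⟨a, b⟩ hab
    obtain ⟨hab1, hne⟩ := Finset.mem_filter.1 hab
    obtain ⟨ha, hb⟩ := Finset.mem_product.1 hab1
    have h := coincide_le H.G γ H.hγ s ha hb hne
    unfold gib11R
    rw [← Finset.sum_div, div_le_div_iff₀ (H.hZ s hs) hkpos, mul_comm]
    refine le_trans (le_of_eq ?_) h
    congr 1
  refine (Finset.sum_le_sum h5).trans ?_
  rw [Finset.sum_const, nsmul_eq_mul]
  have h6 : ((((idx ℓ) ×ˢ (idx ℓ)).filter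
      (fun ab : (ℕ × ℕ) × (ℕ × ℕ) => ab.1 ≠ ab.2)).card : ℝ) ≤ 9 * (ℓ : ℝ) ^ 2 := by
    have h7 := Finset.card_filter_le ((idx ℓ) ×ˢ (idx ℓ))
      (fun ab : (ℕ × ℕ) × (ℕ × ℕ) => ab.1 ≠ ab.2)
    rw [Finset.card_product] at h7
    have h8 : ((((idx ℓ) ×ˢ (idx ℓ)).filter
      (fun ab : (ℕ × ℕ) × (ℕ × ℕ) => ab.1 ≠ ab.2)).card : ℝ) ≤
      ((idx ℓ).card : ℝ) * (idx ℓ).card := by exact_mod_cast h7
    refine h8.trans ?_
    nlinarith
  have h9 : 0 ≤ 4 / (k : ℝ) := by positivity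
  refine (mul_le_mul_of_nonneg_right h6 h9).trans (le_of_eq ?_)
  ring

theorem gib11_wsum (H : G11 k ℓ w X' S' γ) :
    (S'.card : ℝ) - ∑ q ∈ hypI k w ℓ S' X', hypW w X' γ q ≤
      S'.card * (36 * (ℓ : ℝ) ^ 2 / k) := by
  classical
  have h1 : ∑ q ∈ hypI k w ℓ S' X', hypW w X' γ q =
      ∑ s ∈ S', ∑ x ∈ (Om k w ℓ s).filter (fun x => gib11V X' x), gib11R k ℓ w X' γ s x := by
    have := gib11_sum (w := w) (X' := X') (k := k) (ℓ := ℓ) S' (fun _ => True) (hypW w X' γ)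
    rw [Finset.filter_true_of_mem (fun _ _ => trivial)] at this
    rw [this]
    refine Finset.sum_congr rfl fun s _ => ?_
    refine Finset.sum_congr ?_ fun _ _ => rfl
    ext x; simp
  have h2 : (S'.card : ℝ) = ∑ s ∈ S', (1 : ℝ) := by simp
  rw [h1]
  conv_lhs => rw [h2]
  rw [← Finset.sum_sub_distrib]
  refine (Finset.sum_le_sum fun s hs => gib11_bad H hs).trans (le_of_eq ?_)
  rw [Finset.sum_const, nsmul_eq_mul]

theorem gib11_defc (H : G11 k ℓ w X' S' γ)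
    (hcount : ∀ c, (X'.filter (fun e => clsEl k e = c)).card = hcls k w ℓ c * S'.card) :
    defc (hypV S' X') (hypI k w ℓ S' X') hypE (hypW w X' γ)
        ≤ 400 * (ℓ : ℝ) ^ 2 / k * (hypV S' X').card := by
  have hkpos := gib11_k H
  have hV := gib11_cardV H.G.hℓ hcount
  have hdef : defc (hypV S' X') (hypI k w ℓ S' X') hypE (hypW w X' γ) =
      ((3 * ℓ - 2 : ℕ) : ℝ) * ((S'.card : ℝ) - ∑ q ∈ hypI k w ℓ S' X', hypW w X' γ q) := by
    unfold defc
    rw [Finset.sum_sub_distrib, gib11_degsum H.G.hℓ, Finset.sum_const, nsmul_eq_mul, mul_one, hV,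
      Nat.cast_mul]
    ring
  rw [hdef, hV]
  have h10 : (0 : ℝ) ≤ ((3 * ℓ - 2 : ℕ) : ℝ) := Nat.cast_nonneg _
  refine (mul_le_mul_of_nonneg_left (gib11_wsum H) h10).trans ?_
  rw [Nat.cast_mul]
  have h11 : 36 * (ℓ : ℝ) ^ 2 / k ≤ 400 * (ℓ : ℝ) ^ 2 / k := by
    rw [div_le_div_iff_of_pos_right hkpos]
    nlinarith [sq_nonneg (ℓ : ℝ)]
  have h12 : (0 : ℝ) ≤ ((3 * ℓ - 2 : ℕ) : ℝ) * S'.card := mul_nonneg h10 (Nat.cast_nonneg _)
  calc ((3 * ℓ - 2 : ℕ) : ℝ) * ((S'.card : ℝ) * (36 * (ℓ : ℝ) ^ 2 / k))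
      = (((3 * ℓ - 2 : ℕ) : ℝ) * S'.card) * (36 * (ℓ : ℝ) ^ 2 / k) := by ring
    _ ≤ (((3 * ℓ - 2 : ℕ) : ℝ) * S'.card) * (400 * (ℓ : ℝ) ^ 2 / k) :=
        mul_le_mul_of_nonneg_left h11 h12
    _ = _ := by ring

end

theorem nibSys_slots (G : GCtx k ℓ w X' (1 / 10 ^ 6)) (m : ℕ) (hm : 400000 * (m + 1) ≤ k)
    (S' : Finset ℕ) (hS : S' ⊆ range m)
    (hports : ∀ s ≤ m, vtx (PA k s) ∉ X' ∧ vtx (PC k s) ∉ X')
    (hcount : ∀ c, (X'.filter (fun e => clsEl k e = c)).card = hcls k w ℓ c * S'.card) :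
    ∃ γ : El → ℝ,
      NibSys (3 * ℓ - 2) (400 * (ℓ : ℝ) ^ 2 / k) (hypV S' X') (hypI k w ℓ S' X') hypE
        (hypW w X' γ) ∧
      defc (hypV S' X') (hypI k w ℓ S' X') hypE (hypW w X' γ)
        ≤ 400 * (ℓ : ℝ) ^ 2 / k * (hypV S' X').card := by
  have hcardS : S'.card ≤ m := by
    have := Finset.card_le_card hS
    rwa [card_range] at this
  have hp4 : ∀ s ∈ S', vtx (PA k s) ∉ X' ∧ vtx (PC k s) ∉ X' ∧ vtx (PA k (s + 1)) ∉ X' ∧
      vtx (PC k (s + 1)) ∉ X' := by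
    intro s hs
    have hsm := Finset.mem_range.1 (hS hs)
    exact ⟨(hports s hsm.le).1, (hports s hsm.le).2, (hports (s + 1) hsm).1,
      (hports (s + 1) hsm).2⟩
  obtain ⟨γ, hγ0, hcov⟩ := exists_gamma G S' hp4 hcount (by omega)
  have H : G11 k ℓ w X' S' γ := by
    refine ⟨G, fun e he => (hγ0 e he).trans (by norm_num), fun s hs => ?_⟩
    exact Zf_pos G (hp4 s hs).1 (hp4 s hs).2.1 (hp4 s hs).2.2.1 (hp4 s hs).2.2.2 γ
  have hkpos := gib11_k H
  refine ⟨γ, ⟨gib11_sub, gib11_card G.hℓ, fun q _ => gib11R_nonneg γ q.1 q.2, ?_, ?_⟩,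
    gib11_defc H hcount⟩
  · intro v hv
    unfold hypV at hv
    rcases Finset.mem_union.1 hv with h | h
    · obtain ⟨s, _, rfl⟩ := Finset.mem_image.1 h
      exact gib11_deg_inl H s
    · obtain ⟨e, he, rfl⟩ := Finset.mem_image.1 h
      exact gib11_deg_inr hcov he
  · intro u _ v _ huv
    rcases u with s | e <;> rcases v with s' | e'
    · have hδ0 : 0 ≤ 400 * (ℓ : ℝ) ^ 2 / k := by positivity
      refine le_trans (le_of_eq ?_) hδ0
      unfold pdeg
      refine Finset.sum_eq_zero fun q hq => ?_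
      exfalso
      have := (Finset.mem_filter.1 hq).2
      exact huv (by rw [← gib11_inl.1 this.1, ← gib11_inl.1 this.2])
    · exact gib11_pd1 H s e'
    · have : pdeg (hypI k w ℓ S' X') hypE (hypW w X' γ) (Sum.inr e) (Sum.inl s') =
          pdeg (hypI k w ℓ S' X') hypE (hypW w X' γ) (Sum.inl s') (Sum.inr e) := by
        unfold pdeg
        refine Finset.sum_congr ?_ fun _ _ => rfl
        ext q
        simp only [Finset.mem_filter]
        tauto
      rw [this]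
      exact gib11_pd1 H s' e
    · exact gib11_pd2 H hm hS (fun h => huv (by rw [h]))

end SqCyc
end

section

/-! # GD-9 the slot system satisfies the hypotheses of the absorption theorem -/

open Finset

namespace SqCyc

variable {k : ℕ} [NeZero k] {ℓ m : ℕ} {w : ℕ → Letter} {X : Finset El}

private lemma gd9_PA (s : ℕ) : PA k s ∈ Lset k (false, false) := by
  unfold PA Lset
  simp only [mem_filter, mem_univ, true_and]
  rw [val_natCast_bodd, Nat.bodd_mul]
  simp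

private lemma gd9_PC (s : ℕ) : PC k s ∈ Lset k (true, false) := by
  unfold PC Lset
  simp only [mem_filter, mem_univ, true_and]
  rw [val_natCast_bodd, Nat.bodd_mul]
  simp

private lemma gd9_lett (w0 : w 0 = (false, false)) (w1 : w 1 = (true, false))
    (wℓ : w ℓ = (false, false)) (wℓ1 : w (ℓ + 1) = (true, false)) {s : ℕ} {y : ℕ → Pt k}
    (hy : Seg k w ℓ (PA k s) (PC k s) (PA k (s + 1)) (PC k (s + 1)) y) (i : ℕ) (hi : i ≤ ℓ + 1) :
    y i ∈ Lset k (w i) := by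
  by_cases h1 : i = ℓ + 1
  · rw [h1, hy.hn1, wℓ1]
    exact gd9_PC _
  by_cases h2 : i = ℓ
  · rw [h2, hy.hn, wℓ]
    exact gd9_PA _
  by_cases h3 : i = 0
  · rw [h3, hy.h0, w0]
    exact gd9_PA _
  by_cases h4 : i = 1
  · rw [h4, hy.h1, w1]
    exact gd9_PC _
  exact hy.lett i (by omega) (by omega)

private lemma gd9_cls {y : ℕ → Pt k} (hy : ∀ i ≤ ℓ + 1, y i ∈ Lset k (w i)) {b : ℕ × ℕ}
    (hb : b ∈ idx ℓ) : clsEl k (el y b) = clsB k w b := by
  unfold idx at hb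
  simp only [mem_sdiff, mem_product, mem_range] at hb
  unfold el clsB
  split_ifs with h
  · exact clsEl_vtx (hy _ (by omega))
  · exact clsEl_col (hy _ (by omega)) (hy _ (by omega))

theorem absSys_slots (C : Ctx k ℓ w m X) (w0 : w 0 = (false, false)) (w1 : w 1 = (true, false))
    (wℓ : w ℓ = (false, false)) (wℓ1 : w (ℓ + 1) = (true, false))
    (hcX : ∀ c, (X.filter (fun e => clsEl k e = c)).card = hcls k w ℓ c * m)
    (δ : ℝ) (hδ : 0 ≤ δ)
    (hk : (10 : ℝ) ^ 11 * ((U k \ X).card + δ * m + ℓ) < k) :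
    AbsSys (hcls k w ℓ) 400 δ m X (clsEl k) (Fill k w ℓ X) := by
  have hm0 : (0 : ℝ) ≤ δ * m := mul_nonneg hδ (Nat.cast_nonneg m)
  have hbig : ∀ F : Finset El, (F.card : ℝ) ≤ δ * m →
      10 ^ 11 * ((U k \ X).card + F.card + ℓ) < k := by
    intro F hF
    have h : ((10 ^ 11 * ((U k \ X).card + F.card + ℓ) : ℕ) : ℝ) < (k : ℝ) := by
      push_cast
      refine lt_of_le_of_lt ?_ hk
      gcongr
      norm_num
    exact_mod_cast h
  have hsmall : ∀ F : Finset El, (F.card : ℝ) ≤ δ * m →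
      1000 * ((U k \ X).card + F.card + ℓ) < k := by
    intro F hF
    refine lt_of_le_of_lt ?_ (hbig F hF)
    exact Nat.mul_le_mul_right _ (by norm_num)
  refine ⟨hcX, ?_, ?_, ?_, ?_, ?_⟩
  · rintro s hs A ⟨y, _, _, _, h⟩
    exact h
  · rintro s hs A ⟨y, hy, hinj, hA, _⟩ c
    have hl := gd9_lett w0 w1 wℓ wℓ1 hy
    rw [← hA, filter_image, card_image_of_injOn (hinj.mono (by
      intro b hb
      exact (mem_filter.mp hb).1))]
    unfold hcls
    congr 1
    refine filter_congr fun b hb => ?_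
    rw [gd9_cls hl hb]
  · intro s hs F hF
    exact fill_avoid C hs F (hsmall F hF)
  · intro s hs x hx F hxF hF
    exact fill_avoid_mem C hs x hx F hxF (hsmall F hF)
  · intro c ys hys hc h40 F hF avail hav hav4
    have hV : ∀ θ : Letter, (∃ i₀, Win w ℓ i₀ θ θ) → c = Cls.V θ.1 θ.2 →
        ∃ T ⊆ avail, T.card ≤ 400 ∧ ∃ B : Finset El, Disjoint B (F ∪ ys) ∧
          ∀ y ∈ ys, CovT (Fill k w ℓ X) T (insert y B) := by
      rintro θ ⟨i₀, hw⟩ hcθ
      refine node_vertex C hw ys hys (fun y hy => ?_) h40 F avail hav hav4 (hbig F hF)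
      refine exists_vtx_lift (C.hX (hys hy)) ?_
      have h1 := hc y hy
      rw [hcθ] at h1
      unfold clsV
      cases y with
      | v i d =>
        unfold clsEl at h1 ⊢
        split_ifs at h1 ⊢ with h2
        · rw [Cls.V.injEq] at h1
          rw [h1.1]
        · exact h1
      | p i d => simp [clsEl] at h1
      | x d => simp [clsEl] at h1
    have hP : ∀ (i : Bool) (η : Letter), (∃ i₀, Win w ℓ i₀ (i, false) η) →
        (∃ i₁, Win w ℓ i₁ (i, false) (i, false)) → c = clsC (i, false) η →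
        ∃ T ⊆ avail, T.card ≤ 400 ∧ ∃ B : Finset El, Disjoint B (F ∪ ys) ∧
          ∀ y ∈ ys, CovT (Fill k w ℓ X) T (insert y B) := by
      rintro i η ⟨i₀, hw⟩ ⟨i₁, hw'⟩ hcη
      exact node_colour C hw hw' ys hys (fun y hy => (hc y hy).trans hcη) h40 F avail hav hav4
        (hbig F hF)
    have W := C.wins
    cases c with
    | V i e =>
      cases i <;> cases e
      · exact hV (false, false) W.AA rfl
      · exact hV (false, true) W.BB rfl
      · exact hV (true, false) W.CC rfl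
      · exact hV (true, true) W.DD rfl
    | P i e =>
      cases i <;> cases e
      · exact hP false (false, false) W.AA W.AA rfl
      · exact hP false (false, true) W.AB W.AA rfl
      · exact hP true (true, false) W.CC W.CC rfl
      · exact hP true (true, true) W.CD W.CC rfl
    | X e =>
      cases e
      · exact hP false (true, false) W.AC W.AA rfl
      · exact hP false (true, true) W.AD W.AA rfl

end SqCyc
end

section

/-! # GB-12 the nibble hypothesis for the slot system -/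

open Finset

namespace SqCyc

private theorem gib12_card_idx {ℓ : ℕ} (hℓ : 2 ≤ ℓ) : (idx ℓ).card = 3 * ℓ - 3 := by
  unfold idx
  rw [Finset.card_sdiff_of_subset, Finset.card_product, Finset.card_range, Finset.card_range]
  · rfl
  · intro b hb
    simp only [Finset.mem_insert, Finset.mem_singleton] at hb
    rw [Finset.mem_product, Finset.mem_range, Finset.mem_range]
    rcases hb with rfl | rfl | rfl
    · exact ⟨by norm_num, by omega⟩
    · exact ⟨by norm_num, by omega⟩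
    · exact ⟨by norm_num, by omega⟩

private theorem gib12_sum_hcls (k : ℕ) (w : ℕ → Letter) (ℓ : ℕ) :
    ∑ c : Cls, hcls k w ℓ c = (idx ℓ).card := by
  unfold hcls
  rw [← Finset.card_eq_sum_card_fiberwise (t := univ)]
  intro x _
  exact Finset.mem_coe.2 (Finset.mem_univ _)

private theorem gib12_hcls_le (k : ℕ) (w : ℕ → Letter) {ℓ : ℕ} (hℓ : 2 ≤ ℓ) (c : Cls) :
    hcls k w ℓ c ≤ 3 * ℓ := by
  have h1 : hcls k w ℓ c ≤ (idx ℓ).card := Finset.card_filter_le _ _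
  rw [gib12_card_idx hℓ] at h1
  omega

private theorem gib12_card_X (k : ℕ) (w : ℕ → Letter) (ℓ : ℕ) (X' : Finset El) (n : ℕ)
    (h : ∀ c, (X'.filter (fun e => clsEl k e = c)).card = hcls k w ℓ c * n) :
    X'.card = (idx ℓ).card * n := by
  rw [← gib12_sum_hcls k w ℓ, Finset.sum_mul,
    Finset.card_eq_sum_card_fiberwise (f := clsEl k) (t := univ)]
  · exact Finset.sum_congr rfl fun c _ => h c
  · intro x _
    exact Finset.mem_coe.2 (Finset.mem_univ _)

private theorem gib12_card_hypV (S' : Finset ℕ) (X' : Finset El) :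
    (hypV S' X').card = S'.card + X'.card := by
  unfold hypV
  rw [Finset.card_union_of_disjoint, Finset.card_image_of_injective _ Sum.inl_injective,
    Finset.card_image_of_injective _ Sum.inr_injective]
  rw [Finset.disjoint_left]
  intro a ha hb
  rw [Finset.mem_image] at ha hb
  obtain ⟨s, -, rfl⟩ := ha
  obtain ⟨t, -, ht⟩ := hb
  cases ht

private theorem gib12_num {k a b c l m : ℝ} (hk : 10 ^ 8 ≤ k) (h6 : b ≤ 3 * l * (1 / 10 ^ 8 * m))
    (h7 : l * m ≤ 2 * k) (h8 : 10 ^ 8 * c ≤ k) (h9 : a ≤ c + b) : 2 * a + 2 ≤ 1 / 10 ^ 6 * k := by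
  nlinarith

private theorem gib12_ms {r s M e v : ℝ} (hr : 0 < r) (hv : v = r * s)
    (h : (1 - e) * v ≤ r * M) : (1 - e) * s ≤ M := by
  rw [hv] at h
  by_contra hcon
  push Not at hcon
  have := mul_lt_mul_of_pos_left hcon hr
  nlinarith

private theorem gib12_fin {s M e m : ℝ} (he : 0 < e) (h : (1 - e) * s ≤ M) (hs : s ≤ m) :
    s - M ≤ e * m := by
  nlinarith

private theorem gib12_seg {k : ℕ} [NeZero k] {ℓ : ℕ} {w : ℕ → Letter} (hℓ : 20 ≤ ℓ) {s : ℕ}
    {x : Cfg k ℓ} (hx : x ∈ Om k w ℓ s) :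
    Seg k w ℓ (PA k s) (PC k s) (PA k (s + 1)) (PC k (s + 1)) (ext x) := by
  have hA : ∀ i, x i ∈ Apos k w ℓ s i := Fintype.mem_piFinset.1 hx
  have hext : ∀ (i : ℕ) (hi : i < ℓ + 2), ext x i = x ⟨i, hi⟩ := by
    intro i hi
    unfold ext
    rw [dif_pos hi]
  constructor
  · have h := hA ⟨0, by omega⟩
    rw [hext 0 (by omega)]
    unfold Apos at h
    rw [if_pos rfl] at h
    exact Finset.mem_singleton.1 h
  · have h := hA ⟨1, by omega⟩
    rw [hext 1 (by omega)]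
    unfold Apos at h
    rw [if_neg (by norm_num), if_pos rfl] at h
    exact Finset.mem_singleton.1 h
  · have h := hA ⟨ℓ, by omega⟩
    rw [hext ℓ (by omega)]
    unfold Apos at h
    rw [if_neg (by show ¬ ℓ = 0; omega), if_neg (by show ¬ ℓ = 1; omega),
      if_neg (by show ¬ ℓ < ℓ; omega), if_pos rfl] at h
    exact Finset.mem_singleton.1 h
  · have h := hA ⟨ℓ + 1, by omega⟩
    rw [hext (ℓ + 1) (by omega)]
    unfold Apos at h
    rw [if_neg (by show ¬ ℓ + 1 = 0; omega), if_neg (by show ¬ ℓ + 1 = 1; omega),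
      if_neg (by show ¬ ℓ + 1 < ℓ; omega), if_neg (by show ¬ ℓ + 1 = ℓ; omega)] at h
    exact Finset.mem_singleton.1 h
  · intro i h2 hi
    have h := hA ⟨i, by omega⟩
    rw [hext i (by omega)]
    unfold Apos at h
    rw [if_neg (by show ¬ i = 0; omega), if_neg (by show ¬ i = 1; omega),
      if_pos (by show i < ℓ; omega)] at h
    exact h

theorem nibHyp_slots (ℓ : ℕ) (w : ℕ → Letter) (hℓ : 20 ≤ ℓ) (w0 : w 0 = (false, false))
    (w1 : w 1 = (true, false)) (wl : w ℓ = (false, false)) (wl1 : w (ℓ + 1) = (true, false))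
    (ε : ℝ) (hε : 0 < ε) : ∃ k₀ : ℕ, ∀ (k : ℕ) [NeZero k] (m : ℕ) (X : Finset El), k₀ ≤ k →
      Ctx k ℓ w m X →
      (∀ c, (X.filter (fun e => clsEl k e = c)).card = hcls k w ℓ c * m) →
      10 ^ 8 * (U k \ X).card ≤ k → ℓ * m ≤ 2 * k → 400000 * (m + 1) ≤ k →
      NibHyp (hcls k w ℓ) (1 / 10 ^ 8) ε m X (clsEl k) (Fill k w ℓ X) := by
  obtain ⟨δ, hδ, hnib⟩ := nibble (3 * ℓ - 2) (by omega) ε hε
  obtain ⟨N, hN⟩ := exists_nat_gt (400 * (ℓ : ℝ) ^ 2 / δ)
  refine ⟨max N (max (100 * ℓ + 1000) (10 ^ 8)), ?_⟩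
  intro k _ m X hk hC hcard hUX hlm hmk S' hS' X' hX' hS'm hX'c
  have hkN : N ≤ k := (le_max_left _ _).trans hk
  have hk1 : 100 * ℓ + 1000 ≤ k := (le_max_left _ _).trans ((le_max_right _ _).trans hk)
  have hk2 : 10 ^ 8 ≤ k := (le_max_right _ _).trans ((le_max_right _ _).trans hk)
  have hk2' : (10 ^ 8 : ℝ) ≤ k := by exact_mod_cast hk2
  have hkpos : (0 : ℝ) < k := by linarith
  have hSm : S'.card ≤ m := by
    have := Finset.card_le_card hS'
    rwa [Finset.card_range] at this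
  have hbad : ∀ c : Cls, 2 * (((U k \ X').filter (fun e => clsEl k e = c)).card : ℝ) + 2
      ≤ 1 / 10 ^ 6 * k := by
    intro c
    have e1 : ((U k \ X').filter (fun e => clsEl k e = c)) ⊆ (U k \ X) ∪
        ((X.filter (fun e => clsEl k e = c)) \ (X'.filter (fun e => clsEl k e = c))) := by
      intro e he
      rw [Finset.mem_filter, Finset.mem_sdiff] at he
      rw [Finset.mem_union, Finset.mem_sdiff, Finset.mem_sdiff, Finset.mem_filter,
        Finset.mem_filter]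
      by_cases hX : e ∈ X
      · exact Or.inr ⟨⟨hX, he.2⟩, fun h => he.1.2 h.1⟩
      · exact Or.inl ⟨he.1.1, hX⟩
    have e2 := (Finset.card_le_card e1).trans (Finset.card_union_le _ _)
    have e3 : ((X.filter (fun e => clsEl k e = c)) \ (X'.filter (fun e => clsEl k e = c))).card
        = hcls k w ℓ c * (m - S'.card) := by
      rw [Finset.card_sdiff_of_subset (Finset.filter_subset_filter _ hX'), hcard c, hX'c c,
        Nat.mul_sub]
    rw [e3] at e2
    have e4 : (hcls k w ℓ c : ℝ) ≤ 3 * ℓ := by exact_mod_cast gib12_hcls_le k w (by omega) c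
    have e5 : ((m - S'.card : ℕ) : ℝ) ≤ 1 / 10 ^ 8 * m := by
      rw [Nat.cast_sub hSm]
      exact hS'm
    have e6 : ((hcls k w ℓ c * (m - S'.card) : ℕ) : ℝ) ≤ 3 * ℓ * (1 / 10 ^ 8 * m) := by
      rw [Nat.cast_mul]
      exact mul_le_mul e4 e5 (Nat.cast_nonneg _) (by positivity)
    have e7 : (ℓ : ℝ) * m ≤ 2 * k := by exact_mod_cast hlm
    have e8 : (10 ^ 8 : ℝ) * ((U k \ X).card : ℝ) ≤ k := by exact_mod_cast hUX
    have e9 : (((U k \ X').filter (fun e => clsEl k e = c)).card : ℝ) ≤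
        ((U k \ X).card : ℝ) + ((hcls k w ℓ c * (m - S'.card) : ℕ) : ℝ) := by exact_mod_cast e2
    exact gib12_num hk2' e6 e7 e8 e9
  have G : GCtx k ℓ w X' (1 / 10 ^ 6) :=
    ⟨hX'.trans hC.hX, hℓ, hk1, w0, w1, wl, wl1, by norm_num, by norm_num, hbad⟩
  obtain ⟨γ, hsys, hdef⟩ := nibSys_slots G m hmk S' hS'
    (fun s hs => ⟨fun h => hC.hA s hs (hX' h), fun h => hC.hC s hs (hX' h)⟩) hX'c
  have hδk : 400 * (ℓ : ℝ) ^ 2 / k ≤ δ := by
    have h1 : 400 * (ℓ : ℝ) ^ 2 / δ < k := hN.trans_le (by exact_mod_cast hkN)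
    rw [div_lt_iff₀ hδ] at h1
    rw [div_le_iff₀ hkpos]
    linarith
  obtain ⟨M, hM, hdis, hMcard⟩ := hnib (ℕ ⊕ El) (ℕ × Cfg k ℓ) (hypV S' X') (hypI k w ℓ S' X')
    hypE (hypW w X' γ)
    ⟨hsys.sub, hsys.card, hsys.nonneg, hsys.deg_le,
      fun u hu v hv huv => (hsys.pdeg_le u hu v hv huv).trans hδk⟩
    (hdef.trans (mul_le_mul_of_nonneg_right hδk (Nat.cast_nonneg _)))
  have hmem : ∀ q ∈ M, q.1 ∈ S' ∧ q.2 ∈ Om k w ℓ q.1 ∧
      Set.InjOn (fun b => Fc b q.2) (idx ℓ : Set (ℕ × ℕ)) ∧ ∀ b ∈ idx ℓ, Fc b q.2 ∈ X' := by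
    intro q hq
    have h := hM hq
    unfold hypI at h
    rw [Finset.mem_filter, Finset.mem_product] at h
    exact ⟨h.1.1, h.2.1, h.2.2.1, h.2.2.2⟩
  have hinj : Set.InjOn Prod.fst (M : Set (ℕ × Cfg k ℓ)) := by
    intro p hp q hq hpq
    by_contra hne
    have h := hdis p hp q hq hne
    rw [Finset.disjoint_left] at h
    apply h (a := Sum.inl p.1)
    · unfold hypE
      exact Finset.mem_insert_self _ _
    · unfold hypE
      rw [hpq]
      exact Finset.mem_insert_self _ _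
  have hDcard : (M.image Prod.fst).card = M.card := Finset.card_image_of_injOn hinj
  have hV : ((hypV S' X').card : ℝ) = ((3 * ℓ - 2 : ℕ) : ℝ) * S'.card := by
    rw [gib12_card_hypV, gib12_card_X k w ℓ X' S'.card hX'c, gib12_card_idx (by omega)]
    rw [← Nat.cast_mul]
    congr 1
    have : 3 * ℓ - 2 = (3 * ℓ - 3) + 1 := by omega
    rw [this]
    ring
  have hr0 : (0 : ℝ) < ((3 * ℓ - 2 : ℕ) : ℝ) := by
    have : 0 < 3 * ℓ - 2 := by omega
    exact_mod_cast this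
  have hMS : (1 - ε) * (S'.card : ℝ) ≤ M.card := gib12_ms hr0 hV hMcard
  classical
  have hch : ∀ s : ℕ, ∃ x : Cfg k ℓ, s ∈ M.image Prod.fst → (s, x) ∈ M := by
    intro s
    by_cases hs : s ∈ M.image Prod.fst
    · obtain ⟨q, hq, rfl⟩ := Finset.mem_image.1 hs
      exact ⟨q.2, fun _ => hq⟩
    · exact ⟨fun _ => (false, 0), fun h => absurd h hs⟩
  choose xs hxs using hch
  refine ⟨M.image Prod.fst, ?_, ?_,
    (M.image Prod.fst).biUnion (fun s => (idx ℓ).image (fun b => Fc b (xs s))), ?_,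
    fun s => (idx ℓ).image (fun b => Fc b (xs s)), ?_, ?_, rfl⟩
  · intro s hs
    exact (hmem _ (hxs s hs)).1
  · rw [hDcard]
    have h1 : (S'.card : ℝ) ≤ m := by exact_mod_cast hSm
    exact gib12_fin hε hMS h1
  · intro e he
    rw [Finset.mem_biUnion] at he
    obtain ⟨s, hs, he⟩ := he
    obtain ⟨b, hb, rfl⟩ := Finset.mem_image.1 he
    exact (hmem _ (hxs s hs)).2.2.2 b hb
  · intro s hs
    obtain ⟨-, h2, h3, h4⟩ := hmem _ (hxs s hs)
    refine ⟨ext (xs s), gib12_seg hℓ h2, h3, rfl, ?_⟩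
    intro e he
    obtain ⟨b, hb, rfl⟩ := Finset.mem_image.1 he
    exact hX' (h4 b hb)
  · intro s hs t ht hst
    have h := hdis _ (hxs s hs) _ (hxs t ht) (fun h => hst (congrArg Prod.fst h))
    rw [Finset.disjoint_left] at h ⊢
    intro e he he'
    apply h (a := Sum.inr e)
    · unfold hypE
      exact Finset.mem_insert_of_mem (Finset.mem_image_of_mem _ he)
    · unfold hypE
      exact Finset.mem_insert_of_mem (Finset.mem_image_of_mem _ he')

end SqCyc
end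

section

/-! # MAIN -/

open Finset

namespace SqCyc

theorem hcls_congr {k k' : ℕ} (h : k.bodd = k'.bodd) (w : ℕ → Letter) (ℓ : ℕ) (c : Cls) :
    hcls k w ℓ c = hcls k' w ℓ c := by
  unfold hcls clsB clsV
  simp [h]

theorem card_idx (n : ℕ) (hn : 2 ≤ n) : (idx n).card = 3 * n - 3 := by
  unfold idx
  rw [card_sdiff_of_subset]
  · simp only [card_product, card_range]
    have : ({(0, 0), (0, 1), (1, 0)} : Finset (ℕ × ℕ)).card = 3 := by decide
    rw [this]
  · intro b hb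
    simp only [mem_insert, mem_singleton] at hb
    simp only [mem_product, mem_range]
    rcases hb with h | h | h <;> subst h <;> simp <;> omega

theorem exists_hcls_pos (k : ℕ) (w : ℕ → Letter) (ℓ : ℕ) (hℓ : 2 ≤ ℓ) :
    ∃ c, 1 ≤ hcls k w ℓ c := by
  have hne : (idx ℓ).Nonempty := by
    rw [← card_pos, card_idx ℓ hℓ]; omega
  obtain ⟨b, hb⟩ := hne
  refine ⟨clsB k w b, ?_⟩
  unfold hcls
  exact card_pos.2 ⟨b, mem_filter.2 ⟨hb, rfl⟩⟩

theorem PA_mem (k : ℕ) [NeZero k] (s : ℕ) : PA k s ∈ Lset k LA := by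
  unfold PA Lset
  simp only [mem_filter, mem_univ, true_and]
  rw [val_natCast_bodd]
  simp [Nat.bodd_mul]

theorem PC_mem (k : ℕ) [NeZero k] (s : ℕ) : PC k s ∈ Lset k LC := by
  unfold PC Lset
  simp only [mem_filter, mem_univ, true_and]
  rw [val_natCast_bodd]
  have : (4 * s).bodd = ((2 * (2 * s)) : ℕ).bodd := by congr 1; ring
  rw [this]
  simp [Nat.bodd_mul]

/-- the degenerate colours -/
def degen (k : ℕ) : Finset El := {El.p false 0, El.p true 0, El.p false k, El.p true k}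

theorem card_Ports_le (k M : ℕ) : (Ports k M).card ≤ 3 * (M + 1) + 1 := by
  unfold Ports
  refine (card_union_le _ _).trans ?_
  have h1 := card_union_le ((range (M + 1)).image (fun s => vtx (PA k s)) ∪
    (range (M + 1)).image (fun s => vtx (PC k s))) ((range (M + 1)).image (fun s => El.x (2 * s)))
  have h2 := card_union_le ((range (M + 1)).image (fun s => vtx (PA k s)))
    ((range (M + 1)).image (fun s => vtx (PC k s)))
  have h3 := card_image_le (s := range (M + 1)) (f := fun s => vtx (PA k s))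
  have h4 := card_image_le (s := range (M + 1)) (f := fun s => vtx (PC k s))
  have h5 := card_image_le (s := range (M + 1)) (f := fun s => El.x (2 * s))
  rw [card_range] at h3 h4 h5
  rw [card_singleton]
  omega

/-- the extra segment -/
theorem exists_extra (k : ℕ) [NeZero k] (m R : ℕ) (hR : 10 ≤ R) (u : ℕ → Letter)
    (u0 : u 0 = LA) (u1 : u 1 = LC) (uR : u R = LA) (uR1 : u (R + 1) = LC)
    (hm : 4 * (m + 1) < k) (hk : 10 * (3 * (m + 2) + 5) + 30 * R + 20 < k) :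
    ∃ yE : ℕ → Pt k, Seg k u R (PA k m) (PC k m) (PA k (m + 1)) (PC k (m + 1)) yE ∧
      Set.InjOn (el yE) (idx R) ∧ (idx R).image (el yE) ⊆ U k ∧
      Disjoint ((idx R).image (el yE)) (Ports k (m + 1)) ∧
      ∀ c, (((idx R).image (el yE)).filter (fun e => clsEl k e = c)).card = hcls k u R c := by
  have hPU := Ports_subset k (m + 1) hm
  have hmem : ∀ s ≤ m + 1, vtx (PA k s) ∈ Ports k (m + 1) ∧ vtx (PC k s) ∈ Ports k (m + 1) := by
    intro s hs
    constructor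
    · simp only [Ports, mem_union, mem_image, mem_range]
      exact Or.inl (Or.inl (Or.inl ⟨s, by omega, rfl⟩))
    · simp only [Ports, mem_union, mem_image, mem_range]
      exact Or.inl (Or.inl (Or.inr ⟨s, by omega, rfl⟩))
  have hne : ∀ s, PA k s ≠ PC k s := by
    intro s h
    have := congrArg Prod.fst h
    simp [PA, PC] at this
  obtain ⟨yE, hseg, hinj, hav⟩ := ext_seg_empty u R hR (PA k m) (PC k m) (PA k (m + 1))
    (PC k (m + 1)) (hne m) (hne (m + 1)) (Ports k (m + 1) ∪ degen k)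
    (mem_union_left _ (hmem m (by omega)).1) (mem_union_left _ (hmem m (by omega)).2)
    (mem_union_left _ (hmem (m + 1) le_rfl).1) (mem_union_left _ (hmem (m + 1) le_rfl).2)
    (by
      have h1 := card_union_le (Ports k (m + 1)) (degen k)
      have h2 := card_Ports_le k (m + 1)
      have h3 : (degen k).card ≤ 4 := by
        unfold degen
        exact card_le_four
      omega)
  -- letters of all positions
  have hlet : ∀ i, i < R + 2 → yE i ∈ Lset k (u i) := by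
    intro i hi
    by_cases h0 : i = 0
    · subst h0; rw [hseg.h0, u0]; exact PA_mem k m
    by_cases h1 : i = 1
    · subst h1; rw [hseg.h1, u1]; exact PC_mem k m
    by_cases h2 : i = R
    · subst h2; rw [hseg.hn, uR]; exact PA_mem k (m + 1)
    by_cases h3 : i = R + 1
    · subst h3; rw [hseg.hn1, uR1]; exact PC_mem k (m + 1)
    exact hseg.lett i (by omega) (by omega)
  have hidx : ∀ b ∈ idx R, b.1 < 3 ∧ b.2 < R := by
    intro b hb
    unfold idx at hb
    rw [mem_sdiff, mem_product, mem_range, mem_range] at hb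
    exact hb.1
  have hcls : ∀ b ∈ idx R, clsEl k (el yE b) = clsB k u b := by
    intro b hb
    obtain ⟨h1, h2⟩ := hidx b hb
    unfold el clsB
    split_ifs with h
    · exact clsEl_vtx (hlet _ (by omega))
    · exact clsEl_col (hlet _ (by omega)) (hlet _ (by omega))
  refine ⟨yE, hseg, hinj, ?_, ?_, ?_⟩
  · intro e he
    rw [mem_image] at he
    obtain ⟨b, hb, rfl⟩ := he
    have hall : el yE b ∈ Uall k := by
      unfold el
      split_ifs
      · exact mem_union_left _ (vtx_mem_U _)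
      · exact col_mem_Uall _ _
    unfold Uall at hall
    rcases mem_union.1 hall with h | h
    · exact h
    · exact absurd (mem_union_right _ h) (hav b hb)
  · rw [disjoint_left]
    intro e he hP
    rw [mem_image] at he
    obtain ⟨b, hb, rfl⟩ := he
    exact hav b hb (mem_union_left _ hP)
  · intro c
    unfold SqCyc.hcls
    rw [filter_image, card_image_of_injOn]
    · congr 1
      apply filter_congr
      intro b hb
      rw [hcls b hb]
    · intro b hb b' hb' h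
      exact hinj (mem_of_mem_filter b hb) (mem_of_mem_filter b' hb') h

theorem main_k : ∃ k₀ : ℕ, ∀ (k : ℕ) [NeZero k], k₀ ≤ k → ∃ y : ℕ → Pt k, HalfBlock k y := by
  obtain ⟨q, hq⟩ : ∃ q : ℕ, q = 10 ^ 13 := ⟨_, rfl⟩
  have hq1 : 10 ^ 13 ≤ q := hq.ge
  clear hq
  obtain ⟨w0, w1, wl, wl1, hwins, hwcnt⟩ := slot_word q (by omega)
  obtain ⟨ℓ, hℓ⟩ : ∃ ℓ : ℕ, ℓ = 92 * q := ⟨_, rfl⟩
  rw [← hℓ] at wl wl1 hwins hwcnt
  have hℓ1 : 9 * 10 ^ 14 ≤ ℓ := by omega
  have hℓ4 : ℓ % 4 = 0 := by omega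
  clear hℓ hq1
  obtain ⟨w, hw⟩ : ∃ w : ℕ → Letter, w = wslot := ⟨_, rfl⟩
  rw [← hw] at w0 w1 wl wl1 hwins hwcnt
  clear hw
  -- absorption
  obtain ⟨ε0, hε0, m0, habs0⟩ := absorption' Cls (hcls 0 w ℓ) (exists_hcls_pos 0 w ℓ (by omega))
    400 (1 / 10 ^ 8) (by norm_num)
  obtain ⟨ε1, hε1, m1, habs1⟩ := absorption' Cls (hcls 1 w ℓ) (exists_hcls_pos 1 w ℓ (by omega))
    400 (1 / 10 ^ 8) (by norm_num)
  obtain ⟨k0, hk0⟩ := nibHyp_slots ℓ w (by omega) w0 w1 wl wl1 ε0 hε0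
  obtain ⟨k1, hk1⟩ := nibHyp_slots ℓ w (by omega) w0 w1 wl wl1 ε1 hε1
  refine ⟨k0 + k1 + 10 ^ 15 * ℓ + ℓ * (m0 + m1 + 2) + 42, ?_⟩
  intro k _ hk
  obtain ⟨L, hL⟩ : ∃ L : ℕ, L = ℓ * (m0 + m1 + 2) := ⟨_, rfl⟩
  rw [← hL] at hk
  -- the number of slots and the length of the extra segment
  obtain ⟨m, hm⟩ : ∃ m : ℕ, m = (2 * k - 42) / ℓ := ⟨_, rfl⟩
  have hℓpos : 0 < ℓ := by omega
  have hmℓ : m * ℓ ≤ 2 * k - 42 := by rw [hm]; exact Nat.div_mul_le_self _ _
  have hmℓ' : 2 * k - 42 < m * ℓ + ℓ := by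
    have := Nat.lt_mul_div_succ (2 * k - 42) hℓpos
    rw [← hm] at this
    nlinarith
  have hmge : m0 + m1 + 2 ≤ m := by
    rw [hm, Nat.le_div_iff_mul_le hℓpos]
    have : (m0 + m1 + 2) * ℓ = L := by rw [hL]; ring
    omega
  clear hm
  obtain ⟨P, hP⟩ : ∃ P : ℕ, P = m * ℓ := ⟨_, rfl⟩
  rw [← hP] at hmℓ hmℓ'
  have hmP : 9 * 10 ^ 14 * m ≤ P := by
    rw [hP]; nlinarith
  obtain ⟨R, hR⟩ : ∃ R : ℕ, R = 2 * k - 2 - P := ⟨_, rfl⟩
  have hlen : m * ℓ + R + 2 = 2 * k := by rw [← hP]; omega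
  have hR40 : 40 ≤ R := by omega
  have hRℓ : R < 40 + ℓ := by omega
  have hP4 : P % 4 = 0 := by
    rw [hP, Nat.mul_mod, hℓ4]; simp
  have h4m : 4 * (m + 1) < k := by omega
  have h400 : 400000 * (m + 1) ≤ k := by omega
  -- the word of the extra segment
  obtain ⟨u, u0, u1, uR, uR1, hu⟩ : ∃ u : ℕ → Letter, u 0 = LA ∧ u 1 = LC ∧ u R = LA ∧
      u (R + 1) = LC ∧ ∀ c, bcnt k u R c = if k.bodd then tgt k R c else tgt' R c := by
    by_cases hodd : k.bodd = true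
    · obtain ⟨u, a, b, c, d, e⟩ := extra_word_odd R (by omega) (by
        have : k % 2 = 1 := by rw [Nat.mod_two_of_bodd, hodd]; rfl
        omega)
      exact ⟨u, a, b, c, d, fun c => by rw [e k c, if_pos hodd]⟩
    · have hev : k.bodd = false := by simpa using hodd
      obtain ⟨u, a, b, c, d, e⟩ := extra_word_even R (by omega) (by
        have : k % 2 = 0 := by rw [Nat.mod_two_of_bodd, hev]; rfl
        omega)
      exact ⟨u, a, b, c, d, fun c => by rw [e k c hev, if_neg hodd]⟩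
  obtain ⟨yE, hseg, hEinj, hEU, hEP, hEc⟩ := exists_extra k m R (by omega) u u0 u1 uR uR1 h4m
    (by omega)
  obtain ⟨X, hX⟩ : ∃ X : Finset El, X = U k \ (Ports k (m + 1) ∪ (idx R).image (el yE)) :=
    ⟨_, rfl⟩
  have hXU : X ⊆ U k := by rw [hX]; exact sdiff_subset
  have hcX : ∀ c, (X.filter (fun e => clsEl k e = c)).card = hcls k w ℓ c * m := by
    intro c
    rw [hX]
    exact card_X_cls k m ℓ R hlen h4m (by omega) hℓ4 (by omega) w u w0 w1 u0 u1
      (fun c => hwcnt k c) hu _ hEU hEP hEc c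
  have hmemP : ∀ s ≤ m + 1, vtx (PA k s) ∈ Ports k (m + 1) ∧ vtx (PC k s) ∈ Ports k (m + 1) := by
    intro s hs
    constructor
    · simp only [Ports, mem_union, mem_image, mem_range]
      exact Or.inl (Or.inl (Or.inl ⟨s, by omega, rfl⟩))
    · simp only [Ports, mem_union, mem_image, mem_range]
      exact Or.inl (Or.inl (Or.inr ⟨s, by omega, rfl⟩))
  have hctx : Ctx k ℓ w m X := by
    refine ⟨hXU, ?_, ?_, hwins⟩
    · intro s hs h
      rw [hX, mem_sdiff] at h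
      exact h.2 (mem_union_left _ (hmemP s (by omega)).1)
    · intro s hs h
      rw [hX, mem_sdiff] at h
      exact h.2 (mem_union_left _ (hmemP s (by omega)).2)
  have hUX : (U k \ X).card ≤ 3 * m + 3 * ℓ + 130 := by
    have h1 : U k \ X ⊆ Ports k (m + 1) ∪ (idx R).image (el yE) := by
      intro e he
      rw [hX, mem_sdiff, mem_sdiff, not_and_not_right] at he
      exact he.2 he.1
    have h2 := card_le_card h1
    have h3 := card_union_le (Ports k (m + 1)) ((idx R).image (el yE))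
    have h4 := card_Ports_le k (m + 1)
    have h5 := card_image_le (s := idx R) (f := el yE)
    rw [card_idx R (by omega)] at h5
    omega
  have hnat : 10 ^ 8 * (U k \ X).card ≤ k := by omega
  have hlm : ℓ * m ≤ 2 * k := by
    have : ℓ * m = P := by rw [hP]; ring
    omega
  have hreal : (10 : ℝ) ^ 11 * ((U k \ X).card + 1 / 10 ^ 8 * m + ℓ) < k := by
    have a1 : ((U k \ X).card : ℝ) ≤ 3 * m + 3 * ℓ + 130 := by exact_mod_cast hUX
    have a2 : (9 * 10 ^ 14 * (m : ℝ)) ≤ P := by exact_mod_cast hmP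
    have a3 : (P : ℝ) ≤ 2 * k := by
      have : P ≤ 2 * k := by omega
      exact_mod_cast this
    have a4 : (10 ^ 15 * (ℓ : ℝ)) ≤ k := by
      have : 10 ^ 15 * ℓ ≤ k := by omega
      exact_mod_cast this
    have a5 : (900000000000000 : ℝ) ≤ (ℓ : ℝ) := by
      have : (900000000000000 : ℕ) ≤ ℓ := by omega
      exact_mod_cast this
    have a6 : (0 : ℝ) ≤ m := Nat.cast_nonneg _
    have b0 : (10 : ℝ) ^ 11 = 100000000000 := by norm_num
    have b1 : (1 : ℝ) / 10 ^ 8 * m = m / 100000000 := by ring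
    rw [b0, b1]
    norm_num at a2 a4
    linarith
  have hsys := absSys_slots hctx w0 w1 wl wl1 hcX (1 / 10 ^ 8) (by norm_num) hreal
  -- absorption
  have hcov : CovT (Fill k w ℓ X) (range m) X := by
    by_cases hodd : k.bodd = true
    · have hh : hcls k w ℓ = hcls 1 w ℓ := by
        funext c; exact hcls_congr (by rw [hodd]; rfl) w ℓ c
      have hn := hk1 k m X (by omega) hctx hcX hnat hlm h400
      rw [hh] at hsys hn
      exact habs1 El m X (clsEl k) (Fill k w ℓ X) (by omega) hsys hn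
    · have hev : k.bodd = false := by simpa using hodd
      have hh : hcls k w ℓ = hcls 0 w ℓ := by
        funext c; exact hcls_congr (by rw [hev]; rfl) w ℓ c
      have hn := hk0 k m X (by omega) hctx hcX hnat hlm h400
      rw [hh] at hsys hn
      exact habs0 El m X (clsEl k) (Fill k w ℓ X) (by omega) hsys hn
  rw [hX] at hcov
  exact glue k m ℓ R (by omega) hlen h4m (by omega) (by omega) w u yE hseg hEinj hEU hEP hcov

theorem main : ∃ n₀ : ℕ, ∀ n : ℕ, n₀ ≤ n → n % 4 = 1 → Decomposes n := by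
  obtain ⟨k0, hk0⟩ := main_k
  refine ⟨4 * (k0 + 2) + 1, ?_⟩
  intro n hn h4
  obtain ⟨k, rfl⟩ : ∃ k, n = 4 * k + 1 := ⟨n / 4, by omega⟩
  have hk2 : 2 ≤ k := by omega
  have : NeZero k := ⟨by omega⟩
  obtain ⟨y, hy⟩ := hk0 k (by omega)
  exact decomposes_of_halfBlock k hk2 y hy

end SqCyc
end
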